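import Mathlib

/-!
# The free product of copies of `ℤ/2`, by reduced words

`FW α`: the lists of letters without two equal consecutive letters. The HEAD of the list is the LAST letter
of the word (so that multiplication by a letter on the right acts at the head of the list). `FW.rm a` is the
right multiplication by the letter `a`.
-/

namespace SingerLG

open scoped Classical

/-- Reduced words (the head of the list is the last letter). -/
@[ext]
structure FW (α : Type) where
  /-- the list of the letters -/
  l : List α
  red : l.IsChain (· ≠ ·)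

variable {α : Type}

/-- Right multiplication of a list by the letter `a`. -/
noncomputable def rmL (a : α) : List α → List α
  | [] => [a]
  | b :: l => if a = b then l else a :: b :: l

theorem rmL_nil (a : α) : rmL a [] = [a] := rfl

theorem rmL_self (a : α) (l : List α) : rmL a (a :: l) = l := if_pos rfl

theorem rmL_ne {a b : α} (h : a ≠ b) (l : List α) : rmL a (b :: l) = a :: b :: l := if_neg h

theorem rmL_chain (a : α) {l : List α} (h : l.IsChain (· ≠ ·)) : (rmL a l).IsChain (· ≠ ·) := by
  match l, h with
  | [], _ => exact List.isChain_singleton a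
  | b :: l, h =>
    by_cases e : a = b
    · subst e
      rw [rmL_self]
      exact h.tail
    · rw [rmL_ne e]
      exact List.isChain_cons_cons.mpr ⟨e, h⟩

theorem rmL_rmL (a : α) {l : List α} (h : l.IsChain (· ≠ ·)) : rmL a (rmL a l) = l := by
  match l, h with
  | [], _ => rw [rmL_nil, rmL_self]
  | b :: l, h =>
    by_cases e : a = b
    · subst e
      rw [rmL_self]
      match l, h with
      | [], _ => rfl
      | c :: l, h =>
        have h1 := (List.isChain_cons_cons.mp h).1
        rw [rmL_ne h1]
    · rw [rmL_ne e, rmL_self]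

/-- A letter prepended to a reduced word is its right multiplication. -/
theorem rmL_cons {a : α} {l : List α} (h : (a :: l).IsChain (· ≠ ·)) : rmL a l = a :: l := by
  match l, h with
  | [], _ => rfl
  | b :: l, h => exact rmL_ne (List.isChain_cons_cons.mp h).1 l

/-- Right multiplication by the letter `a`. -/
noncomputable def FW.rm (a : α) (w : FW α) : FW α := ⟨rmL a w.1, rmL_chain a w.2⟩

theorem FW.rm_rm (a : α) (w : FW α) : FW.rm a (FW.rm a w) = w := FW.ext (rmL_rmL a w.2)

/-- The product: `w` times the letters of `u`. -/
noncomputable def FW.mulL (w : FW α) (u : List α) : FW α := u.foldr FW.rm w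

theorem FW.mulL_nil (w : FW α) : FW.mulL w [] = w := rfl

theorem FW.mulL_cons (w : FW α) (a : α) (u : List α) :
    FW.mulL w (a :: u) = FW.rm a (FW.mulL w u) := rfl

theorem FW.mulL_append (w : FW α) (u v : List α) :
    FW.mulL w (v ++ u) = FW.mulL (FW.mulL w u) v := List.foldr_append

theorem FW.mulL_rmL (w : FW α) (a : α) (u : List α) :
    FW.mulL w (rmL a u) = FW.rm a (FW.mulL w u) := by
  match u with
  | [] => rfl
  | b :: u =>
    by_cases e : a = b
    · subst e
      rw [rmL_self, FW.mulL_cons, FW.rm_rm]
    · rw [rmL_ne e, FW.mulL_cons]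

theorem FW.mulL_mulL (w v : FW α) (u : List α) :
    FW.mulL w (FW.mulL v u).1 = FW.mulL (FW.mulL w v.1) u := by
  induction u with
  | nil => rfl
  | cons a u ih =>
    show FW.mulL w (rmL a (FW.mulL v u).1) = _
    rw [FW.mulL_rmL, ih]
    rfl

/-- The empty word times the letters of a reduced word. -/
theorem FW.one_mulL {l : List α} (h : l.IsChain (· ≠ ·)) :
    FW.mulL (⟨[], List.isChain_nil⟩ : FW α) l = ⟨l, h⟩ := by
  induction l with
  | nil => rfl
  | cons a l ih =>
    rw [FW.mulL_cons, ih h.tail]
    exact FW.ext (rmL_cons h)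

theorem chain_reverse {l : List α} (h : l.IsChain (· ≠ ·)) : l.reverse.IsChain (· ≠ ·) := by
  rw [List.isChain_reverse]
  exact h.imp fun a b h => h.symm

theorem FW.mulL_reverse (l : List α) (h : l.IsChain (· ≠ ·)) :
    FW.mulL (⟨l, h⟩ : FW α) l.reverse = ⟨[], List.isChain_nil⟩ := by
  induction l with
  | nil => rfl
  | cons a l ih =>
    rw [List.reverse_cons, FW.mulL_append]
    have h1 : FW.mulL (⟨a :: l, h⟩ : FW α) [a] = ⟨l, h.tail⟩ := FW.ext (rmL_self a l)
    rw [h1]
    exact ih h.tail

noncomputable instance FW.instGroup : Group (FW α) where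
  mul w u := FW.mulL w u.1
  one := ⟨[], List.isChain_nil⟩
  inv w := ⟨w.1.reverse, chain_reverse w.2⟩
  mul_assoc w v u := (FW.mulL_mulL w v u.1).symm
  one_mul w := FW.one_mulL w.2
  mul_one w := rfl
  inv_mul_cancel w := by
    have h := FW.mulL_reverse w.1.reverse (chain_reverse w.2)
    rw [List.reverse_reverse] at h
    exact h

/-- The letter `a` as an element. -/
def FW.of (a : α) : FW α := ⟨[a], List.isChain_singleton a⟩

theorem FW.one_l : (1 : FW α).l = [] := rfl

theorem FW.mul_def (w u : FW α) : w * u = FW.mulL w u.1 := rfl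

theorem FW.mul_of (w : FW α) (a : α) : w * FW.of a = FW.rm a w := rfl

theorem FW.of_mul_of (a : α) : FW.of a * FW.of a = 1 := by
  rw [FW.mul_of]
  exact FW.ext (rmL_self a [])

/-- Induction over the words, from the first letter on. -/
theorem FW.induction {p : FW α → Prop} (one : p 1)
    (mul : ∀ (w : FW α) (a : α), (∀ b l, w.1 = b :: l → a ≠ b) → p w → p (w * FW.of a)) (w : FW α) :
    p w := by
  obtain ⟨l, h⟩ := w
  induction l with
  | nil => exact one
  | cons a l ih =>
    have h1 := mul ⟨l, h.tail⟩ a (fun b l' e => by
      have e' : l = b :: l' := e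
      subst e'
      exact (List.isChain_cons_cons.mp h).1) (ih h.tail)
    have h2 : (⟨l, h.tail⟩ : FW α) * FW.of a = ⟨a :: l, h⟩ := FW.ext (rmL_cons h)
    rwa [h2] at h1

/-- A bijection of the letters acts on the words. -/
def FW.map {β : Type} (e : α ≃ β) (w : FW α) : FW β :=
  ⟨w.1.map e, by
    rw [List.isChain_map]
    exact w.2.imp fun a b h h' => h (e.injective h')⟩

theorem FW.map_rm {β : Type} (e : α ≃ β) (a : α) (w : FW α) :
    FW.map e (FW.rm a w) = FW.rm (e a) (FW.map e w) := by
  apply FW.ext
  obtain ⟨l, h⟩ := w
  match l, h with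
  | [], _ => rfl
  | b :: l, h =>
    show (rmL a (b :: l)).map e = rmL (e a) (e b :: l.map e)
    by_cases h1 : a = b
    · subst h1
      rw [rmL_self, rmL_self]
    · rw [rmL_ne h1, rmL_ne fun h2 => h1 (e.injective h2)]
      rfl

theorem FW.map_mul {β : Type} (e : α ≃ β) (w u : FW α) :
    FW.map e (w * u) = FW.map e w * FW.map e u := by
  obtain ⟨l, h⟩ := u
  show FW.map e (FW.mulL w l) = FW.mulL (FW.map e w) (l.map e)
  clear h
  induction l with
  | nil => rfl
  | cons a l ih =>
    rw [FW.mulL_cons, FW.map_rm, ih]
    rfl

theorem FW.map_id (w : FW α) : FW.map (Equiv.refl α) w = w := FW.ext (List.map_id _)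

theorem FW.map_map {β γ : Type} (e : α ≃ β) (f : β ≃ γ) (w : FW α) :
    FW.map f (FW.map e w) = FW.map (e.trans f) w := by
  apply FW.ext
  show (w.1.map e).map f = w.1.map (e.trans f)
  rw [List.map_map]
  rfl

/-- The action of a group on the words given by an action on the letters. -/
noncomputable def FW.aut {G : Type} [Group G] [MulAction G α] : G →* MulAut (FW α) where
  toFun g :=
    { toFun := FW.map (MulAction.toPerm g)
      invFun := FW.map (MulAction.toPerm g⁻¹)
      left_inv := fun w => by
        rw [FW.map_map]
        have : (MulAction.toPerm g : Equiv.Perm α).trans (MulAction.toPerm g⁻¹) = Equiv.refl α := by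
          ext a
          show g⁻¹ • g • a = a
          rw [inv_smul_smul]
        rw [this, FW.map_id]
      right_inv := fun w => by
        rw [FW.map_map]
        have : (MulAction.toPerm g⁻¹ : Equiv.Perm α).trans (MulAction.toPerm g) = Equiv.refl α := by
          ext a
          show g • g⁻¹ • a = a
          rw [smul_inv_smul]
        rw [this, FW.map_id]
      map_mul' := FW.map_mul _ }
  map_one' := by
    ext w : 1
    show FW.map (MulAction.toPerm (1 : G)) w = w
    have : (MulAction.toPerm (1 : G) : Equiv.Perm α) = Equiv.refl α := by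
      ext a
      show (1 : G) • a = a
      rw [one_smul]
    rw [this, FW.map_id]
  map_mul' g h := by
    ext w : 1
    show FW.map (MulAction.toPerm (g * h)) w = FW.map (MulAction.toPerm g) (FW.map (MulAction.toPerm h) w)
    rw [FW.map_map]
    congr 1
    ext a
    show (g * h) • a = g • h • a
    rw [mul_smul]

theorem FW.aut_l {G : Type} [Group G] [MulAction G α] (g : G) (w : FW α) :
    (FW.aut g w).1 = w.1.map (g • ·) := rfl

theorem FW.aut_of {G : Type} [Group G] [MulAction G α] (g : G) (a : α) :
    FW.aut g (FW.of a) = FW.of (g • a) := rfl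

end SingerLG
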