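import Mathlib
import Pool.Agent.Lib_MP_394d50_cub.Defs
import Pool.Agent.Lib_MP_394d50_lg.FWord

/-!
# Stages: abstract cube complexes (vertices, directions, half-spaces)

A stage is a set `V` of vertices with, for every vertex `v`, a finite set `D v` of directions (labels in
`S`), the neighbour `nb s v` of `v` in the direction `s ∈ D v` (the label of the same edge is the same at
its two ends), the crossing relation `cr` of the labels (two directions at `v` span a square if and only if they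
cross), and a colour for every label (crossing labels have different colours). The `j`-cubes at `v` are the
cliques `σ ⊆ D v` with `j` elements. `Hs v s` is the half-space which contains `v` and is bounded by the
wall of the edge `(v, s)`.
-/

namespace SingerLG

open SingerVS SingerCub
open scoped Pointwise

/-- The data of a stage (with an action of the group `G`). -/
structure Dat (G V S : Type) [Group G] [MulAction G V] [MulAction G S] where
  /-- the directions at `v` -/
  D : V → Finset S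
  /-- the neighbours -/
  nb : S → V → V
  /-- the labels cross -/
  cr : S → S → Prop
  /-- the colours -/
  col : S → ℕ
  smul_D : ∀ (g : G) v s, s ∈ D v → g • s ∈ D (g • v)
  smul_nb : ∀ (g : G) s v, nb (g • s) (g • v) = g • nb s v
  smul_cr : ∀ (g : G) s t, cr s t → cr (g • s) (g • t)
  smul_col : ∀ (g : G) s, col (g • s) = col s

section

variable {G V S : Type} [Group G] [MulAction G V] [MulAction G S]

/-- `u` is a neighbour of `v` in a direction of a colour different from `c`. -/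
def Dat.StepN (A : Dat G V S) (c : ℕ) (v u : V) : Prop := ∃ s ∈ A.D v, A.col s ≠ c ∧ u = A.nb s v

/-- `v` and `u` are in the same region (they can be joined without crossing the colour `c`). -/
def Dat.Rg (A : Dat G V S) (c : ℕ) : V → V → Prop := Relation.ReflTransGen (A.StepN c)

/-- Move along the wall of the label `s`. -/
def Dat.StepP (A : Dat G V S) (s : S) (v u : V) : Prop := ∃ r ∈ A.D v, A.cr s r ∧ u = A.nb r v

/-- `v` and `u` are on the same side of the same wall (of label `s`), both adjacent to it. -/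
def Dat.Par (A : Dat G V S) (s : S) : V → V → Prop := Relation.ReflTransGen (A.StepP s)

/-- `u` is a neighbour of `v`. -/
def Dat.Step (A : Dat G V S) (v u : V) : Prop := ∃ s ∈ A.D v, u = A.nb s v

/-- `σ` is a clique of the crossing relation. -/
def Dat.Cl (A : Dat G V S) (σ : Finset S) : Prop := ∀ s ∈ σ, ∀ t ∈ σ, s ≠ t → A.cr s t

/-- The axioms of a stage. -/
structure Stg (A : Dat G V S) (Hs : V → S → Set V) : Prop where
  cr_symm : ∀ s t, A.cr s t → A.cr t s
  cr_col : ∀ s t, A.cr s t → A.col s ≠ A.col t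
  nb_mem : ∀ v, ∀ s ∈ A.D v, s ∈ A.D (A.nb s v)
  nb_nb : ∀ v, ∀ s ∈ A.D v, A.nb s (A.nb s v) = v
  nb_D : ∀ v, ∀ s ∈ A.D v, ∀ t ∈ A.D v, A.cr s t → t ∈ A.D (A.nb s v)
  comm : ∀ v, ∀ s ∈ A.D v, ∀ t ∈ A.D v, A.cr s t → A.nb s (A.nb t v) = A.nb t (A.nb s v)
  conn : ∀ v u, Relation.ReflTransGen A.Step v u
  free : ∀ (g : G) (v : V), g • v = v → g = 1
  fin : Finite (Orb G V)
  /-- `v` is in its half-space -/
  mem : ∀ v, ∀ s ∈ A.D v, v ∈ Hs v s
  /-- the neighbour has the complementary half-space -/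
  opp : ∀ v, ∀ s ∈ A.D v, Hs (A.nb s v) s = (Hs v s)ᶜ
  /-- parallel edges have the same half-space -/
  par : ∀ v, ∀ s ∈ A.D v, ∀ t ∈ A.D v, A.cr s t → Hs (A.nb t v) s = Hs v s
  /-- only the edges of the wall itself cross it -/
  crs : ∀ v, ∀ s ∈ A.D v, ∀ u, ∀ t ∈ A.D u, ¬ (A.nb t u ∈ Hs v s ↔ u ∈ Hs v s) →
    t = s ∧ (A.Par s v u ∨ A.Par s (A.nb s v) u)
  /-- two directions which do not cross: nothing is beyond both walls -/
  sqr : ∀ v, ∀ s ∈ A.D v, ∀ t ∈ A.D v, s ≠ t → ¬ A.cr s t → ∀ u, u ∈ Hs v s ∨ u ∈ Hs v t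
  smul : ∀ (g : G) v, ∀ s ∈ A.D v, ∀ u, u ∈ Hs v s → g • u ∈ Hs (g • v) (g • s)

end

/-! ## Flags (pairs of a vertex and a cube at this vertex) and chains -/

section

variable {G V S : Type} [Group G] [MulAction G V] [MulAction G S] [DecidableEq S]

/-- The flags `(v, σ)`: `σ` is a clique of directions at `v`. -/
def Dat.Fl (A : Dat G V S) : Type := {x : V × Finset S // x.2 ⊆ A.D x.1 ∧ A.Cl x.2}

/-- The vertex of a flag. -/
def Dat.Fl.v {A : Dat G V S} (x : A.Fl) : V := x.1.1

/-- The cube of a flag. -/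
def Dat.Fl.σ {A : Dat G V S} (x : A.Fl) : Finset S := x.1.2

/-- The flag `(v, σ)`. -/
def Dat.fl (A : Dat G V S) (v : V) (σ : Finset S) (h : σ ⊆ A.D v ∧ A.Cl σ) : A.Fl := ⟨(v, σ), h⟩

omit [DecidableEq S] in
theorem Dat.Fl.ext {A : Dat G V S} {x y : A.Fl} (h1 : x.v = y.v) (h2 : x.σ = y.σ) : x = y :=
  Subtype.ext (Prod.ext h1 h2)

theorem Dat.smul_Cl (A : Dat G V S) (g : G) {σ : Finset S} (h : A.Cl σ) : A.Cl (g • σ) := by
  intro s hs t ht hst
  obtain ⟨s', hs', rfl⟩ := Finset.mem_smul_finset.mp hs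
  obtain ⟨t', ht', rfl⟩ := Finset.mem_smul_finset.mp ht
  exact A.smul_cr g _ _ (h s' hs' t' ht' fun e => hst (by rw [e]))

theorem Dat.smul_sub (A : Dat G V S) (g : G) {v : V} {σ : Finset S} (h : σ ⊆ A.D v) :
    g • σ ⊆ A.D (g • v) := by
  intro s hs
  obtain ⟨s', hs', rfl⟩ := Finset.mem_smul_finset.mp hs
  exact A.smul_D g _ _ (h hs')

instance Dat.Fl.instAct (A : Dat G V S) : MulAction G A.Fl where
  smul g x := ⟨(g • x.v, g • x.σ), A.smul_sub g x.2.1, A.smul_Cl g x.2.2⟩
  one_smul _ := Dat.Fl.ext (one_smul G _) (one_smul G _)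
  mul_smul g h _ := Dat.Fl.ext (mul_smul g h _) (mul_smul g h _)

theorem Dat.Fl.smul_v {A : Dat G V S} (g : G) (x : A.Fl) : (g • x).v = g • x.v := rfl

theorem Dat.Fl.smul_σ {A : Dat G V S} (g : G) (x : A.Fl) : (g • x).σ = g • x.σ := rfl

open scoped Classical in
/-- The same cube seen from the neighbour in the direction `s ∈ σ`. -/
noncomputable def Dat.mv (A : Dat G V S) (s : S) (x : A.Fl) : A.Fl :=
  if h : x.σ ⊆ A.D (A.nb s x.v) then ⟨(A.nb s x.v, x.σ), h, x.2.2⟩ else x

open scoped Classical in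
/-- The larger cube `(v, σ ∪ {t})`. -/
noncomputable def Dat.ins (A : Dat G V S) (t : S) (x : A.Fl) : A.Fl :=
  if h : t ∈ A.D x.v ∧ A.Cl (insert t x.σ) then
    ⟨(x.v, insert t x.σ), Finset.insert_subset h.1 x.2.1, h.2⟩ else x

open scoped Classical in
/-- The directions `t` such that `(v, σ ∪ {t})` is a larger cube. -/
noncomputable def Dat.exs (A : Dat G V S) (x : A.Fl) : Finset S :=
  (A.D x.v).filter fun t => t ∉ x.σ ∧ A.Cl (insert t x.σ)

/-- The sign `(-1) ^ i`, `i` the number of the elements of `σ` of a colour smaller than that of `t`. -/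
def Dat.sg (A : Dat G V S) (x : A.Fl) (t : S) : ℝ :=
  (-1) ^ (x.σ.filter fun s => A.col s < A.col t).card

/-- The conditions for chains of degree `j`, with matching along the directions with `P`. -/
def Dat.gensC (A : Dat G V S) (P : S → Prop) (j : ℕ) : Set (L2 A.Fl) :=
  {z | (∃ x : A.Fl, x.σ.card ≠ j ∧ z = delta x) ∨
    ∃ (x : A.Fl) (s : S), s ∈ x.σ ∧ P s ∧ z = delta x + delta (A.mv s x)}

/-- The cycle conditions. -/
def Dat.gensB (A : Dat G V S) (j : ℕ) : Set (L2 A.Fl) :=
  {z | ∃ x : A.Fl, x.σ.card + 1 = j ∧ z = ∑ t ∈ A.exs x, A.sg x t • delta (A.ins t x)}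

/-- The square summable `j`-chains: functions `z` on the flags with `z (v, σ) = 0` for `|σ| ≠ j` and
`z (vs, σ) = - z (v, σ)` for `s ∈ σ`. -/
noncomputable def Dat.Ch (A : Dat G V S) (j : ℕ) : Submodule ℝ (L2 A.Fl) :=
  (Submodule.span ℝ (A.gensC (fun _ => True) j))ᗮ

/-- The square summable `j`-cycles. -/
noncomputable def Dat.Z (A : Dat G V S) (j : ℕ) : Submodule ℝ (L2 A.Fl) :=
  (Submodule.span ℝ (A.gensC (fun _ => True) j ∪ A.gensB j))ᗮ

instance Dat.instProjCh (A : Dat G V S) (j : ℕ) : (A.Ch j).HasOrthogonalProjection := by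
  unfold Dat.Ch
  infer_instance

instance Dat.instProjZ (A : Dat G V S) (j : ℕ) : (A.Z j).HasOrthogonalProjection := by
  unfold Dat.Z
  infer_instance

open scoped Classical in
/-- The cubes (of all dimensions) at `v`. -/
noncomputable def Dat.cubes (A : Dat G V S) (v : V) : Finset (Finset S) :=
  (A.D v).powerset.filter fun σ => A.Cl σ

open scoped Classical in
theorem Dat.mem_cubes {A : Dat G V S} {v : V} {σ : Finset S} :
    σ ∈ A.cubes v ↔ σ ⊆ A.D v ∧ A.Cl σ := by
  unfold Dat.cubes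
  rw [Finset.mem_filter, Finset.mem_powerset]

/-- The local trace of `T` at the vertex `v`. -/
noncomputable def Dat.loc (A : Dat G V S) (T : L2 A.Fl →L[ℝ] L2 A.Fl) (v : V) : ℝ :=
  ∑ σ ∈ (A.cubes v).attach, inner ℝ (T (delta (A.fl v σ.1 (Dat.mem_cubes.mp σ.2))))
    (delta (A.fl v σ.1 (Dat.mem_cubes.mp σ.2)))

/-- The local dimension of the `j`-cycles at `v`. -/
noncomputable def Dat.dz (A : Dat G V S) (j : ℕ) (v : V) : ℝ := A.loc (A.Z j).starProjection v

/-- The local dimension of the `j`-chains at `v`: every `j`-cube has `2 ^ j` vertices. -/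
noncomputable def Dat.cN (A : Dat G V S) (j : ℕ) (v : V) : ℝ :=
  (((A.cubes v).filter fun σ => σ.card = j).card : ℝ) / 2 ^ j

/-- The graph of the link of `v`. -/
def Dat.lkg (A : Dat G V S) (v : V) : SimpleGraph {s : S // s ∈ A.D v} where
  Adj s t := s ≠ t ∧ (A.cr s.1 t.1 ∨ A.cr t.1 s.1)
  symm := ⟨fun _ _ h => ⟨h.1.symm, h.2.symm⟩⟩
  loopless := ⟨fun _ h => h.1 rfl⟩

/-- The sum over the orbits of vertices. -/
noncomputable def osum (G : Type) {V : Type} [Group G] [MulAction G V] (f : V → ℝ) : ℝ :=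
  ∑ᶠ o : Orb G V, f o.out

end

end SingerLG
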