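import Mathlib
import Pool.Agent.Lib_MP_394d50_lg.SDefs

/-!
# The mirrored stage

`A` a stage, `c` a colour, `b` a vertex, the region `ρ` of `b`: the vertices which can be joined to `b`
without crossing the colour `c`. Letters: the half-spaces `Hs v s`, `v ∈ ρ`, `s ∈ D v` of colour `c` (the boundary
walls of the region). The mirrored stage has the vertices `(w, x)`, `w` a reduced word in the letters,
`x ∈ ρ`; the neighbour of `(w, x)` in a direction of colour `c` is `(w a, x)`, `a` the letter of the wall; in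
the other directions it is `(w, nb s x)`. The group is the semidirect product of the words and of the stabiliser of
the region.
-/

namespace SingerLG

open SingerVS SingerCub
open scoped Pointwise

section

variable {G V S : Type} [Group G] [MulAction G V] [MulAction G S]

/-- `v` is in the region of `b` and adjacent to the wall `a` of colour `c`. -/
def Dat.Adj (A : Dat G V S) (Hs : V → S → Set V) (c : ℕ) (b : V) (a : Set V) (v : V) : Prop :=
  A.Rg c b v ∧ ∃ s ∈ A.D v, A.col s = c ∧ Hs v s = a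

/-- The letters: the boundary walls of the region. -/
def Dat.Lt (A : Dat G V S) (Hs : V → S → Set V) (c : ℕ) (b : V) : Type :=
  {a : Set V // ∃ v, A.Adj Hs c b a v}

/-- The region. -/
def Dat.Rn (A : Dat G V S) (c : ℕ) (b : V) : Type := {v : V // A.Rg c b v}

variable {A : Dat G V S} {Hs : V → S → Set V}

theorem Stg.cr_mem (hA : Stg A Hs) {v : V} {s t : S} (hs : s ∈ A.D v) (ht : t ∈ A.D v)
    (h : A.cr s t) : t ∈ A.D (A.nb s v) := hA.nb_D v s hs t ht h

theorem Dat.Rg.smul {c : ℕ} {v u : V} (h : A.Rg c v u) (g : G) : A.Rg c (g • v) (g • u) := by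
  induction h with
  | refl => exact Relation.ReflTransGen.refl
  | tail _ h ih =>
    obtain ⟨s, hs, hc, rfl⟩ := h
    refine ih.tail ⟨g • s, A.smul_D g _ _ hs, ?_, (A.smul_nb g _ _).symm⟩
    rw [A.smul_col]
    exact hc

theorem Stg.rg_symm (hA : Stg A Hs) {c : ℕ} {v u : V} (h : A.Rg c v u) : A.Rg c u v := by
  induction h with
  | refl => exact Relation.ReflTransGen.refl
  | @tail x y _ h ih =>
    obtain ⟨s, hs, hc, rfl⟩ := h
    exact Relation.ReflTransGen.head ⟨s, hA.nb_mem _ s hs, hc, (hA.nb_nb _ s hs).symm⟩ ih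

/-- The stabiliser of the region. -/
def Stg.Gr (hA : Stg A Hs) (c : ℕ) (b : V) : Subgroup G where
  carrier := {g | A.Rg c b (g • b)}
  mul_mem' := by
    intro g h hg hh
    show A.Rg c b ((g * h) • b)
    rw [mul_smul]
    exact hg.trans (hh.smul g)
  one_mem' := by
    show A.Rg c b ((1 : G) • b)
    rw [one_smul]
    exact Relation.ReflTransGen.refl
  inv_mem' := by
    intro g hg
    have h := Dat.Rg.smul hg g⁻¹
    rw [inv_smul_smul] at h
    exact hA.rg_symm h

theorem Stg.smul_adj (hA : Stg A Hs) {c : ℕ} {b : V} (g : hA.Gr c b) {a : Set V} {v : V}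
    (h : A.Adj Hs c b a v) : A.Adj Hs c b ((g : G) • a) ((g : G) • v) := by
  obtain ⟨h1, s, hs, hc, rfl⟩ := h
  refine ⟨?_, (g : G) • s, A.smul_D _ _ _ hs, by rw [A.smul_col]; exact hc, ?_⟩
  · have h2 : A.Rg c b ((g : G) • b) := g.2
    exact h2.trans (h1.smul g)
  · ext u
    constructor
    · intro hu
      have h3 := hA.smul (g : G)⁻¹ _ _ (A.smul_D _ _ _ hs) _ hu
      rw [inv_smul_smul, inv_smul_smul] at h3
      exact Set.mem_smul_set_iff_inv_smul_mem.mpr h3
    · intro hu
      obtain ⟨u', hu', rfl⟩ := hu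
      exact hA.smul _ _ _ hs _ hu'

instance Stg.instLt (hA : Stg A Hs) (c : ℕ) (b : V) : MulAction (hA.Gr c b) (A.Lt Hs c b) where
  smul g a := ⟨(g : G) • a.1, by
    obtain ⟨v, hv⟩ := a.2
    exact ⟨_, hA.smul_adj g hv⟩⟩
  one_smul a := Subtype.ext (one_smul G a.1)
  mul_smul g h a := Subtype.ext (mul_smul (g : G) (h : G) a.1)

instance Stg.instRn (hA : Stg A Hs) (c : ℕ) (b : V) : MulAction (hA.Gr c b) (A.Rn c b) where
  smul g v := ⟨(g : G) • v.1, by
    have h2 : A.Rg c b ((g : G) • b) := g.2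
    exact h2.trans (v.2.smul g)⟩
  one_smul a := Subtype.ext (one_smul G a.1)
  mul_smul g h a := Subtype.ext (mul_smul (g : G) (h : G) a.1)

/-- The group of the mirrored stage. -/
abbrev Stg.Gm (hA : Stg A Hs) (c : ℕ) (b : V) : Type :=
  FW (A.Lt Hs c b) ⋊[(FW.aut : hA.Gr c b →* MulAut (FW (A.Lt Hs c b)))] (hA.Gr c b)

/-- The vertices of the mirrored stage. -/
def Dat.Vm (A : Dat G V S) (Hs : V → S → Set V) (c : ℕ) (b : V) : Type :=
  FW (A.Lt Hs c b) × A.Rn c b

noncomputable instance Stg.instVm (hA : Stg A Hs) (c : ℕ) (b : V) : MulAction (hA.Gm c b) (A.Vm Hs c b) where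
  smul g x := (g.left * FW.aut g.right x.1, g.right • x.2)
  one_smul x := by
    refine Prod.ext ?_ (one_smul (hA.Gr c b) x.2)
    show 1 * FW.aut (1 : hA.Gr c b) x.1 = x.1
    rw [map_one, one_mul]
    rfl
  mul_smul g h x := by
    refine Prod.ext ?_ (mul_smul g.right h.right x.2)
    show g.left * FW.aut g.right h.left * FW.aut (g.right * h.right) x.1 =
      g.left * FW.aut g.right (h.left * FW.aut h.right x.1)
    rw [map_mul, map_mul, mul_assoc]
    rfl

/-- The action of the group of the mirrored stage on the labels. -/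
instance Stg.instSm (hA : Stg A Hs) (c : ℕ) (b : V) : MulAction (hA.Gm c b) S where
  smul g s := (g.right : G) • s
  one_smul s := one_smul G s
  mul_smul g h s := mul_smul (g.right : G) (h.right : G) s

/-- The letter of the wall of the edge `(x, s)`, `s` of colour `c`. -/
def Dat.lt (A : Dat G V S) (Hs : V → S → Set V) {c : ℕ} {b : V} (x : A.Rn c b) (s : S)
    (h : s ∈ A.D x.1) (hc : A.col s = c) : A.Lt Hs c b :=
  ⟨Hs x.1 s, x.1, x.2, s, h, hc, rfl⟩

open scoped Classical in
/-- The neighbours in the mirrored stage. -/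
noncomputable def Dat.nbm (A : Dat G V S) (Hs : V → S → Set V) {c : ℕ} {b : V} (s : S)
    (x : A.Vm Hs c b) : A.Vm Hs c b :=
  if h : s ∈ A.D x.2.1 then
    if hc : A.col s = c then (x.1 * FW.of (A.lt Hs x.2 s h hc), x.2)
    else (x.1, ⟨A.nb s x.2.1, x.2.2.tail ⟨s, h, hc, rfl⟩⟩)
  else x

theorem Dat.nbm_eq {c : ℕ} {b : V} {s : S} {x : A.Vm Hs c b} (h : s ∈ A.D x.2.1)
    (hc : A.col s = c) : A.nbm Hs s x = (x.1 * FW.of (A.lt Hs x.2 s h hc), x.2) := by
  unfold Dat.nbm
  rw [dif_pos h, dif_pos hc]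

theorem Dat.nbm_ne {c : ℕ} {b : V} {s : S} {x : A.Vm Hs c b} (h : s ∈ A.D x.2.1)
    (hc : A.col s ≠ c) :
    A.nbm Hs s x = (x.1, ⟨A.nb s x.2.1, x.2.2.tail ⟨s, h, hc, rfl⟩⟩) := by
  unfold Dat.nbm
  rw [dif_pos h, dif_neg hc]

theorem Dat.nbm_not {c : ℕ} {b : V} {s : S} {x : A.Vm Hs c b} (h : s ∉ A.D x.2.1) :
    A.nbm Hs s x = x := by
  unfold Dat.nbm
  rw [dif_neg h]

theorem Dat.smul_D_iff (A : Dat G V S) (g : G) (v : V) (s : S) :
    g • s ∈ A.D (g • v) ↔ s ∈ A.D v := by
  constructor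
  · intro h
    have h1 := A.smul_D g⁻¹ _ _ h
    rwa [inv_smul_smul, inv_smul_smul] at h1
  · exact A.smul_D g v s

theorem Stg.smul_Hs (hA : Stg A Hs) (g : G) {v : V} {s : S} (hs : s ∈ A.D v) :
    Hs (g • v) (g • s) = g • Hs v s := by
  ext u
  constructor
  · intro hu
    have h3 := hA.smul (g : G)⁻¹ _ _ (A.smul_D _ _ _ hs) _ hu
    rw [inv_smul_smul, inv_smul_smul] at h3
    exact Set.mem_smul_set_iff_inv_smul_mem.mpr h3
  · intro hu
    obtain ⟨u', hu', rfl⟩ := hu
    exact hA.smul _ _ _ hs _ hu'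

/-- The mirrored stage. -/
noncomputable def Stg.mir (hA : Stg A Hs) (c : ℕ) (b : V) :
    Dat (hA.Gm c b) (A.Vm Hs c b) S where
  D x := A.D x.2.1
  nb := A.nbm Hs
  cr := A.cr
  col := A.col
  smul_D g x s h := A.smul_D (g.right : G) _ _ h
  smul_nb g s x := by
    by_cases h : s ∈ A.D x.2.1
    · have h' : g • s ∈ A.D (g • x).2.1 := A.smul_D (g.right : G) _ _ h
      by_cases hc : A.col s = c
      · have hc' : A.col (g • s) = c := (A.smul_col (g.right : G) s).trans hc
        rw [Dat.nbm_eq h hc, Dat.nbm_eq h' hc']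
        refine Prod.ext ?_ rfl
        show g.left * FW.aut g.right x.1 * FW.of (A.lt Hs (g.right • x.2) (g • s) h' hc') =
          g.left * FW.aut g.right (x.1 * FW.of (A.lt Hs x.2 s h hc))
        rw [map_mul, FW.aut_of, mul_assoc]
        congr 3
        exact Subtype.ext (hA.smul_Hs (g.right : G) h)
      · have hc' : A.col (g • s) ≠ c := fun e => hc ((A.smul_col (g.right : G) s).symm.trans e)
        rw [Dat.nbm_ne h hc, Dat.nbm_ne h' hc']
        refine Prod.ext rfl (Subtype.ext ?_)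
        exact A.smul_nb (g.right : G) s x.2.1
    · have h' : g • s ∉ A.D (g • x).2.1 := fun e => h ((A.smul_D_iff (g.right : G) _ _).mp e)
      rw [Dat.nbm_not h, Dat.nbm_not h']
  smul_cr g s t h := A.smul_cr (g.right : G) s t h
  smul_col g s := A.smul_col (g.right : G) s

/-! ## The half-spaces of the mirrored stage -/

/-- The wall `a` (a letter) crosses the half-space `k`: there are vertices of the region adjacent to `a` on both
sides. -/
def Dat.Xs (A : Dat G V S) (Hs : V → S → Set V) {c : ℕ} {b : V} (k : Set V) (a : A.Lt Hs c b) :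
    Prop := (∃ v, A.Adj Hs c b a.1 v ∧ v ∈ k) ∧ ∃ v, A.Adj Hs c b a.1 v ∧ v ∉ k

/-- The wall `a` meets the half-space `k`. -/
def Dat.Ik (A : Dat G V S) (Hs : V → S → Set V) {c : ℕ} {b : V} (k : Set V) (a : A.Lt Hs c b) :
    Prop := ∃ v, A.Adj Hs c b a.1 v ∧ v ∈ k

/-- The side of `k` of the point `(l, y)` (the head of the list `l` is the last letter): it is decided by
the first letter of the word which does not cross `k`; if there is none, by `y`. `SdL k l o`, where `o` is the
answer in case all letters of `l` cross `k`. -/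
def Dat.SdL (A : Dat G V S) (Hs : V → S → Set V) {c : ℕ} {b : V} (k : Set V) :
    List (A.Lt Hs c b) → Prop → Prop
  | [], o => o
  | a :: l, o => A.SdL Hs k l ((A.Xs Hs k a → o) ∧ (¬ A.Xs Hs k a → A.Ik Hs k a))

/-- The half-space of the edge `((1, x), s)` of the mirrored stage: for a wall of colour `c` the words which
do not begin with its letter; otherwise the points which are on the side `Hs x s`. -/
def Dat.Hm1 (A : Dat G V S) (Hs : V → S → Set V) {c : ℕ} {b : V} (x : A.Rn c b) (s : S) :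
    Set (A.Vm Hs c b) :=
  {u | (A.col s = c → ∀ a ∈ u.1.l.getLast?, a.1 ≠ Hs x.1 s) ∧
    (A.col s ≠ c → A.SdL Hs (Hs x.1 s) u.1.l (u.2.1 ∈ Hs x.1 s))}

/-- The half-spaces of the mirrored stage. -/
noncomputable def Dat.Hm (A : Dat G V S) (Hs : V → S → Set V) (c : ℕ) (b : V)
    (x : A.Vm Hs c b) (s : S) : Set (A.Vm Hs c b) :=
  {u | (x.1⁻¹ * u.1, u.2) ∈ A.Hm1 Hs x.2 s}

end

end SingerLG
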