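import Mathlib
import Pool.Agent.Lib_MP_394d50_lg.MDefs
import Pool.Agent.Lib_MP_394d50_gt.Defs

/-!
# The cut chains

`Bf c`: the flags which cross the colour `c`; `Bl Hs c a`: those at the side `a` of a wall (`a` a half-space);
`jj c`: go across. `Bad`: the functions on one side of a wall which are orthogonal to all cycles. `Zc`: the cut cycles:
no matching along the colour `c`, but the values on every side of a wall of colour `c` are in the closure of the
restrictions of the cycles. `Fs`: the space of all such boundary values, `As`: the symmetric ones. `Zcm`, `Fsm`, `Asm`: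
the same for the mirrored stage, but defined by the boundary values of the original stage.
-/

namespace SingerLG

open SingerVS SingerCub
open scoped Pointwise

section

variable {G V S : Type} [Group G] [MulAction G V] [MulAction G S] [DecidableEq S]

/-- The flags which cross the colour `c`. -/
def Dat.Bf (A : Dat G V S) (c : ℕ) : Set A.Fl := {x | ∃ s ∈ x.σ, A.col s = c}

/-- The flags at the side `a` of a wall of colour `c`. -/
def Dat.Bl (A : Dat G V S) (Hs : V → S → Set V) (c : ℕ) (a : Set V) : Set A.Fl :=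
  {x | ∃ s ∈ x.σ, A.col s = c ∧ Hs x.v s = a}

open scoped Classical in
/-- Go across the wall of colour `c`. -/
noncomputable def Dat.jj (A : Dat G V S) (c : ℕ) (x : A.Fl) : A.Fl :=
  if h : ∃ s ∈ x.σ, A.col s = c then A.mv h.choose x else x

/-- The functions on one side of a wall which are orthogonal to all cycles. -/
def Dat.Bad (A : Dat G V S) (Hs : V → S → Set V) (c j : ℕ) : Set (L2 A.Fl) :=
  {y | ∃ a : Set V, (∀ x, x ∉ A.Bl Hs c a → y x = 0) ∧ ∀ z ∈ A.Z j, inner ℝ y z = 0}

/-- The cut cycles. -/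
noncomputable def Dat.Zc (A : Dat G V S) (Hs : V → S → Set V) (c j : ℕ) :
    Submodule ℝ (L2 A.Fl) :=
  (Submodule.span ℝ (A.gensC (fun s => A.col s ≠ c) j ∪ A.gensB j ∪ A.Bad Hs c j))ᗮ

/-- The boundary values. -/
noncomputable def Dat.Fs (A : Dat G V S) (Hs : V → S → Set V) (c j : ℕ) :
    Submodule ℝ (L2 A.Fl) :=
  (Submodule.span ℝ ({z | ∃ x, x ∉ A.Bf c ∧ z = delta x} ∪ A.Bad Hs c j))ᗮ

/-- The symmetric boundary values. -/
noncomputable def Dat.As (A : Dat G V S) (Hs : V → S → Set V) (c j : ℕ) :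
    Submodule ℝ (L2 A.Fl) :=
  (Submodule.span ℝ ({z | ∃ x, x ∉ A.Bf c ∧ z = delta x} ∪ A.Bad Hs c j ∪
    {z | ∃ x, x ∈ A.Bf c ∧ z = delta x - delta (A.jj c x)}))ᗮ

instance Dat.instProjZc (A : Dat G V S) (Hs : V → S → Set V) (c j : ℕ) :
    (A.Zc Hs c j).HasOrthogonalProjection := by
  unfold Dat.Zc
  infer_instance

instance Dat.instProjFs (A : Dat G V S) (Hs : V → S → Set V) (c j : ℕ) :
    (A.Fs Hs c j).HasOrthogonalProjection := by
  unfold Dat.Fs
  infer_instance

instance Dat.instProjAs (A : Dat G V S) (Hs : V → S → Set V) (c j : ℕ) :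
    (A.As Hs c j).HasOrthogonalProjection := by
  unfold Dat.As
  infer_instance

/-! ## The mirrored stage -/

variable {A : Dat G V S} {Hs : V → S → Set V}

/-- The flag `((w, x), σ)` of the mirrored stage. -/
def Stg.emb (hA : Stg A Hs) {c : ℕ} {b : V} (w : FW (A.Lt Hs c b)) (x : A.Fl)
    (h : A.Rg c b x.v) : (hA.mir c b).Fl := ⟨((w, ⟨x.v, h⟩), x.σ), x.2⟩

/-- `y'` is the function `y` on the copy `w` of the region, and zero on the other copies. -/
def Stg.Push (hA : Stg A Hs) {c : ℕ} {b : V} (w : FW (A.Lt Hs c b)) (y : L2 A.Fl)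
    (y' : L2 (hA.mir c b).Fl) : Prop :=
  (∀ x h, y' (hA.emb w x h) = y x) ∧ ∀ u : (hA.mir c b).Fl, u.v.1 ≠ w → y' u = 0

/-- `z` is the restriction of `z'` to the copy `w` of the region (zero outside of the region). -/
def Stg.Pull (hA : Stg A Hs) {c : ℕ} {b : V} (w : FW (A.Lt Hs c b))
    (z' : L2 (hA.mir c b).Fl) (z : L2 A.Fl) : Prop :=
  (∀ x h, z x = z' (hA.emb w x h)) ∧ ∀ x : A.Fl, ¬ A.Rg c b x.v → z x = 0

/-- The functions on the mirrored stage all of whose restrictions to the copies of the region are in `M`. -/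
noncomputable def Stg.Cp (hA : Stg A Hs) (c : ℕ) (b : V) (M : Submodule ℝ (L2 A.Fl)) :
    Submodule ℝ (L2 (hA.mir c b).Fl) :=
  (Submodule.span ℝ {y' | ∃ w, ∃ y ∈ Mᗮ, hA.Push w y y'})ᗮ

instance Stg.instProjCp (hA : Stg A Hs) (c : ℕ) (b : V) (M : Submodule ℝ (L2 A.Fl)) :
    (hA.Cp c b M).HasOrthogonalProjection := by
  unfold Stg.Cp
  infer_instance

/-- The symmetric boundary values of the mirrored stage. -/
noncomputable def Stg.Asm (hA : Stg A Hs) (c : ℕ) (b : V) (j : ℕ) :
    Submodule ℝ (L2 (hA.mir c b).Fl) :=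
  (Submodule.span ℝ ({y' | ∃ w, ∃ y ∈ (A.Fs Hs c j)ᗮ, hA.Push w y y'} ∪
    {z | ∃ x, x ∈ (hA.mir c b).Bf c ∧ z = delta x - delta ((hA.mir c b).jj c x)}))ᗮ

instance Stg.instProjAsm (hA : Stg A Hs) (c : ℕ) (b : V) (j : ℕ) :
    (hA.Asm c b j).HasOrthogonalProjection := by
  unfold Stg.Asm
  infer_instance

/-! ## The standard stage of a right-angled Coxeter group -/

/-- Labels with the trivial action of every group. -/
structure Lab (α : Type) where
  /-- the label -/
  val : α
deriving DecidableEq

instance Lab.instTriv (G α : Type) [Group G] : MulAction G (Lab α) where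
  smul _ s := s
  one_smul _ := rfl
  mul_smul _ _ _ := rfl

/-- The standard stage: the vertices are the elements of the right-angled Coxeter group of `L`, the
neighbours of `w` are the `w * gen s`. -/
noncomputable def std {α : Type} [Fintype α] (L : SimpleGraph α) (f : α → ℕ) :
    Dat (SingerRA.W L) (SingerRA.W L) (Lab α) where
  D _ := (Finset.univ : Finset α).map ⟨Lab.mk, fun _ _ h => congrArg Lab.val h⟩
  nb s w := w * SingerRA.gen L s.val
  cr s t := L.Adj s.val t.val
  col s := f s.val
  smul_D _ _ _ h := h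
  smul_nb g s v := (mul_assoc g v _)
  smul_cr _ _ _ h := h
  smul_col _ _ := rfl

open scoped Classical in
/-- The local dimension of the `j`-cycles of the Davis complex of `L` at a vertex. -/
noncomputable def wz {α : Type} [Fintype α] (L : SimpleGraph α) (f : α → ℕ) (j : ℕ) : ℝ :=
  (std L f).dz j 1

/-- The link graph of `v` has the local dimension `wz`. -/
noncomputable def Dat.wl (A : Dat G V S) (j : ℕ) (v : V) : ℝ :=
  wz (A.lkg v) (fun s => A.col s.1) j

end

end SingerLG
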