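import Mathlib
import Pool.Agent.Lib_MP_394d50_lg.ADefs

/-!
# Piece A1: membership in the spaces of chains

All spaces are orthogonal complements of spans of explicit sets: `z ∈ (span T)ᗮ` iff `inner ℝ y z = 0` for all `y ∈ T`
(`Submodule.mem_orthogonal`, `Submodule.span_induction`, see `SingerCub.sup_eq` in `Lib_MP_394d50_cub/Defs.lean`),
and `inner ℝ (delta x) z = z x` (`SingerVS.delta_inner`), `inner_add_left`, `sum_inner`, `inner_smul_left`.
`mem_As`: `inner (delta x - delta (jj x)) f = f x - f (jj x)`.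
-/

namespace SingerLG

open SingerVS SingerCub

variable {G V S : Type} [Group G] [MulAction G V] [MulAction G S] [DecidableEq S]
  {A : Dat G V S} {Hs : V → S → Set V} {c j : ℕ}

theorem mem_orth_span {C : Type} {T : Set (L2 C)} {z : L2 C} :
    z ∈ (Submodule.span ℝ T)ᗮ ↔ ∀ y ∈ T, inner ℝ y z = 0 := by
  rw [Submodule.mem_orthogonal]
  constructor
  · intro h y hy
    exact h y (Submodule.subset_span hy)
  · intro h u hu
    induction hu using Submodule.span_induction with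
    | mem u hu => exact h u hu
    | zero => exact inner_zero_left _
    | add u v _ _ hu hv => rw [inner_add_left, hu, hv, add_zero]
    | smul r u _ hu => rw [inner_smul_left, hu, mul_zero]

private theorem AMem_add {C : Type} (x y : C) (z : L2 C) : inner ℝ (delta x + delta y : L2 C) z = z x + z y := by
  rw [inner_add_left, delta_inner, delta_inner]

private theorem AMem_sub {C : Type} (x y : C) (z : L2 C) : inner ℝ (delta x - delta y : L2 C) z = z x - z y := by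
  rw [inner_sub_left, delta_inner, delta_inner]

private theorem AMem_union {C : Type} {T T' : Set (L2 C)} {z : L2 C} :
    (∀ y ∈ T ∪ T', inner ℝ y z = 0) ↔ (∀ y ∈ T, inner ℝ y z = 0) ∧ ∀ y ∈ T', inner ℝ y z = 0 := by
  constructor
  · intro h
    exact ⟨fun y hy => h y (Or.inl hy), fun y hy => h y (Or.inr hy)⟩
  · rintro ⟨h1, h2⟩ y (hy | hy)
    · exact h1 y hy
    · exact h2 y hy

private theorem AMem_gensC {P : S → Prop} {z : L2 A.Fl} : (∀ y ∈ A.gensC P j, inner ℝ y z = 0) ↔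
    (∀ x : A.Fl, x.σ.card ≠ j → z x = 0) ∧ ∀ x : A.Fl, ∀ s ∈ x.σ, P s → z (A.mv s x) = - z x := by
  constructor
  · intro h
    refine ⟨fun x hx => ?_, fun x s hs hP => ?_⟩
    · rw [← delta_inner x z]
      exact h _ (Or.inl ⟨x, hx, rfl⟩)
    · have h1 := h _ (Or.inr ⟨x, s, hs, hP, rfl⟩)
      rw [AMem_add] at h1
      linarith
  · rintro ⟨h1, h2⟩ y (⟨x, hx, rfl⟩ | ⟨x, s, hs, hP, rfl⟩)
    · rw [delta_inner]
      exact h1 x hx
    · rw [AMem_add, h2 x s hs hP]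
      ring

private theorem AMem_gensB {z : L2 A.Fl} : (∀ y ∈ A.gensB j, inner ℝ y z = 0) ↔
    ∀ x : A.Fl, x.σ.card + 1 = j → ∑ t ∈ A.exs x, A.sg x t * z (A.ins t x) = 0 := by
  have key : ∀ x : A.Fl, inner ℝ (∑ t ∈ A.exs x, A.sg x t • delta (A.ins t x) : L2 A.Fl) z =
      ∑ t ∈ A.exs x, A.sg x t * z (A.ins t x) := by
    intro x
    rw [sum_inner]
    refine Finset.sum_congr rfl fun t _ => ?_
    rw [inner_smul_left, delta_inner]
    rfl
  constructor
  · intro h x hx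
    rw [← key x]
    exact h _ ⟨x, hx, rfl⟩
  · rintro h y ⟨x, hx, rfl⟩
    rw [key x]
    exact h x hx

theorem Dat.mem_Ch {z : L2 A.Fl} : z ∈ A.Ch j ↔
    (∀ x : A.Fl, x.σ.card ≠ j → z x = 0) ∧ ∀ x : A.Fl, ∀ s ∈ x.σ, z (A.mv s x) = - z x := by
  unfold Dat.Ch
  rw [mem_orth_span, AMem_gensC]
  simp only [true_implies]

theorem Dat.mem_Z {z : L2 A.Fl} : z ∈ A.Z j ↔
    (∀ x : A.Fl, x.σ.card ≠ j → z x = 0) ∧ (∀ x : A.Fl, ∀ s ∈ x.σ, z (A.mv s x) = - z x) ∧
      ∀ x : A.Fl, x.σ.card + 1 = j → ∑ t ∈ A.exs x, A.sg x t * z (A.ins t x) = 0 := by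
  unfold Dat.Z
  rw [mem_orth_span, AMem_union, AMem_gensC, AMem_gensB]
  simp only [true_implies]
  exact and_assoc

theorem Dat.mem_Zc {z : L2 A.Fl} : z ∈ A.Zc Hs c j ↔
    (∀ x : A.Fl, x.σ.card ≠ j → z x = 0) ∧
      (∀ x : A.Fl, ∀ s ∈ x.σ, A.col s ≠ c → z (A.mv s x) = - z x) ∧
      (∀ x : A.Fl, x.σ.card + 1 = j → ∑ t ∈ A.exs x, A.sg x t * z (A.ins t x) = 0) ∧
      ∀ y ∈ A.Bad Hs c j, inner ℝ y z = 0 := by
  unfold Dat.Zc
  rw [mem_orth_span, AMem_union, AMem_union, AMem_gensC, AMem_gensB]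
  rw [and_assoc, and_assoc]

theorem Dat.mem_Fs {f : L2 A.Fl} : f ∈ A.Fs Hs c j ↔
    (∀ x : A.Fl, x ∉ A.Bf c → f x = 0) ∧ ∀ y ∈ A.Bad Hs c j, inner ℝ y f = 0 := by
  unfold Dat.Fs
  rw [mem_orth_span, AMem_union]
  refine and_congr ?_ Iff.rfl
  constructor
  · intro h x hx
    rw [← delta_inner x f]
    exact h _ ⟨x, hx, rfl⟩
  · rintro h y ⟨x, hx, rfl⟩
    rw [delta_inner]
    exact h x hx

theorem Dat.mem_As {f : L2 A.Fl} : f ∈ A.As Hs c j ↔
    f ∈ A.Fs Hs c j ∧ ∀ x : A.Fl, x ∈ A.Bf c → f (A.jj c x) = f x := by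
  unfold Dat.As Dat.Fs
  rw [mem_orth_span, AMem_union, mem_orth_span]
  refine and_congr Iff.rfl ?_
  constructor
  · intro h x hx
    have h1 := h _ ⟨x, hx, rfl⟩
    rw [AMem_sub] at h1
    linarith
  · rintro h y ⟨x, hx, rfl⟩
    rw [AMem_sub, h x hx]
    ring

end SingerLG
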