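import Mathlib
import Pool.Agent.Lib_MP_394d50_cub.ERk
import Pool.Agent.Lib_MP_394d50_cub.ETr

/-!
# Piece A3: rank and nullity for equivariant operators

`FO H C`: a free action with finitely many orbits. Use `tr_ker` (`Lib_MP_394d50_cub/ERk.lean`): for an equivariant
`F`, `tr (ker F) = tr (ker F*)`.

`tr_orth`: `P_M + P_Mᗮ = 1` (`tr_add`; `Submodule.starProjection` of the orthogonal complement).
`tr_sum`: for `M ≤ K` with `N = K ⊓ Mᗮ`: `P_K = P_M + P_N`.
`tr_mono`: `P_K - P_M` is the projection on `K ⊓ Mᗮ`, or: `⟨P_M δ, δ⟩ = ‖P_M δ‖² ≤ ‖P_K δ‖²`.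
`tr_rank`: let `F = Ψ ∘ P_K`. `ker F` is the orthogonal sum of `Kᗮ` and `K₀`: `tr (ker F) = tr 1 - tr K + tr K₀`.
`ker F* = {y | y ⊥ Ψ(K)}`; by `h2`, `h3` this is `Aᗮ` (`y = P_A y + (y - P_A y)`, the second part is orthogonal to `A ∋ Ψ x`, so
`y ⊥ Ψ(K)` iff `P_A y ⊥ Ψ(K)` iff `P_A y = 0`). So `tr (ker F*) = tr 1 - tr A`.
`tr_rank_le`: without `h3`: `Aᗮ ≤ ker F*`, `tr (ker F*) ≥ tr 1 - tr A`.
`tr_half`: `J = twE e (fun _ => 1)`, `(J z) (e c) = z c`, so `(J z) c = z (e c)` as `e (e c) = c`. `P_A = (1/2) (1 + J) P_F`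
(`Submodule.eq_starProjection_of_mem_of_inner_eq_zero`; `J` is self-adjoint: `⟨Jx, y⟩ = ⟨x, Jy⟩`), and
`⟨J P_F δ_c, δ_c⟩ = (P_F δ_c) (e c) = 0` (`hd`). `tr_add`, `tr_smul`.
-/

namespace SingerLG

open SingerVS SingerCub

variable {H C : Type} [Group H] [MulAction H C]

private theorem aabs_self (M : Submodule ℝ (L2 C)) [M.HasOrthogonalProjection] (x : L2 C) :
    inner ℝ (M.starProjection x) x = ‖M.starProjection x‖ ^ 2 := by
  have h := M.starProjection_inner_eq_zero x (M.starProjection x) (M.starProjection_apply_mem x)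
  rw [inner_sub_left, sub_eq_zero, real_inner_self_eq_norm_sq] at h
  rw [real_inner_comm]
  exact h

private theorem aabs_in (M : Submodule ℝ (L2 C)) [M.HasOrthogonalProjection] (x : L2 C)
    {w : L2 C} (hw : w ∈ M) : inner ℝ (M.starProjection x) w = inner ℝ x w := by
  have h := M.starProjection_inner_eq_zero x w hw
  rw [inner_sub_left, sub_eq_zero] at h
  exact h.symm

theorem tr_orth (hC : FO H C) (M : Submodule ℝ (L2 C)) [M.HasOrthogonalProjection] :
    tr H Mᗮ.starProjection = tr H (ContinuousLinearMap.id ℝ (L2 C)) - tr H M.starProjection := by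
  have h1 : Mᗮ.starProjection + M.starProjection = ContinuousLinearMap.id ℝ (L2 C) := by
    ext1 x
    show Mᗮ.starProjection x + M.starProjection x = x
    rw [Submodule.starProjection_orthogonal_val, sub_add_cancel]
  rw [← h1, tr_add hC, add_sub_cancel_right]

theorem tr_mono (hC : FO H C) {M K : Submodule ℝ (L2 C)} [M.HasOrthogonalProjection]
    [K.HasOrthogonalProjection] (h : M ≤ K) : tr H M.starProjection ≤ tr H K.starProjection := by
  have := hC.cofin
  let _ : Fintype (Orb H C) := Fintype.ofFinite _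
  unfold tr
  rw [finsum_eq_sum_of_fintype, finsum_eq_sum_of_fintype]
  refine Finset.sum_le_sum fun o _ => ?_
  rw [aabs_self, aabs_self]
  set x : L2 C := delta o.out
  set a := ‖M.starProjection x‖
  have h1 : inner ℝ (M.starProjection x) (K.starProjection x) = a ^ 2 := by
    rw [real_inner_comm, aabs_in K x (h (M.starProjection_apply_mem x)), real_inner_comm,
      aabs_self]
  have h2 := real_inner_le_norm (M.starProjection x) (K.starProjection x)
  rw [h1] at h2
  have h3 : 0 ≤ a := norm_nonneg _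
  have h4 : 0 ≤ ‖K.starProjection x‖ := norm_nonneg _
  have h5 : a ≤ ‖K.starProjection x‖ := by
    by_contra hc
    push Not at hc
    nlinarith [show a * ‖K.starProjection x‖ < a * a from
      mul_lt_mul_of_pos_left hc (lt_of_le_of_lt h4 hc)]
  exact pow_le_pow_left₀ h3 h5 2

/-- The kernel of `Ψ ∘ P_K` is the orthogonal sum of `Kᗮ` and `{x ∈ K | Ψ x = 0}`. -/
private theorem aabs_ker (hC : FO H C) {K K₁ N : Submodule ℝ (L2 C)} [K.HasOrthogonalProjection]
    [K₁.HasOrthogonalProjection] [N.HasOrthogonalProjection] {Ψ : L2 C →L[ℝ] L2 C}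
    (h1 : ∀ x, x ∈ K₁ ↔ x ∈ K ∧ Ψ x = 0) (hN : ∀ x, x ∈ N ↔ Ψ (K.starProjection x) = 0) :
    tr H N.starProjection = tr H (ContinuousLinearMap.id ℝ (L2 C)) - tr H K.starProjection +
      tr H K₁.starProjection := by
  have hop : N.starProjection = Kᗮ.starProjection + K₁.starProjection := by
    ext1 x
    show N.starProjection x = Kᗮ.starProjection x + K₁.starProjection x
    refine N.eq_starProjection_of_mem_of_inner_eq_zero ?_ ?_
    · rw [hN]
      have h2 := (h1 _).mp (K₁.starProjection_apply_mem x)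
      rw [map_add, Submodule.starProjection_orthogonal_val, map_sub,
        Submodule.starProjection_eq_self_iff.mpr (K.starProjection_apply_mem x), sub_self,
        zero_add, Submodule.starProjection_eq_self_iff.mpr h2.1]
      exact h2.2
    · intro w hw
      rw [hN] at hw
      have h2 : K.starProjection w ∈ K₁ := (h1 _).mpr ⟨K.starProjection_apply_mem w, hw⟩
      have h3 : K₁.starProjection x ∈ K := ((h1 _).mp (K₁.starProjection_apply_mem x)).1
      rw [Submodule.starProjection_orthogonal_val, sub_add_eq_sub_sub, sub_sub_cancel,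
        inner_sub_left]
      have h4 : inner ℝ (K.starProjection x) w = inner ℝ x (K.starProjection w) :=
        Submodule.inner_starProjection_left_eq_right K x w
      have h5 : inner ℝ (K₁.starProjection x) w = inner ℝ x (K.starProjection w) := by
        rw [real_inner_comm, ← aabs_in K w h3, real_inner_comm, aabs_in K₁ x h2]
      rw [h4, h5, sub_self]
  rw [hop, tr_add hC, tr_orth hC]

private theorem aabs_adj {K M : Submodule ℝ (L2 C)} [K.HasOrthogonalProjection]
    {Ψ : L2 C →L[ℝ] L2 C} (h2 : ∀ x ∈ K, Ψ x ∈ M) {y : L2 C} (hy : y ∈ Mᗮ) :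
    ContinuousLinearMap.adjoint (Ψ.comp K.starProjection) y = 0 := by
  refine ext_inner_right ℝ fun x => ?_
  rw [ContinuousLinearMap.adjoint_inner_left, inner_zero_left]
  exact (M.mem_orthogonal' y).mp hy _ (h2 _ (K.starProjection_apply_mem x))

theorem tr_rank (hC : FO H C) {K K₀ M : Submodule ℝ (L2 C)} [K.HasOrthogonalProjection]
    [K₀.HasOrthogonalProjection] [M.HasOrthogonalProjection] (hK : Inv H K) (hK₀ : Inv H K₀)
    (hM : Inv H M) {Ψ : L2 C →L[ℝ] L2 C} (hΨ : Eqv H Ψ) (h1 : ∀ x, x ∈ K₀ ↔ x ∈ K ∧ Ψ x = 0)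
    (h2 : ∀ x ∈ K, Ψ x ∈ M) (h3 : ∀ g ∈ M, (∀ x ∈ K, inner ℝ g (Ψ x) = 0) → g = 0) :
    tr H K₀.starProjection = tr H K.starProjection - tr H M.starProjection := by
  have hF : Eqv H (Ψ.comp K.starProjection) := hΨ.comp hK.proj
  have hcl : IsClosed ((LinearMap.ker (Ψ.comp K.starProjection).toLinearMap :
      Submodule ℝ (L2 C)) : Set (L2 C)) := (Ψ.comp K.starProjection).isClosed_ker
  have : CompleteSpace ((LinearMap.ker (Ψ.comp K.starProjection).toLinearMap :
      Submodule ℝ (L2 C))) := hcl.completeSpace_coe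
  have hN : ∀ x, x ∈ (LinearMap.ker (Ψ.comp K.starProjection).toLinearMap :
      Submodule ℝ (L2 C)) ↔ Ψ (K.starProjection x) = 0 := fun x => LinearMap.mem_ker
  have e1 := aabs_ker hC h1 hN
  have e2 := tr_ker hC hF (LinearMap.ker (Ψ.comp K.starProjection).toLinearMap) Mᗮ hN (by
    intro y
    refine ⟨fun hy => aabs_adj h2 hy, fun hy => ?_⟩
    have h4 : M.starProjection y = 0 := by
      refine h3 _ (M.starProjection_apply_mem y) fun x hx => ?_
      rw [aabs_in M y (h2 x hx)]
      have h5 : inner ℝ (ContinuousLinearMap.adjoint (Ψ.comp K.starProjection) y) x =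
          inner ℝ y (Ψ (K.starProjection x)) := ContinuousLinearMap.adjoint_inner_left _ _ _
      rw [hy, inner_zero_left, Submodule.starProjection_eq_self_iff.mpr hx] at h5
      exact h5.symm
    rw [M.mem_orthogonal' y]
    intro u hu
    rw [← aabs_in M y hu, h4, inner_zero_left])
  rw [tr_orth hC] at e2
  linarith

theorem tr_rank_le (hC : FO H C) {K K₀ M : Submodule ℝ (L2 C)} [K.HasOrthogonalProjection]
    [K₀.HasOrthogonalProjection] [M.HasOrthogonalProjection] (hK : Inv H K) (hM : Inv H M)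
    {Ψ : L2 C →L[ℝ] L2 C} (hΨ : Eqv H Ψ) (h1 : ∀ x ∈ K, Ψ x = 0 → x ∈ K₀)
    (h2 : ∀ x ∈ K, Ψ x ∈ M) :
    tr H K.starProjection - tr H M.starProjection ≤ tr H K₀.starProjection := by
  have hF : Eqv H (Ψ.comp K.starProjection) := hΨ.comp hK.proj
  have hcl : IsClosed ((LinearMap.ker (Ψ.comp K.starProjection).toLinearMap :
      Submodule ℝ (L2 C)) : Set (L2 C)) := (Ψ.comp K.starProjection).isClosed_ker
  have : CompleteSpace ((LinearMap.ker (Ψ.comp K.starProjection).toLinearMap :
      Submodule ℝ (L2 C))) := hcl.completeSpace_coe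
  have hN : ∀ x, x ∈ (LinearMap.ker (Ψ.comp K.starProjection).toLinearMap :
      Submodule ℝ (L2 C)) ↔ Ψ (K.starProjection x) = 0 := fun x => LinearMap.mem_ker
  have hcl' : IsClosed ((LinearMap.ker (ContinuousLinearMap.adjoint
      (Ψ.comp K.starProjection)).toLinearMap : Submodule ℝ (L2 C)) : Set (L2 C)) :=
    (ContinuousLinearMap.adjoint (Ψ.comp K.starProjection)).isClosed_ker
  have : CompleteSpace ((LinearMap.ker (ContinuousLinearMap.adjoint
      (Ψ.comp K.starProjection)).toLinearMap : Submodule ℝ (L2 C))) := hcl'.completeSpace_coe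
  have hKc : IsClosed (K : Set (L2 C)) := by
    have h3 : (K : Set (L2 C)) = {x | K.starProjection x = x} := by
      ext x
      exact Submodule.starProjection_eq_self_iff.symm
    rw [h3]
    exact isClosed_eq K.starProjection.continuous continuous_id
  have hcl1 : IsClosed (((LinearMap.ker (Ψ.comp K.starProjection).toLinearMap ⊓ K :
      Submodule ℝ (L2 C))) : Set (L2 C)) := by
    rw [Submodule.coe_inf]
    exact hcl.inter hKc
  have : CompleteSpace ((LinearMap.ker (Ψ.comp K.starProjection).toLinearMap ⊓ K :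
      Submodule ℝ (L2 C))) := hcl1.completeSpace_coe
  have h1' : ∀ x, x ∈ (LinearMap.ker (Ψ.comp K.starProjection).toLinearMap ⊓ K :
      Submodule ℝ (L2 C)) ↔ x ∈ K ∧ Ψ x = 0 := by
    intro x
    rw [Submodule.mem_inf, hN, and_comm]
    refine and_congr_right fun hx => ?_
    rw [Submodule.starProjection_eq_self_iff.mpr hx]
  have e1 := aabs_ker hC h1' hN
  have e2 := tr_ker hC hF (LinearMap.ker (Ψ.comp K.starProjection).toLinearMap)
    (LinearMap.ker (ContinuousLinearMap.adjoint (Ψ.comp K.starProjection)).toLinearMap) hN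
    (fun x => LinearMap.mem_ker)
  have e3 : tr H Mᗮ.starProjection ≤ tr H (LinearMap.ker (ContinuousLinearMap.adjoint
      (Ψ.comp K.starProjection)).toLinearMap).starProjection :=
    tr_mono hC fun y hy => LinearMap.mem_ker.mpr (aabs_adj h2 hy)
  have e4 : tr H (LinearMap.ker (Ψ.comp K.starProjection).toLinearMap ⊓ K :
      Submodule ℝ (L2 C)).starProjection ≤ tr H K₀.starProjection :=
    tr_mono hC fun x hx => h1 x ((h1' x).mp hx).1 ((h1' x).mp hx).2
  rw [tr_orth hC] at e3
  linarith

theorem tr_half (hC : FO H C) {F M : Submodule ℝ (L2 C)} [F.HasOrthogonalProjection]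
    [M.HasOrthogonalProjection] (hF : Inv H F) (e : C ≃ C) (he : ∀ c, e (e c) = c)
    (hes : ∀ (h : H) c, e (h • c) = h • e c)
    (hJ : ∀ f ∈ F, ∃ f' ∈ F, ∀ c, f' c = f (e c))
    (hM : ∀ f, f ∈ M ↔ f ∈ F ∧ ∀ c, f (e c) = f c)
    (hd : ∀ c, (F.starProjection (delta c)) (e c) = 0) :
    tr H M.starProjection = 1 / 2 * tr H F.starProjection := by
  have := hC.cofin
  let _ : Fintype (Orb H C) := Fintype.ofFinite _
  let J : L2 C ≃ₗᵢ[ℝ] L2 C := twE e (fun _ => 1) (fun _ => Or.inl rfl)
  have hJa : ∀ (z : L2 C) (c : C), (J z) c = z (e c) := by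
    intro z c
    have h1 : (J z) (e (e c)) = 1 * z (e c) :=
      twE_apply e (fun _ => 1) (fun _ => Or.inl rfl) z (e c)
    rwa [he, one_mul] at h1
  have hJF : ∀ f ∈ F, J f ∈ F := by
    intro f hf
    obtain ⟨f', hf', h1⟩ := hJ f hf
    have h2 : J f = f' := l2_ext _ _ fun c => by rw [hJa, h1]
    rw [h2]
    exact hf'
  have hP : ∀ x : L2 C, M.starProjection x =
      (1 / 2 : ℝ) • (F.starProjection x + J (F.starProjection x)) := by
    intro x
    refine M.eq_starProjection_of_mem_of_inner_eq_zero ?_ ?_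
    · rw [hM]
      refine ⟨F.smul_mem _ (F.add_mem (F.starProjection_apply_mem x)
        (hJF _ (F.starProjection_apply_mem x))), fun c => ?_⟩
      show (1 / 2 : ℝ) * ((F.starProjection x) (e c) + (J (F.starProjection x)) (e c)) =
        (1 / 2 : ℝ) * ((F.starProjection x) c + (J (F.starProjection x)) c)
      rw [hJa, hJa, he, add_comm]
    · intro w hw
      have hw' := (hM w).mp hw
      have h1 : J w = w := l2_ext _ _ fun c => by rw [hJa, hw'.2]
      have h2 : inner ℝ (J (F.starProjection x)) w = inner ℝ (F.starProjection x) w := by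
        conv_lhs => rw [← h1]
        exact J.inner_map_map _ _
      rw [inner_sub_left, real_inner_smul_left, inner_add_left, h2, aabs_in F x hw'.1]
      ring
  unfold tr
  rw [finsum_eq_sum_of_fintype, finsum_eq_sum_of_fintype, Finset.mul_sum]
  refine Finset.sum_congr rfl fun o _ => ?_
  rw [hP, real_inner_smul_left, inner_add_left]
  have h3 : inner ℝ (J (F.starProjection (delta o.out))) (delta o.out) = (0 : ℝ) := by
    rw [real_inner_comm, delta_inner, hJa, hd]
  rw [h3, add_zero]

end SingerLG
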