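import Mathlib
import Pool.Agent.Lib_MP_394d50_lg.SDefs

/-!
# Piece S1: elementary consequences of the axioms of a stage

All `Hs v s` below have `s ∈ A.D v`.

`nb_D_iff`: `nb_D` and, for the other direction, `nb_D` at `nb s v` with `nb_nb`.
`par_mem`, `par_Hs`, `par_nb`: induction on `Par` (each step moves in a direction `r` with `cr s r`): `nb_D` (with
`cr_symm`), `par`, and for `par_nb`: `nb s (nb r v) = nb r (nb s v)` (`comm`), `r ∈ D (nb s v)`.
`par_symm`: reverse the moves (`nb_nb`, `nb_mem`); the step from `nb r v` to `v` is the direction `r` again.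
`eq_of_Hs`: by `opp`, `mem`: `nb t u ∉ Hs u t = Hs v s` and `u ∈ Hs v s`, so `crs` gives `t = s` and
`Par s v u` (done) or `Par s (nb s v) u`; in the second case `Hs u s = Hs (nb s v) s = (Hs v s)ᶜ` by `par_Hs`, `opp`, and
`Hs u s = Hs v s`: contradiction (`v` is in exactly one of them).
`eq_of_Hs_compl`: `(Hs v s)ᶜ = Hs (nb s v) s`, apply `eq_of_Hs` to `nb s v`.
`side_nb`: `crs` by contraposition.
`rg_side`: induction on `Rg`, each step has a colour `≠ c = col s`, so its label is `≠ s`: `side_nb`.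
`par_rg`: a move along the wall of `s` has a label `r` with `cr s r`, so `col r ≠ col s` (`cr_col`).
`par_side`: moves along the wall of `t`, labels `r` with `cr t r`, so `col r ≠ col t = col s`, `r ≠ s`: `side_nb`.
`nb_side`: if `t = s` and the side changes then `crs` gives `Par s v u` or `Par s (nb s v) u`, so `Hs u t` is `Hs v s` or
`(Hs v s)ᶜ`.
-/

namespace SingerLG

variable {G V S : Type} [Group G] [MulAction G V] [MulAction G S] {A : Dat G V S}
  {Hs : V → S → Set V}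

theorem Stg.nb_D_iff (hA : Stg A Hs) {v : V} {s t : S} (hs : s ∈ A.D v) (h : A.cr s t) :
    t ∈ A.D (A.nb s v) ↔ t ∈ A.D v := by
  constructor
  · intro ht
    have h1 := hA.nb_D (A.nb s v) s (hA.nb_mem v s hs) t ht h
    rwa [hA.nb_nb v s hs] at h1
  · intro ht
    exact hA.nb_D v s hs t ht h

theorem Stg.cr_ne (hA : Stg A Hs) {s t : S} (h : A.cr s t) : s ≠ t := by
  rintro rfl
  exact hA.cr_col s s h rfl

theorem Stg.nb_not_mem (hA : Stg A Hs) {v : V} {s : S} (hs : s ∈ A.D v) :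
    A.nb s v ∉ Hs v s := by
  have h1 := hA.mem (A.nb s v) s (hA.nb_mem v s hs)
  rw [hA.opp v s hs] at h1
  exact h1

theorem Stg.par_mem (hA : Stg A Hs) {v u : V} {s : S} (hs : s ∈ A.D v) (h : A.Par s v u) :
    s ∈ A.D u := by
  induction h with
  | refl => exact hs
  | tail _ hst ih =>
    obtain ⟨r, hr, hc, rfl⟩ := hst
    exact hA.nb_D _ r hr s ih (hA.cr_symm s r hc)

theorem Stg.par_Hs (hA : Stg A Hs) {v u : V} {s : S} (hs : s ∈ A.D v) (h : A.Par s v u) :
    Hs u s = Hs v s := by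
  induction h with
  | refl => rfl
  | tail huw hst ih =>
    obtain ⟨r, hr, hc, rfl⟩ := hst
    rw [hA.par _ s (hA.par_mem hs huw) r hr hc, ih]

theorem Stg.par_nb (hA : Stg A Hs) {v u : V} {s : S} (hs : s ∈ A.D v) (h : A.Par s v u) :
    A.Par s (A.nb s v) (A.nb s u) := by
  induction h with
  | refl => exact Relation.ReflTransGen.refl
  | tail huw hst ih =>
    obtain ⟨r, hr, hc, rfl⟩ := hst
    have hsw := hA.par_mem hs huw
    exact ih.tail ⟨r, hA.nb_D _ s hsw r hr hc, hc, hA.comm _ s hsw r hr hc⟩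

theorem Stg.par_symm (hA : Stg A Hs) {v u : V} {s : S} (hs : s ∈ A.D v) (h : A.Par s v u) :
    A.Par s u v := by
  induction h with
  | refl => exact Relation.ReflTransGen.refl
  | tail _ hst ih =>
    obtain ⟨r, hr, hc, rfl⟩ := hst
    exact Relation.ReflTransGen.head ⟨r, hA.nb_mem _ r hr, hc, (hA.nb_nb _ r hr).symm⟩ ih

theorem Stg.eq_of_Hs (hA : Stg A Hs) {v u : V} {s t : S} (hs : s ∈ A.D v) (ht : t ∈ A.D u)
    (h : Hs v s = Hs u t) : t = s ∧ A.Par s v u := by
  have h1 : A.nb t u ∉ Hs v s := by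
    rw [h]
    exact hA.nb_not_mem ht
  have h2 : u ∈ Hs v s := by
    rw [h]
    exact hA.mem u t ht
  obtain ⟨h3, h4⟩ := hA.crs v s hs u t ht fun h5 => h1 (h5.2 h2)
  refine ⟨h3, h4.resolve_right fun h5 => ?_⟩
  have h6 := hA.par_Hs (hA.nb_mem v s hs) h5
  rw [hA.opp v s hs, ← h3, ← h, h3] at h6
  have h7 := hA.mem v s hs
  rw [h6] at h7
  exact h7 (hA.mem v s hs)

theorem Stg.eq_of_Hs_compl (hA : Stg A Hs) {v u : V} {s t : S} (hs : s ∈ A.D v) (ht : t ∈ A.D u)
    (h : Hs u t = (Hs v s)ᶜ) : t = s ∧ A.Par s (A.nb s v) u := by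
  refine hA.eq_of_Hs (hA.nb_mem v s hs) ht ?_
  rw [hA.opp v s hs, h]

theorem Stg.side_nb (hA : Stg A Hs) {v u : V} {s t : S} (hs : s ∈ A.D v) (ht : t ∈ A.D u)
    (h : t ≠ s) : A.nb t u ∈ Hs v s ↔ u ∈ Hs v s := by
  by_contra h1
  exact h (hA.crs v s hs u t ht h1).1

theorem Stg.rg_side (hA : Stg A Hs) {c : ℕ} {v u u' : V} {s : S} (hs : s ∈ A.D v)
    (hc : A.col s = c) (h : A.Rg c u u') : u' ∈ Hs v s ↔ u ∈ Hs v s := by
  induction h with
  | refl => exact Iff.rfl
  | tail _ hst ih =>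
    obtain ⟨t, ht, htc, rfl⟩ := hst
    refine (hA.side_nb hs ht ?_).trans ih
    rintro rfl
    exact htc hc

theorem Stg.par_rg (hA : Stg A Hs) {c : ℕ} {v u : V} {s : S} (hc : A.col s = c)
    (h : A.Par s v u) : A.Rg c v u := by
  induction h with
  | refl => exact Relation.ReflTransGen.refl
  | tail _ hst ih =>
    obtain ⟨r, hr, hcr, rfl⟩ := hst
    refine ih.tail ⟨r, hr, fun h1 => ?_, rfl⟩
    exact hA.cr_col s r hcr (hc.trans h1.symm)

theorem Stg.par_side (hA : Stg A Hs) {v u u' : V} {s t : S} (hs : s ∈ A.D v)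
    (hc : A.col s = A.col t) (ht : t ∈ A.D u) (h : A.Par t u u') :
    u' ∈ Hs v s ↔ u ∈ Hs v s := by
  exact hA.rg_side hs hc (hA.par_rg rfl h)

theorem Stg.nb_side (hA : Stg A Hs) {v u : V} {s t : S} (hs : s ∈ A.D v) (ht : t ∈ A.D u)
    (h1 : Hs u t ≠ Hs v s) (h2 : Hs u t ≠ (Hs v s)ᶜ) : A.nb t u ∈ Hs v s ↔ u ∈ Hs v s := by
  by_contra h
  obtain ⟨h3, h4⟩ := hA.crs v s hs u t ht h
  subst h3
  rcases h4 with h4 | h4
  · exact h1 (hA.par_Hs hs h4)
  · exact h2 ((hA.par_Hs (hA.nb_mem v _ hs) h4).trans (hA.opp v _ hs))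

end SingerLG
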