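import Mathlib
import Pool.Agent.Lib_MP_394d50_lg.ADefs
import Pool.Agent.Lib_MP_394d50_lg.SBas

/-!
# Piece A2: flags

`x.σ ⊆ D x.v` and `x.σ` is a clique (`x.2`). `σ_sub`: for `s ∈ x.σ` and `t ∈ x.σ`, `t ≠ s`: `cr s t` and `nb_D`; `t = s`: `nb_mem`. So the
condition in the definition of `mv` holds. `mv_mv`: `nb_nb`. `mv_comm`: `comm`.
`uniq_col`: two elements of a clique of the same colour are equal (`cr_col`). `jj_eq`: the chosen label is `s`.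
`jj_jj`: `jj_eq` twice, `mv_mv`. `Bl_jj`: `Hs (nb s v) s = (Hs v s)ᶜ` (`opp`). `mv_smul` etc.: by the definitions (`smul_nb`,
`smul_D`, `smul_Cl`, and the same for `g⁻¹`); for `exs_smul`, `sg_smul`: the bijection `t ↦ g • t`, `smul_col`.
`exs_mv`: for `s ∈ x.σ`: a `t` with `insert t x.σ` a clique crosses `s`, so `t ∈ D (nb s v) ↔ t ∈ D v` (`nb_D_iff`).
`ins_mv`: both sides are `(nb s v, insert t σ)`. `fl_val`: a flag is `fl` of its parts.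
-/

namespace SingerLG

open SingerVS SingerCub
open scoped Pointwise

variable {G V S : Type} [Group G] [MulAction G V] [MulAction G S] [DecidableEq S]
  {A : Dat G V S} {Hs : V → S → Set V} {c : ℕ}

theorem Stg.σ_sub (hA : Stg A Hs) {x : A.Fl} {s : S} (hs : s ∈ x.σ) :
    x.σ ⊆ A.D (A.nb s x.v) := by
  intro t ht
  by_cases h : s = t
  · subst h
    exact hA.nb_mem _ s (x.2.1 hs)
  · exact hA.nb_D _ s (x.2.1 hs) t (x.2.1 ht) (x.2.2 s hs t ht h)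

theorem Stg.mv_v (hA : Stg A Hs) {x : A.Fl} {s : S} (hs : s ∈ x.σ) :
    (A.mv s x).v = A.nb s x.v := by
  unfold Dat.mv
  rw [dif_pos (hA.σ_sub hs)]
  rfl

theorem Dat.mv_σ (A : Dat G V S) (s : S) (x : A.Fl) : (A.mv s x).σ = x.σ := by
  unfold Dat.mv
  split_ifs <;> rfl

theorem Stg.mv_mv (hA : Stg A Hs) {x : A.Fl} {s : S} (hs : s ∈ x.σ) :
    A.mv s (A.mv s x) = x := by
  have h1 : s ∈ (A.mv s x).σ := by rw [Dat.mv_σ]; exact hs
  refine Dat.Fl.ext ?_ ?_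
  · rw [hA.mv_v h1, hA.mv_v hs]
    exact hA.nb_nb _ s (x.2.1 hs)
  · rw [Dat.mv_σ, Dat.mv_σ]

theorem Stg.mv_comm (hA : Stg A Hs) {x : A.Fl} {s t : S} (hs : s ∈ x.σ) (ht : t ∈ x.σ) :
    A.mv s (A.mv t x) = A.mv t (A.mv s x) := by
  by_cases h : s = t
  · rw [h]
  · have hs' : s ∈ (A.mv t x).σ := by rw [Dat.mv_σ]; exact hs
    have ht' : t ∈ (A.mv s x).σ := by rw [Dat.mv_σ]; exact ht
    refine Dat.Fl.ext ?_ ?_
    · rw [hA.mv_v hs', hA.mv_v ht, hA.mv_v ht', hA.mv_v hs]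
      exact hA.comm _ s (x.2.1 hs) t (x.2.1 ht) (x.2.2 s hs t ht h)
    · simp only [Dat.mv_σ]

theorem Dat.ins_v (A : Dat G V S) (t : S) (x : A.Fl) : (A.ins t x).v = x.v := by
  unfold Dat.ins
  split_ifs <;> rfl

theorem Dat.mem_exs {A : Dat G V S} {t : S} {x : A.Fl} :
    t ∈ A.exs x ↔ t ∈ A.D x.v ∧ t ∉ x.σ ∧ A.Cl (insert t x.σ) := by
  classical
  unfold Dat.exs
  exact Finset.mem_filter

theorem Dat.ins_σ (A : Dat G V S) {t : S} {x : A.Fl} (h : t ∈ A.exs x) :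
    (A.ins t x).σ = insert t x.σ := by
  have h1 := Dat.mem_exs.mp h
  unfold Dat.ins
  rw [dif_pos ⟨h1.1, h1.2.2⟩]
  rfl

theorem Stg.exs_mv (hA : Stg A Hs) {x : A.Fl} {s : S} (hs : s ∈ x.σ) :
    A.exs (A.mv s x) = A.exs x := by
  ext t
  rw [Dat.mem_exs, Dat.mem_exs, hA.mv_v hs, Dat.mv_σ]
  refine and_congr_left fun h => ?_
  have h1 : s ≠ t := by
    rintro rfl
    exact h.1 hs
  exact hA.nb_D_iff (x.2.1 hs)
    (h.2 s (Finset.mem_insert_of_mem hs) t (Finset.mem_insert_self _ _) h1)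

theorem Stg.ins_mv (hA : Stg A Hs) {x : A.Fl} {s t : S} (hs : s ∈ x.σ) (ht : t ∈ A.exs x) :
    A.ins t (A.mv s x) = A.mv s (A.ins t x) := by
  have h1 : s ∈ (A.ins t x).σ := by
    rw [Dat.ins_σ A ht]
    exact Finset.mem_insert_of_mem hs
  have h2 : t ∈ A.exs (A.mv s x) := by
    rw [hA.exs_mv hs]
    exact ht
  refine Dat.Fl.ext ?_ ?_
  · rw [Dat.ins_v, hA.mv_v hs, hA.mv_v h1, Dat.ins_v]
  · rw [Dat.ins_σ A h2, Dat.mv_σ, Dat.mv_σ, Dat.ins_σ A ht]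

theorem Dat.sg_mv (A : Dat G V S) (x : A.Fl) (s t : S) : A.sg (A.mv s x) t = A.sg x t := by
  unfold Dat.sg
  rw [Dat.mv_σ]

theorem Stg.uniq_col (hA : Stg A Hs) {x : A.Fl} {s t : S} (hs : s ∈ x.σ) (ht : t ∈ x.σ)
    (h : A.col s = A.col t) : s = t := by
  by_contra h1
  exact hA.cr_col s t (x.2.2 s hs t ht h1) h

theorem Stg.jj_eq (hA : Stg A Hs) {x : A.Fl} {s : S} (hs : s ∈ x.σ) (hc : A.col s = c) :
    A.jj c x = A.mv s x := by
  have h : ∃ s ∈ x.σ, A.col s = c := ⟨s, hs, hc⟩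
  unfold Dat.jj
  rw [dif_pos h]
  have h1 := h.choose_spec
  rw [hA.uniq_col h1.1 hs (h1.2.trans hc.symm)]

theorem Dat.jj_not {A : Dat G V S} {x : A.Fl} (h : x ∉ A.Bf c) : A.jj c x = x := by
  unfold Dat.jj
  exact dif_neg h

theorem Dat.jj_σ {A : Dat G V S} (x : A.Fl) : (A.jj c x).σ = x.σ := by
  unfold Dat.jj
  split_ifs
  · exact Dat.mv_σ _ _ _
  · rfl

theorem Stg.jj_jj (hA : Stg A Hs) (x : A.Fl) : A.jj c (A.jj c x) = x := by
  by_cases h : x ∈ A.Bf c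
  · obtain ⟨s, hs, hc⟩ := h
    have h1 : s ∈ (A.mv s x).σ := by rw [Dat.mv_σ]; exact hs
    rw [hA.jj_eq hs hc, hA.jj_eq h1 hc, hA.mv_mv hs]
  · rw [Dat.jj_not h, Dat.jj_not h]

theorem Dat.jj_Bf {A : Dat G V S} {x : A.Fl} : A.jj c x ∈ A.Bf c ↔ x ∈ A.Bf c := by
  have h : (∃ s ∈ (A.jj c x).σ, A.col s = c) ↔ ∃ s ∈ x.σ, A.col s = c := by rw [Dat.jj_σ]
  exact h

theorem Stg.Bl_jj (hA : Stg A Hs) {x : A.Fl} {a : Set V} :
    A.jj c x ∈ A.Bl Hs c aᶜ ↔ x ∈ A.Bl Hs c a := by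
  constructor
  · rintro ⟨s, hs, hc, h⟩
    rw [Dat.jj_σ] at hs
    refine ⟨s, hs, hc, ?_⟩
    rw [hA.jj_eq hs hc, hA.mv_v hs, hA.opp x.v s (x.2.1 hs)] at h
    exact compl_injective h
  · rintro ⟨s, hs, hc, h⟩
    refine ⟨s, ?_, hc, ?_⟩
    · rw [Dat.jj_σ]
      exact hs
    · rw [hA.jj_eq hs hc, hA.mv_v hs, hA.opp x.v s (x.2.1 hs), h]

theorem Stg.Bl_uniq (hA : Stg A Hs) {x : A.Fl} {a a' : Set V} (h : x ∈ A.Bl Hs c a)
    (h' : x ∈ A.Bl Hs c a') : a = a' := by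
  obtain ⟨s, hs, hc, h1⟩ := h
  obtain ⟨t, ht, hc', h2⟩ := h'
  have h3 := hA.uniq_col hs ht (hc.trans hc'.symm)
  subst h3
  exact h1.symm.trans h2

theorem Dat.Bl_sub {A : Dat G V S} {a : Set V} : A.Bl Hs c a ⊆ A.Bf c := by
  rintro x ⟨s, hs, hc, _⟩
  exact ⟨s, hs, hc⟩

theorem Dat.exists_Bl {A : Dat G V S} {x : A.Fl} (h : x ∈ A.Bf c) : ∃ a, x ∈ A.Bl Hs c a := by
  obtain ⟨s, hs, hc⟩ := h
  exact ⟨Hs x.v s, s, hs, hc, rfl⟩

private theorem AFl_D (A : Dat G V S) (g : G) {v : V} {s : S} : g • s ∈ A.D (g • v) ↔ s ∈ A.D v := by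
  constructor
  · intro h
    have h1 := A.smul_D g⁻¹ _ _ h
    rwa [inv_smul_smul, inv_smul_smul] at h1
  · exact A.smul_D g v s

private theorem AFl_sub (A : Dat G V S) (g : G) {v : V} {σ : Finset S} :
    g • σ ⊆ A.D (g • v) ↔ σ ⊆ A.D v := by
  constructor
  · intro h s hs
    exact (AFl_D A g).mp (h (Finset.smul_mem_smul_finset hs))
  · exact A.smul_sub g

private theorem AFl_Cl (A : Dat G V S) (g : G) {σ : Finset S} : A.Cl (g • σ) ↔ A.Cl σ := by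
  constructor
  · intro h
    have h1 := A.smul_Cl g⁻¹ h
    rwa [inv_smul_smul] at h1
  · exact A.smul_Cl g

private theorem AFl_ins (g : G) (t : S) (σ : Finset S) :
    insert (g • t) (g • σ) = g • insert t σ := (Finset.smul_finset_insert g t σ).symm

theorem Dat.mv_smul (A : Dat G V S) (g : G) (s : S) (x : A.Fl) :
    A.mv (g • s) (g • x) = g • A.mv s x := by
  have h0 : (g • x).σ ⊆ A.D (A.nb (g • s) (g • x).v) ↔ x.σ ⊆ A.D (A.nb s x.v) := by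
    rw [Dat.Fl.smul_σ, Dat.Fl.smul_v, A.smul_nb, AFl_sub]
  unfold Dat.mv
  by_cases h : x.σ ⊆ A.D (A.nb s x.v)
  · rw [dif_pos h, dif_pos (h0.mpr h)]
    refine Dat.Fl.ext ?_ ?_
    · exact A.smul_nb g s x.v
    · rfl
  · rw [dif_neg h, dif_neg fun h1 => h (h0.mp h1)]

private theorem AFl_exs (A : Dat G V S) (g : G) (x : A.Fl) (t : S) :
    g • t ∈ A.exs (g • x) ↔ t ∈ A.exs x := by
  rw [Dat.mem_exs, Dat.mem_exs, Dat.Fl.smul_σ, Dat.Fl.smul_v, AFl_D, AFl_ins, AFl_Cl,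
    Finset.smul_mem_smul_finset_iff]

theorem Dat.exs_smul (A : Dat G V S) (g : G) (x : A.Fl) : A.exs (g • x) = g • A.exs x := by
  ext t
  rw [← Finset.inv_smul_mem_iff, ← AFl_exs A g x (g⁻¹ • t), smul_inv_smul]

theorem Dat.ins_smul (A : Dat G V S) (g : G) (t : S) (x : A.Fl) :
    A.ins (g • t) (g • x) = g • A.ins t x := by
  have h0 : (g • t ∈ A.D (g • x).v ∧ A.Cl (insert (g • t) (g • x).σ)) ↔
      (t ∈ A.D x.v ∧ A.Cl (insert t x.σ)) := by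
    rw [Dat.Fl.smul_σ, Dat.Fl.smul_v, AFl_D, AFl_ins, AFl_Cl]
  unfold Dat.ins
  by_cases h : t ∈ A.D x.v ∧ A.Cl (insert t x.σ)
  · rw [dif_pos h, dif_pos (h0.mpr h)]
    refine Dat.Fl.ext ?_ ?_
    · rfl
    · exact AFl_ins g t x.σ
  · rw [dif_neg h, dif_neg fun h1 => h (h0.mp h1)]

theorem Dat.sg_smul (A : Dat G V S) (g : G) (t : S) (x : A.Fl) :
    A.sg (g • x) (g • t) = A.sg x t := by
  unfold Dat.sg
  congr 1
  have h : ((g • x).σ.filter fun s => A.col s < A.col (g • t)) =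
      (x.σ.filter fun s => A.col s < A.col t).image (g • ·) := by
    ext s
    rw [Finset.mem_filter, Finset.mem_image, Dat.Fl.smul_σ]
    constructor
    · rintro ⟨h1, h2⟩
      obtain ⟨s', hs', rfl⟩ := Finset.mem_smul_finset.mp h1
      rw [A.smul_col, A.smul_col] at h2
      exact ⟨s', Finset.mem_filter.mpr ⟨hs', h2⟩, rfl⟩
    · rintro ⟨s', h1, rfl⟩
      rw [Finset.mem_filter] at h1
      refine ⟨Finset.smul_mem_smul_finset h1.1, ?_⟩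
      rw [A.smul_col, A.smul_col]
      exact h1.2
  rw [h, Finset.card_image_of_injective _ (MulAction.injective g)]

theorem Dat.Bf_smul (A : Dat G V S) (g : G) (x : A.Fl) : g • x ∈ A.Bf c ↔ x ∈ A.Bf c := by
  constructor
  · rintro ⟨s, hs, hc⟩
    obtain ⟨s', hs', rfl⟩ := Finset.mem_smul_finset.mp hs
    rw [A.smul_col] at hc
    exact ⟨s', hs', hc⟩
  · rintro ⟨s, hs, hc⟩
    refine ⟨g • s, Finset.smul_mem_smul_finset hs, ?_⟩
    rw [A.smul_col]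
    exact hc

private theorem AFl_Hs (hA : Stg A Hs) (g : G) {v : V} {s : S} (hs : s ∈ A.D v) :
    Hs (g • v) (g • s) = g • Hs v s := by
  ext u
  rw [Set.mem_smul_set_iff_inv_smul_mem]
  constructor
  · intro h
    have h1 := hA.smul g⁻¹ (g • v) (g • s) (A.smul_D g v s hs) u h
    rwa [inv_smul_smul, inv_smul_smul] at h1
  · intro h
    have h1 := hA.smul g v s hs _ h
    rwa [smul_inv_smul] at h1

theorem Stg.Bl_smul (hA : Stg A Hs) (g : G) (x : A.Fl) (a : Set V) :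
    g • x ∈ A.Bl Hs c (g • a) ↔ x ∈ A.Bl Hs c a := by
  constructor
  · rintro ⟨s, hs, hc, h⟩
    obtain ⟨s', hs', rfl⟩ := Finset.mem_smul_finset.mp hs
    rw [A.smul_col] at hc
    refine ⟨s', hs', hc, ?_⟩
    have hs1 : s' ∈ A.D x.v := x.2.1 hs'
    rw [Dat.Fl.smul_v, AFl_Hs hA g hs1] at h
    exact smul_left_cancel g h
  · rintro ⟨s, hs, hc, h⟩
    refine ⟨g • s, Finset.smul_mem_smul_finset hs, ?_, ?_⟩
    · rw [A.smul_col]
      exact hc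
    · have hs1 : s ∈ A.D x.v := x.2.1 hs
      rw [Dat.Fl.smul_v, AFl_Hs hA g hs1, h]

theorem Stg.jj_smul (hA : Stg A Hs) (g : G) (x : A.Fl) : A.jj c (g • x) = g • A.jj c x := by
  by_cases h : x ∈ A.Bf c
  · obtain ⟨s, hs, hc⟩ := h
    have h1 : g • s ∈ (g • x).σ := Finset.smul_mem_smul_finset hs
    rw [hA.jj_eq hs hc, hA.jj_eq h1 ((A.smul_col g s).trans hc), Dat.mv_smul]
  · rw [Dat.jj_not h, Dat.jj_not fun h1 => h ((Dat.Bf_smul A g x).mp h1)]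

end SingerLG
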