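import Mathlib
import Pool.Agent.Lib_MP_394d50_lg.AFl
import Pool.Agent.Lib_MP_394d50_lg.AMem
import Pool.Agent.Lib_MP_394d50_cub.ETr

/-!
# Piece A4: the operators `J` (go across the colour `c`) and `Ps`

`J_apply`: `twE_apply` at `c = jj x` (`jj_jj`). `J_inner`: `J` is an isometry and `J (J z) = z` (`l2_ext`, `J_apply`):
`⟨J y, z⟩ = ⟨J y, J (J z)⟩ = ⟨y, J z⟩`. `J_eqv`: `l2_ext`, `shift_apply`, `jj_smul`. `rs_eqv`: `l2_ext`, `rs_apply`, `Bf_smul`.
`Ps_in`, `Ps_out`: `rs_of_mem`, `rs_of_notMem`, `jj_Bf`, `jj_not`.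
`Bad_J`: `y` is supported on `Bl a`, so `J y` on `Bl aᶜ` (`Bl_jj`); for `z ∈ Z j`: `⟨J y, z⟩ = ⟨y, J z⟩ = - ⟨y, z⟩ = 0`, because `J z = - z`
on `Bf c` (`mem_Z`, `jj_eq`) and `y = 0` outside of `Bf c` (write `⟨y, J z + z⟩ = 0`: pointwise `y x * ((J z + z) x) = 0`,
`lp.hasSum_inner` or: `y = rs (Bf c) y` and `rs` is self-adjoint).
-/

namespace SingerLG

open SingerVS SingerCub
open scoped Pointwise

variable {G V S : Type} [Group G] [MulAction G V] [MulAction G S] [DecidableEq S]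
  {A : Dat G V S} {Hs : V → S → Set V} {c j : ℕ}

/-- `jj` as a bijection. -/
noncomputable def Stg.jjE (hA : Stg A Hs) (c : ℕ) : A.Fl ≃ A.Fl :=
  Function.Involutive.toPerm (A.jj c) fun x => hA.jj_jj x

/-- `(J z) x = z (jj x)`. -/
noncomputable def Stg.J (hA : Stg A Hs) (c : ℕ) : L2 A.Fl →L[ℝ] L2 A.Fl :=
  (twE (hA.jjE c) (fun _ => 1) (fun _ => Or.inl rfl)).toContinuousLinearEquiv.toContinuousLinearMap

/-- `(Ps z) x = z x + z (jj x)` for the flags `x` which cross the colour `c`. -/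
noncomputable def Stg.Ps (hA : Stg A Hs) (c : ℕ) : L2 A.Fl →L[ℝ] L2 A.Fl :=
  rs (A.Bf c) + (hA.J c).comp (rs (A.Bf c))

theorem Stg.J_apply (hA : Stg A Hs) (z : L2 A.Fl) (x : A.Fl) : (hA.J c z) x = z (A.jj c x) := by
  have h := twE_apply (hA.jjE c) (fun _ => 1) (fun _ => Or.inl rfl) z (A.jj c x)
  have h1 : (hA.jjE c) (A.jj c x) = x := hA.jj_jj x
  rw [h1, one_mul] at h
  exact h

private theorem AJ_JJ (hA : Stg A Hs) (z : L2 A.Fl) : hA.J c (hA.J c z) = z := by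
  apply l2_ext
  intro x
  rw [hA.J_apply, hA.J_apply, hA.jj_jj]

theorem Stg.J_inner (hA : Stg A Hs) (y z : L2 A.Fl) :
    inner ℝ (hA.J c y) z = inner ℝ y (hA.J c z) := by
  conv_lhs => rw [← AJ_JJ (c := c) hA z]
  exact (twE (hA.jjE c) (fun _ => 1) (fun _ => Or.inl rfl)).inner_map_map y (hA.J c z)

theorem Stg.J_eqv (hA : Stg A Hs) : Eqv G (hA.J c) := by
  intro g z
  apply l2_ext
  intro x
  rw [hA.J_apply, shift_apply, shift_apply, hA.J_apply, hA.jj_smul]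

theorem Dat.rs_eqv (A : Dat G V S) (c : ℕ) : Eqv G (rs (A.Bf c)) := by
  intro g z
  apply l2_ext
  intro x
  rw [shift_apply]
  by_cases h : x ∈ A.Bf c
  · rw [rs_of_mem _ h, rs_of_mem _ ((Dat.Bf_smul A g⁻¹ x).mpr h), shift_apply]
  · rw [rs_of_notMem _ h, rs_of_notMem _ fun h1 => h ((Dat.Bf_smul A g⁻¹ x).mp h1)]

private theorem AJ_Ps (hA : Stg A Hs) (z : L2 A.Fl) (x : A.Fl) :
    (hA.Ps c z) x = (rs (A.Bf c) z) x + (rs (A.Bf c) z) (A.jj c x) := by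
  rw [← hA.J_apply]
  rfl

theorem Stg.Ps_in (hA : Stg A Hs) (z : L2 A.Fl) {x : A.Fl} (h : x ∈ A.Bf c) :
    (hA.Ps c z) x = z x + z (A.jj c x) := by
  rw [AJ_Ps hA, rs_of_mem z h, rs_of_mem z (Dat.jj_Bf.mpr h)]

theorem Stg.Ps_out (hA : Stg A Hs) (z : L2 A.Fl) {x : A.Fl} (h : x ∉ A.Bf c) :
    (hA.Ps c z) x = 0 := by
  rw [AJ_Ps hA, Dat.jj_not h, rs_of_notMem z h, add_zero]

theorem Stg.Ps_eqv (hA : Stg A Hs) : Eqv G (hA.Ps c) := by
  intro g z
  have h1 := A.rs_eqv c g z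
  have h2 := hA.J_eqv (c := c) g (rs (A.Bf c) z)
  show rs (A.Bf c) (shift g z) + hA.J c (rs (A.Bf c) (shift g z)) =
    shift g (rs (A.Bf c) z + hA.J c (rs (A.Bf c) z))
  rw [h1, h2, map_add]

/-- Two functions with disjoint supports are orthogonal. -/
theorem inner_eq_zero_of_supp {C : Type} {y z : L2 C} (h : ∀ x, y x = 0 ∨ z x = 0) :
    inner ℝ y z = 0 := by
  have h1 := lp.hasSum_inner (𝕜 := ℝ) (G := fun _ : C => ℝ) y z
  have h2 : (fun x => inner ℝ (y x) (z x)) = fun _ : C => (0 : ℝ) := by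
    funext x
    rcases h x with h | h
    · rw [h, inner_zero_left]
    · rw [h, inner_zero_right]
  rw [h2] at h1
  exact h1.unique hasSum_zero

/-- The restriction is self-adjoint. -/
theorem rs_inner {C : Type} (B : Set C) (y z : L2 C) : inner ℝ (rs B y) z = inner ℝ y (rs B z) := by
  unfold rs
  exact Submodule.inner_starProjection_left_eq_right _ y z

theorem Dat.Bad_supp {A : Dat G V S} {y : L2 A.Fl} (hy : y ∈ A.Bad Hs c j) (x : A.Fl)
    (hx : x ∉ A.Bf c) : y x = 0 := by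
  obtain ⟨a, h1, _⟩ := hy
  exact h1 x fun h => hx (Dat.Bl_sub h)

theorem Stg.Bad_J (hA : Stg A Hs) {y : L2 A.Fl} (hy : y ∈ A.Bad Hs c j) :
    hA.J c y ∈ A.Bad Hs c j := by
  have hs := Dat.Bad_supp hy
  obtain ⟨a, h1, h2⟩ := hy
  refine ⟨aᶜ, fun x hx => ?_, fun z hz => ?_⟩
  · rw [hA.J_apply]
    refine h1 _ fun h => hx ?_
    have h3 := (hA.Bl_jj (c := c) (x := A.jj c x) (a := a)).mpr h
    rwa [hA.jj_jj] at h3
  · have h3 : inner ℝ y (hA.J c z + z) = 0 := by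
      apply inner_eq_zero_of_supp
      intro x
      by_cases h : x ∈ A.Bf c
      · right
        obtain ⟨s, hs, hc⟩ := h
        show (hA.J c z) x + z x = 0
        rw [hA.J_apply, hA.jj_eq hs hc, (Dat.mem_Z.mp hz).2.1 x s hs]
        ring
      · left
        exact hs x h
    rw [inner_add_right, h2 z hz, add_zero] at h3
    rw [hA.J_inner, h3]

end SingerLG
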