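import Mathlib
import Pool.Agent.Lib_MP_394d50_lg.AJ

/-!
# Piece A10: the spaces of cut chains split over the regions

`Bl_rg`: `x.v` and `u.v` are adjacent to the same side `a` of the wall: `eq_of_Hs`, `par_rg`.
`Zc_blk`: let `W = {x | A.Rg c v x.v}`, `mem_Zc`, `rs_apply`: (degree) clear; (matching) for `s ∈ x.σ`, `col s ≠ c`: `(mv s x).v = nb s x.v` is
in the region of `v` iff `x.v` is (one step; `rg_symm` for the other direction, `mv_v`); (cycle condition) `(ins t x).v = x.v`;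
(Bad) `y` supported on `Bl a`: by `Bl_rg` either all flags of `Bl a` are in `W` and `⟨y, rs W z⟩ = ⟨rs W y, z⟩ = ⟨y, z⟩ = 0`
(`rs_inner`, `rs W y = y`) or none, and the supports are disjoint (`inner_eq_zero_of_supp`).
`Fs_blk`: `mem_Fs`, the same.
-/

namespace SingerLG

open SingerVS SingerCub
open scoped Pointwise

variable {G V S : Type} [Group G] [MulAction G V] [MulAction G S] [DecidableEq S]
  {A : Dat G V S} {Hs : V → S → Set V} {c j : ℕ}

/-- The space `M` splits over the regions. -/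
def Dat.Blk (A : Dat G V S) (c : ℕ) (M : Submodule ℝ (L2 A.Fl)) : Prop :=
  ∀ (v : V) (z : L2 A.Fl), z ∈ M → rs {x : A.Fl | A.Rg c v x.v} z ∈ M

theorem Stg.Bl_rg (hA : Stg A Hs) {a : Set V} {x u : A.Fl} (hx : x ∈ A.Bl Hs c a)
    (hu : u ∈ A.Bl Hs c a) : A.Rg c x.v u.v := by
  obtain ⟨s, hs, hc, h1⟩ := hx
  obtain ⟨t, ht, _, h2⟩ := hu
  exact hA.par_rg hc (hA.eq_of_Hs (x.2.1 hs) (u.2.1 ht) (h1.trans h2.symm)).2

/-- The value of a restriction to a region. -/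
private theorem ABlk_rs_in (v : V) (z : L2 A.Fl) {x : A.Fl} (h : A.Rg c v x.v) :
    (rs {x : A.Fl | A.Rg c v x.v} z) x = z x :=
  rs_of_mem z (A := {x : A.Fl | A.Rg c v x.v}) h

private theorem ABlk_rs_out (v : V) (z : L2 A.Fl) {x : A.Fl} (h : ¬ A.Rg c v x.v) :
    (rs {x : A.Fl | A.Rg c v x.v} z) x = 0 :=
  rs_of_notMem z (A := {x : A.Fl | A.Rg c v x.v}) h

private theorem ABlk_step (hA : Stg A Hs) {v u : V} {s : S} (hs : s ∈ A.D u) (hc : A.col s ≠ c) :
    A.Rg c v (A.nb s u) ↔ A.Rg c v u := by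
  constructor
  · intro h
    exact h.tail ⟨s, hA.nb_mem u s hs, hc, (hA.nb_nb u s hs).symm⟩
  · intro h
    exact h.tail ⟨s, hs, hc, rfl⟩

private theorem ABlk_bad (hA : Stg A Hs) (v : V) {z : L2 A.Fl}
    (hz : ∀ y ∈ A.Bad Hs c j, inner ℝ y z = 0) (y : L2 A.Fl) (hy : y ∈ A.Bad Hs c j) :
    inner ℝ y (rs {x : A.Fl | A.Rg c v x.v} z) = 0 := by
  have hy' := hy
  obtain ⟨a, h1, _⟩ := hy'
  by_cases h : ∃ x ∈ A.Bl Hs c a, A.Rg c v x.v
  · obtain ⟨x, hx, hvx⟩ := h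
    have h2 : rs {x : A.Fl | A.Rg c v x.v} y = y := by
      apply l2_ext
      intro u
      by_cases hu : A.Rg c v u.v
      · exact ABlk_rs_in v y hu
      · rw [ABlk_rs_out v y hu]
        symm
        refine h1 u fun h3 => hu ?_
        exact hvx.trans (hA.Bl_rg hx h3)
    rw [← rs_inner, h2]
    exact hz y hy
  · apply inner_eq_zero_of_supp
    intro u
    by_cases hu : u ∈ A.Bl Hs c a
    · right
      exact ABlk_rs_out v z fun h2 => h ⟨u, hu, h2⟩
    · left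
      exact h1 u hu

theorem Stg.Zc_blk (hA : Stg A Hs) (c j : ℕ) : A.Blk c (A.Zc Hs c j) := by
  intro v z hz
  rw [Dat.mem_Zc] at hz ⊢
  obtain ⟨h1, h2, h3, h4⟩ := hz
  refine ⟨fun x hx => ?_, fun x s hs hc => ?_, fun x hx => ?_, fun y hy => ABlk_bad hA v h4 y hy⟩
  · by_cases h : A.Rg c v x.v
    · rw [ABlk_rs_in v z h, h1 x hx]
    · rw [ABlk_rs_out v z h]
  · have h5 : A.Rg c v (A.mv s x).v ↔ A.Rg c v x.v := by
      rw [hA.mv_v hs]
      exact ABlk_step hA (x.2.1 hs) hc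
    by_cases h : A.Rg c v x.v
    · rw [ABlk_rs_in v z h, ABlk_rs_in v z (h5.mpr h), h2 x s hs hc]
    · rw [ABlk_rs_out v z h, ABlk_rs_out v z fun h6 => h (h5.mp h6), neg_zero]
  · by_cases h : A.Rg c v x.v
    · rw [← h3 x hx]
      refine Finset.sum_congr rfl fun t _ => ?_
      rw [ABlk_rs_in v z (x := A.ins t x) (by rw [Dat.ins_v]; exact h)]
    · refine Finset.sum_eq_zero fun t _ => ?_
      rw [ABlk_rs_out v z (x := A.ins t x) (by rw [Dat.ins_v]; exact h), mul_zero]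

theorem Stg.Fs_blk (hA : Stg A Hs) (c j : ℕ) : A.Blk c (A.Fs Hs c j) := by
  intro v z hz
  rw [Dat.mem_Fs] at hz ⊢
  refine ⟨fun x hx => ?_, fun y hy => ABlk_bad hA v hz.2 y hy⟩
  by_cases h : A.Rg c v x.v
  · rw [ABlk_rs_in v z h, hz.1 x hx]
  · rw [ABlk_rs_out v z h]

end SingerLG
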