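import Mathlib
import Pool.Agent.Lib_MP_394d50_lg.AFl
import Pool.Agent.Lib_MP_394d50_lg.AMem
import Pool.Agent.Lib_MP_394d50_cub.ETr

/-!
# Piece A5: the action on the flags is free with finitely many orbits, the spaces are invariant

`fo`: freeness from `hA.free` at the vertex. Finitely many orbits: every flag is `g • (v, σ)` with `v` the chosen representative
(`o.out`) of the orbit of its vertex (`Quotient.out_eq`, `MulAction.orbitRel`), `σ` a subset of the finite set `D v`: a surjection from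
`Σ o : Orb G V, (A.cubes o.out)` (finite, `hA.fin`).
`Z_inv` etc.: `mem_Z`, `(shift g z) x = z (g⁻¹ • x)` (`shift_apply`), `mv_smul`, `ins_smul`, `exs_smul`, `sg_smul` for `g⁻¹`:
`(shift g z) (mv s x) = z (mv (g⁻¹ • s) (g⁻¹ • x)) = - z (g⁻¹ • x)`; the sum over `exs (g⁻¹ • x) = g⁻¹ • exs x` (`Finset.sum_bij`).
`Bad_shift`: `y` supported on `Bl a` gives `shift g y` supported on `Bl (g • a)` (`Bl_smul`), and `⟨shift g y, z⟩ = ⟨y, shift g⁻¹ z⟩`.
-/

namespace SingerLG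

open SingerVS SingerCub
open scoped Pointwise

variable {G V S : Type} [Group G] [MulAction G V] [MulAction G S] [DecidableEq S]
  {A : Dat G V S} {Hs : V → S → Set V} {c j : ℕ}

private theorem AInv_si {H C : Type} [Group H] [MulAction H C] (h : H) (z : L2 C) :
    shift h (shift h⁻¹ z) = z := by
  apply l2_ext
  intro c
  rw [shift_apply, shift_apply, inv_inv, smul_inv_smul]

theorem shift_inner {H C : Type} [Group H] [MulAction H C] (h : H) (y z : L2 C) :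
    inner ℝ (shift h y) z = inner ℝ y (shift h⁻¹ z) := by
  conv_lhs => rw [← AInv_si h z]
  exact (shift h).inner_map_map y (shift h⁻¹ z)

theorem Stg.fo (hA : Stg A Hs) : FO G A.Fl := by
  refine ⟨fun g x h => hA.free g x.v ?_, ?_⟩
  · have h1 := congrArg Dat.Fl.v h
    exact h1
  · haveI := hA.fin
    refine Finite.of_surjective (fun p : (Σ o : Orb G V, {σ // σ ∈ A.cubes o.out}) =>
      (Quotient.mk _ (A.fl p.1.out p.2.1 (Dat.mem_cubes.mp p.2.2)) : Orb G A.Fl)) ?_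
    intro q
    obtain ⟨x, rfl⟩ := Quotient.exists_rep q
    have h1 : MulAction.orbitRel G V (Quotient.mk (MulAction.orbitRel G V) x.v).out x.v :=
      Quotient.mk_out x.v
    obtain ⟨g, hg⟩ := h1
    have hg' : g • x.v = (Quotient.mk (MulAction.orbitRel G V) x.v).out := hg
    have h2 : g • x.σ ∈ A.cubes (Quotient.mk (MulAction.orbitRel G V) x.v).out := by
      rw [Dat.mem_cubes, ← hg']
      exact ⟨A.smul_sub g x.2.1, A.smul_Cl g x.2.2⟩
    refine ⟨⟨Quotient.mk _ x.v, ⟨g • x.σ, h2⟩⟩, Quotient.sound ⟨g, ?_⟩⟩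
    exact Dat.Fl.ext hg' rfl

private theorem AInv_card (g : G) (x : A.Fl) : (g • x).σ.card = x.σ.card := by
  rw [Dat.Fl.smul_σ, Finset.card_smul_finset]

private theorem AInv_c (g : G) {z : L2 A.Fl} (hz : ∀ x : A.Fl, x.σ.card ≠ j → z x = 0) (x : A.Fl)
    (hx : x.σ.card ≠ j) : (shift g z) x = 0 := by
  rw [shift_apply]
  exact hz _ (by rw [AInv_card]; exact hx)

private theorem AInv_m (g : G) {P : S → Prop} (hP : ∀ s, P s → P (g⁻¹ • s)) {z : L2 A.Fl}
    (hz : ∀ x : A.Fl, ∀ s ∈ x.σ, P s → z (A.mv s x) = - z x) (x : A.Fl) (s : S) (hs : s ∈ x.σ)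
    (h : P s) : (shift g z) (A.mv s x) = - (shift g z) x := by
  rw [shift_apply, shift_apply, ← Dat.mv_smul]
  exact hz _ _ (Finset.smul_mem_smul_finset hs) (hP s h)

private theorem AInv_b (g : G) {z : L2 A.Fl}
    (hz : ∀ x : A.Fl, x.σ.card + 1 = j → ∑ t ∈ A.exs x, A.sg x t * z (A.ins t x) = 0) (x : A.Fl)
    (hx : x.σ.card + 1 = j) : ∑ t ∈ A.exs x, A.sg x t * (shift g z) (A.ins t x) = 0 := by
  rw [← hz (g⁻¹ • x) (by rw [AInv_card]; exact hx), Dat.exs_smul]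
  refine Finset.sum_bij (fun t _ => g⁻¹ • t) (fun t ht => Finset.smul_mem_smul_finset ht)
    (fun a _ b _ h => smul_left_cancel _ h) ?_ ?_
  · intro t ht
    obtain ⟨t', ht', rfl⟩ := Finset.mem_smul_finset.mp ht
    exact ⟨t', ht', rfl⟩
  · intro t _
    rw [shift_apply, Dat.sg_smul, Dat.ins_smul]

theorem Dat.Ch_inv (A : Dat G V S) (j : ℕ) : Inv G (A.Ch j) := by
  intro g z hz
  rw [Dat.mem_Ch] at hz ⊢
  refine ⟨fun x hx => AInv_c g hz.1 x hx, fun x s hs => ?_⟩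
  exact AInv_m g (P := fun _ => True) (fun _ h => h) (fun x s hs _ => hz.2 x s hs) x s hs trivial

theorem Dat.Z_inv (A : Dat G V S) (j : ℕ) : Inv G (A.Z j) := by
  intro g z hz
  rw [Dat.mem_Z] at hz ⊢
  refine ⟨fun x hx => AInv_c g hz.1 x hx, fun x s hs => ?_, fun x hx => AInv_b g hz.2.2 x hx⟩
  exact AInv_m g (P := fun _ => True) (fun _ h => h) (fun x s hs _ => hz.2.1 x s hs) x s hs trivial

theorem Stg.Bad_shift (hA : Stg A Hs) (g : G) {y : L2 A.Fl} (hy : y ∈ A.Bad Hs c j) :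
    shift g y ∈ A.Bad Hs c j := by
  obtain ⟨a, h1, h2⟩ := hy
  refine ⟨g • a, fun x hx => ?_, fun z hz => ?_⟩
  · rw [shift_apply]
    refine h1 _ fun h => hx ?_
    have h3 := (hA.Bl_smul g (g⁻¹ • x) a).mpr h
    rwa [smul_inv_smul] at h3
  · rw [shift_inner]
    exact h2 _ (A.Z_inv j g⁻¹ z hz)

private theorem AInv_bad (hA : Stg A Hs) (g : G) {z : L2 A.Fl}
    (hz : ∀ y ∈ A.Bad Hs c j, inner ℝ y z = 0) (y : L2 A.Fl) (hy : y ∈ A.Bad Hs c j) :
    inner ℝ y (shift g z) = 0 := by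
  have h1 := hz _ (hA.Bad_shift g⁻¹ hy)
  rw [shift_inner, inv_inv] at h1
  exact h1

theorem Stg.Zc_inv (hA : Stg A Hs) (c j : ℕ) : Inv G (A.Zc Hs c j) := by
  intro g z hz
  rw [Dat.mem_Zc] at hz ⊢
  refine ⟨fun x hx => AInv_c g hz.1 x hx, fun x s hs h => ?_, fun x hx => AInv_b g hz.2.2.1 x hx,
    fun y hy => AInv_bad hA g hz.2.2.2 y hy⟩
  exact AInv_m g (P := fun s => A.col s ≠ c) (fun s h => by rw [A.smul_col]; exact h) hz.2.1 x s hs h

theorem Stg.Fs_inv (hA : Stg A Hs) (c j : ℕ) : Inv G (A.Fs Hs c j) := by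
  intro g z hz
  rw [Dat.mem_Fs] at hz ⊢
  refine ⟨fun x hx => ?_, fun y hy => AInv_bad hA g hz.2 y hy⟩
  rw [shift_apply]
  exact hz.1 _ fun h => hx ((Dat.Bf_smul A g⁻¹ x).mp h)

theorem Stg.As_inv (hA : Stg A Hs) (c j : ℕ) : Inv G (A.As Hs c j) := by
  intro g z hz
  rw [Dat.mem_As] at hz ⊢
  refine ⟨hA.Fs_inv c j g z hz.1, fun x hx => ?_⟩
  rw [shift_apply, shift_apply, ← hA.jj_smul]
  exact hz.2 _ ((Dat.Bf_smul A g⁻¹ x).mpr hx)

end SingerLG
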