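import Mathlib
import Pool.Agent.Lib_MP_394d50_lg.AJ
import Pool.Agent.Lib_MP_394d50_lg.AInv
import Pool.Agent.Lib_MP_394d50_lg.AAbs

/-!
# Piece A7: cutting along the colour `c` (section 3, (i) - (iii))

`mem_Z_iff`: `mem_Z`, `mem_Zc`, `jj_eq`: the matching along `s ∈ x.σ`, `col s = c`, is `z (jj x) = - z x`, i.e. `Ps z = 0`
(`Ps_in`, `Ps_out`, `l2_ext`); a `y ∈ Bad` is orthogonal to `Z` by definition (`real_inner_comm`).
`Ps_mem`: `mem_As`, `mem_Fs`: support by `Ps_out`; symmetric by `Ps_in`, `jj_jj`; for `y ∈ Bad`: `⟨y, Ps z⟩ = ⟨y, rs z⟩ + ⟨J y, rs z⟩`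
(`J_inner`), `⟨y, rs z⟩ = ⟨rs y, z⟩ = ⟨y, z⟩ = 0` (`rs_inner`, `rs_eq`, `Bad_supp`, `mem_Zc`), the same for `J y ∈ Bad` (`Bad_J`).

`half_mem` (the half-space trick): let `a = Hs v s`, `W = {x | x.v ∈ a}`. `mem_Zc`: (degree) clear, `rs_apply`.
(matching along `t ∈ x.σ`, `col t ≠ c`) `(mv t x).v = nb t x.v` is in `a` iff `x.v` is (`side_nb`, `t ≠ s` by the colour).
(cycle condition) `(ins t x).v = x.v`, so the sum is the old sum or zero. (Bad) `y` is supported on `Bl a'`. If `Bl a'`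
is empty, `y = 0`. Otherwise `1_a` is constant on `Bl a'`: two flags `x, x' ∈ Bl a'`: `Hs x.v t = a' = Hs x'.v t'`, `t`, `t'` of colour `c`:
`eq_of_Hs` gives `Par t x.v x'.v`, then `par_side` (both `s` and `t` have the colour `c`). So `rs W ξ` and `r • ξ` (`r = 1` or `0`)
agree on `Bl a'`, and `⟨y, rs W ξ⟩ = r * ⟨y, ξ⟩ = 0` (`inner_eq_zero_of_supp` for `y`, `rs W ξ - r • ξ`).

`dens`: let `ξ ∈ Z`, `x₀ ∈ Bl a` (so `a = Hs x₀.v s`, `s ∈ x₀.σ`, `col s = c`), `z = rs W ξ`. For `x ∈ Bf c` with the label `t ∈ x.σ` of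
colour `c`: `jj x = mv t x`, `ξ (jj x) = - ξ x`, so `(Ps z) x = (1_W x - 1_W (jj x)) ξ x`. By `nb_side`: this is `0` unless `Hs x.v t` is
`a` (then `x.v ∈ a`, `nb t x.v ∉ a`: it is `ξ x`) or `aᶜ` (then it is `- ξ x`). So `Ps z = rs (Bl a) ξ - rs (Bl aᶜ) ξ`. As
`g (jj x) = g x`, `ξ (jj x) = - ξ x`, `jj` maps `Bl a` to `Bl aᶜ` (`Bl_jj`): `⟨g, rs (Bl aᶜ) ξ⟩ = - ⟨g, rs (Bl a) ξ⟩` (apply `J`:
`J (rs (Bl aᶜ) ξ) = - rs (Bl a) ξ`, `J_inner`, `J g = g`). So `0 = ⟨g, Ps z⟩ = 2 ⟨g, rs (Bl a) ξ⟩ = 2 ⟨rs (Bl a) g, ξ⟩` for all `ξ ∈ Z`, and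
`rs (Bl a) g ∈ Bad`, so `0 = ⟨rs (Bl a) g, g⟩ = ⟨rs (Bl a) g, rs (Bl a) g⟩` (`rs` is idempotent), `g x₀ = 0`. Outside of `Bf c`: `g = 0`.
`tr_cut`: `tr_rank` with `K = Zc`, `K₀ = Z`, `M = As`, `Ψ = Ps`.
-/

namespace SingerLG

open SingerVS SingerCub
open scoped Pointwise

variable {G V S : Type} [Group G] [MulAction G V] [MulAction G S] [DecidableEq S]
  {A : Dat G V S} {Hs : V → S → Set V} {c j : ℕ}

private theorem ACut_zero (hA : Stg A Hs) {z : L2 A.Fl}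
    (hz : ∀ x : A.Fl, ∀ s ∈ x.σ, z (A.mv s x) = - z x) {x : A.Fl} (hx : x ∈ A.Bf c) :
    z (A.jj c x) = - z x := by
  obtain ⟨s, hs, hc⟩ := hx
  rw [hA.jj_eq hs hc, hz x s hs]

private theorem ACut_rsB {y : L2 A.Fl} (hy : y ∈ A.Bad Hs c j) : rs (A.Bf c) y = y := by
  apply l2_ext
  intro x
  by_cases h : x ∈ A.Bf c
  · exact rs_of_mem y h
  · rw [rs_of_notMem y h, Dat.Bad_supp hy x h]

omit [DecidableEq S] in
private theorem ACut_rs0 {B : Set A.Fl} {z : L2 A.Fl} {x : A.Fl} (hx : z x = 0) :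
    (rs B z) x = 0 := by
  by_cases h : x ∈ B
  · rw [rs_of_mem z h, hx]
  · exact rs_of_notMem z h

private theorem ACut_Bl (hA : Stg A Hs) {x : A.Fl} {t : S} (ht : t ∈ x.σ) (hc : A.col t = c)
    {a : Set V} : x ∈ A.Bl Hs c a ↔ Hs x.v t = a := by
  constructor
  · rintro ⟨t', ht', hc', h⟩
    have h1 := hA.uniq_col ht' ht (hc'.trans hc.symm)
    rw [← h1]
    exact h
  · intro h
    exact ⟨t, ht, hc, h⟩

theorem Stg.mem_Z_iff (hA : Stg A Hs) {z : L2 A.Fl} :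
    z ∈ A.Z j ↔ z ∈ A.Zc Hs c j ∧ hA.Ps c z = 0 := by
  constructor
  · intro hz
    have h := Dat.mem_Z.mp hz
    refine ⟨Dat.mem_Zc.mpr ⟨h.1, fun x s hs _ => h.2.1 x s hs, h.2.2, ?_⟩, ?_⟩
    · rintro y ⟨a, _, h1⟩
      exact h1 z hz
    · apply l2_ext
      intro x
      show (hA.Ps c z) x = 0
      by_cases hx : x ∈ A.Bf c
      · rw [hA.Ps_in z hx, ACut_zero hA h.2.1 hx, add_neg_cancel]
      · exact hA.Ps_out z hx
  · rintro ⟨hz, h0⟩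
    have h := Dat.mem_Zc.mp hz
    refine Dat.mem_Z.mpr ⟨h.1, fun x s hs => ?_, h.2.2.1⟩
    by_cases hc : A.col s = c
    · have hx : x ∈ A.Bf c := ⟨s, hs, hc⟩
      have h1 := hA.Ps_in z hx
      have h2 : (hA.Ps c z) x = 0 := by
        rw [h0]
        rfl
      rw [h2, hA.jj_eq hs hc] at h1
      linarith
    · exact h.2.1 x s hs hc

theorem Stg.Ps_mem (hA : Stg A Hs) {z : L2 A.Fl} (hz : z ∈ A.Zc Hs c j) :
    hA.Ps c z ∈ A.As Hs c j := by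
  have h := (Dat.mem_Zc.mp hz).2.2.2
  have key : ∀ y ∈ A.Bad Hs c j, inner ℝ y (rs (A.Bf c) z) = 0 := by
    intro y hy
    rw [← rs_inner, ACut_rsB hy]
    exact h y hy
  refine Dat.mem_As.mpr ⟨Dat.mem_Fs.mpr ⟨fun x hx => hA.Ps_out z hx, fun y hy => ?_⟩, fun x hx => ?_⟩
  · have h1 : hA.Ps c z = rs (A.Bf c) z + hA.J c (rs (A.Bf c) z) := rfl
    rw [h1, inner_add_right, key y hy, ← hA.J_inner, key _ (hA.Bad_J hy), add_zero]
  · rw [hA.Ps_in z hx, hA.Ps_in z (Dat.jj_Bf.mpr hx), hA.jj_jj, add_comm]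

theorem Stg.half_mem (hA : Stg A Hs) {v : V} {s : S} (hs : s ∈ A.D v) (hc : A.col s = c)
    {ξ : L2 A.Fl} (hξ : ξ ∈ A.Z j) : rs {x : A.Fl | x.v ∈ Hs v s} ξ ∈ A.Zc Hs c j := by
  have h := Dat.mem_Z.mp hξ
  refine Dat.mem_Zc.mpr ⟨fun x hx => ACut_rs0 (h.1 x hx), fun x t ht htc => ?_, fun x hx => ?_, ?_⟩
  · have hts : t ≠ s := by
      rintro rfl
      exact htc hc
    have h1 : A.mv t x ∈ {x : A.Fl | x.v ∈ Hs v s} ↔ x ∈ {x : A.Fl | x.v ∈ Hs v s} := by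
      show (A.mv t x).v ∈ Hs v s ↔ x.v ∈ Hs v s
      rw [hA.mv_v ht]
      exact hA.side_nb hs (x.2.1 ht) hts
    by_cases hx : x ∈ {x : A.Fl | x.v ∈ Hs v s}
    · rw [rs_of_mem ξ hx, rs_of_mem ξ (h1.mpr hx), h.2.1 x t ht]
    · rw [rs_of_notMem ξ hx, rs_of_notMem ξ fun h2 => hx (h1.mp h2), neg_zero]
  · have h1 : ∀ t, A.ins t x ∈ {x : A.Fl | x.v ∈ Hs v s} ↔ x ∈ {x : A.Fl | x.v ∈ Hs v s} := by
      intro t
      show (A.ins t x).v ∈ Hs v s ↔ x.v ∈ Hs v s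
      rw [Dat.ins_v]
    by_cases hxW : x ∈ {x : A.Fl | x.v ∈ Hs v s}
    · rw [← h.2.2 x hx]
      refine Finset.sum_congr rfl fun t _ => ?_
      rw [rs_of_mem ξ ((h1 t).mpr hxW)]
    · refine Finset.sum_eq_zero fun t _ => ?_
      rw [rs_of_notMem ξ fun h2 => hxW ((h1 t).mp h2), mul_zero]
  · rintro y ⟨a, h1, h2⟩
    by_cases hne : ∃ x₀, x₀ ∈ A.Bl Hs c a
    · obtain ⟨x₀, hx₀⟩ := hne
      have hcst : ∀ x ∈ A.Bl Hs c a, (x₀.v ∈ Hs v s ↔ x.v ∈ Hs v s) := by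
        rintro x ⟨t, ht, hct, hta⟩
        obtain ⟨t', ht', hct', hta'⟩ := hx₀
        have h3 := hA.eq_of_Hs (x.2.1 ht) (x₀.2.1 ht') (hta.trans hta'.symm)
        exact hA.par_side hs (hc.trans hct.symm) (x.2.1 ht) h3.2
      by_cases h4 : x₀.v ∈ Hs v s
      · have h5 : inner ℝ y (rs {x : A.Fl | x.v ∈ Hs v s} ξ - ξ) = 0 := by
          apply inner_eq_zero_of_supp
          intro x
          by_cases hx : x ∈ A.Bl Hs c a
          · right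
            have h6 : x ∈ {x : A.Fl | x.v ∈ Hs v s} := (hcst x hx).mp h4
            show (rs {x : A.Fl | x.v ∈ Hs v s} ξ) x - ξ x = 0
            rw [rs_of_mem ξ h6, sub_self]
          · left
            exact h1 x hx
        rw [inner_sub_right, h2 ξ hξ, sub_zero] at h5
        exact h5
      · apply inner_eq_zero_of_supp
        intro x
        by_cases hx : x ∈ A.Bl Hs c a
        · right
          exact rs_of_notMem ξ fun h6 => h4 ((hcst x hx).mpr h6)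
        · left
          exact h1 x hx
    · apply inner_eq_zero_of_supp
      intro x
      left
      exact h1 x fun hx => hne ⟨x, hx⟩

private theorem ACut_Ps (hA : Stg A Hs) {v : V} {s : S} (hs : s ∈ A.D v)
    {ξ : L2 A.Fl} (hξ : ∀ x : A.Fl, ∀ s ∈ x.σ, ξ (A.mv s x) = - ξ x) :
    hA.Ps c (rs {x : A.Fl | x.v ∈ Hs v s} ξ) =
      rs (A.Bl Hs c (Hs v s)) ξ - rs (A.Bl Hs c (Hs v s)ᶜ) ξ := by
  apply l2_ext
  intro x
  show (hA.Ps c (rs {x : A.Fl | x.v ∈ Hs v s} ξ)) x =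
    (rs (A.Bl Hs c (Hs v s)) ξ) x - (rs (A.Bl Hs c (Hs v s)ᶜ) ξ) x
  by_cases hx : x ∈ A.Bf c
  · have h0 := ACut_zero hA hξ hx
    rw [hA.Ps_in _ hx]
    obtain ⟨t, ht, hct⟩ := hx
    have hj : (A.jj c x).v = A.nb t x.v := by rw [hA.jj_eq ht hct, hA.mv_v ht]
    have htD : t ∈ A.D x.v := x.2.1 ht
    have hmem := hA.mem x.v t htD
    have hnot := hA.nb_not_mem htD
    have hne : Hs v s ≠ (Hs v s)ᶜ := by
      intro h
      have h1 := hA.mem v s hs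
      have h2 := h1
      rw [h] at h2
      exact h2 h1
    have e1 := ACut_Bl hA ht hct (a := Hs v s)
    have e2 := ACut_Bl hA ht hct (a := (Hs v s)ᶜ)
    by_cases h1 : Hs x.v t = Hs v s
    · rw [h1] at hmem hnot
      have h2 : x ∈ {x : A.Fl | x.v ∈ Hs v s} := hmem
      have h3 : A.jj c x ∉ {x : A.Fl | x.v ∈ Hs v s} := by
        show ¬ (A.jj c x).v ∈ Hs v s
        rw [hj]
        exact hnot
      rw [rs_of_mem ξ h2, rs_of_notMem ξ h3, rs_of_mem ξ (e1.mpr h1),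
        rs_of_notMem ξ fun h4 => hne (h1.symm.trans (e2.mp h4))]
      ring
    · by_cases h2 : Hs x.v t = (Hs v s)ᶜ
      · rw [h2] at hmem hnot
        have h3 : x ∉ {x : A.Fl | x.v ∈ Hs v s} := hmem
        have h4 : A.jj c x ∈ {x : A.Fl | x.v ∈ Hs v s} := by
          show (A.jj c x).v ∈ Hs v s
          rw [hj]
          exact Set.notMem_compl_iff.mp hnot
        rw [rs_of_notMem ξ h3, rs_of_mem ξ h4, rs_of_mem ξ (e2.mpr h2),
          rs_of_notMem ξ fun h5 => h1 (e1.mp h5), h0]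
        ring
      · have h3 := hA.nb_side hs htD h1 h2
        rw [rs_of_notMem ξ fun h5 => h1 (e1.mp h5), rs_of_notMem ξ fun h5 => h2 (e2.mp h5)]
        by_cases h4 : x.v ∈ Hs v s
        · have h5 : x ∈ {x : A.Fl | x.v ∈ Hs v s} := h4
          have h6 : A.jj c x ∈ {x : A.Fl | x.v ∈ Hs v s} := by
            show (A.jj c x).v ∈ Hs v s
            rw [hj]
            exact h3.mpr h4
          rw [rs_of_mem ξ h5, rs_of_mem ξ h6, h0]
          ring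
        · have h5 : x ∉ {x : A.Fl | x.v ∈ Hs v s} := h4
          have h6 : A.jj c x ∉ {x : A.Fl | x.v ∈ Hs v s} := by
            show ¬ (A.jj c x).v ∈ Hs v s
            rw [hj]
            exact fun h7 => h4 (h3.mp h7)
          rw [rs_of_notMem ξ h5, rs_of_notMem ξ h6]
          ring
  · rw [hA.Ps_out _ hx, rs_of_notMem ξ fun h => hx (Dat.Bl_sub h),
      rs_of_notMem ξ fun h => hx (Dat.Bl_sub h), sub_zero]

private theorem ACut_J (hA : Stg A Hs) {a : Set V} {ξ : L2 A.Fl}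
    (hξ : ∀ x : A.Fl, ∀ s ∈ x.σ, ξ (A.mv s x) = - ξ x) :
    hA.J c (rs (A.Bl Hs c aᶜ) ξ) = - rs (A.Bl Hs c a) ξ := by
  apply l2_ext
  intro x
  show (hA.J c (rs (A.Bl Hs c aᶜ) ξ)) x = - (rs (A.Bl Hs c a) ξ) x
  rw [hA.J_apply]
  by_cases h : x ∈ A.Bl Hs c a
  · rw [rs_of_mem ξ h, rs_of_mem ξ (hA.Bl_jj.mpr h), ACut_zero hA hξ (Dat.Bl_sub h)]
  · rw [rs_of_notMem ξ h, rs_of_notMem ξ fun h1 => h (hA.Bl_jj.mp h1), neg_zero]

theorem Stg.dens (hA : Stg A Hs) {g : L2 A.Fl} (hg : g ∈ A.As Hs c j)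
    (h : ∀ z ∈ A.Zc Hs c j, inner ℝ g (hA.Ps c z) = 0) : g = 0 := by
  have h1 := Dat.mem_As.mp hg
  have h2 := Dat.mem_Fs.mp h1.1
  have hJ : hA.J c g = g := by
    apply l2_ext
    intro x
    rw [hA.J_apply]
    by_cases hx : x ∈ A.Bf c
    · exact h1.2 x hx
    · rw [Dat.jj_not hx]
  apply l2_ext
  intro x₀
  show g x₀ = 0
  by_cases hx₀ : x₀ ∈ A.Bf c
  · obtain ⟨s, hs, hc⟩ := hx₀
    have hsD : s ∈ A.D x₀.v := x₀.2.1 hs
    have hmem : x₀ ∈ A.Bl Hs c (Hs x₀.v s) := ⟨s, hs, hc, rfl⟩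
    have hbad : rs (A.Bl Hs c (Hs x₀.v s)) g ∈ A.Bad Hs c j := by
      refine ⟨Hs x₀.v s, fun x hx => rs_of_notMem g hx, fun ξ hξ => ?_⟩
      have hm := (Dat.mem_Z.mp hξ).2.1
      have e1 := h _ (hA.half_mem hsD hc hξ)
      rw [ACut_Ps hA hsD hm, inner_sub_right] at e1
      have e2 : inner ℝ g (rs (A.Bl Hs c (Hs x₀.v s)ᶜ) ξ) =
          - inner ℝ g (rs (A.Bl Hs c (Hs x₀.v s)) ξ) := by
        conv_lhs => rw [← hJ]
        rw [hA.J_inner, ACut_J hA hm, inner_neg_right]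
      rw [rs_inner]
      linarith
    have e3 := h2.2 _ hbad
    have e4 : rs (A.Bl Hs c (Hs x₀.v s)) (rs (A.Bl Hs c (Hs x₀.v s)) g) =
        rs (A.Bl Hs c (Hs x₀.v s)) g := by
      apply l2_ext
      intro x
      by_cases hx : x ∈ A.Bl Hs c (Hs x₀.v s)
      · exact rs_of_mem _ hx
      · rw [rs_of_notMem _ hx, rs_of_notMem g hx]
    rw [← e4, rs_inner] at e3
    have e5 : rs (A.Bl Hs c (Hs x₀.v s)) g = 0 := inner_self_eq_zero.mp e3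
    rw [← rs_of_mem g hmem, e5]
    rfl
  · exact h2.1 x₀ hx₀

theorem Stg.tr_cut (hA : Stg A Hs) (c j : ℕ) : tr G (A.Z j).starProjection =
    tr G (A.Zc Hs c j).starProjection - tr G (A.As Hs c j).starProjection :=
  tr_rank hA.fo (hA.Zc_inv c j) (A.Z_inv j) (hA.As_inv c j) hA.Ps_eqv
    (fun _ => hA.mem_Z_iff) (fun _ hx => hA.Ps_mem hx) (fun _ hg h => hA.dens hg h)

end SingerLG
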