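import Mathlib
import Pool.Agent.Lib_MP_394d50_lg.MDefs
import Pool.Agent.Lib_MP_394d50_lg.SBas

/-!
# Piece M2: the side function of words (`SdL`)

The head of the list `u.l` is the LAST letter of the word `u`, `u.l.getLast?` is the first letter.
`of_mul_l`: left multiplication by a letter: write `u.l = l' ++ [z]` or `[]` (`List.eq_nil_or_concat`), and
`FW.of a * u = FW.mulL (FW.of a) u.l`; by induction on `l` (`FW.mulL_append`, `FW.mulL_cons`): `FW.mulL (FW.of a) (l ++ [a])`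
`= FW.mulL 1 l`, which has the list `l` for a reduced `l` (`FW.one_mulL`); if the first letter of `u` is not `a` then
`u.l ++ [a]` is reduced, and `FW.of a * u = FW.mulL (FW.of a) u.l = FW.mulL (FW.mulL 1 [a]) u.l = FW.mulL 1 (u.l ++ [a])`.
`SdL_append`: induction on `l`. `SdL_all`: all letters cross: induction. `SdL_not`: if some letter does not cross `k`
then the answer does not depend on `o`: induction. `Xs_compl`, `Ik_compl`: there is a vertex adjacent to `a` (`a.2`).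
`SdL_compl`: induction on `l`, with `Xs_compl`, `Ik_compl`. `SdL_rmL`: the cases `l = []`, `l = a :: l'`, `l = b :: l'` with
`b ≠ a`; the inner proposition `(Xs a → o) ∧ (¬ Xs a → Ik a)` is equivalent to `o` under the hypothesis.
`SdL_of_mul`: from `of_mul_l`, `SdL_append`. `mem_Ik`: if `a` does not cross `k` then all vertices adjacent to `a` are on the
same side. `Xs_lt`: `s`, `t` directions at `x` with `cr s t`, `col t = c`: the wall `Hs x t` crosses `Hs x s`: `x` and `nb s x` are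
both adjacent to it (`par`; `col s ≠ c` by `cr_col`).
-/

namespace SingerLG

open SingerVS SingerCub
open scoped Pointwise

open scoped Classical in
theorem FW.of_mul_l {α : Type} (a : α) (u : FW α) :
    (FW.of a * u).l = if u.l.getLast? = some a then u.l.dropLast else u.l ++ [a] := by
  obtain ⟨l, h⟩ := u
  show (FW.mulL (FW.of a) l).l = if l.getLast? = some a then l.dropLast else l ++ [a]
  by_cases hl : l.getLast? = some a
  · rw [if_pos hl]
    have h1 : l.dropLast ++ [a] = l := List.dropLast_append_getLast? a hl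
    have h2 : (FW.mulL (FW.of a) [a] : FW α) = ⟨[], List.isChain_nil⟩ := FW.ext (rmL_self a [])
    have h3 : l.dropLast.IsChain (· ≠ ·) := by
      rw [← h1, List.isChain_append] at h
      exact h.1
    conv_lhs => rw [← h1]
    rw [FW.mulL_append, h2, FW.one_mulL h3]
  · rw [if_neg hl]
    have h2 : (FW.mulL ⟨[], List.isChain_nil⟩ [a] : FW α) = FW.of a := rfl
    have h3 : (l ++ [a]).IsChain (· ≠ ·) := by
      rw [List.isChain_append]
      refine ⟨h, List.isChain_singleton a, fun x hx y hy => ?_⟩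
      have hy' : a = y := Option.some.inj hy
      rintro rfl
      rw [← hy'] at hx
      exact hl hx
    rw [← h2, ← FW.mulL_append, FW.one_mulL h3]

variable {G V S : Type} [Group G] [MulAction G V] [MulAction G S] {A : Dat G V S}
  {Hs : V → S → Set V} {c : ℕ} {b : V}

theorem SdL_append (k : Set V) (l : List (A.Lt Hs c b)) (a : A.Lt Hs c b) (o : Prop) :
    A.SdL Hs k (l ++ [a]) o ↔ (A.Xs Hs k a → A.SdL Hs k l o) ∧ (¬ A.Xs Hs k a → A.Ik Hs k a) := by
  induction l generalizing o with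
  | nil => exact Iff.rfl
  | cons b l ih => exact ih _

private theorem MWord_congr (k : Set V) (l : List (A.Lt Hs c b)) {o o' : Prop} (h : o ↔ o') :
    A.SdL Hs k l o ↔ A.SdL Hs k l o' := by
  rw [propext h]

theorem SdL_all (k : Set V) (l : List (A.Lt Hs c b)) (h : ∀ a ∈ l, A.Xs Hs k a) (o : Prop) :
    A.SdL Hs k l o ↔ o := by
  induction l generalizing o with
  | nil => exact Iff.rfl
  | cons a l ih =>
    have h1 := h a List.mem_cons_self
    refine (ih (fun x hx => h x (List.mem_cons_of_mem _ hx)) _).trans ?_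
    exact ⟨fun h2 => h2.1 h1, fun h2 => ⟨fun _ => h2, fun h3 => absurd h1 h3⟩⟩

theorem SdL_not (k : Set V) (l : List (A.Lt Hs c b)) (h : ∃ a ∈ l, ¬ A.Xs Hs k a) (o o' : Prop) :
    A.SdL Hs k l o ↔ A.SdL Hs k l o' := by
  induction l generalizing o o' with
  | nil =>
    obtain ⟨a, ha, -⟩ := h
    exact absurd ha (List.not_mem_nil)
  | cons a l ih =>
    by_cases h1 : ∃ a ∈ l, ¬ A.Xs Hs k a
    · exact ih h1 _ _
    · have h2 : ¬ A.Xs Hs k a := by
        obtain ⟨x, hx, hx'⟩ := h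
        rcases List.mem_cons.1 hx with rfl | hx
        · exact hx'
        · exact absurd ⟨x, hx, hx'⟩ h1
      refine MWord_congr k l ⟨fun h3 => ⟨fun h4 => absurd h4 h2, h3.2⟩,
        fun h3 => ⟨fun h4 => absurd h4 h2, h3.2⟩⟩

/-- The first letter which does not cross `k` decides. -/
theorem SdL_first (k : Set V) (l l' : List (A.Lt Hs c b)) (a : A.Lt Hs c b)
    (h : ∀ a ∈ l', A.Xs Hs k a) (ha : ¬ A.Xs Hs k a) (o : Prop) :
    A.SdL Hs k (l ++ a :: l') o ↔ A.Ik Hs k a := by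
  induction l generalizing o with
  | nil =>
    refine (SdL_all k l' h _).trans ?_
    exact ⟨fun h2 => h2.2 ha, fun h2 => ⟨fun h3 => absurd h3 ha, fun _ => h2⟩⟩
  | cons b l ih => exact ih _

theorem Xs_compl (k : Set V) (a : A.Lt Hs c b) : A.Xs Hs kᶜ a ↔ A.Xs Hs k a := by
  constructor
  · rintro ⟨⟨v, h1, h2⟩, ⟨u, h3, h4⟩⟩
    exact ⟨⟨u, h3, Set.notMem_compl_iff.1 h4⟩, ⟨v, h1, h2⟩⟩
  · rintro ⟨⟨v, h1, h2⟩, ⟨u, h3, h4⟩⟩
    exact ⟨⟨u, h3, h4⟩, ⟨v, h1, Set.notMem_compl_iff.2 h2⟩⟩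

theorem Ik_compl (k : Set V) (a : A.Lt Hs c b) (h : ¬ A.Xs Hs k a) :
    A.Ik Hs kᶜ a ↔ ¬ A.Ik Hs k a := by
  constructor
  · rintro ⟨v, h1, h2⟩ h3
    exact h ⟨h3, ⟨v, h1, h2⟩⟩
  · intro h1
    obtain ⟨v, hv⟩ := a.2
    exact ⟨v, hv, fun h2 => h1 ⟨v, hv, h2⟩⟩

theorem SdL_compl (k : Set V) (l : List (A.Lt Hs c b)) (o : Prop) :
    A.SdL Hs kᶜ l (¬ o) ↔ ¬ A.SdL Hs k l o := by
  induction l generalizing o with
  | nil => exact Iff.rfl
  | cons a l ih =>
    refine Iff.trans (MWord_congr kᶜ l ?_) (ih _)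
    rw [Xs_compl]
    by_cases h : A.Xs Hs k a
    · constructor
      · intro h1 h2
        exact h1.1 h (h2.1 h)
      · intro h1
        exact ⟨fun _ h2 => h1 ⟨fun _ => h2, fun h3 => absurd h h3⟩, fun h3 => absurd h h3⟩
    · constructor
      · intro h1 h2
        exact (Ik_compl k a h).1 (h1.2 h) (h2.2 h)
      · intro h1
        exact ⟨fun h3 => absurd h3 h, fun _ => (Ik_compl k a h).2 fun h2 =>
          h1 ⟨fun h3 => absurd h3 h, fun _ => h2⟩⟩

theorem SdL_congr (k : Set V) (l : List (A.Lt Hs c b)) {o o' : Prop} (h : o ↔ o') :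
    A.SdL Hs k l o ↔ A.SdL Hs k l o' := by
  exact MWord_congr k l h

theorem SdL_rmL (k : Set V) (l : List (A.Lt Hs c b)) (a : A.Lt Hs c b) (o : Prop)
    (h : A.Xs Hs k a ∨ (A.Ik Hs k a ↔ o)) : A.SdL Hs k (rmL a l) o ↔ A.SdL Hs k l o := by
  have h1 : ((A.Xs Hs k a → o) ∧ (¬ A.Xs Hs k a → A.Ik Hs k a)) ↔ o := by
    tauto
  match l with
  | [] => exact h1
  | x :: l =>
    by_cases hx : a = x
    · subst hx
      rw [rmL_self]
      exact MWord_congr k l h1.symm
    · rw [rmL_ne hx]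
      exact MWord_congr k (x :: l) h1

theorem SdL_of_mul (k : Set V) (u : FW (A.Lt Hs c b)) (a : A.Lt Hs c b) (o : Prop)
    (h : A.Xs Hs k a) : A.SdL Hs k (FW.of a * u).l o ↔ A.SdL Hs k u.l o := by
  have h1 : ∀ l : List (A.Lt Hs c b), A.SdL Hs k (l ++ [a]) o ↔ A.SdL Hs k l o := by
    intro l
    rw [SdL_append]
    exact ⟨fun h2 => h2.1 h, fun h2 => ⟨fun _ => h2, fun h3 => absurd h h3⟩⟩
  rw [FW.of_mul_l]
  by_cases hl : u.l.getLast? = some a
  · rw [if_pos hl, ← h1, List.dropLast_append_getLast? a hl]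
  · rw [if_neg hl, h1]

theorem mem_Ik (k : Set V) (a : A.Lt Hs c b) (h : ¬ A.Xs Hs k a) {v : V} (hv : A.Adj Hs c b a.1 v) :
    A.Ik Hs k a ↔ v ∈ k := by
  constructor
  · intro h1
    by_contra h2
    exact h ⟨h1, ⟨v, hv, h2⟩⟩
  · intro h1
    exact ⟨v, hv, h1⟩

theorem Xs_lt (hA : Stg A Hs) (x : A.Rn c b) {s t : S} (hs : s ∈ A.D x.1) (ht : t ∈ A.D x.1)
    (hc : A.col t = c) (h : A.cr s t) : A.Xs Hs (Hs x.1 s) (A.lt Hs x t ht hc) := by
  refine ⟨⟨x.1, ⟨x.2, t, ht, hc, rfl⟩, hA.mem x.1 s hs⟩,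
    ⟨A.nb s x.1, ⟨x.2.tail ⟨s, hs, ?_, rfl⟩, t, hA.nb_D x.1 s hs t ht h, hc, ?_⟩, hA.nb_not_mem hs⟩⟩
  · intro h1
    exact hA.cr_col s t h (h1.trans hc.symm)
  · exact hA.par x.1 t ht s hs (hA.cr_symm s t h)

end SingerLG
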