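import Mathlib
import Pool.Agent.Lib_MP_394d50_lg.MWord

/-!
# Piece M3: the mirrored stage, the axioms `mem`, `opp`, `par`, `smul`

`u ∈ Hm x s` means `(x.1⁻¹ * u.1, u.2) ∈ Hm1 x.2 s`.
`mir_mem`: the word is `1`, its list is `[]`.
`mir_opp`: colour `c`: `nb s x = (x.1 * of a, x.2)`, `a = Hs x s`, so the word is `of a * w`, `w = x.1⁻¹ * u.1` (`(of a)⁻¹ = of a` by
`FW.of_mul_of`); by `FW.of_mul_l` it begins with `a` iff `w` does not begin with `a` (if `w.l = l ++ [a]` is reduced then `l` does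
not end with `a`). Colour `≠ c`: `Hs (nb s x) s = (Hs x s)ᶜ` (`opp`) and `SdL_compl`.
`mir_par` (`cr s t`, so at most one of them has the colour `c`): `col s = c`: `nb t x = (x.1, nb t x.2)` and `Hs (nb t x) s = Hs x s`.
`col s ≠ c`, `col t ≠ c`: the same. `col t = c`: `nb t x = (x.1 * of a, x.2)`, the word is `of a * w`, and `a = Hs x t` crosses `k = Hs x s`
(`Xs_lt`): `SdL_of_mul`.
`mir_smul`: `g • u = (g.left * aut g.right u.1, g.right • u.2)`, so the word of `g • u` relative to `g • x` is `aut g.right w`,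
whose list is `w.l.map (g.right • ·)` (`FW.aut_l`); `Hs (g x) (g s) = g Hs x s` (`smul_Hs`), `Adj`, `Xs`, `Ik` are invariant
(`smul_adj`, also for `g⁻¹`), `SdL` by induction.
-/

namespace SingerLG

open SingerVS SingerCub
open scoped Pointwise

variable {G V S : Type} [Group G] [MulAction G V] [MulAction G S] {A : Dat G V S}
  {Hs : V → S → Set V}

private theorem MHs_mem {c : ℕ} {b : V} {x u : A.Vm Hs c b} {s : S} :
    u ∈ A.Hm Hs c b x s ↔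
      (A.col s = c → ∀ a ∈ (x.1⁻¹ * u.1).l.getLast?, a.1 ≠ Hs x.2.1 s) ∧
      (A.col s ≠ c → A.SdL Hs (Hs x.2.1 s) (x.1⁻¹ * u.1).l (u.2.1 ∈ Hs x.2.1 s)) := Iff.rfl

private theorem MHs_mem_eq {c : ℕ} {b : V} {x u : A.Vm Hs c b} {s : S} (hc : A.col s = c) :
    u ∈ A.Hm Hs c b x s ↔ ∀ a ∈ (x.1⁻¹ * u.1).l.getLast?, a.1 ≠ Hs x.2.1 s :=
  MHs_mem.trans ⟨fun h => h.1 hc, fun h => ⟨fun _ => h, fun h' => absurd hc h'⟩⟩

private theorem MHs_mem_ne {c : ℕ} {b : V} {x u : A.Vm Hs c b} {s : S} (hc : A.col s ≠ c) :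
    u ∈ A.Hm Hs c b x s ↔
      A.SdL Hs (Hs x.2.1 s) (x.1⁻¹ * u.1).l (u.2.1 ∈ Hs x.2.1 s) :=
  MHs_mem.trans ⟨fun h => h.2 hc, fun h => ⟨fun h' => absurd h' hc, fun _ => h⟩⟩

private theorem MHs_inv {α : Type} (w : FW α) (a : α) (u : FW α) :
    (w * FW.of a)⁻¹ * u = FW.of a * (w⁻¹ * u) := by
  have h : (FW.of a)⁻¹ = FW.of a := inv_eq_of_mul_eq_one_left (FW.of_mul_of a)
  rw [mul_inv_rev, h, mul_assoc]

private theorem MHs_first {α : Type} (a : α) (w : FW α) :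
    (FW.of a * w).l.getLast? = some a ↔ ¬ w.l.getLast? = some a := by
  classical
  rw [FW.of_mul_l]
  by_cases hl : w.l.getLast? = some a
  · have h1 : w.l.dropLast ++ [a] = w.l := List.dropLast_append_getLast? a hl
    have h2 : (w.l.dropLast ++ [a]).IsChain (· ≠ ·) := by
      rw [h1]
      exact w.red
    rw [List.isChain_append] at h2
    simp only [hl, if_true, not_true, iff_false]
    intro h3
    exact h2.2.2 a h3 a rfl rfl
  · simp only [hl, if_false, not_false_eq_true, iff_true]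
    rw [List.getLast?_append]
    rfl

theorem Stg.mir_mem (hA : Stg A Hs) (c : ℕ) (b : V) (x : A.Vm Hs c b) (s : S)
    (hs : s ∈ (hA.mir c b).D x) : x ∈ A.Hm Hs c b x s := by
  have h1 : (x.1⁻¹ * x.1).l = [] := by
    rw [inv_mul_cancel]
    rfl
  refine MHs_mem.mpr ⟨fun _ => ?_, fun _ => ?_⟩
  · rw [h1]
    intro a ha
    cases ha
  · rw [h1]
    exact hA.mem x.2.1 s hs

theorem Stg.mir_opp (hA : Stg A Hs) (c : ℕ) (b : V) (x : A.Vm Hs c b) (s : S)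
    (hs : s ∈ (hA.mir c b).D x) :
    A.Hm Hs c b ((hA.mir c b).nb s x) s = (A.Hm Hs c b x s)ᶜ := by
  have hs' : s ∈ A.D x.2.1 := hs
  show A.Hm Hs c b (A.nbm Hs s x) s = (A.Hm Hs c b x s)ᶜ
  ext u
  rw [Set.mem_compl_iff]
  by_cases hc : A.col s = c
  · rw [Dat.nbm_eq hs' hc, MHs_mem_eq hc, MHs_mem_eq hc]
    show (∀ a ∈ ((x.1 * FW.of (A.lt Hs x.2 s hs' hc))⁻¹ * u.1).l.getLast?, a.1 ≠ Hs x.2.1 s) ↔ _
    rw [MHs_inv]
    have key : ∀ w : FW (A.Lt Hs c b), (∀ a ∈ w.l.getLast?, a.1 ≠ Hs x.2.1 s) ↔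
        ¬ w.l.getLast? = some (A.lt Hs x.2 s hs' hc) := by
      intro w
      constructor
      · intro h1 h2
        exact h1 _ h2 rfl
      · intro h1 a ha h2
        apply h1
        have h3 : a = A.lt Hs x.2 s hs' hc := Subtype.ext h2
        rw [← h3]
        exact ha
    rw [key, key, MHs_first]
  · rw [Dat.nbm_ne hs' hc, MHs_mem_ne hc, MHs_mem_ne hc]
    show A.SdL Hs (Hs (A.nb s x.2.1) s) (x.1⁻¹ * u.1).l (u.2.1 ∈ Hs (A.nb s x.2.1) s) ↔ _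
    rw [hA.opp x.2.1 s hs', ← SdL_compl]
    exact Iff.rfl

theorem Stg.mir_par (hA : Stg A Hs) (c : ℕ) (b : V) (x : A.Vm Hs c b) (s : S)
    (hs : s ∈ (hA.mir c b).D x) (t : S) (ht : t ∈ (hA.mir c b).D x) (h : A.cr s t) :
    A.Hm Hs c b ((hA.mir c b).nb t x) s = A.Hm Hs c b x s := by
  have hs' : s ∈ A.D x.2.1 := hs
  have ht' : t ∈ A.D x.2.1 := ht
  show A.Hm Hs c b (A.nbm Hs t x) s = A.Hm Hs c b x s
  have hpar : Hs (A.nb t x.2.1) s = Hs x.2.1 s := hA.par x.2.1 s hs' t ht' h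
  ext u
  by_cases hc : A.col t = c
  · have hsc : A.col s ≠ c := fun e => hA.cr_col s t h (e.trans hc.symm)
    rw [Dat.nbm_eq ht' hc, MHs_mem_ne hsc, MHs_mem_ne hsc]
    show A.SdL Hs (Hs x.2.1 s) ((x.1 * FW.of (A.lt Hs x.2 t ht' hc))⁻¹ * u.1).l
      (u.2.1 ∈ Hs x.2.1 s) ↔ _
    rw [MHs_inv]
    exact SdL_of_mul _ _ _ _ (Xs_lt hA x.2 hs' ht' hc h)
  · rw [Dat.nbm_ne ht' hc]
    by_cases hsc : A.col s = c
    · rw [MHs_mem_eq hsc, MHs_mem_eq hsc]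
      show (∀ a ∈ (x.1⁻¹ * u.1).l.getLast?, a.1 ≠ Hs (A.nb t x.2.1) s) ↔ _
      rw [hpar]
    · rw [MHs_mem_ne hsc, MHs_mem_ne hsc]
      show A.SdL Hs (Hs (A.nb t x.2.1) s) (x.1⁻¹ * u.1).l (u.2.1 ∈ Hs (A.nb t x.2.1) s) ↔ _
      rw [hpar]

private theorem MHs_smul_smul (hA : Stg A Hs) {c : ℕ} {b : V} (g : hA.Gr c b)
    (k : Set V) : ((g⁻¹ : hA.Gr c b) : G) • (g : G) • k = k := by
  show ((g : G))⁻¹ • (g : G) • k = k
  exact inv_smul_smul _ _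

private theorem MHs_Xs (hA : Stg A Hs) {c : ℕ} {b : V} (g : hA.Gr c b) (k : Set V)
    (a : A.Lt Hs c b) (h : A.Xs Hs k a) : A.Xs Hs ((g : G) • k) (g • a) := by
  obtain ⟨⟨v, h1, h2⟩, ⟨u, h3, h4⟩⟩ := h
  refine ⟨⟨(g : G) • v, hA.smul_adj g h1, Set.smul_mem_smul_set h2⟩,
    ⟨(g : G) • u, hA.smul_adj g h3, fun h5 => h4 ?_⟩⟩
  exact (Set.smul_mem_smul_set_iff).mp h5

private theorem MHs_Ik (hA : Stg A Hs) {c : ℕ} {b : V} (g : hA.Gr c b) (k : Set V)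
    (a : A.Lt Hs c b) (h : A.Ik Hs k a) : A.Ik Hs ((g : G) • k) (g • a) := by
  obtain ⟨v, h1, h2⟩ := h
  exact ⟨(g : G) • v, hA.smul_adj g h1, Set.smul_mem_smul_set h2⟩

private theorem MHs_Xs_iff (hA : Stg A Hs) {c : ℕ} {b : V} (g : hA.Gr c b) (k : Set V)
    (a : A.Lt Hs c b) : A.Xs Hs ((g : G) • k) (g • a) ↔ A.Xs Hs k a := by
  refine ⟨fun h => ?_, MHs_Xs hA g k a⟩
  have h1 := MHs_Xs hA g⁻¹ _ _ h
  rwa [MHs_smul_smul, inv_smul_smul] at h1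

private theorem MHs_Ik_iff (hA : Stg A Hs) {c : ℕ} {b : V} (g : hA.Gr c b) (k : Set V)
    (a : A.Lt Hs c b) : A.Ik Hs ((g : G) • k) (g • a) ↔ A.Ik Hs k a := by
  refine ⟨fun h => ?_, MHs_Ik hA g k a⟩
  have h1 := MHs_Ik hA g⁻¹ _ _ h
  rwa [MHs_smul_smul, inv_smul_smul] at h1

private theorem MHs_SdL (hA : Stg A Hs) {c : ℕ} {b : V} (g : hA.Gr c b) (k : Set V)
    (l : List (A.Lt Hs c b)) (o : Prop) :
    A.SdL Hs ((g : G) • k) (l.map (g • ·)) o ↔ A.SdL Hs k l o := by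
  induction l generalizing o with
  | nil => exact Iff.rfl
  | cons a l ih =>
    show A.SdL Hs ((g : G) • k) (l.map (g • ·))
      ((A.Xs Hs ((g : G) • k) (g • a) → o) ∧
        (¬ A.Xs Hs ((g : G) • k) (g • a) → A.Ik Hs ((g : G) • k) (g • a))) ↔ _
    rw [MHs_Xs_iff, MHs_Ik_iff, ih]
    exact Iff.rfl

theorem Stg.mir_smul (hA : Stg A Hs) (c : ℕ) (b : V) (g : hA.Gm c b) (x : A.Vm Hs c b) (s : S)
    (hs : s ∈ (hA.mir c b).D x) (u : A.Vm Hs c b) (hu : u ∈ A.Hm Hs c b x s) :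
    g • u ∈ A.Hm Hs c b (g • x) (g • s) := by
  have hs' : s ∈ A.D x.2.1 := hs
  have hw : (g • x).1⁻¹ * (g • u).1 = FW.aut g.right (x.1⁻¹ * u.1) := by
    show (g.left * FW.aut g.right x.1)⁻¹ * (g.left * FW.aut g.right u.1) = _
    rw [map_mul, map_inv]
    group
  have hH : Hs (g • x).2.1 (g • s) = (g.right : G) • Hs x.2.1 s := hA.smul_Hs (g.right : G) hs'
  have hcol : A.col (g • s) = A.col s := A.smul_col (g.right : G) s
  by_cases hc : A.col s = c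
  · rw [MHs_mem_eq hc] at hu
    rw [MHs_mem_eq (hcol.trans hc), hw, hH, FW.aut_l]
    intro a ha h1
    rw [List.getLast?_map] at ha
    obtain ⟨a', ha', rfl⟩ := Option.map_eq_some_iff.mp ha
    have h2 : (g.right : G) • a'.1 = (g.right : G) • Hs x.2.1 s := h1
    exact hu a' ha' (smul_left_cancel _ h2)
  · rw [MHs_mem_ne hc] at hu
    have hc' : A.col (g • s) ≠ c := fun e => hc (hcol.symm.trans e)
    rw [MHs_mem_ne hc', hw, hH, FW.aut_l, MHs_SdL]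
    have h1 : ((g • u).2.1 ∈ (g.right : G) • Hs x.2.1 s) ↔ u.2.1 ∈ Hs x.2.1 s := by
      show ((g.right : G) • u.2.1 ∈ (g.right : G) • Hs x.2.1 s) ↔ _
      exact Set.smul_mem_smul_set_iff
    rw [SdL_congr _ _ h1]
    exact hu

end SingerLG
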