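import Mathlib
import Pool.Agent.Lib_MP_394d50_lg.SBas

/-!
# Piece S2: paths along a wall can be chosen inside a region

`Wk Q n v u`: a walk of length `n` from `v` to `u` all of whose labels satisfy `Q`. (Prove what you need about
walks: concatenation, splitting, monotonicity in `Q`, a walk with `Q = A.cr s` gives `Par s` and conversely.)

`Stg.carrier` (strong induction on `n`, for all `Q`, `t`, `x`, `y`): a walk of length `n` from `x` to `y` with labels in
`Q`, `t ∈ D x`, `t ∈ D y`, `Hs y t = Hs x t`. Then there is a walk from `x` to `y` of length `≤ n` all of whose labels `r`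
satisfy `Q r` and `cr t r`. Let `r` be the first label, `x₁ = nb r x`.
 1. `cr t r`: then `t ∈ D x₁`, `Hs x₁ t = Hs x t` (`par`); apply the induction hypothesis to the rest, and prepend `r`.
 2. `r = t`: `x₁ ∉ Hs x t`. Since `y ∈ Hs x t`, there is a first step `x_q → x_{q+1}` (`q ≥ 1`) of the walk which enters
    `Hs x t` again: by `crs` its label is `t` and (as `x_q ∉ Hs x t`) `Par t (nb t x) x_q`, so `Hs x_q t = Hs x₁ t`. The walk from
    `x₁` to `x_q` has length `q - 1 < n`: by the induction hypothesis it can be replaced by a walk with labels in `Q` and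
    crossing `t`, of length `≤ q - 1`. Shift it across `t` (`nb t`, `comm`, the labels are the same): a walk from `x` to
    `x_{q+1}` of length `≤ q - 1` instead of `q + 1`. So there is a shorter walk from `x` to `y`; induction hypothesis.
 3. `r ≠ t`, not `cr t r`: `sqr` at `x`: no vertex is outside both `Hs x t` and `Hs x r`. `nb t y ∉ Hs y t = Hs x t`, so
    `nb t y ∈ Hs x r`, and `y ∈ Hs x r` by `side_nb` (`t ≠ r`). `x₁ ∉ Hs x r`. So the walk from `x₁` to `y` enters `Hs x r` again;
    take the first such step `x_q → x_{q+1}`: its label is `r`, `Hs x_q r = Hs x₁ r`; replace the walk from `x₁` to `x_q`, length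
    `q - 1`, by one crossing `r` (induction hypothesis for `t := r`), shift it across `r`; a shorter walk from `x` to `y`;
    induction hypothesis.

`Stg.par_in`: `s ∈ D v`, `Par s v u`, `v` and `u` in the same region of the colour `c`. Then `v` and `u` are joined by
moves `r` with `cr s r` and `col r ≠ c`. Strong induction on the length of a walk from `v` to `u` with `Q = cr s`: if no
label has the colour `c`, done. Otherwise let `r` at the vertex `x` (`x → x₁ = nb r x`) be the first label of colour `c`;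
`Rg c v x`. By `rg_side` `x` and `u` are on the same side of `Hs x r`, so `u ∈ Hs x r`, and the walk enters `Hs x r` again; as
above (first such step, `crs`, `carrier` with `t := r`, shift) there is a walk of smaller length.
-/

namespace SingerLG

variable {G V S : Type} [Group G] [MulAction G V] [MulAction G S] {A : Dat G V S}
  {Hs : V → S → Set V}

/-- A walk of length `n` from `v` to `u` with labels in `Q`. -/
inductive Dat.Wk (A : Dat G V S) (Q : S → Prop) : ℕ → V → V → Prop
  | nil (v : V) : A.Wk Q 0 v v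
  | cons {n : ℕ} {v u : V} (r : S) (h : r ∈ A.D v) (hr : Q r) (hw : A.Wk Q n (A.nb r v) u) :
      A.Wk Q (n + 1) v u

private theorem SPath_wk_mono {Q Q' : S → Prop} (hQ : ∀ r, Q r → Q' r) {n : ℕ} {v u : V}
    (h : A.Wk Q n v u) : A.Wk Q' n v u := by
  induction h with
  | nil v => exact Dat.Wk.nil v
  | cons r h hr _ ih => exact Dat.Wk.cons r h (hQ r hr) ih

private theorem SPath_wk_append {Q : S → Prop} {n m : ℕ} {v u w : V}
    (h : A.Wk Q n v u) (h' : A.Wk Q m u w) : A.Wk Q (n + m) v w := by
  induction h with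
  | nil v => rwa [Nat.zero_add]
  | cons r h hr _ ih =>
    have h2 := Dat.Wk.cons r h hr (ih h')
    rwa [Nat.add_right_comm]

/-- Shift a walk whose labels cross `t` across the wall of `t`. -/
private theorem SPath_shift (hA : Stg A Hs) {Q : S → Prop} {t : S} (hQ : ∀ r, Q r → A.cr t r)
    {n : ℕ} {v u : V} (h : A.Wk Q n v u) (ht : t ∈ A.D v) :
    A.Wk Q n (A.nb t v) (A.nb t u) := by
  induction h with
  | nil v => exact Dat.Wk.nil _
  | @cons n v u r h hr _ ih =>
    have hc := hQ r hr
    have h1 : t ∈ A.D (A.nb r v) := hA.nb_D v r h t ht (hA.cr_symm _ _ hc)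
    have h2 := ih h1
    rw [hA.comm v t ht r h hc] at h2
    exact Dat.Wk.cons r (hA.nb_D v t ht r h hc) hr h2

/-- A walk which enters the half-space `Hs w s` crosses the wall of `s`. -/
private theorem SPath_entry (hA : Stg A Hs) {Q : S → Prop} {w : V} {s : S} (hs : s ∈ A.D w)
    {n : ℕ} {x y : V} (h : A.Wk Q n x y) (hx : x ∉ Hs w s) (hy : y ∈ Hs w s) :
    ∃ p p' : ℕ, ∃ z : V, p + 1 + p' = n ∧ A.Wk Q p x z ∧ s ∈ A.D z ∧
      A.Par s (A.nb s w) z ∧ A.Wk Q p' (A.nb s z) y := by
  induction h with
  | nil v => exact absurd hy hx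
  | @cons n v u r h hr hw ih =>
    by_cases h1 : A.nb r v ∈ Hs w s
    · obtain ⟨h2, h3⟩ := hA.crs w s hs v r h (fun hh => hx (hh.mp h1))
      subst h2
      refine ⟨0, n, v, by omega, Dat.Wk.nil v, h, ?_, hw⟩
      rcases h3 with h3 | h3
      · exfalso
        apply hx
        rw [← hA.par_Hs hs h3]
        exact hA.mem v r h
      · exact h3
    · obtain ⟨p, p', z, h2, h3, h4, h5, h6⟩ := ih h1 hy
      exact ⟨p + 1, p', z, by omega, Dat.Wk.cons r h hr h3, h4, h5, h6⟩

/-- If the end of the walk is on the starting side of the first wall then there is a shorter walk. -/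
private theorem SPath_shorten (hA : Stg A Hs) {Q : S → Prop} {n : ℕ} {x y : V} {r : S}
    (ih : ∀ m ≤ n, ∀ (x y : V) (t : S), t ∈ A.D x → t ∈ A.D y → Hs y t = Hs x t →
      A.Wk Q m x y → ∃ k ≤ m, A.Wk (fun r => Q r ∧ A.cr t r) k x y)
    (hr : r ∈ A.D x) (hy : y ∈ Hs x r) (hw : A.Wk Q n (A.nb r x) y) :
    ∃ m ≤ n, A.Wk Q m x y := by
  obtain ⟨p, p', z, h1, h2, h3, h4, h5⟩ := SPath_entry hA hr hw (hA.nb_not_mem hr) hy
  have h6 := hA.nb_mem x r hr
  obtain ⟨k, hk, h7⟩ := ih p (by omega) (A.nb r x) z r h6 h3 (hA.par_Hs h6 h4) h2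
  have h8 := SPath_shift hA (fun r' h => h.2) h7 h6
  rw [hA.nb_nb x r hr] at h8
  exact ⟨k + p', by omega, SPath_wk_append (SPath_wk_mono (fun _ h => h.1) h8) h5⟩

theorem Stg.carrier (hA : Stg A Hs) (n : ℕ) (Q : S → Prop) (x y : V) (t : S)
    (hx : t ∈ A.D x) (hy : t ∈ A.D y) (h : Hs y t = Hs x t) (hw : A.Wk Q n x y) :
    ∃ m ≤ n, A.Wk (fun r => Q r ∧ A.cr t r) m x y := by
  induction n using Nat.strong_induction_on generalizing x y t with
  | _ n ih =>
    cases hw with
    | nil => exact ⟨0, le_refl _, Dat.Wk.nil _⟩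
    | @cons n _ _ r hr hQ hw =>
      by_cases hc : A.cr t r
      · have h1 : t ∈ A.D (A.nb r x) := hA.nb_D x r hr t hx (hA.cr_symm _ _ hc)
        have h2 : Hs (A.nb r x) t = Hs x t := hA.par x t hx r hr hc
        obtain ⟨m, hm, h3⟩ := ih n (Nat.lt_succ_self n) (A.nb r x) y t h1 hy (h.trans h2.symm) hw
        exact ⟨m + 1, by omega, Dat.Wk.cons r hr ⟨hQ, hc⟩ h3⟩
      · have hyr : y ∈ Hs x r := by
          by_cases he : r = t
          · subst he
            rw [← h]
            exact hA.mem y r hy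
          · have h1 : A.nb t y ∉ Hs x t := by
              rw [← h]
              exact hA.nb_not_mem hy
            have h2 := (hA.sqr x t hx r hr (fun e => he e.symm) hc (A.nb t y)).resolve_left h1
            exact (hA.side_nb hr hy (fun e => he e.symm)).mp h2
        obtain ⟨m, hm, h3⟩ := SPath_shorten hA (fun m hm x y t h1 h2 h3 h4 =>
          ih m (by omega) x y t h1 h2 h3 h4) hr hyr hw
        obtain ⟨k, hk, h4⟩ := ih m (by omega) x y t hx hy h h3
        exact ⟨k, by omega, h4⟩

private theorem SPath_wk_of_par {s : S} {v u : V} (h : A.Par s v u) :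
    ∃ n, A.Wk (fun r => A.cr s r) n v u := by
  induction h using Relation.ReflTransGen.head_induction_on with
  | refl => exact ⟨0, Dat.Wk.nil _⟩
  | head h _ ih =>
    obtain ⟨r, hr, hc, rfl⟩ := h
    obtain ⟨n, hn⟩ := ih
    exact ⟨n + 1, Dat.Wk.cons r hr hc hn⟩

private theorem SPath_in (hA : Stg A Hs) {c : ℕ} {s : S} {u : V} (n : ℕ) (v : V) (hs : s ∈ A.D v)
    (hR : A.Rg c v u) (hw : A.Wk (fun r => A.cr s r) n v u) :
    Relation.ReflTransGen (fun a b => ∃ r ∈ A.D a, A.cr s r ∧ A.col r ≠ c ∧ b = A.nb r a) v u := by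
  induction n using Nat.strong_induction_on generalizing v with
  | _ n ih =>
    cases hw with
    | nil => exact Relation.ReflTransGen.refl
    | @cons n _ _ r hr hQ hw =>
      by_cases hc : A.col r = c
      · have hu : u ∈ Hs v r := (hA.rg_side hr hc hR).mpr (hA.mem v r hr)
        obtain ⟨m, hm, h3⟩ := SPath_shorten hA (fun m _ x y t h1 h2 h3 h4 =>
          hA.carrier m _ x y t h1 h2 h3 h4) hr hu hw
        exact ih m (by omega) v hs hR h3
      · have h1 : A.Rg c (A.nb r v) u :=
          Relation.ReflTransGen.head ⟨r, hA.nb_mem v r hr, hc, (hA.nb_nb v r hr).symm⟩ hR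
        have h2 : s ∈ A.D (A.nb r v) := hA.nb_D v r hr s hs (hA.cr_symm _ _ hQ)
        exact Relation.ReflTransGen.head ⟨r, hr, hQ, hc, rfl⟩
          (ih n (Nat.lt_succ_self n) (A.nb r v) h2 h1 hw)

theorem Stg.par_in (hA : Stg A Hs) {c : ℕ} {v u : V} {s : S} (hs : s ∈ A.D v)
    (h : A.Par s v u) (hR : A.Rg c v u) :
    Relation.ReflTransGen (fun a b => ∃ r ∈ A.D a, A.cr s r ∧ A.col r ≠ c ∧ b = A.nb r a) v u := by
  obtain ⟨n, hn⟩ := SPath_wk_of_par h
  exact SPath_in hA n v hs hR hn

end SingerLG
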