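import Mathlib
import Pool.Agent.Lib_MP_394d50_lg.MHs
import Pool.Agent.Lib_MP_394d50_lg.SPath

/-!
# Piece M4: the mirrored stage, the axiom `crs` (only the edges of a wall cross it)

Let `M = hA.mir c b`. Reduction to `x.1 = 1`: multiply `x` and `u` by the element `⟨x.1⁻¹, 1⟩` of the group `Gm` (it acts
trivially on the labels, `M.nb` commutes with it (`M.smul_nb`), `Hm` by definition, and `M.Par` is invariant under it).
So let `x = (1, y₀)`, `u = (w, y)`, `t ∈ D y`, and suppose that the side of `Hm1 y₀ s` changes from `u` to `M.nb t u`.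

1. `col s = c`, `a = Hs y₀ s`. Then the first letter of the word changes between `a` and not `a`, so the word changes:
   `col t = c`, and `M.nb t u = (w * of a', y)`, `a' = Hs y t`. If `w.l` has at least two letters then `rmL a' w.l` has the same
   last entry (`getLast?`), no change. So `w = 1` and `a' = a`, or `w = of z` and (`z = a`, `a' = z`, since otherwise the
   first letter stays `z`). In both cases `Hs y t = a = Hs y₀ s`, so `t = s` and `Par s y₀ y` (`eq_of_Hs`), by moves `r` with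
   `cr s r`, so `col r ≠ c`: they stay in the region and give `M.Par s (w, y₀) (w, y)`. `w = 1`: first alternative. `w = of a`:
   `(of a, y₀) = M.nb s (1, y₀)`, second alternative.
2. `col s ≠ c`, `k = Hs y₀ s`, `col t = c`: no change, by `SdL_rmL` for the letter `a' = Hs y t`: `a'` crosses `k`, or
   `Ik k a' ↔ y ∈ k` (`mem_Ik`, `y` is adjacent to `a'`). Contradiction.
3. `col s ≠ c`, `col t ≠ c`: `M.nb t u = (w, nb t y)`. If some letter of `w` does not cross `k`: no change (`SdL_not`).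
   So all letters cross `k` (`SdL_all`), and `y ∈ k` changes to `nb t y ∈ k`: `crs` in `V`: `t = s`, and `Par s y₀ y` or
   `Par s (nb s y₀) y`. By `par_in` (`y₀`, `nb s y₀`, `y` are in the region, `rg_symm`) these are moves of colours `≠ c`.
   Claim: for a word `w` all of whose letters cross `k` and every `y` in the region which is joined with `y₀` by moves `r`
   with `cr s r`, `col r ≠ c`: `M.Par s (1, y₀) (w, y)` (and the same with `nb s y₀` in place of `y₀`, note
   `M.nb s (1, y₀) = (1, nb s y₀)` and that the letters cross `k` iff they cross `kᶜ = Hs (nb s y₀) s`, `Xs_compl`).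
   Induction on the word (`FW.induction`, or on the list): for `w * of a`, `a` crossing `k`: there are `z₁ ∈ k`, `z₂ ∉ k` adjacent to
   `a` in the region, with labels `q`, `q'` of colour `c`, `Hs z₁ q = a = Hs z₂ q'`, so `q' = q` and `Par q z₁ z₂`
   (`eq_of_Hs`). On this path (moves `r` with `cr q r`) there is a first step `z → nb r z` which leaves `k`; `crs`:
   `r = s` and `Par s y₀ z` (the other alternative would give `Hs z s = kᶜ`, but `z ∈ k`, `z ∈ Hs z s`). So `z` is adjacent to `a` (with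
   the label `q`, `par_mem`, `par_Hs`), `cr q s`, `z` is joined with `y₀` along the wall of `s`, inside the region (`par_in`). Induction hypothesis
   for `z`: `M.Par s (1, y₀) (w, z)`; step across `a` (label `q`, `cr s q`): `(w * of a, z)`; then move inside the region from `z` to
   `y` (`par_symm`; moves of colour `≠ c` do not change the word).
-/

namespace SingerLG

open SingerVS SingerCub
open scoped Pointwise

variable {G V S : Type} [Group G] [MulAction G V] [MulAction G S] {A : Dat G V S}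
  {Hs : V → S → Set V}

/-- Moves along the wall of `s` of a colour different from `c`. -/
private def PN (A : Dat G V S) (c : ℕ) (s : S) (v u : V) : Prop :=
  ∃ r ∈ A.D v, A.cr s r ∧ A.col r ≠ c ∧ u = A.nb r v

private theorem pn_par {c : ℕ} {s : S} {v u : V} (h : Relation.ReflTransGen (PN A c s) v u) :
    A.Par s v u := by
  induction h with
  | refl => exact Relation.ReflTransGen.refl
  | tail _ h ih =>
    obtain ⟨r, hr, hc, _, rfl⟩ := h
    exact ih.tail ⟨r, hr, hc, rfl⟩

private theorem par_pn (hA : Stg A Hs) {c : ℕ} {s : S} (hc : A.col s = c) {v u : V}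
    (h : A.Par s v u) : Relation.ReflTransGen (PN A c s) v u := by
  induction h with
  | refl => exact Relation.ReflTransGen.refl
  | tail _ h ih =>
    obtain ⟨r, hr, hcr, rfl⟩ := h
    refine ih.tail ⟨r, hr, hcr, fun h1 => ?_, rfl⟩
    exact hA.cr_col s r hcr (hc.trans h1.symm)

/-- Moves inside the region do not change the word. -/
private theorem lift_pn (hA : Stg A Hs) {c : ℕ} {b : V} {s : S} (w : FW (A.Lt Hs c b)) {v u : V}
    (h : Relation.ReflTransGen (PN A c s) v u) (hv : A.Rg c b v) :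
    ∃ hu : A.Rg c b u, (hA.mir c b).Par s ((w, ⟨v, hv⟩) : A.Vm Hs c b) (w, ⟨u, hu⟩) := by
  induction h with
  | refl => exact ⟨hv, Relation.ReflTransGen.refl⟩
  | tail _ h ih =>
    obtain ⟨r, hr, hcr, hc, rfl⟩ := h
    obtain ⟨hu, h2⟩ := ih
    refine ⟨hu.tail ⟨r, hr, hc, rfl⟩, h2.tail ⟨r, hr, hcr, ?_⟩⟩
    exact (Dat.nbm_ne (A := A) (Hs := Hs) (x := (w, ⟨_, hu⟩)) hr hc).symm

private theorem nbm_mul {c : ℕ} {b : V} (w : FW (A.Lt Hs c b)) (r : S) (v : A.Vm Hs c b) :
    A.nbm Hs r ((w * v.1, v.2) : A.Vm Hs c b) = (w * (A.nbm Hs r v).1, (A.nbm Hs r v).2) := by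
  by_cases h : r ∈ A.D v.2.1
  · by_cases hc : A.col r = c
    · rw [Dat.nbm_eq h hc, Dat.nbm_eq (x := ((w * v.1, v.2) : A.Vm Hs c b)) h hc]
      exact Prod.ext (mul_assoc _ _ _) rfl
    · rw [Dat.nbm_ne h hc, Dat.nbm_ne (x := ((w * v.1, v.2) : A.Vm Hs c b)) h hc]
  · rw [Dat.nbm_not h, Dat.nbm_not (x := ((w * v.1, v.2) : A.Vm Hs c b)) h]

/-- `Par` of the mirrored stage is invariant under the left multiplication by words. -/
private theorem par_mul (hA : Stg A Hs) {c : ℕ} {b : V} (w : FW (A.Lt Hs c b)) {s : S}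
    {v u : A.Vm Hs c b} (h : (hA.mir c b).Par s v u) :
    (hA.mir c b).Par s ((w * v.1, v.2) : A.Vm Hs c b) (w * u.1, u.2) := by
  induction h with
  | refl => exact Relation.ReflTransGen.refl
  | @tail x y _ h ih =>
    obtain ⟨r, hr, hcr, rfl⟩ := h
    exact ih.tail ⟨r, hr, hcr, (nbm_mul w r x).symm⟩

/-- The first step which leaves `k`. -/
private theorem exit {q : S} {k : Set V} {z₁ z₂ : V} (h : A.Par q z₁ z₂) (h1 : z₁ ∈ k)
    (h2 : z₂ ∉ k) : ∃ z r, A.Par q z₁ z ∧ z ∈ k ∧ r ∈ A.D z ∧ A.cr q r ∧ A.nb r z ∉ k := by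
  induction h with
  | refl => exact absurd h1 h2
  | @tail x y hx h ih =>
    by_cases hk : x ∈ k
    · obtain ⟨r, hr, hcr, rfl⟩ := h
      exact ⟨x, r, hx, hk, hr, hcr, h2⟩
    · exact ih hk

/-- The claim of case 3. -/
private theorem claim (hA : Stg A Hs) {c : ℕ} {b : V} {s : S} {v₀ : V} (h0 : A.Rg c b v₀)
    (hs : s ∈ A.D v₀) (w : FW (A.Lt Hs c b))
    (hw : ∀ a ∈ w.l, A.Xs Hs (Hs v₀ s) a) : ∀ (y : V) (hy : A.Rg c b y),
      Relation.ReflTransGen (PN A c s) v₀ y →
      (hA.mir c b).Par s ((1, ⟨v₀, h0⟩) : A.Vm Hs c b) (w, ⟨y, hy⟩) := by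
  induction w using FW.induction with
  | one =>
    intro y hy hp
    obtain ⟨_, h1⟩ := lift_pn hA (1 : FW (A.Lt Hs c b)) hp h0
    exact h1
  | mul w a hred ih =>
    intro y hy hp
    have hl : (w * FW.of a).l = a :: w.l := by
      show rmL a w.l = a :: w.l
      match h : w.l with
      | [] => rfl
      | b' :: l => exact rmL_ne (hred b' l h) l
    have hw' : ∀ a' ∈ w.l, A.Xs Hs (Hs v₀ s) a' := fun a' ha' =>
      hw a' (by rw [hl]; exact List.mem_cons_of_mem _ ha')
    have ha : A.Xs Hs (Hs v₀ s) a := hw a (by rw [hl]; exact List.mem_cons_self)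
    obtain ⟨⟨z₁, ⟨hz₁, q, hq, hqc, hqa⟩, hk₁⟩, z₂, ⟨hz₂, q', hq', hqc', hqa'⟩, hk₂⟩ := ha
    obtain ⟨rfl, hpar⟩ := hA.eq_of_Hs hq hq' (hqa.trans hqa'.symm)
    obtain ⟨z, r, hz, hkz, hr, hcr, hnk⟩ := exit hpar hk₁ hk₂
    obtain ⟨rfl, hor⟩ := hA.crs v₀ s hs z r hr fun h => hnk (h.2 hkz)
    have hv0z : A.Par r v₀ z := by
      refine hor.resolve_right fun h5 => ?_
      have h6 := hA.par_Hs (hA.nb_mem v₀ r hs) h5
      rw [hA.opp v₀ r hs] at h6
      have h7 := hA.mem z r hr
      rw [h6] at h7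
      exact h7 hkz
    have hqz : q' ∈ A.D z := hA.par_mem hq hz
    have hHz : Hs z q' = a.1 := (hA.par_Hs hq hz).trans hqa
    have hzr : A.Rg c b z := hz₁.trans (hA.par_rg hqc hz)
    have hrg : A.Rg c v₀ z := (hA.rg_symm h0).trans hzr
    have hpn := hA.par_in hs hv0z hrg
    have h1 := ih hw' z hzr hpn
    have h2 : (hA.mir c b).Par r ((1, ⟨v₀, h0⟩) : A.Vm Hs c b) (w * FW.of a, ⟨z, hzr⟩) := by
      refine h1.tail ⟨q', hqz, hA.cr_symm _ _ hcr, ?_⟩
      refine Eq.trans ?_ (Dat.nbm_eq (A := A) (Hs := Hs) (x := (w, ⟨z, hzr⟩)) hqz hqc).symm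
      have : A.lt Hs (⟨z, hzr⟩ : A.Rn c b) q' hqz hqc = a := Subtype.ext hHz
      rw [this]
    have hzy : A.Par r z y := (hA.par_symm hs hv0z).trans (pn_par hp)
    have hpn2 := hA.par_in hr hzy ((hA.rg_symm hzr).trans hy)
    obtain ⟨_, h3⟩ := lift_pn hA (w * FW.of a) hpn2 hzr
    exact h2.trans h3

/-- The case of the base point `(1, y₀)`. -/
private theorem core (hA : Stg A Hs) (c : ℕ) (b : V) (x : A.Rn c b) (s : S)
    (hs : s ∈ A.D x.1) (u : A.Vm Hs c b) (t : S) (ht : t ∈ A.D u.2.1)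
    (h : ¬ (A.nbm Hs t u ∈ A.Hm1 Hs x s ↔ u ∈ A.Hm1 Hs x s)) :
    t = s ∧ ((hA.mir c b).Par s ((1, x) : A.Vm Hs c b) u ∨
      (hA.mir c b).Par s (A.nbm Hs s ((1, x) : A.Vm Hs c b)) u) := by
  by_cases hsc : A.col s = c
  · -- case 1
    have e1 : ∀ v : A.Vm Hs c b, v ∈ A.Hm1 Hs x s ↔ ∀ a ∈ v.1.l.getLast?, a.1 ≠ Hs x.1 s := by
      intro v
      constructor
      · intro hv
        exact hv.1 hsc
      · intro hv
        exact ⟨fun _ => hv, fun hne => absurd hsc hne⟩
    rw [e1, e1] at h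
    by_cases htc : A.col t = c
    · rw [Dat.nbm_eq ht htc] at h
      change ¬ ((∀ a ∈ (rmL (A.lt Hs u.2 t ht htc) u.1.l).getLast?, a.1 ≠ Hs x.1 s) ↔ _) at h
      have fin : Hs u.2.1 t = Hs x.1 s → (u.1.l = [] ∨ u.1.l = [A.lt Hs u.2 t ht htc]) →
          t = s ∧ ((hA.mir c b).Par s ((1, x) : A.Vm Hs c b) u ∨
            (hA.mir c b).Par s (A.nbm Hs s ((1, x) : A.Vm Hs c b)) u) := by
        intro he hor
        obtain ⟨rfl, hp⟩ := hA.eq_of_Hs hs ht he.symm
        refine ⟨rfl, ?_⟩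
        rcases hor with hn | hn
        · left
          obtain ⟨_, h1⟩ := lift_pn hA (1 : FW (A.Lt Hs c b)) (par_pn hA hsc hp) x.2
          have h2 : u = ((1, ⟨u.2.1, u.2.2⟩) : A.Vm Hs c b) := Prod.ext (FW.ext hn) rfl
          rw [h2]
          exact h1
        · right
          obtain ⟨_, h1⟩ := lift_pn hA (FW.of (A.lt Hs x t hs hsc)) (par_pn hA hsc hp) x.2
          rw [Dat.nbm_eq (x := ((1, x) : A.Vm Hs c b)) hs hsc]
          have h3 : A.lt Hs x t hs hsc = A.lt Hs u.2 t ht htc := Subtype.ext he.symm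
          have h2 : u = ((FW.of (A.lt Hs x t hs hsc), ⟨u.2.1, u.2.2⟩) : A.Vm Hs c b) := by
            refine Prod.ext (FW.ext ?_) rfl
            rw [h3]
            exact hn
          rw [h2]
          have h4 : (1 : FW (A.Lt Hs c b)) * FW.of (A.lt Hs x t hs hsc) =
            FW.of (A.lt Hs x t hs hsc) := one_mul _
          show (hA.mir c b).Par t ((1 * FW.of (A.lt Hs x t hs hsc), x) : A.Vm Hs c b) _
          rw [h4]
          exact h1
      set a' := A.lt Hs u.2 t ht htc with ha'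
      have hval : a'.1 = Hs u.2.1 t := rfl
      match hl : u.1.l with
      | [] =>
        rw [hl] at h
        refine fin ?_ (Or.inl hl)
        by_contra hne
        apply h
        constructor
        · intro _ a ha
          simp at ha
        · intro _ a ha
          rw [rmL_nil] at ha
          simp at ha
          rw [← ha, hval]
          exact hne
      | [z] =>
        rw [hl] at h
        by_cases hz : a' = z
        · subst hz
          refine fin ?_ (Or.inr hl)
          by_contra hne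
          apply h
          constructor
          · intro _ a ha
            simp at ha
            rw [← ha, hval]
            exact hne
          · intro _ a ha
            rw [rmL_self] at ha
            simp at ha
        · exfalso
          apply h
          rw [rmL_ne hz]
          simp
      | z :: z' :: l' =>
        rw [hl] at h
        exfalso
        apply h
        by_cases hz : a' = z
        · subst hz
          rw [rmL_self, List.getLast?_cons_cons]
        · rw [rmL_ne hz, List.getLast?_cons_cons]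
    · exfalso
      rw [Dat.nbm_ne ht htc] at h
      exact h Iff.rfl
  · have e1 : ∀ v : A.Vm Hs c b, v ∈ A.Hm1 Hs x s ↔
        A.SdL Hs (Hs x.1 s) v.1.l (v.2.1 ∈ Hs x.1 s) := by
      intro v
      constructor
      · intro hv
        exact hv.2 hsc
      · intro hv
        exact ⟨fun he => absurd he hsc, fun _ => hv⟩
    rw [e1, e1] at h
    by_cases htc : A.col t = c
    · -- case 2
      exfalso
      rw [Dat.nbm_eq ht htc] at h
      change ¬ (A.SdL Hs (Hs x.1 s) (rmL (A.lt Hs u.2 t ht htc) u.1.l) (u.2.1 ∈ Hs x.1 s) ↔ _) at h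
      apply h
      apply SdL_rmL
      by_cases hX : A.Xs Hs (Hs x.1 s) (A.lt Hs u.2 t ht htc)
      · exact Or.inl hX
      · exact Or.inr (mem_Ik _ _ hX ⟨u.2.2, t, ht, htc, rfl⟩)
    · -- case 3
      rw [Dat.nbm_ne ht htc] at h
      change ¬ (A.SdL Hs (Hs x.1 s) u.1.l (A.nb t u.2.1 ∈ Hs x.1 s) ↔ _) at h
      have hall : ∀ a ∈ u.1.l, A.Xs Hs (Hs x.1 s) a := by
        by_contra hcon
        push Not at hcon
        exact h (SdL_not _ _ hcon _ _)
      rw [SdL_all _ _ hall, SdL_all _ _ hall] at h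
      obtain ⟨rfl, hor⟩ := hA.crs x.1 s hs u.2.1 t ht h
      refine ⟨rfl, ?_⟩
      rcases hor with hp | hp
      · left
        have hpn := hA.par_in hs hp ((hA.rg_symm x.2).trans u.2.2)
        exact claim hA x.2 hs u.1 hall u.2.1 u.2.2 hpn
      · right
        rw [Dat.nbm_ne (x := ((1, x) : A.Vm Hs c b)) hs hsc]
        have hr : A.Rg c b (A.nb t x.1) := x.2.tail ⟨t, hs, hsc, rfl⟩
        have hs' := hA.nb_mem x.1 t hs
        have hpn := hA.par_in hs' hp ((hA.rg_symm hr).trans u.2.2)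
        refine claim hA hr hs' u.1 ?_ u.2.1 u.2.2 hpn
        intro a ha
        rw [hA.opp x.1 t hs]
        exact (Xs_compl _ _).2 (hall a ha)

theorem Stg.mir_crs (hA : Stg A Hs) (c : ℕ) (b : V) (x : A.Vm Hs c b) (s : S)
    (hs : s ∈ (hA.mir c b).D x) (u : A.Vm Hs c b) (t : S) (ht : t ∈ (hA.mir c b).D u)
    (h : ¬ ((hA.mir c b).nb t u ∈ A.Hm Hs c b x s ↔ u ∈ A.Hm Hs c b x s)) :
    t = s ∧ ((hA.mir c b).Par s x u ∨ (hA.mir c b).Par s ((hA.mir c b).nb s x) u) := by
  have e1 : A.nbm Hs t ((x.1⁻¹ * u.1, u.2) : A.Vm Hs c b) =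
      (x.1⁻¹ * (A.nbm Hs t u).1, (A.nbm Hs t u).2) := nbm_mul _ _ _
  have h1 : ¬ (A.nbm Hs t ((x.1⁻¹ * u.1, u.2) : A.Vm Hs c b) ∈ A.Hm1 Hs x.2 s ↔
      ((x.1⁻¹ * u.1, u.2) : A.Vm Hs c b) ∈ A.Hm1 Hs x.2 s) := by
    rw [e1]
    exact h
  obtain ⟨h2, h3⟩ := core hA c b x.2 s hs (x.1⁻¹ * u.1, u.2) t ht h1
  refine ⟨h2, ?_⟩
  have e2 : ((x.1 * (x.1⁻¹ * u.1), u.2) : A.Vm Hs c b) = u :=
    Prod.ext (mul_inv_cancel_left _ _) rfl
  have e3 : ((x.1 * 1, x.2) : A.Vm Hs c b) = x := Prod.ext (mul_one _) rfl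
  rcases h3 with h3 | h3
  · left
    have h4 := par_mul hA x.1 h3
    change (hA.mir c b).Par s ((x.1 * 1, x.2) : A.Vm Hs c b) (x.1 * (x.1⁻¹ * u.1), u.2) at h4
    rwa [e2, e3] at h4
  · right
    have h4 := par_mul hA x.1 h3
    rw [← nbm_mul] at h4
    change (hA.mir c b).Par s (A.nbm Hs s ((x.1 * 1, x.2) : A.Vm Hs c b))
      (x.1 * (x.1⁻¹ * u.1), u.2) at h4
    rwa [e2, e3] at h4

end SingerLG
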