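import Mathlib
import Pool.Agent.Lib_MP_394d50_lg.MDefs
import Pool.Agent.Lib_MP_394d50_lg.SBas

/-!
# Piece M1: the mirrored stage, the axioms without half-spaces

`x : A.Vm Hs c b` is a pair (word, vertex of the region). Use `Dat.nbm_eq` (colour `c`), `Dat.nbm_ne` (other colours).
`mir_nb_nb`: colour `c`: `w * of a * of a = w` (`FW.of_mul_of`), with the same letter `a` (the second component does not
change).
`mir_comm`: `cr s t` implies different colours (`cr_col`), so at most one of them is `c`. If `col s = c`: the letters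
of `(x, s)` and `(nb t x, s)` are equal since `Hs (nb t x) s = Hs x s` (`par`).
`mir_conn`: it suffices to join `(1, b)` with every `(w, x)` and to reverse steps (`nb_mem`, `nb_nb`). Induction over the
word (`FW.induction`): from `(w, y)` one can reach `(w, z)` for all `z` in the region (a path in the region, `Rg`), in
particular a `z` adjacent to the wall `a` (`a.2`), and then `(w * of a, z)`.
`mir_free`: `(g, x)`: the second component gives `g.right • x = x`, so `g.right = 1` (`hA.free`), then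
`g.left * x.1 = x.1` gives `g.left = 1`.
`mir_fin`: the map `Orb (Gm) (Vm) → Orb G V`, `[(w, x)] ↦ [x]`, is injective: if `x' = g • x` in `V` with `x, x'` in the
region then `g` is in `Gr` (`Rg b x' = g x`, and `Rg (g b) (g x)`, so `Rg b (g b)` with `rg_symm`), and
`(w', x') = ⟨w' * (FW.aut g w)⁻¹, g⟩ • (w, x)`.
`mir_orbit`: the same computation: two vertices of the mirrored stage whose second components are in the same
`G`-orbit are in the same orbit.
-/

namespace SingerLG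

open SingerVS SingerCub

variable {G V S : Type} [Group G] [MulAction G V] [MulAction G S] {A : Dat G V S}
  {Hs : V → S → Set V}

theorem Stg.mir_nb_mem (hA : Stg A Hs) (c : ℕ) (b : V) (x : A.Vm Hs c b) (s : S)
    (hs : s ∈ (hA.mir c b).D x) : s ∈ (hA.mir c b).D ((hA.mir c b).nb s x) := by
  have h : s ∈ A.D x.2.1 := hs
  show s ∈ A.D (A.nbm Hs s x).2.1
  by_cases hc : A.col s = c
  · rw [Dat.nbm_eq h hc]
    exact h
  · rw [Dat.nbm_ne h hc]
    exact hA.nb_mem _ s h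

theorem Stg.mir_nb_nb (hA : Stg A Hs) (c : ℕ) (b : V) (x : A.Vm Hs c b) (s : S)
    (hs : s ∈ (hA.mir c b).D x) : (hA.mir c b).nb s ((hA.mir c b).nb s x) = x := by
  have h : s ∈ A.D x.2.1 := hs
  show A.nbm Hs s (A.nbm Hs s x) = x
  by_cases hc : A.col s = c
  · have h1 : A.nbm Hs s x = (x.1 * FW.of (A.lt Hs x.2 s h hc), x.2) := Dat.nbm_eq h hc
    rw [h1, Dat.nbm_eq (x := (x.1 * FW.of (A.lt Hs x.2 s h hc), x.2)) h hc]
    refine Prod.ext ?_ rfl
    show x.1 * FW.of (A.lt Hs x.2 s h hc) * FW.of (A.lt Hs x.2 s h hc) = x.1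
    rw [mul_assoc, FW.of_mul_of, mul_one]
  · have h1 : A.nbm Hs s x = (x.1, ⟨A.nb s x.2.1, x.2.2.tail ⟨s, h, hc, rfl⟩⟩) := Dat.nbm_ne h hc
    rw [h1, Dat.nbm_ne (x := (x.1, ⟨A.nb s x.2.1, x.2.2.tail ⟨s, h, hc, rfl⟩⟩))
      (hA.nb_mem _ s h) hc]
    exact Prod.ext rfl (Subtype.ext (hA.nb_nb _ s h))

theorem Stg.mir_nb_D (hA : Stg A Hs) (c : ℕ) (b : V) (x : A.Vm Hs c b) (s : S)
    (hs : s ∈ (hA.mir c b).D x) (t : S) (ht : t ∈ (hA.mir c b).D x) (h : A.cr s t) :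
    t ∈ (hA.mir c b).D ((hA.mir c b).nb s x) := by
  have h1 : s ∈ A.D x.2.1 := hs
  have h2 : t ∈ A.D x.2.1 := ht
  show t ∈ A.D (A.nbm Hs s x).2.1
  by_cases hc : A.col s = c
  · rw [Dat.nbm_eq h1 hc]
    exact h2
  · rw [Dat.nbm_ne h1 hc]
    exact hA.nb_D _ s h1 t h2 h

/-- `mir_comm` when `s` has the colour `c`. -/
private theorem MEasy_comm (hA : Stg A Hs) (c : ℕ) (b : V) (x : A.Vm Hs c b) (s : S)
    (hs : s ∈ A.D x.2.1) (t : S) (ht : t ∈ A.D x.2.1) (h : A.cr s t) (hc : A.col s = c)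
    (hc' : A.col t ≠ c) :
    A.nbm Hs s (A.nbm Hs t x) = A.nbm Hs t (A.nbm Hs s x) := by
  have h1 : A.nbm Hs s x = (x.1 * FW.of (A.lt Hs x.2 s hs hc), x.2) := Dat.nbm_eq hs hc
  have h2 : A.nbm Hs t x = (x.1, ⟨A.nb t x.2.1, x.2.2.tail ⟨t, ht, hc', rfl⟩⟩) :=
    Dat.nbm_ne ht hc'
  have h3 : s ∈ A.D (A.nb t x.2.1) := hA.nb_D _ t ht s hs (hA.cr_symm _ _ h)
  rw [h1, h2, Dat.nbm_eq (x := (x.1, ⟨A.nb t x.2.1, x.2.2.tail ⟨t, ht, hc', rfl⟩⟩)) h3 hc,
    Dat.nbm_ne (x := (x.1 * FW.of (A.lt Hs x.2 s hs hc), x.2)) ht hc']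
  refine Prod.ext ?_ rfl
  show x.1 * FW.of _ = x.1 * FW.of _
  congr 2
  exact Subtype.ext (hA.par _ s hs t ht h)

theorem Stg.mir_comm (hA : Stg A Hs) (c : ℕ) (b : V) (x : A.Vm Hs c b) (s : S)
    (hs : s ∈ (hA.mir c b).D x) (t : S) (ht : t ∈ (hA.mir c b).D x) (h : A.cr s t) :
    (hA.mir c b).nb s ((hA.mir c b).nb t x) = (hA.mir c b).nb t ((hA.mir c b).nb s x) := by
  have h1 : s ∈ A.D x.2.1 := hs
  have h2 : t ∈ A.D x.2.1 := ht
  show A.nbm Hs s (A.nbm Hs t x) = A.nbm Hs t (A.nbm Hs s x)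
  have hne := hA.cr_col _ _ h
  by_cases hc : A.col s = c
  · exact MEasy_comm hA c b x s h1 t h2 h hc fun e => hne (hc.trans e.symm)
  · by_cases hc' : A.col t = c
    · exact (MEasy_comm hA c b x t h2 s h1 (hA.cr_symm _ _ h) hc' hc).symm
    · have h3 : A.nbm Hs s x = (x.1, ⟨A.nb s x.2.1, x.2.2.tail ⟨s, h1, hc, rfl⟩⟩) :=
        Dat.nbm_ne h1 hc
      have h4 : A.nbm Hs t x = (x.1, ⟨A.nb t x.2.1, x.2.2.tail ⟨t, h2, hc', rfl⟩⟩) :=
        Dat.nbm_ne h2 hc'
      rw [h3, h4, Dat.nbm_ne (x := (x.1, ⟨A.nb t x.2.1, x.2.2.tail ⟨t, h2, hc', rfl⟩⟩))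
        (hA.nb_D _ t h2 s h1 (hA.cr_symm _ _ h)) hc,
        Dat.nbm_ne (x := (x.1, ⟨A.nb s x.2.1, x.2.2.tail ⟨s, h1, hc, rfl⟩⟩))
        (hA.nb_D _ s h1 t h2 h) hc']
      exact Prod.ext rfl (Subtype.ext (hA.comm _ s h1 t h2 h))

/-- paths inside the region -/
private theorem MEasy_reg (hA : Stg A Hs) (c : ℕ) (b : V) (w : FW (A.Lt Hs c b)) (y : A.Rn c b)
    {z : V} (h : A.Rg c y.1 z) (hz : A.Rg c b z) :
    Relation.ReflTransGen (hA.mir c b).Step (w, y) (w, ⟨z, hz⟩) := by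
  induction h with
  | refl => exact Relation.ReflTransGen.refl
  | @tail u v hu hv ih =>
    have hu' : A.Rg c b u := y.2.trans hu
    refine (ih hu').tail ?_
    obtain ⟨s, hs, hc, rfl⟩ := hv
    refine ⟨s, hs, ?_⟩
    exact (Dat.nbm_ne (x := (w, ⟨u, hu'⟩)) hs hc).symm

private theorem MEasy_from (hA : Stg A Hs) (c : ℕ) (b : V) (w : FW (A.Lt Hs c b)) :
    ∀ y : A.Rn c b, Relation.ReflTransGen (hA.mir c b).Step
      (1, ⟨b, Relation.ReflTransGen.refl⟩) (w, y) := by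
  induction w using FW.induction with
  | one =>
    intro y
    exact MEasy_reg hA c b 1 ⟨b, Relation.ReflTransGen.refl⟩ y.2 y.2
  | mul w a _ ih =>
    intro y
    obtain ⟨v, hv, s, hs, hc, hsv⟩ := a.2
    have h1 := ih ⟨v, hv⟩
    have h2 : Relation.ReflTransGen (hA.mir c b).Step (w, (⟨v, hv⟩ : A.Rn c b))
        (w * FW.of a, ⟨v, hv⟩) := by
      refine Relation.ReflTransGen.single ⟨s, hs, ?_⟩
      refine Eq.trans ?_ (Dat.nbm_eq (x := (w, ⟨v, hv⟩)) hs hc).symm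
      refine Prod.ext ?_ rfl
      show w * FW.of a = w * FW.of _
      congr 2
      exact Subtype.ext hsv.symm
    exact (h1.trans h2).trans (MEasy_reg hA c b (w * FW.of a) ⟨v, hv⟩ ((hA.rg_symm hv).trans y.2) y.2)

theorem Stg.mir_conn (hA : Stg A Hs) (c : ℕ) (b : V) (x y : A.Vm Hs c b) :
    Relation.ReflTransGen (hA.mir c b).Step x y := by
  have hsymm : ∀ u v : A.Vm Hs c b, Relation.ReflTransGen (hA.mir c b).Step u v →
      Relation.ReflTransGen (hA.mir c b).Step v u := by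
    intro u v h
    induction h with
    | refl => exact Relation.ReflTransGen.refl
    | @tail p q _ h ih =>
      obtain ⟨s, hs, rfl⟩ := h
      exact Relation.ReflTransGen.head ⟨s, hA.mir_nb_mem c b _ s hs,
        (hA.mir_nb_nb c b _ s hs).symm⟩ ih
  exact (hsymm _ _ (MEasy_from hA c b x.1 x.2)).trans (MEasy_from hA c b y.1 y.2)

theorem Stg.mir_free (hA : Stg A Hs) (c : ℕ) (b : V) (g : hA.Gm c b) (x : A.Vm Hs c b)
    (h : g • x = x) : g = 1 := by
  have h1 : g.right • x.2 = x.2 := congrArg Prod.snd h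
  have h2 : g.left * FW.aut g.right x.1 = x.1 := congrArg Prod.fst h
  have h3 : (g.right : G) • x.2.1 = x.2.1 := congrArg Subtype.val h1
  have h4 : g.right = 1 := Subtype.ext (hA.free _ _ h3)
  rw [h4, map_one] at h2
  have h5 : g.left * x.1 = x.1 := h2
  have h6 : g.left = 1 := mul_eq_right.mp h5
  exact SemidirectProduct.ext h6 h4

theorem Stg.mir_orbit (hA : Stg A Hs) (c : ℕ) (b : V) (x y : A.Vm Hs c b) (g : G)
    (h : y.2.1 = g • x.2.1) : ∃ g' : hA.Gm c b, y = g' • x := by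
  have hg : A.Rg c b (g • b) := by
    have h1 : A.Rg c b (g • x.2.1) := h ▸ y.2.2
    exact h1.trans (hA.rg_symm (Dat.Rg.smul x.2.2 g))
  let g0 : hA.Gr c b := ⟨g, hg⟩
  refine ⟨⟨y.1 * (FW.aut g0 x.1)⁻¹, g0⟩, Prod.ext ?_ (Subtype.ext h)⟩
  show y.1 = y.1 * (FW.aut g0 x.1)⁻¹ * FW.aut g0 x.1
  rw [inv_mul_cancel_right]

theorem Stg.mir_fin (hA : Stg A Hs) (c : ℕ) (b : V) : Finite (Orb (hA.Gm c b) (A.Vm Hs c b)) := by
  have := hA.fin
  let f : Orb (hA.Gm c b) (A.Vm Hs c b) → Orb G V :=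
    Quotient.lift (fun x : A.Vm Hs c b => (Quotient.mk'' x.2.1 : Orb G V)) (by
      intro x y hxy
      obtain ⟨g, hg⟩ := hxy
      refine Quotient.sound ?_
      refine ⟨(g.right : G), ?_⟩
      have h1 : g • y = x := hg
      rw [← h1]
      rfl)
  refine Finite.of_injective f ?_
  intro p q
  induction p using Quotient.inductionOn with
  | h x =>
  induction q using Quotient.inductionOn with
  | h y =>
  intro hpq
  have h1 : (Quotient.mk'' x.2.1 : Orb G V) = Quotient.mk'' y.2.1 := hpq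
  obtain ⟨g, hg⟩ := Quotient.exact h1
  have h2 : g • y.2.1 = x.2.1 := hg
  obtain ⟨g', hg'⟩ := hA.mir_orbit c b y x g h2.symm
  exact Quotient.sound ⟨g', hg'.symm⟩

end SingerLG
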