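import Mathlib
import Pool.Agent.Lib_MP_394d50_lg.MHs

/-!
# Piece M5: the mirrored stage, the axiom `sqr`

`s ≠ t` directions at `x`, not `cr s t`. By the definition of `Hm` we have to show for a pair `(w, y)` (`w` a word, `y` in the
region) and `x₀ = x.2`: `(w, y) ∈ Hm1 x₀ s` or `(w, y) ∈ Hm1 x₀ t`. Suppose neither.

1. `col s = c`, `col t = c`: `w` begins with `a`, `a.1 = Hs x₀ s`, and with `a'`, `a'.1 = Hs x₀ t`; so `Hs x₀ s = Hs x₀ t` and `s = t`
   (`eq_of_Hs`): contradiction.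
2. `col s = c`, `col t ≠ c` (and the symmetric case): `w.l = l ++ [a]`, `a.1 = Hs x₀ s`; `k = Hs x₀ t`. If `a` does not cross `k`:
   `SdL k w.l _ ↔ Ik k a` (`SdL_append`), and `Ik k a` holds since `x₀` is adjacent to `a` and `x₀ ∈ k` (`mem`): contradiction.
   If `a` crosses `k`: there is `z ∉ k` adjacent to `a`, with a label `q`, `col q = c`, `Hs z q = a = Hs x₀ s`, so `q = s`; `z' = nb s z`
   is not in `Hs x₀ s` (`opp`, `mem`), and `z' ∉ k` by `side_nb` (`s ≠ t`): contradiction to `sqr` at `x₀` (for `s`, `t`, `z'`).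
3. `col s ≠ c`, `col t ≠ c`: `k₁ = Hs x₀ s`, `k₂ = Hs x₀ t`, `k₁ ∪ k₂ = V` by `sqr`. If all letters of `w` cross `k₁` and `k₂`
   (`SdL_all`): `y ∉ k₁`, `y ∉ k₂`, contradiction. Otherwise take the first letter `a` (the last entry of the list) which does not cross
   both: `w.l = l ++ a :: l'`, all letters of `l'` cross both, and say `a` does not cross `k₁` (the other case is symmetric):
   `SdL k₁ w.l _ ↔ Ik k₁ a` (`SdL_first`), so no vertex adjacent to `a` is in `k₁`. If `a` crosses `k₂` there is a vertex adjacent to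
   `a` outside `k₂`, contradiction to `sqr`. If `a` does not cross `k₂` then in the same way no vertex adjacent to `a` is in `k₂`;
   there is a vertex adjacent to `a`: contradiction.
-/

namespace SingerLG

open SingerVS SingerCub
open scoped Pointwise

variable {G V S : Type} [Group G] [MulAction G V] [MulAction G S] {A : Dat G V S}
  {Hs : V → S → Set V}

private theorem MSqr_mem {c : ℕ} {b : V} {x u : A.Vm Hs c b} {s : S} :
    u ∈ A.Hm Hs c b x s ↔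
      (A.col s = c → ∀ a ∈ (x.1⁻¹ * u.1).l.getLast?, a.1 ≠ Hs x.2.1 s) ∧
      (A.col s ≠ c → A.SdL Hs (Hs x.2.1 s) (x.1⁻¹ * u.1).l (u.2.1 ∈ Hs x.2.1 s)) := Iff.rfl

private theorem MSqr_mem_eq {c : ℕ} {b : V} {x u : A.Vm Hs c b} {s : S} (hc : A.col s = c) :
    u ∈ A.Hm Hs c b x s ↔ ∀ a ∈ (x.1⁻¹ * u.1).l.getLast?, a.1 ≠ Hs x.2.1 s :=
  MSqr_mem.trans ⟨fun h => h.1 hc, fun h => ⟨fun _ => h, fun h' => absurd hc h'⟩⟩

private theorem MSqr_mem_ne {c : ℕ} {b : V} {x u : A.Vm Hs c b} {s : S} (hc : A.col s ≠ c) :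
    u ∈ A.Hm Hs c b x s ↔
      A.SdL Hs (Hs x.2.1 s) (x.1⁻¹ * u.1).l (u.2.1 ∈ Hs x.2.1 s) :=
  MSqr_mem.trans ⟨fun h => h.2 hc, fun h => ⟨fun h' => absurd h' hc, fun _ => h⟩⟩

/-- The first letter of the word is the wall of `s`: it does not cross `Hs x t`. -/
private theorem MSqr_not_Xs (hA : Stg A Hs) {c : ℕ} {b : V} (x : V) {s t : S}
    (hs : s ∈ A.D x) (ht : t ∈ A.D x) (hst : s ≠ t) (h : ¬ A.cr s t)
    (a : A.Lt Hs c b) (ha : a.1 = Hs x s) : ¬ A.Xs Hs (Hs x t) a := by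
  rintro ⟨-, ⟨z, ⟨-, q, hq, -, hqa⟩, hz⟩⟩
  obtain ⟨rfl, -⟩ := hA.eq_of_Hs hs hq (ha.symm.trans hqa.symm)
  have h1 : A.nb q z ∉ Hs x q := by
    rw [← ha, ← hqa]
    exact hA.nb_not_mem hq
  have h2 : A.nb q z ∉ Hs x t := fun h3 => hz ((hA.side_nb ht hq hst).mp h3)
  rcases hA.sqr x q hs t ht hst h (A.nb q z) with h3 | h3
  · exact h1 h3
  · exact h2 h3

/-- One of the walls has the colour `c`. -/
private theorem MSqr_one (hA : Stg A Hs) {c : ℕ} {b : V} {x u : A.Vm Hs c b} {s t : S}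
    (hs : s ∈ A.D x.2.1) (ht : t ∈ A.D x.2.1) (hst : s ≠ t) (h : ¬ A.cr s t)
    (hsc : A.col s = c) (htc : A.col t ≠ c) :
    u ∈ A.Hm Hs c b x s ∨ u ∈ A.Hm Hs c b x t := by
  rw [MSqr_mem_eq hsc, MSqr_mem_ne htc]
  by_contra hn
  rw [not_or] at hn
  obtain ⟨h1, h2⟩ := hn
  apply h1
  intro a ha hae
  apply h2
  have h3 : (x.1⁻¹ * u.1).l.dropLast ++ [a] = (x.1⁻¹ * u.1).l :=
    List.dropLast_append_getLast? a ha
  have h4 : ¬ A.Xs Hs (Hs x.2.1 t) a := MSqr_not_Xs hA x.2.1 hs ht hst h a hae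
  rw [← h3, SdL_append]
  exact ⟨fun h5 => absurd h5 h4,
    fun _ => ⟨x.2.1, ⟨x.2.2, s, hs, hsc, hae.symm⟩, hA.mem x.2.1 t ht⟩⟩

/-- Two half-spaces which cover everything. -/
private theorem MSqr_cover {c : ℕ} {b : V} {k k' : Set V} (hk : ∀ z, z ∈ k ∨ z ∈ k')
    (l : List (A.Lt Hs c b)) (o o' : Prop) (ho : o ∨ o') :
    A.SdL Hs k l o ∨ A.SdL Hs k' l o' := by
  induction l generalizing o o' with
  | nil => exact ho
  | cons a l ih =>
    refine ih _ _ ?_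
    obtain ⟨z, hz⟩ := a.2
    by_cases h1 : A.Xs Hs k a
    · by_cases h2 : A.Xs Hs k' a
      · rcases ho with ho | ho
        · exact Or.inl ⟨fun _ => ho, fun h3 => absurd h1 h3⟩
        · exact Or.inr ⟨fun _ => ho, fun h3 => absurd h2 h3⟩
      · obtain ⟨-, v, hv, hv'⟩ := h1
        exact Or.inr ⟨fun h3 => absurd h3 h2, fun _ => ⟨v, hv, (hk v).resolve_left hv'⟩⟩
    · by_cases h3 : A.Ik Hs k a
      · exact Or.inl ⟨fun h4 => absurd h4 h1, fun _ => h3⟩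
      · have h4 : ∀ v, A.Adj Hs c b a.1 v → v ∈ k' := fun v hv =>
          (hk v).resolve_left fun h5 => h3 ⟨v, hv, h5⟩
        refine Or.inr ⟨?_, fun _ => ⟨z, hz, h4 z hz⟩⟩
        rintro ⟨-, v, hv, hv'⟩
        exact absurd (h4 v hv) hv'

theorem Stg.mir_sqr (hA : Stg A Hs) (c : ℕ) (b : V) (x : A.Vm Hs c b) (s : S)
    (hs : s ∈ (hA.mir c b).D x) (t : S) (ht : t ∈ (hA.mir c b).D x) (hst : s ≠ t)
    (h : ¬ A.cr s t) (u : A.Vm Hs c b) : u ∈ A.Hm Hs c b x s ∨ u ∈ A.Hm Hs c b x t := by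
  have hs' : s ∈ A.D x.2.1 := hs
  have ht' : t ∈ A.D x.2.1 := ht
  by_cases hsc : A.col s = c
  · by_cases htc : A.col t = c
    · rw [MSqr_mem_eq hsc, MSqr_mem_eq htc]
      by_contra hn
      rw [not_or] at hn
      obtain ⟨h1, h2⟩ := hn
      apply h1
      intro a ha hae
      apply h2
      intro a' ha' hae'
      have h3 : a = a' := Option.mem_unique ha ha'
      have h4 : Hs x.2.1 s = Hs x.2.1 t := by rw [← hae, ← hae', h3]
      exact hst (hA.eq_of_Hs hs' ht' h4).1.symm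
    · exact MSqr_one hA hs' ht' hst h hsc htc
  · by_cases htc : A.col t = c
    · exact (MSqr_one hA ht' hs' (Ne.symm hst) (fun h1 => h (hA.cr_symm t s h1)) htc hsc).symm
    · rw [MSqr_mem_ne hsc, MSqr_mem_ne htc]
      exact MSqr_cover (hA.sqr x.2.1 s hs' t ht' hst h) _ _ _
        (hA.sqr x.2.1 s hs' t ht' hst h u.2.1)

end SingerLG
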