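import Mathlib
import Pool.Agent.Lib_MP_394d50_lg.MEasy
import Pool.Agent.Lib_MP_394d50_lg.MCrs
import Pool.Agent.Lib_MP_394d50_lg.MSqr

/-!
# The mirrored stage is a stage
-/

namespace SingerLG

open SingerVS SingerCub
open scoped Pointwise

variable {G V S : Type} [Group G] [MulAction G V] [MulAction G S] {A : Dat G V S}
  {Hs : V → S → Set V}

/-- The mirrored stage is a stage. -/
theorem Stg.mir_stg (hA : Stg A Hs) (c : ℕ) (b : V) : Stg (hA.mir c b) (A.Hm Hs c b) where
  cr_symm := hA.cr_symm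
  cr_col := hA.cr_col
  nb_mem := hA.mir_nb_mem c b
  nb_nb := hA.mir_nb_nb c b
  nb_D := hA.mir_nb_D c b
  comm := hA.mir_comm c b
  conn := hA.mir_conn c b
  free := hA.mir_free c b
  fin := hA.mir_fin c b
  mem := hA.mir_mem c b
  opp := hA.mir_opp c b
  par := hA.mir_par c b
  crs := hA.mir_crs c b
  sqr := hA.mir_sqr c b
  smul := hA.mir_smul c b

/-- The colour `c` is mirrored: the neighbours in its directions have the same directions. -/
def Dat.Mir (A : Dat G V S) (c : ℕ) : Prop :=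
  ∀ v, ∀ s ∈ A.D v, A.col s = c → A.D (A.nb s v) = A.D v

/-- The colour `c` is mirrored in the mirrored stage. -/
theorem Stg.mir_mir (hA : Stg A Hs) (c : ℕ) (b : V) : (hA.mir c b).Mir c := by
  intro x s hs hc
  show A.D (A.nbm Hs s x).2.1 = A.D x.2.1
  rw [Dat.nbm_eq hs hc]

/-- Mirrored colours stay mirrored. -/
theorem Stg.mir_mir' (hA : Stg A Hs) (c : ℕ) (b : V) {d : ℕ} (h : A.Mir d) :
    (hA.mir c b).Mir d := by
  intro x s hs hd
  by_cases hc : A.col s = c
  · exact hA.mir_mir c b x s hs hc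
  · show A.D (A.nbm Hs s x).2.1 = A.D x.2.1
    rw [Dat.nbm_ne hs hc]
    exact h x.2.1 s hs hd

end SingerLG
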