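import Mathlib
import Pool.Agent.Lib_MP_394d50_lg.AFl
import Pool.Agent.Lib_MP_394d50_lg.AMem
import Pool.Agent.Lib_MP_394d50_lg.MStg

/-!
# Piece A9: functions on the copies of the region

`emb_inj`: equal words and equal flags. `exists_emb`: a flag of the mirrored stage is `((w, x), σ)` with `x` in the region: take the flag
`(x, σ)` of `A` (the directions and the crossing relation of the mirrored stage are those of `A`, definitionally).
`exists_push`: the function `y' u = if u.v.1 = w then y (u.v.2.1, u.σ) else 0` is square summable: `Memℓp` for `2`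
(`memℓp_gen_iff`, `lp.memℓp`, the sum over the image of the injective map `emb w`; `Function.Injective.summable_iff` or
`summable_of_sum_le`, `Summable.comp_injective`). `exists_pull`: the same, `z x = if h : A.Rg c b x.v then z' (emb w x h) else 0`.
`push_pull` (adjointness): `⟨y', z'⟩ = ∑ y' u z' u = ∑_{x in the region} y x z' (emb w x) = ⟨y, z⟩` (`lp.inner_eq_tsum`,
`Function.Injective.tsum_eq`, both sums are over the flags of `A` in the region).
`mem_Cp`: `mem_orth_span`; if `z' ∈ Cp M` and `z` is the restriction to the copy `w` then `⟨y, z⟩ = ⟨y', z'⟩ = 0` for all `y ∈ Mᗮ`, so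
`z ∈ Mᗮᗮ = M` (`Submodule.orthogonal_orthogonal` with `[M.HasOrthogonalProjection]`). Conversely `⟨y', z'⟩ = ⟨y, z⟩ = 0`.
-/

namespace SingerLG

open SingerVS SingerCub
open scoped Pointwise

variable {G V S : Type} [Group G] [MulAction G V] [MulAction G S] [DecidableEq S]
  {A : Dat G V S} {Hs : V → S → Set V} {c j : ℕ} {b : V}

private noncomputable def APushBack (hA : Stg A Hs) (u : (hA.mir c b).Fl) : A.Fl := A.fl u.v.2.1 u.σ u.2

private theorem APush_back_rg (hA : Stg A Hs) (u : (hA.mir c b).Fl) :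
    A.Rg c b (APushBack hA u).v := u.v.2.2

private theorem APush_emb_back (hA : Stg A Hs) (u : (hA.mir c b).Fl) :
    u = hA.emb u.v.1 (APushBack hA u) (APush_back_rg hA u) := rfl

private theorem APush_sum {C : Type} (y : L2 C) : Summable fun i => ‖y i‖ ^ (2 : ENNReal).toReal :=
  (memℓp_gen_iff (by norm_num)).mp (lp.memℓp y)

theorem Stg.emb_inj (hA : Stg A Hs) {w w' : FW (A.Lt Hs c b)} {x x' : A.Fl} {h : A.Rg c b x.v}
    {h' : A.Rg c b x'.v} (e : hA.emb w x h = hA.emb w' x' h') : w = w' ∧ x = x' := by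
  have e1 := congrArg (fun u : (hA.mir c b).Fl => u.v.1) e
  have e2 := congrArg (fun u : (hA.mir c b).Fl => APushBack hA u) e
  exact ⟨e1, e2⟩

theorem Stg.exists_emb (hA : Stg A Hs) (u : (hA.mir c b).Fl) :
    ∃ x, ∃ h : A.Rg c b x.v, u = hA.emb u.v.1 x h :=
  ⟨_, _, APush_emb_back hA u⟩

theorem Stg.exists_push (hA : Stg A Hs) (w : FW (A.Lt Hs c b)) (y : L2 A.Fl) :
    ∃ y' : L2 (hA.mir c b).Fl, hA.Push w y y' := by
  classical
  have hm : Memℓp (fun u : (hA.mir c b).Fl => if u.v.1 = w then y (APushBack hA u) else 0) 2 := by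
    refine (memℓp_gen_iff (by norm_num)).mpr ?_
    have h1 : (fun u : (hA.mir c b).Fl =>
        ‖(if u.v.1 = w then y (APushBack hA u) else 0 : ℝ)‖ ^ (2 : ENNReal).toReal) =
        {u : (hA.mir c b).Fl | u.v.1 = w}.indicator
          (fun u => ‖y (APushBack hA u)‖ ^ (2 : ENNReal).toReal) := by
      funext u
      by_cases hu : u.v.1 = w
      · rw [if_pos hu, Set.indicator_of_mem (show u ∈ {u : (hA.mir c b).Fl | u.v.1 = w} from hu)]
      · rw [if_neg hu, Set.indicator_of_notMem
          (show u ∉ {u : (hA.mir c b).Fl | u.v.1 = w} from hu), norm_zero]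
        exact Real.zero_rpow (by norm_num)
    rw [h1, ← summable_subtype_iff_indicator]
    have hi : Function.Injective
        (fun u : {u : (hA.mir c b).Fl | u.v.1 = w} => APushBack hA u.1) := by
      rintro ⟨u, hu⟩ ⟨u', hu'⟩ e
      have e : APushBack hA u = APushBack hA u' := e
      have hu : u.v.1 = w := hu
      have hu' : u'.v.1 = w := hu'
      have h2 : u.v.2 = u'.v.2 := Subtype.ext (congrArg (fun x : A.Fl => x.v) e)
      have h3 : u.σ = u'.σ := congrArg (fun x : A.Fl => x.σ) e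
      exact Subtype.ext (Dat.Fl.ext (Prod.ext (hu.trans hu'.symm) h2) h3)
    exact (APush_sum y).comp_injective hi
  refine ⟨⟨_, hm⟩, ?_, ?_⟩
  · intro x h
    exact if_pos rfl
  · intro u hu
    exact if_neg hu

theorem Stg.exists_pull (hA : Stg A Hs) (w : FW (A.Lt Hs c b)) (z' : L2 (hA.mir c b).Fl) :
    ∃ z : L2 A.Fl, hA.Pull w z' z := by
  classical
  have hm : Memℓp (fun x : A.Fl => if h : A.Rg c b x.v then z' (hA.emb w x h) else 0) 2 := by
    refine (memℓp_gen_iff (by norm_num)).mpr ?_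
    have h0 : Function.Injective
        (fun x : {x : A.Fl | A.Rg c b x.v} => hA.emb w x.1 x.2) := by
      rintro ⟨x, hx⟩ ⟨x', hx'⟩ e
      exact Subtype.ext (hA.emb_inj e).2
    have h2 := (APush_sum z').comp_injective h0
    have h3 : ((fun i => ‖z' i‖ ^ (2 : ENNReal).toReal) ∘
        (fun x : {x : A.Fl | A.Rg c b x.v} => hA.emb w x.1 x.2)) =
        ((fun x : A.Fl => ‖(if h : A.Rg c b x.v then z' (hA.emb w x h) else 0 : ℝ)‖ ^
          (2 : ENNReal).toReal) ∘ (Subtype.val : {x : A.Fl | A.Rg c b x.v} → A.Fl)) := by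
      funext x
      have hx : A.Rg c b x.1.v := x.2
      show ‖z' (hA.emb w x.1 x.2)‖ ^ (2 : ENNReal).toReal =
        ‖(if h : A.Rg c b x.1.v then z' (hA.emb w x.1 h) else 0 : ℝ)‖ ^ (2 : ENNReal).toReal
      rw [dif_pos hx]
    rw [h3, summable_subtype_iff_indicator] at h2
    refine h2.congr fun x => ?_
    by_cases hx : A.Rg c b x.v
    · rw [Set.indicator_of_mem (show x ∈ {x : A.Fl | A.Rg c b x.v} from hx)]
    · rw [Set.indicator_of_notMem (show x ∉ {x : A.Fl | A.Rg c b x.v} from hx), dif_neg hx,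
        norm_zero]
      exact (Real.zero_rpow (by norm_num)).symm
  refine ⟨⟨_, hm⟩, ?_, ?_⟩
  · intro x h
    exact dif_pos h
  · intro x hx
    exact dif_neg hx

theorem Stg.push_uniq (hA : Stg A Hs) {w : FW (A.Lt Hs c b)} {y : L2 A.Fl}
    {y' y'' : L2 (hA.mir c b).Fl} (h : hA.Push w y y') (h' : hA.Push w y y'') : y' = y'' := by
  apply lp.ext
  funext u
  by_cases hu : u.v.1 = w
  · subst hu
    have h1 := h.1 (APushBack hA u) (APush_back_rg hA u)
    have h2 := h'.1 (APushBack hA u) (APush_back_rg hA u)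
    rw [← APush_emb_back hA u] at h1 h2
    exact h1.trans h2.symm
  · exact (h.2 u hu).trans (h'.2 u hu).symm

theorem Stg.pull_uniq (hA : Stg A Hs) {w : FW (A.Lt Hs c b)} {z' : L2 (hA.mir c b).Fl}
    {z z₁ : L2 A.Fl} (h : hA.Pull w z' z) (h' : hA.Pull w z' z₁) : z = z₁ := by
  apply lp.ext
  funext x
  by_cases hx : A.Rg c b x.v
  · exact (h.1 x hx).trans (h'.1 x hx).symm
  · exact (h.2 x hx).trans (h'.2 x hx).symm

theorem Stg.push_pull (hA : Stg A Hs) {w : FW (A.Lt Hs c b)} {y z : L2 A.Fl}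
    {y' z' : L2 (hA.mir c b).Fl} (h : hA.Push w y y') (h' : hA.Pull w z' z) :
    inner ℝ y' z' = inner ℝ y z := by
  rw [lp.inner_eq_tsum, lp.inner_eq_tsum]
  have h0 : Function.Injective (fun x : {x : A.Fl // A.Rg c b x.v} => hA.emb w x.1 x.2) := by
    rintro ⟨x, hx⟩ ⟨x', hx'⟩ e
    exact Subtype.ext (hA.emb_inj e).2
  have h1 : Function.support (fun u : (hA.mir c b).Fl => inner ℝ (y' u) (z' u)) ⊆
      Set.range (fun x : {x : A.Fl // A.Rg c b x.v} => hA.emb w x.1 x.2) := by
    intro u hu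
    by_cases hw : u.v.1 = w
    · subst hw
      exact ⟨⟨APushBack hA u, APush_back_rg hA u⟩, (APush_emb_back hA u).symm⟩
    · refine absurd ?_ hu
      show inner ℝ (y' u) (z' u) = 0
      rw [h.2 u hw, inner_zero_left]
  have h2 : Function.support (fun x : A.Fl => inner ℝ (y x) (z x)) ⊆
      Set.range (Subtype.val : {x : A.Fl // A.Rg c b x.v} → A.Fl) := by
    intro x hx
    by_cases hr : A.Rg c b x.v
    · exact ⟨⟨x, hr⟩, rfl⟩
    · refine absurd ?_ hx
      show inner ℝ (y x) (z x) = 0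
      rw [h'.2 x hr, inner_zero_right]
  rw [← h0.tsum_eq h1, ← Subtype.val_injective.tsum_eq h2]
  refine tsum_congr fun x => ?_
  rw [h.1 x.1 x.2, h'.1 x.1 x.2]

theorem Stg.mem_Cp (hA : Stg A Hs) {M : Submodule ℝ (L2 A.Fl)} [M.HasOrthogonalProjection]
    {z' : L2 (hA.mir c b).Fl} : z' ∈ hA.Cp c b M ↔ ∀ w z, hA.Pull w z' z → z ∈ M := by
  unfold Stg.Cp
  rw [mem_orth_span]
  constructor
  · intro h w z hz
    rw [← Submodule.orthogonal_orthogonal M, Submodule.mem_orthogonal]
    intro y hy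
    obtain ⟨y', hy'⟩ := hA.exists_push w y
    rw [← hA.push_pull hy' hz]
    exact h y' ⟨w, y, hy, hy'⟩
  · rintro h y' ⟨w, y, hy, hy'⟩
    obtain ⟨z, hz⟩ := hA.exists_pull w z'
    rw [hA.push_pull hy' hz]
    exact Submodule.inner_left_of_mem_orthogonal (h w z hz) hy

end SingerLG
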