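import Mathlib
import Pool.Agent.Lib_MP_394d50_lg.APush
import Pool.Agent.Lib_MP_394d50_lg.AJ

/-!
# Piece A12: the mirrored stage: flags, and going across the colour `c`

The directions, `cr`, `col` of the mirrored stage are those of `A` (definitionally), `nb = nbm` (`Dat.nbm_ne`, `Dat.nbm_eq`).
`emb_mv`, `emb_exs`, `emb_ins`, `emb_sg`, `emb_Bf`: unfold (`Dat.Fl.ext`, `mv_v` for `hA.mir_stg c b`, `mv_σ`, `ins_v`, `ins_σ`, `mem_exs`).
`emb_jj`: `x` has a direction `s ∈ x.σ`, `col s = c`, `Hs x.v s = α.1`: `jj = mv s` (`jj_eq` for the mirrored stage), `nbm_eq`, the letter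
`A.lt Hs _ s _ _` is `α` (`Subtype.ext`).
`OB`: the restrictions to the copies are orthogonal to `Bad`.
`OB_J`: let `y ∈ Bad` be supported on `Bl a`, `z` the restriction of `J z'` to the copy `w`. If `a` is a letter `α` (i.e. `∃ v, A.Adj Hs c b a v`): let `z₁` be
the restriction of `z'` to the copy `w * of α`: for `x ∈ Bl a`: `x.v` is in the region (`α` is adjacent to a vertex of the region, `eq_of_Hs`, `par_rg`) and
`z x = (J z') (emb w x) = z' (emb (w * of α) x) = z₁ x` (`J_apply`, `emb_jj`), so `⟨y, z⟩ = ⟨y, z₁⟩ = 0`. If `a` is not a letter, then no flag of `Bl a` is in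
the region, `⟨y, z⟩ = 0` (`inner_eq_zero_of_supp`).
`OB_rs`: the restriction of `rs Bf z'` is `rs Bf` of the restriction, and `y` vanishes outside of `Bf c` (`Bad_supp`).
-/

namespace SingerLG

open SingerVS SingerCub
open scoped Pointwise

variable {G V S : Type} [Group G] [MulAction G V] [MulAction G S] [DecidableEq S]
  {A : Dat G V S} {Hs : V → S → Set V} {c j : ℕ} {b : V}

theorem Stg.emb_mv (hA : Stg A Hs) {w : FW (A.Lt Hs c b)} {x : A.Fl} {h : A.Rg c b x.v} {s : S}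
    (hs : s ∈ x.σ) (hc : A.col s ≠ c) :
    ∃ h' : A.Rg c b (A.mv s x).v, (hA.mir c b).mv s (hA.emb w x h) = hA.emb w (A.mv s x) h' := by
  have h' : A.Rg c b (A.mv s x).v := by
    rw [hA.mv_v hs]
    exact h.tail ⟨s, x.2.1 hs, hc, rfl⟩
  refine ⟨h', ?_⟩
  have hs' : s ∈ (hA.emb w x h).σ := hs
  refine Dat.Fl.ext ?_ ?_
  · rw [(hA.mir_stg c b).mv_v hs']
    show A.nbm Hs s (w, ⟨x.v, h⟩) = (w, ⟨(A.mv s x).v, h'⟩)
    rw [Dat.nbm_ne (x := (w, ⟨x.v, h⟩)) (x.2.1 hs) hc]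
    exact Prod.ext rfl (Subtype.ext (hA.mv_v hs).symm)
  · rw [Dat.mv_σ]
    exact (A.mv_σ s x).symm

theorem Stg.emb_exs (hA : Stg A Hs) {w : FW (A.Lt Hs c b)} {x : A.Fl} {h : A.Rg c b x.v} :
    (hA.mir c b).exs (hA.emb w x h) = A.exs x := by
  ext t
  rw [Dat.mem_exs, Dat.mem_exs]
  exact Iff.rfl

private theorem AEmb_ins_pos {G V S : Type} [Group G] [MulAction G V] [MulAction G S]
    [DecidableEq S] {A : Dat G V S} {t : S} {x : A.Fl}
    (h : t ∈ A.D x.v ∧ A.Cl (insert t x.σ)) : (A.ins t x).σ = insert t x.σ := by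
  have h1 : A.ins t x = ⟨(x.v, insert t x.σ), Finset.insert_subset h.1 x.2.1, h.2⟩ := by
    unfold Dat.ins
    exact dif_pos h
  rw [h1]
  rfl

private theorem AEmb_ins_neg {G V S : Type} [Group G] [MulAction G V] [MulAction G S]
    [DecidableEq S] {A : Dat G V S} {t : S} {x : A.Fl}
    (h : ¬ (t ∈ A.D x.v ∧ A.Cl (insert t x.σ))) : (A.ins t x).σ = x.σ := by
  have h1 : A.ins t x = x := by
    unfold Dat.ins
    exact dif_neg h
  rw [h1]

theorem Stg.emb_ins (hA : Stg A Hs) {w : FW (A.Lt Hs c b)} {x : A.Fl} {h : A.Rg c b x.v} (t : S) :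
    ∃ h' : A.Rg c b (A.ins t x).v, (hA.mir c b).ins t (hA.emb w x h) = hA.emb w (A.ins t x) h' := by
  have h' : A.Rg c b (A.ins t x).v := by
    rw [A.ins_v]
    exact h
  refine ⟨h', ?_⟩
  refine Dat.Fl.ext ?_ ?_
  · rw [Dat.ins_v]
    exact Prod.ext rfl (Subtype.ext (A.ins_v t x).symm)
  · show ((hA.mir c b).ins t (hA.emb w x h)).σ = (A.ins t x).σ
    by_cases h1 : t ∈ A.D x.v ∧ A.Cl (insert t x.σ)
    · have h2 : t ∈ (hA.mir c b).D (hA.emb w x h).v ∧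
          (hA.mir c b).Cl (insert t (hA.emb w x h).σ) := h1
      rw [AEmb_ins_pos h1, AEmb_ins_pos h2]
      rfl
    · have h2 : ¬ (t ∈ (hA.mir c b).D (hA.emb w x h).v ∧
          (hA.mir c b).Cl (insert t (hA.emb w x h).σ)) := h1
      rw [AEmb_ins_neg h1, AEmb_ins_neg h2]
      rfl

theorem Stg.emb_sg (hA : Stg A Hs) {w : FW (A.Lt Hs c b)} {x : A.Fl} {h : A.Rg c b x.v} (t : S) :
    (hA.mir c b).sg (hA.emb w x h) t = A.sg x t := by
  rfl

theorem Stg.emb_Bf (hA : Stg A Hs) {w : FW (A.Lt Hs c b)} {x : A.Fl} {h : A.Rg c b x.v} :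
    hA.emb w x h ∈ (hA.mir c b).Bf c ↔ x ∈ A.Bf c := by
  exact Iff.rfl

theorem Stg.emb_jj (hA : Stg A Hs) {w : FW (A.Lt Hs c b)} {x : A.Fl} {h : A.Rg c b x.v}
    {α : A.Lt Hs c b} (hx : x ∈ A.Bl Hs c α.1) :
    (hA.mir c b).jj c (hA.emb w x h) = hA.emb (w * FW.of α) x h := by
  obtain ⟨s, hs, hc, hα⟩ := hx
  have hs' : s ∈ (hA.emb w x h).σ := hs
  have hc' : (hA.mir c b).col s = c := hc
  rw [(hA.mir_stg c b).jj_eq hs' hc']
  refine Dat.Fl.ext ?_ ?_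
  · rw [(hA.mir_stg c b).mv_v hs']
    show A.nbm Hs s (w, ⟨x.v, h⟩) = (w * FW.of α, ⟨x.v, h⟩)
    rw [Dat.nbm_eq (x := (w, ⟨x.v, h⟩)) (x.2.1 hs) hc]
    have h1 : A.lt Hs (⟨x.v, h⟩ : A.Rn c b) s (x.2.1 hs) hc = α := Subtype.ext hα
    exact Prod.ext (congrArg (fun β => w * FW.of β) h1) rfl
  · rw [Dat.mv_σ]
    rfl

/-- The restrictions to the copies of the region are orthogonal to `Bad`. -/
def Stg.OB (hA : Stg A Hs) (c j : ℕ) (b : V) (z' : L2 (hA.mir c b).Fl) : Prop :=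
  ∀ w z, hA.Pull w z' z → ∀ y ∈ A.Bad Hs c j, inner ℝ y z = 0

private theorem AEmb_sub {y z z₁ : L2 A.Fl} (h0 : inner ℝ y z₁ = 0)
    (h : ∀ x, y x = 0 ∨ z x = z₁ x) : inner ℝ y z = 0 := by
  have h1 : inner ℝ y (z - z₁) = 0 := by
    apply inner_eq_zero_of_supp
    intro x
    rcases h x with h2 | h2
    · exact Or.inl h2
    · right
      show z x - z₁ x = 0
      rw [h2, sub_self]
  rw [inner_sub_right, h0, sub_zero] at h1
  exact h1

theorem Stg.OB_J (hA : Stg A Hs) {z' : L2 (hA.mir c b).Fl} (h : hA.OB c j b z') :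
    hA.OB c j b ((hA.mir_stg c b).J c z') := by
  intro w z hz y hy
  have hy' := hy
  obtain ⟨a, ha, -⟩ := hy
  by_cases hα : ∃ v, A.Adj Hs c b a v
  · let α : A.Lt Hs c b := ⟨a, hα⟩
    obtain ⟨z₁, hz₁⟩ := hA.exists_pull (w * FW.of α) z'
    refine AEmb_sub (h _ z₁ hz₁ y hy') fun x => ?_
    by_cases hx : x ∈ A.Bl Hs c a
    · right
      have hr : A.Rg c b x.v := by
        obtain ⟨v, hv, s, hs, hc, hsa⟩ := hα
        obtain ⟨t, ht, htc, hta⟩ := hx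
        obtain ⟨_, h2⟩ := hA.eq_of_Hs hs (x.2.1 ht) (hsa.trans hta.symm)
        exact hv.trans (hA.par_rg hc h2)
      rw [hz.1 x hr, hz₁.1 x hr, (hA.mir_stg c b).J_apply]
      have h3 := hA.emb_jj (w := w) (x := x) (h := hr) (α := α) hx
      rw [h3]
    · exact Or.inl (ha x hx)
  · apply inner_eq_zero_of_supp
    intro x
    by_cases hx : x ∈ A.Bl Hs c a
    · right
      apply hz.2 x
      intro hr
      apply hα
      obtain ⟨t, ht, htc, hta⟩ := hx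
      exact ⟨x.v, hr, t, x.2.1 ht, htc, hta⟩
    · exact Or.inl (ha x hx)

theorem Stg.OB_rs (hA : Stg A Hs) {z' : L2 (hA.mir c b).Fl} (h : hA.OB c j b z') :
    hA.OB c j b (rs ((hA.mir c b).Bf c) z') := by
  intro w z hz y hy
  obtain ⟨z₁, hz₁⟩ := hA.exists_pull w z'
  refine AEmb_sub (h w z₁ hz₁ y hy) fun x => ?_
  by_cases hx : x ∈ A.Bf c
  · right
    by_cases hr : A.Rg c b x.v
    · rw [hz.1 x hr, hz₁.1 x hr]
      exact rs_of_mem z' (hA.emb_Bf.mpr hx)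
    · rw [hz.2 x hr, hz₁.2 x hr]
  · exact Or.inl (Dat.Bad_supp hy x hx)

private theorem AEmb_add (hA : Stg A Hs) {z₁' z₂' : L2 (hA.mir c b).Fl} (h₁ : hA.OB c j b z₁')
    (h₂ : hA.OB c j b z₂') : hA.OB c j b (z₁' + z₂') := by
  intro w z hz y hy
  obtain ⟨z₁, hz₁⟩ := hA.exists_pull w z₁'
  obtain ⟨z₂, hz₂⟩ := hA.exists_pull w z₂'
  have h0 : inner ℝ y (z₁ + z₂) = 0 := by
    rw [inner_add_right, h₁ w z₁ hz₁ y hy, h₂ w z₂ hz₂ y hy, add_zero]
  refine AEmb_sub h0 fun x => Or.inr ?_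
  show z x = z₁ x + z₂ x
  by_cases hr : A.Rg c b x.v
  · rw [hz.1 x hr, hz₁.1 x hr, hz₂.1 x hr]
    rfl
  · rw [hz.2 x hr, hz₁.2 x hr, hz₂.2 x hr, add_zero]

theorem Stg.OB_Ps (hA : Stg A Hs) {z' : L2 (hA.mir c b).Fl} (h : hA.OB c j b z') :
    hA.OB c j b ((hA.mir_stg c b).Ps c z') := by
  have h1 := hA.OB_rs h
  have h2 := hA.OB_J h1
  exact AEmb_add hA h1 h2

end SingerLG
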