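import Mathlib
import Pool.Agent.Lib_MP_394d50_lg.AJ
import Pool.Agent.Lib_MP_394d50_lg.AInv
import Pool.Agent.Lib_MP_394d50_lg.AAbs

/-!
# Piece A8: the symmetric boundary values have half of the trace (section 3, (iv))

`Fs_rs`: `mem_Fs`: support clear; for `y ∈ Bad` supported on `Bl a'`: if `a' = a` then `⟨y, rs (Bl a) f⟩ = ⟨rs (Bl a) y, f⟩ = ⟨y, f⟩ = 0`
(`rs_inner`, `rs_eq`); if `a' ≠ a` the supports are disjoint (`Bl_uniq`, `inner_eq_zero_of_supp`).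
`Fs_proj`: `P = P_Fs` commutes with `rs (Bl a)`: for `x ∈ Bl a` and `u ∉ Bl a`: `(P δ_x) u = 0`. Indeed `p = P δ_x`, `q = rs (Bl a) p ∈ Fs`, and
`δ_x - q ⊥ Fs`: for `f ∈ Fs`: `⟨q, f⟩ = ⟨p, rs (Bl a) f⟩ = ⟨δ_x, rs (Bl a) f⟩ = f x` (as `rs (Bl a) f ∈ Fs`). So `p = q`
(`Submodule.eq_starProjection_of_mem_of_inner_eq_zero`).
`Fs_J`: `mem_Fs`, `J_apply`, `jj_Bf`, `⟨y, J f⟩ = ⟨J y, f⟩ = 0` (`Bad_J`).
`tr_As`: `tr_half` with `e = hA.jjE c`, `F = Fs`, `M = As` (`mem_As`; `jj_not` for the flags outside of `Bf c`), `hd`: for `x ∉ Bf c`: `δ_x ⊥ Fs`,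
so `P δ_x = 0`; for `x ∈ Bl a` (`exists_Bl`): `jj x ∈ Bl aᶜ`, and `Bl a`, `Bl aᶜ` are disjoint (`Bl_uniq`, `a ≠ aᶜ` as `V` is non-empty).
-/

namespace SingerLG

open SingerVS SingerCub
open scoped Pointwise

variable {G V S : Type} [Group G] [MulAction G V] [MulAction G S] [DecidableEq S]
  {A : Dat G V S} {Hs : V → S → Set V} {c j : ℕ}

theorem Stg.Fs_rs (hA : Stg A Hs) {f : L2 A.Fl} (hf : f ∈ A.Fs Hs c j) (a : Set V) :
    rs (A.Bl Hs c a) f ∈ A.Fs Hs c j := by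
  rw [Dat.mem_Fs] at hf ⊢
  refine ⟨fun x hx => rs_of_notMem f fun h => hx (Dat.Bl_sub h), fun y hy => ?_⟩
  obtain ⟨a', h1, h2⟩ := id hy
  by_cases ha : a' = a
  · subst ha
    have h3 : y ∈ sup (A.Bl Hs c a') := fun x hx => h1 x hx
    rw [← rs_inner, rs_eq h3]
    exact hf.2 y hy
  · apply inner_eq_zero_of_supp
    intro x
    by_cases hx : x ∈ A.Bl Hs c a
    · left
      exact h1 x fun h => ha (hA.Bl_uniq h hx)
    · right
      exact rs_of_notMem f hx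

theorem Stg.Fs_proj (hA : Stg A Hs) {a : Set V} {x u : A.Fl} (hx : x ∈ A.Bl Hs c a)
    (hu : u ∉ A.Bl Hs c a) : ((A.Fs Hs c j).starProjection (delta x)) u = 0 := by
  have h1 : (A.Fs Hs c j).starProjection (delta x) =
      rs (A.Bl Hs c a) ((A.Fs Hs c j).starProjection (delta x)) := by
    refine (A.Fs Hs c j).eq_starProjection_of_mem_of_inner_eq_zero
      (hA.Fs_rs ((A.Fs Hs c j).starProjection_apply_mem _) a) ?_
    intro w hw
    have h2 := (A.Fs Hs c j).starProjection_inner_eq_zero (delta x) _ (hA.Fs_rs hw a)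
    rw [inner_sub_left, delta_inner, rs_of_mem w hx] at h2
    rw [inner_sub_left, delta_inner, rs_inner]
    exact h2
  rw [h1]
  exact rs_of_notMem _ hu

theorem Stg.Fs_J (hA : Stg A Hs) {f : L2 A.Fl} (hf : f ∈ A.Fs Hs c j) :
    hA.J c f ∈ A.Fs Hs c j := by
  rw [Dat.mem_Fs] at hf ⊢
  refine ⟨fun x hx => ?_, fun y hy => ?_⟩
  · rw [hA.J_apply]
    exact hf.1 _ fun h => hx (Dat.jj_Bf.mp h)
  · rw [← hA.J_inner]
    exact hf.2 _ (hA.Bad_J hy)

private theorem AHalf_ne (hA : Stg A Hs) {x : A.Fl} {a : Set V} (hx : x ∈ A.Bl Hs c a) :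
    A.jj c x ∉ A.Bl Hs c a := by
  intro h
  have h1 : a = aᶜ := hA.Bl_uniq h (hA.Bl_jj.mpr hx)
  have h2 : x.v ∈ a ↔ x.v ∈ aᶜ := by rw [← h1]
  rw [Set.mem_compl_iff] at h2
  exact iff_not_self h2

theorem Stg.tr_As (hA : Stg A Hs) (c j : ℕ) :
    tr G (A.As Hs c j).starProjection = 1 / 2 * tr G (A.Fs Hs c j).starProjection := by
  refine tr_half hA.fo (hA.Fs_inv c j) (hA.jjE c) (fun x => hA.jj_jj x)
    (fun g x => hA.jj_smul g x)
    (fun f hf => ⟨hA.J c f, hA.Fs_J hf, fun x => hA.J_apply f x⟩) ?_ ?_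
  · intro f
    rw [Dat.mem_As]
    refine and_congr_right fun _ => ⟨fun h x => ?_, fun h x _ => h x⟩
    show f (A.jj c x) = f x
    by_cases hx : x ∈ A.Bf c
    · exact h x hx
    · rw [Dat.jj_not hx]
  · intro x
    show ((A.Fs Hs c j).starProjection (delta x)) (A.jj c x) = 0
    by_cases hx : x ∈ A.Bf c
    · obtain ⟨a, ha⟩ := Dat.exists_Bl (Hs := Hs) hx
      exact hA.Fs_proj ha (AHalf_ne hA ha)
    · have h1 : (A.Fs Hs c j).starProjection (delta x) = 0 := by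
        refine (A.Fs Hs c j).eq_starProjection_of_mem_of_inner_eq_zero
          (A.Fs Hs c j).zero_mem ?_
        intro w hw
        rw [sub_zero, delta_inner]
        exact (Dat.mem_Fs.mp hw).1 x hx
      rw [h1]
      rfl

end SingerLG
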