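import Mathlib
import Pool.Agent.Lib_MP_394d50_lg.APush
import Pool.Agent.Lib_MP_394d50_lg.ABlk
import Pool.Agent.Lib_MP_394d50_lg.AInv

/-!
# Piece A11: the space `Cp M` (restrictions in `M` on all copies of the region): projection, local traces, invariance

`P` is the projection on `M`, `P'` the projection on `Cp M`.
`Cp_proj`: `p = P δ_x` vanishes outside of the region of `x` (which is the region of `b`): `q = rs W p ∈ M` (`Blk`, `W = {u | A.Rg c b u.v}`) and
`δ_x - q ⊥ M`: for `f ∈ M`, `⟨q, f⟩ = ⟨p, rs W f⟩ = ⟨δ_x, rs W f⟩ = f x`, so `q = p` (`Submodule.eq_starProjection_of_mem_of_inner_eq_zero`).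
Let `p'` be the push of `p` to the copy `w`. `p' ∈ Cp M` (`mem_Cp`: its restriction to the copy `w` is `p` (as `p = 0` outside of the region), to the
other copies it is `0`; `pull_uniq`). `⟨δ_{emb w x} - p', z'⟩ = z' (emb w x) - ⟨p, z⟩ = z x - ⟨P δ_x, z⟩ = 0` for `z' ∈ Cp M` with restriction
`z ∈ M` to the copy `w` (`push_pull`). So `P' δ_{emb w x} = p'`.
`Cp_far`, `Cp_coef`: from this. `loc_Cp`: `(hA.mir c b).cubes u = A.cubes u.2.1` (definitionally, or by `Finset.ext`, `mem_cubes`), and the flag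
`fl u σ` of the mirrored stage is `emb u.1 (fl u.2.1 σ)`; `Cp_coef`.
`Cp_inv`: the element `g = ⟨u, k⟩` of `Gm` maps the flag `emb w x` to `emb (u * aut k w) (k • x)`. For `z' ∈ Cp M` the restriction of `shift g z'` to the copy
`w₁` is `shift k z`, `z` the restriction of `z'` to the copy `aut k⁻¹ (u⁻¹ w₁)` (`shift_apply`, `pull_uniq`; `k` preserves the region), and `M` is invariant.
-/

namespace SingerLG

open SingerVS SingerCub
open scoped Pointwise

variable {G V S : Type} [Group G] [MulAction G V] [MulAction G S] [DecidableEq S]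
  {A : Dat G V S} {Hs : V → S → Set V} {c j : ℕ} {b : V}

private theorem ALoc_in {C : Type} (M : Submodule ℝ (L2 C)) [M.HasOrthogonalProjection] (x : L2 C)
    {w : L2 C} (hw : w ∈ M) : inner ℝ (M.starProjection x) w = inner ℝ x w := by
  have h := M.starProjection_inner_eq_zero x w hw
  rw [inner_sub_left, sub_eq_zero] at h
  exact h.symm

private theorem ALoc_self {M : Submodule ℝ (L2 A.Fl)} [M.HasOrthogonalProjection]
    (hM : A.Blk c M) (x : A.Fl) (h : A.Rg c b x.v) (u : A.Fl) (hu : ¬ A.Rg c b u.v) :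
    (M.starProjection (delta x)) u = 0 := by
  have h1 : M.starProjection (delta x) =
      rs {u : A.Fl | A.Rg c b u.v} (M.starProjection (delta x)) := by
    refine M.eq_starProjection_of_mem_of_inner_eq_zero
      (hM b _ (M.starProjection_apply_mem (delta x))) ?_
    intro f hf
    have hf' := hM b f hf
    have hx : x ∈ {u : A.Fl | A.Rg c b u.v} := h
    rw [inner_sub_left, rs_inner, ALoc_in M (delta x) hf', delta_inner, delta_inner,
      rs_of_mem f hx, sub_self]
  rw [h1]
  exact rs_of_notMem _ hu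

theorem Stg.Cp_proj (hA : Stg A Hs) {M : Submodule ℝ (L2 A.Fl)} [M.HasOrthogonalProjection]
    (hM : A.Blk c M) (w : FW (A.Lt Hs c b)) (x : A.Fl) (h : A.Rg c b x.v) :
    hA.Push w (M.starProjection (delta x)) ((hA.Cp c b M).starProjection (delta (hA.emb w x h))) := by
  obtain ⟨p', hp'⟩ := hA.exists_push w (M.starProjection (delta x))
  have h1 : (hA.Cp c b M).starProjection (delta (hA.emb w x h)) = p' := by
    refine (hA.Cp c b M).eq_starProjection_of_mem_of_inner_eq_zero ?_ ?_
    · rw [hA.mem_Cp]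
      intro w₁ z hz
      by_cases hw : w₁ = w
      · subst hw
        have h2 : hA.Pull w₁ p' (M.starProjection (delta x)) :=
          ⟨fun u hu => (hp'.1 u hu).symm, fun u hu => ALoc_self hM x h u hu⟩
        rw [hA.pull_uniq hz h2]
        exact M.starProjection_apply_mem (delta x)
      · have h2 : z = 0 := by
          apply l2_ext
          intro u
          by_cases hu : A.Rg c b u.v
          · rw [hz.1 u hu]
            exact hp'.2 _ hw
          · exact hz.2 u hu
        rw [h2]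
        exact M.zero_mem
    · intro z' hz'
      obtain ⟨z, hz⟩ := hA.exists_pull w z'
      have hzM : z ∈ M := hA.mem_Cp.mp hz' w z hz
      rw [inner_sub_left, delta_inner, hA.push_pull hp' hz, ALoc_in M (delta x) hzM, delta_inner,
        hz.1 x h, sub_self]
  rw [h1]
  exact hp'

/-- The projection of a delta function is supported on the same copy. -/
theorem Stg.Cp_far (hA : Stg A Hs) {M : Submodule ℝ (L2 A.Fl)} [M.HasOrthogonalProjection]
    (hM : A.Blk c M) (x u : (hA.mir c b).Fl) (h : u.v.1 ≠ x.v.1) :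
    ((hA.Cp c b M).starProjection (delta x)) u = 0 := by
  obtain ⟨x₀, h₀, e⟩ := hA.exists_emb x
  have h1 := (hA.Cp_proj hM x.v.1 x₀ h₀).2 u h
  rw [← e] at h1
  exact h1

theorem Stg.Cp_coef (hA : Stg A Hs) {M : Submodule ℝ (L2 A.Fl)} [M.HasOrthogonalProjection]
    (hM : A.Blk c M) (w : FW (A.Lt Hs c b)) (x : A.Fl) (h : A.Rg c b x.v) :
    inner ℝ ((hA.Cp c b M).starProjection (delta (hA.emb w x h))) (delta (hA.emb w x h)) =
      inner ℝ (M.starProjection (delta x)) (delta x) := by
  rw [real_inner_comm, delta_inner, real_inner_comm (delta x), delta_inner]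
  exact (hA.Cp_proj hM w x h).1 x h

theorem Stg.loc_Cp (hA : Stg A Hs) {M : Submodule ℝ (L2 A.Fl)} [M.HasOrthogonalProjection]
    (hM : A.Blk c M) (u : A.Vm Hs c b) :
    (hA.mir c b).loc (hA.Cp c b M).starProjection u = A.loc M.starProjection u.2.1 := by
  have key : ∀ (σ : Finset S) (h1 : σ ⊆ A.D u.2.1 ∧ A.Cl σ),
      inner ℝ ((hA.Cp c b M).starProjection (delta ((hA.mir c b).fl u σ h1)))
        (delta ((hA.mir c b).fl u σ h1)) =
      inner ℝ (M.starProjection (delta (A.fl u.2.1 σ h1))) (delta (A.fl u.2.1 σ h1)) :=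
    fun σ h1 => hA.Cp_coef hM u.1 (A.fl u.2.1 σ h1) u.2.2
  unfold Dat.loc
  exact Finset.sum_congr rfl fun σ _ => key σ.1 (Dat.mem_cubes.mp σ.2)

theorem Stg.Cp_inv (hA : Stg A Hs) {M : Submodule ℝ (L2 A.Fl)} [M.HasOrthogonalProjection]
    (hM : Inv G M) : Inv (hA.Gm c b) (hA.Cp c b M) := by
  intro g z' hz'
  rw [hA.mem_Cp] at hz' ⊢
  intro w₁ z hz
  obtain ⟨z₀, hz₀⟩ := hA.exists_pull (FW.aut (g.right)⁻¹ (g.left⁻¹ * w₁)) z'
  have h0 := hz' _ z₀ hz₀
  have hrg : ∀ (k : hA.Gr c b) (v : V), A.Rg c b v → A.Rg c b ((k : G) • v) := by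
    intro k v hv
    have h2 : A.Rg c b ((k : G) • b) := k.2
    exact h2.trans (hv.smul (k : G))
  have h1 : z = shift (g.right : G) z₀ := by
    apply l2_ext
    intro x
    rw [shift_apply]
    by_cases hx : A.Rg c b x.v
    · have hx' : A.Rg c b ((((g.right : G))⁻¹ • x : A.Fl)).v := hrg (g.right)⁻¹ x.v hx
      rw [hz.1 x hx, shift_apply]
      have h2 : g⁻¹ • hA.emb w₁ x hx =
          hA.emb (FW.aut (g.right)⁻¹ (g.left⁻¹ * w₁)) (((g.right : G))⁻¹ • x) hx' := by
        refine Dat.Fl.ext (Prod.ext ?_ rfl) rfl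
        show (g⁻¹).left * FW.aut (g⁻¹).right w₁ = FW.aut (g.right)⁻¹ (g.left⁻¹ * w₁)
        rw [SemidirectProduct.inv_left, SemidirectProduct.inv_right, map_mul]
      rw [h2]
      exact (hz₀.1 _ hx').symm
    · rw [hz.2 x hx]
      refine (hz₀.2 _ fun h3 => hx ?_).symm
      have h4 := hrg g.right _ h3
      have h5 : (g.right : G) • ((((g.right : G))⁻¹ • x : A.Fl)).v = x.v := by
        rw [Dat.Fl.smul_v, smul_inv_smul]
      rwa [h5] at h4
  rw [h1]
  exact hM (g.right : G) z₀ h0

end SingerLG
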