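import Mathlib
import Pool.Agent.Lib_MP_394d50_lg.AEmb
import Pool.Agent.Lib_MP_394d50_lg.ALoc
import Pool.Agent.Lib_MP_394d50_lg.AAbs

/-!
# Piece A13: the mirrored stage, the trace inequality (section 4)

`M = hA.mir c b`, `J' = (hA.mir_stg c b).J c`, `Ps' = (hA.mir_stg c b).Ps c`.
`mem_CpFs`: `mem_Cp`, `mem_Fs`: the restrictions `z` (they exist, `exists_pull`) vanish outside of `Bf c` iff `f` vanishes outside of `M.Bf c` (`exists_emb`,
`emb_Bf`), and are orthogonal to `Bad` iff `OB`.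
`mem_Asm`: `mem_orth_span`: the first set of generators gives `f ∈ Cp Fs` (definition of `Cp`), the second `f x - f (jj x) = 0`
(`delta_inner`, `inner_sub_left`) for `x ∈ M.Bf c`.
`mem_mZ`: `mem_Z` for `M`: every flag is `emb w x` (`exists_emb`); let `z ∈ Zc` be the restriction to the copy `w` (`mem_Cp`), `z x = z' (emb w x)`, `mem_Zc`: (degree);
(matching) for `s ∈ x.σ`, `col s ≠ c`: `emb_mv`; for `col s = c`: `mv s = jj c` (`jj_eq` for `M`), `Ps' z' = 0`, `Ps_in`; (cycle condition) `emb_exs`, `emb_ins`, `emb_sg`.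
`mPs_mem`: `mem_Asm`, `mem_CpFs`: vanishing outside of `M.Bf c`: `Ps_out`; `OB_Ps` (`mem_Cp`, `mem_Zc` give `OB`); symmetric: `Ps_in`, `jj_jj`, `jj_Bf`.
`Asm_inv`: by `mem_Asm`, `Cp_inv` (for `Fs`, `Fs_inv`) and `jj_smul` for `M`.
`tr_Asm`: `tr_half` for `M`, `F = Cp Fs`, `e = (hA.mir_stg c b).jjE c`; `hJ`: `J' f ∈ Cp Fs` (`mem_CpFs`, `OB_J`, `J_apply`, `jj_Bf`); `hM`: `mem_Asm`, `jj_not`;
`hd`: for `x ∉ M.Bf c`: `δ_x ⊥ Cp Fs`, so the projection is `0`; for `x ∈ M.Bf c`, `x = emb w x₀`: `x₀ ∈ Bl α` for a letter `α` (the wall of the direction of colour `c` at the vertex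
`x₀.v` of the region), `jj x = emb (w * of α) x₀` (`emb_jj`), `w * of α ≠ w` (`FW.of α ≠ 1`), `Cp_far`, `Fs_blk`.
`tr_mir`: `tr_rank_le` with `K = Cp Zc`, `M = Asm`, `K₀ = Z`, `Ψ = Ps'`, and `tr_Asm`.
-/

namespace SingerLG

open SingerVS SingerCub
open scoped Pointwise

variable {G V S : Type} [Group G] [MulAction G V] [MulAction G S] [DecidableEq S]
  {A : Dat G V S} {Hs : V → S → Set V} {c j : ℕ} {b : V}

private theorem AMir_letter {x : A.Fl} {a : Set V} (h : A.Rg c b x.v)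
    (ha : x ∈ A.Bl Hs c a) : ∃ α : A.Lt Hs c b, α.1 = a := by
  obtain ⟨s, hs, hc, ha⟩ := ha
  exact ⟨⟨a, x.v, h, s, x.2.1 hs, hc, ha⟩, rfl⟩

private theorem AMir_of {α : Type} (a : α) : FW.of a ≠ 1 := by
  intro h
  have h1 : [a] = [] := congrArg FW.l h
  exact absurd h1 (List.cons_ne_nil _ _)

theorem Stg.mem_CpFs (hA : Stg A Hs) {f : L2 (hA.mir c b).Fl} :
    f ∈ hA.Cp c b (A.Fs Hs c j) ↔ (∀ x, x ∉ (hA.mir c b).Bf c → f x = 0) ∧ hA.OB c j b f := by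
  rw [hA.mem_Cp]
  constructor
  · intro h
    refine ⟨fun x hx => ?_, fun w z hz y hy => (Dat.mem_Fs.mp (h w z hz)).2 y hy⟩
    obtain ⟨x₀, h₀, e⟩ := hA.exists_emb x
    obtain ⟨z, hz⟩ := hA.exists_pull x.v.1 f
    have h1 : x₀ ∉ A.Bf c := fun h2 => hx (by rw [e]; exact hA.emb_Bf.mpr h2)
    have h2 := (Dat.mem_Fs.mp (h _ z hz)).1 x₀ h1
    rw [hz.1 x₀ h₀, ← e] at h2
    exact h2
  · rintro ⟨h1, h2⟩ w z hz
    refine Dat.mem_Fs.mpr ⟨fun x hx => ?_, fun y hy => h2 w z hz y hy⟩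
    by_cases h : A.Rg c b x.v
    · rw [hz.1 x h]
      exact h1 _ fun h3 => hx (hA.emb_Bf.mp h3)
    · exact hz.2 x h

theorem Stg.mem_Asm (hA : Stg A Hs) {f : L2 (hA.mir c b).Fl} :
    f ∈ hA.Asm c b j ↔ f ∈ hA.Cp c b (A.Fs Hs c j) ∧
      ∀ x ∈ (hA.mir c b).Bf c, f ((hA.mir c b).jj c x) = f x := by
  unfold Stg.Asm Stg.Cp
  rw [mem_orth_span, mem_orth_span]
  constructor
  · intro h
    refine ⟨fun y hy => h y (Or.inl hy), fun x hx => ?_⟩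
    have h1 := h _ (Or.inr ⟨x, hx, rfl⟩)
    rw [inner_sub_left, delta_inner, delta_inner] at h1
    linarith
  · rintro ⟨h1, h2⟩ y (hy | ⟨x, hx, rfl⟩)
    · exact h1 y hy
    · rw [inner_sub_left, delta_inner, delta_inner, h2 x hx, sub_self]

theorem Stg.mem_mZ (hA : Stg A Hs) {z' : L2 (hA.mir c b).Fl}
    (h : z' ∈ hA.Cp c b (A.Zc Hs c j)) (h0 : (hA.mir_stg c b).Ps c z' = 0) :
    z' ∈ (hA.mir c b).Z j := by
  rw [hA.mem_Cp] at h
  rw [Dat.mem_Z]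
  refine ⟨fun x hx => ?_, fun x s hs => ?_, fun x hx => ?_⟩
  · obtain ⟨x₀, h₀, e⟩ := hA.exists_emb x
    obtain ⟨z, hz⟩ := hA.exists_pull x.v.1 z'
    have h1 := (Dat.mem_Zc.mp (h _ z hz)).1 x₀ (by rw [e] at hx; exact hx)
    rw [hz.1 x₀ h₀, ← e] at h1
    exact h1
  · by_cases hc : A.col s = c
    · have h1 := (hA.mir_stg c b).jj_eq hs hc
      have hx : x ∈ (hA.mir c b).Bf c := ⟨s, hs, hc⟩
      have h2 := (hA.mir_stg c b).Ps_in z' hx
      rw [h0, h1] at h2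
      have h3 : (0 : ℝ) = z' x + z' ((hA.mir c b).mv s x) := h2
      linarith
    · obtain ⟨x₀, h₀, e⟩ := hA.exists_emb x
      obtain ⟨z, hz⟩ := hA.exists_pull x.v.1 z'
      have hs₀ : s ∈ x₀.σ := by rw [e] at hs; exact hs
      obtain ⟨h', e'⟩ := hA.emb_mv (w := x.v.1) (h := h₀) hs₀ hc
      have h1 := (Dat.mem_Zc.mp (h _ z hz)).2.1 x₀ s hs₀ hc
      rw [hz.1 x₀ h₀, hz.1 _ h', ← e', ← e] at h1
      exact h1
  · obtain ⟨x₀, h₀, e⟩ := hA.exists_emb x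
    obtain ⟨z, hz⟩ := hA.exists_pull x.v.1 z'
    have h1 := (Dat.mem_Zc.mp (h _ z hz)).2.2.1 x₀ (by rw [e] at hx; exact hx)
    rw [← h1, e, hA.emb_exs]
    refine Finset.sum_congr rfl fun t _ => ?_
    obtain ⟨h', e'⟩ := hA.emb_ins (w := x.v.1) (h := h₀) t
    rw [hA.emb_sg, hz.1 _ h', ← e']

theorem Stg.mPs_mem (hA : Stg A Hs) {z' : L2 (hA.mir c b).Fl}
    (h : z' ∈ hA.Cp c b (A.Zc Hs c j)) : (hA.mir_stg c b).Ps c z' ∈ hA.Asm c b j := by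
  rw [hA.mem_Asm, hA.mem_CpFs]
  refine ⟨⟨fun x hx => (hA.mir_stg c b).Ps_out z' hx, hA.OB_Ps fun w z hz y hy =>
    (Dat.mem_Zc.mp (hA.mem_Cp.mp h w z hz)).2.2.2 y hy⟩, fun x hx => ?_⟩
  rw [(hA.mir_stg c b).Ps_in z' hx, (hA.mir_stg c b).Ps_in z' (Dat.jj_Bf.mpr hx),
    (hA.mir_stg c b).jj_jj, add_comm]

theorem Stg.Asm_inv (hA : Stg A Hs) : Inv (hA.Gm c b) (hA.Asm c b j) := by
  intro g f hf
  rw [hA.mem_Asm] at hf ⊢
  refine ⟨hA.Cp_inv (hA.Fs_inv c j) g f hf.1, fun x hx => ?_⟩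
  rw [shift_apply, shift_apply, ← (hA.mir_stg c b).jj_smul]
  exact hf.2 _ ((Dat.Bf_smul (hA.mir c b) g⁻¹ x).mpr hx)

theorem Stg.tr_Asm (hA : Stg A Hs) (c j : ℕ) (b : V) :
    tr (hA.Gm c b) (hA.Asm c b j).starProjection =
      1 / 2 * tr (hA.Gm c b) (hA.Cp c b (A.Fs Hs c j)).starProjection := by
  refine tr_half (hA.mir_stg c b).fo (hA.Cp_inv (hA.Fs_inv c j)) ((hA.mir_stg c b).jjE c)
    (fun x => (hA.mir_stg c b).jj_jj x) (fun g x => (hA.mir_stg c b).jj_smul g x)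
    (fun f hf => ⟨(hA.mir_stg c b).J c f, ?_, fun x => (hA.mir_stg c b).J_apply f x⟩) ?_ ?_
  · rw [hA.mem_CpFs] at hf ⊢
    refine ⟨fun x hx => ?_, hA.OB_J hf.2⟩
    rw [(hA.mir_stg c b).J_apply]
    exact hf.1 _ fun h => hx (Dat.jj_Bf.mp h)
  · intro f
    rw [hA.mem_Asm]
    refine and_congr_right fun _ => ⟨fun h x => ?_, fun h x _ => h x⟩
    show f ((hA.mir c b).jj c x) = f x
    by_cases hx : x ∈ (hA.mir c b).Bf c
    · exact h x hx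
    · rw [Dat.jj_not hx]
  · intro x
    show ((hA.Cp c b (A.Fs Hs c j)).starProjection (delta x)) ((hA.mir c b).jj c x) = 0
    by_cases hx : x ∈ (hA.mir c b).Bf c
    · apply hA.Cp_far (hA.Fs_blk c j)
      obtain ⟨x₀, h₀, e⟩ := hA.exists_emb x
      have h1 : x₀ ∈ A.Bf c := by
        rw [e] at hx
        exact hA.emb_Bf.mp hx
      obtain ⟨a, ha⟩ := Dat.exists_Bl (Hs := Hs) h1
      obtain ⟨α, hα⟩ := AMir_letter h₀ ha
      rw [← hα] at ha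
      have h2 := hA.emb_jj (w := x.v.1) (h := h₀) ha
      rw [← e] at h2
      rw [h2]
      show x.v.1 * FW.of α ≠ x.v.1
      intro h3
      exact AMir_of α (mul_eq_left.mp h3)
    · have h1 : (hA.Cp c b (A.Fs Hs c j)).starProjection (delta x) = 0 := by
        refine (hA.Cp c b (A.Fs Hs c j)).eq_starProjection_of_mem_of_inner_eq_zero
          (hA.Cp c b (A.Fs Hs c j)).zero_mem ?_
        intro w hw
        rw [sub_zero, delta_inner]
        exact (hA.mem_CpFs.mp hw).1 x hx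
      rw [h1]
      rfl

theorem Stg.tr_mir (hA : Stg A Hs) (c j : ℕ) (b : V) :
    tr (hA.Gm c b) (hA.Cp c b (A.Zc Hs c j)).starProjection -
      1 / 2 * tr (hA.Gm c b) (hA.Cp c b (A.Fs Hs c j)).starProjection ≤
      tr (hA.Gm c b) ((hA.mir c b).Z j).starProjection := by
  have h := tr_rank_le (hA.mir_stg c b).fo (K := hA.Cp c b (A.Zc Hs c j))
    (K₀ := (hA.mir c b).Z j) (M := hA.Asm c b j) (hA.Cp_inv (hA.Zc_inv c j)) hA.Asm_inv
    (Ψ := (hA.mir_stg c b).Ps c) (hA.mir_stg c b).Ps_eqv (fun _ hx h0 => hA.mem_mZ hx h0)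
    (fun _ hx => hA.mPs_mem hx)
  rwa [hA.tr_Asm] at h

end SingerLG
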