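import Mathlib
import Pool.Agent.Lib_MP_394d50_lg.AInv

/-!
# Piece A6: the trace is the sum of the local traces over the orbits of the vertices

`coef_smul`: `shift_delta`, `hT`, `shift` is an isometry.
`loc_inv`: the bijection `σ ↦ g • σ` from the cubes at `v` to the cubes at `g • v` (`Dat.smul_sub`, `Dat.smul_Cl`, and `g⁻¹`),
`g • fl v σ = fl (g • v) (g • σ)`, `coef_smul`.
`tr_osum`: for a free action on `V` the map `(o, σ) ↦ ⟦fl o.out σ⟧` from `Σ o : Orb G V, {σ // σ ∈ A.cubes o.out}` to `Orb G A.Fl` is bijective: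
surjective: the flag `x` is in the orbit of `(o.out, g • x.σ)`, `o = ⟦x.v⟧`; injective: equal orbits give equal orbits of
the vertices, the same representative, and `g • o.out = o.out` gives `g = 1`. The summand
`⟨T δ_{o.out}, δ_{o.out}⟩` depends only on the orbit (`coef_smul`). `finsum_eq_sum_of_fintype`, `Finset.sum_sigma'`.
-/

namespace SingerLG

open SingerVS SingerCub
open scoped Pointwise

variable {G V S : Type} [Group G] [MulAction G V] [MulAction G S] [DecidableEq S]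
  {A : Dat G V S} {Hs : V → S → Set V} {c j : ℕ}

theorem coef_smul {H C : Type} [Group H] [MulAction H C] {T : L2 C →L[ℝ] L2 C} (hT : Eqv H T)
    (h : H) (x : C) :
    inner ℝ (T (delta (h • x))) (delta (h • x)) = inner ℝ (T (delta x)) (delta x) := by
  rw [← shift_delta, hT]
  exact (shift h).inner_map_map _ _

private theorem ATr_mem (A : Dat G V S) (g : G) {v : V} {σ : Finset S} (h : σ ∈ A.cubes v) :
    g • σ ∈ A.cubes (g • v) := by
  rw [Dat.mem_cubes] at h ⊢
  exact ⟨A.smul_sub g h.1, A.smul_Cl g h.2⟩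

private theorem ATr_mem' (A : Dat G V S) (g : G) {v : V} {σ : Finset S}
    (h : σ ∈ A.cubes (g • v)) : g⁻¹ • σ ∈ A.cubes v := by
  have h1 := ATr_mem A g⁻¹ h
  rwa [inv_smul_smul] at h1

/-- The local trace is invariant. -/
theorem Dat.loc_inv {T : L2 A.Fl →L[ℝ] L2 A.Fl} (hT : Eqv G T) (g : G) (v : V) :
    A.loc T (g • v) = A.loc T v := by
  unfold Dat.loc
  symm
  refine Finset.sum_bij' (fun σ _ => ⟨g • σ.1, ATr_mem A g σ.2⟩)
    (fun σ _ => ⟨g⁻¹ • σ.1, ATr_mem' A g σ.2⟩) (fun _ _ => Finset.mem_attach _ _)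
    (fun _ _ => Finset.mem_attach _ _) (fun σ _ => Subtype.ext (inv_smul_smul g σ.1))
    (fun σ _ => Subtype.ext (smul_inv_smul g σ.1)) ?_
  intro σ _
  have h1 : A.fl (g • v) (g • σ.1) (Dat.mem_cubes.mp (ATr_mem A g σ.2)) =
      g • A.fl v σ.1 (Dat.mem_cubes.mp σ.2) := Dat.Fl.ext rfl rfl
  rw [h1]
  exact (coef_smul hT g _).symm

private noncomputable def ATr_map (A : Dat G V S)
    (p : Σ o : Orb G V, {σ : Finset S // σ ∈ A.cubes o.out}) : Orb G A.Fl :=
  Quotient.mk _ (A.fl p.1.out p.2.1 (Dat.mem_cubes.mp p.2.2))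

private theorem ATr_bij (hA : Stg A Hs) : Function.Bijective (ATr_map A) := by
  constructor
  · rintro ⟨o, σ, hσ⟩ ⟨o', σ', hσ'⟩ e
    have e1 := Quotient.exact e
    obtain ⟨g, hg⟩ : ∃ g : G, g • A.fl o'.out σ' (Dat.mem_cubes.mp hσ') =
        A.fl o.out σ (Dat.mem_cubes.mp hσ) := MulAction.orbitRel_apply.mp e1
    have hv : g • o'.out = o.out := congrArg Dat.Fl.v hg
    have hs : g • σ' = σ := congrArg Dat.Fl.σ hg
    have ho : o = o' := by
      rw [← Quotient.out_eq o, ← Quotient.out_eq o']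
      exact Quotient.sound (MulAction.orbitRel_apply.mpr ⟨g, hv⟩)
    subst ho
    have hg1 := hA.free g _ hv
    subst hg1
    rw [one_smul] at hs
    subst hs
    rfl
  · intro o
    obtain ⟨h, o', e⟩ := exists_rep (H := G) (o.out.v)
    have hm : o.out.σ ∈ A.cubes (h • o'.out) := by
      rw [← e]
      exact Dat.mem_cubes.mpr o.out.2
    refine ⟨⟨o', h⁻¹ • o.out.σ, ATr_mem' A h hm⟩, ?_⟩
    have h2 : A.fl o'.out (h⁻¹ • o.out.σ) (Dat.mem_cubes.mp (ATr_mem' A h hm)) = h⁻¹ • o.out := by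
      refine Dat.Fl.ext ?_ rfl
      show o'.out = h⁻¹ • o.out.v
      rw [e, inv_smul_smul]
    show Quotient.mk _ (A.fl o'.out (h⁻¹ • o.out.σ) _) = o
    rw [h2]
    conv_rhs => rw [← Quotient.out_eq o]
    exact Quotient.sound (MulAction.orbitRel_apply.mpr ⟨h⁻¹, rfl⟩)

theorem Stg.tr_osum (hA : Stg A Hs) {T : L2 A.Fl →L[ℝ] L2 A.Fl} (hT : Eqv G T) :
    tr G T = osum G (A.loc T) := by
  have := hA.fin
  let _ : Fintype (Orb G V) := Fintype.ofFinite _
  have h1 : ∀ p : Σ o : Orb G V, {σ : Finset S // σ ∈ A.cubes o.out},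
      inner ℝ (T (delta (ATr_map A p).out)) (delta (ATr_map A p).out) =
        inner ℝ (T (delta (A.fl p.1.out p.2.1 (Dat.mem_cubes.mp p.2.2))))
          (delta (A.fl p.1.out p.2.1 (Dat.mem_cubes.mp p.2.2))) := by
    intro p
    have h2 : (MulAction.orbitRel G A.Fl) (ATr_map A p).out
        (A.fl p.1.out p.2.1 (Dat.mem_cubes.mp p.2.2)) :=
      Quotient.exact (Quotient.out_eq (ATr_map A p))
    obtain ⟨g, hg⟩ := MulAction.orbitRel_apply.mp h2
    have h3 : g • A.fl p.1.out p.2.1 (Dat.mem_cubes.mp p.2.2) = (ATr_map A p).out := hg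
    rw [← h3]
    exact coef_smul hT g _
  unfold tr osum
  rw [← finsum_comp (g := fun o : Orb G A.Fl => inner ℝ (T (delta o.out)) (delta o.out))
    (ATr_map A) (ATr_bij hA), finsum_congr h1, finsum_eq_sum_of_fintype,
    finsum_eq_sum_of_fintype, Fintype.sum_sigma]
  refine Finset.sum_congr rfl fun o _ => ?_
  unfold Dat.loc
  rfl

end SingerLG
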