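import Mathlib
import Pool.Agent.Lib_MP_394d50_lg.MStg
import Pool.Agent.Lib_MP_394d50_lg.ADefs
import Pool.Agent.Lib_MP_394d50_lg.ATr
import Pool.Agent.Lib_MP_394d50_lg.ACut
import Pool.Agent.Lib_MP_394d50_lg.AHalf
import Pool.Agent.Lib_MP_394d50_lg.AMir

/-!
# Sections 3 and 4: the trace formulas
-/

namespace SingerLG

open SingerVS SingerCub
open scoped Pointwise

variable {G V S : Type} [Group G] [MulAction G V] [MulAction G S] [DecidableEq S]
  {A : Dat G V S} {Hs : V → S → Set V}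

/-- The local trace is invariant. -/
theorem Dat.loc_smul {T : L2 A.Fl →L[ℝ] L2 A.Fl} (hT : Eqv G T) (g : G) (v : V) :
    A.loc T (g • v) = A.loc T v := Dat.loc_inv hT g v

theorem Stg.inv_Zc (hA : Stg A Hs) (c j : ℕ) : Eqv G (A.Zc Hs c j).starProjection :=
  (hA.Zc_inv c j).proj

theorem Stg.inv_Fs (hA : Stg A Hs) (c j : ℕ) : Eqv G (A.Fs Hs c j).starProjection :=
  (hA.Fs_inv c j).proj

theorem Dat.inv_Z (A : Dat G V S) (j : ℕ) : Eqv G (A.Z j).starProjection := (A.Z_inv j).proj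

/-- Section 3: cutting along the colour `c`. -/
theorem Stg.osum_half (hA : Stg A Hs) (c j : ℕ) :
    osum G (A.dz j) = osum G (A.loc (A.Zc Hs c j).starProjection) -
      1 / 2 * osum G (A.loc (A.Fs Hs c j).starProjection) := by
  rw [← hA.tr_osum (hA.inv_Zc c j), ← hA.tr_osum (hA.inv_Fs c j), ← hA.tr_As c j,
    ← hA.tr_cut c j, hA.tr_osum (A.inv_Z j)]
  rfl

/-- Section 4: the mirrored stage. -/
theorem Stg.osum_mir (hA : Stg A Hs) (c j : ℕ) (b : V) :
    osum (hA.Gm c b) (fun u : A.Vm Hs c b => A.loc (A.Zc Hs c j).starProjection u.2.1) -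
      1 / 2 * osum (hA.Gm c b) (fun u : A.Vm Hs c b => A.loc (A.Fs Hs c j).starProjection u.2.1) ≤
      osum (hA.Gm c b) ((hA.mir c b).dz j) := by
  have h1 := hA.tr_mir c j b
  rw [(hA.mir_stg c b).tr_osum (hA.Cp_inv (hA.Zc_inv c j)).proj,
    (hA.mir_stg c b).tr_osum (hA.Cp_inv (hA.Fs_inv c j)).proj,
    (hA.mir_stg c b).tr_osum ((hA.mir c b).inv_Z j)] at h1
  have h2 : (hA.mir c b).loc (hA.Cp c b (A.Zc Hs c j)).starProjection =
      fun u : A.Vm Hs c b => A.loc (A.Zc Hs c j).starProjection u.2.1 :=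
    funext fun u => hA.loc_Cp (hA.Zc_blk c j) u
  have h3 : (hA.mir c b).loc (hA.Cp c b (A.Fs Hs c j)).starProjection =
      fun u : A.Vm Hs c b => A.loc (A.Fs Hs c j).starProjection u.2.1 :=
    funext fun u => hA.loc_Cp (hA.Fs_blk c j) u
  rw [h2, h3] at h1
  exact h1

end SingerLG
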