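import Mathlib
import Pool.Agent.Lib_MP_394d50_lg.SDefs

/-!
# Cell complexes whose cells are the cubes of a stage

`cell x` is the cube of the flag `x = (v, σ)`, `ε x = ± 1` compares the orientation of the cube with the orientation
given by the vertex `v` and the order of the colours: a chain `c` corresponds to the function `z x = ε x * c (cell x)` on the
flags, and then `(bd z) x = ∑ t ∈ exs x, sg x t * z (ins t x) = ε x * (∂ c) (cell x)`.
-/

namespace SingerLG

open SingerVS SingerCub
open scoped Pointwise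

variable {G V S : Type} [Group G] [MulAction G V] [MulAction G S] [DecidableEq S]

open scoped Classical in
/-- `I` is the complex of the cubes of the stage `A`. -/
structure Flagd (A : Dat G V S) {C : Type} [MulAction G C] (I : CellCx C) (cell : A.Fl → C)
    (ε : A.Fl → ℝ) : Prop where
  dim : ∀ x, I.dim (cell x) = x.σ.card
  surj : ∀ c, ∃ x, cell x = c
  pm : ∀ x, ε x = 1 ∨ ε x = -1
  smul : ∀ (g : G) x, cell (g • x) = g • cell x
  mv : ∀ x, ∀ s ∈ x.σ, cell (A.mv s x) = cell x
  mv_ε : ∀ x, ∀ s ∈ x.σ, ε (A.mv s x) = - ε x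
  conn : ∀ x y, cell x = cell y →
    Relation.ReflTransGen (fun a b : A.Fl => ∃ s ∈ a.σ, b = A.mv s a) x y
  card : ∀ x, {y | cell y = cell x}.ncard = 2 ^ x.σ.card
  free : ∀ (g : G) (c : C), g • c = c → g = 1
  inc : ∀ x q, (I.inc (cell x) q : ℝ) =
    ∑ t ∈ A.exs x, if cell (A.ins t x) = q then A.sg x t * (ε x * ε (A.ins t x)) else 0

end SingerLG
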