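import Mathlib
import Pool.Agent.Lib_MP_394d50_lg.AInv
import Pool.Agent.Lib_MP_394d50_lg.AAbs
import Pool.Agent.Lib_MP_394d50_lg.RDefs

/-!
# Section 6: the axioms of a stage without half-spaces

`Pre A`: the part of the axioms which is needed for the chain complex.
-/

namespace SingerLG

open SingerVS SingerCub
open scoped Pointwise

/-- The axioms of a stage without the half-spaces. -/
structure Pre {G V S : Type} [Group G] [MulAction G V] [MulAction G S] (A : Dat G V S) :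
    Prop where
  cr_symm : ∀ s t, A.cr s t → A.cr t s
  cr_col : ∀ s t, A.cr s t → A.col s ≠ A.col t
  nb_mem : ∀ v, ∀ s ∈ A.D v, s ∈ A.D (A.nb s v)
  nb_nb : ∀ v, ∀ s ∈ A.D v, A.nb s (A.nb s v) = v
  nb_D : ∀ v, ∀ s ∈ A.D v, ∀ t ∈ A.D v, A.cr s t → t ∈ A.D (A.nb s v)
  comm : ∀ v, ∀ s ∈ A.D v, ∀ t ∈ A.D v, A.cr s t → A.nb s (A.nb t v) = A.nb t (A.nb s v)
  free : ∀ (g : G) (v : V), g • v = v → g = 1
  fin : Finite (Orb G V)

theorem Stg.pre {G V S : Type} [Group G] [MulAction G V] [MulAction G S] {A : Dat G V S}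
    {Hs : V → S → Set V} (hA : Stg A Hs) : Pre A where
  cr_symm := hA.cr_symm
  cr_col := hA.cr_col
  nb_mem := hA.nb_mem
  nb_nb := hA.nb_nb
  nb_D := hA.nb_D
  comm := hA.comm
  free := hA.free
  fin := hA.fin

variable {G V S : Type} [Group G] [MulAction G V] [MulAction G S] [DecidableEq S]
  {A : Dat G V S}

theorem Pre.σ_sub (hA : Pre A) {x : A.Fl} {s : S} (hs : s ∈ x.σ) :
    x.σ ⊆ A.D (A.nb s x.v) := by
  intro t ht
  by_cases h : s = t
  · subst h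
    exact hA.nb_mem _ s (x.2.1 hs)
  · exact hA.nb_D _ s (x.2.1 hs) t (x.2.1 ht) (x.2.2 s hs t ht h)

theorem Pre.mv_v (hA : Pre A) {x : A.Fl} {s : S} (hs : s ∈ x.σ) :
    (A.mv s x).v = A.nb s x.v := by
  unfold Dat.mv
  rw [dif_pos (hA.σ_sub hs)]
  rfl

theorem Pre.mv_mv (hA : Pre A) {x : A.Fl} {s : S} (hs : s ∈ x.σ) :
    A.mv s (A.mv s x) = x := by
  have h1 : s ∈ (A.mv s x).σ := by rw [Dat.mv_σ]; exact hs
  refine Dat.Fl.ext ?_ ?_
  · rw [hA.mv_v h1, hA.mv_v hs]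
    exact hA.nb_nb _ s (x.2.1 hs)
  · rw [Dat.mv_σ, Dat.mv_σ]

omit [DecidableEq S] in
theorem Pre.nb_D_iff (hA : Pre A) {v : V} {s t : S} (hs : s ∈ A.D v) (h : A.cr s t) :
    t ∈ A.D (A.nb s v) ↔ t ∈ A.D v := by
  constructor
  · intro ht
    have h1 := hA.nb_D (A.nb s v) s (hA.nb_mem v s hs) t ht h
    rwa [hA.nb_nb v s hs] at h1
  · intro ht
    exact hA.nb_D v s hs t ht h

theorem Pre.exs_mv (hA : Pre A) {x : A.Fl} {s : S} (hs : s ∈ x.σ) :
    A.exs (A.mv s x) = A.exs x := by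
  ext t
  rw [Dat.mem_exs, Dat.mem_exs, hA.mv_v hs, Dat.mv_σ]
  refine and_congr_left fun h => ?_
  have h1 : s ≠ t := by
    rintro rfl
    exact h.1 hs
  exact hA.nb_D_iff (x.2.1 hs)
    (h.2 s (Finset.mem_insert_of_mem hs) t (Finset.mem_insert_self _ _) h1)

theorem Pre.ins_mv (hA : Pre A) {x : A.Fl} {s t : S} (hs : s ∈ x.σ) (ht : t ∈ A.exs x) :
    A.ins t (A.mv s x) = A.mv s (A.ins t x) := by
  have h1 : s ∈ (A.ins t x).σ := by
    rw [Dat.ins_σ A ht]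
    exact Finset.mem_insert_of_mem hs
  have h2 : t ∈ A.exs (A.mv s x) := by
    rw [hA.exs_mv hs]
    exact ht
  refine Dat.Fl.ext ?_ ?_
  · rw [Dat.ins_v, hA.mv_v hs, hA.mv_v h1, Dat.ins_v]
  · rw [Dat.ins_σ A h2, Dat.mv_σ, Dat.mv_σ, Dat.ins_σ A ht]

/-- Enlarging twice. -/
theorem Dat.ins_ins {x : A.Fl} {t u : S} (ht : t ∈ A.exs x) (hu : u ∈ A.exs (A.ins t x)) :
    u ∈ A.exs x ∧ t ∈ A.exs (A.ins u x) ∧ A.ins t (A.ins u x) = A.ins u (A.ins t x) ∧ t ≠ u := by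
  have h1 := Dat.mem_exs.mp ht
  have h2 := Dat.mem_exs.mp hu
  rw [Dat.ins_v, Dat.ins_σ A ht] at h2
  have hne : t ≠ u := by
    rintro rfl
    exact h2.2.1 (Finset.mem_insert_self _ _)
  have h3 : u ∈ A.exs x := by
    rw [Dat.mem_exs]
    refine ⟨h2.1, fun h => h2.2.1 (Finset.mem_insert_of_mem h), fun a ha b hb hab => ?_⟩
    refine h2.2.2 a ?_ b ?_ hab
    · rcases Finset.mem_insert.mp ha with h | h
      · exact h ▸ Finset.mem_insert_self _ _
      · exact Finset.mem_insert_of_mem (Finset.mem_insert_of_mem h)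
    · rcases Finset.mem_insert.mp hb with h | h
      · exact h ▸ Finset.mem_insert_self _ _
      · exact Finset.mem_insert_of_mem (Finset.mem_insert_of_mem h)
  have h4 : t ∈ A.exs (A.ins u x) := by
    rw [Dat.mem_exs, Dat.ins_v, Dat.ins_σ A h3]
    refine ⟨h1.1, fun h => ?_, ?_⟩
    · rcases Finset.mem_insert.mp h with h | h
      · exact hne h
      · exact h1.2.1 h
    · rw [Finset.insert_comm]
      exact h2.2.2
  refine ⟨h3, h4, Dat.Fl.ext ?_ ?_, hne⟩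
  · simp only [Dat.ins_v]
  · rw [Dat.ins_σ A h4, Dat.ins_σ A h3, Dat.ins_σ A hu, Dat.ins_σ A ht, Finset.insert_comm]

theorem Dat.card_ins {x : A.Fl} {t : S} (ht : t ∈ A.exs x) :
    (A.ins t x).σ.card = x.σ.card + 1 := by
  rw [Dat.ins_σ A ht, Finset.card_insert_of_notMem (Dat.mem_exs.mp ht).2.1]

end SingerLG
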