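import Mathlib
import Pool.Agent.Lib_MP_394d50_lg.RPre
import Pool.Agent.Lib_MP_394d50_vs.LIdx

/-!
# Section 6: restriction of the group of a stage to a subgroup of finite index
-/

namespace SingerLG

open SingerVS SingerCub
open scoped Pointwise

section

variable {G V S : Type} [Group G] [MulAction G V] [MulAction G S]

/-- The restriction of the group to a subgroup. -/
def Dat.res (A : Dat G V S) (K : Subgroup G) : Dat K V S where
  D := A.D
  nb := A.nb
  cr := A.cr
  col := A.col
  smul_D g v s h := A.smul_D (g : G) v s h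
  smul_nb g s v := A.smul_nb (g : G) s v
  smul_cr g s t h := A.smul_cr (g : G) s t h
  smul_col g s := A.smul_col (g : G) s

variable {A : Dat G V S} {Hs : V → S → Set V}

theorem Pre.fin_res (hA : Pre A) (K : Subgroup G) [K.FiniteIndex] : Finite (Orb K V) :=
  (sum_orb_index K hA.free hA.fin (fun _ => (0 : ℝ)) fun _ _ => rfl).1

theorem Pre.res (hA : Pre A) (K : Subgroup G) [K.FiniteIndex] : Pre (A.res K) where
  cr_symm := hA.cr_symm
  cr_col := hA.cr_col
  nb_mem := hA.nb_mem
  nb_nb := hA.nb_nb
  nb_D := hA.nb_D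
  comm := hA.comm
  free g v h := Subtype.ext (hA.free (g : G) v h)
  fin := hA.fin_res K

theorem Stg.res (hA : Stg A Hs) (K : Subgroup G) [K.FiniteIndex] : Stg (A.res K) Hs where
  cr_symm := hA.cr_symm
  cr_col := hA.cr_col
  nb_mem := hA.nb_mem
  nb_nb := hA.nb_nb
  nb_D := hA.nb_D
  comm := hA.comm
  conn := hA.conn
  free g v h := Subtype.ext (hA.free (g : G) v h)
  fin := hA.pre.fin_res K
  mem := hA.mem
  opp := hA.opp
  par := hA.par
  crs := hA.crs
  sqr := hA.sqr
  smul g v s h u hu := hA.smul (g : G) v s h u hu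

/-- The sum over the orbits of a subgroup of finite index. -/
theorem Pre.osum_res (hA : Pre A) (K : Subgroup G) [K.FiniteIndex] (f : V → ℝ)
    (hf : ∀ (g : G) v, f (g • v) = f v) : osum K f = K.index * osum G f :=
  (sum_orb_index K hA.free hA.fin f hf).2

end

section

variable {G V S : Type} [Group G] [MulAction G V] [MulAction G S] [DecidableEq S]

theorem Dat.res_dz (A : Dat G V S) (K : Subgroup G) (j : ℕ) (v : V) :
    (A.res K).dz j v = A.dz j v := rfl

omit [DecidableEq S] in
theorem Dat.res_cN (A : Dat G V S) (K : Subgroup G) (j : ℕ) (v : V) :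
    (A.res K).cN j v = A.cN j v := rfl

omit [DecidableEq S] in
theorem Dat.res_wl (A : Dat G V S) (K : Subgroup G) (j : ℕ) (v : V) :
    (A.res K).wl j v = A.wl j v := rfl

end

end SingerLG
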