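import Mathlib
import Pool.Agent.Lib_MP_394d50_lg.DRes
import Pool.Agent.Lib_MP_394d50_lg.ADefs
import Pool.Agent.Lib_MP_394d50_lg.ATr

/-!
# Piece D1: the standard stage of a right-angled Coxeter group
-/

namespace SingerLG

open SingerVS SingerCub
open scoped Pointwise

section

variable {α : Type} [Fintype α] (L : SimpleGraph α) (f : α → ℕ)

theorem std_mem (v : SingerRA.W L) (s : Lab α) : s ∈ (std L f).D v := by
  show s ∈ (Finset.univ : Finset α).map _
  rw [Finset.mem_map]
  exact ⟨s.val, Finset.mem_univ _, rfl⟩

omit [Fintype α] in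
/-- The group acts transitively on the vertices. -/
theorem std_orb (o o' : Orb (SingerRA.W L) (SingerRA.W L)) : o = o' := by
  rw [← Quotient.out_eq o, ← Quotient.out_eq o']
  refine Quotient.sound (MulAction.orbitRel_apply.mpr ⟨o.out * o'.out⁻¹, ?_⟩)
  show o.out * o'.out⁻¹ * o'.out = o.out
  rw [inv_mul_cancel_right]

theorem std_pre (hf : ∀ s t, L.Adj s t → f s ≠ f t) : Pre (std L f) where
  cr_symm _ _ h := L.adj_symm h
  cr_col s t h := hf s.val t.val h
  nb_mem v s _ := std_mem L f _ s
  nb_nb v s _ := by
    show v * SingerRA.gen L s.val * SingerRA.gen L s.val = v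
    rw [mul_assoc, (SingerRA.cs L).simple_mul_simple_self, mul_one]
  nb_D v s _ t _ _ := std_mem L f _ t
  comm v s _ t _ h := by
    show v * SingerRA.gen L t.val * SingerRA.gen L s.val =
      v * SingerRA.gen L s.val * SingerRA.gen L t.val
    rw [mul_assoc, mul_assoc, SingerRA.comm_of_adj L s.val t.val h]
  free g v h := mul_eq_right.mp h
  fin := by
    have : Subsingleton (Orb (SingerRA.W L) (SingerRA.W L)) := ⟨std_orb L⟩
    exact Finite.of_subsingleton

omit [Fintype α] in
theorem std_osum (φ : SingerRA.W L → ℝ) (hφ : ∀ g v : SingerRA.W L, φ (g • v) = φ v) :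
    osum (SingerRA.W L) φ = φ 1 := by
  unfold osum
  have h : ∀ v : SingerRA.W L, φ v = φ 1 := by
    intro v
    have h1 := hφ v 1
    rwa [smul_eq_mul, mul_one] at h1
  rw [finsum_eq_single _ (Quotient.mk _ (1 : SingerRA.W L))]
  · exact h _
  · intro o ho
    exact absurd (std_orb L _ _) ho

end

section

variable {α : Type} [Fintype α] [DecidableEq α] (L : SimpleGraph α) (f : α → ℕ)

theorem std_dz_smul (j : ℕ) (g v : SingerRA.W L) :
    (std L f).dz j (g • v) = (std L f).dz j v :=
  Dat.loc_inv ((std L f).Z_inv j).proj g v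

theorem lab_surj : Function.Surjective (SingerRA.lab L) := by
  intro x
  have h1 : ∀ (s : Finset α), ∃ w : SingerRA.W L, SingerRA.lab L w =
      Multiplicative.ofAdd (fun v => if v ∈ s then x.toAdd v else 0) := by
    intro s
    induction s using Finset.induction_on with
    | empty =>
      refine ⟨1, ?_⟩
      rw [map_one]
      rfl
    | insert a s ha ih =>
      obtain ⟨w, hw⟩ := ih
      by_cases h0 : x.toAdd a = 0
      · refine ⟨w, ?_⟩
        rw [hw]
        congr 1
        funext v
        by_cases hv : v = a
        · subst hv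
          rw [if_neg ha, if_pos (Finset.mem_insert_self _ _), h0]
        · simp only [Finset.mem_insert, hv, false_or]
      · refine ⟨w * SingerRA.gen L a, ?_⟩
        rw [map_mul, hw, SingerRA.lab_gen]
        have h3 : x.toAdd a = 1 := by
          have : ∀ y : ZMod 2, y ≠ 0 → y = 1 := by decide
          exact this _ h0
        show Multiplicative.ofAdd _ = _
        congr 1
        funext v
        show (if v ∈ s then x.toAdd v else 0) + (Pi.single a 1 : α → ZMod 2) v = _
        by_cases hv : v = a
        · subst hv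
          rw [if_neg ha, if_pos (Finset.mem_insert_self _ _), h3, Pi.single_eq_same, zero_add]
        · rw [Pi.single_eq_of_ne hv, add_zero]
          simp only [Finset.mem_insert, hv, false_or]
  obtain ⟨w, hw⟩ := h1 Finset.univ
  refine ⟨w, ?_⟩
  rw [hw]
  simp only [Finset.mem_univ, if_true]
  rfl

theorem gam_index : (SingerRA.Gam L).index = 2 ^ Fintype.card α := by
  unfold SingerRA.Gam
  rw [Subgroup.index_ker, MonoidHom.range_eq_top.mpr (lab_surj L)]
  rw [Subgroup.card_top, Nat.card_eq_fintype_card]
  rw [Fintype.card_multiplicative, Fintype.card_fun, ZMod.card]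

instance gam_fin : (SingerRA.Gam L).FiniteIndex :=
  ⟨by rw [gam_index]; exact pow_ne_zero _ two_ne_zero⟩

end

end SingerLG
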