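import Mathlib
import Pool.Agent.Lib_MP_394d50_lg.DPre
import Pool.Agent.Lib_MP_394d50_gt.BBetti
import Pool.Agent.Lib_MP_394d50_vs.LSim

/-!
# Section 6: the cubes of the Davis complex are the cells of the standard stage

The cell of the flag `(w, σ)` is `(σ, w * g)`, `g` the element of `W_σ` for which the labels of `w * g` vanish on `σ`
(`SingerRA.BB.nf`). The sign is `(-1) ^ #{s ∈ σ | lab w s ≠ 0}` times the sign between the order of `α` and the order of
the colours.
-/

namespace SingerLG

open SingerVS SingerCub SingerRA.BB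
open scoped Pointwise

variable {α : Type} [Fintype α] [LinearOrder α] (L : SimpleGraph α) (f : α → ℕ)

/-- The standard stage with the deck group. -/
noncomputable abbrev dst : Dat (SingerRA.Gam L) (SingerRA.W L) (Lab α) :=
  (std L f).res (SingerRA.Gam L)

/-- The Davis complex as a cell complex. -/
noncomputable def dcx : CellCx (SingerRA.davis L).Cubes where
  dim := (SingerRA.davis L).dim
  inc := (SingerRA.davis L).inc

/-- Forget the labels. -/
def unl (σ : Finset (Lab α)) : Finset α := σ.image Lab.val

variable {L f}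

omit [Fintype α] in
theorem mem_unl {σ : Finset (Lab α)} {s : α} : s ∈ unl σ ↔ (⟨s⟩ : Lab α) ∈ σ := by
  unfold unl
  rw [Finset.mem_image]
  constructor
  · rintro ⟨t, ht, rfl⟩
    exact ht
  · intro h
    exact ⟨_, h, rfl⟩

omit [Fintype α] in
theorem unl_inj {σ τ : Finset (Lab α)} (h : unl σ = unl τ) : σ = τ := by
  ext ⟨s⟩
  rw [← mem_unl, ← mem_unl, h]

omit [Fintype α] in
theorem card_unl (σ : Finset (Lab α)) : (unl σ).card = σ.card := by
  unfold unl
  refine Finset.card_image_of_injective _ ?_
  rintro ⟨s⟩ ⟨t⟩ h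
  exact congrArg Lab.mk h

omit [Fintype α] in
theorem unl_insert (t : α) (σ : Finset (Lab α)) : unl (insert ⟨t⟩ σ) = insert t (unl σ) := by
  unfold unl
  rw [Finset.image_insert]

theorem unl_clique (x : (dst L f).Fl) : L.IsClique (unl x.σ : Set α) := by
  intro s hs t ht hst
  rw [Finset.mem_coe, mem_unl] at hs ht
  exact x.2.2 _ hs _ ht fun h => hst (congrArg Lab.val h)

variable (L f) in
/-- The cube of a flag. -/
noncomputable def dcell (x : (dst L f).Fl) : (SingerRA.davis L).Cubes :=
  ⟨(unl x.σ, nf (SingerRA.davis L) (unl x.σ) x.v),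
    unl_clique x, fun v hv => nf_lab (SingerRA.davis L) (unl x.σ) x.v v hv⟩

/-- The label of `w` at `s`. -/
noncomputable def lb (w : SingerRA.W L) (s : α) : ZMod 2 := (SingerRA.lab L w).toAdd s

open scoped Classical in
variable (L f) in
/-- The sign of a flag. -/
noncomputable def deps (x : (dst L f).Fl) : ℝ :=
  (-1) ^ ((unl x.σ).filter fun s => lb x.v s ≠ 0).card *
    ((sgnN (fun a b : α => a < b) (fun a b : α => f a < f b) (unl x.σ) : ℤ) : ℝ)

omit [Fintype α] in
theorem lb_mul_gen (w : SingerRA.W L) (s t : α) :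
    lb (w * SingerRA.gen L s) t = lb w t + if t = s then 1 else 0 :=
  lab_mul_a (SingerRA.davis L) w s t

omit [Fintype α] [LinearOrder α] in
theorem lb_gam (g : SingerRA.Gam L) (w : SingerRA.W L) (s : α) :
    lb ((g : SingerRA.W L) * w) s = lb w s := by
  have h1 : SingerRA.lab L (g : SingerRA.W L) = 1 := g.2
  unfold lb
  rw [map_mul, h1, one_mul]

theorem zmod2_ne {a b : ZMod 2} : a ≠ b ↔ a = b + 1 := by
  revert a b
  decide

end SingerLG
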