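import Mathlib
import Pool.Agent.Lib_MP_394d50_lg.DCell

/-!
# Piece D2: the flags of a cube of the Davis complex

`M = SingerRA.davis L`, `nf`, `nf_mem`, `nf_unique`, `nf_self`, `nf_lab`, `unique_nf`, `cl`, `exists_nf`, `cl_insert`, `comm_cl` are in
`Lib_MP_394d50_gt/BBetti.lean`. For `s ∈ x.σ`: `(mv s x).v = x.v * gen L s.val` (`Pre.mv_v` for `(std_pre L f hf).res _`), `(mv s x).σ = x.σ`.
`dconn`: `dcell x = dcell y` gives `unl x.σ = unl y.σ`, so `x.σ = y.σ =: σ` (`unl_inj`), and `nf x.v = nf y.v`, so `y.v = x.v * g` with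
`g ∈ cl M (unl σ)` (`nf_mem` twice). Show for all `g ∈ cl M (unl σ)` and all flags `x` with `x.σ = σ` that `x` is connected to the flag
`(x.v * g, σ)`: `Subgroup.closure_induction_right` or: every `g ∈ cl M (unl σ)` is a product of generators (`Subgroup.closure_induction` with the
statement for all `x`; the generators are their own inverses: for `inv` use that the relation is symmetric: `Pre.mv_mv`).
`dcard`: the map `y ↦ {s ∈ unl x.σ | lb y.v s ≠ 0}` is a bijection from `{y | dcell y = dcell x}` to the subsets of `unl x.σ`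
(`Finset.card_powerset`, `card_unl`, `Set.ncard_congr` or `Set.ncard_eq_of_bijective`). Injective: `y.v = x.v * g`, `y'.v = x.v * g'` with `g, g' ∈ cl M (unl σ)`, and
`g⁻¹ * g'` has vanishing labels on `unl σ`, so it is `1` (`unique_nf`). Surjective: for a subset `ρ` induction on `ρ` (multiply with
`gen L s`: changes the label at `s` only, `lb_mul_gen`; `zmod2_ne`), starting with `(nf x.v, σ)`.
-/

namespace SingerLG

open SingerVS SingerCub SingerRA.BB
open scoped Pointwise

variable {α : Type} [Fintype α] [LinearOrder α] {L : SimpleGraph α} {f : α → ℕ}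

/-- The flag `(w, σ)`. -/
private noncomputable def dflag {σ : Finset (Lab α)} (w : SingerRA.W L)
    (h : (dst L f).Cl σ) : (dst L f).Fl :=
  (dst L f).fl w σ ⟨fun s _ => std_mem L f w s, h⟩

private theorem dcell_eq {x y : (dst L f).Fl} (h : dcell L f x = dcell L f y) :
    x.σ = y.σ ∧ nf (SingerRA.davis L) (unl x.σ) x.v = nf (SingerRA.davis L) (unl x.σ) y.v := by
  have h1 : (unl x.σ, nf (SingerRA.davis L) (unl x.σ) x.v) =
      (unl y.σ, nf (SingerRA.davis L) (unl y.σ) y.v) := congrArg Subtype.val h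
  have h2 : x.σ = y.σ := unl_inj (congrArg Prod.fst h1)
  refine ⟨h2, ?_⟩
  have h3 := congrArg Prod.snd h1
  dsimp only at h3
  rw [h3, h2]

omit [Fintype α] in
private theorem exists_cl {σ : Finset α} {v w : SingerRA.W L}
    (h : nf (SingerRA.davis L) σ v = nf (SingerRA.davis L) σ w) :
    ∃ g ∈ cl (SingerRA.davis L) σ, w = v * g := by
  obtain ⟨g, hg, h1⟩ := nf_mem (SingerRA.davis L) σ v
  obtain ⟨g', hg', h2⟩ := nf_mem (SingerRA.davis L) σ w
  refine ⟨g * g'⁻¹, Subgroup.mul_mem _ hg (Subgroup.inv_mem _ hg'), ?_⟩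
  have h3 : v * g = w * g' := by rw [← h1, ← h2, h]
  rw [← mul_assoc, h3, mul_inv_cancel_right]

private theorem dconn_aux (hf : ∀ s t, L.Adj s t → f s ≠ f t) (σ : Finset (Lab α))
    (hσ : (dst L f).Cl σ) (g : SingerRA.W L) (hg : g ∈ cl (SingerRA.davis L) (unl σ)) :
    ∀ x y : (dst L f).Fl, x.σ = σ → y.σ = σ → y.v = x.v * g →
      Relation.ReflTransGen (fun a b : (dst L f).Fl => ∃ s ∈ a.σ, b = (dst L f).mv s a) x y := by
  have hpre : Pre (dst L f) := (std_pre L f hf).res _
  induction hg using Subgroup.closure_induction with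
  | mem g hg =>
    obtain ⟨v, hv, rfl⟩ := hg
    intro x y hx hy hxy
    have hs : (⟨v⟩ : Lab α) ∈ x.σ := by
      rw [hx]
      exact mem_unl.1 hv
    refine Relation.ReflTransGen.single ⟨⟨v⟩, hs, ?_⟩
    refine Dat.Fl.ext ?_ ?_
    · rw [hpre.mv_v hs]
      exact hxy
    · rw [Dat.mv_σ, hx, hy]
  | one =>
    intro x y hx hy hxy
    have : y = x := Dat.Fl.ext (by rw [hxy, mul_one]) (by rw [hx, hy])
    rw [this]
  | mul g h _ _ ihg ihh =>
    intro x y hx hy hxy
    refine (ihg x (dflag (x.v * g) hσ) hx rfl rfl).trans (ihh _ y rfl hy ?_)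
    rw [hxy, ← mul_assoc]
    rfl
  | inv g _ ih =>
    intro x y hx hy hxy
    have h1 : x.v = y.v * g := by rw [hxy, inv_mul_cancel_right]
    have hsymm : Std.Symm (fun a b : (dst L f).Fl => ∃ s ∈ a.σ, b = (dst L f).mv s a) := by
      refine ⟨?_⟩
      rintro a b ⟨s, hs, rfl⟩
      exact ⟨s, by rw [Dat.mv_σ]; exact hs, (hpre.mv_mv hs).symm⟩
    exact Relation.ReflTransGen.stdSymm.symm _ _ (ih y x hy hx h1)

theorem dconn (hf : ∀ s t, L.Adj s t → f s ≠ f t) (x y : (dst L f).Fl)
    (h : dcell L f x = dcell L f y) :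
    Relation.ReflTransGen (fun a b : (dst L f).Fl => ∃ s ∈ a.σ, b = (dst L f).mv s a) x y := by
  obtain ⟨h1, h2⟩ := dcell_eq h
  obtain ⟨g, hg, h3⟩ := exists_cl h2
  exact dconn_aux hf x.σ x.2.2 g hg x y rfl h1.symm h3

omit [Fintype α] in
/-- All label patterns on `σ` occur. -/
private theorem exists_pattern {τ : Finset α} {n : SingerRA.W L} (hn : ∀ s ∈ τ, lb n s = 0)
    (ρ : Finset α) : ρ ⊆ τ → ∃ g ∈ cl (SingerRA.davis L) τ,
      ∀ s ∈ τ, lb (n * g) s = if s ∈ ρ then 1 else 0 := by
  induction ρ using Finset.induction_on with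
  | empty =>
    intro _
    refine ⟨1, Subgroup.one_mem _, fun s hs => ?_⟩
    rw [mul_one, hn s hs, if_neg (Finset.notMem_empty s)]
  | insert t ρ ht ih =>
    intro hρ
    obtain ⟨g, hg, h⟩ := ih ((Finset.subset_insert t ρ).trans hρ)
    have htτ : t ∈ τ := hρ (Finset.mem_insert_self t ρ)
    refine ⟨g * SingerRA.gen L t,
      Subgroup.mul_mem _ hg (a_mem_cl (SingerRA.davis L) τ t htτ), fun s hs => ?_⟩
    rw [← mul_assoc, lb_mul_gen, h s hs]
    by_cases hst : s = t
    · subst hst
      rw [if_neg ht, if_pos rfl, if_pos (Finset.mem_insert_self _ _), zero_add]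
    · rw [if_neg hst, add_zero]
      by_cases hsρ : s ∈ ρ
      · rw [if_pos hsρ, if_pos (Finset.mem_insert_of_mem hsρ)]
      · rw [if_neg hsρ, if_neg]
        intro h'
        rcases Finset.mem_insert.mp h' with h' | h'
        · exact hst h'
        · exact hsρ h'

theorem dcard (hf : ∀ s t, L.Adj s t → f s ≠ f t) (x : (dst L f).Fl) :
    {y | dcell L f y = dcell L f x}.ncard = 2 ^ x.σ.card := by
  classical
  set τ : Finset α := unl x.σ with hτ
  have hcl : L.IsClique (τ : Set α) := unl_clique x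
  set n : SingerRA.W L := nf (SingerRA.davis L) τ x.v with hnd
  have hn : ∀ s ∈ τ, lb n s = 0 := fun s hs => nf_lab (SingerRA.davis L) τ x.v s hs
  have hbij : (fun y : (dst L f).Fl => τ.filter fun s => lb y.v s ≠ 0) ''
      {y | dcell L f y = dcell L f x} = (↑(τ.powerset) : Set (Finset α)) := by
    ext ρ
    rw [Finset.mem_coe, Finset.mem_powerset]
    constructor
    · rintro ⟨y, -, rfl⟩
      exact Finset.filter_subset _ _
    · intro hρ
      obtain ⟨g, hg, h⟩ := exists_pattern hn ρ hρ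
      refine ⟨dflag (n * g) x.2.2, ?_, ?_⟩
      · show dcell L f _ = dcell L f x
        refine Subtype.ext (Prod.ext rfl ?_)
        show nf (SingerRA.davis L) τ (n * g) = n
        refine nf_unique (SingerRA.davis L) τ hcl _ _
          ⟨g⁻¹, Subgroup.inv_mem _ hg, (mul_inv_cancel_right _ _).symm⟩ ?_
        exact fun v hv => hn v hv
      · show τ.filter (fun s => lb (n * g) s ≠ 0) = ρ
        ext s
        rw [Finset.mem_filter]
        constructor
        · rintro ⟨hs, h1⟩
          rw [h s hs] at h1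
          by_contra hsρ
          rw [if_neg hsρ] at h1
          exact h1 rfl
        · intro hs
          refine ⟨hρ hs, ?_⟩
          rw [h s (hρ hs), if_pos hs]
          exact one_ne_zero
  have hinj : Set.InjOn (fun y : (dst L f).Fl => τ.filter fun s => lb y.v s ≠ 0)
      {y | dcell L f y = dcell L f x} := by
    intro y hy z hz hyz
    obtain ⟨h1, h2⟩ := dcell_eq (Eq.trans hy (Eq.symm hz))
    obtain ⟨h3, -⟩ := dcell_eq hy
    obtain ⟨g, hg, h4⟩ := exists_cl h2
    have hτy : unl y.σ = τ := by rw [h3]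
    rw [hτy] at hg
    have h5 : g = 1 := by
      refine unique_nf (SingerRA.davis L) τ hcl g hg fun s hs => ?_
      have h6 : lb z.v s = lb y.v s + (SingerRA.lab L g).toAdd s := by
        rw [h4]
        unfold lb
        rw [map_mul]
        rfl
      have h7 : lb y.v s ≠ 0 ↔ lb z.v s ≠ 0 := by
        have h8 := Finset.ext_iff.1 hyz s
        dsimp only at h8
        rw [Finset.mem_filter, Finset.mem_filter] at h8
        exact ⟨fun h => (h8.1 ⟨hs, h⟩).2, fun h => (h8.2 ⟨hs, h⟩).2⟩
      have h9 : ∀ a b c : ZMod 2, b = a + c → (a ≠ 0 ↔ b ≠ 0) → c = 0 := by decide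
      exact h9 _ _ _ h6 h7
    refine Dat.Fl.ext ?_ h1
    rw [h4, h5, mul_one]
  rw [← hinj.ncard_image, hbij, Set.ncard_coe_finset, Finset.card_powerset, hτ,
    card_unl]

end SingerLG
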