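import Mathlib
import Pool.Agent.Lib_MP_394d50_lg.DCell

/-!
# Piece D3: the incidence numbers

Let `x = (w, τ)` a flag, `t ∈ exs x`, `T = unl τ`, `t' = t.val ∉ T`, `y₀ = nf T w`. The flag `ins t x = (w, insert t τ)` has the cell
`(insert t' T, y₁)`, `y₁ = nf (insert t' T) w`. `ic1`: if `lb w t' = 0` then `lb y₀ t' = 0` (`lab_cl`, `nf_mem`: `y₀ = w * g`,
`g ∈ cl T`, `t' ∉ T`), so `y₁ = y₀` (`nf_unique`, `cl_mono`); if `lb w t' ≠ 0` then `y₁ = y₀ * gen t'` (`a_mem_cl`; its labels on `T` are those of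
`y₀` (`lb_mul_gen`), the label at `t'` is `1 + 1 = 0`).
`inc` of `p = (T, y₀)` and `q = (σ, y)` is a sum over `v ∈ σ` of `orn σ v * ([p = (σ.erase v, y)] - [p = (σ.erase v, y * gen v)])`.
`ic2`: for `q = dcell (ins t x)`: only `v = t'` contributes (`(insert t' T).erase v = T` iff `v = t'`), the value is `orn (insert t' T) t'` if
`lb w t' = 0` (then `y = y₀`, and `y * gen t' ≠ y₀`), and `- orn (insert t' T) t'` otherwise (`y₀ * gen t' * gen t' = y₀`).
`ic3` (signs): `(-1) ^ [lb w t' ≠ 0] * orn (insert t' T) t' = sg x t * (deps x * deps (ins t x))`: `sg x t = (-1) ^ #{s ∈ T | f s < f t'}`,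
`orn (insert t' T) t' = (-1) ^ #{s ∈ T | s < t'}` (`posR` of `Lib_MP_394d50_vs/LSim.lean`; `posR r (insert t' T) t' = posR r T t'`, `posR_erase`),
`invN_erase` for `r = (<)`, `r' = (f · < f ·)`, `τ = insert t' T`, `v = t'`: `posR r τ v + posR r' τ v + invN τ = 2 m + invN (τ.erase v)`; `TotOn` for `r'`: the values of
`f` on the clique are distinct (`hf`, `unl_clique`). The filter of `insert t' T` has one more element if `lb w t' ≠ 0`, else the same number.
`dinc`: if `inc (dcell x) q ≠ 0` then `q = dcell (ins t x)` for a `t ∈ exs x`: `q = (σ, y)`, `v ∈ σ`, `σ.erase v = T`, and `y = y₀` or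
`y * gen v = y₀`; `t = ⟨v⟩`, `insert t' T = σ` is a clique (`q` is a cube), so `t ∈ exs x` (`std_mem`); `y = nf (insert v T) w` by `nf_unique` (the labels of `y` vanish on `σ`).
The cells of the `ins t x`, `t ∈ exs x`, are different for different `t` (`insert t' T`), so the sum on the right side of `dinc` has at
most one non-zero term (`Finset.sum_eq_single`).
-/

namespace SingerLG

open SingerVS SingerCub SingerRA.BB
open scoped Pointwise

variable {α : Type} [Fintype α] [LinearOrder α] {L : SimpleGraph α} {f : α → ℕ}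

omit [Fintype α] in
/-- The labels of the normal form outside of the clique. -/
theorem lab_nf (T : Finset α) (w : SingerRA.W L) {u : α} (hu : u ∉ T) :
    ((SingerRA.davis L).lab (nf (SingerRA.davis L) T w)).toAdd u = lb w u := by
  obtain ⟨g, hg, h⟩ := nf_mem (SingerRA.davis L) T w
  rw [h, map_mul, toAdd_mul, Pi.add_apply, lab_cl (SingerRA.davis L) T g hg u hu, add_zero]
  rfl

omit [Fintype α] in
theorem nf_ins0 (T : Finset α) (w : SingerRA.W L) {v : α} (hv : v ∉ T)
    (hc : L.IsClique ((insert v T : Finset α) : Set α)) (h0 : lb w v = 0) :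
    nf (SingerRA.davis L) (insert v T) w = nf (SingerRA.davis L) T w := by
  obtain ⟨g, hg, h⟩ := nf_mem (SingerRA.davis L) T w
  refine nf_unique (SingerRA.davis L) _ hc _ _
    ⟨g, cl_mono _ _ _ (Finset.subset_insert v T) hg, h⟩ fun u hu => ?_
  by_cases h1 : u ∈ T
  · exact nf_lab (SingerRA.davis L) T w u h1
  · rcases Finset.mem_insert.mp hu with rfl | h2
    · rw [lab_nf T w h1, h0]
    · exact absurd h2 h1

omit [Fintype α] in
theorem nf_ins1 (T : Finset α) (w : SingerRA.W L) {v : α} (hv : v ∉ T)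
    (hc : L.IsClique ((insert v T : Finset α) : Set α)) (h0 : lb w v ≠ 0) :
    nf (SingerRA.davis L) (insert v T) w =
      nf (SingerRA.davis L) T w * (SingerRA.davis L).a v := by
  obtain ⟨g, hg, h⟩ := nf_mem (SingerRA.davis L) T w
  have h1 : lb w v = 1 := SingerRA.bb_zmod _ h0
  refine nf_unique (SingerRA.davis L) _ hc _ _
    ⟨g * (SingerRA.davis L).a v, Subgroup.mul_mem _
      (cl_mono _ _ _ (Finset.subset_insert v T) hg)
      (a_mem_cl _ _ v (Finset.mem_insert_self v T)), ?_⟩ fun u hu => ?_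
  · rw [h, mul_assoc]
  · rw [lab_mul_a]
    by_cases h2 : u ∈ T
    · rw [nf_lab (SingerRA.davis L) T w u h2, if_neg, add_zero]
      rintro rfl
      exact hv h2
    · rcases Finset.mem_insert.mp hu with rfl | h3
      · rw [lab_nf T w h2, h1, if_pos rfl]
        decide
      · exact absurd h3 h2

/-- The exits. -/
theorem dexs {x : (dst L f).Fl} {t : Lab α} (ht : t ∈ (dst L f).exs x) :
    t.val ∉ unl x.σ ∧ L.IsClique ((insert t.val (unl x.σ) : Finset α) : Set α) ∧
      unl ((dst L f).ins t x).σ = insert t.val (unl x.σ) := by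
  have h1 := Dat.mem_exs.mp ht
  have h2 : unl ((dst L f).ins t x).σ = insert t.val (unl x.σ) := by
    rw [Dat.ins_σ (dst L f) ht]
    exact unl_insert t.val x.σ
  refine ⟨fun h => h1.2.1 (mem_unl.mp h), ?_, h2⟩
  rw [← h2]
  exact unl_clique _

/-- The incidence number of a flag and a larger flag. -/
theorem dinc_ins {x : (dst L f).Fl} {t : Lab α} (ht : t ∈ (dst L f).exs x) :
    (SingerRA.davis L).inc (dcell L f x) (dcell L f ((dst L f).ins t x)) =
      SingerRA.orn (insert t.val (unl x.σ)) t.val * (if lb x.v t.val = 0 then 1 else -1) := by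
  classical
  obtain ⟨h1, h2, h3⟩ := dexs ht
  have h4 : (dcell L f ((dst L f).ins t x)).1.1 = insert t.val (unl x.σ) := h3
  have h5 : (dcell L f ((dst L f).ins t x)).1.2 =
      nf (SingerRA.davis L) (insert t.val (unl x.σ)) x.v := by
    show nf (SingerRA.davis L) (unl ((dst L f).ins t x).σ) ((dst L f).ins t x).v = _
    rw [h3, Dat.ins_v]
  have h6 : (dcell L f x).1.2 = nf (SingerRA.davis L) (unl x.σ) x.v := rfl
  have hne : ∀ y : SingerRA.W L, ¬ y = y * (SingerRA.davis L).a t.val := by
    intro y h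
    have h7 := lab_mul_a (SingerRA.davis L) y t.val t.val
    rw [← h, if_pos rfl] at h7
    generalize ((SingerRA.davis L).lab y).toAdd t.val = e at h7
    revert h7
    revert e
    decide
  rw [SingerRA.bb_inc_of (SingerRA.davis L) (dcell L f x) (dcell L f ((dst L f).ins t x)) t.val
    h1 h4, h4, h5, h6]
  by_cases h0 : lb x.v t.val = 0
  · rw [nf_ins0 _ _ h1 h2 h0, if_pos rfl, if_neg (hne _), if_pos h0, sub_zero]
  · rw [nf_ins1 _ _ h1 h2 h0, if_neg (hne _), if_neg h0, mul_assoc, (SingerRA.davis L).sq,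
      mul_one, if_pos rfl, zero_sub]

omit [Fintype α] in
/-- The orders on a clique. -/
theorem tot_lt (T : Finset α) : TotOn (fun a b : α => a < b) T := by
  refine ⟨fun x _ => lt_irrefl x, fun x _ y _ h => ?_⟩
  constructor
  · exact fun h1 h2 => lt_asymm h1 h2
  · intro h1
    exact lt_of_le_of_ne (not_lt.mp h1) h

omit [Fintype α] [LinearOrder α] in
theorem tot_col (hf : ∀ s t, L.Adj s t → f s ≠ f t) {T : Finset α}
    (hT : L.IsClique (T : Set α)) : TotOn (fun a b : α => f a < f b) T := by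
  refine ⟨fun x _ => lt_irrefl _, fun x hx y hy h => ?_⟩
  have h2 := hf x y (hT hx hy h)
  constructor
  · exact fun h1 h3 => lt_asymm h1 h3
  · intro h1
    exact lt_of_le_of_ne (not_lt.mp h1) h2

omit [Fintype α] in
theorem posR_ins {r : α → α → Prop} {T : Finset α} {v : α} (h : ¬ r v v) :
    posR r (insert v T) v = posR r T v := by
  classical
  unfold posR
  rw [Finset.filter_insert, if_neg h]

omit [Fintype α] in
theorem orn_posR (T : Finset α) (v : α) :
    SingerRA.orn T v = (-1 : ℤ) ^ posR (fun a b : α => a < b) T v := by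
  unfold SingerRA.orn posR
  congr 2
  ext u
  simp only [Finset.mem_filter]

/-- The sign of a direction. -/
theorem sg_posR (x : (dst L f).Fl) (t : Lab α) :
    (dst L f).sg x t = (-1 : ℝ) ^ posR (fun a b : α => f a < f b) (unl x.σ) t.val := by
  classical
  unfold Dat.sg posR
  congr 1
  refine Finset.card_bij (fun s _ => s.val) ?_ ?_ ?_
  · intro s hs
    simp only [Finset.mem_filter] at hs ⊢
    exact ⟨mem_unl.mpr hs.1, hs.2⟩
  · rintro ⟨s⟩ _ ⟨s'⟩ _ h
    exact congrArg Lab.mk h
  · intro s hs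
    simp only [Finset.mem_filter] at hs
    refine ⟨⟨s⟩, ?_, rfl⟩
    simp only [Finset.mem_filter]
    exact ⟨mem_unl.mp hs.1, hs.2⟩

open scoped Classical in
/-- The signs. -/
theorem dsign (hf : ∀ s t, L.Adj s t → f s ≠ f t) {x : (dst L f).Fl} {t : Lab α}
    (ht : t ∈ (dst L f).exs x) :
    (dst L f).sg x t * (deps L f x * deps L f ((dst L f).ins t x)) =
      ((SingerRA.orn (insert t.val (unl x.σ)) t.val * (if lb x.v t.val = 0 then 1 else -1) : ℤ) :
        ℝ) := by
  obtain ⟨h1, h2, h3⟩ := dexs ht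
  rw [sg_posR, orn_posR]
  unfold deps sgnN
  rw [h3, Dat.ins_v]
  obtain ⟨m, hm⟩ := invN_erase (tot_lt (insert t.val (unl x.σ))) (tot_col hf h2)
    (Finset.mem_insert_self t.val (unl x.σ))
  rw [posR_ins (r := fun a b : α => f a < f b) (lt_irrefl _), Finset.erase_insert h1] at hm
  have h4 : ((insert t.val (unl x.σ)).filter fun s => lb x.v s ≠ 0).card =
      ((unl x.σ).filter fun s => lb x.v s ≠ 0).card + if lb x.v t.val = 0 then 0 else 1 := by
    rw [Finset.filter_insert]
    by_cases h0 : lb x.v t.val = 0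
    · rw [if_neg (not_not.mpr h0), if_pos h0, add_zero]
    · rw [if_pos h0, if_neg h0, Finset.card_insert_of_notMem]
      intro h5
      exact h1 (Finset.mem_filter.mp h5).1
  have h6 : (if lb x.v t.val = 0 then (1 : ℤ) else -1) =
      (-1) ^ (if lb x.v t.val = 0 then 0 else 1) := by
    split_ifs
    · rw [pow_zero]
    · rw [pow_one]
  rw [h4, h6]
  push_cast
  rw [← pow_add, ← pow_add, ← pow_add, ← pow_add, ← pow_add]
  refine neg_one_pow_congr ?_
  rw [Nat.even_iff, Nat.even_iff]
  generalize (if lb x.v t.val = 0 then 0 else 1) = e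
  omega

open scoped Classical in
theorem dinc (hf : ∀ s t, L.Adj s t → f s ≠ f t) (x : (dst L f).Fl)
    (q : (SingerRA.davis L).Cubes) :
    ((SingerRA.davis L).inc (dcell L f x) q : ℝ) =
      ∑ t ∈ (dst L f).exs x, if dcell L f ((dst L f).ins t x) = q then
        (dst L f).sg x t * (deps L f x * deps L f ((dst L f).ins t x)) else 0 := by
  by_cases h : ∃ t ∈ (dst L f).exs x, dcell L f ((dst L f).ins t x) = q
  · obtain ⟨t, ht, rfl⟩ := h
    rw [Finset.sum_eq_single t, if_pos rfl, dsign hf ht, dinc_ins ht]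
    · intro s hs hst
      rw [if_neg]
      intro h
      obtain ⟨h1, -, h3⟩ := dexs ht
      obtain ⟨h4, -, h5⟩ := dexs hs
      have h6 : unl ((dst L f).ins s x).σ = unl ((dst L f).ins t x).σ :=
        congrArg (fun c : (SingerRA.davis L).Cubes => c.1.1) h
      rw [h3, h5] at h6
      have h7 : s.val ∈ insert t.val (unl x.σ) := h6 ▸ Finset.mem_insert_self _ _
      rcases Finset.mem_insert.mp h7 with h8 | h8
      · apply hst
        cases s
        cases t
        exact congrArg Lab.mk h8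
      · exact h4 h8
    · exact fun h => absurd ht h
  · push Not at h
    rw [Finset.sum_eq_zero fun t ht => if_neg (h t ht)]
    by_contra h0
    have h1 : (SingerRA.davis L).inc (dcell L f x) q ≠ 0 := fun h2 => h0 (by rw [h2, Int.cast_zero])
    obtain ⟨v, hv, hq, hy⟩ := SingerRA.bb_inc_ne _ _ _ h1
    have hT : (dcell L f x).1.1 = unl x.σ := rfl
    have hy0 : (dcell L f x).1.2 = nf (SingerRA.davis L) (unl x.σ) x.v := rfl
    rw [hT] at hv hq
    have hcl : L.IsClique (q.1.1 : Set α) := q.2.1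
    have ht : (⟨v⟩ : Lab α) ∈ (dst L f).exs x := by
      refine Dat.mem_exs.mpr ⟨std_mem L f x.v ⟨v⟩, fun h2 => hv (mem_unl.mpr h2), ?_⟩
      rintro ⟨s⟩ hs ⟨t⟩ ht hst
      have hs' : s ∈ q.1.1 := by
        rw [hq, ← unl_insert, mem_unl]
        exact hs
      have ht' : t ∈ q.1.1 := by
        rw [hq, ← unl_insert, mem_unl]
        exact ht
      exact hcl hs' ht' fun h2 => hst (congrArg Lab.mk h2)
    refine h _ ht ?_
    obtain ⟨-, h2, h3⟩ := dexs ht
    refine Subtype.ext (Prod.ext ?_ ?_)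
    · rw [hq]
      exact h3
    · show nf (SingerRA.davis L) (unl ((dst L f).ins ⟨v⟩ x).σ) ((dst L f).ins ⟨v⟩ x).v = _
      rw [h3, Dat.ins_v]
      obtain ⟨g, hg, hg'⟩ := nf_mem (SingerRA.davis L) (unl x.σ) x.v
      have hg1 := cl_mono (SingerRA.davis L) _ _ (Finset.subset_insert v (unl x.σ)) hg
      refine nf_unique (SingerRA.davis L) _ h2 _ _ ?_ fun u hu => q.2.2 u (by rw [hq]; exact hu)
      rcases hy with ⟨h4, -⟩ | ⟨h4, -⟩
      · exact ⟨g, hg1, by rw [← h4, hy0, hg']⟩
      · refine ⟨g * (SingerRA.davis L).a v, Subgroup.mul_mem _ hg1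
          (a_mem_cl _ _ v (Finset.mem_insert_self v _)), ?_⟩
        rw [← mul_assoc, ← hg', ← hy0, h4, mul_assoc, (SingerRA.davis L).sq, mul_one]

end SingerLG
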