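import Mathlib
import Pool.Agent.Lib_MP_394d50_lg.DCon
import Pool.Agent.Lib_MP_394d50_lg.DInc

/-!
# Section 6: the Davis complex is the complex of the cubes of the standard stage
-/

namespace SingerLG

open SingerVS SingerCub SingerRA.BB
open scoped Pointwise

variable {α : Type} [Fintype α] [LinearOrder α] {L : SimpleGraph α} {f : α → ℕ}

theorem dst_pre (hf : ∀ s t, L.Adj s t → f s ≠ f t) : Pre (dst L f) :=
  (std_pre L f hf).res (SingerRA.Gam L)

theorem dcell_val (x : (dst L f).Fl) :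
    (dcell L f x).1 = (unl x.σ, nf (SingerRA.davis L) (unl x.σ) x.v) := rfl

theorem dcell_surj (c : (SingerRA.davis L).Cubes) : ∃ x, dcell L f x = c := by
  obtain ⟨⟨σ, w⟩, h1, h2⟩ := c
  have hu : unl (σ.image Lab.mk) = σ := by
    ext s
    rw [mem_unl, Finset.mem_image]
    constructor
    · rintro ⟨t, ht, h⟩
      have : t = s := congrArg Lab.val h
      rw [← this]
      exact ht
    · intro h
      exact ⟨s, h, rfl⟩
  refine ⟨⟨(w, σ.image Lab.mk), fun s _ => std_mem L f w s, ?_⟩, ?_⟩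
  · intro s hs t ht hst
    obtain ⟨s', hs', rfl⟩ := Finset.mem_image.mp hs
    obtain ⟨t', ht', rfl⟩ := Finset.mem_image.mp ht
    exact h1 (Finset.mem_coe.mpr hs') (Finset.mem_coe.mpr ht') fun e => hst (congrArg Lab.mk e)
  · apply Subtype.ext
    show (unl (σ.image Lab.mk), nf (SingerRA.davis L) (unl (σ.image Lab.mk)) w) = (σ, w)
    rw [hu]
    exact Prod.ext rfl (nf_self (SingerRA.davis L) σ h1 w h2)

theorem dcell_smul (g : SingerRA.Gam L) (x : (dst L f).Fl) :
    dcell L f (g • x) = g • dcell L f x := by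
  apply Subtype.ext
  have hσ : (g • x).σ = x.σ := by
    ext s
    rw [Dat.Fl.smul_σ, Finset.mem_smul_finset]
    constructor
    · rintro ⟨t, ht, rfl⟩
      exact ht
    · intro h
      exact ⟨s, h, rfl⟩
  show (unl (g • x).σ, nf (SingerRA.davis L) (unl (g • x).σ) (g • x).v) =
    (unl x.σ, (g : SingerRA.W L) * nf (SingerRA.davis L) (unl x.σ) x.v)
  rw [hσ]
  refine Prod.ext rfl ?_
  refine nf_unique (SingerRA.davis L) _ (unl_clique x) _ _ ?_ ?_
  · obtain ⟨h, hh, e⟩ := nf_mem (SingerRA.davis L) (unl x.σ) x.v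
    refine ⟨h, hh, ?_⟩
    rw [e]
    show (g : SingerRA.W L) * (x.v * h) = (g : SingerRA.W L) * x.v * h
    rw [mul_assoc]
  · intro v hv
    have h1 := nf_lab (SingerRA.davis L) (unl x.σ) x.v v hv
    have h2 := lb_gam g (nf (SingerRA.davis L) (unl x.σ) x.v) v
    exact h2.trans h1

theorem dmv_v (hf : ∀ s t, L.Adj s t → f s ≠ f t) (x : (dst L f).Fl) {s : Lab α}
    (hs : s ∈ x.σ) : ((dst L f).mv s x).v = x.v * SingerRA.gen L s.val :=
  (dst_pre hf).mv_v hs

theorem dcell_mv (hf : ∀ s t, L.Adj s t → f s ≠ f t) (x : (dst L f).Fl) (s : Lab α)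
    (hs : s ∈ x.σ) : dcell L f ((dst L f).mv s x) = dcell L f x := by
  apply Subtype.ext
  show (unl ((dst L f).mv s x).σ, nf (SingerRA.davis L) (unl ((dst L f).mv s x).σ)
    ((dst L f).mv s x).v) = (unl x.σ, nf (SingerRA.davis L) (unl x.σ) x.v)
  rw [Dat.mv_σ, dmv_v hf x hs]
  refine Prod.ext rfl ?_
  exact nf_mul (SingerRA.davis L) _ (unl_clique x) x.v s.val (mem_unl.mpr hs)

theorem deps_mv (hf : ∀ s t, L.Adj s t → f s ≠ f t) (x : (dst L f).Fl) (s : Lab α)
    (hs : s ∈ x.σ) : deps L f ((dst L f).mv s x) = - deps L f x := by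
  classical
  unfold deps
  rw [Dat.mv_σ, dmv_v hf x hs, ← neg_mul]
  congr 1
  have hs' : s.val ∈ unl x.σ := mem_unl.mpr hs
  have h2 : ∀ (p : α → Prop) [DecidablePred p], ((unl x.σ).filter p).card =
      ((unl x.σ).erase s.val |>.filter p).card + if p s.val then 1 else 0 := by
    intro p _
    rw [Finset.card_filter, Finset.card_filter, ← Finset.sum_erase_add _ _ hs']
  have h3 : (((unl x.σ).erase s.val).filter fun t => lb (x.v * SingerRA.gen L s.val) t ≠ 0) =
      ((unl x.σ).erase s.val).filter fun t => lb x.v t ≠ 0 := by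
    refine Finset.filter_congr fun t ht => ?_
    rw [lb_mul_gen, if_neg (Finset.mem_erase.mp ht).1, add_zero]
  have h4 := h2 (fun t => lb (x.v * SingerRA.gen L s.val) t ≠ 0)
  have h5 := h2 (fun t => lb x.v t ≠ 0)
  rw [h3] at h4
  have h6 : lb (x.v * SingerRA.gen L s.val) s.val = lb x.v s.val + 1 := by
    rw [lb_mul_gen, if_pos rfl]
  have h7 : ∀ a : ZMod 2, (a + 1 ≠ 0) ↔ a = 0 := by decide
  by_cases h0 : lb x.v s.val = 0
  · have h8 : lb (x.v * SingerRA.gen L s.val) s.val ≠ 0 := by rw [h6]; exact (h7 _).mpr h0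
    rw [if_pos h8] at h4
    rw [if_neg (not_not.mpr h0), add_zero] at h5
    rw [h4, h5, pow_succ]
    ring
  · have h8 : ¬ lb (x.v * SingerRA.gen L s.val) s.val ≠ 0 := by
      rw [h6]
      exact fun h => h0 ((h7 _).mp h)
    rw [if_neg h8, add_zero] at h4
    rw [if_pos h0] at h5
    rw [h4, h5, pow_succ]
    ring

theorem dflagd (hf : ∀ s t, L.Adj s t → f s ≠ f t) :
    Flagd (dst L f) (dcx L) (dcell L f) (deps L f) where
  dim x := card_unl x.σ
  surj := dcell_surj
  pm x := by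
    unfold deps
    rcases neg_one_pow_eq_or ℝ ((unl x.σ).filter fun s => lb x.v s ≠ 0).card with h | h <;>
    rcases sgnN_pm (fun a b : α => a < b) (fun a b : α => f a < f b) (unl x.σ) with h' | h' <;>
    rw [h, h'] <;> norm_num
  smul := dcell_smul
  mv x s hs := dcell_mv hf x s hs
  mv_ε x s hs := deps_mv hf x s hs
  conn := dconn hf
  card := dcard hf
  free g c h := by
    have h1 : ((g : SingerRA.W L) * c.1.2) = c.1.2 := congrArg Prod.snd (congrArg Subtype.val h)
    exact Subtype.ext (mul_eq_right.mp h1)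
  inc x q := dinc hf x q

end SingerLG
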