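import Mathlib
import Pool.Agent.Lib_MP_394d50_lg.RPre

/-!
# Piece R4: the transfer between the flags and the cells

Every cell `q` of dimension `k` has `2 ^ k` flags (`hI.card`, `hI.surj`, `hI.dim`).
`U_ex`: the function `x ↦ ε x * c (cell x)` is square summable: `∑ x, |c (cell x)|²` is summable: the fibres of `cell` over
the support of `c` are finite with `2 ^ k` elements: e.g. choose for every `q` of dimension `k` a bijection of `cell⁻¹ q` with `Fin (2 ^ k)`
and embed; or `summable_of_sum_le`: for a finite set `s` of flags, `∑_{x ∈ s} |c (cell x)|² ≤ 2 ^ k * ∑_{q ∈ s.image cell} |c q|² ≤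
2 ^ k * ‖c‖²` (`Finset.sum_comp`, `Finset.card_le`: `{x ∈ s | cell x = q}` has at most `(cell⁻¹ q).ncard = 2 ^ k` elements).
`U_inner`: `⟨z, z'⟩ = ∑ x, ε x ^ 2 * c (cell x) * c' (cell x)` (`lp.inner_eq_tsum`) `= ∑ q, 2 ^ k * c q * c' q` (`tsum` over the fibres:
`(Equiv.sigmaFiberEquiv cell).tsum_eq`, `Summable.tsum_sigma'`, the inner sum is over a finite type with `2 ^ k` elements
if `dim q = k`, and zero otherwise as `c q = 0`).
`transfer`: if `x.σ.card ≠ k`: every `z ∈ M` is zero at `x` (`hN`, `hI.dim`), so `δ_x ⊥ M` and `P_M δ_x = 0`. Otherwise let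
`n = P_N δ_{cell x}`, `y = U ((2 ^ k)⁻¹ * ε x) • n` (`U_ex`, `hM`): `y ∈ M` and `δ_x - y ⊥ M`: for `z = U c ∈ M`:
`⟨δ_x, z⟩ = z x = ε x * c (cell x)`, `⟨y, z⟩ = 2 ^ k * (2 ^ k)⁻¹ * ε x * ⟨n, c⟩` and `⟨n, c⟩ = ⟨δ_{cell x}, c⟩ = c (cell x)`. So
`P_M δ_x = y` (`Submodule.eq_starProjection_of_mem_of_inner_eq_zero`) and `⟨y, δ_x⟩ = y x = (2 ^ k)⁻¹ * ε x ^ 2 * n (cell x)`.
-/

namespace SingerLG

open SingerVS SingerCub
open scoped Pointwise

variable {G V S C : Type} [Group G] [MulAction G V] [MulAction G S] [MulAction G C] [DecidableEq S]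
  {A : Dat G V S} {I : CellCx C} {cell : A.Fl → C} {ε : A.Fl → ℝ}

private theorem RTrs_card (hI : Flagd A I cell ε) {k : ℕ} (q : C) (hq : I.dim q = k) :
    Nat.card {x : A.Fl // cell x = q} = 2 ^ k := by
  obtain ⟨x, rfl⟩ := hI.surj q
  have h1 := hI.card x
  rw [← hI.dim x, hq] at h1
  rw [← h1]
  exact Nat.card_coe_set_eq {y | cell y = cell x}

private theorem RTrs_fib (hI : Flagd A I cell ε) {k : ℕ} (u : C → ℝ)
    (hu : ∀ q, I.dim q ≠ k → u q = 0) (q : C) :
    HasSum (fun _ : {x : A.Fl // cell x = q} => u q) (2 ^ k * u q) := by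
  by_cases hq : I.dim q = k
  · have h1 := RTrs_card hI q hq
    have hfin : Finite {x : A.Fl // cell x = q} := by
      apply Nat.finite_of_card_ne_zero
      rw [h1]
      positivity
    have := Fintype.ofFinite {x : A.Fl // cell x = q}
    have h2 := hasSum_fintype (fun _ : {x : A.Fl // cell x = q} => u q)
    rw [Finset.sum_const, Finset.card_univ, ← Nat.card_eq_fintype_card, h1, nsmul_eq_mul] at h2
    push_cast at h2
    exact h2
  · rw [hu q hq, mul_zero]
    exact hasSum_zero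

private theorem RTrs_summable (hI : Flagd A I cell ε) {k : ℕ} (u : C → ℝ)
    (hu : ∀ q, I.dim q ≠ k → u q = 0) (h0 : ∀ q, 0 ≤ u q) (hs : Summable u) :
    Summable fun x : A.Fl => u (cell x) := by
  have h1 : Summable (fun p : (Σ q, {x : A.Fl // cell x = q}) => u p.1) := by
    rw [summable_sigma_of_nonneg (fun p => h0 p.1)]
    refine ⟨fun q => (RTrs_fib hI u hu q).summable, ?_⟩
    have e : (fun q => ∑' _ : {x : A.Fl // cell x = q}, u q) = fun q => 2 ^ k * u q :=
      funext fun q => (RTrs_fib hI u hu q).tsum_eq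
    rw [e]
    exact hs.mul_left _
  rw [← (Equiv.sigmaFiberEquiv cell).summable_iff]
  refine h1.congr fun p => ?_
  obtain ⟨q, x, rfl⟩ := p
  rfl

private theorem RTrs_tsum (hI : Flagd A I cell ε) {k : ℕ} (u : C → ℝ)
    (hu : ∀ q, I.dim q ≠ k → u q = 0) (hs : Summable fun x : A.Fl => u (cell x)) :
    ∑' x : A.Fl, u (cell x) = 2 ^ k * ∑' q, u q := by
  have hs' := hs
  rw [← (Equiv.sigmaFiberEquiv cell).summable_iff] at hs'
  rw [← (Equiv.sigmaFiberEquiv cell).tsum_eq, ← tsum_mul_left]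
  have h1 := hs'.tsum_sigma
  refine Eq.trans h1 ?_
  refine tsum_congr fun q => ?_
  have e : (fun x : {x : A.Fl // cell x = q} =>
      ((fun x : A.Fl => u (cell x)) ∘ (Equiv.sigmaFiberEquiv cell)) ⟨q, x⟩) =
      fun _ : {x : A.Fl // cell x = q} => u q := by
    funext x
    obtain ⟨x, rfl⟩ := x
    rfl
  rw [e]
  exact (RTrs_fib hI u hu q).tsum_eq

private theorem RTrs_sq (hI : Flagd A I cell ε) (x : A.Fl) : ε x * ε x = 1 := by
  rcases hI.pm x with h | h <;> rw [h] <;> norm_num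

theorem Flagd.U_ex (hI : Flagd A I cell ε) {k : ℕ} (c : L2 C) (hc : ∀ q, I.dim q ≠ k → c q = 0) :
    ∃ z : L2 A.Fl, ∀ x, z x = ε x * c (cell x) := by
  have h1 : Summable fun q => ‖c q‖ ^ (2 : ENNReal).toReal :=
    (lp.memℓp c).summable (by norm_num)
  have h2 : Summable fun x : A.Fl => ‖c (cell x)‖ ^ (2 : ENNReal).toReal :=
    RTrs_summable hI (k := k) (fun q => ‖c q‖ ^ (2 : ENNReal).toReal)
      (fun q hq => by simp only [hc q hq, norm_zero]; norm_num)
      (fun q => by positivity) h1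
  have h3 : Memℓp (fun x : A.Fl => ε x * c (cell x)) 2 := by
    refine memℓp_gen (h2.congr fun x => ?_)
    have h4 : ‖ε x‖ = 1 := by
      rcases hI.pm x with h | h <;> rw [h] <;> simp
    rw [norm_mul, h4, one_mul]
  exact ⟨⟨_, h3⟩, fun x => rfl⟩

theorem Flagd.U_inner (hI : Flagd A I cell ε) {k : ℕ} {c c' : L2 C}
    (hc : ∀ q, I.dim q ≠ k → c q = 0) {z z' : L2 A.Fl} (hz : ∀ x, z x = ε x * c (cell x))
    (hz' : ∀ x, z' x = ε x * c' (cell x)) : inner ℝ z z' = 2 ^ k * inner ℝ c c' := by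
  have e : ∀ x : A.Fl, inner ℝ (z x) (z' x) = inner ℝ (c (cell x)) (c' (cell x)) := by
    intro x
    rw [hz, hz']
    have h1 := RTrs_sq hI x
    have h2 : ∀ a b : ℝ, inner ℝ a b = b * a := fun a b => by simp
    rw [h2, h2]
    linear_combination (c' (cell x) * c (cell x)) * h1
  have hs := lp.summable_inner (𝕜 := ℝ) z z'
  simp only [e] at hs
  have hu : ∀ q, I.dim q ≠ k → (inner ℝ (c q) (c' q) : ℝ) = 0 := fun q hq => by
    rw [hc q hq]
    simp
  rw [lp.inner_eq_tsum, lp.inner_eq_tsum]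
  simp only [e]
  exact RTrs_tsum hI (k := k) (fun q => (inner ℝ (c q) (c' q) : ℝ)) hu hs

/-- The transfer. -/
theorem Flagd.transfer (hI : Flagd A I cell ε) {k : ℕ} {M : Submodule ℝ (L2 A.Fl)}
    {N : Submodule ℝ (L2 C)} [M.HasOrthogonalProjection] [N.HasOrthogonalProjection]
    (hN : ∀ c ∈ N, ∀ q, I.dim q ≠ k → c q = 0)
    (hM : ∀ z, z ∈ M ↔ ∃ c ∈ N, ∀ x, z x = ε x * c (cell x)) (x : A.Fl) :
    inner ℝ (M.starProjection (delta x)) (delta x) = if x.σ.card = k then
      inner ℝ (N.starProjection (delta (cell x))) (delta (cell x)) / 2 ^ k else 0 := by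
  have hpos : (0 : ℝ) < 2 ^ k := by positivity
  split_ifs with hx
  · obtain ⟨n, hn⟩ : ∃ n : L2 C, n = N.starProjection (delta (cell x)) := ⟨_, rfl⟩
    have hnN : n ∈ N := by rw [hn]; exact Submodule.starProjection_apply_mem _ _
    obtain ⟨m, hm⟩ : ∃ m : L2 C, m = (((2 : ℝ) ^ k)⁻¹ * ε x) • n := ⟨_, rfl⟩
    have hmN : m ∈ N := by rw [hm]; exact N.smul_mem _ hnN
    obtain ⟨y, hy⟩ := hI.U_ex (k := k) m (hN m hmN)
    have hyM : y ∈ M := (hM y).2 ⟨m, hmN, hy⟩
    have hproj : M.starProjection (delta x) = y := by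
      refine Submodule.eq_starProjection_of_mem_of_inner_eq_zero hyM ?_
      intro z hz
      obtain ⟨c, hcN, hc⟩ := (hM z).1 hz
      rw [inner_sub_left, delta_inner, hc, hI.U_inner (hN m hmN) hy hc, hm, inner_smul_left]
      have h1 : inner ℝ n c = c (cell x) := by
        rw [hn, Submodule.inner_starProjection_left_eq_right,
          Submodule.starProjection_eq_self_iff.2 hcN, delta_inner]
      rw [h1]
      simp only [conj_trivial]
      field_simp
      ring
    rw [hproj, real_inner_comm, delta_inner, hy, hm, real_inner_comm, delta_inner, ← hn]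
    have h2 : (((((2 : ℝ) ^ k)⁻¹ * ε x) • n : L2 C)) (cell x) =
        ((2 : ℝ) ^ k)⁻¹ * ε x * n (cell x) := rfl
    rw [h2]
    have h3 := RTrs_sq hI x
    field_simp
    linear_combination (n (cell x)) * h3
  · have hproj : M.starProjection (delta x) = 0 := by
      refine Submodule.eq_starProjection_of_mem_of_inner_eq_zero M.zero_mem ?_
      intro z hz
      obtain ⟨c, hcN, hc⟩ := (hM z).1 hz
      rw [sub_zero, delta_inner, hc, hN c hcN (cell x) (by rw [hI.dim]; exact hx), mul_zero]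
    rw [hproj, inner_zero_left]

end SingerLG
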