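import Mathlib
import Pool.Agent.Lib_MP_394d50_lg.RTrs
import Pool.Agent.Lib_MP_394d50_lg.AMem

/-!
# Piece R5: the chains

`ch_iff`: (⇐) `mem_Ch`: degree: `hI.dim`; matching: `hI.mv`, `hI.mv_ε`. (⇒) `mem_Ch`; for every `q` choose a flag `f q` over `q`
(`hI.surj`), `c q = ε (f q) * z (f q)`, square summable as `f` is injective (`cell (f q) = q`; `Summable.comp_injective`, `memℓp_gen`, see
`SingerVS.lo_mem`). For `x` over `q = cell x`: `ε x * z x = ε y * z y` for all `y` with `cell y = cell x` by `hI.conn` (induction; a move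
changes both signs), so `z x = ε x * (ε x * z x) = ε x * c (cell x)`; `c q = 0` if `dim q ≠ k`.
`coef_Ch`: `Flagd.transfer` with `M = Ch k`, `N = sup {q | I.dim q = k}`: for `dim (cell x) = k`: `δ_{cell x} ∈ N`, so
`P_N δ = δ`, `⟨δ, δ⟩ = 1` (`delta_inner`, `delta_self`).
`loc_Ch`: by `coef_Ch` the local trace is the sum over the cubes `σ` at `v` of `1 / 2 ^ k` if `σ.card = k`, else `0`
(`Finset.sum_attach`, `Finset.sum_ite`).
-/

namespace SingerLG

open SingerVS SingerCub
open scoped Pointwise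

variable {G V S C : Type} [Group G] [MulAction G V] [MulAction G S] [MulAction G C] [DecidableEq S]
  {A : Dat G V S} {I : CellCx C} {cell : A.Fl → C} {ε : A.Fl → ℝ}

theorem Flagd.ch_iff (hI : Flagd A I cell ε) {k : ℕ} {z : L2 A.Fl} :
    z ∈ A.Ch k ↔ ∃ c : L2 C, (∀ q, I.dim q ≠ k → c q = 0) ∧ ∀ x, z x = ε x * c (cell x) := by
  rw [Dat.mem_Ch]
  constructor
  · rintro ⟨h1, h2⟩
    choose f hf using hI.surj
    have hinj : Function.Injective f := fun a b hab => by rw [← hf a, ← hf b, hab]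
    have hmem : Memℓp (fun q : C => ε (f q) * z (f q)) 2 := by
      have h3 : Summable fun x : A.Fl => ‖z x‖ ^ (2 : ENNReal).toReal :=
        (lp.memℓp z).summable (by norm_num)
      refine memℓp_gen ?_
      refine (h3.comp_injective hinj).congr fun q => ?_
      rw [Function.comp_apply, norm_mul, Real.norm_eq_abs (ε _), lo_abs hI.pm, one_mul]
    have hinv : ∀ y x : A.Fl, Relation.ReflTransGen
        (fun a b : A.Fl => ∃ s ∈ a.σ, b = A.mv s a) y x → ε y * z y = ε x * z x := by
      intro y x h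
      induction h with
      | refl => rfl
      | tail _ hab ih =>
        obtain ⟨s, hs, rfl⟩ := hab
        rw [ih, hI.mv_ε _ s hs, h2 _ s hs]
        ring
    refine ⟨⟨fun q : C => ε (f q) * z (f q), hmem⟩, fun q hq => ?_, fun x => ?_⟩
    · show ε (f q) * z (f q) = 0
      rw [h1 (f q) (by rw [← hI.dim, hf]; exact hq), mul_zero]
    · show z x = ε x * (ε (f (cell x)) * z (f (cell x)))
      rw [hinv _ x (hI.conn _ x (hf (cell x))), ← mul_assoc, lo_sq hI.pm, one_mul]
  · rintro ⟨c, h1, h2⟩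
    refine ⟨fun x hx => ?_, fun x s hs => ?_⟩
    · rw [h2 x, h1 (cell x) (by rw [hI.dim]; exact hx), mul_zero]
    · rw [h2, h2 x, hI.mv x s hs, hI.mv_ε x s hs, neg_mul]

theorem Flagd.coef_Ch (hI : Flagd A I cell ε) (k : ℕ) (x : A.Fl) :
    inner ℝ ((A.Ch k).starProjection (delta x)) (delta x) =
      if x.σ.card = k then 1 / 2 ^ k else (0 : ℝ) := by
  have hN : ∀ c ∈ sup {q | I.dim q = k}, ∀ q, I.dim q ≠ k → c q = 0 := fun c hc q hq => hc q hq
  rw [hI.transfer (k := k) (M := A.Ch k) (N := sup {q | I.dim q = k}) hN (fun z => by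
    rw [hI.ch_iff (k := k)]
    constructor
    · rintro ⟨c, h1, h2⟩
      exact ⟨c, fun q hq => h1 q hq, h2⟩
    · rintro ⟨c, h1, h2⟩
      exact ⟨c, fun q hq => h1 q hq, h2⟩) x]
  split_ifs with h
  · have hm : (delta (cell x) : L2 C) ∈ sup {q | I.dim q = k} :=
      delta_mem_sup (by show I.dim (cell x) = k; rw [hI.dim]; exact h)
    rw [Submodule.starProjection_eq_self_iff.mpr hm, delta_inner, delta_self]
  · rfl

theorem Flagd.loc_Ch (hI : Flagd A I cell ε) (k : ℕ) (v : V) :
    A.loc (A.Ch k).starProjection v = A.cN k v := by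
  classical
  unfold Dat.loc Dat.cN
  have h1 : ∀ σ ∈ (A.cubes v).attach,
      inner ℝ ((A.Ch k).starProjection (delta (A.fl v σ.1 (Dat.mem_cubes.mp σ.2))))
        (delta (A.fl v σ.1 (Dat.mem_cubes.mp σ.2))) =
      (fun τ : Finset S => if τ.card = k then 1 / 2 ^ k else (0 : ℝ)) σ.1 := by
    intro σ _
    rw [hI.coef_Ch]
    rfl
  rw [Finset.sum_congr rfl h1, Finset.sum_attach (A.cubes v)
    (fun τ : Finset S => if τ.card = k then 1 / 2 ^ k else (0 : ℝ)), ← Finset.sum_filter,
    Finset.sum_const, nsmul_eq_mul, mul_one_div]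

end SingerLG
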