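import Mathlib
import Pool.Agent.Lib_MP_394d50_lg.RPre

/-!
# Piece R1: the action on the flags, the trace is the sum of the local traces

The same as pieces A5 (`Stg.fo`) and A6 (`Stg.tr_osum`), but only with the axioms `Pre`.
`pre_fo`: freeness from `hA.free` at the vertex. Finitely many orbits: every flag is `g • (v, σ)` with `v` the chosen
representative (`o.out`) of the orbit of its vertex, `σ` a subset of the finite set `D v`: a surjection
from `Σ o : Orb G V, (A.cubes o.out)` (finite, `hA.fin`).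
`pre_tr_osum`: for a free action on `V` the map `(o, σ) ↦ ⟦fl o.out σ⟧` from `Σ o : Orb G V, {σ // σ ∈ A.cubes o.out}` to
`Orb G A.Fl` is bijective: surjective: the flag `x` is in the orbit of `(o.out, g • x.σ)`, `o = ⟦x.v⟧`; injective: equal
orbits give equal orbits of the vertices, the same representative, and `g • o.out = o.out` gives `g = 1`. The summand
`⟨T δ_{o.out}, δ_{o.out}⟩` depends only on the orbit (`pre_coef`: `shift_delta`, `hT`, `shift` is an isometry).
`finsum_eq_sum_of_fintype`, `Finset.sum_sigma'`. `osum_congr'`, `osum_lin`: `finsum_eq_sum_of_fintype`.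
-/

namespace SingerLG

open SingerVS SingerCub
open scoped Pointwise

variable {G V S : Type} [Group G] [MulAction G V] [MulAction G S] [DecidableEq S]
  {A : Dat G V S}

theorem pre_coef {H C : Type} [Group H] [MulAction H C] {T : L2 C →L[ℝ] L2 C} (hT : Eqv H T)
    (h : H) (x : C) :
    inner ℝ (T (delta (h • x))) (delta (h • x)) = inner ℝ (T (delta x)) (delta x) := by
  rw [← shift_delta, hT]
  exact (shift h).inner_map_map _ _

private theorem ROsum_mem (A : Dat G V S) (g : G) {v : V} {σ : Finset S} (h : σ ∈ A.cubes v) :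
    g • σ ∈ A.cubes (g • v) := by
  rw [Dat.mem_cubes] at h ⊢
  exact ⟨A.smul_sub g h.1, A.smul_Cl g h.2⟩

private theorem ROsum_mem' (A : Dat G V S) (g : G) {v : V} {σ : Finset S}
    (h : σ ∈ A.cubes (g • v)) : g⁻¹ • σ ∈ A.cubes v := by
  have h1 := ROsum_mem A g⁻¹ h
  rwa [inv_smul_smul] at h1

private noncomputable def ROsum_map (A : Dat G V S)
    (p : Σ o : Orb G V, {σ : Finset S // σ ∈ A.cubes o.out}) : Orb G A.Fl :=
  Quotient.mk _ (A.fl p.1.out p.2.1 (Dat.mem_cubes.mp p.2.2))

private theorem ROsum_bij (hA : Pre A) : Function.Bijective (ROsum_map A) := by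
  constructor
  · rintro ⟨o, σ, hσ⟩ ⟨o', σ', hσ'⟩ e
    have e1 := Quotient.exact e
    obtain ⟨g, hg⟩ : ∃ g : G, g • A.fl o'.out σ' (Dat.mem_cubes.mp hσ') =
        A.fl o.out σ (Dat.mem_cubes.mp hσ) := MulAction.orbitRel_apply.mp e1
    have hv : g • o'.out = o.out := congrArg Dat.Fl.v hg
    have hs : g • σ' = σ := congrArg Dat.Fl.σ hg
    have ho : o = o' := by
      rw [← Quotient.out_eq o, ← Quotient.out_eq o']
      exact Quotient.sound (MulAction.orbitRel_apply.mpr ⟨g, hv⟩)
    subst ho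
    have hg1 := hA.free g _ hv
    subst hg1
    rw [one_smul] at hs
    subst hs
    rfl
  · intro o
    obtain ⟨h, o', e⟩ := exists_rep (H := G) (o.out.v)
    have hm : o.out.σ ∈ A.cubes (h • o'.out) := by
      rw [← e]
      exact Dat.mem_cubes.mpr o.out.2
    refine ⟨⟨o', h⁻¹ • o.out.σ, ROsum_mem' A h hm⟩, ?_⟩
    have h2 : A.fl o'.out (h⁻¹ • o.out.σ) (Dat.mem_cubes.mp (ROsum_mem' A h hm)) = h⁻¹ • o.out := by
      refine Dat.Fl.ext ?_ rfl
      show o'.out = h⁻¹ • o.out.v
      rw [e, inv_smul_smul]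
    show Quotient.mk _ (A.fl o'.out (h⁻¹ • o.out.σ) _) = o
    rw [h2]
    conv_rhs => rw [← Quotient.out_eq o]
    exact Quotient.sound (MulAction.orbitRel_apply.mpr ⟨h⁻¹, rfl⟩)

theorem Pre.fo (hA : Pre A) : FO G A.Fl := by
  have := hA.fin
  exact ⟨fun g x h => hA.free g x.v (congrArg Dat.Fl.v h),
    Finite.of_surjective (ROsum_map A) (ROsum_bij hA).2⟩

theorem Pre.tr_osum (hA : Pre A) {T : L2 A.Fl →L[ℝ] L2 A.Fl} (hT : Eqv G T) :
    tr G T = osum G (A.loc T) := by
  have := hA.fin
  let _ : Fintype (Orb G V) := Fintype.ofFinite _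
  have h1 : ∀ p : Σ o : Orb G V, {σ : Finset S // σ ∈ A.cubes o.out},
      inner ℝ (T (delta (ROsum_map A p).out)) (delta (ROsum_map A p).out) =
        inner ℝ (T (delta (A.fl p.1.out p.2.1 (Dat.mem_cubes.mp p.2.2))))
          (delta (A.fl p.1.out p.2.1 (Dat.mem_cubes.mp p.2.2))) := by
    intro p
    have h2 : (MulAction.orbitRel G A.Fl) (ROsum_map A p).out
        (A.fl p.1.out p.2.1 (Dat.mem_cubes.mp p.2.2)) :=
      Quotient.exact (Quotient.out_eq (ROsum_map A p))
    obtain ⟨g, hg⟩ := MulAction.orbitRel_apply.mp h2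
    have h3 : g • A.fl p.1.out p.2.1 (Dat.mem_cubes.mp p.2.2) = (ROsum_map A p).out := hg
    rw [← h3]
    exact pre_coef hT g _
  unfold tr osum
  rw [← finsum_comp (g := fun o : Orb G A.Fl => inner ℝ (T (delta o.out)) (delta o.out))
    (ROsum_map A) (ROsum_bij hA), finsum_congr h1, finsum_eq_sum_of_fintype,
    finsum_eq_sum_of_fintype, Fintype.sum_sigma]
  refine Finset.sum_congr rfl fun o _ => ?_
  unfold Dat.loc
  rfl

omit [DecidableEq S] in
theorem Pre.osum_lin (hA : Pre A) (f g h : V → ℝ) :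
    osum G (fun v => f v + g v - h v) = osum G f + osum G g - osum G h := by
  have := hA.fin
  let _ : Fintype (Orb G V) := Fintype.ofFinite _
  unfold osum
  simp only [finsum_eq_sum_of_fintype, Finset.sum_sub_distrib, Finset.sum_add_distrib]

end SingerLG
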