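import Mathlib
import Pool.Agent.Lib_MP_394d50_lg.ROsum
import Pool.Agent.Lib_MP_394d50_gt.BOp

/-!
# Piece R2: the boundary operator on the flags

`SingerRA.exists_op` (file `Lib_MP_394d50_gt/BOp.lean`; see its use in `SingerCub.FC.exists_D`, `Lib_MP_394d50_cub/EOp.lean`) with
`m x y = if h : ∃ t ∈ A.exs x, A.ins t x = y then A.sg x h.choose else 0`. For `t ∈ exs x` the flag `y = ins t x` has
`y.v = x.v`, `y.σ = insert t x.σ` (`ins_v`, `ins_σ`), so `t` is unique: `{t} = y.σ \ x.σ`. `|m| ≤ 1` (`sg` is `± 1`). The row of `x` is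
supported on the image of `exs x ⊆ D x.v`; the column of `y` is supported on the flags `(y.v, y.σ.erase t)`, `t ∈ y.σ`: both
have at most `(D x.v).card` elements; `(D (g • v)).card = (D v).card` (`smul_D` for `g`, `g⁻¹`) and there are finitely many
orbits of vertices (`hA.fin`), so there is a bound `R` (e.g. the sum over the orbits).
`(B z) x = ∑ᶠ y, m x y * z y = ∑ t ∈ exs x, sg x t * z (ins t x)`: `finsum` over the finite support, the map `t ↦ ins t x` is
injective on `exs x`. Equivariance: `l2_ext`, `shift_apply`: `(B (shift g z)) x = ∑ t ∈ exs x, sg x t * z (g⁻¹ • ins t x)` and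
`exs_smul`, `ins_smul`, `sg_smul` for `g⁻¹`.
-/

namespace SingerLG

open SingerVS SingerCub
open scoped Pointwise

variable {G V S : Type} [Group G] [MulAction G V] [MulAction G S] [DecidableEq S]
  {A : Dat G V S}

omit [DecidableEq S] in
private theorem RBd_card (A : Dat G V S) (g : G) (v : V) : (A.D (g • v)).card = (A.D v).card := by
  have h1 : ∀ (h : G) (u : V), (A.D u).card ≤ (A.D (h • u)).card := by
    intro h u
    exact Finset.card_le_card_of_injOn (fun s => h • s) (fun s hs => A.smul_D h u s hs)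
      (fun s _ t _ e => MulAction.injective h e)
  refine le_antisymm ?_ (h1 g v)
  have h2 := h1 g⁻¹ (g • v)
  rwa [inv_smul_smul] at h2

omit [DecidableEq S] in
private theorem RBd_bound (hA : Pre A) : ∃ R : ℕ, ∀ v, (A.D v).card ≤ R := by
  have := hA.fin
  let _ : Fintype (Orb G V) := Fintype.ofFinite _
  refine ⟨∑ o : Orb G V, (A.D o.out).card, fun v => ?_⟩
  obtain ⟨h, o, e⟩ := exists_rep (H := G) v
  rw [e, RBd_card]
  exact Finset.single_le_sum (f := fun o : Orb G V => (A.D o.out).card)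
    (fun _ _ => Nat.zero_le _) (Finset.mem_univ o)

private theorem RBd_inj {x : A.Fl} {s t : S} (hs : s ∈ A.exs x) (ht : t ∈ A.exs x)
    (e : A.ins s x = A.ins t x) : s = t := by
  have h1 : (A.ins s x).σ = (A.ins t x).σ := by rw [e]
  rw [Dat.ins_σ A hs, Dat.ins_σ A ht] at h1
  have h2 : s ∈ insert t x.σ := h1 ▸ Finset.mem_insert_self s x.σ
  rcases Finset.mem_insert.mp h2 with h | h
  · exact h
  · exact absurd h (Dat.mem_exs.mp hs).2.1

private theorem RBd_sg (x : A.Fl) (t : S) : |A.sg x t| = 1 := by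
  unfold Dat.sg
  rw [abs_pow, abs_neg, abs_one, one_pow]

open scoped Classical in
/-- The matrix of the boundary operator. -/
private noncomputable def RBd_m (A : Dat G V S) (x y : A.Fl) : ℝ :=
  ∑ t ∈ A.exs x, if A.ins t x = y then A.sg x t else 0

private theorem RBd_ne {x y : A.Fl} (h : RBd_m A x y ≠ 0) :
    ∃ t ∈ A.exs x, A.ins t x = y := by
  classical
  obtain ⟨t, ht, h1⟩ := Finset.exists_ne_zero_of_sum_ne_zero h
  refine ⟨t, ht, ?_⟩
  by_contra h2
  exact h1 (if_neg h2)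

private theorem RBd_le (x y : A.Fl) : |RBd_m A x y| ≤ 1 := by
  classical
  by_cases h : RBd_m A x y = 0
  · rw [h, abs_zero]
    exact zero_le_one
  · obtain ⟨t, ht, h1⟩ := RBd_ne h
    have h2 : RBd_m A x y = A.sg x t := by
      unfold RBd_m
      rw [Finset.sum_eq_single t]
      · rw [if_pos h1]
      · intro s hs hst
        refine if_neg fun h3 => hst ?_
        exact RBd_inj hs ht (h3.trans h1.symm)
      · intro h3
        exact absurd ht h3
    rw [h2, RBd_sg]

private theorem RBd_row {R : ℕ} (hR : ∀ v, (A.D v).card ≤ R) (x : A.Fl) :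
    {y | RBd_m A x y ≠ 0}.Finite ∧ {y | RBd_m A x y ≠ 0}.ncard ≤ R := by
  classical
  have h1 : {y | RBd_m A x y ≠ 0} ⊆ ((A.exs x).image fun t => A.ins t x : Finset A.Fl) := by
    intro y hy
    obtain ⟨t, ht, h1⟩ := RBd_ne hy
    exact Finset.mem_coe.mpr (Finset.mem_image.mpr ⟨t, ht, h1⟩)
  refine ⟨(Finset.finite_toSet _).subset h1, ?_⟩
  refine (Set.ncard_le_ncard h1 (Finset.finite_toSet _)).trans ?_
  rw [Set.ncard_coe_finset]
  refine Finset.card_image_le.trans (le_trans (Finset.card_le_card ?_) (hR x.v))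
  intro t ht
  exact (Dat.mem_exs.mp ht).1

private theorem RBd_col {R : ℕ} (hR : ∀ v, (A.D v).card ≤ R) (y : A.Fl) :
    {x | RBd_m A x y ≠ 0}.Finite ∧ {x | RBd_m A x y ≠ 0}.ncard ≤ R := by
  classical
  have hsub : ∀ t : S, y.σ.erase t ⊆ A.D y.v ∧ A.Cl (y.σ.erase t) := fun t =>
    ⟨(Finset.erase_subset t _).trans y.2.1, fun a ha b hb hab =>
      y.2.2 a (Finset.mem_of_mem_erase ha) b (Finset.mem_of_mem_erase hb) hab⟩
  have h1 : {x | RBd_m A x y ≠ 0} ⊆
      (y.σ.image fun t => A.fl y.v (y.σ.erase t) (hsub t) : Finset A.Fl) := by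
    intro x hx
    obtain ⟨t, ht, h1⟩ := RBd_ne hx
    have h2 : y.v = x.v := by rw [← h1, Dat.ins_v]
    have h3 : y.σ = insert t x.σ := by rw [← h1, Dat.ins_σ A ht]
    refine Finset.mem_coe.mpr (Finset.mem_image.mpr ⟨t, ?_, ?_⟩)
    · rw [h3]
      exact Finset.mem_insert_self _ _
    · refine Dat.Fl.ext h2 ?_
      show y.σ.erase t = x.σ
      rw [h3, Finset.erase_insert (Dat.mem_exs.mp ht).2.1]
  refine ⟨(Finset.finite_toSet _).subset h1, ?_⟩
  refine (Set.ncard_le_ncard h1 (Finset.finite_toSet _)).trans ?_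
  rw [Set.ncard_coe_finset]
  exact Finset.card_image_le.trans (le_trans (Finset.card_le_card y.2.1) (hR y.v))

private theorem RBd_sum (z : L2 A.Fl) (x : A.Fl) :
    ∑ᶠ y, RBd_m A x y * z y = ∑ t ∈ A.exs x, A.sg x t * z (A.ins t x) := by
  classical
  rw [finsum_eq_sum_of_support_subset (s := (A.exs x).image fun t => A.ins t x)]
  · unfold RBd_m
    simp only [Finset.sum_mul, ite_mul, zero_mul]
    rw [Finset.sum_comm]
    refine Finset.sum_congr rfl fun t ht => ?_
    rw [Finset.sum_ite_eq, if_pos (Finset.mem_image.mpr ⟨t, ht, rfl⟩)]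
  · intro y hy
    rw [Function.mem_support] at hy
    obtain ⟨t, ht, h1⟩ := RBd_ne (left_ne_zero_of_mul hy)
    exact Finset.mem_coe.mpr (Finset.mem_image.mpr ⟨t, ht, h1⟩)

theorem Pre.exists_bd (hA : Pre A) : ∃ B : L2 A.Fl →L[ℝ] L2 A.Fl, Eqv G B ∧
    ∀ z x, (B z) x = ∑ t ∈ A.exs x, A.sg x t * z (A.ins t x) := by
  obtain ⟨R, hR⟩ := RBd_bound hA
  obtain ⟨B, hB, -⟩ := SingerRA.exists_op (RBd_m A) R RBd_le (RBd_row hR) (RBd_col hR)
  have hE : ∀ (z : L2 A.Fl) (x : A.Fl), (B z) x = ∑ t ∈ A.exs x, A.sg x t * z (A.ins t x) :=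
    fun z x => (hB z x).trans (RBd_sum z x)
  refine ⟨B, fun g z => l2_ext _ _ fun x => ?_, hE⟩
  rw [hE, shift_apply, hE, Dat.exs_smul, ← Finset.image_smul,
    Finset.sum_image fun s _ t _ e => MulAction.injective g⁻¹ e]
  refine Finset.sum_congr rfl fun t _ => ?_
  rw [Dat.sg_smul, Dat.ins_smul, shift_apply]

end SingerLG
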