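import Mathlib
import Pool.Agent.Lib_MP_394d50_lg.RBd
import Pool.Agent.Lib_MP_394d50_lg.AMem

/-!
# Piece R3: the harmonic flags

`mem_Hf`: `mem_orth_span` (`AMem.lean`), the union of the sets of generators (as in `mem_Z`).
`Bds_sub` (boundary of boundary is zero): let `w x = ∑ t ∈ exs x, sg x t * z (ins t x)`, `z ∈ Ch (j + 1)` (`mem_Ch`, `mem_Z`).
Degree: for `x.σ.card ≠ j` all `(ins t x).σ.card = x.σ.card + 1 ≠ j + 1` (`card_ins`). Matching: `exs_mv`, `ins_mv`, `sg_mv`,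
`z (mv s y) = - z y` for `s ∈ y.σ`, `y = ins t x`. Cycle condition at `y`: `∑ t ∈ exs y, sg y t * ∑ u ∈ exs (ins t y), sg (ins t y) u * z (ins u (ins t y))`:
a sum over the pairs `(t, u)`; by `Dat.ins_ins` the pair `(u, t)` occurs as well with the same flag; `t ≠ u` cross (both are in the
clique), so their colours are different (`cr_col`), say `col t < col u`. By the definition of `sg` (the number of labels of
`insert t y.σ` of colour `< col u` is one more than that of `y.σ`): `sg (ins t y) u = - sg y u`, `sg (ins u y) t = sg y t`: the two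
terms cancel (`Finset.sum_involution` on the `Finset.sigma`).
`tr_Hf`: let `M` be `(span (Bds j))ᗮᗮ`. `tr_rank` (`AAbs.lean`) with `K = Ch (j + 1)`, `K₀ = Z (j + 1)`, `Ψ = B` (`exists_bd`):
`h1`: `mem_Ch`, `mem_Z`: `B x` at `y` with `y.σ.card = j` is the cycle condition, for the other `y` it is zero; `h2`: `B x ∈ Bds j`;
`h3`: `g ∈ (span Bds)ᗮᗮ` and `g ∈ (span Bds)ᗮ`, so `⟨g, g⟩ = 0`. Invariance of `M`: `Ch_inv`, `Eqv G B`, `shift_inner`.
`P_Z = P_M + P_Hf` (`Submodule.eq_starProjection_of_mem_of_inner_eq_zero`; `M ≤ Z j` as `Bds j ⊆ Z j` and `Z j` is an orthogonal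
complement; `Hf j = Z j ⊓ (span Bds)ᗮ`), `tr_add`.
-/

namespace SingerLG

open SingerVS SingerCub
open scoped Pointwise

variable {G V S : Type} [Group G] [MulAction G V] [MulAction G S] [DecidableEq S]
  {A : Dat G V S} {j : ℕ}

/-- The boundaries of the square summable `(j + 1)`-chains. -/
def Dat.Bds (A : Dat G V S) (j : ℕ) : Set (L2 A.Fl) :=
  {w | ∃ z ∈ A.Ch (j + 1), ∀ x, w x = ∑ t ∈ A.exs x, A.sg x t * z (A.ins t x)}

/-- The harmonic `j`-chains: the cycles orthogonal to the boundaries. -/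
noncomputable def Dat.Hf (A : Dat G V S) (j : ℕ) : Submodule ℝ (L2 A.Fl) :=
  (Submodule.span ℝ (A.gensC (fun _ => True) j ∪ A.gensB j ∪ A.Bds j))ᗮ

instance Dat.instProjHf (A : Dat G V S) (j : ℕ) : (A.Hf j).HasOrthogonalProjection := by
  unfold Dat.Hf
  infer_instance

private theorem RHf_union {C : Type} {T T' : Set (L2 C)} {z : L2 C} :
    (∀ y ∈ T ∪ T', inner ℝ y z = 0) ↔ (∀ y ∈ T, inner ℝ y z = 0) ∧ ∀ y ∈ T', inner ℝ y z = 0 := by
  constructor
  · intro h
    exact ⟨fun y hy => h y (Or.inl hy), fun y hy => h y (Or.inr hy)⟩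
  · rintro ⟨h1, h2⟩ y (hy | hy)
    · exact h1 y hy
    · exact h2 y hy

theorem Dat.mem_Hf {z : L2 A.Fl} :
    z ∈ A.Hf j ↔ z ∈ A.Z j ∧ ∀ w ∈ A.Bds j, inner ℝ w z = 0 := by
  unfold Dat.Hf Dat.Z
  rw [mem_orth_span, mem_orth_span, RHf_union]

private theorem RHf_sg_ins {x : A.Fl} {t : S} (ht : t ∈ A.exs x) (u : S) :
    A.sg (A.ins t x) u = (if A.col t < A.col u then -1 else 1) * A.sg x u := by
  unfold Dat.sg
  rw [Dat.ins_σ A ht, Finset.filter_insert]
  split_ifs with h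
  · rw [Finset.card_insert_of_notMem fun h1 => (Dat.mem_exs.mp ht).2.1 (Finset.mem_filter.mp h1).1,
      pow_succ, mul_comm]
  · rw [one_mul]

private theorem RHf_col (hA : Pre A) {x : A.Fl} {t u : S} (ht : t ∈ A.exs x)
    (hu : u ∈ A.exs (A.ins t x)) : A.col t ≠ A.col u := by
  have h1 := (Dat.ins_ins ht hu).2.2.2
  have h2 := (Dat.mem_exs.mp hu).2.2
  rw [Dat.ins_σ A ht] at h2
  exact hA.cr_col t u (h2 t (Finset.mem_insert_of_mem (Finset.mem_insert_self _ _)) u
    (Finset.mem_insert_self _ _) h1)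

private theorem RHf_sq (hA : Pre A) (z : A.Fl → ℝ) (x : A.Fl) :
    ∑ t ∈ A.exs x, A.sg x t * ∑ u ∈ A.exs (A.ins t x), A.sg (A.ins t x) u *
      z (A.ins u (A.ins t x)) = 0 := by
  have h0 : ∑ t ∈ A.exs x, A.sg x t * ∑ u ∈ A.exs (A.ins t x), A.sg (A.ins t x) u *
      z (A.ins u (A.ins t x)) = ∑ p ∈ (A.exs x).sigma fun t => A.exs (A.ins t x),
        A.sg x p.1 * (A.sg (A.ins p.1 x) p.2 * z (A.ins p.2 (A.ins p.1 x))) := by
    rw [Finset.sum_sigma]
    refine Finset.sum_congr rfl fun t _ => ?_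
    rw [Finset.mul_sum]
  rw [h0]
  refine Finset.sum_involution (fun p _ => ⟨p.2, p.1⟩) ?_ ?_ ?_ ?_
  · rintro ⟨t, u⟩ hp
    rw [Finset.mem_sigma] at hp
    have ht : t ∈ A.exs x := hp.1
    have hu : u ∈ A.exs (A.ins t x) := hp.2
    obtain ⟨h1, h2, h3, h4⟩ := Dat.ins_ins ht hu
    show A.sg x t * (A.sg (A.ins t x) u * z (A.ins u (A.ins t x))) +
      A.sg x u * (A.sg (A.ins u x) t * z (A.ins t (A.ins u x))) = 0
    rw [h3, RHf_sg_ins ht, RHf_sg_ins h1]
    have h5 := RHf_col hA ht hu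
    rcases lt_or_gt_of_ne h5 with h6 | h6
    · rw [if_pos h6, if_neg (not_lt.mpr h6.le)]
      ring
    · rw [if_neg (not_lt.mpr h6.le), if_pos h6]
      ring
  · rintro ⟨t, u⟩ hp _ he
    rw [Finset.mem_sigma] at hp
    have h4 := (Dat.ins_ins hp.1 hp.2).2.2.2
    exact h4 (congrArg Sigma.fst he).symm
  · rintro ⟨t, u⟩ hp
    rw [Finset.mem_sigma] at hp ⊢
    obtain ⟨h1, h2, h3, h4⟩ := Dat.ins_ins hp.1 hp.2
    exact ⟨h1, h2⟩
  · rintro ⟨t, u⟩ hp
    rfl

private theorem RHf_deg {z : L2 A.Fl} (hz : z ∈ A.Ch (j + 1)) {x : A.Fl} (hx : x.σ.card ≠ j) :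
    ∑ t ∈ A.exs x, A.sg x t * z (A.ins t x) = 0 := by
  refine Finset.sum_eq_zero fun t ht => ?_
  rw [(Dat.mem_Ch.mp hz).1 _ (by rw [Dat.card_ins ht]; omega), mul_zero]

theorem Pre.Bds_sub (hA : Pre A) {w : L2 A.Fl} (hw : w ∈ A.Bds j) : w ∈ A.Z j := by
  obtain ⟨z, hz, h⟩ := hw
  rw [Dat.mem_Z]
  refine ⟨fun x hx => ?_, fun x s hs => ?_, fun x hx => ?_⟩
  · rw [h]
    exact RHf_deg hz hx
  · rw [h, h, hA.exs_mv hs, ← Finset.sum_neg_distrib]
    refine Finset.sum_congr rfl fun t ht => ?_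
    have h1 : s ∈ (A.ins t x).σ := by
      rw [Dat.ins_σ A ht]
      exact Finset.mem_insert_of_mem hs
    rw [hA.ins_mv hs ht, (Dat.mem_Ch.mp hz).2 _ s h1, Dat.sg_mv, mul_neg]
  · rw [Finset.sum_congr rfl fun t _ => by rw [h]]
    exact RHf_sq hA z x

private theorem RHf_Bds_shift (g : G) {w : L2 A.Fl} (hw : w ∈ A.Bds j) :
    shift g w ∈ A.Bds j := by
  obtain ⟨z, hz, h⟩ := hw
  refine ⟨shift g z, A.Ch_inv (j + 1) g z hz, fun x => ?_⟩
  rw [shift_apply, h, Dat.exs_smul]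
  symm
  refine Finset.sum_bij (fun t _ => g⁻¹ • t) (fun t ht => Finset.smul_mem_smul_finset ht)
    (fun a _ b _ h => smul_left_cancel _ h) ?_ ?_
  · intro t ht
    obtain ⟨t', ht', rfl⟩ := Finset.mem_smul_finset.mp ht
    exact ⟨t', ht', rfl⟩
  · intro t _
    rw [shift_apply, Dat.sg_smul, Dat.ins_smul]

theorem Dat.Hf_inv (A : Dat G V S) (j : ℕ) : Inv G (A.Hf j) := by
  intro g z hz
  rw [Dat.mem_Hf] at hz ⊢
  refine ⟨A.Z_inv j g z hz.1, fun w hw => ?_⟩
  have h1 := hz.2 _ (RHf_Bds_shift g⁻¹ hw)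
  rw [shift_inner, inv_inv] at h1
  exact h1

private theorem RHf_orth_inv {H C : Type} [Group H] [MulAction H C] {N : Submodule ℝ (L2 C)}
    (hN : Inv H N) : Inv H Nᗮ := by
  intro g y hy
  rw [Submodule.mem_orthogonal] at hy ⊢
  intro u hu
  have h1 := hy _ (hN g⁻¹ u hu)
  rw [shift_inner, inv_inv] at h1
  exact h1

private theorem RHf_span_inv (A : Dat G V S) (j : ℕ) :
    Inv G (Submodule.span ℝ (A.Bds j))ᗮ := by
  intro g y hy
  rw [mem_orth_span] at hy ⊢
  intro w hw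
  have h1 := hy _ (RHf_Bds_shift g⁻¹ hw)
  rw [shift_inner, inv_inv] at h1
  exact h1

theorem Pre.tr_Hf (hA : Pre A) (j : ℕ) : tr G (A.Hf j).starProjection =
    tr G (A.Z j).starProjection + tr G (A.Z (j + 1)).starProjection -
      tr G (A.Ch (j + 1)).starProjection := by
  obtain ⟨B, hB, hBx⟩ := hA.exists_bd
  set M : Submodule ℝ (L2 A.Fl) := (Submodule.span ℝ (A.Bds j))ᗮᗮ with hM
  have hMi : Inv G M := RHf_orth_inv (RHf_span_inv A j)
  have hBd : ∀ z ∈ A.Ch (j + 1), B z ∈ A.Bds j := fun z hz => ⟨z, hz, fun x => hBx z x⟩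
  have hsub : ∀ w ∈ A.Bds j, w ∈ M := fun w hw =>
    Submodule.le_orthogonal_orthogonal _ (Submodule.subset_span hw)
  -- rank and nullity
  have e1 : tr G (A.Z (j + 1)).starProjection =
      tr G (A.Ch (j + 1)).starProjection - tr G M.starProjection := by
    refine tr_rank hA.fo (A.Ch_inv (j + 1)) (A.Z_inv (j + 1)) hMi hB ?_ ?_ ?_
    · intro z
      rw [Dat.mem_Z, Dat.mem_Ch]
      constructor
      · rintro ⟨h1, h2, h3⟩
        refine ⟨⟨h1, h2⟩, l2_ext _ _ fun x => ?_⟩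
        rw [hBx]
        show _ = (0 : ℝ)
        by_cases hx : x.σ.card = j
        · exact h3 x (by rw [hx])
        · exact RHf_deg (Dat.mem_Ch.mpr ⟨h1, h2⟩) hx
      · rintro ⟨⟨h1, h2⟩, h3⟩
        refine ⟨h1, h2, fun x _ => ?_⟩
        rw [← hBx, h3]
        rfl
    · exact fun z hz => hsub _ (hBd z hz)
    · intro g hg h
      have h1 : g ∈ (Submodule.span ℝ (A.Bds j))ᗮ := by
        rw [mem_orth_span]
        rintro w ⟨z, hz, hw⟩
        have h2 : w = B z := l2_ext _ _ fun x => by rw [hw, hBx]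
        rw [h2, real_inner_comm]
        exact h z hz
      exact inner_self_eq_zero.mp ((Submodule.mem_orthogonal _ _).mp hg g h1)
  -- `M ≤ Z j`
  have hMZ : M ≤ A.Z j := by
    have h1 : (A.Z j)ᗮ ≤ (Submodule.span ℝ (A.Bds j))ᗮ := by
      intro y hy
      rw [mem_orth_span]
      intro w hw
      exact (Submodule.mem_orthogonal _ _).mp hy w (hA.Bds_sub hw)
    have h2 := Submodule.orthogonal_le h1
    rwa [(A.Z j).orthogonal_orthogonal] at h2
  have hHM : ∀ y ∈ A.Hf j, ∀ w ∈ M, inner ℝ y w = 0 := by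
    intro y hy w hw
    refine (Submodule.mem_orthogonal _ _).mp hw y ?_
    rw [mem_orth_span]
    exact (Dat.mem_Hf.mp hy).2
  have hop : (A.Z j).starProjection = M.starProjection + (A.Hf j).starProjection := by
    ext1 x
    show (A.Z j).starProjection x = M.starProjection x + (A.Hf j).starProjection x
    refine (A.Z j).eq_starProjection_of_mem_of_inner_eq_zero ?_ ?_
    · exact (A.Z j).add_mem (hMZ (M.starProjection_apply_mem x))
        (Dat.mem_Hf.mp ((A.Hf j).starProjection_apply_mem x)).1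
    · intro w hw
      have h1 : w - M.starProjection w ∈ A.Hf j := by
        rw [Dat.mem_Hf]
        refine ⟨(A.Z j).sub_mem hw (hMZ (M.starProjection_apply_mem w)), fun y hy => ?_⟩
        rw [real_inner_comm]
        exact M.starProjection_inner_eq_zero w y (hsub y hy)
      have h2 : inner ℝ (x - (M.starProjection x + (A.Hf j).starProjection x))
          (M.starProjection w) = (0 : ℝ) := by
        rw [← sub_sub, inner_sub_left, M.starProjection_inner_eq_zero x _
          (M.starProjection_apply_mem w), hHM _ ((A.Hf j).starProjection_apply_mem x) _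
          (M.starProjection_apply_mem w), sub_zero]
      have h3 : inner ℝ (x - (M.starProjection x + (A.Hf j).starProjection x))
          (w - M.starProjection w) = (0 : ℝ) := by
        rw [add_comm, ← sub_sub, inner_sub_left, (A.Hf j).starProjection_inner_eq_zero x _ h1,
          real_inner_comm, hHM _ h1 _ (M.starProjection_apply_mem x), sub_zero]
      have h4 : w = M.starProjection w + (w - M.starProjection w) := by abel
      rw [h4, inner_add_right, h2, h3, add_zero]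
  rw [hop, tr_add hA.fo]
  linarith

end SingerLG
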