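import Mathlib
import Pool.Agent.Lib_MP_394d50_lg.RCh
import Pool.Agent.Lib_MP_394d50_lg.RHf

/-!
# Piece R6: the harmonic chains on the cells and on the flags

The statement: `locDim I (cell x) / 2 ^ k = ⟨P_{Hf k} δ_x, δ_x⟩` for `x.σ.card = k` (and the right side is zero for the
other degrees).

Let `hm k = (span ({z | IsBd I z ∨ IsCobd I z} ∪ {δ_q | dim q ≠ k}))ᗮ = {c ∈ harm I | c is supported in dimension k}`.
(1) For every `x` there is `b ∈ L2 C` with `b p = inc p (cell x)` for all `p` (boundary) and `c ∈ L2 C` with `c q = inc (cell x) q`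
(coboundary): finite supports: `inc p q` with `p = cell y` is by `hI.inc` a sum over `t ∈ exs y` with `cell (ins t y) = q`. Cofaces: the
support of `q ↦ inc (cell x) q` is in the image of `exs x`. Faces: if `inc (cell y) (cell x) ≠ 0` then `cell (ins t y) = cell x`, so
`ins t y` is one of the finitely many flags over `cell x` (`hI.card`: the set has `2 ^ k ≠ 0` elements, so is finite:
`Set.finite_of_ncard_pos`) and `y` is a flag with the same vertex and a subset of its cube. If `inc (cell y) (cell x) ≠ 0` then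
`x.σ.card = y.σ.card + 1`.
(2) For `c ∈ L2 C` supported in dimension `k`, `z = U c` (`z x = ε x * c (cell x)`) and `x` a flag:
`ε x * ∑ t ∈ exs x, sg x t * z (ins t x) = ⟨cobd (cell x), c⟩`: the right side is `∑ q, inc (cell x) q * c q`, insert `hI.inc`,
exchange the sums (`finsum`/`Finset` over the image of `exs x`).
(3) For `q` of dimension `k + 1`, `u = U δ_q` (`U_ex`), `w = U (bd q)`: `w x = ∑ t ∈ exs x, sg x t * u (ins t x)` for all `x` (`hI.inc`), and
`u ∈ Ch (k + 1)` (`ch_iff`), so `w ∈ Bds k`; `2 ^ k * ⟨bd q, c⟩ = ⟨w, z⟩` (`U_inner`).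
(4) `hf_iff`: `z ∈ Hf k ↔ ∃ c ∈ hm k, z = U c`. (⇒) `z ∈ Ch k`, so `z = U c` (`ch_iff`); `⟨cobd p, c⟩ = 0` by (2) and the cycle condition
(`p = cell x`; if `x.σ.card + 1 ≠ k` the sum is zero by the degrees); `⟨bd q, c⟩ = 0` by (3) (if `dim q ≠ k + 1` then `bd q` has no
cells of dimension `k` in its support: zero). (⇐) cycle condition by (2). Orthogonal to `Bds k`: let `w ∈ Bds k` come from `z' ∈ Ch (k + 1)`,
`B` the operator of `exists_bd`, `w = B z'` (`l2_ext`), `y = P_{Ch (k + 1)} (B* z)`, `y = U d` (`ch_iff`). For `q` of dimension `k + 1`, `u = U δ_q`: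
`2 ^ (k + 1) * d q = ⟨u, y⟩ = ⟨u, B* z⟩ = ⟨B u, z⟩ = 2 ^ k * ⟨bd q, c⟩ = 0` (`u ∈ Ch (k + 1)`, (3), `ContinuousLinearMap.adjoint_inner_right`). So `d = 0`,
`y = 0`, `⟨w, z⟩ = ⟨z', B* z⟩ = ⟨z', y⟩ = 0`.
(5) `P_{harm I} δ_q` for `dim q = k` is `P_{hm k} δ_q`: `harm I` is graded: if `c ∈ harm I` then its restriction to the cells of
dimension `k` (`SingerCub.rs`) is in `hm k` (the boundary and the coboundary of a cell are supported in one dimension by (1)). So
`n = P_{hm k} δ_q` is in `harm I` and for `c ∈ harm I`: `⟨δ_q - n, c⟩ = ⟨δ_q - n, rs c⟩ = 0` (`δ_q - n` is supported in dimension `k`).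
(6) `transfer` with `M = Hf k`, `N = hm k`.
-/

namespace SingerLG

open SingerVS SingerCub
open scoped Pointwise

variable {G V S C : Type} [Group G] [MulAction G V] [MulAction G S] [MulAction G C] [DecidableEq S]
  {A : Dat G V S} {I : CellCx C} {cell : A.Fl → C} {ε : A.Fl → ℝ}

/-- The harmonic chains of the cells in dimension `k`. -/
private noncomputable def RHarm_hm {C : Type} (I : CellCx C) (k : ℕ) : Submodule ℝ (L2 C) :=
  (Submodule.span ℝ ({z | IsBd I z ∨ IsCobd I z} ∪ {d | ∃ q, I.dim q ≠ k ∧ d = delta q}))ᗮ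

private instance RHarm_instProj {C : Type} (I : CellCx C) (k : ℕ) :
    (RHarm_hm I k).HasOrthogonalProjection := by
  unfold RHarm_hm
  infer_instance

private theorem RHarm_mem {C : Type} {I : CellCx C} {k : ℕ} {c : L2 C} : c ∈ RHarm_hm I k ↔
    (∀ y : L2 C, IsBd I y → inner ℝ y c = 0) ∧ (∀ y : L2 C, IsCobd I y → inner ℝ y c = 0) ∧
      ∀ q, I.dim q ≠ k → c q = 0 := by
  unfold RHarm_hm
  rw [mem_orth_span]
  constructor
  · intro h
    refine ⟨fun y hy => h y (Or.inl (Or.inl hy)), fun y hy => h y (Or.inl (Or.inr hy)),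
      fun q hq => ?_⟩
    rw [← delta_inner q c]
    exact h _ (Or.inr ⟨q, hq, rfl⟩)
  · rintro ⟨h1, h2, h3⟩ y (hy | ⟨q, hq, rfl⟩)
    · rcases hy with hy | hy
      · exact h1 y hy
      · exact h2 y hy
    · rw [delta_inner]
      exact h3 q hq

private theorem RHarm_mem_harm {C : Type} {I : CellCx C} {c : L2 C} : c ∈ harm I ↔
    (∀ y : L2 C, IsBd I y → inner ℝ y c = 0) ∧ (∀ y : L2 C, IsCobd I y → inner ℝ y c = 0) := by
  unfold harm
  rw [mem_orth_span]
  constructor
  · intro h
    exact ⟨fun y hy => h y (Or.inl hy), fun y hy => h y (Or.inr hy)⟩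
  · rintro ⟨h1, h2⟩ y (hy | hy)
    · exact h1 y hy
    · exact h2 y hy

private theorem RHarm_disj {C : Type} {y c : L2 C} (h : ∀ p, y p = 0 ∨ c p = 0) :
    inner ℝ y c = (0 : ℝ) := by
  rw [lp.inner_eq_tsum]
  refine (tsum_congr fun p => ?_).trans tsum_zero
  rcases h p with h | h
  · rw [h, inner_zero_left]
  · rw [h, inner_zero_right]

/-- The incidence numbers are zero unless the dimensions differ by one. -/
private theorem RHarm_dim (hI : Flagd A I cell ε) {p q : C} (h : (I.inc p q : ℝ) ≠ 0) :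
    I.dim q = I.dim p + 1 := by
  classical
  obtain ⟨x, rfl⟩ := hI.surj p
  rw [hI.inc x q] at h
  obtain ⟨t, ht, h1⟩ := Finset.exists_ne_zero_of_sum_ne_zero h
  have h2 : cell (A.ins t x) = q := by
    by_contra h3
    exact h1 (if_neg h3)
  rw [← h2, hI.dim, hI.dim, Dat.card_ins ht]

/-- The coboundary of a cell. -/
private theorem RHarm_cobd (hI : Flagd A I cell ε) (x : A.Fl) {y : L2 C}
    (hy : ∀ q, y q = (I.inc (cell x) q : ℝ)) (c : L2 C) :
    inner ℝ y c = ε x * ∑ t ∈ A.exs x, A.sg x t * (ε (A.ins t x) * c (cell (A.ins t x))) := by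
  classical
  have h1 : y = ∑ t ∈ A.exs x, (A.sg x t * (ε x * ε (A.ins t x))) •
      (delta (cell (A.ins t x)) : L2 C) := by
    apply l2_ext
    intro q
    rw [hy, hI.inc, lp.coeFn_sum, Finset.sum_apply]
    refine Finset.sum_congr rfl fun t _ => ?_
    show _ = (A.sg x t * (ε x * ε (A.ins t x))) * (delta (cell (A.ins t x)) : L2 C) q
    split_ifs with h
    · rw [← h, delta_self, mul_one]
    · rw [delta_ne (fun e => h e.symm), mul_zero]
  rw [h1, sum_inner, Finset.mul_sum]
  refine Finset.sum_congr rfl fun t _ => ?_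
  rw [real_inner_smul_left, delta_inner]
  ring

/-- The operator applied to the flags over a cell. -/
private theorem RHarm_bd (hI : Flagd A I cell ε) {q : C} {u w : L2 A.Fl}
    (hu : ∀ x, u x = ε x * (delta q : L2 C) (cell x))
    (hw : ∀ x, w x = ∑ t ∈ A.exs x, A.sg x t * u (A.ins t x)) (x : A.Fl) :
    w x = ε x * (I.inc (cell x) q : ℝ) := by
  classical
  rw [hw, hI.inc, Finset.mul_sum]
  refine Finset.sum_congr rfl fun t _ => ?_
  rw [hu]
  have h0 := lo_sq hI.pm x
  split_ifs with h
  · rw [h, delta_self]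
    linear_combination (-(A.sg x t * ε (A.ins t x))) * h0
  · rw [delta_ne h]
    ring

private theorem RHarm_delta_dim {C : Type} {I : CellCx C} {k : ℕ} {q : C} (hq : I.dim q = k) :
    ∀ p, I.dim p ≠ k → (delta q : L2 C) p = 0 := fun p hp => delta_ne fun e => hp (e ▸ hq)

/-- The harmonic flags are the harmonic chains. -/
private theorem RHarm_iff (hI : Flagd A I cell ε) (hA : Pre A) {k : ℕ} {z : L2 A.Fl} :
    z ∈ A.Hf k ↔ ∃ c ∈ RHarm_hm I k, ∀ x, z x = ε x * c (cell x) := by
  obtain ⟨B, -, hB⟩ := hA.exists_bd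
  constructor
  · intro hz
    obtain ⟨hz1, hz2⟩ := Dat.mem_Hf.mp hz
    have hz3 := Dat.mem_Z.mp hz1
    obtain ⟨c, hc1, hc2⟩ := (hI.ch_iff (k := k)).mp (Dat.mem_Ch.mpr ⟨hz3.1, hz3.2.1⟩)
    refine ⟨c, RHarm_mem.mpr ⟨?_, ?_, hc1⟩, hc2⟩
    · rintro y ⟨q, hq⟩
      by_cases hd : I.dim q = k + 1
      · obtain ⟨u, hu⟩ := hI.U_ex (k := k + 1) (delta q) (RHarm_delta_dim hd)
        have hu1 : u ∈ A.Ch (k + 1) := hI.ch_iff.mpr ⟨delta q, RHarm_delta_dim hd, hu⟩
        have hw : ∀ x, (B u) x = ε x * y (cell x) := fun x => by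
          rw [hq]
          exact RHarm_bd hI hu (hB u) x
        have h1 : inner ℝ (B u) z = 0 := hz2 _ ⟨u, hu1, hB u⟩
        rw [hI.U_inner (k := k) (c := y) (c' := c) (fun p hp => ?_) hw hc2] at h1
        · exact (mul_eq_zero.mp h1).resolve_left (by positivity)
        · rw [hq]
          by_contra h2
          have h3 := RHarm_dim hI h2
          omega
      · refine RHarm_disj fun p => ?_
        by_cases h1 : I.dim p = k
        · left
          rw [hq]
          by_contra h2
          have h3 := RHarm_dim hI h2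
          omega
        · exact Or.inr (hc1 p h1)
    · rintro y ⟨p, hp⟩
      obtain ⟨x, rfl⟩ := hI.surj p
      rw [RHarm_cobd hI x hp c]
      have h1 : ∑ t ∈ A.exs x, A.sg x t * (ε (A.ins t x) * c (cell (A.ins t x))) = 0 := by
        by_cases hd : x.σ.card + 1 = k
        · rw [← hz3.2.2 x hd]
          exact Finset.sum_congr rfl fun t _ => by rw [hc2]
        · refine Finset.sum_eq_zero fun t ht => ?_
          rw [← hc2, hz3.1 _ (by rw [Dat.card_ins ht]; exact hd), mul_zero]
      rw [h1, mul_zero]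
  · rintro ⟨c, hc, hz⟩
    obtain ⟨h1, h2, h3⟩ := RHarm_mem.mp hc
    have hch : z ∈ A.Ch k := hI.ch_iff.mpr ⟨c, h3, hz⟩
    have hch' := Dat.mem_Ch.mp hch
    refine Dat.mem_Hf.mpr ⟨Dat.mem_Z.mpr ⟨hch'.1, hch'.2, fun x hx => ?_⟩, ?_⟩
    · -- the cycle condition
      classical
      let y : L2 C := ∑ t ∈ A.exs x, (A.sg x t * (ε x * ε (A.ins t x))) •
        (delta (cell (A.ins t x)) : L2 C)
      have hy : ∀ q, y q = (I.inc (cell x) q : ℝ) := by
        intro q
        show (∑ t ∈ A.exs x, (A.sg x t * (ε x * ε (A.ins t x))) •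
          (delta (cell (A.ins t x)) : L2 C) : L2 C) q = _
        rw [hI.inc, lp.coeFn_sum, Finset.sum_apply]
        refine Finset.sum_congr rfl fun t _ => ?_
        show (A.sg x t * (ε x * ε (A.ins t x))) * (delta (cell (A.ins t x)) : L2 C) q = _
        split_ifs with h
        · rw [← h, delta_self, mul_one]
        · rw [delta_ne (fun e => h e.symm), mul_zero]
      have h4 := h2 y ⟨cell x, hy⟩
      rw [RHarm_cobd hI x hy c] at h4
      have h5 : ε x ≠ 0 := by
        rcases hI.pm x with h | h <;> rw [h] <;> norm_num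
      rw [← (mul_eq_zero.mp h4).resolve_left h5]
      exact Finset.sum_congr rfl fun t _ => by rw [hz]
    · rintro w ⟨z', hz', hw⟩
      have hwB : w = B z' := l2_ext _ _ fun x => by rw [hw, hB]
      set y := (A.Ch (k + 1)).starProjection (ContinuousLinearMap.adjoint B z) with hydef
      have hy : y ∈ A.Ch (k + 1) := (A.Ch (k + 1)).starProjection_apply_mem _
      have hyi : ∀ u ∈ A.Ch (k + 1), inner ℝ (B u) z = inner ℝ u y := by
        intro u hu
        have e1 := (A.Ch (k + 1)).starProjection_inner_eq_zero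
          (ContinuousLinearMap.adjoint B z) u hu
        rw [inner_sub_left, sub_eq_zero] at e1
        rw [← ContinuousLinearMap.adjoint_inner_right, real_inner_comm, e1, real_inner_comm]
      obtain ⟨d, hd1, hd2⟩ := (hI.ch_iff (k := k + 1)).mp hy
      have hd : ∀ q, d q = 0 := by
        intro q
        by_cases hq : I.dim q = k + 1
        · obtain ⟨u, hu⟩ := hI.U_ex (k := k + 1) (delta q) (RHarm_delta_dim hq)
          have hu1 : u ∈ A.Ch (k + 1) := hI.ch_iff.mpr ⟨delta q, RHarm_delta_dim hq, hu⟩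
          have e1 := hI.U_inner (k := k + 1) (RHarm_delta_dim hq) hu hd2
          rw [← hyi u hu1, delta_inner] at e1
          have e2 : B u ∈ A.Ch k := by
            have e3 := Dat.mem_Z.mp (hA.Bds_sub (j := k) (w := B u) ⟨u, hu1, hB u⟩)
            exact Dat.mem_Ch.mpr ⟨e3.1, e3.2.1⟩
          obtain ⟨b, hb1, hb2⟩ := hI.ch_iff.mp e2
          have e4 : ∀ p, b p = (I.inc p q : ℝ) := by
            intro p
            obtain ⟨x, rfl⟩ := hI.surj p
            have e5 := RHarm_bd hI hu (hB u) x
            rw [hb2] at e5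
            have e6 : ε x ≠ 0 := by
              rcases hI.pm x with h | h <;> rw [h] <;> norm_num
            exact mul_left_cancel₀ e6 e5
          rw [hI.U_inner (k := k) hb1 hb2 hz, h1 b ⟨q, e4⟩, mul_zero] at e1
          exact (mul_eq_zero.mp e1.symm).resolve_left (by positivity)
        · exact hd1 q hq
      have hy0 : y = 0 := l2_ext _ _ fun x => by
        rw [hd2, hd, mul_zero]
        rfl
      rw [hwB, hyi z' hz', hy0, inner_zero_right]

private theorem RHarm_proj (hI : Flagd A I cell ε) {k : ℕ} {q : C} (hq : I.dim q = k) :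
    (harm I).starProjection (delta q) = (RHarm_hm I k).starProjection (delta q) := by
  have hmn := RHarm_mem.mp ((RHarm_hm I k).starProjection_apply_mem (delta q))
  refine (harm I).eq_starProjection_of_mem_of_inner_eq_zero
    (RHarm_mem_harm.mpr ⟨hmn.1, hmn.2.1⟩) fun c hc => ?_
  obtain ⟨hc1, hc2⟩ := RHarm_mem_harm.mp hc
  set n := (RHarm_hm I k).starProjection (delta q) with hn
  set S : Set C := {p | I.dim p = k} with hS
  have key : ∀ y ∈ SingerCub.sup S, inner ℝ y (rs S c) = inner ℝ y c := by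
    intro y hy
    have h1 := (SingerCub.sup S).starProjection_inner_eq_zero c y hy
    rw [inner_sub_left, sub_eq_zero] at h1
    show inner ℝ y ((SingerCub.sup S).starProjection c) = _
    rw [real_inner_comm, ← h1, real_inner_comm]
  have hr : rs S c ∈ RHarm_hm I k := by
    refine RHarm_mem.mpr ⟨?_, ?_, fun p hp => rs_of_notMem c hp⟩
    · rintro y ⟨r, hr⟩
      by_cases hd : I.dim r = k + 1
      · rw [key y (fun p hp => ?_)]
        · exact hc1 y ⟨r, hr⟩
        · rw [hr]
          by_contra h2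
          have h3 := RHarm_dim hI h2
          exact hp (by show I.dim p = k; omega)
      · refine RHarm_disj fun p => ?_
        by_cases h1 : p ∈ S
        · left
          have h1' : I.dim p = k := h1
          rw [hr]
          by_contra h2
          have h3 := RHarm_dim hI h2
          omega
        · exact Or.inr (rs_of_notMem c h1)
    · rintro y ⟨r, hr⟩
      by_cases hd : I.dim r + 1 = k
      · rw [key y (fun p hp => ?_)]
        · exact hc2 y ⟨r, hr⟩
        · rw [hr]
          by_contra h2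
          have h3 := RHarm_dim hI h2
          exact hp (by show I.dim p = k; omega)
      · refine RHarm_disj fun p => ?_
        by_cases h1 : p ∈ S
        · left
          have h1' : I.dim p = k := h1
          rw [hr]
          by_contra h2
          have h3 := RHarm_dim hI h2
          omega
        · exact Or.inr (rs_of_notMem c h1)
  have hsup : delta q - n ∈ SingerCub.sup S :=
    (SingerCub.sup S).sub_mem (delta_mem_sup hq) fun p hp => hmn.2.2 p hp
  rw [← key _ hsup]
  exact (RHarm_hm I k).starProjection_inner_eq_zero _ _ hr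

theorem Flagd.coef_Hf (hI : Flagd A I cell ε) (hA : Pre A) (k : ℕ) (x : A.Fl) :
    inner ℝ ((A.Hf k).starProjection (delta x)) (delta x) =
      if x.σ.card = k then locDim I (cell x) / 2 ^ k else 0 := by
  rw [hI.transfer (k := k) (M := A.Hf k) (N := RHarm_hm I k)
    (fun c hc => (RHarm_mem.mp hc).2.2) (fun z => RHarm_iff hI hA) x]
  split_ifs with h
  · unfold locDim
    rw [RHarm_proj hI (k := k) (by rw [hI.dim]; exact h)]
  · rfl

end SingerLG
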