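import Mathlib
import Pool.Agent.Lib_MP_394d50_lg.ROsum

/-!
# Piece R7: the orbits of flags and of cells

`orb_fin`: the map `⟦x⟧ ↦ ⟦cell x⟧` is surjective (`hI.surj`, `hI.smul`), `hA.fo.cofin`.
`sum_orb`: the map `(o, y) ↦ ⟦y⟧` from `Σ o : Orb G C, {y : A.Fl // cell y = o.out}` to `Orb G A.Fl` is a bijection. Injective:
`g • y = y'` gives `g • o.out = o'.out`, so `o = o'` and `g • o.out = o.out`, `g = 1` (`hI.free`). Surjective: for `x` let `o = ⟦cell x⟧`,
`g • cell x = o.out`, `y = g • x`. The summand is invariant: `(g • x).σ.card = x.σ.card` (`Finset.card_smul_finset`), `φ (cell (g • x)) =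
φ (g • cell x) = φ (cell x)`. The fibre over `o.out` has `2 ^ dim` elements (`hI.card`, `hI.surj`), all of them with `y.σ.card = dim o.out`
(`hI.dim`). (`Set.ncard` and the finiteness: `Set.finite_of_ncard_pos`, `Fintype.ofFinite`, `Nat.card_coe_set_eq`.)
-/

namespace SingerLG

open SingerVS SingerCub
open scoped Pointwise

variable {G V S C : Type} [Group G] [MulAction G V] [MulAction G S] [MulAction G C] [DecidableEq S]
  {A : Dat G V S} {I : CellCx C} {cell : A.Fl → C} {ε : A.Fl → ℝ}

private theorem rorb_dim_smul (hI : Flagd A I cell ε) (g : G) (c : C) :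
    I.dim (g • c) = I.dim c := by
  obtain ⟨x, rfl⟩ := hI.surj c
  rw [← hI.smul, hI.dim, hI.dim, Dat.Fl.smul_σ, Finset.card_smul_finset]

/-- The orbit of the cell of a flag. -/
private def rorbMap (hI : Flagd A I cell ε) : Orb G A.Fl → Orb G C :=
  Quotient.map' cell (by
    rintro x y ⟨g, hg⟩
    exact ⟨g, by
      show g • cell y = cell x
      rw [← hI.smul]
      exact congrArg cell hg⟩)

private theorem rorbMap_mk (hI : Flagd A I cell ε) (x : A.Fl) :
    rorbMap hI (Quotient.mk'' x : Orb G A.Fl) = (Quotient.mk'' (cell x) : Orb G C) := rfl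

private theorem rorbMap_surj (hI : Flagd A I cell ε) : Function.Surjective (rorbMap hI) := by
  intro o
  induction o using Quotient.inductionOn' with
  | h c =>
    obtain ⟨x, rfl⟩ := hI.surj c
    exact ⟨Quotient.mk'' x, rfl⟩

private theorem rorb_rel {X : Type} [MulAction G X] {a b : X}
    (h : (Quotient.mk'' a : Orb G X) = Quotient.mk'' b) : ∃ g : G, g • b = a := by
  have h1 := Quotient.exact h
  obtain ⟨g, hg⟩ := h1
  exact ⟨g, hg⟩

private theorem rorb_out {X : Type} [MulAction G X] (o : Orb G X) :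
    (Quotient.mk'' o.out : Orb G X) = o := Quotient.out_eq o

theorem Flagd.orb_fin (hI : Flagd A I cell ε) (hA : Pre A) : Finite (Orb G C) := by
  have : Finite (Orb G A.Fl) := hA.fo.cofin
  exact Finite.of_surjective _ (rorbMap_surj hI)

private theorem rorb_card (hI : Flagd A I cell ε) (o : Orb G C) :
    Nat.card {o' : Orb G A.Fl // rorbMap hI o' = o} = 2 ^ I.dim o.out := by
  obtain ⟨x, hx⟩ := hI.surj o.out
  have h1 : Nat.card {y : A.Fl // cell y = cell x} = 2 ^ I.dim o.out := by
    rw [← hx, hI.dim, ← hI.card x]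
    exact Nat.card_coe_set_eq _
  rw [← h1]
  refine (Nat.card_congr (Equiv.ofBijective (fun y : {y : A.Fl // cell y = cell x} =>
    (⟨Quotient.mk'' y.1, by rw [rorbMap_mk, y.2, hx, rorb_out]⟩ :
      {o' : Orb G A.Fl // rorbMap hI o' = o})) ⟨?_, ?_⟩)).symm
  · intro y y' h
    have h2 : (Quotient.mk'' y.1 : Orb G A.Fl) = Quotient.mk'' y'.1 := congrArg Subtype.val h
    obtain ⟨g, hg⟩ := rorb_rel h2
    have h3 : g • cell x = cell x := by
      have h4 : cell (g • y'.1) = cell y.1 := congrArg cell hg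
      rw [hI.smul, y'.2, y.2] at h4
      exact h4
    have h5 : g = 1 := hI.free g _ h3
    rw [h5, one_smul] at hg
    exact Subtype.ext hg.symm
  · rintro ⟨o', ho'⟩
    have h2 : (Quotient.mk'' (cell o'.out) : Orb G C) = Quotient.mk'' (cell x) := by
      rw [← rorbMap_mk hI, rorb_out, ho', hx, rorb_out]
    obtain ⟨g, hg⟩ := rorb_rel h2
    refine ⟨⟨g⁻¹ • o'.out, ?_⟩, ?_⟩
    · rw [hI.smul, ← hg, inv_smul_smul]
    · refine Subtype.ext ?_
      show (Quotient.mk'' (g⁻¹ • o'.out) : Orb G A.Fl) = o'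
      conv_rhs => rw [← rorb_out o']
      exact Quotient.sound ⟨g⁻¹, rfl⟩

theorem Flagd.sum_orb (hI : Flagd A I cell ε) (hA : Pre A) (k : ℕ) (φ : C → ℝ)
    (hφ : ∀ (g : G) c, I.dim c = k → φ (g • c) = φ c) :
    ∑ᶠ o : Orb G A.Fl, (if o.out.σ.card = k then φ (cell o.out) else 0) =
      2 ^ k * ∑ᶠ o : Orb G C, if I.dim o.out = k then φ o.out else 0 := by
  classical
  have : Finite (Orb G A.Fl) := hA.fo.cofin
  have : Finite (Orb G C) := hI.orb_fin hA
  have := Fintype.ofFinite (Orb G A.Fl)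
  have := Fintype.ofFinite (Orb G C)
  rw [finsum_eq_sum_of_fintype, finsum_eq_sum_of_fintype]
  have hinv : ∀ (g : G) c, (if I.dim (g • c) = k then φ (g • c) else 0) =
      if I.dim c = k then φ c else 0 := by
    intro g c
    rw [rorb_dim_smul hI]
    split_ifs with h
    · exact hφ g c h
    · rfl
  have h1 : ∀ o' : Orb G A.Fl, (if o'.out.σ.card = k then φ (cell o'.out) else 0) =
      (fun o : Orb G C => if I.dim o.out = k then φ o.out else 0) (rorbMap hI o') := by
    intro o'
    have h2 : (Quotient.mk'' (rorbMap hI o').out : Orb G C) = Quotient.mk'' (cell o'.out) := by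
      rw [rorb_out, ← rorbMap_mk hI, rorb_out]
    obtain ⟨g, hg⟩ := rorb_rel h2
    show _ = if I.dim (rorbMap hI o').out = k then φ (rorbMap hI o').out else 0
    rw [← hg, hinv, hI.dim]
  rw [Finset.sum_congr rfl fun o' _ => h1 o', Finset.mul_sum]
  rw [← Finset.sum_fiberwise (s := Finset.univ) (g := rorbMap hI)]
  refine Finset.sum_congr rfl fun o _ => ?_
  rw [Finset.sum_congr rfl (g := fun _ => if I.dim o.out = k then φ o.out else 0)
    (fun o' ho' => by rw [(Finset.mem_filter.mp ho').2])]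
  rw [Finset.sum_const, nsmul_eq_mul]
  by_cases h : I.dim o.out = k
  · rw [if_pos h]
    congr 1
    have h3 := rorb_card hI o
    rw [Nat.card_eq_fintype_card, Fintype.card_subtype] at h3
    rw [h3, h]
    norm_num
  · rw [if_neg h, mul_zero, mul_zero]

end SingerLG
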