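import Mathlib
import Pool.Agent.Lib_MP_394d50_lg.RHarm
import Pool.Agent.Lib_MP_394d50_lg.ROrb

/-!
# Section 6: the `ℓ²`-Betti numbers by the local dimensions of the cycles
-/

namespace SingerLG

open SingerVS SingerCub
open scoped Pointwise

variable {G V S C : Type} [Group G] [MulAction G V] [MulAction G S] [MulAction G C] [DecidableEq S]
  {A : Dat G V S} {Hs : V → S → Set V} {I : CellCx C} {cell : A.Fl → C} {ε : A.Fl → ℝ}

private theorem rm_card (x : A.Fl) (g : G) : (g • x).σ.card = x.σ.card := by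
  rw [Dat.Fl.smul_σ, Finset.card_smul_finset]

private theorem rm_tr (hA : Pre A) (k : ℕ) (φ : A.Fl → ℝ) {M : Submodule ℝ (L2 A.Fl)}
    [M.HasOrthogonalProjection] (h : ∀ x : A.Fl, inner ℝ (M.starProjection (delta x)) (delta x) =
      if x.σ.card = k then φ x / 2 ^ k else 0) :
    2 ^ k * tr G M.starProjection =
      ∑ᶠ o : Orb G A.Fl, (if o.out.σ.card = k then φ o.out else 0) := by
  have := hA.fo.cofin
  let _ : Fintype (Orb G A.Fl) := Fintype.ofFinite _
  unfold tr
  rw [finsum_eq_sum_of_fintype, finsum_eq_sum_of_fintype, Finset.mul_sum]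
  refine Finset.sum_congr rfl fun o _ => ?_
  rw [h]
  split_ifs
  · rw [mul_div_cancel₀]
    exact pow_ne_zero _ two_ne_zero
  · rw [mul_zero]

theorem Flagd.locDim_smul (hI : Flagd A I cell ε) (hA : Pre A) (g : G) (c : C) :
    locDim I (g • c) = locDim I c := by
  obtain ⟨x, rfl⟩ := hI.surj c
  have h1 := pre_coef (A.Hf_inv x.σ.card).proj g x
  rw [hI.coef_Hf hA, hI.coef_Hf hA, if_pos (rm_card x g), if_pos rfl,
    div_left_inj' (pow_ne_zero _ two_ne_zero)] at h1
  rw [← hI.smul]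
  exact h1

theorem Flagd.tr_betti (hI : Flagd A I cell ε) (hA : Pre A) (k : ℕ) :
    SingerVS.l2Betti G I k = tr G (A.Z k).starProjection + tr G (A.Z (k + 1)).starProjection -
      tr G (A.Ch (k + 1)).starProjection := by
  rw [← hA.tr_Hf]
  have h1 := rm_tr hA k (fun x => locDim I (cell x)) (hI.coef_Hf hA k)
  rw [hI.sum_orb hA k (locDim I) fun g c _ => hI.locDim_smul hA g c] at h1
  exact (mul_left_cancel₀ (pow_ne_zero _ two_ne_zero) h1).symm

theorem Flagd.betti_pre (hI : Flagd A I cell ε) (hA : Pre A) (k : ℕ) :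
    SingerVS.l2Betti G I k = osum G fun v => A.dz k v + A.dz (k + 1) v - A.cN (k + 1) v := by
  rw [hI.tr_betti hA, hA.tr_osum (A.Z_inv k).proj, hA.tr_osum (A.Z_inv (k + 1)).proj,
    hA.tr_osum (A.Ch_inv (k + 1)).proj, hA.osum_lin]
  congr 1
  unfold osum
  exact finsum_congr fun o => hI.loc_Ch (k + 1) o.out

theorem Flagd.betti (hI : Flagd A I cell ε) (hA : Stg A Hs) (k : ℕ) :
    SingerVS.l2Betti G I k = osum G fun v => A.dz k v + A.dz (k + 1) v - A.cN (k + 1) v :=
  hI.betti_pre hA.pre k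

/-- The number of the orbits of the `k`-cells. -/
private noncomputable def rm_n (G : Type) [Group G] [MulAction G C] (I : CellCx C) (k : ℕ) : ℝ :=
  ∑ᶠ o : Orb G C, if I.dim o.out = k then 1 else 0

private theorem rm_tr_Ch (hI : Flagd A I cell ε) (hA : Pre A) (k : ℕ) :
    tr G (A.Ch k).starProjection = rm_n G I k := by
  have h1 := rm_tr hA k (fun _ => 1) (hI.coef_Ch k)
  rw [hI.sum_orb hA k (fun _ => 1) fun _ _ _ => rfl] at h1
  exact mul_left_cancel₀ (pow_ne_zero _ two_ne_zero) h1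

private theorem rm_Z0 : A.Z 0 = A.Ch 0 := by
  ext z
  rw [Dat.mem_Z, Dat.mem_Ch]
  constructor
  · rintro ⟨h1, h2, _⟩
    exact ⟨h1, h2⟩
  · rintro ⟨h1, h2⟩
    exact ⟨h1, h2, fun x hx => absurd hx (Nat.succ_ne_zero _)⟩

private theorem rm_tr0 : tr G (A.Z 0).starProjection = tr G (A.Ch 0).starProjection := by
  simp only [rm_Z0]

private theorem rm_Zm {m : ℕ} (hm : ∀ x : A.Fl, x.σ.card < m) :
    tr G (A.Z m).starProjection = 0 := by
  unfold tr
  refine finsum_eq_zero_of_forall_eq_zero fun o => ?_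
  rw [real_inner_comm, delta_inner]
  exact (Dat.mem_Z.mp ((A.Z m).starProjection_apply_mem _)).1 _ (ne_of_lt (hm _))

/-- Atiyah's formula. -/
theorem Flagd.euler_pre (hI : Flagd A I cell ε) (hA : Pre A) (m : ℕ)
    (hm : ∀ x : A.Fl, x.σ.card < m) :
    ∑ k ∈ Finset.range m, (-1 : ℝ) ^ k * SingerVS.l2Betti G I k = (SingerVS.chi G I : ℝ) := by
  have h1 : ∀ n : ℕ, ∑ k ∈ Finset.range n, (-1 : ℝ) ^ k * SingerVS.l2Betti G I k =
      (∑ k ∈ Finset.range (n + 1), (-1 : ℝ) ^ k * rm_n G I k) -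
        (-1) ^ n * tr G (A.Z n).starProjection := by
    intro n
    induction n with
    | zero =>
      rw [Finset.sum_range_zero, zero_add, Finset.sum_range_one, rm_tr0,
        rm_tr_Ch hI hA, sub_self]
    | succ n ih =>
      rw [Finset.sum_range_succ, ih, Finset.sum_range_succ _ (n + 1), hI.tr_betti hA,
        rm_tr_Ch hI hA, pow_succ]
      ring
  have hdim : ∀ c, I.dim c < m := by
    intro c
    obtain ⟨x, rfl⟩ := hI.surj c
    rw [hI.dim]
    exact hm x
  have h2 : rm_n G I m = 0 := by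
    unfold rm_n
    refine finsum_eq_zero_of_forall_eq_zero fun o => ?_
    rw [if_neg (ne_of_lt (hdim _))]
  rw [h1 m, rm_Zm hm, mul_zero, sub_zero, Finset.sum_range_succ, h2, mul_zero, add_zero]
  have := hI.orb_fin hA
  let _ : Fintype (Orb G C) := Fintype.ofFinite _
  unfold SingerVS.chi rm_n
  rw [finsum_eq_sum_of_fintype, Int.cast_sum]
  have h3 : ∀ k ∈ Finset.range m, (-1 : ℝ) ^ k * ∑ᶠ o : Orb G C, (if I.dim o.out = k then 1 else 0) =
      ∑ o : Orb G C, if I.dim o.out = k then (-1 : ℝ) ^ I.dim o.out else 0 := by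
    intro k _
    rw [finsum_eq_sum_of_fintype, Finset.mul_sum]
    refine Finset.sum_congr rfl fun o _ => ?_
    split_ifs with h
    · rw [h, mul_one]
    · rw [mul_zero]
  rw [Finset.sum_congr rfl h3, Finset.sum_comm]
  refine Finset.sum_congr rfl fun o _ => ?_
  rw [Finset.sum_ite_eq, if_pos (Finset.mem_range.mpr (hdim _)), Int.cast_pow, Int.cast_neg,
    Int.cast_one]

/-- Atiyah's formula. -/
theorem Flagd.euler (hI : Flagd A I cell ε) (hA : Stg A Hs) (m : ℕ)
    (hm : ∀ x : A.Fl, x.σ.card < m) :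
    ∑ k ∈ Finset.range m, (-1 : ℝ) ^ k * SingerVS.l2Betti G I k = (SingerVS.chi G I : ℝ) :=
  hI.euler_pre hA.pre m hm

end SingerLG
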