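import Mathlib
import Pool.Agent.Lib_MP_394d50_lg.ADefs
import Pool.Agent.Lib_MP_394d50_lg.RMain
import Pool.Agent.Lib_MP_394d50_lg.DFa

/-!
# Section 6: the Davis complex
-/

namespace SingerLG

open SingerVS SingerCub
open scoped Pointwise

private theorem dm_l2 {α : Type} [Fintype α] [LinearOrder α] (L : SimpleGraph α) (k : ℕ) :
    SingerVS.l2Betti (SingerRA.Gam L) (dcx L) k = SingerRA.l2Betti L k := rfl

theorem dz_inst {G V S : Type} [Group G] [MulAction G V] [MulAction G S] (A : Dat G V S)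
    (i i' : DecidableEq S) (j : ℕ) (v : V) :
    @Dat.dz _ _ _ _ _ _ i A j v = @Dat.dz _ _ _ _ _ _ i' A j v := by
  have h : i = i' := Subsingleton.elim _ _
  rw [h]

theorem wz_eq_std {α : Type} [Fintype α] [DecidableEq α] (L : SimpleGraph α) (f : α → ℕ)
    (j : ℕ) : wz L f j = (std L f).dz j 1 := by
  unfold wz
  exact dz_inst _ _ _ _ _

open scoped Classical in
private theorem dm_cN {α : Type} [Fintype α] [LinearOrder α] (L : SimpleGraph α) (f : α → ℕ)
    (k : ℕ) : (std L f).cN k 1 =
      ((Finset.univ.filter fun σ : Finset α => L.IsClique (σ : Set α) ∧ σ.card = k).card : ℝ) /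
        2 ^ k := by
  unfold Dat.cN
  congr 2
  refine Finset.card_bij (fun σ _ => unl σ) ?_ ?_ ?_
  · intro σ hσ
    rw [Finset.mem_filter, Dat.mem_cubes] at hσ
    rw [Finset.mem_filter]
    refine ⟨Finset.mem_univ _, ?_, (card_unl σ).trans hσ.2⟩
    intro s hs t ht hst
    rw [Finset.mem_coe, mem_unl] at hs ht
    exact hσ.1.2 _ hs _ ht fun h => hst (congrArg Lab.val h)
  · intro σ _ τ _ h
    exact unl_inj h
  · intro σ hσ
    rw [Finset.mem_filter] at hσ
    have hu : unl (σ.image Lab.mk) = σ := by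
      ext s
      rw [mem_unl, Finset.mem_image]
      constructor
      · rintro ⟨t, ht, h⟩
        have : t = s := congrArg Lab.val h
        rw [← this]
        exact ht
      · intro h
        exact ⟨s, h, rfl⟩
    refine ⟨σ.image Lab.mk, ?_, hu⟩
    rw [Finset.mem_filter, Dat.mem_cubes]
    refine ⟨⟨fun s _ => std_mem L f 1 s, ?_⟩, ?_⟩
    · intro s hs t ht hst
      obtain ⟨s', hs', rfl⟩ := Finset.mem_image.mp hs
      obtain ⟨t', ht', rfl⟩ := Finset.mem_image.mp ht
      exact hσ.2.1 (Finset.mem_coe.mpr hs') (Finset.mem_coe.mpr ht')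
        fun e => hst (congrArg Lab.mk e)
    · rw [← card_unl, hu]
      exact hσ.2.2

open scoped Classical in
/-- The `ℓ²`-Betti numbers of the right-angled Coxeter group of `L` by the local dimensions `wz` of the
cycles. -/
theorem l2Betti_wz {α : Type} [Fintype α] [LinearOrder α] (L : SimpleGraph α) (f : α → ℕ)
    (hf : ∀ s t, L.Adj s t → f s ≠ f t) (k : ℕ) :
    SingerRA.l2Betti L k / 2 ^ Fintype.card α = wz L f k + wz L f (k + 1) -
      ((Finset.univ.filter fun σ : Finset α => L.IsClique (σ : Set α) ∧ σ.card = k + 1).card : ℝ) /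
        2 ^ (k + 1) := by
  have h1 := (dflagd hf).betti_pre (dst_pre hf) k
  rw [dm_l2] at h1
  have h2 : ∀ v : SingerRA.W L, (std L f).cN (k + 1) v = (std L f).cN (k + 1) 1 := fun v => rfl
  have h3 : ∀ (j : ℕ) (v : SingerRA.W L), (std L f).dz j v = (std L f).dz j 1 := by
    intro j v
    have h4 := std_dz_smul L f j v 1
    rwa [smul_eq_mul, mul_one] at h4
  have h5 : osum (SingerRA.Gam L) (fun v => (dst L f).dz k v + (dst L f).dz (k + 1) v -
      (dst L f).cN (k + 1) v) = (SingerRA.Gam L).index *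
        ((std L f).dz k 1 + (std L f).dz (k + 1) 1 - (std L f).cN (k + 1) 1) := by
    have h6 : (fun v => (dst L f).dz k v + (dst L f).dz (k + 1) v - (dst L f).cN (k + 1) v) =
        fun _ : SingerRA.W L => (std L f).dz k 1 + (std L f).dz (k + 1) 1 -
          (std L f).cN (k + 1) 1 := by
      funext v
      rw [Dat.res_dz, Dat.res_dz, Dat.res_cN, h3 k, h3 (k + 1), h2]
    rw [h6, (std_pre L f hf).osum_res (SingerRA.Gam L) _ fun _ _ => rfl]
    congr 1
    exact std_osum L _ fun _ _ => rfl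
  rw [h1, h5, gam_index, dm_cN, wz_eq_std, wz_eq_std]
  rw [Nat.cast_pow, Nat.cast_ofNat, mul_div_cancel_left₀ _ (pow_ne_zero _ two_ne_zero)]

end SingerLG
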