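import Mathlib
import Pool.Agent.Lib_MP_394d50_gt.Defs

/-!
# Piece F2: half-spaces and right-angled Coxeter groups

A set `V` with commuting involutions (`p s` and `p t` commute if `s`, `t` are adjacent in `L`) and half-spaces `H v s` is a
torsor of the right-angled Coxeter group `W L`.

Proof. `P s : Equiv.Perm V` the permutation `p s` (`inv`). `Ψ : W L →* Equiv.Perm V`, `Ψ (gen L s) = P s`, by the universal
property (`CoxeterSystem.lift` for `SingerRA.cs L`, `(cs L).lift ⟨fun s => P s, liftable⟩`, `CoxeterSystem.lift_apply_simple`; the liftability as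
in `SingerRA.lab_liftable` in `Lib_MP_394d50_gt/Defs.lean`: the matrix entry is `1`, `2` for adjacent `s`, `t`, and `0` otherwise).
Let `E v w := Ψ w⁻¹ v`. Then `E v 1 = v`, `E v (w * gen L s) = p s (E v w)` and `E v (gen L s * w) = E (p s v) w`.
CLAIM: for all `w`, `v`, `s`: if `s` is a left descent of `w` (`(cs L).IsLeftDescent w s`) then `E v w ∉ H v s`, otherwise `E v w ∈ H v s`. Induction
on the length `ℓ w` (strong induction, for all `v`, `s`).
 (a) `s` a left descent: `w = gen s * w'`, `w' = gen s * w`, `ℓ w' < ℓ w`, `s` is not a left descent of `w'`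
     (`gen s * w' = w` is longer); `E v w = E (p s v) w' ∈ H (p s v) s = (H v s)ᶜ` by the induction hypothesis.
 (b) `s` not a left descent. If `w = 1`: `E v 1 = v ∈ H v s`. Otherwise let `t` be a left descent of `w`
     (`CoxeterSystem.exists_leftDescent_of_ne_one`), `t ≠ s`, `w' = gen t * w`, `ℓ w' = ℓ w - 1`. By (a) `E v w ∉ H v t`. If `s`, `t` are not
     adjacent: `sqr`. If they are adjacent: `s` is not a left descent of `w'`: otherwise `ℓ (gen s * gen t * w) = ℓ w - 2`, and `gen s * gen t =
     gen t * gen s`, so `ℓ (gen s * w) = ℓ (gen t * (gen t * gen s * w)) ≤ ℓ w - 1 < ℓ w`: contradiction. So by the induction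
     hypothesis `E v w = E (p t v) w' ∈ H (p t v) s = H v s` (`par`).
Injectivity of `E v0`: `E v0 w = E v0 w'` gives `Ψ (w' * w⁻¹) v0 = v0`... in the form `E v0 u = v0` with `u = w * w'⁻¹`
(apply `Ψ w'` to both sides: `Ψ (w' * w⁻¹) v0 = v0` and `(w' * w⁻¹) = u⁻¹`); if `u ≠ 1` it has a left descent `s` and
`v0 = E v0 u ∉ H v0 s`, contradiction to `mem`. Surjectivity: `conn`. `Equiv.ofBijective`.
-/

namespace SingerLG

open SingerRA

private theorem FCox_adj_comm {α : Type} (L : SimpleGraph α) {s t : α} (h : L.Adj s t) :
    gen L s * gen L t = gen L t * gen L s := by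
  classical
  have h1 : (gen L s * gen L t) ^ (cox L).M s t = 1 := (cs L).simple_mul_simple_pow s t
  have h2 : (cox L).M s t = 2 := by
    show (if s = t then 1 else if L.Adj s t then 2 else 0) = 2
    rw [if_neg h.ne, if_pos h]
  rw [h2, pow_two] at h1
  have hs : gen L s * gen L s = 1 := (cs L).simple_mul_simple_self s
  have ht : gen L t * gen L t = 1 := (cs L).simple_mul_simple_self t
  calc gen L s * gen L t = (gen L s * gen L t) * 1 := by rw [mul_one]
    _ = (gen L s * gen L t) * (gen L s * (gen L t * gen L t) * gen L s) := by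
        rw [ht, mul_one (gen L s), hs]
    _ = ((gen L s * gen L t) * (gen L s * gen L t)) * (gen L t * gen L s) := by
        simp only [mul_assoc]
    _ = gen L t * gen L s := by rw [h1, one_mul]

/-- The torsor theorem. -/
theorem cox_torsor {α V : Type} (L : SimpleGraph α) (p : α → V → V) (H : V → α → Set V)
    (inv : ∀ s v, p s (p s v) = v)
    (comm : ∀ s t v, L.Adj s t → p s (p t v) = p t (p s v))
    (conn : ∀ v u, Relation.ReflTransGen (fun x y => ∃ s, y = p s x) v u)
    (mem : ∀ v s, v ∈ H v s)
    (opp : ∀ v s, H (p s v) s = (H v s)ᶜ)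
    (par : ∀ v s t, L.Adj s t → H (p t v) s = H v s)
    (sqr : ∀ v s t, s ≠ t → ¬ L.Adj s t → ∀ u, u ∈ H v s ∨ u ∈ H v t) (v0 : V) :
    ∃ e : W L ≃ V, e 1 = v0 ∧ ∀ w s, e (w * gen L s) = p s (e w) := by
  classical
  let P : α → Equiv.Perm V := fun s => ⟨p s, p s, inv s, inv s⟩
  have hP : ∀ s v, P s v = p s v := fun _ _ => rfl
  have hlift : (cox L).IsLiftable P := by
    intro i j
    by_cases h : i = j
    · subst h
      show (P i * P i) ^ (if i = i then 1 else if L.Adj i i then 2 else 0) = 1
      rw [if_pos rfl, pow_one]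
      ext v
      exact inv i v
    · show (P i * P j) ^ (if i = j then 1 else if L.Adj i j then 2 else 0) = 1
      rw [if_neg h]
      split_ifs with hij
      · rw [pow_two]
        ext v
        show p i (p j (p i (p j v))) = v
        rw [comm i j _ hij, inv i, inv j]
      · rw [pow_zero]
  let Ψ : W L →* Equiv.Perm V := (cs L).lift ⟨P, hlift⟩
  have hΨ : ∀ s, Ψ (gen L s) = P s := fun s => (cs L).lift_apply_simple hlift s
  let E : V → W L → V := fun v w => Ψ w⁻¹ v
  have hgi : ∀ s, (gen L s)⁻¹ = gen L s := fun s => (cs L).inv_simple s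
  have hE1 : ∀ v, E v 1 = v := by
    intro v
    show Ψ (1 : W L)⁻¹ v = v
    rw [inv_one, map_one]
    rfl
  have hEr : ∀ v w s, E v (w * gen L s) = p s (E v w) := by
    intro v w s
    show Ψ (w * gen L s)⁻¹ v = p s (Ψ w⁻¹ v)
    rw [mul_inv_rev, map_mul, hgi, hΨ]
    rfl
  have hEl : ∀ v w s, E v (gen L s * w) = E (p s v) w := by
    intro v w s
    show Ψ (gen L s * w)⁻¹ v = Ψ w⁻¹ (p s v)
    rw [mul_inv_rev, map_mul, hgi, hΨ]
    rfl
  -- the main claim
  have main : ∀ n : ℕ, ∀ w : W L, (cs L).length w = n → ∀ v s,
      ((cs L).IsLeftDescent w s → E v w ∉ H v s) ∧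
        (¬ (cs L).IsLeftDescent w s → E v w ∈ H v s) := by
    intro n
    induction n using Nat.strong_induction_on with
    | _ n ih =>
    intro w hw
    have hA : ∀ v s, (cs L).IsLeftDescent w s → E v w ∉ H v s := by
      intro v s hs
      have h1 : (cs L).length (gen L s * w) < n := by rw [← hw]; exact hs
      have h2 : ¬ (cs L).IsLeftDescent (gen L s * w) s := by
        rw [CoxeterSystem.IsLeftDescent, (cs L).simple_mul_simple_cancel_left]
        have h3 : (cs L).length (gen L s * w) < (cs L).length w := hs
        exact not_lt.mpr h3.le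
      have h4 := (ih _ h1 (gen L s * w) rfl (p s v) s).2 h2
      rw [opp, hEl, inv] at h4
      exact h4
    intro v s
    refine ⟨hA v s, ?_⟩
    intro hs
    by_cases hw1 : w = 1
    · rw [hw1, hE1]
      exact mem v s
    · obtain ⟨t, ht⟩ := (cs L).exists_leftDescent_of_ne_one hw1
      have hst : s ≠ t := by
        rintro rfl
        exact hs ht
      have hAt := hA v t ht
      by_cases hadj : L.Adj s t
      · have h1 : (cs L).length (gen L t * w) < n := by rw [← hw]; exact ht
        have h2 : ¬ (cs L).IsLeftDescent (gen L t * w) s := by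
          intro h3
          apply hs
          have h4 : (cs L).length (gen L s * (gen L t * w)) < (cs L).length (gen L t * w) := h3
          have h5 : (cs L).length (gen L t * w) < (cs L).length w := ht
          have h6 : gen L s * (gen L t * w) = gen L t * (gen L s * w) := by
            rw [← mul_assoc, FCox_adj_comm L hadj, mul_assoc]
          have h7 : gen L s * w = gen L t * (gen L t * (gen L s * w)) :=
            ((cs L).simple_mul_simple_cancel_left t).symm
          have h8 : (cs L).length (gen L t * (gen L t * (gen L s * w))) ≤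
              (cs L).length (gen L t * (gen L s * w)) + 1 := by
            have := (cs L).length_mul_le (gen L t) (gen L t * (gen L s * w))
            rw [(cs L).length_simple] at this
            omega
          show (cs L).length (gen L s * w) < (cs L).length w
          rw [h7]
          rw [h6] at h4
          omega
        have h3 := (ih _ h1 (gen L t * w) rfl (p t v) s).2 h2
        rw [par v s t hadj, hEl, inv] at h3
        exact h3
      · rcases sqr v s t hst hadj (E v w) with h | h
        · exact h
        · exact absurd h hAt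
  have hfix : ∀ u : W L, E v0 u = v0 → u = 1 := by
    intro u hu
    by_contra hne
    obtain ⟨s, hs⟩ := (cs L).exists_leftDescent_of_ne_one hne
    have := (main _ u rfl v0 s).1 hs
    rw [hu] at this
    exact this (mem v0 s)
  have hinj : Function.Injective (E v0) := by
    intro w w' h
    have h1 : Ψ w⁻¹ v0 = Ψ w'⁻¹ v0 := h
    have h2 : E v0 (w * w'⁻¹) = v0 := by
      show Ψ (w * w'⁻¹)⁻¹ v0 = v0
      rw [mul_inv_rev, inv_inv, map_mul, Equiv.Perm.mul_apply, h1, ← Equiv.Perm.mul_apply,
        ← map_mul, mul_inv_cancel, map_one]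
      rfl
    have h3 := hfix _ h2
    exact mul_inv_eq_one.mp h3
  have hsurj : Function.Surjective (E v0) := by
    intro u
    have h := conn v0 u
    induction h with
    | refl => exact ⟨1, hE1 v0⟩
    | tail _ hs ih =>
      obtain ⟨w, hw⟩ := ih
      obtain ⟨s, rfl⟩ := hs
      exact ⟨w * gen L s, by rw [hEr, hw]⟩
  refine ⟨Equiv.ofBijective (E v0) ⟨hinj, hsurj⟩, hE1 v0, ?_⟩
  intro w s
  exact hEr v0 w s

private theorem FCox_lift {α β : Type} {L : SimpleGraph α} {L' : SimpleGraph β} (e : L ≃g L') :
    (cox L).IsLiftable (fun s => gen L' (e s)) := by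
  classical
  intro i j
  by_cases h : i = j
  · subst h
    show (gen L' (e i) * gen L' (e i)) ^ (if i = i then 1 else if L.Adj i i then 2 else 0) = 1
    rw [if_pos rfl, pow_one]
    exact (cs L').simple_mul_simple_self (e i)
  · show (gen L' (e i) * gen L' (e j)) ^ (if i = j then 1 else if L.Adj i j then 2 else 0) = 1
    rw [if_neg h]
    split_ifs with hij
    · have h1 : L'.Adj (e i) (e j) := e.map_rel_iff.2 hij
      rw [pow_two]
      calc gen L' (e i) * gen L' (e j) * (gen L' (e i) * gen L' (e j))
          = gen L' (e i) * gen L' (e j) * (gen L' (e j) * gen L' (e i)) := by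
            rw [FCox_adj_comm L' h1]
        _ = gen L' (e i) * (gen L' (e j) * gen L' (e j)) * gen L' (e i) := by
            simp only [mul_assoc]
        _ = 1 := by
            rw [(cs L').simple_mul_simple_self, mul_one, (cs L').simple_mul_simple_self]
    · rw [pow_zero]

/-- An isomorphism of the graphs gives an isomorphism of the groups. -/
theorem cox_iso {α β : Type} {L : SimpleGraph α} {L' : SimpleGraph β} (e : L ≃g L') :
    ∃ F : W L ≃* W L', ∀ s, F (gen L s) = gen L' (e s) := by
  let F : W L →* W L' := (cs L).lift ⟨fun s => gen L' (e s), FCox_lift e⟩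
  let G : W L' →* W L := (cs L').lift ⟨fun s => gen L (e.symm s), FCox_lift e.symm⟩
  have hF : ∀ s, F (gen L s) = gen L' (e s) := fun s =>
    (cs L).lift_apply_simple (FCox_lift e) s
  have hG : ∀ s, G (gen L' s) = gen L (e.symm s) := fun s =>
    (cs L').lift_apply_simple (FCox_lift e.symm) s
  have hGF : G.comp F = MonoidHom.id (W L) := by
    apply (cs L).ext_simple
    intro i
    show G (F (gen L i)) = gen L i
    rw [hF, hG, e.symm_apply_apply]
  have hFG : F.comp G = MonoidHom.id (W L') := by
    apply (cs L').ext_simple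
    intro i
    show F (G (gen L' i)) = gen L' i
    rw [hG, hF, e.apply_symm_apply]
  exact ⟨MonoidHom.toMulEquiv F G hGF hFG, hF⟩

end SingerLG
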