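import Mathlib
import Pool.Agent.Lib_MP_394d50_lg.ADefs

/-!
# Section 5: isomorphisms of the data of stages

`IsoD A B e φ`: the bijection `e` of the vertices and the injective map `φ` of the labels give an isomorphism of `A` and
`B`; the groups do not matter, and of the colours only the order of the colours of two crossing labels at
a vertex matters.
-/

namespace SingerLG

open SingerVS SingerCub
open scoped Pointwise

/-- An isomorphism of the data of two stages. -/
structure IsoD {G V S G' V' S' : Type} [Group G] [MulAction G V] [MulAction G S]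
    [Group G'] [MulAction G' V'] [MulAction G' S'] (A : Dat G V S) (B : Dat G' V' S')
    (e : V ≃ V') (φ : S → S') : Prop where
  inj : Function.Injective φ
  D : ∀ v s', s' ∈ B.D (e v) ↔ ∃ s ∈ A.D v, φ s = s'
  nb : ∀ v, ∀ s ∈ A.D v, B.nb (φ s) (e v) = e (A.nb s v)
  cr : ∀ v, ∀ s ∈ A.D v, ∀ t ∈ A.D v, (B.cr (φ s) (φ t) ↔ A.cr s t)
  ord : ∀ v, ∀ s ∈ A.D v, ∀ t ∈ A.D v, A.cr s t → (B.col (φ s) < B.col (φ t) ↔ A.col s < A.col t)

end SingerLG
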