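import Mathlib
import Pool.Agent.Lib_MP_394d50_lg.OIso
import Pool.Agent.Lib_MP_394d50_lg.AMem
import Pool.Agent.Lib_MP_394d50_lg.AFl

/-!
# Piece F1: the local dimension of the cycles is invariant under isomorphisms

Let `h : IsoD A B e φ`.
1. The bijection of the flags `E : A.Fl ≃ B.Fl`, `E (v, σ) = (e v, φ(σ))` (`Finset.map ⟨φ, h.inj⟩` or `Finset.image`): a clique in `A.D v`
   goes to a clique in `B.D (e v)` (`h.D`, `h.cr`), injective since `φ` is, surjective: for `(v', σ')` take `v = e.symm v'` and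
   `σ = (A.D v).filter (φ · ∈ σ')`.
2. `E (A.mv s x) = B.mv (φ s) (E x)` for `s ∈ x.σ`: `x.σ ⊆ A.D (A.nb s x.v)` iff `φ(x.σ) ⊆ B.D (B.nb (φ s) (e x.v)) = B.D (e (A.nb s x.v))`
   (`h.nb`, `h.D`, injectivity).
3. `B.exs (E x) = φ(A.exs x)` (`Dat.mem_exs`; all labels are in `A.D x.v`, `h.D`, `h.cr`), `B.ins (φ t) (E x) = E (A.ins t x)` for `t ∈ A.exs x`,
   `B.sg (E x) (φ t) = A.sg x t` for `t ∈ A.exs x`: for `s ∈ x.σ` we have `s ≠ t`, so `A.cr s t` (clique `insert t x.σ`), `h.ord`; the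
   filter on `φ(x.σ)` is the image of the filter on `x.σ`.
4. `U := twE E (fun _ => 1) _ : L2 A.Fl ≃ₗᵢ[ℝ] L2 B.Fl` (`Pool/Agent/Lib_MP_394d50_vs/LOr.lean`: `twE_apply`, `twE_delta`): `(U z) (E x) = z x`,
   `U (delta x) = delta (E x)`. By `Dat.mem_Z` and 2, 3: `U z ∈ B.Z j ↔ z ∈ A.Z j`.
5. `(B.Z j).starProjection (U (delta x)) = U ((A.Z j).starProjection (delta x))` (`Submodule.eq_starProjection_of_mem_of_inner_eq_zero`, see
   `Inv.proj` in `Lib_MP_394d50_cub/ETr.lean`), so the diagonal coefficients at `x` and `E x` agree (`LinearIsometryEquiv.inner_map_map`).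
6. `Dat.loc`: the sum over `(B.cubes (e v)).attach` is reindexed by the bijection `σ ↦ φ(σ)` from `A.cubes v` (`Finset.sum_bij`, see
   `Dat.loc_inv` in `ATr.lean`).
-/

namespace SingerLG

open SingerVS SingerCub
open scoped Pointwise

variable {G V S G' V' S' : Type} [Group G] [MulAction G V] [MulAction G S]
  [Group G'] [MulAction G' V'] [MulAction G' S'] [DecidableEq S] [DecidableEq S']
  {A : Dat G V S} {B : Dat G' V' S'} {e : V ≃ V'} {φ : S → S'}

omit [DecidableEq S] in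
private theorem FIso_sub (h : IsoD A B e φ) {v : V} {σ : Finset S} :
    σ.image φ ⊆ B.D (e v) ↔ σ ⊆ A.D v := by
  constructor
  · intro h1 s hs
    obtain ⟨s1, hs1, e1⟩ := (h.D v (φ s)).mp (h1 (Finset.mem_image_of_mem φ hs))
    rwa [← h.inj e1]
  · intro h1 s' hs'
    obtain ⟨s, hs, rfl⟩ := Finset.mem_image.mp hs'
    exact (h.D v _).mpr ⟨s, h1 hs, rfl⟩

omit [DecidableEq S] in
private theorem FIso_Cl (h : IsoD A B e φ) {v : V} {σ : Finset S} (hσ : σ ⊆ A.D v) :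
    B.Cl (σ.image φ) ↔ A.Cl σ := by
  constructor
  · intro h1 s hs t ht hst
    exact (h.cr v s (hσ hs) t (hσ ht)).mp (h1 _ (Finset.mem_image_of_mem φ hs) _
      (Finset.mem_image_of_mem φ ht) fun e1 => hst (h.inj e1))
  · intro h1 s' hs' t' ht' hst
    obtain ⟨s, hs, rfl⟩ := Finset.mem_image.mp hs'
    obtain ⟨t, ht, rfl⟩ := Finset.mem_image.mp ht'
    exact (h.cr v s (hσ hs) t (hσ ht)).mpr (h1 s hs t ht fun e1 => hst (by rw [e1]))

/-- The map of the flags. -/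
private def FIso_F (h : IsoD A B e φ) (x : A.Fl) : B.Fl :=
  ⟨(e x.v, x.σ.image φ), (FIso_sub h).mpr x.2.1, (FIso_Cl h x.2.1).mpr x.2.2⟩

omit [DecidableEq S] in
private theorem FIso_bij (h : IsoD A B e φ) : Function.Bijective (FIso_F h) := by
  constructor
  · intro x y hxy
    have h1 : e x.v = e y.v := congrArg Dat.Fl.v hxy
    have h2 : x.σ.image φ = y.σ.image φ := congrArg Dat.Fl.σ hxy
    exact Dat.Fl.ext (e.injective h1) (Finset.image_injective h.inj h2)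
  · intro y
    obtain ⟨v, hv⟩ := e.surjective y.v
    set σ := (A.D v).filter fun s => φ s ∈ y.σ with hσ
    have h1 : σ ⊆ A.D v := Finset.filter_subset _ _
    have h2 : σ.image φ = y.σ := by
      ext s'
      constructor
      · intro hs'
        obtain ⟨s, hs, rfl⟩ := Finset.mem_image.mp hs'
        exact (Finset.mem_filter.mp hs).2
      · intro hs'
        have h3 := y.2.1 hs'
        have h4 : s' ∈ B.D (e v) := by
          rw [hv]
          exact h3
        obtain ⟨s, hs, rfl⟩ := (h.D v s').mp h4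
        exact Finset.mem_image_of_mem φ (Finset.mem_filter.mpr ⟨hs, hs'⟩)
    have h3 : A.Cl σ := (FIso_Cl h h1).mp (by rw [h2]; exact y.2.2)
    exact ⟨A.fl v σ ⟨h1, h3⟩, Dat.Fl.ext hv h2⟩

private noncomputable def FIso_E (h : IsoD A B e φ) : A.Fl ≃ B.Fl := Equiv.ofBijective _ (FIso_bij h)

private theorem FIso_Ev (h : IsoD A B e φ) (x : A.Fl) : (FIso_E h x).v = e x.v := rfl

private theorem FIso_Eσ (h : IsoD A B e φ) (x : A.Fl) : (FIso_E h x).σ = x.σ.image φ := rfl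

private theorem FIso_mvp {s : S} {x : A.Fl} (hx : x.σ ⊆ A.D (A.nb s x.v)) :
    (A.mv s x).v = A.nb s x.v := by
  have h1 : A.mv s x = A.fl (A.nb s x.v) x.σ ⟨hx, x.2.2⟩ := dif_pos hx
  rw [h1]
  rfl

private theorem FIso_mvn {s : S} {x : A.Fl} (hx : ¬ x.σ ⊆ A.D (A.nb s x.v)) :
    A.mv s x = x :=
  dif_neg hx

private theorem FIso_mv (h : IsoD A B e φ) (x : A.Fl) {s : S} (hs : s ∈ x.σ) :
    B.mv (φ s) (FIso_E h x) = FIso_E h (A.mv s x) := by
  have hnb := h.nb x.v s (x.2.1 hs)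
  have key : (FIso_E h x).σ ⊆ B.D (B.nb (φ s) (FIso_E h x).v) ↔ x.σ ⊆ A.D (A.nb s x.v) := by
    rw [FIso_Ev, FIso_Eσ, hnb]
    exact FIso_sub h
  by_cases h1 : x.σ ⊆ A.D (A.nb s x.v)
  · refine Dat.Fl.ext ?_ ?_
    · rw [FIso_mvp (key.mpr h1), FIso_Ev, FIso_Ev, FIso_mvp h1, hnb]
    · rw [Dat.mv_σ, FIso_Eσ, FIso_Eσ, Dat.mv_σ]
  · rw [FIso_mvn h1, FIso_mvn fun h2 => h1 (key.mp h2)]

private theorem FIso_exs (h : IsoD A B e φ) (x : A.Fl) :
    B.exs (FIso_E h x) = (A.exs x).image φ := by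
  ext s'
  rw [Dat.mem_exs, Finset.mem_image, FIso_Ev, FIso_Eσ]
  constructor
  · rintro ⟨h1, h2, h3⟩
    obtain ⟨t, ht, rfl⟩ := (h.D _ _).mp h1
    refine ⟨t, Dat.mem_exs.mpr ⟨ht, fun h4 => h2 (Finset.mem_image_of_mem φ h4), ?_⟩, rfl⟩
    rw [← Finset.image_insert] at h3
    exact (FIso_Cl h (Finset.insert_subset ht x.2.1)).mp h3
  · rintro ⟨t, ht, rfl⟩
    obtain ⟨h1, h2, h3⟩ := Dat.mem_exs.mp ht
    refine ⟨(h.D _ _).mpr ⟨t, h1, rfl⟩, fun h4 => ?_, ?_⟩
    · obtain ⟨s, hs, e1⟩ := Finset.mem_image.mp h4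
      exact h2 (by rwa [← h.inj e1])
    · rw [← Finset.image_insert]
      exact (FIso_Cl h (Finset.insert_subset h1 x.2.1)).mpr h3

private theorem FIso_ins (h : IsoD A B e φ) (x : A.Fl) {t : S} (ht : t ∈ A.exs x) :
    B.ins (φ t) (FIso_E h x) = FIso_E h (A.ins t x) := by
  have h1 : φ t ∈ B.exs (FIso_E h x) := by
    rw [FIso_exs]
    exact Finset.mem_image_of_mem φ ht
  refine Dat.Fl.ext ?_ ?_
  · rw [Dat.ins_v, FIso_Ev, FIso_Ev, Dat.ins_v]
  · rw [Dat.ins_σ B h1, FIso_Eσ, FIso_Eσ, Dat.ins_σ A ht, Finset.image_insert]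

private theorem FIso_sg (h : IsoD A B e φ) (x : A.Fl) {t : S} (ht : t ∈ A.exs x) :
    B.sg (FIso_E h x) (φ t) = A.sg x t := by
  obtain ⟨h1, h2, h3⟩ := Dat.mem_exs.mp ht
  unfold Dat.sg
  rw [FIso_Eσ, Finset.filter_image, Finset.card_image_of_injective _ h.inj]
  congr 2
  refine Finset.filter_congr fun s hs => ?_
  exact h.ord x.v s (x.2.1 hs) t h1 (h3 s (Finset.mem_insert_of_mem hs) t
    (Finset.mem_insert_self _ _) fun e1 => h2 (by rwa [← e1]))

private noncomputable def FIso_U (h : IsoD A B e φ) : L2 A.Fl ≃ₗᵢ[ℝ] L2 B.Fl :=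
  twE (FIso_E h) (fun _ => 1) (fun _ => Or.inl rfl)

private theorem FIso_Uap (h : IsoD A B e φ) (z : L2 A.Fl) (x : A.Fl) :
    (FIso_U h z) (FIso_E h x) = z x := by
  have h1 := twE_apply (FIso_E h) (fun _ => 1) (fun _ => Or.inl rfl) z x
  rw [one_mul] at h1
  exact h1

private theorem FIso_Udel (h : IsoD A B e φ) (x : A.Fl) :
    FIso_U h (delta x) = delta (FIso_E h x) := by
  have h1 := twE_delta (FIso_E h) (fun _ => 1) (fun _ => Or.inl rfl) x
  rw [one_smul] at h1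
  exact h1

private theorem FIso_mem (h : IsoD A B e φ) {j : ℕ} (z : L2 A.Fl) :
    FIso_U h z ∈ B.Z j ↔ z ∈ A.Z j := by
  rw [Dat.mem_Z, Dat.mem_Z]
  refine and_congr ((FIso_E h).surjective.forall.trans (forall_congr' fun x => ?_))
    (and_congr ((FIso_E h).surjective.forall.trans (forall_congr' fun x => ?_))
      ((FIso_E h).surjective.forall.trans (forall_congr' fun x => ?_)))
  · rw [FIso_Uap, FIso_Eσ, Finset.card_image_of_injective _ h.inj]
  · rw [FIso_Uap, FIso_Eσ, Finset.forall_mem_image]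
    refine forall₂_congr fun s hs => ?_
    rw [FIso_mv h x hs, FIso_Uap]
  · rw [FIso_exs, FIso_Eσ, Finset.card_image_of_injective _ h.inj,
      Finset.sum_image fun a _ b _ hab => h.inj hab]
    have h1 : ∑ t ∈ A.exs x, B.sg (FIso_E h x) (φ t) * (FIso_U h z) (B.ins (φ t) (FIso_E h x)) =
        ∑ t ∈ A.exs x, A.sg x t * z (A.ins t x) :=
      Finset.sum_congr rfl fun t ht => by rw [FIso_sg h x ht, FIso_ins h x ht, FIso_Uap]
    rw [h1]

private theorem FIso_coef (h : IsoD A B e φ) {j : ℕ} (x : A.Fl) :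
    inner ℝ ((B.Z j).starProjection (delta (FIso_E h x))) (delta (FIso_E h x)) =
      inner ℝ ((A.Z j).starProjection (delta x)) (delta x) := by
  have h1 : (B.Z j).starProjection (FIso_U h (delta x)) =
      FIso_U h ((A.Z j).starProjection (delta x)) := by
    refine (B.Z j).eq_starProjection_of_mem_of_inner_eq_zero
      ((FIso_mem h _).mpr ((A.Z j).starProjection_apply_mem _)) ?_
    intro w hw
    obtain ⟨w', rfl⟩ := (FIso_U h).surjective w
    rw [← map_sub, (FIso_U h).inner_map_map]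
    exact (A.Z j).starProjection_inner_eq_zero _ _ ((FIso_mem h _).mp hw)
  rw [← FIso_Udel, h1, (FIso_U h).inner_map_map]

/-- The local dimension of the cycles is invariant under isomorphisms. -/
theorem IsoD.dz (h : IsoD A B e φ) (j : ℕ) (v : V) : B.dz j (e v) = A.dz j v := by
  unfold Dat.dz Dat.loc
  symm
  have hm : ∀ σ, σ ∈ A.cubes v → σ.image φ ∈ B.cubes (e v) := by
    intro σ hσ
    rw [Dat.mem_cubes] at hσ ⊢
    exact ⟨(FIso_sub h).mpr hσ.1, (FIso_Cl h hσ.1).mpr hσ.2⟩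
  refine Finset.sum_bij (fun σ _ => ⟨σ.1.image φ, hm σ.1 σ.2⟩) (fun _ _ => Finset.mem_attach _ _)
    ?_ ?_ ?_
  · intro σ _ τ _ e1
    exact Subtype.ext (Finset.image_injective h.inj (congrArg Subtype.val e1))
  · intro τ _
    obtain ⟨x, hx⟩ := (FIso_E h).surjective (B.fl (e v) τ.1 (Dat.mem_cubes.mp τ.2))
    have h1 : x.v = v := e.injective (congrArg Dat.Fl.v hx)
    have h2 : x.σ.image φ = τ.1 := congrArg Dat.Fl.σ hx
    refine ⟨⟨x.σ, Dat.mem_cubes.mpr ⟨?_, x.2.2⟩⟩, Finset.mem_attach _ _, Subtype.ext h2⟩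
    rw [← h1]
    exact x.2.1
  · intro σ _
    exact (FIso_coef h (A.fl v σ.1 (Dat.mem_cubes.mp σ.2))).symm

end SingerLG
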