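import Mathlib
import Pool.Agent.Lib_MP_394d50_lg.FIso
import Pool.Agent.Lib_MP_394d50_lg.FCox

/-!
# Piece F3: the last stage, and the invariance of `wl`
-/

namespace SingerLG

open SingerVS SingerCub
open scoped Pointwise

private theorem FLast_D {α : Type} [Fintype α] (L : SimpleGraph α) (f : α → ℕ)
    (w : SingerRA.W L) (s : Lab α) : s ∈ (std L f).D w := by
  show s ∈ (Finset.univ : Finset α).map ⟨Lab.mk, fun _ _ h => congrArg Lab.val h⟩
  exact Finset.mem_map.mpr ⟨s.val, Finset.mem_univ _, rfl⟩

/-- `wz` is invariant under isomorphisms of the graph which keep the order of the colours of adjacent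
vertices. -/
theorem wz_iso {α β : Type} [Fintype α] [Fintype β] {L : SimpleGraph α} {L' : SimpleGraph β}
    (e : L ≃g L') (f : α → ℕ) (f' : β → ℕ)
    (hf : ∀ s t, L.Adj s t → (f' (e s) < f' (e t) ↔ f s < f t)) (j : ℕ) :
    wz L' f' j = wz L f j := by
  classical
  obtain ⟨F, hF⟩ := cox_iso e
  have h : IsoD (std L f) (std L' f') F.toEquiv (fun s => Lab.mk (e s.val)) := by
    constructor
    · intro s t hst
      have h1 : e s.val = e t.val := congrArg Lab.val hst
      have h2 : s.val = t.val := e.injective h1
      cases s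
      cases t
      exact congrArg Lab.mk h2
    · intro v s'
      constructor
      · intro _
        refine ⟨Lab.mk (e.symm s'.val), FLast_D L f v _, ?_⟩
        show Lab.mk (e (e.symm s'.val)) = s'
        rw [RelIso.apply_symm_apply]
      · intro _
        exact FLast_D L' f' _ _
    · intro v s _
      show F v * SingerRA.gen L' (e s.val) = F (v * SingerRA.gen L s.val)
      rw [map_mul, hF]
    · intro v s _ t _
      exact e.map_adj_iff
    · intro v s _ t _ hst
      exact hf s.val t.val hst
  have h1 := h.dz j 1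
  have h2 : F.toEquiv (1 : SingerRA.W L) = 1 := map_one F
  rw [h2] at h1
  exact h1

variable {G V S : Type} [Group G] [MulAction G V] [MulAction G S] [DecidableEq S]
  {A : Dat G V S} {Hs : V → S → Set V}

omit [DecidableEq S] in
/-- `wl` is invariant under the group. -/
theorem Dat.wl_smul (A : Dat G V S) (j : ℕ) (g : G) (v : V) : A.wl j (g • v) = A.wl j v := by
  let e : A.lkg v ≃g A.lkg (g • v) :=
    { toFun := fun s => ⟨g • s.1, A.smul_D g v s.1 s.2⟩
      invFun := fun s => ⟨g⁻¹ • s.1, by
        have h := A.smul_D g⁻¹ _ _ s.2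
        rwa [inv_smul_smul] at h⟩
      left_inv := fun s => Subtype.ext (inv_smul_smul g s.1)
      right_inv := fun s => Subtype.ext (smul_inv_smul g s.1)
      map_rel_iff' := by
        intro s t
        have h1 : ∀ a b : S, A.cr (g • a) (g • b) ↔ A.cr a b := by
          intro a b
          refine ⟨fun h => ?_, A.smul_cr g a b⟩
          have h2 := A.smul_cr g⁻¹ _ _ h
          rwa [inv_smul_smul, inv_smul_smul] at h2
        constructor
        · rintro ⟨h2, h3⟩
          refine ⟨fun e => h2 (by rw [e]), ?_⟩
          rcases h3 with h3 | h3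
          · exact Or.inl ((h1 _ _).mp h3)
          · exact Or.inr ((h1 _ _).mp h3)
        · rintro ⟨h2, h3⟩
          refine ⟨fun e => h2 (Subtype.ext (smul_left_cancel g (congrArg Subtype.val e))), ?_⟩
          rcases h3 with h3 | h3
          · exact Or.inl ((h1 _ _).mpr h3)
          · exact Or.inr ((h1 _ _).mpr h3) }
  refine wz_iso e _ _ ?_ j
  intro s t _
  show A.col (g • s.1) < A.col (g • t.1) ↔ A.col s.1 < A.col t.1
  rw [A.smul_col, A.smul_col]

private theorem FLast_std {α : Type} [Fintype α] {L : SimpleGraph α} {f : α → ℕ}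
    {e : SingerRA.W L ≃ V} {φ : Lab α → S} (h : IsoD (std L f) A e φ) (j : ℕ) :
    A.dz j (e 1) = wz L f j := by
  classical
  exact h.dz j 1

/-- The last stage: if all edges are mirrored, the stage is the standard one. -/
theorem Stg.last (hA : Stg A Hs) (hM : ∀ v, ∀ s ∈ A.D v, A.D (A.nb s v) = A.D v) (j : ℕ) (v : V) :
    A.dz j v = A.wl j v := by
  have hD : ∀ u, A.D u = A.D v := by
    intro u
    have h := hA.conn v u
    induction h with
    | refl => rfl
    | tail _ h ih =>
      obtain ⟨s, hs, rfl⟩ := h
      rw [hM _ s hs, ih]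
  have hm : ∀ (s : {s : S // s ∈ A.D v}) u, s.1 ∈ A.D u := by
    intro s u
    rw [hD u]
    exact s.2
  have hcr : ∀ s t : {s : S // s ∈ A.D v}, (A.lkg v).Adj s t ↔ A.cr s.1 t.1 := by
    intro s t
    constructor
    · rintro ⟨_, h | h⟩
      · exact h
      · exact hA.cr_symm _ _ h
    · intro h
      refine ⟨fun e => ?_, Or.inl h⟩
      subst e
      exact hA.cr_col _ _ h rfl
  obtain ⟨e, he1, he⟩ := cox_torsor (A.lkg v) (fun s u => A.nb s.1 u) (fun u s => Hs u s.1)
    (fun s u => hA.nb_nb u s.1 (hm s u))
    (fun s t u h => hA.comm u s.1 (hm s u) t.1 (hm t u) ((hcr s t).mp h))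
    (fun u u' => by
      have h := hA.conn u u'
      induction h with
      | refl => exact Relation.ReflTransGen.refl
      | @tail x _ _ h ih =>
        obtain ⟨s, hs, rfl⟩ := h
        have hs' : s ∈ A.D v := by
          rw [← hD x]
          exact hs
        exact ih.tail ⟨⟨s, hs'⟩, rfl⟩)
    (fun u s => hA.mem u s.1 (hm s u))
    (fun u s => hA.opp u s.1 (hm s u))
    (fun u s t h => hA.par u s.1 (hm s u) t.1 (hm t u) ((hcr s t).mp h))
    (fun u s t hst h => hA.sqr u s.1 (hm s u) t.1 (hm t u) (fun e => hst (Subtype.ext e))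
      (fun h' => h ((hcr s t).mpr h'))) v
  have h : IsoD (std (A.lkg v) fun s => A.col s.1) A e (fun s => s.val.1) := by
    constructor
    · intro s t hst
      cases s
      cases t
      exact congrArg Lab.mk (Subtype.ext hst)
    · intro w s'
      constructor
      · intro h
        rw [hD] at h
        exact ⟨Lab.mk ⟨s', h⟩, FLast_D _ _ _ _, rfl⟩
      · rintro ⟨s, _, rfl⟩
        exact hm s.val _
    · intro w s _
      exact (he w s.val).symm
    · intro w s _ t _
      exact (hcr s.val t.val).symm
    · intro w s _ t _ _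
      exact Iff.rfl
  have h1 := FLast_std h j
  rw [he1] at h1
  exact h1

end SingerLG
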