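import Mathlib
import Pool.Agent.Lib_MP_394d50_cub.KDefs
import Pool.Agent.Lib_MP_394d50_vs.LDefs
import Pool.Agent.Lib_MP_394d50_gt.Defs
import Pool.Agent.Lib_MP_394d50_bary.BDefs

/-!
# CAT(0) cube complexes: the cubical chain complex, the links, the hypotheses

The cube complex is given by its half-spaces (`HS`, see `Lib_MP_394d50_cub/KDefs.lean`): `H` is the set of the
half-spaces, `st` the complement, `V` the set of the vertices (a vertex is the set of the half-spaces which
contain it); a cube `c` is given by the set `c.s` of the half-spaces which contain it.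
-/

namespace SingerLG

open SingerVS SingerCub
open scoped Pointwise

section

variable {H : Type}

open scoped Classical in
/-- The cubical chain complex. The dimension of a cube is the number of the walls which cross it (`h` and
`st h` are the two half-spaces of a wall, `h < st h` chooses one of them); the boundary of the cube `q` is
`∑ ± ((face of q in h) - (face of q in st h))`, the sum over the walls `h` which cross `q`, with the sign
`(-1) ^ (number of the smaller walls which cross q)`. -/
noncomputable def cubCx [LinearOrder H] (st : H → H) (V : Set (Set H)) :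
    CellCx {c : Cb H // c ∈ Cub st Set.univ V} where
  dim c := {h | Crs st h c.1 ∧ h < st h}.ncard
  inc p q := ∑ᶠ h : {h // Crs st h q.1 ∧ h < st h},
    (-1) ^ {k | Crs st k q.1 ∧ k < st k ∧ k < h.1}.ncard *
      ((if p.1.s = insert h.1 q.1.s then 1 else 0) -
        (if p.1.s = insert (st h.1) q.1.s then 1 else 0))

open scoped Classical in
/-- The `ℓ²`-Betti number `b_k^{(2)}(X/Γ)`: the sum over the orbits of the `k`-cubes `c` of
`⟨P δ_c, δ_c⟩`, where `P` is the orthogonal projection on the harmonic square summable cubical chains. -/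
noncomputable def bettiC (Γ : Type) [Group Γ] [MulAction Γ H] [LinearOrder H] (st : H → H)
    (V : Set (Set H)) (k : ℕ) : ℝ :=
  ∑ᶠ o : MulAction.orbitRel.Quotient Γ (Cb H),
    if h : o.out ∈ Cub st Set.univ V then
      if (cubCx st V).dim ⟨o.out, h⟩ = k then locDim (cubCx st V) ⟨o.out, h⟩ else 0
    else 0

open scoped Classical in
/-- The Euler characteristic of `X/Γ`: the alternating number of the orbits of cubes. -/
noncomputable def chiC (Γ : Type) [Group Γ] [MulAction Γ H] [LinearOrder H] (st : H → H)
    (V : Set (Set H)) : ℤ :=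
  ∑ᶠ o : MulAction.orbitRel.Quotient Γ (Cb H),
    if h : o.out ∈ Cub st Set.univ V then (-1) ^ (cubCx st V).dim ⟨o.out, h⟩ else 0

/-- The edges at the vertex `v`: the half-spaces `h ∋ v` such that the neighbour of `v` across the wall of
`h` exists. -/
abbrev Edg (st : H → H) (V : Set (Set H)) (v : Set H) : Type := {h : H // h ∈ v ∧ flip st h v ∈ V}

/-- The 1-skeleton of the link of the vertex `v`: two edges at `v` are adjacent if they span a square, that is
the vertex opposite to `v` of this square exists. (The link is the flag complex of this graph.) -/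
def lkH (st : H → H) (V : Set (Set H)) (v : Set H) : SimpleGraph (Edg st V v) where
  Adj h k := h ≠ k ∧ (v \ {h.1, k.1}) ∪ {st h.1, st k.1} ∈ V
  symm := ⟨fun h k e => ⟨e.1.symm, by rw [Set.pair_comm k.1 h.1, Set.pair_comm (st k.1)]; exact e.2⟩⟩
  loopless := ⟨fun _ h => h.1 rfl⟩

open scoped Classical in
/-- The sum over the orbits of the vertices `v` of the `k`-th `ℓ²`-Betti number of the right-angled Coxeter
group `W` of the link of `v`. (`SingerRA.l2Betti L k` is the `ℓ²`-Betti number of the kernel of `W → (ℤ/2)^m`, `m` the
number of the vertices of `L`; divided by its index `2 ^ m` it is the `ℓ²`-Betti number of `W`.) -/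
noncomputable def lkSum (Γ : Type) [Group Γ] [MulAction Γ H] [LinearOrder H] (st : H → H)
    (V : Set (Set H)) (k : ℕ) : ℝ :=
  ∑ᶠ o : MulAction.orbitRel.Quotient Γ (Cb H),
    if o.out.s ∈ V then
      SingerRA.l2Betti (lkH st V o.out.s) k / 2 ^ Nat.card (Edg st V o.out.s)
    else 0

/-- `Γ` acts on the CAT(0) cube complex, freely on the cubes and with finitely many orbits of cubes. -/
structure CubAct (Γ : Type) [Group Γ] [MulAction Γ H] (st : H → H) (V : Set (Set H)) : Prop where
  hs : HS st Set.univ V
  st_smul : ∀ (g : Γ) (h : H), st (g • h) = g • st h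
  V_smul : ∀ (g : Γ), ∀ v ∈ V, g • v ∈ V
  free : ∀ (g : Γ), ∀ c ∈ Cub st Set.univ V, g • c = c → g = 1
  fin : ∃ R : Finset (Cb H), ∀ c ∈ Cub st Set.univ V, ∃ (g : Γ), ∃ r ∈ R, c = g • r

/-- A subgroup of finite index such that no wall crosses one of its translates by the subgroup. -/
def VirtEmb (Γ : Type) [Group Γ] [MulAction Γ H] (st : H → H) (V : Set (Set H)) : Prop :=
  ∃ K : Subgroup Γ, K.FiniteIndex ∧ ∀ g ∈ K, ∀ h : H, ∀ c ∈ Cub st Set.univ V,
    Crs st h c → Crs st (g • h) c → g • h = h ∨ g • h = st h

end

end SingerLG
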