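import Mathlib
import Pool.Agent.Lib_MP_394d50_lg.HDefs
import Pool.Agent.Lib_MP_394d50_cub.KSub
import Pool.Agent.Lib_MP_394d50_cub.KFin

/-!
# Piece H1: vertices, edges, local finiteness

`vert_mem`: `c = ⟨v⟩`: no wall is undecided, and an orientation which contains `v` is `v` (as in `KFin_vert`, which is private in
`Lib_MP_394d50_cub/KFin.lean`: copy the proof).
`vfree`: `hX.free` for the cube `⟨v⟩`.
`edge_cub`: `c = v \ {h}`: undecided half-spaces `h`, `st h`; an orientation which contains `v \ {h}` is `v` or `flip st h v`.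
`edge_fin`: the map `h ↦ ⟨v \ {h}⟩` is injective on `{h | h ∈ v ∧ flip st h v ∈ V}`, its values are cubes, so `= g • r` with `r ∈ R` (`hX.fin`). For a cube `r` with
`g • r = v \ {h}`: `Crs st k r` for `k = g⁻¹ • h`, and `g⁻¹ • v = insert k r.s` (a vertex), `g⁻¹ • v` is one of the finitely many vertices which contain `r.s` (the undecided
half-spaces of `r` are finitely many: `v' = r.s ∪ (subset of a finite set)`, `Set.Finite.finite_subsets`), and `g⁻¹ • v = v'` determines `g` (`vfree`). So the set of the pairs `(r, g)`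
is finite. General statement proved on the way: `sub_fin`: a vertex `v` contains (`c.s ⊆ v`) only finitely many cubes `c`: `c = g • r`, `g⁻¹ • v ⊇ r.s`.
`orb_fin`: finitely many orbits of vertices under a subgroup `K` of finite index: `SingerVS.sum_orb_index` (`Lib_MP_394d50_vs/LIdx.lean`) or directly.
`st_inj`, `st_ne`: `HS.inv`, `HS.st_ne` (KSub).
-/

namespace SingerLG

open SingerVS SingerCub
open scoped Pointwise

variable {H Γ : Type} [Group Γ] [MulAction Γ H] {st : H → H} {V : Set (Set H)}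

private theorem HBas_eq {v w : Set H} (hv : Ori st Set.univ v) (hw : Ori st Set.univ w)
    (hvw : v ⊆ w) : v = w := by
  apply Set.eq_of_subset_of_subset hvw
  intro x hx
  by_contra hxv
  have h1 : st x ∈ v := by
    by_contra hc
    exact hxv ((hv.2 x (Set.mem_univ x)).2 hc)
  exact (hw.2 x (Set.mem_univ x)).1 hx (hvw h1)

theorem CubAct.vert_mem (hX : CubAct Γ st V) {v : Set H} (hv : v ∈ V) :
    (⟨v⟩ : Cb H) ∈ Cub st Set.univ V := by
  have ov := hX.hs.ori v hv
  refine ⟨ov.1, fun h hh => (ov.2 h (Set.mem_univ h)).1 hh, ?_, ?_⟩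
  · refine Set.Finite.subset Set.finite_empty ?_
    rintro h ⟨_, h2, h3⟩
    exact (h2 ((ov.2 h (Set.mem_univ h)).2 h3)).elim
  · intro w hw hvw
    rw [← HBas_eq ov hw hvw]
    exact hv

theorem CubAct.vfree (hX : CubAct Γ st V) {g : Γ} {v : Set H} (hv : v ∈ V) (h : g • v = v) :
    g = 1 :=
  hX.free g ⟨v⟩ (hX.vert_mem hv) (Cb.ext h)

/-- A vertex contains `h` or `st h`, not both. -/
theorem CubAct.st_mem (hX : CubAct Γ st V) {v : Set H} (hv : v ∈ V) (h : H) :
    st h ∈ v ↔ h ∉ v := by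
  have h1 := (hX.hs.ori v hv).2 h (Set.mem_univ h)
  tauto

theorem CubAct.edge_cub (hX : CubAct Γ st V) {v : Set H} (hv : v ∈ V) {h : H} (hh : h ∈ v)
    (hf : flip st h v ∈ V) : (⟨v \ {h}⟩ : Cb H) ∈ Cub st Set.univ V := by
  have ov := hX.hs.ori v hv
  refine ⟨Set.subset_univ _, fun k hk hk' => (ov.2 k (Set.mem_univ k)).1 hk.1 hk'.1, ?_, ?_⟩
  · refine (Set.toFinite ({h, st h} : Set H)).subset ?_
    rintro k ⟨_, h2, h3⟩
    by_cases e : k = h
    · left
      exact e
    · right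
      have hkv : k ∉ v := fun h4 => h2 ⟨h4, e⟩
      have h4 : st k ∈ v := (hX.st_mem hv k).2 hkv
      have h5 : st k = h := by
        by_contra h6
        exact h3 ⟨h4, h6⟩
      change k = st h
      rw [← h5, hX.hs.inv]
  · intro w hw hvw
    by_cases hhw : h ∈ w
    · have : v = w := by
        refine HBas_eq ov hw fun x hx => ?_
        by_cases e : x = h
        · rw [e]
          exact hhw
        · exact hvw ⟨hx, e⟩
      rw [← this]
      exact hv
    · have h1 : st h ∈ w := by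
        by_contra hc
        exact hhw ((hw.2 h (Set.mem_univ h)).2 hc)
      have : flip st h v = w := by
        refine HBas_eq (hX.hs.ori _ hf) hw fun x hx => ?_
        rcases hx with hx | hx
        · rw [hx]
          exact h1
        · exact hvw hx
      rw [← this]
      exact hf

private theorem HBas_fin_compl {c : Set H} (hc : {h | h ∉ c ∧ st h ∉ c}.Finite) :
    {v : Set H | Ori st Set.univ v ∧ c ⊆ v}.Finite := by
  refine (hc.finite_subsets.image (fun t => c ∪ t)).subset ?_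
  rintro v ⟨hv, hcv⟩
  refine ⟨v \ c, ?_, ?_⟩
  · rintro h ⟨h1, h2⟩
    exact ⟨h2, fun h3 => (hv.2 h (Set.mem_univ h)).1 h1 (hcv h3)⟩
  · exact Set.union_sdiff_cancel hcv

theorem CubAct.sub_fin (hX : CubAct Γ st V) {v : Set H} (hv : v ∈ V) :
    {c : Cb H | c ∈ Cub st Set.univ V ∧ c.s ⊆ v}.Finite := by
  classical
  obtain ⟨R, hR⟩ := hX.fin
  have hfin : (⋃ r ∈ {r : Cb H | r ∈ R ∧ {h | h ∉ r.s ∧ st h ∉ r.s}.Finite},
      ⋃ w ∈ {w : Set H | Ori st Set.univ w ∧ r.s ⊆ w},
        {c : Cb H | ∃ g : Γ, g • w = v ∧ c = g • r}).Finite := by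
    refine Set.Finite.biUnion ((Finset.finite_toSet R).subset fun r hr => hr.1) ?_
    intro r hr
    refine Set.Finite.biUnion (HBas_fin_compl hr.2) ?_
    intro w _
    refine Set.Subsingleton.finite ?_
    rintro _ ⟨g, hg, rfl⟩ _ ⟨g', hg', rfl⟩
    have h1 : (g' * g⁻¹) • v = v := by
      rw [mul_smul, ← hg, inv_smul_smul, hg', hg]
    have h2 := hX.vfree hv h1
    rw [mul_inv_eq_one] at h2
    rw [h2]
  refine hfin.subset ?_
  rintro c ⟨hc, hcv⟩
  obtain ⟨g, r, hr, rfl⟩ := hR c hc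
  have hU : {h | h ∉ r.s ∧ st h ∉ r.s}.Finite := by
    have h1 := hc.2.2.1
    rw [Cb.smul_s] at h1
    refine Set.Finite.of_finite_image (f := fun h => g • h) (h1.subset ?_)
      (MulAction.injective g).injOn
    rintro _ ⟨h, ⟨h2, h3⟩, rfl⟩
    refine ⟨Set.mem_univ _, ?_, ?_⟩
    · rw [Set.smul_mem_smul_set_iff]
      exact h2
    · change st (g • h) ∉ g • r.s
      rw [hX.st_smul, Set.smul_mem_smul_set_iff]
      exact h3
  rw [Set.mem_iUnion₂]
  refine ⟨r, ⟨hr, hU⟩, ?_⟩
  rw [Set.mem_iUnion₂]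
  refine ⟨g⁻¹ • v, ⟨hX.hs.ori _ (hX.V_smul _ _ hv), ?_⟩, g, smul_inv_smul g v, rfl⟩
  rw [Cb.smul_s] at hcv
  exact Set.subset_smul_set_iff.mpr (by rw [inv_inv]; exact hcv)

theorem CubAct.edge_fin (hX : CubAct Γ st V) {v : Set H} (hv : v ∈ V) :
    {h | h ∈ v ∧ flip st h v ∈ V}.Finite := by
  refine Set.Finite.of_finite_image (f := fun h => (⟨v \ {h}⟩ : Cb H))
    ((hX.sub_fin hv).subset ?_) ?_
  · rintro _ ⟨h, ⟨h1, h2⟩, rfl⟩
    exact ⟨hX.edge_cub hv h1 h2, Set.sdiff_subset⟩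
  · rintro h ⟨h1, _⟩ k ⟨_, _⟩ e
    have e1 : v \ {h} = v \ {k} := congrArg Cb.s e
    by_contra hne
    have h2 : h ∈ v \ {k} := ⟨h1, hne⟩
    rw [← e1] at h2
    exact h2.2 rfl

end SingerLG
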