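import Mathlib
import Pool.Agent.Lib_MP_394d50_lg.HBas
import Pool.Agent.Lib_MP_394d50_lg.SDefs

/-!
# The stage of a CAT(0) cube complex (for a subgroup `K` of the group `Γ`)

The vertices are those of the complex, the label of an edge is its wall `{h, st h}` (as a set of half-spaces,
`Cb H`), `nb s v` is the symmetric difference, and `Hs v s` is the set of the vertices which contain `s ∩ v`.

Piece H2: `cub_smul`: the four conditions of `Cub` for `g • c`: `hX.st_smul`; the undecided half-spaces of `g • c` are the image of those of `c`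
(`Set.Finite.image`); if `g • c.s ⊆ v` and `v` is an orientation then `g⁻¹ • v` is an orientation which contains `c.s`, so in `V`, `V_smul`.
`crL_smul`: with the vertex `g • v` (`smul_wall`, `smul_flip`, `Set.smul_set_union`, `Set.smul_set_sdiff`, `Set.smul_set_insert`).
`D_fin`: the image of `hX.edge_fin hv` under `wall st`.
-/

namespace SingerLG

open SingerVS SingerCub
open scoped Pointwise

variable {H Γ : Type} [Group Γ] [MulAction Γ H] {st : H → H} {V : Set (Set H)}

/-- The wall of `h`. -/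
def wall (st : H → H) (h : H) : Cb H := ⟨{h, st h}⟩

/-- The walls `s`, `t` cross: they span a square. -/
def CrL (st : H → H) (V : Set (Set H)) (s t : Cb H) : Prop :=
  ∃ v ∈ V, ∃ h ∈ v, ∃ k ∈ v, h ≠ k ∧ s = wall st h ∧ t = wall st k ∧ flip st h v ∈ V ∧
    flip st k v ∈ V ∧ (v \ {h, k}) ∪ {st h, st k} ∈ V

/-- The vertices. -/
def CubAct.VT (_ : CubAct Γ st V) (_ : Subgroup Γ) : Type := {v : Cb H // v.s ∈ V}

/-- The cubes. -/
def CubAct.CT (_ : CubAct Γ st V) (_ : Subgroup Γ) : Type := {c : Cb H // c ∈ Cub st Set.univ V}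

instance CubAct.instVT (hX : CubAct Γ st V) (K : Subgroup Γ) : MulAction K (hX.VT K) where
  smul g v := ⟨(g : Γ) • v.1, hX.V_smul g _ v.2⟩
  one_smul v := Subtype.ext (one_smul Γ v.1)
  mul_smul g h v := Subtype.ext (mul_smul (g : Γ) (h : Γ) v.1)

theorem CubAct.smul_wall (hX : CubAct Γ st V) (g : Γ) (h : H) :
    g • wall st h = wall st (g • h) := by
  apply Cb.ext
  show g • ({h, st h} : Set H) = {g • h, st (g • h)}
  rw [hX.st_smul, Set.smul_set_insert, Set.smul_set_singleton]

theorem CubAct.smul_flip (hX : CubAct Γ st V) (g : Γ) (h : H) (v : Set H) :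
    g • flip st h v = flip st (g • h) (g • v) := by
  unfold SingerCub.flip
  rw [hX.st_smul, Set.smul_set_insert, Set.smul_set_sdiff, Set.smul_set_singleton]

theorem CubAct.cub_smul (hX : CubAct Γ st V) (g : Γ) {c : Cb H} (hc : c ∈ Cub st Set.univ V) :
    g • c ∈ Cub st Set.univ V := by
  obtain ⟨_, h2, h3, h4⟩ := hc
  have hmem : ∀ h : H, h ∈ (g • c).s ↔ g⁻¹ • h ∈ c.s := fun h =>
    Set.mem_smul_set_iff_inv_smul_mem
  have hst : ∀ h : H, st (g⁻¹ • h) = g⁻¹ • st h := fun h => hX.st_smul g⁻¹ h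
  refine ⟨Set.subset_univ _, fun h hh hs => ?_, ?_, fun v hv hcv => ?_⟩
  · rw [hmem] at hh hs
    rw [← hst] at hs
    exact h2 _ hh hs
  · refine (h3.image fun h => g • h).subset ?_
    rintro h ⟨_, ha, hb⟩
    rw [hmem] at ha hb
    rw [← hst] at hb
    exact ⟨g⁻¹ • h, ⟨Set.mem_univ _, ha, hb⟩, smul_inv_smul g h⟩
  · have hw : Ori st Set.univ (g⁻¹ • v) := by
      refine ⟨Set.subset_univ _, fun h _ => ?_⟩
      rw [Set.mem_smul_set_iff_inv_smul_mem, Set.mem_smul_set_iff_inv_smul_mem, inv_inv,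
        ← hX.st_smul]
      exact hv.2 (g • h) (Set.mem_univ _)
    have hcw : c.s ⊆ g⁻¹ • v := by
      intro h hh
      rw [Set.mem_smul_set_iff_inv_smul_mem, inv_inv]
      exact hcv (Set.smul_mem_smul_set hh)
    have h5 := hX.V_smul g _ (h4 _ hw hcw)
    rwa [smul_inv_smul] at h5

instance CubAct.instCT (hX : CubAct Γ st V) (K : Subgroup Γ) : MulAction K (hX.CT K) where
  smul g c := ⟨(g : Γ) • c.1, hX.cub_smul g c.2⟩
  one_smul v := Subtype.ext (one_smul Γ v.1)
  mul_smul g h v := Subtype.ext (mul_smul (g : Γ) (h : Γ) v.1)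

theorem CubAct.crL_smul (hX : CubAct Γ st V) (g : Γ) {s t : Cb H} (h : CrL st V s t) :
    CrL st V (g • s) (g • t) := by
  obtain ⟨v, hv, h, hh, k, hk, hne, rfl, rfl, f1, f2, f3⟩ := h
  refine ⟨g • v, hX.V_smul g _ hv, g • h, Set.smul_mem_smul_set hh, g • k,
    Set.smul_mem_smul_set hk, fun e => hne (smul_left_cancel g e), hX.smul_wall g h,
    hX.smul_wall g k, ?_, ?_, ?_⟩
  · rw [← hX.smul_flip]
    exact hX.V_smul g _ f1
  · rw [← hX.smul_flip]
    exact hX.V_smul g _ f2
  · have h5 := hX.V_smul g _ f3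
    rwa [Set.smul_set_union, Set.smul_set_sdiff, Set.smul_set_insert, Set.smul_set_insert,
      Set.smul_set_singleton, Set.smul_set_singleton, ← hX.st_smul, ← hX.st_smul] at h5

/-- The walls of the edges at `v`. -/
theorem CubAct.D_fin (hX : CubAct Γ st V) {v : Set H} (hv : v ∈ V) :
    {s : Cb H | ∃ h ∈ v, flip st h v ∈ V ∧ s = wall st h}.Finite := by
  refine ((hX.edge_fin hv).image (wall st)).subset ?_
  rintro s ⟨h, hh, hf, rfl⟩
  exact ⟨h, ⟨hh, hf⟩, rfl⟩

theorem symm_smul (g : Γ) (v s : Set H) : symmDiff (g • v) (g • s) = g • symmDiff v s :=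
  Set.smul_set_symmDiff.symm

open scoped Classical in
/-- The stage of the cube complex. -/
noncomputable def CubAct.dat (hX : CubAct Γ st V) (K : Subgroup Γ) (col : Cb H → ℕ)
    (hcol : ∀ g ∈ K, ∀ s, col (g • s) = col s) : Dat K (hX.VT K) (Cb H) where
  D v := (hX.D_fin v.2).toFinset
  nb s v := if h : symmDiff v.1.s s.s ∈ V then ⟨⟨symmDiff v.1.s s.s⟩, h⟩ else v
  cr := CrL st V
  col := col
  smul_D g v s hs := by
    rw [Set.Finite.mem_toFinset] at hs ⊢
    obtain ⟨h, hh, hf, rfl⟩ := hs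
    refine ⟨(g : Γ) • h, Set.smul_mem_smul_set hh, ?_, hX.smul_wall g h⟩
    show flip st ((g : Γ) • h) ((g : Γ) • v.1.s) ∈ V
    rw [← hX.smul_flip]
    exact hX.V_smul _ _ hf
  smul_nb g s v := by
    by_cases h : symmDiff v.1.s s.s ∈ V
    · have h' : symmDiff (g • v).1.s (g • s).s ∈ V := by
        show symmDiff ((g : Γ) • v.1.s) ((g : Γ) • s.s) ∈ V
        rw [symm_smul]
        exact hX.V_smul _ _ h
      rw [dif_pos h, dif_pos h']
      exact Subtype.ext (Cb.ext (symm_smul (g : Γ) v.1.s s.s))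
    · have h' : symmDiff (g • v).1.s (g • s).s ∉ V := by
        intro e
        apply h
        have h2 : symmDiff ((g : Γ) • v.1.s) ((g : Γ) • s.s) ∈ V := e
        rw [symm_smul] at h2
        have h3 := hX.V_smul (g : Γ)⁻¹ _ h2
        rwa [inv_smul_smul] at h3
      rw [dif_neg h, dif_neg h']
  smul_cr g s t h := hX.crL_smul (g : Γ) h
  smul_col g s := hcol g g.2 s

/-- The half-spaces of the stage. -/
def CubAct.Hs (hX : CubAct Γ st V) (K : Subgroup Γ) (v : hX.VT K) (s : Cb H) : Set (hX.VT K) :=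
  {u | s.s ∩ v.1.s ⊆ u.1.s}

end SingerLG
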