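import Mathlib
import Pool.Agent.Lib_MP_394d50_lg.HDat

/-!
# Piece H3: the stage of a cube complex: the elementary axioms

Write `v`, `u` for the sets of half-spaces. `mem_D`: `Set.Finite.mem_toFinset`. For `s = wall st h`, `h ∈ v`: `symmDiff v {h, st h} = flip st h v` (`h ∈ v`, `st h ∉ v`), so
`nb_eq`: `nb s v = flip st h v`. `s ∩ v = {h}` (`wall_inter`), so `Hs v s = {u | h ∈ u}` (`mem_Hs`).
`nb_mem`: `st h ∈ flip st h v`, `flip st (st h) (flip st h v) = v` (`HS.flip_flip`), `wall st (st h) = wall st h`. `nb_nb`: the same.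
`cr_D`: let `CrL s t`, `s = wall h ∈ D v`, `t = wall k ∈ D v`, `h, k ∈ v`: then `h ≠ k` and the opposite vertex `(v \ {h, k}) ∪ {st h, st k}` exists:
the square of `CrL` has vertices `w` with all four sides of the two walls (`wall` determines `h` up to `st`), take the vertex `w` of this square with `st h, st k ∈ w`,
then `maj (flip st h v) (flip st k v) w = (v \ {h, k}) ∪ {st h, st k}` (`HS.med`): for `l` not in the two walls: `l ∈ v` iff it is in the first two.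
So `nb_D`, `comm`: `flip st k (flip st h v) = (v \ {h, k}) ∪ {st h, st k} = flip st h (flip st k v)`.
`cr_of_sq` is the converse: if the opposite vertex exists then `CrL`. `symm`: swap `h`, `k` (`Set.pair_comm`).
`mem`, `opp`, `par`, `smul`: by `mem_Hs`; `opp`: `s ∩ flip st h v = {st h}`, `st h ∈ u` iff `h ∉ u` (`st_mem`); `par`: `h ∈ flip st k v` as `h ≠ k`.
-/

namespace SingerLG

open SingerVS SingerCub
open scoped Pointwise

variable {H Γ : Type} [Group Γ] [MulAction Γ H] {st : H → H} {V : Set (Set H)}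
  {K : Subgroup Γ} {col : Cb H → ℕ} {hcol : ∀ g ∈ K, ∀ s, col (g • s) = col s}

omit [Group Γ] [MulAction Γ H] in
private theorem HAx1_sd {v : Set H} {h : H} (hh : h ∈ v) (h1 : st h ∉ v) :
    symmDiff v (wall st h).s = flip st h v := by
  ext k
  rw [Set.mem_symmDiff, mem_flip]
  show (k ∈ v ∧ ¬ (k = h ∨ k = st h)) ∨ ((k = h ∨ k = st h) ∧ k ∉ v) ↔ _
  by_cases a1 : k = h
  · subst a1
    have b1 : k ≠ st k := fun e => h1 (e ▸ hh)
    tauto
  · by_cases a2 : k = st h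
    · subst a2
      tauto
    · tauto

theorem CubAct.mem_D (hX : CubAct Γ st V) {v : hX.VT K} {s : Cb H} :
    s ∈ (hX.dat K col hcol).D v ↔ ∃ h ∈ v.1.s, flip st h v.1.s ∈ V ∧ s = wall st h := by
  unfold CubAct.dat
  exact Set.Finite.mem_toFinset _

theorem CubAct.wall_st (hX : CubAct Γ st V) (h : H) : wall st (st h) = wall st h := by
  unfold wall
  rw [hX.hs.inv, Set.pair_comm]

theorem CubAct.wall_eq (hX : CubAct Γ st V) {h k : H} (e : wall st h = wall st k) :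
    k = h ∨ k = st h := by
  have h1 : k ∈ ({h, st h} : Set H) := by
    have h2 : ({h, st h} : Set H) = {k, st k} := congrArg Cb.s e
    rw [h2]
    exact Set.mem_insert _ _
  rcases h1 with h1 | h1
  · exact Or.inl h1
  · exact Or.inr h1

theorem CubAct.nb_eq (hX : CubAct Γ st V) {v : hX.VT K} {h : H} (hh : h ∈ v.1.s)
    (hf : flip st h v.1.s ∈ V) :
    ((hX.dat K col hcol).nb (wall st h) v).1.s = flip st h v.1.s := by
  have h1 : st h ∉ v.1.s := fun h2 => (hX.st_mem v.2 h).mp h2 hh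
  have h2 : symmDiff v.1.s (wall st h).s = flip st h v.1.s := HAx1_sd hh h1
  have h3 : symmDiff v.1.s (wall st h).s ∈ V := by
    rw [h2]
    exact hf
  have h4 : (hX.dat K col hcol).nb (wall st h) v = ⟨⟨symmDiff v.1.s (wall st h).s⟩, h3⟩ :=
    dif_pos h3
  rw [h4]
  exact h2

theorem CubAct.mem_Hs (hX : CubAct Γ st V) {v u : hX.VT K} {h : H} (hh : h ∈ v.1.s) :
    u ∈ hX.Hs K v (wall st h) ↔ h ∈ u.1.s := by
  have h1 : st h ∉ v.1.s := fun h2 => (hX.st_mem v.2 h).mp h2 hh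
  constructor
  · intro h2
    exact h2 ⟨Set.mem_insert _ _, hh⟩
  · rintro h2 k ⟨hk, hk'⟩
    rcases hk with rfl | hk
    · exact h2
    · rw [Set.mem_singleton_iff.mp hk] at hk'
      exact absurd hk' h1

theorem CubAct.cr_sq (hX : CubAct Γ st V) {v : Set H} (hv : v ∈ V) {h k : H} (hh : h ∈ v)
    (hk : k ∈ v) (h1 : flip st h v ∈ V) (h2 : flip st k v ∈ V)
    (hc : CrL st V (wall st h) (wall st k)) :
    h ≠ k ∧ (v \ {h, k}) ∪ {st h, st k} ∈ V := by
  obtain ⟨v', hv', h', hh', k', hk', hne', e1, e2, f1, f2, f3⟩ := hc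
  have hsh : st h ∉ v := fun e => (hX.st_mem hv h).mp e hh
  have hsk : st k ∉ v := fun e => (hX.st_mem hv k).mp e hk
  have hne : h ≠ k := by
    rintro rfl
    rw [e1] at e2
    rcases hX.wall_eq e2 with e3 | e3
    · exact hne' e3.symm
    · rw [e3] at hk'
      exact (hX.st_mem hv' h').mp hk' hh'
  have hw : ∃ w ∈ V, st h ∈ w ∧ st k ∈ w := by
    rcases hX.wall_eq e1 with rfl | rfl <;> rcases hX.wall_eq e2 with rfl | rfl
    · exact ⟨_, f3, Or.inr (Or.inl rfl), Or.inr (Or.inr rfl)⟩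
    · exact ⟨_, f1, mem_flip.mpr (Or.inl rfl), mem_flip.mpr (Or.inr ⟨hk', hne'.symm⟩)⟩
    · exact ⟨_, f2, mem_flip.mpr (Or.inr ⟨hh', hne'⟩), mem_flip.mpr (Or.inl rfl)⟩
    · exact ⟨v', hv', hh', hk'⟩
  obtain ⟨w, hwV, hw1, hw2⟩ := hw
  have hw3 : h ∉ w := (hX.st_mem hwV h).mp hw1
  have hw4 : k ∉ w := (hX.st_mem hwV k).mp hw2
  refine ⟨hne, ?_⟩
  have h5 := hX.hs.med _ h1 _ h2 w hwV
  have h6 : maj (flip st h v) (flip st k v) w = (v \ {h, k}) ∪ {st h, st k} := by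
    ext l
    show (l ∈ flip st h v ∧ l ∈ flip st k v) ∨ (l ∈ flip st h v ∧ l ∈ w) ∨
      (l ∈ flip st k v ∧ l ∈ w) ↔ (l ∈ v ∧ ¬ (l = h ∨ l = k)) ∨ (l = st h ∨ l = st k)
    rw [mem_flip, mem_flip]
    by_cases a1 : l = h
    · subst a1
      have b1 : l ≠ st l := fun e => hsh (e ▸ hh)
      have b2 : l ≠ st k := fun e => hsk (e ▸ hh)
      tauto
    · by_cases a2 : l = k
      · subst a2
        have b1 : l ≠ st l := fun e => hsk (e ▸ hk)
        have b2 : l ≠ st h := fun e => hsh (e ▸ hk)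
        tauto
      · by_cases a3 : l = st h
        · subst a3
          tauto
        · by_cases a4 : l = st k
          · subst a4
            tauto
          · tauto
  rwa [h6] at h5

theorem CubAct.flip_comm (hX : CubAct Γ st V) {v : Set H} (hv : v ∈ V) {h k : H} (hh : h ∈ v)
    (hk : k ∈ v) (hne : h ≠ k) : flip st k (flip st h v) = (v \ {h, k}) ∪ {st h, st k} := by
  have hsh : st h ∉ v := fun e => (hX.st_mem hv h).mp e hh
  ext l
  show l ∈ flip st k (flip st h v) ↔ (l ∈ v ∧ ¬ (l = h ∨ l = k)) ∨ (l = st h ∨ l = st k)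
  rw [mem_flip, mem_flip]
  by_cases a1 : l = st h
  · subst a1
    have b1 : st h ≠ k := fun e => hsh (e ▸ hk)
    tauto
  · tauto

theorem CubAct.ax_nb_mem (hX : CubAct Γ st V) (v : hX.VT K) (s : Cb H)
    (hs : s ∈ (hX.dat K col hcol).D v) :
    s ∈ (hX.dat K col hcol).D ((hX.dat K col hcol).nb s v) := by
  obtain ⟨h, hh, hf, rfl⟩ := hX.mem_D.mp hs
  refine hX.mem_D.mpr ⟨st h, ?_, ?_, (hX.wall_st h).symm⟩
  · rw [hX.nb_eq hh hf]
    exact mem_flip.mpr (Or.inl rfl)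
  · rw [hX.nb_eq hh hf, hX.hs.flip_flip (hX.hs.ori _ v.2) hh]
    exact v.2

theorem CubAct.ax_nb_nb (hX : CubAct Γ st V) (v : hX.VT K) (s : Cb H)
    (hs : s ∈ (hX.dat K col hcol).D v) :
    (hX.dat K col hcol).nb s ((hX.dat K col hcol).nb s v) = v := by
  obtain ⟨h, hh, hf, rfl⟩ := hX.mem_D.mp hs
  have h1 := hX.nb_eq (K := K) (col := col) (hcol := hcol) hh hf
  have h2 : st h ∈ ((hX.dat K col hcol).nb (wall st h) v).1.s := by
    rw [h1]
    exact mem_flip.mpr (Or.inl rfl)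
  have h3 : flip st (st h) ((hX.dat K col hcol).nb (wall st h) v).1.s = v.1.s := by
    rw [h1, hX.hs.flip_flip (hX.hs.ori _ v.2) hh]
  have h4 : flip st (st h) ((hX.dat K col hcol).nb (wall st h) v).1.s ∈ V := by
    rw [h3]
    exact v.2
  have h5 := hX.nb_eq (K := K) (col := col) (hcol := hcol) h2 h4
  rw [hX.wall_st, h3] at h5
  exact Subtype.ext (Cb.ext h5)

theorem CubAct.ax_nb_D (hX : CubAct Γ st V) (v : hX.VT K) (s : Cb H)
    (hs : s ∈ (hX.dat K col hcol).D v) (t : Cb H) (ht : t ∈ (hX.dat K col hcol).D v)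
    (h : CrL st V s t) : t ∈ (hX.dat K col hcol).D ((hX.dat K col hcol).nb s v) := by
  obtain ⟨h', hh, hf, rfl⟩ := hX.mem_D.mp hs
  obtain ⟨k, hk, hfk, rfl⟩ := hX.mem_D.mp ht
  obtain ⟨h1, h2⟩ := hX.cr_sq v.2 hh hk hf hfk h
  refine hX.mem_D.mpr ⟨k, ?_, ?_, rfl⟩
  · rw [hX.nb_eq hh hf]
    exact mem_flip.mpr (Or.inr ⟨hk, h1.symm⟩)
  · rw [hX.nb_eq hh hf, hX.flip_comm v.2 hh hk h1]
    exact h2

theorem CubAct.ax_comm (hX : CubAct Γ st V) (v : hX.VT K) (s : Cb H)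
    (hs : s ∈ (hX.dat K col hcol).D v) (t : Cb H) (ht : t ∈ (hX.dat K col hcol).D v)
    (h : CrL st V s t) : (hX.dat K col hcol).nb s ((hX.dat K col hcol).nb t v) =
      (hX.dat K col hcol).nb t ((hX.dat K col hcol).nb s v) := by
  obtain ⟨h', hh, hf, rfl⟩ := hX.mem_D.mp hs
  obtain ⟨k, hk, hfk, rfl⟩ := hX.mem_D.mp ht
  obtain ⟨h1, h2⟩ := hX.cr_sq v.2 hh hk hf hfk h
  have a1 := hX.nb_eq (K := K) (col := col) (hcol := hcol) hh hf
  have a2 := hX.nb_eq (K := K) (col := col) (hcol := hcol) hk hfk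
  have c1 : flip st k (flip st h' v.1.s) ∈ V := by
    rw [hX.flip_comm v.2 hh hk h1]
    exact h2
  have c2 : flip st h' (flip st k v.1.s) ∈ V := by
    rw [hX.flip_comm v.2 hk hh h1.symm, Set.pair_comm k h', Set.pair_comm (st k)]
    exact h2
  have b1 : ((hX.dat K col hcol).nb (wall st k) ((hX.dat K col hcol).nb (wall st h') v)).1.s =
      flip st k (flip st h' v.1.s) := by
    rw [hX.nb_eq, a1]
    · rw [a1]
      exact mem_flip.mpr (Or.inr ⟨hk, h1.symm⟩)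
    · rw [a1]
      exact c1
  have b2 : ((hX.dat K col hcol).nb (wall st h') ((hX.dat K col hcol).nb (wall st k) v)).1.s =
      flip st h' (flip st k v.1.s) := by
    rw [hX.nb_eq, a2]
    · rw [a2]
      exact mem_flip.mpr (Or.inr ⟨hh, h1⟩)
    · rw [a2]
      exact c2
  refine Subtype.ext (Cb.ext ?_)
  rw [b1, b2, hX.flip_comm v.2 hk hh h1.symm, hX.flip_comm v.2 hh hk h1, Set.pair_comm k h',
    Set.pair_comm (st k)]

theorem CrL.symm {s t : Cb H} (h : CrL st V s t) : CrL st V t s := by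
  obtain ⟨v, hv, h, hh, k, hk, hne, e1, e2, f1, f2, f3⟩ := h
  refine ⟨v, hv, k, hk, h, hh, hne.symm, e2, e1, f2, f1, ?_⟩
  rw [Set.pair_comm k h, Set.pair_comm (st k)]
  exact f3

theorem CubAct.ax_mem (hX : CubAct Γ st V) (v : hX.VT K) (s : Cb H)
    (hs : s ∈ (hX.dat K col hcol).D v) : v ∈ hX.Hs K v s := by
  exact Set.inter_subset_right

theorem CubAct.ax_opp (hX : CubAct Γ st V) (v : hX.VT K) (s : Cb H)
    (hs : s ∈ (hX.dat K col hcol).D v) :
    hX.Hs K ((hX.dat K col hcol).nb s v) s = (hX.Hs K v s)ᶜ := by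
  obtain ⟨h, hh, hf, rfl⟩ := hX.mem_D.mp hs
  ext u
  have h1 : st h ∈ ((hX.dat K col hcol).nb (wall st h) v).1.s := by
    rw [hX.nb_eq hh hf]
    exact mem_flip.mpr (Or.inl rfl)
  have h2 := hX.mem_Hs (K := K) (u := u) h1
  rw [hX.wall_st] at h2
  rw [h2, Set.mem_compl_iff, hX.mem_Hs hh]
  exact hX.st_mem u.2 h

theorem CubAct.ax_par (hX : CubAct Γ st V) (v : hX.VT K) (s : Cb H)
    (hs : s ∈ (hX.dat K col hcol).D v) (t : Cb H) (ht : t ∈ (hX.dat K col hcol).D v)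
    (h : CrL st V s t) : hX.Hs K ((hX.dat K col hcol).nb t v) s = hX.Hs K v s := by
  obtain ⟨h', hh, hf, rfl⟩ := hX.mem_D.mp hs
  obtain ⟨k, hk, hfk, rfl⟩ := hX.mem_D.mp ht
  obtain ⟨h1, -⟩ := hX.cr_sq v.2 hh hk hf hfk h
  ext u
  have h2 : h' ∈ ((hX.dat K col hcol).nb (wall st k) v).1.s := by
    rw [hX.nb_eq hk hfk]
    exact mem_flip.mpr (Or.inr ⟨hh, h1⟩)
  rw [hX.mem_Hs h2, hX.mem_Hs hh]

theorem CubAct.ax_smul (hX : CubAct Γ st V) (g : K) (v : hX.VT K) (s : Cb H)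
    (hs : s ∈ (hX.dat K col hcol).D v) (u : hX.VT K) (hu : u ∈ hX.Hs K v s) :
    g • u ∈ hX.Hs K (g • v) (g • s) := by
  show ((g : Γ) • s.s) ∩ ((g : Γ) • v.1.s) ⊆ (g : Γ) • u.1.s
  rw [← Set.smul_set_inter]
  exact Set.smul_set_mono hu

end SingerLG
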