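import Mathlib
import Pool.Agent.Lib_MP_394d50_lg.HAx1
import Pool.Agent.Lib_MP_394d50_vs.LIdx

/-!
# Piece H4: the stage of a cube complex: the other axioms

`ax_conn`: induction on the number of elements of the finite set `v \ u` (`HS.fin`): if `v ≠ u` then `HS.conn` gives `h ∈ v`, `h ∉ u`, `flip st h v ∈ V`; one
step (label `wall st h`), and `flip st h v \ u = (v \ u) \ {h}` (`st h ∈ u`). `v \ u = ∅` gives `v = u` (orientations).
`ax_free`: `vfree`. `ax_fin`: every vertex `v` is a cube `⟨v⟩` (`vert_mem`), so `= g • r`, `r ∈ R` (`hX.fin`); finitely many `Γ`-orbits of vertices, and `K` has finite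
index: `SingerVS.sum_orb_index` (`Lib_MP_394d50_vs/LIdx.lean`, for the action of `Γ` on `hX.VT ⊤` or on `{v // v.s ∈ V}`) or a direct proof with
coset representatives (`Subgroup.exists_finset_card_eq_index`...): `g = k * t`, `t` in a finite set.
`ax_sqr`: `s = wall h`, `t = wall k`, `h, k ∈ v`. If `u` contains neither `h` nor `k`, it contains `st h`, `st k`, and
`maj (flip st h v) (flip st k v) u = (v \ {h, k}) ∪ {st h, st k} ∈ V`, so `CrL s t`.
`ax_crs`: `s = wall h`, `t = wall k`, `h ∈ v`, `k ∈ u`, `nb t u = flip st k u`; `h ∈ flip st k u` iff not `h ∈ u`: so `h = k` or `h = st k`, and `t = s`. It remains: if `w`, `u` are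
vertices which contain `h`, with `flip st h w`, `flip st h u ∈ V` then `Par s w u`. (Use it for `w = v`, if `h ∈ u`; and for `nb s v`, `st h` if `h ∉ u`.) Proof: the
vertices `w \ {h}`, `u \ {h}` of the hyperplane (`subV`), `hs_sub` (`Lib_MP_394d50_cub/KSub.lean`): it is an `HS`. Induction on the finite set
`(w \ {h}) \ (u \ {h})`: if the two are different then `HS.conn` for `subV`: `k ∈ w \ {h}`, `k ∉ u`, `flip st k (w \ {h}) ∈ subV st V h`, i.e. the vertex
`flip st k w` and its neighbour across `h` exist: a square at `w` with the walls `h`, `k`: `CrL`, one step of `Par`.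
-/

namespace SingerLG

open SingerVS SingerCub
open scoped Pointwise

variable {H Γ : Type} [Group Γ] [MulAction Γ H] {st : H → H} {V : Set (Set H)}
  {K : Subgroup Γ} {col : Cb H → ℕ} {hcol : ∀ g ∈ K, ∀ s, col (g • s) = col s}

private theorem HAx2_flip_ssub (hX : CubAct Γ st V) {v u : Set H} (hu : u ∈ V)
    {h : H} (hh : h ∈ v) (hn : h ∉ u) : flip st h v \ u ⊂ v \ u := by
  refine ⟨?_, ?_⟩
  · rintro k ⟨hk1, hk2⟩
    rcases mem_flip.mp hk1 with e | e
    · exact absurd (e ▸ (hX.st_mem hu h).mpr hn) hk2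
    · exact ⟨e.1, hk2⟩
  · intro hsub
    have h1 := (hsub ⟨hh, hn⟩).1
    rcases mem_flip.mp h1 with e | e
    · exact hX.hs.st_ne (Set.mem_univ h) e.symm
    · exact e.2 rfl

private theorem HAx2_conn (hX : CubAct Γ st V) (u : hX.VT K) : ∀ (n : ℕ) (v : hX.VT K),
    (v.1.s \ u.1.s).ncard = n → Relation.ReflTransGen (hX.dat K col hcol).Step v u := by
  intro n
  induction n using Nat.strong_induction_on with
  | _ n ih =>
    intro v hn
    by_cases e : v.1.s = u.1.s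
    · have h1 : v = u := Subtype.ext (Cb.ext e)
      rw [h1]
    · obtain ⟨h, hh, hu, hf⟩ := hX.hs.conn v.1.s v.2 u.1.s u.2 e
      have h1 : (hX.dat K col hcol).Step v ⟨⟨flip st h v.1.s⟩, hf⟩ :=
        ⟨wall st h, hX.mem_D.mpr ⟨h, hh, hf, rfl⟩, Subtype.ext (Cb.ext (hX.nb_eq hh hf).symm)⟩
      refine Relation.ReflTransGen.head h1 (ih _ ?_ _ rfl)
      rw [← hn]
      exact Set.ncard_lt_ncard (HAx2_flip_ssub hX u.2 hh hu) (hX.hs.fin _ v.2 _ u.2)

theorem CubAct.ax_conn (hX : CubAct Γ st V) (v u : hX.VT K) :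
    Relation.ReflTransGen (hX.dat K col hcol).Step v u := by
  exact HAx2_conn hX u _ v rfl

theorem CubAct.ax_free (hX : CubAct Γ st V) (g : K) (v : hX.VT K) (h : g • v = v) : g = 1 := by
  have h1 : (g : Γ) • v.1.s = v.1.s := congrArg (fun x : hX.VT K => x.1.s) h
  exact Subtype.ext (hX.vfree v.2 h1)

theorem CubAct.ax_fin (hX : CubAct Γ st V) [K.FiniteIndex] : Finite (Orb K (hX.VT K)) := by
  let _ : MulAction Γ (hX.VT K) :=
    { smul := fun g v => ⟨g • v.1, hX.V_smul g _ v.2⟩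
      one_smul := fun v => Subtype.ext (one_smul Γ v.1)
      mul_smul := fun g h v => Subtype.ext (mul_smul g h v.1) }
  have hfree : ∀ (g : Γ) (c : hX.VT K), g • c = c → g = 1 := by
    intro g v h
    have h1 : g • v.1.s = v.1.s := congrArg (fun x : hX.VT K => x.1.s) h
    exact hX.vfree v.2 h1
  obtain ⟨R, hR⟩ := hX.fin
  have hR' : ∀ o : Orb Γ (hX.VT K), ∃ r : R, ∃ g : Γ, o.out.1 = g • r.1 := by
    intro o
    obtain ⟨g, r, hr, e⟩ := hR ⟨o.out.1.s⟩ (hX.vert_mem o.out.2)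
    exact ⟨⟨r, hr⟩, g, e⟩
  choose f g hg using hR'
  have hfin : Finite (Orb Γ (hX.VT K)) := by
    refine Finite.of_injective f ?_
    intro o o' e
    have h1 := hg o
    have h2 := hg o'
    rw [← e] at h2
    rw [← Quotient.out_eq o, ← Quotient.out_eq o']
    refine Quotient.sound (MulAction.orbitRel_apply.mpr ⟨g o * (g o')⁻¹, ?_⟩)
    apply Subtype.ext
    show (g o * (g o')⁻¹) • o'.out.1 = o.out.1
    rw [h2, h1, mul_smul, inv_smul_smul]
  exact (sum_orb_index K hfree hfin (fun _ => 0) (fun _ _ => rfl)).1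

theorem CubAct.ax_sqr (hX : CubAct Γ st V) (v : hX.VT K) (s : Cb H)
    (hs : s ∈ (hX.dat K col hcol).D v) (t : Cb H) (ht : t ∈ (hX.dat K col hcol).D v)
    (hne : s ≠ t) (h : ¬ CrL st V s t) (u : hX.VT K) : u ∈ hX.Hs K v s ∨ u ∈ hX.Hs K v t := by
  obtain ⟨a, ha, hfa, rfl⟩ := hX.mem_D.mp hs
  obtain ⟨b, hb, hfb, rfl⟩ := hX.mem_D.mp ht
  rw [hX.mem_Hs ha, hX.mem_Hs hb]
  by_contra hcon
  rw [not_or] at hcon
  have hab : a ≠ b := fun e => hne (by rw [e])
  have hsa := hX.hs.st_ne (Set.mem_univ a)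
  have hsb := hX.hs.st_ne (Set.mem_univ b)
  have va := hX.st_mem v.2 a
  have vb := hX.st_mem v.2 b
  have ua := hX.st_mem u.2 a
  have ub := hX.st_mem u.2 b
  have hinj : st a ≠ st b := fun e => hab (by rw [← hX.hs.inv a, e, hX.hs.inv])
  have h1 : a ≠ st b := fun e => (vb.mp (e ▸ ha)) hb
  have h2 : b ≠ st a := fun e => (va.mp (e ▸ hb)) ha
  apply h
  refine ⟨v.1.s, v.2, a, ha, b, hb, hab, rfl, rfl, hfa, hfb, ?_⟩
  have h3 : (v.1.s \ {a, b}) ∪ {st a, st b} = maj (flip st a v.1.s) (flip st b v.1.s) u.1.s := by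
    ext l
    show (l ∈ v.1.s ∧ ¬ (l = a ∨ l = b)) ∨ (l = st a ∨ l = st b) ↔
      (l ∈ flip st a v.1.s ∧ l ∈ flip st b v.1.s) ∨ (l ∈ flip st a v.1.s ∧ l ∈ u.1.s) ∨
        (l ∈ flip st b v.1.s ∧ l ∈ u.1.s)
    rw [mem_flip, mem_flip]
    by_cases e1 : l = a
    · subst e1
      tauto
    · by_cases e2 : l = b
      · subst e2
        tauto
      · by_cases e3 : l = st a
        · subst e3
          tauto
        · by_cases e4 : l = st b
          · subst e4
            tauto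
          · tauto
  rw [h3]
  exact hX.hs.med _ hfa _ hfb _ u.2

private theorem HAx2_step (hX : CubAct Γ st V) {h : H} {w u : Set H} (hw : w ∈ V) (hu : u ∈ V)
    (hhw : h ∈ w) (hhu : h ∈ u) (hfw : flip st h w ∈ V) (hfu : flip st h u ∈ V) (hne : w ≠ u) :
    ∃ k ∈ w, k ∉ u ∧ h ≠ k ∧ flip st k w ∈ V ∧ flip st h (flip st k w) ∈ V ∧
      h ∈ flip st k w := by
  have hsub : HS st (subA st Set.univ h) (subV st V h) :=
    hs_sub hX.hs (Set.mem_univ h) ⟨w \ {h}, w, hw, hhw, hfw, rfl⟩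
  have hne' : w \ {h} ≠ u \ {h} := by
    intro e
    apply hne
    ext l
    by_cases e1 : l = h
    · subst e1
      exact ⟨fun _ => hhu, fun _ => hhw⟩
    · have h5 : l ∈ w \ {h} ↔ l ∈ u \ {h} := by rw [e]
      rw [Set.mem_sdiff, Set.mem_sdiff, Set.mem_singleton_iff] at h5
      tauto
  obtain ⟨k, hk1, hk2, w', hw', hhw', hfw', e⟩ :=
    hsub.conn _ ⟨w, hw, hhw, hfw, rfl⟩ _ ⟨u, hu, hhu, hfu, rfl⟩ hne'
  have hkh : k ≠ h := hk1.2
  have hku : k ∉ u := fun hk => hk2 ⟨hk, hkh⟩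
  have hsk : st k ≠ h := by
    intro e1
    exact (hX.st_mem hw k).mp (e1 ▸ hhw) hk1.1
  have hmem : h ∈ flip st k w := mem_flip.mpr (Or.inr ⟨hhw, hkh.symm⟩)
  have hww : w' = flip st k w := by
    ext l
    by_cases e1 : l = h
    · subst e1
      exact ⟨fun _ => hmem, fun _ => hhw'⟩
    · have h5 : l ∈ flip st k (w \ {h}) ↔ l ∈ w' \ {h} := by rw [e]
      rw [mem_flip, Set.mem_sdiff, Set.mem_sdiff, Set.mem_singleton_iff] at h5
      rw [mem_flip]
      tauto
  rw [hww] at hw' hfw'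
  exact ⟨k, hk1.1, hku, hkh.symm, hw', hfw', hmem⟩

private theorem HAx2_par (hX : CubAct Γ st V) {h : H} (u : hX.VT K) (hhu : h ∈ u.1.s)
    (hfu : flip st h u.1.s ∈ V) : ∀ (n : ℕ) (w : hX.VT K), h ∈ w.1.s → flip st h w.1.s ∈ V →
      (w.1.s \ u.1.s).ncard = n → (hX.dat K col hcol).Par (wall st h) w u := by
  intro n
  induction n using Nat.strong_induction_on with
  | _ n ih =>
    intro w hhw hfw hn
    by_cases e : w.1.s = u.1.s
    · have h1 : w = u := Subtype.ext (Cb.ext e)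
      rw [h1]
      exact Relation.ReflTransGen.refl
    · obtain ⟨k, hkw, hku, hhk, hf, hff, hmem⟩ :=
        HAx2_step hX w.2 u.2 hhw hhu hfw hfu e
      have hc : CrL st V (wall st h) (wall st k) := by
        refine ⟨w.1.s, w.2, h, hhw, k, hkw, hhk, rfl, rfl, hfw, hf, ?_⟩
        rw [Set.pair_comm h k, Set.pair_comm (st h) (st k), ← hX.flip_comm w.2 hkw hhw hhk.symm]
        exact hff
      have h1 : (hX.dat K col hcol).StepP (wall st h) w ⟨⟨flip st k w.1.s⟩, hf⟩ :=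
        ⟨wall st k, hX.mem_D.mpr ⟨k, hkw, hf, rfl⟩, hc,
          Subtype.ext (Cb.ext (hX.nb_eq hkw hf).symm)⟩
      refine Relation.ReflTransGen.head h1 (ih _ ?_ _ hmem hff rfl)
      rw [← hn]
      exact Set.ncard_lt_ncard (HAx2_flip_ssub hX u.2 hkw hku) (hX.hs.fin _ w.2 _ u.2)

theorem CubAct.ax_crs (hX : CubAct Γ st V) (v : hX.VT K) (s : Cb H)
    (hs : s ∈ (hX.dat K col hcol).D v) (u : hX.VT K) (t : Cb H)
    (ht : t ∈ (hX.dat K col hcol).D u)
    (h : ¬ ((hX.dat K col hcol).nb t u ∈ hX.Hs K v s ↔ u ∈ hX.Hs K v s)) :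
    t = s ∧ ((hX.dat K col hcol).Par s v u ∨
      (hX.dat K col hcol).Par s ((hX.dat K col hcol).nb s v) u) := by
  obtain ⟨a, ha, hfa, rfl⟩ := hX.mem_D.mp hs
  obtain ⟨b, hb, hfb, rfl⟩ := hX.mem_D.mp ht
  rw [hX.mem_Hs ha, hX.mem_Hs ha, hX.nb_eq hb hfb, mem_flip] at h
  have hab : a = b ∨ a = st b := by tauto
  rcases hab with e | e
  · subst e
    exact ⟨rfl, Or.inl (HAx2_par hX u hb hfb _ v ha hfa rfl)⟩
  · have e2 : st a = b := by rw [e, hX.hs.inv]
    refine ⟨by rw [← e2, hX.wall_st], Or.inr ?_⟩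
    have h1 := hX.nb_eq (K := K) (col := col) (hcol := hcol) ha hfa
    have h2 : st a ∈ ((hX.dat K col hcol).nb (wall st a) v).1.s := by
      rw [h1]
      exact mem_flip.mpr (Or.inl rfl)
    have h3 : flip st (st a) ((hX.dat K col hcol).nb (wall st a) v).1.s ∈ V := by
      rw [h1, hX.hs.flip_flip (hX.hs.ori _ v.2) ha]
      exact v.2
    have h4 : st a ∈ u.1.s := by rw [e2]; exact hb
    have h5 : flip st (st a) u.1.s ∈ V := by rw [e2]; exact hfb
    have h6 := HAx2_par (col := col) (hcol := hcol) hX u h4 h5 _ _ h2 h3 rfl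
    rw [hX.wall_st] at h6
    exact h6

/-- The stage of the cube complex. -/
theorem CubAct.stg (hX : CubAct Γ st V) [K.FiniteIndex]
    (hne : ∀ s t, CrL st V s t → col s ≠ col t) : Stg (hX.dat K col hcol) (hX.Hs K) where
  cr_symm _ _ h := h.symm
  cr_col := hne
  nb_mem := hX.ax_nb_mem
  nb_nb := hX.ax_nb_nb
  nb_D := hX.ax_nb_D
  comm := hX.ax_comm
  conn := hX.ax_conn
  free := hX.ax_free
  fin := hX.ax_fin
  mem := hX.ax_mem
  opp := hX.ax_opp
  par := hX.ax_par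
  crs := hX.ax_crs
  sqr := hX.ax_sqr
  smul := hX.ax_smul

end SingerLG
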