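import Mathlib
import Pool.Agent.Lib_MP_394d50_lg.HDat

/-!
# Piece H5: the colouring of the walls by the orbits of `K`

The walls `s` which occur (`CrL st V s t` for some `t`) are walls of edges, `s = wall st h` with `h ∈ v`, `flip st h v ∈ V`; the cube `⟨v \ {h}⟩` (`edge_cub`) is `g • r`, `r ∈ R` (`hX.fin`), and
`s = g • wall st (g⁻¹ • h)` where `g⁻¹ • h` is one of the finitely many half-spaces not decided by `r` (`Cub`, third condition; `r = g⁻¹ • c` is a cube by `cub_smul`). So there are finitely many `Γ`-orbits of such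
walls, hence finitely many `K`-orbits (`K` has finite index: `g = k * t` with `t` in a finite set of representatives of the right cosets `K \ Γ`): there is a finite set
`W` of walls such that every wall which occurs is `k • w`, `k ∈ K`, `w ∈ W`. Let `col s` be the number (by an injection of the finite set of these orbits in `ℕ`, e.g. `Finite.equivFin`
plus one) of the `K`-orbit of `s` if this orbit contains an element of `W`, and `0` otherwise. If `CrL s t` and `col s = col t` then `t = g • s` with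
`g ∈ K` (both occur); `s = wall st h`, `t = wall st k`, `h ≠ k`, `h, k ∈ v`; the cube `c = ⟨v \ {h, k}⟩` is in `Cub` (its four vertices are in `V`), `Crs st h c`, `Crs st k c`.
`wall st (g • h) = wall st k`, so `g • h = k` or `g • h = st k`, in both cases `Crs st (g • h) c`, so `g • h = h` or `g • h = st h` (`hK`), and `k = h` or `k = st h`: the first is excluded,
the second as `k ∈ v`, `st h ∉ v`.
-/

namespace SingerLG

open SingerVS SingerCub
open scoped Pointwise

variable {H Γ : Type} [Group Γ] [MulAction Γ H] {st : H → H} {V : Set (Set H)}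

/-- Two orientations, one contained in the other, are equal. -/
private theorem HCol_eq {v w : Set H} (hv : Ori st Set.univ v) (hw : Ori st Set.univ w)
    (hvw : v ⊆ w) : v = w := by
  refine Set.Subset.antisymm hvw fun h hh => ?_
  by_contra h1
  have h2 : st h ∈ v := by
    by_contra h3
    exact h1 ((hv.2 h (Set.mem_univ _)).mpr h3)
  exact (hw.2 h (Set.mem_univ _)).mp hh (hvw h2)

private theorem HCol_st {v : Set H} (hv : Ori st Set.univ v) {h : H} (hh : h ∈ v) : st h ∉ v :=
  (hv.2 h (Set.mem_univ _)).mp hh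

private theorem HCol_st' {v : Set H} (hv : Ori st Set.univ v) {h : H} (hh : h ∉ v) : st h ∈ v := by
  by_contra h1
  exact hh ((hv.2 h (Set.mem_univ _)).mpr h1)

/-- The square spanned by two crossing edges. -/
private theorem HCol_sq (hX : CubAct Γ st V) {v : Set H} (hv : v ∈ V) {h k : H}
    (hf : flip st h v ∈ V) (kf : flip st k v ∈ V) (hkf : (v \ {h, k}) ∪ {st h, st k} ∈ V) :
    (⟨v \ {h, k}⟩ : Cb H) ∈ Cub st Set.univ V := by
  have ho := hX.hs.ori
  have hvo := ho v hv
  refine ⟨Set.subset_univ _, fun l hl h1 => HCol_st hvo hl.1 h1.1, ?_, fun w hw hcw => ?_⟩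
  · have hfin : ({h, k, st h, st k} : Set H).Finite := by
      simp only [Set.finite_insert, Set.finite_singleton]
    refine hfin.subset ?_
    rintro l ⟨_, h1, h2⟩
    by_cases hl : l ∈ v
    · have h3 : l = h ∨ l = k := by
        by_contra h4
        exact h1 ⟨hl, h4⟩
      rcases h3 with h3 | h3
      · exact Or.inl h3
      · exact Or.inr (Or.inl h3)
    · have h3 : st l = h ∨ st l = k := by
        by_contra h4
        exact h2 ⟨HCol_st' hvo hl, h4⟩
      rcases h3 with h3 | h3
      · exact Or.inr (Or.inr (Or.inl (by rw [← h3, hX.hs.inv])))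
      · exact Or.inr (Or.inr (Or.inr (by rw [← h3, hX.hs.inv]; rfl)))
  · by_cases hh : h ∈ w
    · by_cases hk : k ∈ w
      · have h1 : v = w := by
          refine HCol_eq hvo hw fun l hl => ?_
          by_cases e1 : l = h
          · rw [e1]; exact hh
          · by_cases e2 : l = k
            · rw [e2]; exact hk
            · exact hcw ⟨hl, by rintro (e | e); exacts [e1 e, e2 e]⟩
        rw [← h1]
        exact hv
      · have h1 : flip st k v = w := by
          refine HCol_eq (ho _ kf) hw fun l hl => ?_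
          rcases mem_flip.mp hl with e | ⟨hl, e2⟩
          · rw [e]; exact HCol_st' hw hk
          · by_cases e1 : l = h
            · rw [e1]; exact hh
            · exact hcw ⟨hl, by rintro (e | e); exacts [e1 e, e2 e]⟩
        rw [← h1]
        exact kf
    · by_cases hk : k ∈ w
      · have h1 : flip st h v = w := by
          refine HCol_eq (ho _ hf) hw fun l hl => ?_
          rcases mem_flip.mp hl with e | ⟨hl, e1⟩
          · rw [e]; exact HCol_st' hw hh
          · by_cases e2 : l = k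
            · rw [e2]; exact hk
            · exact hcw ⟨hl, by rintro (e | e); exacts [e1 e, e2 e]⟩
        rw [← h1]
        exact hf
      · have h1 : (v \ {h, k}) ∪ {st h, st k} = w := by
          refine HCol_eq (ho _ hkf) hw fun l hl => ?_
          rcases hl with hl | (e | e)
          · exact hcw hl
          · rw [e]; exact HCol_st' hw hh
          · rw [Set.mem_singleton_iff.mp e]; exact HCol_st' hw hk
        rw [← h1]
        exact hkf

private theorem HCol_wall (hX : CubAct Γ st V) {h k : H} (e : wall st h = wall st k) :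
    h = k ∨ h = st k := by
  have h1 : h ∈ (wall st k).s := by
    rw [← e]
    exact Or.inl rfl
  exact h1

/-- The walls of the edges. -/
private def HCol_E (st : H → H) (V : Set (Set H)) : Set (Cb H) :=
  {s | ∃ v ∈ V, ∃ h ∈ v, flip st h v ∈ V ∧ s = wall st h}

private theorem HCol_fin (hX : CubAct Γ st V) :
    ∃ W : Set (Cb H), W.Finite ∧ ∀ s ∈ HCol_E st V, ∃ g : Γ, ∃ w ∈ W, s = g • w := by
  obtain ⟨R, hR⟩ := hX.fin
  refine ⟨⋃ r ∈ {r | r ∈ R ∧ r ∈ Cub st Set.univ V}, wall st '' {k | Crs st k r}, ?_, ?_⟩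
  · refine Set.Finite.biUnion (R.finite_toSet.subset fun r hr => hr.1) ?_
    intro r hr
    refine Set.Finite.image _ ?_
    refine (hr.2.2.2.1).subset ?_
    intro k hk
    exact ⟨Set.mem_univ _, hk.1, hk.2⟩
  · rintro s ⟨v, hv, h, hh, hf, rfl⟩
    have h1 := hX.edge_cub hv hh hf
    obtain ⟨g, r, hr, e⟩ := hR _ h1
    have h2 : r = g⁻¹ • (⟨v \ {h}⟩ : Cb H) := by rw [e, inv_smul_smul]
    have h3 : r ∈ Cub st Set.univ V := by
      rw [h2]
      exact hX.cub_smul _ h1
    have h4 : v \ {h} = g • r.s := congrArg Cb.s e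
    have h5 : Crs st (g⁻¹ • h) r := by
      constructor
      · intro h6
        have h7 : g • (g⁻¹ • h) ∈ g • r.s := Set.smul_mem_smul_set h6
        rw [smul_inv_smul, ← h4] at h7
        exact h7.2 rfl
      · intro h6
        have h7 : g • st (g⁻¹ • h) ∈ g • r.s := Set.smul_mem_smul_set h6
        rw [← hX.st_smul, smul_inv_smul, ← h4] at h7
        exact HCol_st (hX.hs.ori v hv) hh h7.1
    refine ⟨g, wall st (g⁻¹ • h), ?_, ?_⟩
    · rw [Set.mem_iUnion₂]
      exact ⟨r, ⟨hr, h3⟩, g⁻¹ • h, h5, rfl⟩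
    · rw [hX.smul_wall, smul_inv_smul]

/-- The same for the subgroup `K`. -/
private theorem HCol_finK (hX : CubAct Γ st V) (K : Subgroup Γ) [K.FiniteIndex] :
    ∃ W : Set (Cb H), W.Finite ∧ ∀ s ∈ HCol_E st V, ∃ g ∈ K, ∃ w ∈ W, s = g • w := by
  obtain ⟨W, hW, h⟩ := HCol_fin hX
  refine ⟨⋃ q : Γ ⧸ K, (fun w => q.out⁻¹ • w) '' W, ?_, ?_⟩
  · exact Set.finite_iUnion fun q => hW.image _
  · intro s hs
    obtain ⟨g, w, hw, e⟩ := h s hs
    have h1 : ((QuotientGroup.mk g⁻¹ : Γ ⧸ K).out)⁻¹ * g⁻¹ ∈ K := by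
      rw [← QuotientGroup.eq, QuotientGroup.out_eq']
    refine ⟨g * (QuotientGroup.mk g⁻¹ : Γ ⧸ K).out, ?_,
      (QuotientGroup.mk g⁻¹ : Γ ⧸ K).out⁻¹ • w, ?_, ?_⟩
    · have h2 := K.inv_mem h1
      rwa [mul_inv_rev, inv_inv, inv_inv] at h2
    · rw [Set.mem_iUnion]
      exact ⟨_, w, hw, rfl⟩
    · rw [smul_smul, mul_inv_cancel_right, e]

theorem CubAct.exists_col (hX : CubAct Γ st V) (K : Subgroup Γ) [K.FiniteIndex]
    (hK : ∀ g ∈ K, ∀ h : H, ∀ c ∈ Cub st Set.univ V,
      Crs st h c → Crs st (g • h) c → g • h = h ∨ g • h = st h) :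
    ∃ (col : Cb H → ℕ) (m : ℕ), (∀ g ∈ K, ∀ s, col (g • s) = col s) ∧
      (∀ s t, CrL st V s t → col s ≠ col t) ∧ ∀ s, col s < m := by
  classical
  obtain ⟨W, hW, hWE⟩ := HCol_finK hX K
  let Q := MulAction.orbitRel.Quotient K (Cb H)
  let pr : Cb H → Q := fun s => Quotient.mk _ s
  have hpr : ∀ (g : K) (s : Cb H), pr (g • s) = pr s := fun g s =>
    Quotient.sound ⟨g, rfl⟩
  let F : Set Q := pr '' W
  have hF : F.Finite := hW.image _
  haveI : Finite F := hF
  let e := Finite.equivFin F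
  let cl : Q → ℕ := fun q => if h : q ∈ F then (e ⟨q, h⟩ : ℕ) + 1 else 0
  have hcl : ∀ q q', q ∈ F → q' ∈ F → cl q = cl q' → q = q' := by
    intro q q' hq hq' h
    have h1 : (e ⟨q, hq⟩ : ℕ) + 1 = (e ⟨q', hq'⟩ : ℕ) + 1 := by
      have h2 : cl q = (e ⟨q, hq⟩ : ℕ) + 1 := dif_pos hq
      have h3 : cl q' = (e ⟨q', hq'⟩ : ℕ) + 1 := dif_pos hq'
      rw [← h2, ← h3, h]
    have h4 : e ⟨q, hq⟩ = e ⟨q', hq'⟩ := Fin.ext (Nat.succ_injective h1)
    exact congrArg Subtype.val (e.injective h4)
  have hE : ∀ s ∈ HCol_E st V, pr s ∈ F := by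
    intro s hs
    obtain ⟨g, hg, w, hw, rfl⟩ := hWE s hs
    have h1 : pr (g • w) = pr w := hpr ⟨g, hg⟩ w
    rw [h1]
    exact ⟨w, hw, rfl⟩
  refine ⟨fun s => cl (pr s), Nat.card F + 1, fun g hg s => ?_, fun s t hst hc => ?_, fun s => ?_⟩
  · show cl (pr (g • s)) = cl (pr s)
    have h1 : pr (g • s) = pr s := hpr ⟨g, hg⟩ s
    rw [h1]
  · obtain ⟨v, hv, h, hh, k, hk, hne, rfl, rfl, hf, kf, hkf⟩ := hst
    have h1 : pr (wall st h) = pr (wall st k) :=
      hcl _ _ (hE _ ⟨v, hv, h, hh, hf, rfl⟩) (hE _ ⟨v, hv, k, hk, kf, rfl⟩) hc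
    obtain ⟨⟨g, hg⟩, h2⟩ := Quotient.exact h1.symm
    have h2 : g • wall st h = wall st k := h2
    rw [hX.smul_wall] at h2
    have hvo := hX.hs.ori v hv
    have h3 := HCol_sq hX hv hf kf hkf
    have c1 : Crs st h (⟨v \ {h, k}⟩ : Cb H) :=
      ⟨fun e => e.2 (Or.inl rfl), fun e => HCol_st hvo hh e.1⟩
    have c2 : Crs st k (⟨v \ {h, k}⟩ : Cb H) :=
      ⟨fun e => e.2 (Or.inr rfl), fun e => HCol_st hvo hk e.1⟩
    have c3 : Crs st (g • h) (⟨v \ {h, k}⟩ : Cb H) := by
      rcases HCol_wall hX h2 with e | e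
      · rw [e]; exact c2
      · rw [e]
        refine ⟨c2.2, ?_⟩
        rw [hX.hs.inv]
        exact c2.1
    rcases HCol_wall hX h2 with e | e <;> rcases hK g hg h _ h3 c1 c3 with e' | e'
    · exact hne (e'.symm.trans e)
    · refine HCol_st hvo hh ?_
      rw [← e', e]
      exact hk
    · refine HCol_st hvo hk ?_
      rw [← e, e']
      exact hh
    · refine hne ?_
      rw [← hX.hs.inv h, ← e', e, hX.hs.inv]
  · show cl (pr s) < Nat.card F + 1
    by_cases h : pr s ∈ F
    · have h2 : cl (pr s) = (e ⟨pr s, h⟩ : ℕ) + 1 := dif_pos h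
      rw [h2]
      have := (e ⟨pr s, h⟩).isLt
      omega
    · have h2 : cl (pr s) = 0 := dif_neg h
      rw [h2]
      omega

end SingerLG
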