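import Mathlib
import Pool.Agent.Lib_MP_394d50_lg.HAx1
import Pool.Agent.Lib_MP_394d50_lg.RDefs

/-!
# Piece H6: the cubes of a flag of the stage of a cube complex

Let `x = (v, σ)` be a flag, `U = ⋃ s ∈ σ, s.s` the set of the half-spaces of the walls in `σ`. Every `s ∈ σ` is `wall st h` with `h ∈ v`, `flip st h v ∈ V` (`mem_D`).
`crs_cell`: `h ∉ v \ U` and `st h ∉ v \ U` iff `h ∈ U`: one of `h`, `st h` is in `v` (`st_mem`), and `U` is closed under `st`.
`flips`: for `T ⊆ σ` the vertex `v` flipped along all walls in `T`: `(v \ ⋃ s ∈ T, s.s) ∪ (vᶜ ∩ ⋃ s ∈ T, s.s)` = `symmDiff v (⋃ s ∈ T, s.s)` is in `V`. Induction on `|T|`: `0`: `v`; `1`: the edge; `2`: `cr_sq`;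
`|T| ≥ 3`: choose three different elements `s₁, s₂, s₃` of `T`; `v_T = maj (v_{T \ s₁}) (v_{T \ s₂}) (v_{T \ s₃})` (`HS.med`): a half-space of a wall `s ∈ T` is flipped in at least two of the three; one not in `⋃ T` in none.
`cell_cub`: `Cub`: `c = v \ U`: (1) trivial; (2) `v` is an orientation; (3) by `crs_cell` the undecided half-spaces are those in `U`, a finite set; (4) an orientation `w ⊇ v \ U` is `v_T` with
`T = {s ∈ σ | w and v are on different sides of s}`: `w = symmDiff v (⋃ T)`.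
`surj`: `c ∈ Cub`: there is an orientation `v ⊇ c.s` (`SingerCub.exists_ori`, `KFin`), `v ∈ V` by (4); `σ` = the set of the `wall st h`, `h` undecided (finite by (3)): `flip st h v ⊇ c.s` is an orientation (`HS.ori_flip`), so in `V`; two
different ones cross (the opposite vertex contains `c.s`). `v \ U = c.s`.
-/

namespace SingerLG

open SingerVS SingerCub
open scoped Pointwise

variable {H Γ : Type} [Group Γ] [MulAction Γ H] {st : H → H} {V : Set (Set H)}
  {K : Subgroup Γ} {col : Cb H → ℕ} {hcol : ∀ g ∈ K, ∀ s, col (g • s) = col s}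

/-- The half-spaces of the walls in `σ`. -/
def hsU (σ : Finset (Cb H)) : Set H := ⋃ s ∈ σ, s.s

private theorem HFlA_sd {v U : Set H} {k : H} :
    k ∈ symmDiff v U ↔ (k ∈ v ∧ k ∉ U) ∨ (k ∈ U ∧ k ∉ v) := Set.mem_symmDiff

private theorem HFlA_mem {σ : Finset (Cb H)} {k : H} : k ∈ hsU σ ↔ ∃ s ∈ σ, k ∈ s.s := by
  unfold hsU
  rw [Set.mem_iUnion₂]
  constructor
  · rintro ⟨s, hs, h⟩
    exact ⟨s, hs, h⟩
  · rintro ⟨s, hs, h⟩
    exact ⟨s, hs, h⟩

private theorem HFlA_wall {h k : H} : k ∈ (wall st h).s ↔ k = h ∨ k = st h := Iff.rfl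

private theorem HFlA_weq (hX : CubAct Γ st V) {h k : H} (hk : k ∈ (wall st h).s) :
    wall st h = wall st k := by
  rcases hk with rfl | hk
  · rfl
  · rw [Set.mem_singleton_iff.mp hk, hX.wall_st]

private theorem HFlA_hsU (hX : CubAct Γ st V) {T : Finset (Cb H)}
    (hT : ∀ s ∈ T, ∃ h, s = wall st h) {k : H} : k ∈ hsU T ↔ wall st k ∈ T := by
  rw [HFlA_mem]
  constructor
  · rintro ⟨s, hs, hk⟩
    obtain ⟨h, rfl⟩ := hT s hs
    rw [← HFlA_weq hX hk]
    exact hs
  · intro h
    exact ⟨_, h, Or.inl rfl⟩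

private theorem HFlA_flips (hX : CubAct Γ st V) {v : Set H} (hv : v ∈ V) (n : ℕ) :
    ∀ T : Finset (Cb H), T.card = n → (∀ s ∈ T, ∃ h ∈ v, flip st h v ∈ V ∧ s = wall st h) →
    (∀ s ∈ T, ∀ t ∈ T, s ≠ t → CrL st V s t) → symmDiff v (hsU T) ∈ V := by
  classical
  induction n using Nat.strong_induction_on with
  | _ n ih =>
    intro T hn h1 h2
    have hst : ∀ h ∈ v, st h ∉ v := fun h hh e => (hX.st_mem hv h).mp e hh
    rcases Nat.lt_or_ge T.card 3 with hc | hc
    · have hc' : T.card = 0 ∨ T.card = 1 ∨ T.card = 2 := by omega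
      rcases hc' with hc | hc | hc
      · rw [Finset.card_eq_zero] at hc
        subst hc
        have e : symmDiff v (hsU (∅ : Finset (Cb H))) = v := by
          ext k
          rw [HFlA_sd, HFlA_mem]
          constructor
          · rintro (⟨a, _⟩ | ⟨⟨s, hs, _⟩, _⟩)
            · exact a
            · exact absurd hs (Finset.notMem_empty _)
          · intro a
            refine Or.inl ⟨a, ?_⟩
            rintro ⟨s, hs, _⟩
            exact absurd hs (Finset.notMem_empty _)
        rw [e]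
        exact hv
      · obtain ⟨s, rfl⟩ := Finset.card_eq_one.mp hc
        obtain ⟨h, hh, hf, rfl⟩ := h1 s (Finset.mem_singleton_self _)
        have e : symmDiff v (hsU {wall st h}) = flip st h v := by
          ext k
          rw [HFlA_sd, HFlA_mem, mem_flip]
          have a0 : (∃ s ∈ ({wall st h} : Finset (Cb H)), k ∈ s.s) ↔ (k = h ∨ k = st h) := by
            constructor
            · rintro ⟨s, hs, hk⟩
              rw [Finset.mem_singleton] at hs
              subst hs
              exact hk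
            · intro hk
              exact ⟨_, Finset.mem_singleton_self _, hk⟩
          rw [a0]
          by_cases a1 : k = h
          · subst a1
            have b1 : k ≠ st k := fun e => hst k hh (e ▸ hh)
            tauto
          · by_cases a2 : k = st h
            · subst a2
              have b1 := hst h hh
              tauto
            · tauto
        rw [e]
        exact hf
      · obtain ⟨s, t, hne, rfl⟩ := Finset.card_eq_two.mp hc
        have hs0 : s ∈ ({s, t} : Finset (Cb H)) := Finset.mem_insert_self _ _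
        have ht0 : t ∈ ({s, t} : Finset (Cb H)) :=
          Finset.mem_insert_of_mem (Finset.mem_singleton_self _)
        have h3 := h2 s hs0 t ht0 hne
        obtain ⟨h, hh, hf, rfl⟩ := h1 s hs0
        obtain ⟨k, hk, hfk, rfl⟩ := h1 t ht0
        obtain ⟨h4, h5⟩ := hX.cr_sq hv hh hk hf hfk h3
        have e : symmDiff v (hsU {wall st h, wall st k}) = (v \ {h, k}) ∪ {st h, st k} := by
          ext l
          have a0 : (∃ s ∈ ({wall st h, wall st k} : Finset (Cb H)), l ∈ s.s) ↔
              ((l = h ∨ l = st h) ∨ (l = k ∨ l = st k)) := by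
            constructor
            · rintro ⟨s, hs, hl⟩
              rw [Finset.mem_insert, Finset.mem_singleton] at hs
              rcases hs with rfl | rfl
              · exact Or.inl hl
              · exact Or.inr hl
            · rintro (hl | hl)
              · exact ⟨_, hs0, hl⟩
              · exact ⟨_, ht0, hl⟩
          rw [HFlA_sd, HFlA_mem, a0]
          show _ ↔ (l ∈ v ∧ ¬ (l = h ∨ l = k)) ∨ (l = st h ∨ l = st k)
          have b1 := hst h hh
          have b2 := hst k hk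
          by_cases a1 : l = h
          · subst a1
            have c1 : l ≠ st l := fun e => b1 (e ▸ hh)
            have c2 : l ≠ st k := fun e => b2 (e ▸ hh)
            tauto
          · by_cases a2 : l = k
            · subst a2
              have c1 : l ≠ st l := fun e => b2 (e ▸ hk)
              have c2 : l ≠ st h := fun e => b1 (e ▸ hk)
              tauto
            · by_cases a3 : l = st h
              · subst a3
                tauto
              · by_cases a4 : l = st k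
                · subst a4
                  tauto
                · tauto
        rw [e]
        exact h5
    · obtain ⟨s₁, hs₁, s₂, hs₂, s₃, hs₃, n12, n13, n23⟩ := Finset.two_lt_card.mp hc
      have key : ∀ s ∈ T, symmDiff v (hsU (T.erase s)) ∈ V := by
        intro s hs
        refine ih (T.erase s).card ?_ (T.erase s) rfl ?_ ?_
        · rw [Finset.card_erase_of_mem hs, ← hn]
          have := Finset.card_pos.mpr ⟨s, hs⟩
          omega
        · intro t ht
          exact h1 t (Finset.mem_of_mem_erase ht)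
        · intro t ht u hu
          exact h2 t (Finset.mem_of_mem_erase ht) u (Finset.mem_of_mem_erase hu)
      have hm := hX.hs.med _ (key s₁ hs₁) _ (key s₂ hs₂) _ (key s₃ hs₃)
      have e : maj (symmDiff v (hsU (T.erase s₁))) (symmDiff v (hsU (T.erase s₂)))
          (symmDiff v (hsU (T.erase s₃))) = symmDiff v (hsU T) := by
        ext k
        show (k ∈ symmDiff v (hsU (T.erase s₁)) ∧ k ∈ symmDiff v (hsU (T.erase s₂))) ∨
          (k ∈ symmDiff v (hsU (T.erase s₁)) ∧ k ∈ symmDiff v (hsU (T.erase s₃))) ∨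
          (k ∈ symmDiff v (hsU (T.erase s₂)) ∧ k ∈ symmDiff v (hsU (T.erase s₃))) ↔ _
        rw [HFlA_sd, HFlA_sd, HFlA_sd, HFlA_sd]
        have sub : ∀ s, k ∈ hsU (T.erase s) → k ∈ hsU T := by
          intro s hk
          obtain ⟨t, ht, hk⟩ := HFlA_mem.mp hk
          exact HFlA_mem.mpr ⟨t, Finset.mem_of_mem_erase ht, hk⟩
        by_cases hk : k ∈ hsU T
        · obtain ⟨t, ht, hkt⟩ := HFlA_mem.mp hk
          have big : ∀ s, t ≠ s → k ∈ hsU (T.erase s) := fun s hts =>
            HFlA_mem.mpr ⟨t, Finset.mem_erase.mpr ⟨hts, ht⟩, hkt⟩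
          by_cases a1 : t = s₁
          · have b2 := big s₂ (fun e => n12 (a1.symm.trans e))
            have b3 := big s₃ (fun e => n13 (a1.symm.trans e))
            tauto
          · have b1 := big s₁ a1
            by_cases a2 : t = s₂
            · have b3 := big s₃ (fun e => n23 (a2.symm.trans e))
              tauto
            · have b2 := big s₂ a2
              tauto
        · have c1 : k ∉ hsU (T.erase s₁) := fun e => hk (sub _ e)
          have c2 : k ∉ hsU (T.erase s₂) := fun e => hk (sub _ e)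
          have c3 : k ∉ hsU (T.erase s₃) := fun e => hk (sub _ e)
          tauto
      rw [e] at hm
      exact hm

theorem CubAct.flips (hX : CubAct Γ st V) (x : (hX.dat K col hcol).Fl) (T : Finset (Cb H))
    (hT : T ⊆ x.σ) : symmDiff x.v.1.s (hsU T) ∈ V :=
  HFlA_flips hX x.v.2 T.card T rfl (fun _ hs => hX.mem_D.mp (x.2.1 (hT hs)))
    (fun s hs t ht hne => x.2.2 s (hT hs) t (hT ht) hne)

private theorem HFlA_sub (hX : CubAct Γ st V) (x : (hX.dat K col hcol).Fl) {T : Finset (Cb H)}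
    (hT : T ⊆ x.σ) {k : H} : k ∈ hsU T ↔ wall st k ∈ T := by
  refine HFlA_hsU hX fun s hs => ?_
  obtain ⟨h, _, _, e⟩ := hX.mem_D.mp (x.2.1 (hT hs))
  exact ⟨h, e⟩

private theorem HFlA_st (hX : CubAct Γ st V) (x : (hX.dat K col hcol).Fl) {k : H} :
    st k ∈ hsU x.σ ↔ k ∈ hsU x.σ := by
  rw [HFlA_sub hX x (Finset.Subset.refl _), HFlA_sub hX x (Finset.Subset.refl _), hX.wall_st]

theorem CubAct.crs_cell (hX : CubAct Γ st V) (x : (hX.dat K col hcol).Fl) (h : H) :
    Crs st h (⟨x.v.1.s \ hsU x.σ⟩ : Cb H) ↔ h ∈ hsU x.σ := by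
  have h1 := HFlA_st hX x (k := h)
  have h2 := hX.st_mem x.v.2 h
  show (¬ (h ∈ x.v.1.s ∧ h ∉ hsU x.σ) ∧ ¬ (st h ∈ x.v.1.s ∧ st h ∉ hsU x.σ)) ↔ _
  tauto

theorem CubAct.cell_cub (hX : CubAct Γ st V) (x : (hX.dat K col hcol).Fl) :
    (⟨x.v.1.s \ hsU x.σ⟩ : Cb H) ∈ Cub st Set.univ V := by
  classical
  refine ⟨Set.subset_univ _, ?_, ?_, ?_⟩
  · intro h hh hs
    exact (hX.st_mem x.v.2 h).mp hs.1 hh.1
  · have hfin : (hsU x.σ).Finite := by
      unfold hsU
      refine Set.Finite.biUnion x.σ.finite_toSet ?_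
      intro s hs
      obtain ⟨h, _, _, rfl⟩ := hX.mem_D.mp (x.2.1 hs)
      exact Set.toFinite ({h, st h} : Set H)
    refine hfin.subset ?_
    rintro h ⟨_, h1, h2⟩
    exact (hX.crs_cell x h).mp ⟨h1, h2⟩
  · intro w hw hsub
    have hsub : ∀ k, k ∈ x.v.1.s → k ∉ hsU x.σ → k ∈ w := fun k h1 h2 => hsub ⟨h1, h2⟩
    have e : symmDiff x.v.1.s (hsU (x.σ.filter fun s => ¬ (s.s ∩ x.v.1.s ⊆ w))) = w := by
      ext k
      have h1 := HFlA_sub hX x (Finset.filter_subset (fun s => ¬ (s.s ∩ x.v.1.s ⊆ w)) x.σ)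
        (k := k)
      rw [Finset.mem_filter] at h1
      have h2 := HFlA_sub hX x (Finset.Subset.refl x.σ) (k := k)
      have h3 := hX.st_mem x.v.2 k
      have h4 := hw.2 k (Set.mem_univ _)
      have h5 := HFlA_st hX x (k := k)
      have h6 := hsub k
      have h7 := hsub (st k)
      have h8 : k ∈ x.v.1.s → ((wall st k).s ∩ x.v.1.s ⊆ w ↔ k ∈ w) := by
        intro hk
        constructor
        · intro h
          exact h ⟨Or.inl rfl, hk⟩
        · rintro h l ⟨hl, hl'⟩
          rcases hl with rfl | hl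
          · exact h
          · rw [Set.mem_singleton_iff.mp hl] at hl'
            exact absurd hk (h3.mp hl')
      have h9 : k ∉ x.v.1.s → ((wall st k).s ∩ x.v.1.s ⊆ w ↔ st k ∈ w) := by
        intro hk
        constructor
        · intro h
          exact h ⟨Or.inr rfl, h3.mpr hk⟩
        · rintro h l ⟨hl, hl'⟩
          rcases hl with rfl | hl
          · exact absurd hl' hk
          · rw [Set.mem_singleton_iff.mp hl]
            exact h
      rw [HFlA_sd, h1, ← h2]
      tauto
    rw [← e]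
    exact hX.flips x _ (Finset.filter_subset _ _)

/-- The cube of a flag. -/
def CubAct.cell (hX : CubAct Γ st V) (x : (hX.dat K col hcol).Fl) : hX.CT K :=
  ⟨⟨x.v.1.s \ hsU x.σ⟩, hX.cell_cub x⟩

theorem CubAct.cell_surj (hX : CubAct Γ st V) (c : hX.CT K) :
    ∃ x : (hX.dat K col hcol).Fl, hX.cell x = c := by
  classical
  obtain ⟨c, hc1, hc2, hc3, hc4⟩ := c
  obtain ⟨v₀, hv₀⟩ := hX.hs.nonempty
  obtain ⟨v, hv, hcv⟩ := exists_ori hX.hs hc1 hc2 (hX.hs.ori v₀ hv₀)
  have hvV : v ∈ V := hc4 v hv hcv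
  have hst := hX.st_mem hvV
  have hσ : ∀ s ∈ (hc3.image (wall st)).toFinset,
      ∃ h ∈ v, h ∉ c.s ∧ st h ∉ c.s ∧ flip st h v ∈ V ∧ s = wall st h := by
    intro s hs
    rw [Set.Finite.mem_toFinset] at hs
    obtain ⟨h, ⟨-, h1, h2⟩, rfl⟩ := hs
    have key : ∀ k ∈ v, k ∉ c.s → flip st k v ∈ V := by
      intro k hk hkc
      refine hc4 _ (hX.hs.ori_flip hv hk) ?_
      intro l hl
      exact mem_flip.mpr (Or.inr ⟨hcv hl, fun e => hkc (e ▸ hl)⟩)
    by_cases hh : h ∈ v
    · exact ⟨h, hh, h1, h2, key h hh h1, rfl⟩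
    · have h3 := (hst h).mpr hh
      refine ⟨st h, h3, h2, ?_, key _ h3 h2, (hX.wall_st h).symm⟩
      rw [hX.hs.inv]
      exact h1
  have hsub : (hc3.image (wall st)).toFinset ⊆ (hX.dat K col hcol).D ⟨⟨v⟩, hvV⟩ := by
    intro s hs
    obtain ⟨h, h1, _, _, h2, h3⟩ := hσ s hs
    exact hX.mem_D.mpr ⟨h, h1, h2, h3⟩
  have hcl : (hX.dat K col hcol).Cl (hc3.image (wall st)).toFinset := by
    intro s hs t ht hne
    obtain ⟨h, h1, h2, h3, h4, rfl⟩ := hσ s hs
    obtain ⟨k, k1, k2, k3, k4, rfl⟩ := hσ t ht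
    have hhk : h ≠ k := fun e => hne (by rw [e])
    refine ⟨v, hvV, h, h1, k, k1, hhk, rfl, rfl, h4, k4, ?_⟩
    rw [← hX.flip_comm hvV h1 k1 hhk]
    have k5 : k ∈ flip st h v := mem_flip.mpr (Or.inr ⟨k1, hhk.symm⟩)
    refine hc4 _ (hX.hs.ori_flip (hX.hs.ori_flip hv h1) k5) ?_
    intro l hl
    exact mem_flip.mpr (Or.inr ⟨mem_flip.mpr (Or.inr ⟨hcv hl, fun e => h2 (e ▸ hl)⟩),
      fun e => k2 (e ▸ hl)⟩)
  refine ⟨(hX.dat K col hcol).fl ⟨⟨v⟩, hvV⟩ (hc3.image (wall st)).toFinset ⟨hsub, hcl⟩, ?_⟩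
  refine Subtype.ext (Cb.ext ?_)
  show v \ hsU (hc3.image (wall st)).toFinset = c.s
  ext k
  constructor
  · rintro ⟨h1, h2⟩
    by_contra h3
    apply h2
    refine HFlA_mem.mpr ⟨wall st k, ?_, Or.inl rfl⟩
    rw [Set.Finite.mem_toFinset]
    exact ⟨k, ⟨Set.mem_univ _, h3, fun e => (hst k).mp (hcv e) h1⟩, rfl⟩
  · intro h1
    refine ⟨hcv h1, fun h2 => ?_⟩
    obtain ⟨s, hs, hk⟩ := HFlA_mem.mp h2
    obtain ⟨h, _, h3, h4, _, rfl⟩ := hσ s hs
    rcases hk with rfl | hk
    · exact h3 h1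
    · rw [Set.mem_singleton_iff.mp hk] at h1
      exact h4 h1

/-- The cube determines the set of the walls. -/
theorem CubAct.cell_σ (hX : CubAct Γ st V) {x y : (hX.dat K col hcol).Fl}
    (h : hX.cell x = hX.cell y) : x.σ = y.σ := by
  have h0 : (⟨x.v.1.s \ hsU x.σ⟩ : Cb H) = ⟨y.v.1.s \ hsU y.σ⟩ := congrArg Subtype.val h
  have h1 : ∀ k, k ∈ hsU x.σ ↔ k ∈ hsU y.σ := by
    intro k
    rw [← hX.crs_cell x k, ← hX.crs_cell y k, h0]
  have key : ∀ s, (∃ k, s = wall st k) → (s ∈ x.σ ↔ s ∈ y.σ) := by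
    rintro s ⟨k, rfl⟩
    rw [← HFlA_sub hX x (Finset.Subset.refl _), ← HFlA_sub hX y (Finset.Subset.refl _)]
    exact h1 k
  ext s
  constructor
  · intro hs
    obtain ⟨k, _, _, e⟩ := hX.mem_D.mp (x.2.1 hs)
    exact (key s ⟨k, e⟩).mp hs
  · intro hs
    obtain ⟨k, _, _, e⟩ := hX.mem_D.mp (y.2.1 hs)
    exact (key s ⟨k, e⟩).mpr hs

end SingerLG
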