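import Mathlib
import Pool.Agent.Lib_MP_394d50_lg.HFlA
import Pool.Agent.Lib_MP_394d50_lg.AFl
import Pool.Agent.Lib_MP_394d50_vs.LSim

/-!
# Piece H7: the cubes of the flags, the easy properties (`Flagd`)

`eps x`: product over the walls `s ∈ σ` of `1` if the smaller half-space of `s` (the `h ∈ s.s` with `h < st h`) contains `v`, else `-1`, times the sign `(-1) ^ invN` which compares the order of
the walls (by the smaller half-spaces) with the order of the colours.
`fl_dim`: `crs_cell`: the directions of `cell x` are the `h ∈ U` with `h < st h`: exactly one for each wall `s ∈ σ` (`s = {h, st h}`, `h ≠ st h`), `Set.ncard_eq_of_bijective` or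
`Set.ncard_image_of_injOn`; different walls are disjoint. `fl_smul`: `(g • v) \ hsU (g • σ) = g • (v \ hsU σ)`.
`fl_mv`: the vertex of `mv s x` is `nb s v = symmDiff v s.s`, `s.s ⊆ hsU σ`. `(Dat.mv` has an `if`: the condition holds by `Stg.mv_v`/`σ_sub`, which need a `Stg`; here use only `mem_D`, `ax_nb_D`, `ax_nb_mem`:
for `t ∈ σ`, `t ≠ s`: `CrL s t` (clique) and `ax_nb_D`.)
`fl_mv_ε`: the factor of `s` changes its sign, the others do not change (`h ∈ nb s v ↔ h ∈ v` for `h` not in `s.s`), `(mv s x).σ = x.σ`.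
`fl_conn`: `cell x = cell y`: `x.σ = y.σ` (`cell_σ`) and `v \ U = v' \ U`: induction on the number of walls `s ∈ σ` on which `v`, `v'` are on different sides: if there is none, `v = v'`; otherwise move `x` across one of them.
`fl_card`: the map `T ↦ (symmDiff v (hsU T), σ)` from the subsets of `σ` to `{y | cell y = cell x}` is bijective (`flips`; the clique `σ` is also at the vertex `symmDiff v (hsU T)`: `flips` for `T ∪ {s}` resp. `T \ {s}`).
-/

namespace SingerLG

open SingerVS SingerCub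
open scoped Pointwise

variable {H Γ : Type} [Group Γ] [MulAction Γ H] {st : H → H} {V : Set (Set H)}
  {K : Subgroup Γ} {col : Cb H → ℕ} {hcol : ∀ g ∈ K, ∀ s, col (g • s) = col s}

/-- The order of the walls by their smaller half-spaces. -/
def rW [LinearOrder H] (st : H → H) (s t : Cb H) : Prop :=
  ∃ h ∈ s.s, ∃ k ∈ t.s, h < st h ∧ k < st k ∧ h < k

open scoped Classical in
/-- The sign of a flag. -/
noncomputable def CubAct.eps [LinearOrder H] (hX : CubAct Γ st V)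
    (x : (hX.dat K col hcol).Fl) : ℝ :=
  (∏ s ∈ x.σ, if ∃ h ∈ s.s, h < st h ∧ h ∈ x.v.1.s then 1 else -1) *
    (-1) ^ invN (rW st) (fun s t => col s < col t) x.σ

private theorem HFlB_mem_hsU {σ : Finset (Cb H)} {k : H} : k ∈ hsU σ ↔ ∃ s ∈ σ, k ∈ s.s := by
  unfold hsU
  simp only [Set.mem_iUnion, exists_prop]

private theorem HFlB_wall (hX : CubAct Γ st V) {x : (hX.dat K col hcol).Fl} {s : Cb H}
    (hs : s ∈ x.σ) {k : H} (hk : k ∈ s.s) : s = wall st k := by
  obtain ⟨h, hh, hf, rfl⟩ := hX.mem_D.mp (x.2.1 hs)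
  rcases hk with rfl | hk
  · rfl
  · rw [Set.mem_singleton_iff.mp hk, hX.wall_st]

private theorem HFlB_disj (hX : CubAct Γ st V) {x : (hX.dat K col hcol).Fl} {s t : Cb H}
    (hs : s ∈ x.σ) (ht : t ∈ x.σ) {k : H} (hk : k ∈ s.s) (hk' : k ∈ t.s) : s = t := by
  rw [HFlB_wall hX hs hk, HFlB_wall hX ht hk']

private theorem HFlB_st (hX : CubAct Γ st V) {x : (hX.dat K col hcol).Fl} {s : Cb H}
    (hs : s ∈ x.σ) {k : H} (hk : k ∈ s.s) : st k ∈ s.s := by
  rw [HFlB_wall hX hs hk]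
  exact Or.inr rfl

private theorem HFlB_two (hX : CubAct Γ st V) {x : (hX.dat K col hcol).Fl} {s : Cb H}
    (hs : s ∈ x.σ) {h k : H} (hh : h ∈ s.s) (hk : k ∈ s.s) : k = h ∨ k = st h := by
  rw [HFlB_wall hX hs hh] at hk
  rcases hk with hk | hk
  · exact Or.inl hk
  · exact Or.inr hk

open scoped Classical in
/-- Two flags of the same cube: the vertices differ by the walls on which they are on different
sides. -/
private theorem HFlB_cmp (hX : CubAct Γ st V) {x y : (hX.dat K col hcol).Fl}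
    (h : hX.cell y = hX.cell x) : y.v.1.s = symmDiff x.v.1.s
      (hsU (x.σ.filter fun s => ∃ h ∈ s.s, h ∈ x.v.1.s ∧ h ∉ y.v.1.s)) := by
  have h1 : y.v.1.s \ hsU y.σ = x.v.1.s \ hsU x.σ :=
    congrArg (fun c : hX.CT K => c.1.s) h
  rw [hX.cell_σ h] at h1
  ext k
  rw [Set.mem_symmDiff, HFlB_mem_hsU]
  by_cases hk : k ∈ hsU x.σ
  · obtain ⟨s, hs, hks⟩ := HFlB_mem_hsU.mp hk
    have e1 : (∃ t ∈ x.σ.filter fun s => ∃ h ∈ s.s, h ∈ x.v.1.s ∧ h ∉ y.v.1.s, k ∈ t.s) ↔
        ∃ h ∈ s.s, h ∈ x.v.1.s ∧ h ∉ y.v.1.s := by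
      constructor
      · rintro ⟨t, ht, hkt⟩
        obtain ⟨ht1, ht2⟩ := Finset.mem_filter.mp ht
        rw [HFlB_disj hX hs ht1 hks hkt]
        exact ht2
      · intro h2
        exact ⟨s, Finset.mem_filter.mpr ⟨hs, h2⟩, hks⟩
    rw [e1]
    have a1 := hX.st_mem x.v.2 k
    have a2 := hX.st_mem y.v.2 k
    constructor
    · intro hy
      by_cases hx' : k ∈ x.v.1.s
      · left
        refine ⟨hx', ?_⟩
        rintro ⟨h', b1, b2, b3⟩
        rcases HFlB_two hX hs b1 hks with rfl | rfl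
        · exact b3 hy
        · exact (hX.st_mem x.v.2 h').mp hx' b2
      · right
        refine ⟨⟨st k, HFlB_st hX hs hks, a1.mpr hx', fun b => a2.mp b hy⟩, hx'⟩
    · rintro (⟨b1, b2⟩ | ⟨⟨h', b1, b2, b3⟩, b4⟩)
      · by_contra hy
        exact b2 ⟨k, hks, b1, hy⟩
      · rcases HFlB_two hX hs b1 hks with rfl | rfl
        · exact absurd b2 b4
        · exact (hX.st_mem y.v.2 h').mpr b3
  · have e1 : ¬ ∃ t ∈ x.σ.filter fun s => ∃ h ∈ s.s, h ∈ x.v.1.s ∧ h ∉ y.v.1.s, k ∈ t.s := by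
      rintro ⟨t, ht, hkt⟩
      exact hk (HFlB_mem_hsU.mpr ⟨t, (Finset.mem_filter.mp ht).1, hkt⟩)
    have e2 : k ∈ y.v.1.s \ hsU x.σ ↔ k ∈ x.v.1.s \ hsU x.σ := by rw [h1]
    rw [Set.mem_sdiff, Set.mem_sdiff] at e2
    constructor
    · intro hy
      exact Or.inl ⟨(e2.mp ⟨hy, hk⟩).1, e1⟩
    · rintro (⟨b1, -⟩ | ⟨b2, -⟩)
      · exact (e2.mpr ⟨b1, hk⟩).1
      · exact absurd b2 e1

theorem CubAct.eps_pm [LinearOrder H] (hX : CubAct Γ st V) (x : (hX.dat K col hcol).Fl) :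
    hX.eps x = 1 ∨ hX.eps x = -1 := by
  classical
  unfold CubAct.eps
  have h1 : (∏ s ∈ x.σ, if ∃ h ∈ s.s, h < st h ∧ h ∈ x.v.1.s then (1 : ℝ) else -1) = 1 ∨
      (∏ s ∈ x.σ, if ∃ h ∈ s.s, h < st h ∧ h ∈ x.v.1.s then (1 : ℝ) else -1) = -1 := by
    refine Finset.prod_induction _ (fun r : ℝ => r = 1 ∨ r = -1) ?_ (Or.inl rfl) ?_
    · rintro a b (rfl | rfl) (rfl | rfl) <;> norm_num
    · intro s _
      split_ifs
      · exact Or.inl rfl
      · exact Or.inr rfl
  rcases h1 with h1 | h1 <;>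
    rcases neg_one_pow_eq_or ℝ (invN (rW st) (fun s t => col s < col t) x.σ) with h2 | h2 <;>
    rw [h1, h2] <;> norm_num

theorem CubAct.fl_dim [LinearOrder H] (hX : CubAct Γ st V) (x : (hX.dat K col hcol).Fl) :
    (cubCx st V).dim (hX.cell x) = x.σ.card := by
  have hne : ∀ h : H, st h ≠ h := fun h => hX.hs.st_ne (Set.mem_univ h)
  have h1 : (cubCx st V).dim (hX.cell x) = {h | h ∈ hsU x.σ ∧ h < st h}.ncard := by
    show {h | Crs st h (⟨x.v.1.s \ hsU x.σ⟩ : Cb H) ∧ h < st h}.ncard = _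
    congr 1
    ext h
    show Crs st h _ ∧ h < st h ↔ h ∈ hsU x.σ ∧ h < st h
    rw [hX.crs_cell]
  have h2 : wall st '' {h | h ∈ hsU x.σ ∧ h < st h} = (x.σ : Set (Cb H)) := by
    ext s
    constructor
    · rintro ⟨h, ⟨hh, hlt⟩, rfl⟩
      obtain ⟨t, ht, hh'⟩ := HFlB_mem_hsU.mp hh
      rw [← HFlB_wall hX ht hh']
      exact ht
    · intro hs
      obtain ⟨h, hh, hf, e⟩ := hX.mem_D.mp (x.2.1 hs)
      have hm : h ∈ s.s := e ▸ Set.mem_insert _ _
      have hm' : st h ∈ s.s := HFlB_st hX hs hm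
      rcases lt_or_gt_of_ne (hne h) with h3 | h3
      · refine ⟨st h, ⟨HFlB_mem_hsU.mpr ⟨s, hs, hm'⟩, ?_⟩, (HFlB_wall hX hs hm').symm⟩
        rw [hX.hs.inv]
        exact h3
      · exact ⟨h, ⟨HFlB_mem_hsU.mpr ⟨s, hs, hm⟩, h3⟩, (HFlB_wall hX hs hm).symm⟩
  have h3 : Set.InjOn (wall st) {h | h ∈ hsU x.σ ∧ h < st h} := by
    intro h hh k hk e
    rcases hX.wall_eq e with h4 | h4
    · exact h4.symm
    · exfalso
      have h5 : k < st k := hk.2
      rw [h4, hX.hs.inv] at h5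
      exact lt_asymm h5 hh.2
  rw [h1, ← h3.ncard_image, h2, Set.ncard_coe_finset]

variable [DecidableEq (Cb H)]

theorem CubAct.fl_smul (hX : CubAct Γ st V) (g : K) (x : (hX.dat K col hcol).Fl) :
    hX.cell (g • x) = g • hX.cell x := by
  refine Subtype.ext (Cb.ext ?_)
  show ((g : Γ) • x.v.1.s) \ hsU (g • x.σ) = (g : Γ) • (x.v.1.s \ hsU x.σ)
  have h1 : hsU (g • x.σ) = (g : Γ) • hsU x.σ := by
    ext k
    rw [Set.mem_smul_set_iff_inv_smul_mem, HFlB_mem_hsU, HFlB_mem_hsU]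
    constructor
    · rintro ⟨s, hs, hk⟩
      obtain ⟨t, ht, rfl⟩ := Finset.mem_smul_finset.mp hs
      have hk' : k ∈ (g : Γ) • t.s := hk
      exact ⟨t, ht, Set.mem_smul_set_iff_inv_smul_mem.mp hk'⟩
    · rintro ⟨s, hs, hk⟩
      exact ⟨g • s, Finset.smul_mem_smul_finset hs, Set.mem_smul_set_iff_inv_smul_mem.mpr hk⟩
  rw [h1, Set.smul_set_sdiff]

theorem CubAct.mv_val (hX : CubAct Γ st V) (x : (hX.dat K col hcol).Fl) {s : Cb H}
    (hs : s ∈ x.σ) : ((hX.dat K col hcol).mv s x).v.1.s = symmDiff x.v.1.s s.s := by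
  have h1 : symmDiff x.v.1.s s.s ∈ V := by
    have h2 := hX.flips x {s} (Finset.singleton_subset_iff.mpr hs)
    have h3 : hsU {s} = s.s := by
      ext k
      rw [HFlB_mem_hsU]
      constructor
      · rintro ⟨t, ht, hk⟩
        rwa [Finset.mem_singleton.mp ht] at hk
      · exact fun hk => ⟨s, Finset.mem_singleton_self s, hk⟩
    rwa [h3] at h2
  have h4 : (hX.dat K col hcol).nb s x.v = ⟨⟨symmDiff x.v.1.s s.s⟩, h1⟩ := dif_pos h1
  have h5 : x.σ ⊆ (hX.dat K col hcol).D ((hX.dat K col hcol).nb s x.v) := by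
    intro t ht
    by_cases e : s = t
    · subst e
      exact hX.ax_nb_mem x.v s (x.2.1 hs)
    · exact hX.ax_nb_D x.v s (x.2.1 hs) t (x.2.1 ht) (x.2.2 s hs t ht e)
  unfold Dat.mv
  rw [dif_pos h5]
  show ((hX.dat K col hcol).nb s x.v).1.s = _
  rw [h4]

theorem CubAct.fl_mv (hX : CubAct Γ st V) (x : (hX.dat K col hcol).Fl) (s : Cb H)
    (hs : s ∈ x.σ) : hX.cell ((hX.dat K col hcol).mv s x) = hX.cell x := by
  refine Subtype.ext (Cb.ext ?_)
  show ((hX.dat K col hcol).mv s x).v.1.s \ hsU ((hX.dat K col hcol).mv s x).σ =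
    x.v.1.s \ hsU x.σ
  rw [hX.mv_val x hs, Dat.mv_σ]
  ext k
  rw [Set.mem_sdiff, Set.mem_sdiff, Set.mem_symmDiff]
  have h1 : k ∈ s.s → k ∈ hsU x.σ := fun h => HFlB_mem_hsU.mpr ⟨s, hs, h⟩
  tauto

theorem CubAct.fl_mv_ε [LinearOrder H] (hX : CubAct Γ st V) (x : (hX.dat K col hcol).Fl)
    (s : Cb H) (hs : s ∈ x.σ) : hX.eps ((hX.dat K col hcol).mv s x) = - hX.eps x := by
  classical
  have hne : ∀ h : H, st h ≠ h := fun h => hX.hs.st_ne (Set.mem_univ h)
  unfold CubAct.eps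
  rw [Dat.mv_σ, hX.mv_val x hs, ← Finset.mul_prod_erase _ _ hs, ← Finset.mul_prod_erase _ _ hs]
  have h1 : ∀ t ∈ x.σ.erase s,
      (if ∃ h ∈ t.s, h < st h ∧ h ∈ symmDiff x.v.1.s s.s then (1 : ℝ) else -1) =
        if ∃ h ∈ t.s, h < st h ∧ h ∈ x.v.1.s then (1 : ℝ) else -1 := by
    intro t ht
    obtain ⟨ht1, ht2⟩ := Finset.mem_erase.mp ht
    have h2 : (∃ h ∈ t.s, h < st h ∧ h ∈ symmDiff x.v.1.s s.s) ↔
        ∃ h ∈ t.s, h < st h ∧ h ∈ x.v.1.s := by
      refine exists_congr fun h => and_congr_right fun ht3 => and_congr_right fun _ => ?_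
      have h4 : h ∉ s.s := fun h5 => ht1 (HFlB_disj hX ht2 hs ht3 h5)
      rw [Set.mem_symmDiff]
      tauto
    by_cases h3 : ∃ h ∈ t.s, h < st h ∧ h ∈ x.v.1.s
    · rw [if_pos h3, if_pos (h2.mpr h3)]
    · rw [if_neg h3, if_neg (fun h4 => h3 (h2.mp h4))]
  rw [Finset.prod_congr rfl h1]
  have h2 : (if ∃ h ∈ s.s, h < st h ∧ h ∈ symmDiff x.v.1.s s.s then (1 : ℝ) else -1) =
      - if ∃ h ∈ s.s, h < st h ∧ h ∈ x.v.1.s then (1 : ℝ) else -1 := by
    obtain ⟨h, hh, hf, e⟩ := hX.mem_D.mp (x.2.1 hs)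
    have hm : h ∈ s.s := e ▸ Set.mem_insert _ _
    have hm' : st h ∈ s.s := HFlB_st hX hs hm
    have hx' : st h ∉ x.v.1.s := fun h2 => (hX.st_mem x.v.2 h).mp h2 hh
    rcases lt_or_gt_of_ne (hne h) with h3 | h3
    · rw [if_pos ⟨st h, hm', by rw [hX.hs.inv]; exact h3, Set.mem_symmDiff.mpr (Or.inr ⟨hm', hx'⟩)⟩,
        if_neg, neg_neg]
      rintro ⟨k, hk, hk1, hk2⟩
      rcases HFlB_two hX hs hm hk with rfl | rfl
      · exact lt_asymm hk1 h3
      · exact hx' hk2
    · rw [if_neg, if_pos ⟨h, hm, h3, hh⟩]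
      rintro ⟨k, hk, hk1, hk2⟩
      rcases HFlB_two hX hs hm hk with rfl | rfl
      · rcases Set.mem_symmDiff.mp hk2 with h4 | h4
        · exact h4.2 hm
        · exact h4.2 hh
      · rw [hX.hs.inv] at hk1
        exact lt_asymm hk1 h3
  rw [h2]
  ring

theorem CubAct.fl_conn (hX : CubAct Γ st V) (x y : (hX.dat K col hcol).Fl)
    (h : hX.cell x = hX.cell y) : Relation.ReflTransGen
      (fun a b : (hX.dat K col hcol).Fl => ∃ s ∈ a.σ, b = (hX.dat K col hcol).mv s a) x y := by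
  classical
  have key : ∀ (n : ℕ) (x : (hX.dat K col hcol).Fl), hX.cell x = hX.cell y →
      (x.σ.filter fun s => ∃ h ∈ s.s, h ∈ x.v.1.s ∧ h ∉ y.v.1.s).card = n →
      Relation.ReflTransGen
        (fun a b : (hX.dat K col hcol).Fl => ∃ s ∈ a.σ, b = (hX.dat K col hcol).mv s a) x y := by
    intro n
    induction n using Nat.strong_induction_on with
    | _ n ih =>
      intro x h hn
      by_cases h0 : (x.σ.filter fun s => ∃ h ∈ s.s, h ∈ x.v.1.s ∧ h ∉ y.v.1.s) = ∅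
      · have h1 : y.v.1.s = x.v.1.s := by
          have h2 := HFlB_cmp hX h.symm
          rw [h0] at h2
          rw [h2]
          have h3 : hsU (∅ : Finset (Cb H)) = ∅ := by
            ext k
            rw [HFlB_mem_hsU]
            simp
          rw [h3]
          exact symmDiff_bot _
        have h4 : x = y := Dat.Fl.ext (Subtype.ext (Cb.ext h1.symm)) (hX.cell_σ h)
        rw [h4]
      · obtain ⟨s, hs⟩ := Finset.nonempty_iff_ne_empty.mpr h0
        obtain ⟨hs1, h', hh1, hh2, hh3⟩ := Finset.mem_filter.mp hs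
        have e1 : hX.cell ((hX.dat K col hcol).mv s x) = hX.cell y := by
          rw [hX.fl_mv x s hs1, h]
        refine Relation.ReflTransGen.head (b := (hX.dat K col hcol).mv s x) ⟨s, hs1, rfl⟩
          (ih _ ?_ _ e1 rfl)
        rw [← hn]
        refine Finset.card_lt_card ?_
        rw [Finset.ssubset_iff_of_subset]
        · refine ⟨s, hs, fun h5 => ?_⟩
          obtain ⟨-, k, hk1, hk2, hk3⟩ := Finset.mem_filter.mp h5
          rw [hX.mv_val x hs1, Set.mem_symmDiff] at hk2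
          rcases HFlB_two hX hs1 hh1 hk1 with rfl | rfl
          · rcases hk2 with h6 | h6
            · exact h6.2 hk1
            · exact h6.2 hh2
          · exact hk3 ((hX.st_mem y.v.2 h').mpr hh3)
        · intro t ht
          obtain ⟨ht1, k, hk1, hk2, hk3⟩ := Finset.mem_filter.mp ht
          rw [Dat.mv_σ] at ht1
          by_cases e : t = s
          · rw [e]
            exact hs
          · refine Finset.mem_filter.mpr ⟨ht1, k, hk1, ?_, hk3⟩
            rw [hX.mv_val x hs1, Set.mem_symmDiff] at hk2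
            rcases hk2 with h6 | h6
            · exact h6.1
            · exact absurd (HFlB_disj hX ht1 hs1 hk1 h6.1) e
  exact key _ x h rfl

theorem CubAct.fl_card (hX : CubAct Γ st V) (x : (hX.dat K col hcol).Fl) :
    {y : (hX.dat K col hcol).Fl | hX.cell y = hX.cell x}.ncard = 2 ^ x.σ.card := by
  classical
  have hex : ∀ T : Finset (Cb H), T ⊆ x.σ → ∃ y : (hX.dat K col hcol).Fl,
      y.σ = x.σ ∧ y.v.1.s = symmDiff x.v.1.s (hsU T) := by
    intro T
    induction T using Finset.induction_on with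
    | empty =>
      intro _
      refine ⟨x, rfl, ?_⟩
      have h3 : hsU (∅ : Finset (Cb H)) = ∅ := by
        ext k
        rw [HFlB_mem_hsU]
        simp
      rw [h3]
      exact (symmDiff_bot _).symm
    | insert s T hs ih =>
      intro hT
      obtain ⟨y, hy1, hy2⟩ := ih fun t ht => hT (Finset.mem_insert_of_mem ht)
      have hsx : s ∈ x.σ := hT (Finset.mem_insert_self s T)
      have hsy : s ∈ y.σ := hy1 ▸ hsx
      refine ⟨(hX.dat K col hcol).mv s y, ?_, ?_⟩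
      · rw [Dat.mv_σ, hy1]
      · rw [hX.mv_val y hsy, hy2, symmDiff_assoc]
        congr 1
        ext k
        rw [Set.mem_symmDiff, HFlB_mem_hsU, HFlB_mem_hsU]
        constructor
        · rintro (⟨⟨t, ht, hk⟩, -⟩ | ⟨hk, -⟩)
          · exact ⟨t, Finset.mem_insert_of_mem ht, hk⟩
          · exact ⟨s, Finset.mem_insert_self s T, hk⟩
        · rintro ⟨t, ht, hk⟩
          rcases Finset.mem_insert.mp ht with rfl | ht
          · right
            refine ⟨hk, ?_⟩
            rintro ⟨t', ht', hk'⟩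
            have e := HFlB_disj hX hsx (hT (Finset.mem_insert_of_mem ht')) hk hk'
            rw [e] at hs
            exact hs ht'
          · left
            refine ⟨⟨t, ht, hk⟩, fun hk' => ?_⟩
            have e := HFlB_disj hX hsx (hT (Finset.mem_insert_of_mem ht)) hk' hk
            rw [e] at hs
            exact hs ht
  have hcard : 2 ^ x.σ.card = (↑(x.σ.powerset) : Set (Finset (Cb H))).ncard := by
    rw [Set.ncard_coe_finset, Finset.card_powerset]
  rw [hcard]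
  symm
  have hP : ∀ T ∈ (↑(x.σ.powerset) : Set (Finset (Cb H))), T ⊆ x.σ :=
    fun T hT => Finset.mem_powerset.mp (Finset.mem_coe.mp hT)
  refine Set.ncard_congr (fun T hT => (hex T (hP T hT)).choose) ?_ ?_ ?_
  · intro T hT
    obtain ⟨h1, h2⟩ := (hex T (hP T hT)).choose_spec
    refine Subtype.ext (Cb.ext ?_)
    show ((hex T (hP T hT)).choose).v.1.s \ hsU ((hex T (hP T hT)).choose).σ =
      x.v.1.s \ hsU x.σ
    rw [h1, h2]
    ext k
    rw [Set.mem_sdiff, Set.mem_sdiff, Set.mem_symmDiff]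
    have h3 : k ∈ hsU T → k ∈ hsU x.σ := by
      intro h
      obtain ⟨t, ht, hk⟩ := HFlB_mem_hsU.mp h
      exact HFlB_mem_hsU.mpr ⟨t, hP T hT ht, hk⟩
    tauto
  · intro T T' hT hT' e
    obtain ⟨-, h2⟩ := (hex T (hP T hT)).choose_spec
    obtain ⟨-, h2'⟩ := (hex T' (hP T' hT')).choose_spec
    have h3 : symmDiff x.v.1.s (hsU T) = symmDiff x.v.1.s (hsU T') := by
      rw [← h2, ← h2']
      exact congrArg (fun y : (hX.dat K col hcol).Fl => y.v.1.s) e
    have h4 : hsU T = hsU T' := symmDiff_right_injective _ h3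
    have h5 : ∀ A B : Finset (Cb H), A ⊆ x.σ → B ⊆ x.σ → hsU A = hsU B → A ⊆ B := by
      intro A B hA hB hAB s hs
      obtain ⟨h, hh, hf, e⟩ := hX.mem_D.mp (x.2.1 (hA hs))
      have hm : h ∈ s.s := e ▸ Set.mem_insert _ _
      have h6 : h ∈ hsU B := hAB ▸ HFlB_mem_hsU.mpr ⟨s, hs, hm⟩
      obtain ⟨t, ht, hk⟩ := HFlB_mem_hsU.mp h6
      rw [HFlB_disj hX (hA hs) (hB ht) hm hk]
      exact ht
    exact Finset.Subset.antisymm (h5 _ _ (hP T hT) (hP T' hT') h4)
      (h5 _ _ (hP T' hT') (hP T hT) h4.symm)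
  · intro y hy
    have hy' : hX.cell y = hX.cell x := hy
    have hT : (x.σ.filter fun s => ∃ h ∈ s.s, h ∈ x.v.1.s ∧ h ∉ y.v.1.s) ∈
        (↑(x.σ.powerset) : Set (Finset (Cb H))) :=
      Finset.mem_coe.mpr (Finset.mem_powerset.mpr (Finset.filter_subset _ _))
    refine ⟨_, hT, ?_⟩
    obtain ⟨h1, h2⟩ := (hex _ (hP _ hT)).choose_spec
    refine Dat.Fl.ext (Subtype.ext (Cb.ext ?_)) ?_
    · rw [h2]
      exact (HFlB_cmp hX hy').symm
    · rw [h1]
      exact (hX.cell_σ hy').symm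

theorem CubAct.fl_free (hX : CubAct Γ st V) (g : K) (c : hX.CT K) (h : g • c = c) : g = 1 := by
  have h1 : (g : Γ) • c.1 = c.1 := congrArg Subtype.val h
  exact Subtype.ext (hX.free (g : Γ) c.1 c.2 h1)

end SingerLG
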