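import Mathlib
import Pool.Agent.Lib_MP_394d50_lg.HFlB

/-!
# Piece H8: the incidence numbers

`p = cell x`, `x = (v, σ)`. Let `q` be a cube.
`inc_ne`: if `p.s = insert h' q.s` where `Crs st h' q`, then `t = wall st h'` is in `exs x` and `cell (ins t x) = q`: `h' ∈ p.s ⊆ v`, `q.s = p.s \ {h'}`; `flip st h' v ⊇ q.s` is an orientation, so in `V`; `t ∉ σ`, as the
walls in `σ` are undecided in `p`, and `t` is decided; for `s ∈ σ`: the opposite vertex of the square contains `q.s` (`s` and `t` undecided in `q`), so `CrL s t`.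
Conversely if `t = wall st h' ∈ exs x` (`h' ∈ v`) and `q = cell (ins t x)` then `q.s = p.s \ {h'}`, `p.s = insert h' q.s`. For given `p`, `q` there is at most one such `h'`.
If there is none, both sides are zero. If there is one, `t = wall st h'`, `τ = insert t σ`, let `h₀` be the smaller one of `h'`, `st h'`: the left hand side has one summand `h = h₀`: it is
`(-1) ^ {k | Crs st k q ∧ k < st k ∧ k < h₀}.ncard * (1 if h' = h₀, -1 otherwise)`, and the number is `posR (rW st) τ t` (the walls `s ∈ τ` whose smaller half-space is `< h₀`; `crs_cell` for `ins t x`). The right hand side has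
the one summand `t`: `sg x t * (eps x * eps (ins t x))`; the products in `eps` cancel (squares) up to the factor of `t`, which is `1` if `h₀ ∈ v` (i.e. `h' = h₀`), `-1` otherwise; `sg x t = (-1) ^ posR (col <) τ t`
(`¬ col t < col t`). `invN_erase` (`Lib_MP_394d50_vs/LSim.lean`) for `τ`, `t`: `posR rW τ t + posR (col <) τ t + invN τ = 2 m + invN (τ.erase t)`, `τ.erase t = σ`. `TotOn`: different walls of a clique have
different smaller half-spaces, and different colours (`hne`).
-/

namespace SingerLG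

open SingerVS SingerCub
open scoped Pointwise

variable {H Γ : Type} [Group Γ] [MulAction Γ H] {st : H → H} {V : Set (Set H)}
  {K : Subgroup Γ} {col : Cb H → ℕ} {hcol : ∀ g ∈ K, ∀ s, col (g • s) = col s}
  [LinearOrder H] [DecidableEq (Cb H)]

private theorem HFlC_mem_hsU {σ : Finset (Cb H)} {k : H} : k ∈ hsU σ ↔ ∃ s ∈ σ, k ∈ s.s := by
  unfold hsU
  simp only [Set.mem_iUnion, exists_prop]

private theorem HFlC_wall (hX : CubAct Γ st V) {x : (hX.dat K col hcol).Fl} {s : Cb H}
    (hs : s ∈ x.σ) {k : H} (hk : k ∈ s.s) : s = wall st k := by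
  obtain ⟨h, hh, hf, rfl⟩ := hX.mem_D.mp (x.2.1 hs)
  rcases hk with rfl | hk
  · rfl
  · rw [Set.mem_singleton_iff.mp hk, hX.wall_st]

private theorem HFlC_two (hX : CubAct Γ st V) {x : (hX.dat K col hcol).Fl} {s : Cb H}
    (hs : s ∈ x.σ) {h k : H} (hh : h ∈ s.s) (hk : k ∈ s.s) : k = h ∨ k = st h := by
  rw [HFlC_wall hX hs hh] at hk
  rcases hk with hk | hk
  · exact Or.inl hk
  · exact Or.inr hk

private theorem HFlC_uniq (hX : CubAct Γ st V) {x : (hX.dat K col hcol).Fl} {s : Cb H}
    (hs : s ∈ x.σ) {h k : H} (hh : h ∈ s.s) (hk : k ∈ s.s) (h1 : h < st h) (h2 : k < st k) :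
    k = h := by
  rcases HFlC_two hX hs hh hk with h3 | h3
  · exact h3
  · exfalso
    rw [h3, hX.hs.inv] at h2
    exact lt_asymm h1 h2

private theorem HFlC_lo (hX : CubAct Γ st V) {x : (hX.dat K col hcol).Fl} {s : Cb H}
    (hs : s ∈ x.σ) : ∃ h ∈ s.s, h < st h := by
  obtain ⟨h, hh, hf, rfl⟩ := hX.mem_D.mp (x.2.1 hs)
  rcases lt_or_gt_of_ne (hX.hs.st_ne (Set.mem_univ h)) with h1 | h1
  · refine ⟨st h, Or.inr rfl, ?_⟩
    rw [hX.hs.inv]
    exact h1
  · exact ⟨h, Or.inl rfl, h1⟩

private theorem HFlC_rW (hX : CubAct Γ st V) {x : (hX.dat K col hcol).Fl} {s t : Cb H}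
    (hs : s ∈ x.σ) (ht : t ∈ x.σ) {h k : H} (hh : h ∈ s.s) (hk : k ∈ t.s) (h1 : h < st h)
    (h2 : k < st k) : rW st s t ↔ h < k := by
  constructor
  · rintro ⟨h', a1, k', a2, a3, a4, a5⟩
    rw [← HFlC_uniq hX hs hh a1 h1 a3, ← HFlC_uniq hX ht hk a2 h2 a4]
    exact a5
  · intro h3
    exact ⟨h, hh, k, hk, h1, h2, h3⟩

private theorem HFlC_totW (hX : CubAct Γ st V) (x : (hX.dat K col hcol).Fl) :
    TotOn (rW st) x.σ := by
  constructor
  · intro s hs h
    obtain ⟨h1, a1, a2⟩ := HFlC_lo hX hs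
    exact lt_irrefl _ ((HFlC_rW hX hs hs a1 a1 a2 a2).mp h)
  · intro s hs t ht hst
    obtain ⟨h1, a1, a2⟩ := HFlC_lo hX hs
    obtain ⟨k1, b1, b2⟩ := HFlC_lo hX ht
    rw [HFlC_rW hX hs ht a1 b1 a2 b2, HFlC_rW hX ht hs b1 a1 b2 a2]
    have h3 : h1 ≠ k1 := by
      rintro rfl
      exact hst (by rw [HFlC_wall hX hs a1, HFlC_wall hX ht b1])
    constructor
    · exact fun h => lt_asymm h
    · intro h
      exact lt_of_le_of_ne (not_lt.mp h) h3

private theorem HFlC_totC (hX : CubAct Γ st V) (hne : ∀ s t, CrL st V s t → col s ≠ col t)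
    (x : (hX.dat K col hcol).Fl) : TotOn (fun s t => col s < col t) x.σ := by
  constructor
  · intro s hs h
    exact lt_irrefl _ h
  · intro s hs t ht hst
    have h3 : col s ≠ col t := hne s t (x.2.2 s hs t ht hst)
    show col s < col t ↔ ¬ col t < col s
    omega

private theorem HFlC_ncard (hX : CubAct Γ st V) (y : (hX.dat K col hcol).Fl) {t : Cb H}
    (ht : t ∈ y.σ) {h₀ : H} (hh : h₀ ∈ t.s) (hl : h₀ < st h₀) :
    {k | Crs st k (hX.cell y).1 ∧ k < st k ∧ k < h₀}.ncard = posR (rW st) y.σ t := by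
  classical
  have h1 : {k | Crs st k (hX.cell y).1 ∧ k < st k ∧ k < h₀} =
      {k | k ∈ hsU y.σ ∧ k < st k ∧ k < h₀} := by
    ext k
    show Crs st k _ ∧ k < st k ∧ k < h₀ ↔ k ∈ hsU y.σ ∧ k < st k ∧ k < h₀
    have h2 : Crs st k (hX.cell y).1 ↔ k ∈ hsU y.σ := hX.crs_cell y k
    rw [h2]
  have h2 : wall st '' {k | k ∈ hsU y.σ ∧ k < st k ∧ k < h₀} =
      ((y.σ.filter fun s => rW st s t) : Set (Cb H)) := by
    ext s
    constructor
    · rintro ⟨k, ⟨hk, hk1, hk2⟩, rfl⟩
      obtain ⟨s, hs, hks⟩ := HFlC_mem_hsU.mp hk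
      rw [← HFlC_wall hX hs hks]
      exact Finset.mem_coe.mpr (Finset.mem_filter.mpr ⟨hs, k, hks, h₀, hh, hk1, hl, hk2⟩)
    · intro hs
      obtain ⟨hs1, hs2⟩ := Finset.mem_filter.mp (Finset.mem_coe.mp hs)
      obtain ⟨k, hk, hk'⟩ := HFlC_lo hX hs1
      exact ⟨k, ⟨HFlC_mem_hsU.mpr ⟨s, hs1, hk⟩, hk', (HFlC_rW hX hs1 ht hk hh hk' hl).mp hs2⟩,
        (HFlC_wall hX hs1 hk).symm⟩
  have h3 : Set.InjOn (wall st) {k | k ∈ hsU y.σ ∧ k < st k ∧ k < h₀} := by
    intro h hh' k hk e
    obtain ⟨s, hs, hks⟩ := HFlC_mem_hsU.mp hh'.1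
    have h5 : k ∈ s.s := by
      rw [HFlC_wall hX hs hks, e]
      exact Set.mem_insert _ _
    exact HFlC_uniq hX hs h5 hks hk.2.1 hh'.2.1
  rw [h1, ← h3.ncard_image, h2, Set.ncard_coe_finset]
  unfold posR
  congr 1

open scoped Classical in
theorem CubAct.fl_inc (hX : CubAct Γ st V) (hne : ∀ s t, CrL st V s t → col s ≠ col t)
    (x : (hX.dat K col hcol).Fl) (q : hX.CT K) :
    ((cubCx st V).inc (hX.cell x) q : ℝ) = ∑ t ∈ (hX.dat K col hcol).exs x,
      if hX.cell ((hX.dat K col hcol).ins t x) = q then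
        (hX.dat K col hcol).sg x t * (hX.eps x * hX.eps ((hX.dat K col hcol).ins t x)) else 0 := by
  have hne' : ∀ h : H, st h ≠ h := fun h => hX.hs.st_ne (Set.mem_univ h)
  have ox := hX.hs.ori _ x.v.2
  -- the larger cubes of `x`: one half-space less
  have hB : ∀ t ∈ (hX.dat K col hcol).exs x, hX.cell ((hX.dat K col hcol).ins t x) = q →
      ∃ h', h' ∈ x.v.1.s ∧ t = wall st h' ∧ Crs st h' q.1 ∧
        (hX.cell x).1.s = insert h' q.1.s := by
    intro t ht hq
    obtain ⟨ht1, ht2, ht3⟩ := Dat.mem_exs.mp ht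
    obtain ⟨h', hh, hf, rfl⟩ := hX.mem_D.mp ht1
    have hst : st h' ∉ x.v.1.s := fun e => (hX.st_mem x.v.2 h').mp e hh
    have hU : h' ∉ hsU x.σ := by
      intro h1
      obtain ⟨s, hs, hks⟩ := HFlC_mem_hsU.mp h1
      rw [HFlC_wall hX hs hks] at hs
      exact ht2 hs
    have hqs : q.1.s = x.v.1.s \ hsU (insert (wall st h') x.σ) := by
      rw [← hq, ← Dat.ins_σ _ ht]
      show ((hX.dat K col hcol).ins (wall st h') x).v.1.s \ _ = _
      rw [Dat.ins_v]
    have hm : h' ∈ hsU (insert (wall st h') x.σ) :=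
      HFlC_mem_hsU.mpr ⟨_, Finset.mem_insert_self _ _, Set.mem_insert _ _⟩
    refine ⟨h', hh, rfl, ⟨?_, ?_⟩, ?_⟩
    · rw [hqs]
      exact fun h1 => h1.2 hm
    · rw [hqs]
      exact fun h1 => hst h1.1
    · show x.v.1.s \ hsU x.σ = insert h' q.1.s
      rw [hqs]
      ext k
      rw [Set.mem_insert_iff, Set.mem_sdiff, Set.mem_sdiff, HFlC_mem_hsU, HFlC_mem_hsU]
      constructor
      · rintro ⟨a1, a2⟩
        by_cases e : k = h'
        · exact Or.inl e
        · refine Or.inr ⟨a1, ?_⟩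
          rintro ⟨s, hs, hks⟩
          rcases Finset.mem_insert.mp hs with rfl | hs
          · rcases hks with hks | hks
            · exact e hks
            · rw [Set.mem_singleton_iff.mp hks] at a1
              exact hst a1
          · exact a2 ⟨s, hs, hks⟩
      · rintro (rfl | ⟨a1, a2⟩)
        · exact ⟨hh, fun h1 => hU (HFlC_mem_hsU.mpr h1)⟩
        · refine ⟨a1, ?_⟩
          rintro ⟨s, hs, hks⟩
          exact a2 ⟨s, Finset.mem_insert_of_mem hs, hks⟩
  have huniq : ∀ h' h'' : H, Crs st h' q.1 → (hX.cell x).1.s = insert h' q.1.s →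
      (hX.cell x).1.s = insert h'' q.1.s → h' = h'' := by
    intro h' h'' a1 a2 a3
    have h1 : h' ∈ insert h'' q.1.s := by
      rw [← a3, a2]
      exact Set.mem_insert _ _
    rcases h1 with h1 | h1
    · exact h1
    · exact absurd h1 a1.1
  by_cases hA : ∃ h', Crs st h' q.1 ∧ (hX.cell x).1.s = insert h' q.1.s
  · obtain ⟨h', hc, hp⟩ := hA
    have hp' : x.v.1.s \ hsU x.σ = insert h' q.1.s := hp
    have hh1 : h' ∈ x.v.1.s \ hsU x.σ := by
      rw [hp']
      exact Set.mem_insert _ _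
    obtain ⟨hh, hU⟩ := hh1
    have hst : st h' ∉ x.v.1.s := fun e => (hX.st_mem x.v.2 h').mp e hh
    have hqv : ∀ k ∈ q.1.s, k ∈ x.v.1.s ∧ k ∉ hsU x.σ ∧ k ≠ h' := by
      intro k hk
      have h1 : k ∈ x.v.1.s \ hsU x.σ := by
        rw [hp']
        exact Set.mem_insert_of_mem _ hk
      refine ⟨h1.1, h1.2, ?_⟩
      rintro rfl
      exact hc.1 hk
    have hof := hX.hs.ori_flip ox hh
    have hf : flip st h' x.v.1.s ∈ V := by
      refine q.2.2.2.2 _ hof fun k hk => ?_
      obtain ⟨a1, a2, a3⟩ := hqv k hk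
      exact mem_flip.mpr (Or.inr ⟨a1, a3⟩)
    have htD : wall st h' ∈ (hX.dat K col hcol).D x.v := hX.mem_D.mpr ⟨h', hh, hf, rfl⟩
    have htσ : wall st h' ∉ x.σ := fun h1 =>
      hU (HFlC_mem_hsU.mpr ⟨_, h1, Set.mem_insert _ _⟩)
    have hcr : ∀ s ∈ x.σ, CrL st V s (wall st h') := by
      intro s hs
      obtain ⟨k, hk, hfk, rfl⟩ := hX.mem_D.mp (x.2.1 hs)
      have hkU : k ∈ hsU x.σ := HFlC_mem_hsU.mpr ⟨_, hs, Set.mem_insert _ _⟩
      have hkh : k ≠ h' := by
        rintro rfl
        exact htσ hs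
      refine ⟨x.v.1.s, x.v.2, k, hk, h', hh, hkh, rfl, rfl, hfk, hf, ?_⟩
      have hst' : h' ∈ flip st k x.v.1.s := mem_flip.mpr (Or.inr ⟨hh, hkh.symm⟩)
      rw [← hX.flip_comm x.v.2 hk hh hkh]
      refine q.2.2.2.2 _ (hX.hs.ori_flip (hX.hs.ori_flip ox hk) hst') fun l hl => ?_
      obtain ⟨a1, a2, a3⟩ := hqv l hl
      refine mem_flip.mpr (Or.inr ⟨mem_flip.mpr (Or.inr ⟨a1, ?_⟩), a3⟩)
      rintro rfl
      exact a2 hkU
    have hCl : (hX.dat K col hcol).Cl (insert (wall st h') x.σ) := by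
      intro s hs t ht hst2
      show CrL st V s t
      rcases Finset.mem_insert.mp hs with rfl | hs
      · rcases Finset.mem_insert.mp ht with rfl | ht
        · exact absurd rfl hst2
        · exact (hcr t ht).symm
      · rcases Finset.mem_insert.mp ht with rfl | ht
        · exact hcr s hs
        · exact x.2.2 s hs t ht hst2
    have hex : wall st h' ∈ (hX.dat K col hcol).exs x := Dat.mem_exs.mpr ⟨htD, htσ, hCl⟩
    have hσ := Dat.ins_σ (hX.dat K col hcol) hex
    have hv := Dat.ins_v (hX.dat K col hcol) (wall st h') x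
    have hcell : hX.cell ((hX.dat K col hcol).ins (wall st h') x) = q := by
      refine Subtype.ext (Cb.ext ?_)
      show ((hX.dat K col hcol).ins (wall st h') x).v.1.s \
        hsU ((hX.dat K col hcol).ins (wall st h') x).σ = q.1.s
      rw [hσ, hv]
      ext k
      rw [Set.mem_sdiff, HFlC_mem_hsU]
      constructor
      · rintro ⟨a1, a2⟩
        have h1 : k ∈ insert h' q.1.s := by
          rw [← hp']
          refine ⟨a1, fun h1 => a2 ?_⟩
          obtain ⟨s, hs, hks⟩ := HFlC_mem_hsU.mp h1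
          exact ⟨s, Finset.mem_insert_of_mem hs, hks⟩
        rcases h1 with rfl | h1
        · exact absurd ⟨_, Finset.mem_insert_self _ _, Set.mem_insert _ _⟩ a2
        · exact h1
      · intro hk
        obtain ⟨a1, a2, a3⟩ := hqv k hk
        refine ⟨a1, ?_⟩
        rintro ⟨s, hs, hks⟩
        rcases Finset.mem_insert.mp hs with rfl | hs
        · rcases hks with hks | hks
          · exact a3 hks
          · rw [Set.mem_singleton_iff.mp hks] at a1
            exact hst a1
        · exact a2 (HFlC_mem_hsU.mpr ⟨s, hs, hks⟩)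
    -- the right hand side
    rw [Finset.sum_eq_single (wall st h') ?_ fun h1 => absurd hex h1, if_pos hcell]
    swap
    · intro t ht htne
      rw [if_neg]
      intro e
      obtain ⟨h'', b1, b2, b3, b4⟩ := hB t ht e
      rw [huniq h' h'' hc hp b4, ← b2] at htne
      exact htne rfl
    -- the smaller half-space of the wall
    obtain ⟨h₀, hl, hm, hcase⟩ : ∃ h₀, h₀ < st h₀ ∧ h₀ ∈ (wall st h').s ∧
        ((h₀ = h') ∨ (h₀ = st h')) := by
      rcases lt_or_gt_of_ne (hne' h') with h3 | h3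
      · refine ⟨st h', ?_, Or.inr rfl, Or.inr rfl⟩
        rw [hX.hs.inv]
        exact h3
      · exact ⟨h', h3, Or.inl rfl, Or.inl rfl⟩
    have hcrs0 : Crs st h₀ q.1 := by
      rcases hcase with e | e
      · rw [e]
        exact hc
      · rw [e]
        refine ⟨hc.2, ?_⟩
        rw [hX.hs.inv]
        exact hc.1
    set F : ℤ := (if (hX.cell x).1.s = insert h₀ q.1.s then 1 else 0) -
        (if (hX.cell x).1.s = insert (st h₀) q.1.s then 1 else 0) with hF
    have hL : (cubCx st V).inc (hX.cell x) q =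
        (-1) ^ {k | Crs st k q.1 ∧ k < st k ∧ k < h₀}.ncard * F := by
      show (∑ᶠ h : {h // Crs st h q.1 ∧ h < st h}, _) = _
      rw [finsum_eq_single _ (⟨h₀, hcrs0, hl⟩ : {h // Crs st h q.1 ∧ h < st h})]
      rintro ⟨k, hk1, hk2⟩ hk3
      have hk4 : k ≠ h₀ := fun e => hk3 (Subtype.ext e)
      rw [if_neg, if_neg, sub_zero, mul_zero]
      · intro e
        have h5 : h' = st k := huniq h' (st k) hc hp e
        rcases hcase with e1 | e1
        · rw [e1, h5, hX.hs.inv] at hl
          exact lt_asymm hl hk2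
        · rw [h5, hX.hs.inv] at e1
          exact hk4 e1.symm
      · intro e
        have h5 : h' = k := huniq h' k hc hp e
        rcases hcase with e1 | e1
        · exact hk4 (h5.symm.trans e1.symm)
        · rw [e1, h5, hX.hs.inv] at hl
          exact lt_asymm hl hk2
    have htm : wall st h' ∈ ((hX.dat K col hcol).ins (wall st h') x).σ := by
      rw [hσ]
      exact Finset.mem_insert_self _ _
    have hN : {k | Crs st k q.1 ∧ k < st k ∧ k < h₀}.ncard =
        posR (rW st) (insert (wall st h') x.σ) (wall st h') := by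
      have h1 := HFlC_ncard hX ((hX.dat K col hcol).ins (wall st h') x) htm hm hl
      rw [hcell, hσ] at h1
      exact h1
    have hFf : (F : ℝ) = if ∃ h ∈ (wall st h').s, h < st h ∧ h ∈ x.v.1.s then 1 else -1 := by
      rcases hcase with e | e
      · have h1 : (hX.cell x).1.s ≠ insert (st h₀) q.1.s := by
          intro e2
          have h2 := huniq h' _ hc hp e2
          rw [e] at h2
          exact hne' h' h2.symm
        rw [if_pos ⟨h₀, hm, hl, e ▸ hh⟩, hF, if_neg h1, if_pos (by rw [e]; exact hp)]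
        norm_num
      · have h1 : (hX.cell x).1.s ≠ insert h₀ q.1.s := by
          intro e2
          have h2 := huniq h' _ hc hp e2
          rw [e] at h2
          exact hne' h' h2.symm
        rw [if_neg, hF, if_neg h1, if_pos (by rw [e, hX.hs.inv]; exact hp)]
        · norm_num
        · rintro ⟨k, hk, hk1, hk2⟩
          rcases hk with hk | hk
          · rw [e, hX.hs.inv, ← hk] at hl
            exact lt_asymm hl hk1
          · rw [Set.mem_singleton_iff.mp hk] at hk2
            exact hst hk2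
    have hep : hX.eps ((hX.dat K col hcol).ins (wall st h') x) =
        ((if ∃ h ∈ (wall st h').s, h < st h ∧ h ∈ x.v.1.s then 1 else -1) *
          ∏ s ∈ x.σ, if ∃ h ∈ s.s, h < st h ∧ h ∈ x.v.1.s then (1 : ℝ) else -1) *
        (-1) ^ invN (rW st) (fun s t => col s < col t) (insert (wall st h') x.σ) := by
      unfold CubAct.eps
      rw [hσ, hv, Finset.prod_insert htσ]
    have hex2 : hX.eps x = (∏ s ∈ x.σ, if ∃ h ∈ s.s, h < st h ∧ h ∈ x.v.1.s then (1 : ℝ) else -1) *
        (-1) ^ invN (rW st) (fun s t => col s < col t) x.σ := rfl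
    have hsg : (hX.dat K col hcol).sg x (wall st h') = (-1) ^
        posR (fun s t => col s < col t) (insert (wall st h') x.σ) (wall st h') := by
      unfold Dat.sg posR
      congr 2
      ext s
      refine Finset.mem_filter.trans (Iff.trans ?_
        (@Finset.mem_filter _ _ (fun a => Classical.propDecidable _) _ _).symm)
      rw [Finset.mem_insert]
      show s ∈ x.σ ∧ col s < col (wall st h') ↔
        (s = wall st h' ∨ s ∈ x.σ) ∧ col s < col (wall st h')
      constructor
      · rintro ⟨a1, a2⟩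
        exact ⟨Or.inr a1, a2⟩
      · rintro ⟨rfl | a1, a2⟩
        · exact absurd a2 (lt_irrefl _)
        · exact ⟨a1, a2⟩
    have htW : TotOn (rW st) (insert (wall st h') x.σ) := by
      rw [← hσ]
      exact HFlC_totW hX _
    have htC : TotOn (fun s t => col s < col t) (insert (wall st h') x.σ) := by
      rw [← hσ]
      exact HFlC_totC hX hne _
    obtain ⟨m, hm2⟩ := invN_erase htW htC (Finset.mem_insert_self (wall st h') x.σ)
    rw [Finset.erase_insert htσ] at hm2
    have hpm : (∏ s ∈ x.σ, if ∃ h ∈ s.s, h < st h ∧ h ∈ x.v.1.s then (1 : ℝ) else -1) *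
        (∏ s ∈ x.σ, if ∃ h ∈ s.s, h < st h ∧ h ∈ x.v.1.s then (1 : ℝ) else -1) = 1 := by
      rw [← Finset.prod_mul_distrib]
      refine Finset.prod_eq_one fun s _ => ?_
      split_ifs <;> norm_num
    rw [hL, hN, hsg, hep, hex2, Int.cast_mul, hFf, Int.cast_pow, Int.cast_neg, Int.cast_one]
    set a := (∏ s ∈ x.σ, if ∃ h ∈ s.s, h < st h ∧ h ∈ x.v.1.s then (1 : ℝ) else -1) with ha
    set f := (if ∃ h ∈ (wall st h').s, h < st h ∧ h ∈ x.v.1.s then (1 : ℝ) else -1) with hf2
    have hpow : ((-1 : ℝ) ^ posR (rW st) (insert (wall st h') x.σ) (wall st h')) =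
        (-1) ^ posR (fun s t => col s < col t) (insert (wall st h') x.σ) (wall st h') *
        ((-1) ^ invN (rW st) (fun s t => col s < col t) x.σ *
        (-1) ^ invN (rW st) (fun s t => col s < col t) (insert (wall st h') x.σ)) := by
      rw [← pow_add, ← pow_add]
      refine neg_one_pow_congr ?_
      rw [Nat.even_iff, Nat.even_iff]
      omega
    rw [hpow]
    linear_combination (-(((-1) ^ posR (fun s t => col s < col t) (insert (wall st h') x.σ)
      (wall st h') * ((-1) ^ invN (rW st) (fun s t => col s < col t) x.σ *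
        (-1) ^ invN (rW st) (fun s t => col s < col t) (insert (wall st h') x.σ))) * f)) * hpm
  · rw [Finset.sum_eq_zero]
    · have h1 : (cubCx st V).inc (hX.cell x) q = 0 := by
        show (∑ᶠ h : {h // Crs st h q.1 ∧ h < st h}, _) = _
        refine finsum_eq_zero_of_forall_eq_zero ?_
        rintro ⟨k, hk1, hk2⟩
        rw [if_neg, if_neg, sub_zero, mul_zero]
        · intro e
          refine hA ⟨st k, ⟨hk1.2, ?_⟩, e⟩
          rw [hX.hs.inv]
          exact hk1.1
        · intro e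
          exact hA ⟨k, hk1, e⟩
      rw [h1, Int.cast_zero]
    · intro t ht
      rw [if_neg]
      intro e
      obtain ⟨h'', b1, b2, b3, b4⟩ := hB t ht e
      exact hA ⟨h'', b3, b4⟩

/-- The cubical chain complex is that of the stage. -/
theorem CubAct.flagd (hX : CubAct Γ st V) (hne : ∀ s t, CrL st V s t → col s ≠ col t) :
    Flagd (C := hX.CT K) (hX.dat K col hcol) (cubCx st V) hX.cell hX.eps where
  dim := hX.fl_dim
  surj := hX.cell_surj
  pm := hX.eps_pm
  smul := hX.fl_smul
  mv := hX.fl_mv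
  mv_ε := hX.fl_mv_ε
  conn := hX.fl_conn
  card := hX.fl_card
  free := hX.fl_free
  inc := hX.fl_inc hne

end SingerLG
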