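import Mathlib
import Pool.Agent.Lib_MP_394d50_lg.HFlC
import Pool.Agent.Lib_MP_394d50_vs.LOr

/-!
# Piece H9: the local dimensions of the cubes are invariant under `Γ` (the order of the half-spaces is not)

`dim_gc`: `dim (g • c)` counts the walls which cross `g • c`; the number of the `h < st h` with `Crs st h c` is half of the number of the `h` with `Crs st h c` (involution `st` without fixed points), which
is invariant; or use `cell_surj` (for `K = ⊥`) and `fl_dim`: `c = cell x`, `g • c = cell y`, with `x.σ.card = y.σ.card`.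
`inc_gc`: there are signs `t c` with `inc (g p) (g q) = t p * t q * inc p q`. Proof with the stage for `K = ⊥`: `A₁ = hX.dat ⊥ col _`, `A₂ = hX.dat ⊥ (fun s => col (g⁻¹ • s)) _` (both colourings are proper: `crL_smul`),
`Flagd` for both (`hX.flagd`), the map `G : A₁.Fl → A₂.Fl`, `(v, σ) ↦ (g • v, g • σ)`: `cell (G x) = gc g (cell x)`, `sg (G x) (g • t) = sg x t`, `exs (G x) = g • exs x`, `G (ins t x) = ins (g • t) (G x)`,
`G (mv s x) = mv (g • s) (G x)`. Put `t (cell x) = eps x * eps (G x)`: well defined (`fl_conn`, `fl_mv_ε` for both stages: both factors change the sign; `cell_surj`). By `fl_inc` for both stages: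
`inc (gc g (cell x)) (gc g q) = ∑_{u ∈ exs (G x)}, [cell (ins u (G x)) = gc g q] sg (eps (G x) * eps (ins u (G x)))`, substitute `u = g • t`: `= ∑_{t ∈ exs x} [cell (ins t x) = q] sg x t * (eps (G x) * eps (G (ins t x)))`, and
`eps (G x) * eps (G (ins t x)) = t p * t q * (eps x * eps (ins t x))` (squares are `1`). (The signs as integers: choose `t : _ → ℤ`.)
`locDim_gc`: `SingerVS.locDim_twist` with `e = gc g` (bijective, inverse `gc g⁻¹`).
-/

namespace SingerLG

open SingerVS SingerCub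
open scoped Pointwise

variable {H Γ : Type} [Group Γ] [MulAction Γ H] {st : H → H} {V : Set (Set H)} [LinearOrder H]

omit [LinearOrder H] in
/-- The translate of a cube. -/
def CubAct.gc (hX : CubAct Γ st V) (g : Γ) (c : {c : Cb H // c ∈ Cub st Set.univ V}) :
    {c : Cb H // c ∈ Cub st Set.univ V} := ⟨g • c.1, hX.cub_smul g c.2⟩

section aux

variable {K : Subgroup Γ} {col col' : Cb H → ℕ} {hcol : ∀ g ∈ K, ∀ s, col (g • s) = col s}
  {hcol' : ∀ g ∈ K, ∀ s, col' (g • s) = col' s} [DecidableEq (Cb H)]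

omit [LinearOrder H] in
private theorem HInv_cl (hX : CubAct Γ st V) (g : Γ) {σ : Finset (Cb H)}
    (h : (hX.dat K col hcol).Cl σ) : (hX.dat K col' hcol').Cl (g • σ) := by
  intro s hs t ht hst
  obtain ⟨s', hs', rfl⟩ := Finset.mem_smul_finset.mp hs
  obtain ⟨t', ht', rfl⟩ := Finset.mem_smul_finset.mp ht
  exact hX.crL_smul g (h s' hs' t' ht' fun e => hst (by rw [e]))

omit [LinearOrder H] [DecidableEq (Cb H)] in
private theorem HInv_D (hX : CubAct Γ st V) (g : Γ) {v : hX.VT K} {s : Cb H}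
    (h : s ∈ (hX.dat K col hcol).D v) :
    g • s ∈ (hX.dat K col' hcol').D (⟨g • v.1, hX.V_smul g _ v.2⟩ : hX.VT K) := by
  obtain ⟨k, hk, hf, rfl⟩ := hX.mem_D.mp h
  refine hX.mem_D.mpr ⟨g • k, Set.smul_mem_smul_set hk, ?_, hX.smul_wall g k⟩
  show flip st (g • k) (g • v.1.s) ∈ V
  rw [← hX.smul_flip]
  exact hX.V_smul _ _ hf

/-- The translate of a flag. -/
private noncomputable def HInv_G (hX : CubAct Γ st V) (g : Γ) (x : (hX.dat K col hcol).Fl) :
    (hX.dat K col' hcol').Fl :=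
  ⟨((⟨g • x.v.1, hX.V_smul g _ x.v.2⟩ : hX.VT K), g • x.σ), by
    refine ⟨?_, HInv_cl hX g x.2.2⟩
    intro s hs
    obtain ⟨s', hs', rfl⟩ := Finset.mem_smul_finset.mp hs
    exact HInv_D hX g (x.2.1 hs')⟩

omit [LinearOrder H] in
private theorem HInv_Gσ (hX : CubAct Γ st V) (g : Γ) (x : (hX.dat K col hcol).Fl) :
    (HInv_G (hcol' := hcol') hX g x).σ = g • x.σ := rfl

omit [LinearOrder H] in
private theorem HInv_Gv (hX : CubAct Γ st V) (g : Γ) (x : (hX.dat K col hcol).Fl) :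
    (HInv_G (hcol' := hcol') hX g x).v.1.s = g • x.v.1.s := rfl

omit [LinearOrder H] [DecidableEq (Cb H)] in
private theorem HInv_mem_hsU {σ : Finset (Cb H)} {k : H} : k ∈ hsU σ ↔ ∃ s ∈ σ, k ∈ s.s := by
  unfold hsU
  simp only [Set.mem_iUnion, exists_prop]

omit [LinearOrder H] in
private theorem HInv_hsU (g : Γ) (σ : Finset (Cb H)) : hsU (g • σ) = g • hsU σ := by
  ext k
  rw [Set.mem_smul_set_iff_inv_smul_mem, HInv_mem_hsU, HInv_mem_hsU]
  constructor
  · rintro ⟨s, hs, hk⟩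
    obtain ⟨t, ht, rfl⟩ := Finset.mem_smul_finset.mp hs
    have hk' : k ∈ g • t.s := hk
    exact ⟨t, ht, Set.mem_smul_set_iff_inv_smul_mem.mp hk'⟩
  · rintro ⟨s, hs, hk⟩
    exact ⟨g • s, Finset.smul_mem_smul_finset hs, Set.mem_smul_set_iff_inv_smul_mem.mpr hk⟩

omit [LinearOrder H] in
private theorem HInv_cell (hX : CubAct Γ st V) (g : Γ) (x : (hX.dat K col hcol).Fl) :
    hX.cell (HInv_G (hcol' := hcol') hX g x) = hX.gc g (hX.cell x) := by
  refine Subtype.ext (Cb.ext ?_)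
  show (g • x.v.1.s) \ hsU (g • x.σ) = g • (x.v.1.s \ hsU x.σ)
  rw [HInv_hsU, Set.smul_set_sdiff]

omit [LinearOrder H] [DecidableEq (Cb H)] in
private theorem HInv_gc_inj (hX : CubAct Γ st V) (g : Γ)
    {c d : {c : Cb H // c ∈ Cub st Set.univ V}} (h : hX.gc g c = hX.gc g d) : c = d := by
  have h1 : g • c.1 = g • d.1 := congrArg Subtype.val h
  exact Subtype.ext (smul_left_cancel g h1)

omit [LinearOrder H] in
private theorem HInv_mv (hX : CubAct Γ st V) (g : Γ) (x : (hX.dat K col hcol).Fl) {s : Cb H}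
    (hs : s ∈ x.σ) : HInv_G (hcol' := hcol') hX g ((hX.dat K col hcol).mv s x) =
      (hX.dat K col' hcol').mv (g • s) (HInv_G hX g x) := by
  have h1 : g • s ∈ (HInv_G (hcol' := hcol') hX g x).σ := Finset.smul_mem_smul_finset hs
  refine Dat.Fl.ext (Subtype.ext (Cb.ext ?_)) ?_
  · rw [HInv_Gv, hX.mv_val x hs, hX.mv_val _ h1, HInv_Gv]
    exact (symm_smul g _ _).symm
  · rw [HInv_Gσ, Dat.mv_σ, Dat.mv_σ, HInv_Gσ]

omit [LinearOrder H] in
private theorem HInv_exs (hX : CubAct Γ st V) (g : Γ) (x : (hX.dat K col hcol).Fl) {t : Cb H}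
    (ht : t ∈ (hX.dat K col hcol).exs x) :
    g • t ∈ (hX.dat K col' hcol').exs (HInv_G hX g x) := by
  obtain ⟨h1, h2, h3⟩ := Dat.mem_exs.mp ht
  refine Dat.mem_exs.mpr ⟨HInv_D hX g h1, ?_, ?_⟩
  · rw [HInv_Gσ, Finset.smul_mem_smul_finset_iff]
    exact h2
  · rw [HInv_Gσ, ← Finset.smul_finset_insert]
    exact HInv_cl hX g h3

omit [LinearOrder H] in
private theorem HInv_exs' (hX : CubAct Γ st V) (g : Γ) (x : (hX.dat K col hcol).Fl) {t : Cb H}
    (ht : t ∈ (hX.dat K col' hcol').exs (HInv_G hX g x)) :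
    g⁻¹ • t ∈ (hX.dat K col hcol).exs x := by
  have h1 := HInv_exs (hcol := hcol') (hcol' := hcol) hX g⁻¹ (HInv_G hX g x) ht
  have h2 : HInv_G (hcol' := hcol) hX g⁻¹ (HInv_G (hcol' := hcol') hX g x) = x := by
    refine Dat.Fl.ext (Subtype.ext (Cb.ext ?_)) ?_
    · rw [HInv_Gv, HInv_Gv, inv_smul_smul]
    · rw [HInv_Gσ, HInv_Gσ, inv_smul_smul]
  rwa [h2] at h1

omit [LinearOrder H] in
private theorem HInv_ins (hX : CubAct Γ st V) (g : Γ) (x : (hX.dat K col hcol).Fl) {t : Cb H}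
    (ht : t ∈ (hX.dat K col hcol).exs x) :
    HInv_G (hcol' := hcol') hX g ((hX.dat K col hcol).ins t x) =
      (hX.dat K col' hcol').ins (g • t) (HInv_G hX g x) := by
  refine Dat.Fl.ext (Subtype.ext (Cb.ext ?_)) ?_
  · rw [HInv_Gv, Dat.ins_v, Dat.ins_v, HInv_Gv]
  · rw [HInv_Gσ, Dat.ins_σ _ ht, Dat.ins_σ _ (HInv_exs hX g x ht), HInv_Gσ,
      Finset.smul_finset_insert]

omit [LinearOrder H] in
private theorem HInv_sg (hX : CubAct Γ st V) (g : Γ) (hc : ∀ s, col' (g • s) = col s)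
    (x : (hX.dat K col hcol).Fl) (t : Cb H) :
    (hX.dat K col' hcol').sg (HInv_G hX g x) (g • t) = (hX.dat K col hcol).sg x t := by
  unfold Dat.sg
  congr 1
  have h : ((HInv_G (hcol' := hcol') hX g x).σ.filter fun s =>
      (hX.dat K col' hcol').col s < (hX.dat K col' hcol').col (g • t)) =
      (x.σ.filter fun s => (hX.dat K col hcol).col s < (hX.dat K col hcol).col t).image
        (g • ·) := by
    ext s
    rw [Finset.mem_filter, Finset.mem_image, HInv_Gσ]
    constructor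
    · rintro ⟨h1, h2⟩
      obtain ⟨s', hs', rfl⟩ := Finset.mem_smul_finset.mp h1
      have h3 : col' (g • s') < col' (g • t) := h2
      rw [hc, hc] at h3
      exact ⟨s', Finset.mem_filter.mpr ⟨hs', h3⟩, rfl⟩
    · rintro ⟨s', h1, rfl⟩
      rw [Finset.mem_filter] at h1
      refine ⟨Finset.smul_mem_smul_finset h1.1, ?_⟩
      show col' (g • s') < col' (g • t)
      rw [hc, hc]
      exact h1.2
  rw [h, Finset.card_image_of_injective _ (MulAction.injective g)]

omit [DecidableEq (Cb H)] in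
private theorem HInv_sq (hX : CubAct Γ st V) (x : (hX.dat K col hcol).Fl) :
    hX.eps x * hX.eps x = 1 := by
  rcases hX.eps_pm x with h | h <;> rw [h] <;> norm_num

/-- The sign of the translation. -/
private noncomputable def HInv_T (hX : CubAct Γ st V) (hcol' : ∀ g ∈ K, ∀ s, col' (g • s) = col' s)
    (g : Γ) (x : (hX.dat K col hcol).Fl) : ℝ :=
  hX.eps x * hX.eps (HInv_G (hcol' := hcol') hX g x)

private theorem HInv_T_mv (hX : CubAct Γ st V) (g : Γ) (x : (hX.dat K col hcol).Fl) {s : Cb H}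
    (hs : s ∈ x.σ) :
    HInv_T hX hcol' g ((hX.dat K col hcol).mv s x) = HInv_T hX hcol' g x := by
  have h1 : g • s ∈ (HInv_G (hcol' := hcol') hX g x).σ := Finset.smul_mem_smul_finset hs
  unfold HInv_T
  rw [HInv_mv hX g x hs, hX.fl_mv_ε x s hs, hX.fl_mv_ε _ _ h1]
  ring

private theorem HInv_T_cell (hX : CubAct Γ st V) (g : Γ) {x y : (hX.dat K col hcol).Fl}
    (h : hX.cell x = hX.cell y) : HInv_T hX hcol' g x = HInv_T hX hcol' g y := by
  have h1 := hX.fl_conn x y h
  clear h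
  induction h1 with
  | refl => rfl
  | tail _ h2 ih =>
    obtain ⟨s, hs, rfl⟩ := h2
    rw [ih, HInv_T_mv hX g _ hs]

private theorem HInv_T_pm (hX : CubAct Γ st V) (g : Γ) (x : (hX.dat K col hcol).Fl) :
    HInv_T hX hcol' g x = 1 ∨ HInv_T hX hcol' g x = -1 := by
  unfold HInv_T
  rcases hX.eps_pm x with h | h <;>
    rcases hX.eps_pm (HInv_G (hcol' := hcol') hX g x) with h2 | h2 <;> rw [h, h2] <;> norm_num

private theorem HInv_eps (hX : CubAct Γ st V) (g : Γ) (x : (hX.dat K col hcol).Fl) :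
    hX.eps (HInv_G (hcol' := hcol') hX g x) = HInv_T hX hcol' g x * hX.eps x := by
  unfold HInv_T
  rw [mul_comm (hX.eps x), mul_assoc, HInv_sq, mul_one]

end aux

omit [LinearOrder H] in
private theorem HInv_bot (col : Cb H → ℕ) :
    ∀ g ∈ (⊥ : Subgroup Γ), ∀ s, col (g • s) = col s := by
  intro g hg s
  rw [Subgroup.mem_bot.mp hg, one_smul]

theorem CubAct.dim_gc (hX : CubAct Γ st V) (g : Γ) (c : {c : Cb H // c ∈ Cub st Set.univ V}) :
    (cubCx st V).dim (hX.gc g c) = (cubCx st V).dim c := by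
  classical
  obtain ⟨col, h1⟩ : ∃ col : Cb H → ℕ, ∀ k ∈ (⊥ : Subgroup Γ), ∀ s, col (k • s) = col s :=
    ⟨fun _ => 0, fun _ _ _ => rfl⟩
  obtain ⟨x, rfl⟩ := hX.cell_surj (K := ⊥) (col := col) (hcol := h1) c
  rw [← HInv_cell (hcol' := h1) hX g x, hX.fl_dim]
  refine Eq.trans ?_ (hX.fl_dim x).symm
  rw [HInv_Gσ, Finset.card_smul_finset]

theorem CubAct.inc_gc (hX : CubAct Γ st V) {col : Cb H → ℕ}
    (hne : ∀ s t, CrL st V s t → col s ≠ col t) (g : Γ) :
    ∃ t : {c : Cb H // c ∈ Cub st Set.univ V} → ℤ, (∀ c, t c = 1 ∨ t c = -1) ∧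
      ∀ p q, (cubCx st V).inc (hX.gc g p) (hX.gc g q) = t p * t q * (cubCx st V).inc p q := by
  classical
  have h1 : ∀ k ∈ (⊥ : Subgroup Γ), ∀ s, col (k • s) = col s := HInv_bot col
  obtain ⟨col', hc, hne2⟩ : ∃ col' : Cb H → ℕ, (∀ s, col' (g • s) = col s) ∧
      ∀ s t, CrL st V s t → col' s ≠ col' t := by
    refine ⟨fun s => col (g⁻¹ • s), fun s => ?_, fun s t h => hne _ _ (hX.crL_smul g⁻¹ h)⟩
    show col (g⁻¹ • g • s) = col s
    rw [inv_smul_smul]
  have h2 : ∀ k ∈ (⊥ : Subgroup Γ), ∀ s, col' (k • s) = col' s := HInv_bot col'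
  have hsj : ∀ c : {c : Cb H // c ∈ Cub st Set.univ V},
      ∃ x : (hX.dat ⊥ col h1).Fl, hX.cell x = c := hX.cell_surj
  choose X hXc using hsj
  have hTc : ∀ x : (hX.dat ⊥ col h1).Fl, HInv_T hX h2 g (X (hX.cell x)) = HInv_T hX h2 g x :=
    fun x => HInv_T_cell hX g (hXc _)
  have hTZ : ∀ c, (((if HInv_T hX h2 g (X c) = 1 then 1 else -1 : ℤ) : ℤ) : ℝ) =
      HInv_T hX h2 g (X c) := by
    intro c
    rcases HInv_T_pm (hcol' := h2) hX g (X c) with h | h
    · rw [if_pos h, h]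
      norm_num
    · rw [if_neg, h]
      · norm_num
      · rw [h]
        norm_num
  refine ⟨fun c => if HInv_T hX h2 g (X c) = 1 then 1 else -1, ?_, ?_⟩
  · intro c
    beta_reduce
    split_ifs
    · exact Or.inl rfl
    · exact Or.inr rfl
  · intro p q
    have key : (((cubCx st V).inc (hX.gc g p) (hX.gc g q) : ℤ) : ℝ) =
        HInv_T hX h2 g (X p) * HInv_T hX h2 g (X q) * ((cubCx st V).inc p q : ℤ) := by
      obtain ⟨x, rfl⟩ := (⟨X p, hXc p⟩ : ∃ x : (hX.dat ⊥ col h1).Fl, hX.cell x = p)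
      have e1 : hX.gc g (hX.cell x) = hX.cell (HInv_G (hcol' := h2) hX g x) :=
        (HInv_cell hX g x).symm
      have e2 := hX.fl_inc hne2 (HInv_G (hcol' := h2) hX g x) (hX.gc g q)
      have e3 := hX.fl_inc hne x q
      have e4 : (((cubCx st V).inc (hX.gc g (hX.cell x)) (hX.gc g q) : ℤ) : ℝ) =
          ∑ t ∈ (hX.dat ⊥ col h1).exs x,
            if hX.cell ((hX.dat ⊥ col' h2).ins (g • t)
                (HInv_G (hcol' := h2) hX g x)) = hX.gc g q then
              (hX.dat ⊥ col' h2).sg (HInv_G hX g x) (g • t) *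
                (hX.eps (HInv_G (hcol' := h2) hX g x) *
                  hX.eps ((hX.dat ⊥ col' h2).ins (g • t)
                    (HInv_G (hcol' := h2) hX g x))) else 0 := by
        rw [e1, e2]
        symm
        refine Finset.sum_bij (fun t _ => g • t) (fun t ht => HInv_exs hX g x ht)
          (fun a _ b _ hab => smul_left_cancel g hab) (fun b hb =>
            ⟨g⁻¹ • b, HInv_exs' hX g x hb, smul_inv_smul g b⟩) (fun _ _ => rfl)
      rw [hTc x, e4, e3, Finset.mul_sum]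
      refine Finset.sum_congr rfl fun t ht => ?_
      rw [← HInv_ins hX g x ht, HInv_sg hX g hc, HInv_cell]
      by_cases h : hX.cell ((hX.dat ⊥ col h1).ins t x) = q
      · have h5 : @Eq (hX.CT ⊥) (hX.gc g (hX.cell ((hX.dat ⊥ col h1).ins t x)))
            (hX.gc g q) := congrArg (hX.gc g) h
        rw [if_pos h5, if_pos h, HInv_eps, HInv_eps, ← h, hTc]
        ring
      · have h5 : ¬ @Eq (hX.CT ⊥) (hX.gc g (hX.cell ((hX.dat ⊥ col h1).ins t x)))
            (hX.gc g q) := fun h' => h (HInv_gc_inj hX g h')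
        rw [if_neg h5, if_neg h, mul_zero]
    have key2 := key
    rw [← hTZ p, ← hTZ q] at key2
    exact_mod_cast key2

theorem CubAct.locDim_gc (hX : CubAct Γ st V) {col : Cb H → ℕ}
    (hne : ∀ s t, CrL st V s t → col s ≠ col t) (g : Γ)
    (c : {c : Cb H // c ∈ Cub st Set.univ V}) :
    locDim (cubCx st V) (hX.gc g c) = locDim (cubCx st V) c := by
  obtain ⟨t, ht1, ht2⟩ := hX.inc_gc hne g
  let e : {c : Cb H // c ∈ Cub st Set.univ V} ≃ {c : Cb H // c ∈ Cub st Set.univ V} :=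
    { toFun := hX.gc g
      invFun := hX.gc g⁻¹
      left_inv := fun c => Subtype.ext (inv_smul_smul g c.1)
      right_inv := fun c => Subtype.ext (smul_inv_smul g c.1) }
  exact locDim_twist (cubCx st V) (cubCx st V) e t ht1 ht2 c

end SingerLG
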