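import Mathlib
import Pool.Agent.Lib_MP_394d50_lg.HInv
import Pool.Agent.Lib_MP_394d50_lg.HAx2
import Pool.Agent.Lib_MP_394d50_vs.LIdx

/-!
# Piece H10: from the subgroup `K` of finite index to `Γ`

`SingerVS.sum_orb_index` for the action of `Γ` on `C = {c : Cb H // c ∈ Cub st Set.univ V}` (`gc`) resp. on the vertices (an explicit `letI : MulAction Γ _`; its restriction to `K` (the action of a subgroup) is
definitionally the action `hX.instCT K` resp. `hX.instVT K`).
`sum_sub`: for a `Γ`-invariant function `φ` on the invariant subset `Q` of `Cb H`: `∑ᶠ o : Orb Γ (Cb H), if h : o.out ∈ Q then φ ⟨o.out, h⟩ else 0` is the sum over the orbits of `Γ` on the subtype `Q`: the map of the orbits of the subtype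
to the orbits of `Cb H` is injective with image the orbits in `Q` (as in `Lib_MP_394d50_vs/LFinal.lean` or `LMain.lean` for `bettiX`; `finsum_mem_range`, `finsum_eq_of_bijective`, `Function.Injective.finsum...`).
`orb_fin`: finitely many orbits of cubes: `hX.fin`. Invariance: `dim_gc`, `locDim_gc`.
-/

namespace SingerLG

open SingerVS SingerCub
open scoped Pointwise

variable {H Γ : Type} [Group Γ] [MulAction Γ H] {st : H → H} {V : Set (Set H)} [LinearOrder H]

open scoped Classical in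
omit [LinearOrder H] in
/-- The orbits in the invariant set `Q` and the orbits of the elements of `Q`. -/
private theorem HIdx_bridge {G P : Type} [Group G] [MulAction G P] {Q : Set P}
    (hinv : ∀ g : G, ∀ c ∈ Q, g • c ∈ Q) [iA : MulAction G {c : P // c ∈ Q}]
    (hA : ∀ (g : G) (c : {c : P // c ∈ Q}), (g • c).1 = g • c.1)
    (φ : {c : P // c ∈ Q} → ℝ)
    (hφ : ∀ (g : G) (c : {c : P // c ∈ Q}), φ (g • c) = φ c) :
    ∑ᶠ o : MulAction.orbitRel.Quotient G P, (if h : o.out ∈ Q then φ ⟨o.out, h⟩ else 0) =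
    ∑ᶠ o : Orb G {c : P // c ∈ Q}, φ (Quotient.out o) := by
  let e : Orb G {c : P // c ∈ Q} → MulAction.orbitRel.Quotient G P :=
    fun o => Quotient.mk (MulAction.orbitRel G P) o.out.1
  have hrel : ∀ (o : MulAction.orbitRel.Quotient G P) (c : P),
      Quotient.mk (MulAction.orbitRel G P) c = o → ∃ g : G, g • c = o.out := by
    intro o c h
    subst h
    have h1 := Quotient.mk_out (s := MulAction.orbitRel G P) c
    obtain ⟨g, hg⟩ := MulAction.orbitRel_apply.mp h1
    exact ⟨g, hg⟩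
  have hinj : Function.Injective e := by
    intro o o' h
    have h1 : (MulAction.orbitRel G P) o.out.1 o'.out.1 := Quotient.exact h
    obtain ⟨g, hg⟩ := MulAction.orbitRel_apply.mp h1
    have hg' : g • o'.out.1 = o.out.1 := hg
    rw [← Quotient.out_eq o, ← Quotient.out_eq o']
    refine Quotient.sound (MulAction.orbitRel_apply.mpr ⟨g, Subtype.ext ?_⟩)
    show (g • o'.out).1 = o.out.1
    rw [hA, hg']
  have hrange : ∀ o : MulAction.orbitRel.Quotient G P, o.out ∈ Q → ∃ o', e o' = o := by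
    intro o ho
    refine ⟨Quotient.mk (MulAction.orbitRel G {c : P // c ∈ Q}) ⟨o.out, ho⟩, ?_⟩
    have h1 := Quotient.mk_out (s := MulAction.orbitRel G {c : P // c ∈ Q}) ⟨o.out, ho⟩
    obtain ⟨g, hg⟩ := MulAction.orbitRel_apply.mp h1
    have e1 : Quotient.mk (MulAction.orbitRel G P) o.out = o := Quotient.out_eq o
    conv_rhs => rw [← e1]
    refine Quotient.sound (MulAction.orbitRel_apply.mpr ⟨g, ?_⟩)
    have h2 := congrArg Subtype.val hg
    exact (hA g ⟨o.out, ho⟩).symm.trans h2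
  have hval : ∀ o, (if h : (e o).out ∈ Q then φ ⟨(e o).out, h⟩ else 0) = φ (Quotient.out o) := by
    intro o
    obtain ⟨g, hg⟩ := hrel (e o) o.out.1 rfl
    have hX : (e o).out ∈ Q := hg ▸ hinv g _ o.out.2
    rw [dif_pos hX, ← hφ g o.out]
    congr 1
    exact Subtype.ext (hg.symm.trans (hA g o.out).symm)
  rw [← finsum_congr hval, ← finsum_mem_range hinj (f := fun o =>
    (if h : Quotient.out o ∈ Q then φ ⟨Quotient.out o, h⟩ else 0)), finsum_mem_def]
  refine finsum_congr fun o => ?_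
  by_cases ho : o ∈ Set.range e
  · rw [Set.indicator_of_mem ho]
  · rw [Set.indicator_of_notMem ho, dif_neg]
    intro h
    exact ho (hrange o h)

open scoped Classical in
omit [LinearOrder H] in
/-- The sum over the orbits of the subgroup `K` of finite index on the invariant set `Q`. -/
private theorem HIdx_sum {G P : Type} [Group G] [MulAction G P] {Q : Set P}
    (hinv : ∀ g : G, ∀ c ∈ Q, g • c ∈ Q) (hfree : ∀ (g : G), ∀ c ∈ Q, g • c = c → g = 1)
    (hfin : ∃ R : Finset P, ∀ c ∈ Q, ∃ (g : G), ∃ r ∈ R, c = g • r)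
    (K : Subgroup G) [K.FiniteIndex] (iK : MulAction K {c : P // c ∈ Q})
    (hK : ∀ (g : K) (c : {c : P // c ∈ Q}), (g • c).1 = (g : G) • c.1)
    (φ : {c : P // c ∈ Q} → ℝ)
    (hφ : ∀ (g : G) (c : {c : P // c ∈ Q}), φ ⟨g • c.1, hinv g c.1 c.2⟩ = φ c) :
    ∑ᶠ o : Orb K {c : P // c ∈ Q}, φ (Quotient.out o) = K.index *
      ∑ᶠ o : MulAction.orbitRel.Quotient G P, (if h : o.out ∈ Q then φ ⟨o.out, h⟩ else 0) := by
  let iA : MulAction G {c : P // c ∈ Q} :=
    { smul := fun g c => ⟨g • c.1, hinv g c.1 c.2⟩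
      one_smul := fun c => Subtype.ext (one_smul G c.1)
      mul_smul := fun g h c => Subtype.ext (mul_smul g h c.1) }
  have hA : ∀ (g : G) (c : {c : P // c ∈ Q}), (g • c).1 = g • c.1 := fun _ _ => rfl
  have hφ' : ∀ (g : G) (c : {c : P // c ∈ Q}), φ (g • c) = φ c := hφ
  have hfr : ∀ (g : G) (c : {c : P // c ∈ Q}), g • c = c → g = 1 := by
    intro g c h
    exact hfree g c.1 c.2 (congrArg Subtype.val h)
  obtain ⟨R, hR⟩ := hfin
  have hR' : ∀ o : Orb G {c : P // c ∈ Q}, ∃ r : R, ∃ g : G, o.out.1 = g • r.1 := by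
    intro o
    obtain ⟨g, r, hr, e⟩ := hR o.out.1 o.out.2
    exact ⟨⟨r, hr⟩, g, e⟩
  choose f g hg using hR'
  have hfi : Finite (Orb G {c : P // c ∈ Q}) := by
    refine Finite.of_injective f ?_
    intro o o' e
    have h1 := hg o
    have h2 := hg o'
    rw [← e] at h2
    rw [← Quotient.out_eq o, ← Quotient.out_eq o']
    refine Quotient.sound (MulAction.orbitRel_apply.mpr ⟨g o * (g o')⁻¹, ?_⟩)
    apply Subtype.ext
    show (g o * (g o')⁻¹) • o'.out.1 = o.out.1
    rw [h2, h1, mul_smul, inv_smul_smul]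
  have h5 := (sum_orb_index K hfr hfi φ hφ').2
  rw [HIdx_bridge hinv hA φ hφ', ← h5]
  have e1 : iK = Subgroup.instMulAction := by
    refine MulAction.ext ?_
    funext g c
    exact Subtype.ext (hK g c)
  subst e1
  rfl

open scoped Classical in
theorem CubAct.betti_index (hX : CubAct Γ st V) (K : Subgroup Γ) [K.FiniteIndex]
    {col : Cb H → ℕ} (hne : ∀ s t, CrL st V s t → col s ≠ col t) (k : ℕ) :
    SingerVS.l2Betti (C := hX.CT K) K (cubCx st V) k = K.index * bettiC Γ st V k := by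
  have h1 := HIdx_sum (Q := Cub st Set.univ V) (fun g c hc => hX.cub_smul g hc) hX.free hX.fin K
    (hX.instCT K) (fun _ _ => rfl)
    (fun c => if (cubCx st V).dim c = k then locDim (cubCx st V) c else 0) (fun g c => by
      show (if (cubCx st V).dim (hX.gc g c) = k then locDim (cubCx st V) (hX.gc g c) else 0) = _
      rw [hX.dim_gc, hX.locDim_gc hne])
  exact h1

open scoped Classical in
theorem CubAct.chi_index (hX : CubAct Γ st V) (K : Subgroup Γ) [K.FiniteIndex] :
    (SingerVS.chi (C := hX.CT K) K (cubCx st V) : ℝ) = K.index * (chiC Γ st V : ℝ) := by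
  have h1 := HIdx_sum (Q := Cub st Set.univ V) (fun g c hc => hX.cub_smul g hc) hX.free hX.fin K
    (hX.instCT K) (fun _ _ => rfl)
    (fun c => (-1 : ℝ) ^ (cubCx st V).dim c) (fun g c => by
      show (-1 : ℝ) ^ (cubCx st V).dim (hX.gc g c) = _
      rw [hX.dim_gc])
  unfold SingerVS.chi chiC
  have e1 := (Int.castAddHom ℝ).map_finsum_of_injective Int.cast_injective
    (fun o : Orb K (hX.CT K) => (-1 : ℤ) ^ (cubCx st V).dim (Quotient.out o))
  have e2 := (Int.castAddHom ℝ).map_finsum_of_injective Int.cast_injective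
    (fun o : MulAction.orbitRel.Quotient Γ (Cb H) =>
      if h : o.out ∈ Cub st Set.univ V then (-1 : ℤ) ^ (cubCx st V).dim ⟨o.out, h⟩ else 0)
  refine e1.trans (Eq.trans ?_ (h1.trans ?_))
  · refine finsum_congr fun o => ?_
    show (((-1 : ℤ) ^ (cubCx st V).dim (Quotient.out o) : ℤ) : ℝ) = _
    rw [Int.cast_pow, Int.cast_neg, Int.cast_one]
    rfl
  · refine congrArg (fun x : ℝ => (K.index : ℝ) * x) (Eq.trans ?_ e2.symm)
    refine finsum_congr fun o => ?_
    by_cases h : o.out ∈ Cub st Set.univ V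
    · rw [dif_pos h, dif_pos h]
      show _ = (((-1 : ℤ) ^ (cubCx st V).dim ⟨o.out, h⟩ : ℤ) : ℝ)
      rw [Int.cast_pow, Int.cast_neg, Int.cast_one]
    · rw [dif_neg h, dif_neg h]
      exact (Int.cast_zero (R := ℝ)).symm

open scoped Classical in
omit [LinearOrder H] in
theorem CubAct.osum_index (hX : CubAct Γ st V) (K : Subgroup Γ) [K.FiniteIndex]
    (f : Set H → ℝ) (hf : ∀ (g : Γ), ∀ v ∈ V, f (g • v) = f v) :
    osum K (fun v : hX.VT K => f v.1.s) =
      K.index * ∑ᶠ o : MulAction.orbitRel.Quotient Γ (Cb H), if o.out.s ∈ V then f o.out.s else 0 := by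
  have hfin : ∃ R : Finset (Cb H), ∀ c ∈ {v : Cb H | v.s ∈ V}, ∃ (g : Γ), ∃ r ∈ R, c = g • r := by
    obtain ⟨R, hR⟩ := hX.fin
    exact ⟨R, fun c hc => hR c (hX.vert_mem hc)⟩
  have h1 := HIdx_sum (Q := {v : Cb H | v.s ∈ V}) (fun g c hc => hX.V_smul g c.s hc)
    (fun g c hc h => hX.free g c (hX.vert_mem hc) h) hfin K
    (hX.instVT K) (fun _ _ => rfl) (fun v => f v.1.s) (fun g c => hf g c.1.s c.2)
  exact h1

end SingerLG
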