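import Mathlib
import Pool.Agent.Lib_MP_394d50_lg.DMain
import Pool.Agent.Lib_MP_394d50_lg.FLast

/-!
# Piece L1: the `ℓ²`-Betti numbers of the right-angled Coxeter groups are invariants of the graph (not of the order of the vertices)

`l2Betti_wz` for `L` with an injective `f : α → ℕ` (`Fintype.equivFin`) and for `L'` with `f' = f ∘ e.symm`, `wz_iso`; the numbers of cliques with `k + 1` elements agree (`Finset.card_bij` with `Finset.map`/`Finset.image` under `e`), and
`Fintype.card α = Fintype.card β`. Multiply by `2 ^ Fintype.card α`.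
`lkg_iso`: `wz (A.lkg v)` and the number of cliques of `A.lkg v` in terms of any graph `L` isomorphic to `A.lkg v`: `wl_eq`, `cN_eq`: `A.cubes v` are the subsets of `D v` which are cliques, i.e. the cliques of `A.lkg v` (`cr` is symmetric), mapped to `L`.
-/

namespace SingerLG

open SingerVS SingerCub
open scoped Pointwise

open scoped Classical in
private theorem LIso_clq {α β : Type} [Fintype α] [Fintype β] {L : SimpleGraph α}
    {L' : SimpleGraph β} (e : L ≃g L') (k : ℕ) :
    (Finset.univ.filter fun σ : Finset α => L.IsClique (σ : Set α) ∧ σ.card = k).card =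
      (Finset.univ.filter fun σ : Finset β => L'.IsClique (σ : Set β) ∧ σ.card = k).card := by
  refine Finset.card_bij (fun σ _ => σ.map e.toEquiv.toEmbedding) ?_ ?_ ?_
  · intro σ hσ
    obtain ⟨_, h1, h2⟩ := Finset.mem_filter.mp hσ
    refine Finset.mem_filter.mpr ⟨Finset.mem_univ _, ?_, ?_⟩
    · intro s hs t ht hst
      obtain ⟨s', hs', rfl⟩ := Finset.mem_map.mp (Finset.mem_coe.mp hs)
      obtain ⟨t', ht', rfl⟩ := Finset.mem_map.mp (Finset.mem_coe.mp ht)
      exact e.map_adj_iff.mpr (h1 (Finset.mem_coe.mpr hs') (Finset.mem_coe.mpr ht')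
        fun h => hst (by rw [h]))
    · rw [Finset.card_map]
      exact h2
  · intro σ _ τ _ h
    exact Finset.map_injective _ h
  · intro τ hτ
    obtain ⟨_, h1, h2⟩ := Finset.mem_filter.mp hτ
    have h3 : (τ.map e.symm.toEquiv.toEmbedding).map e.toEquiv.toEmbedding = τ := by
      ext b
      constructor
      · intro hb
        obtain ⟨a, ha, rfl⟩ := Finset.mem_map.mp hb
        obtain ⟨b', hb', rfl⟩ := Finset.mem_map.mp ha
        have h4 : e.toEquiv.toEmbedding (e.symm.toEquiv.toEmbedding b') = b' :=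
          e.apply_symm_apply b'
        rw [h4]
        exact hb'
      · intro hb
        exact Finset.mem_map.mpr ⟨e.symm b, Finset.mem_map.mpr ⟨b, hb, rfl⟩, e.apply_symm_apply b⟩
    refine ⟨τ.map e.symm.toEquiv.toEmbedding, ?_, h3⟩
    refine Finset.mem_filter.mpr ⟨Finset.mem_univ _, ?_, ?_⟩
    · intro s hs t ht hst
      obtain ⟨s', hs', rfl⟩ := Finset.mem_map.mp (Finset.mem_coe.mp hs)
      obtain ⟨t', ht', rfl⟩ := Finset.mem_map.mp (Finset.mem_coe.mp ht)
      exact e.symm.map_adj_iff.mpr (h1 (Finset.mem_coe.mpr hs') (Finset.mem_coe.mpr ht')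
        fun h => hst (by rw [h]))
    · rw [Finset.card_map]
      exact h2

private theorem LIso_div {a b c : ℝ} {n m : ℕ} (h : a / 2 ^ n = c) (h' : b / 2 ^ m = c)
    (e : n = m) : a = b := by
  subst e
  have h0 : (2 : ℝ) ^ n ≠ 0 := pow_ne_zero _ two_ne_zero
  rw [div_eq_iff h0] at h h'
  rw [h, h']

theorem l2Betti_iso {α β : Type} [Fintype α] [Fintype β] [LinearOrder α] [LinearOrder β]
    {L : SimpleGraph α} {L' : SimpleGraph β} (e : L ≃g L') (k : ℕ) :
    SingerRA.l2Betti L k = SingerRA.l2Betti L' k := by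
  let f : α → ℕ := fun a => (Fintype.equivFin α a : ℕ)
  have hf : Function.Injective f := fun a b h =>
    (Fintype.equivFin α).injective (Fin.ext h)
  have h1 := l2Betti_wz L f (fun s t h h' => h.ne (hf h')) k
  have h2 := l2Betti_wz L' (fun b => f (e.symm b)) (fun s t h h' =>
    h.ne (e.symm.injective (hf h'))) k
  have h3 : ∀ j, wz L' (fun b => f (e.symm b)) j = wz L f j := by
    intro j
    refine wz_iso e f (fun b => f (e.symm b)) (fun s t _ => ?_) j
    show f (e.symm (e s)) < f (e.symm (e t)) ↔ _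
    rw [e.symm_apply_apply, e.symm_apply_apply]
  rw [h3, h3] at h2
  refine LIso_div h1 (h2.trans ?_) (Fintype.card_congr e.toEquiv)
  congr 3
  convert (LIso_clq e (k + 1)).symm

variable {G V S : Type} [Group G] [MulAction G V] [MulAction G S] [DecidableEq S]
  {A : Dat G V S} {Hs : V → S → Set V}

open scoped Classical in
private theorem LIso_cN (hA : Stg A Hs) (v : V) {α : Type} [Fintype α]
    (L : SimpleGraph α) (e : A.lkg v ≃g L) (k : ℕ) :
    (Finset.univ.filter fun σ : Finset α => L.IsClique (σ : Set α) ∧ σ.card = k).card =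
      ((A.cubes v).filter fun σ => σ.card = k).card := by
  let i : α ↪ S := ⟨fun a => (e.symm a).1, fun a b h => e.symm.injective (Subtype.ext h)⟩
  refine Finset.card_bij (fun σ _ => σ.map i) ?_ ?_ ?_
  · intro σ hσ
    obtain ⟨_, h1, h2⟩ := Finset.mem_filter.mp hσ
    refine Finset.mem_filter.mpr ⟨Dat.mem_cubes.mpr ⟨?_, ?_⟩, ?_⟩
    · intro s hs
      obtain ⟨a, _, rfl⟩ := Finset.mem_map.mp hs
      exact (e.symm a).2
    · intro s hs t ht hst
      obtain ⟨s', hs', rfl⟩ := Finset.mem_map.mp hs
      obtain ⟨t', ht', rfl⟩ := Finset.mem_map.mp ht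
      have h3 := e.symm.map_adj_iff.mpr (h1 (Finset.mem_coe.mpr hs') (Finset.mem_coe.mpr ht')
        fun h => hst (by rw [h]))
      rcases h3.2 with h4 | h4
      · exact h4
      · exact hA.cr_symm _ _ h4
    · rw [Finset.card_map]
      exact h2
  · intro σ _ τ _ h
    exact Finset.map_injective _ h
  · intro τ hτ
    obtain ⟨h1, h2⟩ := Finset.mem_filter.mp hτ
    obtain ⟨h3, h4⟩ := Dat.mem_cubes.mp h1
    have h5 : ((Finset.univ : Finset α).filter fun a => (e.symm a).1 ∈ τ).map i = τ := by
      ext s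
      constructor
      · intro hs
        obtain ⟨a, ha, rfl⟩ := Finset.mem_map.mp hs
        exact (Finset.mem_filter.mp ha).2
      · intro hs
        have h6 : (e.symm (e ⟨s, h3 hs⟩)).1 = s := by
          rw [e.symm_apply_apply]
        refine Finset.mem_map.mpr ⟨e ⟨s, h3 hs⟩, Finset.mem_filter.mpr ⟨Finset.mem_univ _, ?_⟩, h6⟩
        rw [h6]
        exact hs
    refine ⟨(Finset.univ : Finset α).filter fun a => (e.symm a).1 ∈ τ, ?_, h5⟩
    refine Finset.mem_filter.mpr ⟨Finset.mem_univ _, ?_, ?_⟩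
    · intro s hs t ht hst
      have hs' := (Finset.mem_filter.mp (Finset.mem_coe.mp hs)).2
      have ht' := (Finset.mem_filter.mp (Finset.mem_coe.mp ht)).2
      have h6 : (e.symm s).1 ≠ (e.symm t).1 := fun h => hst (e.symm.injective (Subtype.ext h))
      have h7 : (A.lkg v).Adj (e.symm s) (e.symm t) :=
        ⟨fun h => h6 (congrArg Subtype.val h), Or.inl (h4 _ hs' _ ht' h6)⟩
      exact e.symm.map_adj_iff.mp h7
    · rw [← Finset.card_map i, h5]
      exact h2

/-- The local form of the comparison: the link of `v` is isomorphic to `L`. -/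
theorem Stg.wl_l2 (hA : Stg A Hs) (v : V) {α : Type} [Fintype α] [LinearOrder α]
    (L : SimpleGraph α) (e : A.lkg v ≃g L) (k : ℕ) :
    A.wl k v + A.wl (k + 1) v - A.cN (k + 1) v = SingerRA.l2Betti L k / 2 ^ Fintype.card α := by
  have hadj : ∀ s t, L.Adj s t → A.col (e.symm s).1 ≠ A.col (e.symm t).1 := by
    intro s t h
    have h1 := e.symm.map_adj_iff.mpr h
    rcases h1.2 with h2 | h2
    · exact hA.cr_col _ _ h2
    · exact (hA.cr_col _ _ h2).symm
  have h1 := l2Betti_wz L (fun a => A.col (e.symm a).1) hadj k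
  have h3 : ∀ j, wz L (fun a => A.col (e.symm a).1) j = A.wl j v := by
    intro j
    refine wz_iso e (fun s => A.col s.1) (fun a => A.col (e.symm a).1) (fun s t _ => ?_) j
    show A.col (e.symm (e s)).1 < A.col (e.symm (e t)).1 ↔ _
    rw [e.symm_apply_apply, e.symm_apply_apply]
  rw [h3, h3] at h1
  rw [h1]
  unfold Dat.cN
  congr 3
  convert (LIso_cN hA v L e (k + 1)).symm

end SingerLG
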