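import Mathlib
import Pool.Agent.Lib_MP_394d50_lg.MStg
import Pool.Agent.Lib_MP_394d50_lg.ADefs

/-!
# Piece O1: the sum over the orbits, region by region

Fix the colour `c`. `A.Rg c` is an equivalence relation (`hA.rg_symm`, `Relation.ReflTransGen.trans`), invariant under `G`
(`Dat.Rg.smul`). Say `v ~ u` iff there is `g : G` with `A.Rg c (g • v) u`: this is an equivalence relation, coarser than
the orbit relation, so it has finitely many classes (`hA.fin`: `Finite (Orb G V)`). Let `B` be a finite set with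
exactly one element of every class (e.g. `Q := Quotient r` is finite, being a surjective image of `Orb G V`, and `B :=` the image of
`Quotient.out` on `Finset.univ : Finset Q`).
For `b` in `B` and `u : A.Vm Hs c b` (a word and a vertex `u.2.1` in the region of `b`, `u.2.2 : A.Rg c b u.2.1`) the action is
`g • u = (g.left * FW.aut g.right u.1, g.right • u.2)` and `(g.right • u.2).1 = (g.right : G) • u.2.1` (`rfl`), so
`(b, [u]) ↦ [u.2.1]` is a well defined map from `Σ b : B, Orb (hA.Gm c b) (A.Vm Hs c b)` to `Orb G V`. It is bijective: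
surjective: for `v : V` let `b` be the representative of its class, `A.Rg c (g • v) b`, then `u := (1, ⟨g • v, _⟩)`.
Injective: if `g • u.2.1 = u'.2.1` for `u` over `b` and `u'` over `b'`, then `A.Rg c (g • b) (g • u.2.1)` and `A.Rg c b' u'.2.1`,
so `b ~ b'`, `b = b'`; then `A.Rg c b (g • b)`, so `g` is in `hA.Gr c b` and the element
`⟨u'.1 * (FW.aut ⟨g, _⟩ u.1)⁻¹, ⟨g, _⟩⟩` of `hA.Gm c b` maps `u` to `u'`.
The value of `f` at `o.out.2.1` is the value at any `u.2.1` with `[u] = o`, and `f` at the representative of the orbit of `u.2.1`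
is the same (`hf`). `osum` is a `finsum` over a finite type (`finsum_eq_sum_of_fintype`, `finsum_comp`, `Fintype.sum_sigma`;
finiteness: `hA.fin` and `(hA.mir_stg c b).fin`, or `hA.mir_fin c b`). See `ATr_bij` in `ATr.lean` for a similar
argument.
-/

namespace SingerLG

open SingerVS SingerCub
open scoped Pointwise

variable {G V S : Type} [Group G] [MulAction G V] [MulAction G S]
  {A : Dat G V S} {Hs : V → S → Set V}

/-- Two vertices are related if a translate of the first is in the region of the second. -/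
private def OBase_r (hA : Stg A Hs) (c : ℕ) : Setoid V where
  r v u := ∃ g : G, A.Rg c (g • v) u
  iseqv := by
    refine ⟨fun v => ⟨1, ?_⟩, ?_, ?_⟩
    · rw [one_smul]
      exact Relation.ReflTransGen.refl
    · rintro v u ⟨g, h⟩
      refine ⟨g⁻¹, ?_⟩
      have h1 := Dat.Rg.smul h g⁻¹
      rw [inv_smul_smul] at h1
      exact hA.rg_symm h1
    · rintro v u w ⟨g, h⟩ ⟨g', h'⟩
      refine ⟨g' * g, ?_⟩
      have h1 := Dat.Rg.smul h g'
      rw [← mul_smul] at h1
      exact h1.trans h'

private abbrev OBase_Q (hA : Stg A Hs) (c : ℕ) : Type := Quotient (OBase_r hA c)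

private theorem OBase_fin (hA : Stg A Hs) (c : ℕ) : Finite (OBase_Q hA c) := by
  have := hA.fin
  refine Finite.of_surjective (fun o : Orb G V => (Quotient.mk (OBase_r hA c) o.out)) ?_
  intro q
  obtain ⟨v, rfl⟩ := Quotient.exists_rep q
  obtain ⟨h, o, e⟩ := exists_rep (H := G) v
  refine ⟨o, Quotient.sound ?_⟩
  refine ⟨h, ?_⟩
  rw [e]
  exact Relation.ReflTransGen.refl

private noncomputable def OBase_M (hA : Stg A Hs) (c : ℕ)
    (p : Σ q : OBase_Q hA c, Orb (hA.Gm c q.out) (A.Vm Hs c q.out)) : Orb G V :=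
  Quotient.mk _ p.2.out.2.1

private theorem OBase_bij (hA : Stg A Hs) (c : ℕ) : Function.Bijective (OBase_M hA c) := by
  constructor
  · rintro ⟨q, o⟩ ⟨q', o'⟩ h
    have h1 := Quotient.exact h
    obtain ⟨g, hg⟩ : ∃ g : G, g • o'.out.2.1 = o.out.2.1 := MulAction.orbitRel_apply.mp h1
    have h2 : A.Rg c q'.out o'.out.2.1 := o'.out.2.2
    have h3 : A.Rg c q.out o.out.2.1 := o.out.2.2
    have h4 := Dat.Rg.smul h2 g
    rw [hg] at h4
    have h5 : A.Rg c (g • q'.out) q.out := h4.trans (hA.rg_symm h3)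
    have h6 : q' = q := by
      rw [← Quotient.out_eq q, ← Quotient.out_eq q']
      exact Quotient.sound ⟨g, h5⟩
    subst h6
    have hgm : g ∈ hA.Gr c q'.out := hA.rg_symm h5
    have h7 : o = o' := by
      rw [← Quotient.out_eq o, ← Quotient.out_eq o']
      refine Quotient.sound (MulAction.orbitRel_apply.mpr
        ⟨⟨o.out.1 * (FW.aut (⟨g, hgm⟩ : hA.Gr c q'.out) o'.out.1)⁻¹, ⟨g, hgm⟩⟩, ?_⟩)
      refine Prod.ext ?_ (Subtype.ext hg)
      show o.out.1 * (FW.aut (⟨g, hgm⟩ : hA.Gr c q'.out) o'.out.1)⁻¹ *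
        FW.aut (⟨g, hgm⟩ : hA.Gr c q'.out) o'.out.1 = o.out.1
      rw [inv_mul_cancel_right]
    rw [h7]
  · intro o
    obtain ⟨g, hg⟩ : ∃ g : G, A.Rg c (g • o.out) (Quotient.mk (OBase_r hA c) o.out).out := by
      have h := Quotient.exact (Quotient.out_eq (Quotient.mk (OBase_r hA c) o.out))
      obtain ⟨g, hg⟩ := h
      refine ⟨g⁻¹, ?_⟩
      have h1 := Dat.Rg.smul hg g⁻¹
      rw [inv_smul_smul] at h1
      exact hA.rg_symm h1
    let u : A.Vm Hs c (Quotient.mk (OBase_r hA c) o.out).out := (1, ⟨g • o.out, hA.rg_symm hg⟩)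
    refine ⟨⟨Quotient.mk (OBase_r hA c) o.out, Quotient.mk _ u⟩, ?_⟩
    have h2 : (MulAction.orbitRel _ _) (Quotient.mk (MulAction.orbitRel
        (hA.Gm c (Quotient.mk (OBase_r hA c) o.out).out) _) u).out u := Quotient.mk_out u
    obtain ⟨k, hk⟩ := MulAction.orbitRel_apply.mp h2
    have h3 : (k.right : G) • (g • o.out) = (Quotient.mk (MulAction.orbitRel
        (hA.Gm c (Quotient.mk (OBase_r hA c) o.out).out) _) u).out.2.1 :=
      congrArg (fun x => x.2.1) hk
    conv_rhs => rw [← Quotient.out_eq o]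
    refine Quotient.sound (MulAction.orbitRel_apply.mpr ⟨(k.right : G) * g, ?_⟩)
    show ((k.right : G) * g) • o.out = _
    rw [mul_smul]
    exact h3

theorem Stg.osum_base (hA : Stg A Hs) (c : ℕ) : ∃ B : Finset V, ∀ f : V → ℝ,
    (∀ (g : G) (v : V), f (g • v) = f v) →
      osum G f = ∑ b ∈ B, osum (hA.Gm c b) (fun u : A.Vm Hs c b => f u.2.1) := by
  classical
  have := OBase_fin hA c
  have := hA.fin
  let _ : Fintype (OBase_Q hA c) := Fintype.ofFinite _
  let _ : Fintype (Orb G V) := Fintype.ofFinite _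
  have hfin : ∀ q : OBase_Q hA c, Finite (Orb (hA.Gm c q.out) (A.Vm Hs c q.out)) :=
    fun q => hA.mir_fin c q.out
  let _ : ∀ q : OBase_Q hA c, Fintype (Orb (hA.Gm c q.out) (A.Vm Hs c q.out)) :=
    fun q => Fintype.ofFinite _
  refine ⟨(Finset.univ : Finset (OBase_Q hA c)).image Quotient.out, fun f hf => ?_⟩
  rw [Finset.sum_image (fun x _ y _ h => Quotient.out_injective h)]
  unfold osum
  have h1 : ∀ p : Σ q : OBase_Q hA c, Orb (hA.Gm c q.out) (A.Vm Hs c q.out),
      f (OBase_M hA c p).out = f p.2.out.2.1 := by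
    intro p
    have h2 : (MulAction.orbitRel G V) (OBase_M hA c p).out p.2.out.2.1 :=
      Quotient.exact (Quotient.out_eq (OBase_M hA c p))
    obtain ⟨g, hg⟩ := MulAction.orbitRel_apply.mp h2
    have h3 : g • p.2.out.2.1 = (OBase_M hA c p).out := hg
    rw [← h3, hf]
  rw [← finsum_comp (g := fun o : Orb G V => f o.out) (OBase_M hA c) (OBase_bij hA c),
    finsum_congr h1, finsum_eq_sum_of_fintype, Fintype.sum_sigma]
  refine Finset.sum_congr rfl fun q _ => ?_
  rw [finsum_eq_sum_of_fintype]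

end SingerLG
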