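import Mathlib
import Pool.Agent.Lib_MP_394d50_lg.MStg
import Pool.Agent.Lib_MP_394d50_lg.ADefs
import Pool.Agent.Lib_MP_394d50_lg.AMain
import Pool.Agent.Lib_MP_394d50_lg.OBase
import Pool.Agent.Lib_MP_394d50_lg.FLast

/-!
# Section 5: the inequality for stages

Interface of the pieces O and F (sub-captain helper73).
-/

namespace SingerLG

open SingerVS SingerCub
open scoped Pointwise

variable {G V S : Type} [Group G] [MulAction G V] [MulAction G S] [DecidableEq S]
  {A : Dat G V S} {Hs : V → S → Set V}

/-- One step: mirroring the colour `c`. -/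
theorem Stg.osum_step (hA : Stg A Hs) (c j : ℕ) {B : Finset V}
    (hB : ∀ f : V → ℝ, (∀ (g : G) (v : V), f (g • v) = f v) →
      osum G f = ∑ b ∈ B, osum (hA.Gm c b) (fun u : A.Vm Hs c b => f u.2.1)) :
    osum G (A.dz j) ≤ ∑ b ∈ B, osum (hA.Gm c b) ((hA.mir c b).dz j) := by
  rw [hA.osum_half c j, hB _ (fun g v => Dat.loc_smul (hA.inv_Zc c j) g v),
    hB _ (fun g v => Dat.loc_smul (hA.inv_Fs c j) g v), Finset.mul_sum, ← Finset.sum_sub_distrib]
  exact Finset.sum_le_sum fun b _ => hA.osum_mir c j b

open scoped Classical in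
/-- Induction on the number of the colours which are not mirrored. -/
private theorem OMain_ind (m j : ℕ) : ∀ (n : ℕ) (G V : Type) [Group G] [MulAction G V]
    [MulAction G S] (A : Dat G V S) (Hs : V → S → Set V), Stg A Hs →
    (∀ v, ∀ s ∈ A.D v, A.col s < m) →
    ((Finset.range m).filter fun c => ¬ A.Mir c).card ≤ n → osum G (A.dz j) ≤ osum G (A.wl j) := by
  intro n
  induction n with
  | zero =>
    intro G V _ _ _ A Hs hA hm hn
    have h1 : ∀ c < m, A.Mir c := by
      intro c hc
      by_contra h
      have h2 : c ∈ (Finset.range m).filter fun c => ¬ A.Mir c :=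
        Finset.mem_filter.mpr ⟨Finset.mem_range.mpr hc, h⟩
      have h3 := Finset.card_eq_zero.mp (Nat.le_zero.mp hn)
      rw [h3] at h2
      exact absurd h2 (Finset.notMem_empty _)
    have h2 : A.dz j = A.wl j :=
      funext fun v => hA.last (fun v s hs => h1 (A.col s) (hm v s hs) v s hs rfl) j v
    rw [h2]
  | succ n ih =>
    intro G V _ _ _ A Hs hA hm hn
    by_cases h0 : ((Finset.range m).filter fun c => ¬ A.Mir c).card = 0
    · have h1 : ∀ c < m, A.Mir c := by
        intro c hc
        by_contra h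
        have h2 : c ∈ (Finset.range m).filter fun c => ¬ A.Mir c :=
          Finset.mem_filter.mpr ⟨Finset.mem_range.mpr hc, h⟩
        have h3 := Finset.card_eq_zero.mp h0
        rw [h3] at h2
        exact absurd h2 (Finset.notMem_empty _)
      have h2 : A.dz j = A.wl j :=
        funext fun v => hA.last (fun v s hs => h1 (A.col s) (hm v s hs) v s hs rfl) j v
      rw [h2]
    · obtain ⟨c, hc⟩ := Finset.card_pos.mp (Nat.pos_of_ne_zero h0)
      obtain ⟨hc1, hc2⟩ := Finset.mem_filter.mp hc
      obtain ⟨B, hB⟩ := hA.osum_base c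
      refine (hA.osum_step c j hB).trans ?_
      rw [hB _ (fun g v => A.wl_smul j g v)]
      refine Finset.sum_le_sum fun b _ => ?_
      have h3 := ih (hA.Gm c b) (A.Vm Hs c b) (hA.mir c b) (A.Hm Hs c b) (hA.mir_stg c b)
        (fun v s hs => hm v.2.1 s hs) ?_
      · exact h3
      · have h4 : ((Finset.range m).filter fun d => ¬ (hA.mir c b).Mir d) ⊂
            ((Finset.range m).filter fun d => ¬ A.Mir d) := by
          refine Finset.ssubset_iff_subset_ne.mpr ⟨?_, ?_⟩
          · intro d hd
            obtain ⟨hd1, hd2⟩ := Finset.mem_filter.mp hd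
            exact Finset.mem_filter.mpr ⟨hd1, fun h => hd2 (hA.mir_mir' c b h)⟩
          · intro h
            rw [← h] at hc
            exact (Finset.mem_filter.mp hc).2 (hA.mir_mir c b)
        have h5 := Finset.card_lt_card h4
        omega

theorem Stg.dz_le (hA : Stg A Hs) (m : ℕ) (hm : ∀ v, ∀ s ∈ A.D v, A.col s < m) (j : ℕ) :
    osum G (A.dz j) ≤ osum G (A.wl j) :=
  OMain_ind m j _ G V A Hs hA hm le_rfl

end SingerLG
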