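import Mathlib
import Pool.Agent.Lib_MP_394d50_lg.HCol
import Pool.Agent.Lib_MP_394d50_lg.HAx2
import Pool.Agent.Lib_MP_394d50_lg.HFlC
import Pool.Agent.Lib_MP_394d50_lg.HIdx
import Pool.Agent.Lib_MP_394d50_lg.LIso
import Pool.Agent.Lib_MP_394d50_lg.OMain
import Pool.Agent.Lib_MP_394d50_bary.BSphere
import Pool.Agent.Lib_MP_394d50_all.AFin

/-!
# The local-to-global theorem for CAT(0) cube complexes

The two main theorems.
-/

namespace SingerLG

open SingerVS SingerCub
open scoped Pointwise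

variable {H Γ : Type} [Group Γ] [MulAction Γ H] {st : H → H} {V : Set (Set H)}

/-- The link in the stage is the link of the complex. -/
private theorem hm_iso (hX : CubAct Γ st V) {K : Subgroup Γ} {col : Cb H → ℕ}
    {hcol : ∀ g ∈ K, ∀ s, col (g • s) = col s} (v : hX.VT K) :
    Nonempty ((hX.dat K col hcol).lkg v ≃g lkH st V v.1.s) := by
  let F : Edg st V v.1.s → {s : Cb H // s ∈ (hX.dat K col hcol).D v} := fun h =>
    ⟨wall st h.1, hX.mem_D.mpr ⟨h.1, h.2.1, h.2.2, rfl⟩⟩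
  have hinj : Function.Injective F := by
    intro h k e
    have e1 : wall st h.1 = wall st k.1 := congrArg Subtype.val e
    rcases hX.wall_eq e1 with e2 | e2
    · exact Subtype.ext e2.symm
    · exfalso
      have h1 := k.2.1
      rw [e2, hX.st_mem v.2] at h1
      exact h1 h.2.1
  have hsurj : Function.Surjective F := by
    rintro ⟨s, hs⟩
    obtain ⟨h, hh, hf, rfl⟩ := hX.mem_D.mp hs
    exact ⟨⟨h, hh, hf⟩, rfl⟩
  refine ⟨RelIso.symm ⟨Equiv.ofBijective F ⟨hinj, hsurj⟩, ?_⟩⟩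
  intro h k
  show (F h ≠ F k ∧ (CrL st V (F h).1 (F k).1 ∨ CrL st V (F k).1 (F h).1)) ↔
    (h ≠ k ∧ (v.1.s \ {h.1, k.1}) ∪ {st h.1, st k.1} ∈ V)
  constructor
  · rintro ⟨h1, h2⟩
    have h3 : CrL st V (wall st h.1) (wall st k.1) := h2.elim id fun h3 => h3.symm
    exact ⟨fun e => h1 (by rw [e]), (hX.cr_sq v.2 h.2.1 k.2.1 h.2.2 k.2.2 h3).2⟩
  · rintro ⟨h1, h2⟩
    refine ⟨fun e => h1 (hinj e), Or.inl ?_⟩
    exact ⟨v.1.s, v.2, h.1, h.2.1, k.1, k.2.1, fun e => h1 (Subtype.ext e), rfl, rfl, h.2.2,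
      k.2.2, h2⟩

/-- The links of the translates. -/
private theorem hm_lk (hX : CubAct Γ st V) (g : Γ) {v : Set H} (hv : v ∈ V) :
    Nonempty (lkH st V v ≃g lkH st V (g • v)) := by
  let F : Edg st V v → Edg st V (g • v) := fun h => ⟨g • h.1, Set.smul_mem_smul_set h.2.1, by
    rw [← hX.smul_flip]
    exact hX.V_smul g _ h.2.2⟩
  have hinj : Function.Injective F := by
    intro h k e
    have e1 : g • h.1 = g • k.1 := congrArg Subtype.val e
    exact Subtype.ext (smul_left_cancel g e1)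
  have hsurj : Function.Surjective F := by
    rintro ⟨s, hs, hf⟩
    refine ⟨⟨g⁻¹ • s, Set.mem_smul_set_iff_inv_smul_mem.mp hs, ?_⟩, Subtype.ext (smul_inv_smul g s)⟩
    have h1 := hX.V_smul g⁻¹ _ hf
    rwa [hX.smul_flip, inv_smul_smul] at h1
  refine ⟨⟨Equiv.ofBijective F ⟨hinj, hsurj⟩, ?_⟩⟩
  intro h k
  have e : ((g • v) \ {g • h.1, g • k.1}) ∪ {st (g • h.1), st (g • k.1)} =
      g • ((v \ {h.1, k.1}) ∪ {st h.1, st k.1}) := by
    rw [Set.smul_set_union, Set.smul_set_sdiff, Set.smul_set_insert, Set.smul_set_insert,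
      Set.smul_set_singleton, Set.smul_set_singleton, hX.st_smul, hX.st_smul]
  show (F h ≠ F k ∧ ((g • v) \ {g • h.1, g • k.1}) ∪ {st (g • h.1), st (g • k.1)} ∈ V) ↔
    (h ≠ k ∧ (v \ {h.1, k.1}) ∪ {st h.1, st k.1} ∈ V)
  rw [e]
  constructor
  · rintro ⟨h1, h2⟩
    refine ⟨fun e1 => h1 (by rw [e1]), ?_⟩
    have h3 := hX.V_smul g⁻¹ _ h2
    rwa [inv_smul_smul] at h3
  · rintro ⟨h1, h2⟩
    exact ⟨fun e1 => h1 (hinj e1), hX.V_smul g _ h2⟩

variable [LinearOrder H]

/-- The `ℓ²`-Betti numbers of `X/Γ` are bounded by those of the right-angled Coxeter groups of the links. -/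
theorem betti_le_link (hX : CubAct Γ st V) (hK : VirtEmb Γ st V) (k : ℕ) :
    bettiC Γ st V k ≤ lkSum Γ st V k := by
  classical
  obtain ⟨K, hKf, hK⟩ := hK
  haveI := hKf
  obtain ⟨col, m, hcol, hne, hm⟩ := hX.exists_col K hK
  have hA : Stg (hX.dat K col hcol) (hX.Hs K) := hX.stg hne
  have hF := hX.flagd (hcol := hcol) hne
  have h1 := hF.betti hA k
  rw [hX.betti_index K hne k, hA.pre.osum_lin] at h1
  have h2 := hA.dz_le m (fun v s _ => hm s) k
  have h3 := hA.dz_le m (fun v s _ => hm s) (k + 1)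
  have hinv : ∀ (g : Γ), ∀ v ∈ V, SingerRA.l2Betti (lkH st V (g • v)) k /
      2 ^ Nat.card (Edg st V (g • v)) = SingerRA.l2Betti (lkH st V v) k /
      2 ^ Nat.card (Edg st V v) := by
    intro g v hv
    obtain ⟨e⟩ := hm_lk hX g hv
    haveI : Fintype (Edg st V v) := (hX.edge_fin hv).fintype
    haveI : Fintype (Edg st V (g • v)) := (hX.edge_fin (hX.V_smul g v hv)).fintype
    rw [l2Betti_iso e k, Nat.card_congr e.toEquiv]
  have h4 := hX.osum_index K (fun v => SingerRA.l2Betti (lkH st V v) k /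
      2 ^ Nat.card (Edg st V v)) hinv
  have h5 : (fun v : hX.VT K => SingerRA.l2Betti (lkH st V v.1.s) k /
      2 ^ Nat.card (Edg st V v.1.s)) = fun v => (hX.dat K col hcol).wl k v +
        (hX.dat K col hcol).wl (k + 1) v - (hX.dat K col hcol).cN (k + 1) v := by
    funext v
    haveI : Fintype (Edg st V v.1.s) := (hX.edge_fin v.2).fintype
    obtain ⟨e⟩ := hm_iso (K := K) (col := col) (hcol := hcol) hX v
    rw [hA.wl_l2 v (lkH st V v.1.s) e k, Nat.card_eq_fintype_card]
  rw [h5, hA.pre.osum_lin] at h4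
  have h6 : (0 : ℝ) < K.index := by
    have := Subgroup.FiniteIndex.index_ne_zero (H := K)
    exact_mod_cast Nat.pos_of_ne_zero this
  have h7 : (K.index : ℝ) * bettiC Γ st V k ≤ K.index * lkSum Γ st V k := by
    have h8 : (K.index : ℝ) * lkSum Γ st V k = osum K ((hX.dat K col hcol).wl k) +
        osum K ((hX.dat K col hcol).wl (k + 1)) - osum K ((hX.dat K col hcol).cN (k + 1)) :=
      h4.symm
    rw [h1, h8]
    have h9 : osum K (fun v => (hX.dat K col hcol).dz k v) = osum K ((hX.dat K col hcol).dz k) := rfl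
    linarith
  exact le_of_mul_le_mul_left h7 h6

private theorem hm_nonneg (k : ℕ) : 0 ≤ bettiC Γ st V k := by
  classical
  unfold bettiC
  refine finsum_nonneg fun o => ?_
  split_ifs with h1 h2
  · unfold locDim
    have h := (harm (cubCx st V)).starProjection_inner_eq_zero (delta ⟨o.out, h1⟩)
      ((harm (cubCx st V)).starProjection (delta ⟨o.out, h1⟩))
      ((harm (cubCx st V)).starProjection_apply_mem (delta ⟨o.out, h1⟩))
    rw [inner_sub_left, sub_eq_zero, real_inner_comm] at h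
    rw [h]
    exact real_inner_self_nonneg
  · exact le_refl _
  · exact le_refl _

/-- Atiyah's formula for the cube complex. -/
private theorem hm_euler (hX : CubAct Γ st V) (hK : VirtEmb Γ st V) :
    ∃ M : ℕ, ∀ m, M ≤ m →
      ∑ k ∈ Finset.range m, (-1 : ℝ) ^ k * bettiC Γ st V k = (chiC Γ st V : ℝ) := by
  classical
  obtain ⟨K, hKf, hK⟩ := hK
  haveI := hKf
  obtain ⟨col, M, hcol, hne, hm⟩ := hX.exists_col K hK
  have hA : Stg (hX.dat K col hcol) (hX.Hs K) := hX.stg hne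
  have hF := hX.flagd (hcol := hcol) hne
  refine ⟨M + 1, fun m hMm => ?_⟩
  have hb : ∀ x : (hX.dat K col hcol).Fl, x.σ.card < m := by
    intro x
    refine lt_of_lt_of_le (Nat.lt_succ_of_le ?_) hMm
    calc x.σ.card ≤ (Finset.range M).card := by
          refine Finset.card_le_card_of_injOn col (fun s _ => Finset.mem_coe.mpr
            (Finset.mem_range.mpr (hm s))) ?_
          intro s hs t ht e
          by_contra hst
          exact hne s t (x.2.2 s hs t ht hst) e
      _ = M := Finset.card_range M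
  have h1 := hF.euler hA m hb
  rw [hX.chi_index K] at h1
  have h6 : (K.index : ℝ) ≠ 0 := by
    exact_mod_cast Subgroup.FiniteIndex.index_ne_zero (H := K)
  refine mul_left_cancel₀ h6 ?_
  rw [← h1, Finset.mul_sum]
  refine Finset.sum_congr rfl fun k _ => ?_
  rw [hX.betti_index K hne k]
  ring

/-- The Singer conjecture. -/
theorem singer_cub (hX : CubAct Γ st V) (hK : VirtEmb Γ st V) (n : ℕ)
    (hL : ∀ v ∈ V, ∃ _ : Fintype (Edg st V v), SingerRA.F2Sphere n (lkH st V v)) :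
    (∀ k, 2 * k ≠ n → bettiC Γ st V k = 0) ∧
    (∀ k, 2 * k = n → bettiC Γ st V k = (-1 : ℝ) ^ k * (chiC Γ st V : ℝ)) ∧
    (∀ k, 2 * k = n → 0 ≤ (-1) ^ k * chiC Γ st V) ∧
    ((∀ k, bettiC Γ st V k = 0) ↔ chiC Γ st V = 0) := by
  classical
  have h1 : ∀ k, 2 * k ≠ n → bettiC Γ st V k = 0 := by
    intro k hk
    refine le_antisymm ?_ (hm_nonneg k)
    refine (betti_le_link hX hK k).trans (le_of_eq ?_)
    unfold lkSum
    refine finsum_eq_zero_of_forall_eq_zero fun o => ?_
    split_ifs with ho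
    · obtain ⟨i, hi⟩ := hL _ ho
      have h2 := (SingerRA.l2_all (SingerRA.homSphere_of_f2 n _ hi)).1 k hk
      rw [h2, zero_div]
    · rfl
  obtain ⟨M, hM⟩ := hm_euler hX hK
  have h2 : ∀ k, 2 * k = n → bettiC Γ st V k = (-1 : ℝ) ^ k * (chiC Γ st V : ℝ) := by
    intro k hk
    have h3 := hM (max M (k + 1)) (le_max_left _ _)
    rw [Finset.sum_eq_single k] at h3
    · rw [← h3, ← mul_assoc, ← mul_pow]
      norm_num
    · intro l _ hl
      rw [h1 l (by omega), mul_zero]
    · intro h4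
      exact absurd (Finset.mem_range.mpr (lt_of_lt_of_le (Nat.lt_succ_self k) (le_max_right _ _))) h4
  refine ⟨h1, h2, ?_, ?_, ?_⟩
  · intro k hk
    have h3 := hm_nonneg (Γ := Γ) (st := st) (V := V) k
    rw [h2 k hk] at h3
    exact_mod_cast h3
  · intro h3
    have h4 := hM M (le_refl _)
    rw [Finset.sum_eq_zero (fun k _ => by rw [h3 k, mul_zero])] at h4
    exact_mod_cast h4.symm
  · intro h3 k
    by_cases hk : 2 * k = n
    · rw [h2 k hk, h3, Int.cast_zero, mul_zero]
    · exact h1 k hk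

end SingerLG
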