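import Mathlib
import Pool.Agent.Lib_MP_394d50_bary.BSphere

/-!
# The links of the vertices of a cubed manifold are homology spheres: definitions

`K` is a finite simplicial complex (with the empty simplex), `ordC K` is its barycentric subdivision: the chains of non-empty
simplices.
-/

namespace SingerLG

/-- The non-empty simplices. -/
abbrev Fac {α : Type} (K : Set (Finset α)) : Type := {τ : Finset α // τ ∈ K ∧ τ.Nonempty}

/-- The barycentric subdivision. -/
def ordC {α : Type} (K : Set (Finset α)) : Set (Finset (Fac K)) :=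
  {σ | ∀ a ∈ σ, ∀ b ∈ σ, a.1 ⊆ b.1 ∨ b.1 ⊆ a.1}

/-- `K` is a simplicial complex with the empty simplex. -/
def Cpx {α : Type} (K : Set (Finset α)) : Prop := ∅ ∈ K ∧ ∀ σ ∈ K, ∀ τ ⊆ σ, τ ∈ K

end SingerLG
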