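import Mathlib
import Pool.Agent.Lib_MP_394d50_lg.QDefs

/-!
# Piece Q2: Euler characteristics

`euler_redBetti`: `redBetti F j = c_j - r_j - r_{j+1}` with `c_j = finrank (chn F j)` (`Sph.finrank_chn`), `r_j` the rank of `bdy` on `chn F j`, `r_0 = 0` (`Sph.bdy_zero`), `c_j = 0` for `j > card V` (`Sph.chn_eq_bot`): the alternating sum telescopes.
`euler_ordC`: for `a ∈ Fac K` let `S a` be the sum of `(-1) ^ |σ|` over the non-empty chains `σ` with largest element `a`. `S a = - (1 + ∑_{b ⊂ a} S b)` (remove the largest element). By induction on `|a|`: `S a = (-1) ^ |a|`, because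
`∑_{b ⊂ a, b ≠ a, b ≠ ∅} (-1) ^ |b| = - 1 - (-1) ^ |a|` (`Finset.sum_powerset_neg_one_pow_card`; all subsets of `a` are in `K`). Sum over all `a`, and the empty chain. (Alternatively, induction on the number of the simplices of `K`: remove a maximal simplex.)
-/

namespace SingerLG

open SingerRA

private theorem QEul_tele (r : ℕ → ℤ) (n : ℕ) :
    ∑ j ∈ Finset.range (n + 1), (-1 : ℤ) ^ j * (r j + r (j + 1)) = r 0 + (-1) ^ n * r (n + 1) := by
  induction n with
  | zero => simp
  | succ n ih =>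
    rw [Finset.sum_range_succ, ih, pow_succ]
    ring

open scoped Classical in
theorem euler_redBetti {V : Type} [Fintype V] (F : Set (Finset V)) (n : ℕ)
    (hn : Fintype.card V ≤ n) :
    ∑ j ∈ Finset.range (n + 1), (-1 : ℤ) ^ j * redBetti F j =
      ∑ σ : Finset V, if σ ∈ F then (-1 : ℤ) ^ σ.card else 0 := by
  have h0 : (Module.finrank (ZMod 2) ((chn F 0).map (bdy F)) : ℤ) = 0 := by
    have : (chn F 0).map (bdy F) = ⊥ := by
      rw [eq_bot_iff]
      rintro _ ⟨c, hc, rfl⟩
      rw [Sph.bdy_zero _ c hc]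
      exact Submodule.zero_mem _
    rw [this, finrank_bot]
    rfl
  have h1 : (Module.finrank (ZMod 2) ((chn F (n + 1)).map (bdy F)) : ℤ) = 0 := by
    have : chn F (n + 1) = ⊥ := by
      apply Sph.chn_eq_bot
      intro σ _ hσ
      have := Finset.card_le_univ σ
      omega
    rw [this, Submodule.map_bot, finrank_bot]
    rfl
  have h2 := QEul_tele (fun j => (Module.finrank (ZMod 2) ((chn F j).map (bdy F)) : ℤ)) n
  simp only [h0, h1, mul_zero, add_zero] at h2
  have h3 : ∑ j ∈ Finset.range (n + 1), (-1 : ℤ) ^ j * redBetti F j =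
      ∑ j ∈ Finset.range (n + 1), (-1 : ℤ) ^ j * (Module.finrank (ZMod 2) (chn F j) : ℤ) := by
    rw [← sub_eq_zero, ← Finset.sum_sub_distrib, ← neg_eq_zero, ← Finset.sum_neg_distrib, ← h2]
    refine Finset.sum_congr rfl fun j _ => ?_
    unfold redBetti
    ring
  rw [h3, ← Finset.sum_fiberwise_of_maps_to (s := Finset.univ) (t := Finset.range (n + 1))
    (g := fun σ : Finset V => σ.card) (fun σ _ => by
      rw [Finset.mem_range]
      have := Finset.card_le_univ σ
      omega)]
  refine Finset.sum_congr rfl fun j _ => ?_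
  rw [Sph.finrank_chn, Fintype.card_subtype]
  have h4 : ∑ σ ∈ Finset.univ.filter (fun σ : Finset V => σ.card = j),
      (if σ ∈ F then (-1 : ℤ) ^ σ.card else 0) =
      ∑ σ ∈ Finset.univ.filter (fun σ : Finset V => σ ∈ F ∧ σ.card = j), (-1 : ℤ) ^ j := by
    rw [← Finset.sum_filter, Finset.filter_filter]
    refine Finset.sum_congr ?_ fun σ hσ => ?_
    · ext σ
      simp [and_comm]
    · rw [(Finset.mem_filter.1 hσ).2.2]
  rw [h4, Finset.sum_const, nsmul_eq_mul, mul_comm]

open scoped Classical in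
private theorem QEul_chain {α β : Type} (g : β → Finset α) (hg : Function.Injective g)
    (hne : ∀ b, (g b).Nonempty) (n : ℕ) : ∀ A : Finset β, A.card = n →
    (∀ a ∈ A, ∀ ρ ⊆ g a, ρ.Nonempty → ∃ b ∈ A, g b = ρ) →
    ∑ C ∈ A.powerset, (if (∀ a ∈ C, ∀ b ∈ C, g a ⊆ g b ∨ g b ⊆ g a) then (-1 : ℤ) ^ C.card else 0) =
      1 + ∑ a ∈ A, (-1 : ℤ) ^ (g a).card := by
  induction n using Nat.strong_induction_on with
  | _ n ih =>
  intro A hA hcl
  rcases A.eq_empty_or_nonempty with rfl | hAne
  · simp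
  obtain ⟨τ, hτ, hmax⟩ := Finset.exists_max_image A (fun a => (g a).card) hAne
  -- equality from inclusion
  have heq : ∀ b ∈ A, g τ ⊆ g b → b = τ := by
    intro b hb h
    exact (hg (Finset.eq_of_subset_of_card_le h (hmax b hb))).symm
  set B := A.filter (fun b => g b ⊂ g τ) with hB
  have hBe : B ⊆ A.erase τ := by
    intro b hb
    rw [hB, Finset.mem_filter] at hb
    refine Finset.mem_erase.2 ⟨?_, hb.1⟩
    rintro rfl
    exact (ssubset_irrefl _) hb.2
  have hec : (A.erase τ).card < n := by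
    rw [← hA]
    exact Finset.card_erase_lt_of_mem hτ
  have h1 := ih _ hec (A.erase τ) rfl (by
    intro a ha ρ hρ hρn
    obtain ⟨b, hb, rfl⟩ := hcl a (Finset.mem_of_mem_erase ha) ρ hρ hρn
    refine ⟨b, Finset.mem_erase.2 ⟨?_, hb⟩, rfl⟩
    rintro rfl
    exact Finset.ne_of_mem_erase ha (heq a (Finset.mem_of_mem_erase ha) hρ))
  have h2 := ih _ (lt_of_le_of_lt (Finset.card_le_card hBe) hec) B rfl (by
    intro a ha ρ hρ hρn
    rw [hB, Finset.mem_filter] at ha
    obtain ⟨b, hb, rfl⟩ := hcl a ha.1 ρ hρ hρn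
    exact ⟨b, Finset.mem_filter.2 ⟨hb, lt_of_le_of_lt hρ ha.2⟩, rfl⟩)
  -- the sum over the boundary of `τ`
  have h3 : ∑ a ∈ B, (-1 : ℤ) ^ (g a).card = - 1 - (-1) ^ (g τ).card := by
    have e1 : ∑ ρ ∈ (g τ).powerset, (-1 : ℤ) ^ ρ.card = 0 := by
      rw [Finset.sum_powerset_neg_one_pow_card, if_neg (hne τ).ne_empty]
    have e2 : (g τ).powerset = insert ∅ (insert (g τ) (B.image g)) := by
      ext ρ
      rw [Finset.mem_powerset, Finset.mem_insert, Finset.mem_insert, Finset.mem_image]
      constructor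
      · intro h
        rcases ρ.eq_empty_or_nonempty with rfl | hρ
        · exact Or.inl rfl
        · by_cases h5 : ρ = g τ
          · exact Or.inr (Or.inl h5)
          · obtain ⟨b, hb, rfl⟩ := hcl τ hτ ρ h hρ
            exact Or.inr (Or.inr ⟨b, Finset.mem_filter.2 ⟨hb, lt_of_le_of_ne h h5⟩, rfl⟩)
      · rintro (rfl | rfl | ⟨b, hb, rfl⟩)
        · exact Finset.empty_subset _
        · exact Finset.Subset.refl _
        · exact (Finset.mem_filter.1 hb).2.1
    have e3 : g τ ∉ B.image g := by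
      rw [Finset.mem_image]
      rintro ⟨b, hb, h⟩
      have := (Finset.mem_filter.1 hb).2
      rw [h] at this
      exact (ssubset_irrefl _) this
    have e4 : (∅ : Finset α) ∉ insert (g τ) (B.image g) := by
      rw [Finset.mem_insert, Finset.mem_image]
      rintro (h | ⟨b, hb, h⟩)
      · exact (hne τ).ne_empty h.symm
      · exact (hne b).ne_empty h
    rw [e2, Finset.sum_insert e4, Finset.sum_insert e3,
      Finset.sum_image (fun a _ b _ h => hg h)] at e1
    rw [Finset.card_empty, pow_zero] at e1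
    linarith
  -- the chains through `τ`
  have h4 : ∑ C ∈ (A.erase τ).powerset, (if (∀ a ∈ insert τ C, ∀ b ∈ insert τ C,
      g a ⊆ g b ∨ g b ⊆ g a) then (-1 : ℤ) ^ (insert τ C).card else 0) =
      - ∑ C ∈ B.powerset, (if (∀ a ∈ C, ∀ b ∈ C, g a ⊆ g b ∨ g b ⊆ g a) then
        (-1 : ℤ) ^ C.card else 0) := by
    rw [← Finset.sum_neg_distrib]
    symm
    have hs : B.powerset ⊆ (A.erase τ).powerset := Finset.powerset_mono.2 hBe
    rw [← Finset.sum_subset hs]
    · refine Finset.sum_congr rfl fun C hC => ?_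
      rw [Finset.mem_powerset] at hC
      have hτC : τ ∉ C := fun h => Finset.notMem_erase τ A (hBe (hC h))
      rw [Finset.card_insert_of_notMem hτC]
      have hiff : (∀ a ∈ insert τ C, ∀ b ∈ insert τ C, g a ⊆ g b ∨ g b ⊆ g a) ↔
          (∀ a ∈ C, ∀ b ∈ C, g a ⊆ g b ∨ g b ⊆ g a) := by
        constructor
        · intro h a ha b hb
          exact h a (Finset.mem_insert_of_mem ha) b (Finset.mem_insert_of_mem hb)
        · intro h a ha b hb
          rcases Finset.mem_insert.1 ha with ha2 | ha2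
          · rcases Finset.mem_insert.1 hb with hb2 | hb2
            · rw [ha2, hb2]
              exact Or.inl (Finset.Subset.refl _)
            · rw [ha2]
              exact Or.inr (Finset.mem_filter.1 (hC hb2)).2.1
          · rcases Finset.mem_insert.1 hb with hb2 | hb2
            · rw [hb2]
              exact Or.inl (Finset.mem_filter.1 (hC ha2)).2.1
            · exact h a ha2 b hb2
      by_cases h : ∀ a ∈ C, ∀ b ∈ C, g a ⊆ g b ∨ g b ⊆ g a
      · rw [if_pos h, if_pos (hiff.2 h), pow_succ]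
        ring
      · rw [if_neg h, if_neg (fun h' => h (hiff.1 h')), neg_zero]
    · intro C hC hCB
      rw [if_neg]
      intro h
      apply hCB
      rw [Finset.mem_powerset] at hC ⊢
      intro b hb
      have hbA := Finset.mem_of_mem_erase (hC hb)
      have hbt := Finset.ne_of_mem_erase (hC hb)
      refine Finset.mem_filter.2 ⟨hbA, ?_⟩
      rcases h b (Finset.mem_insert_of_mem hb) τ (Finset.mem_insert_self _ _) with h5 | h5
      · exact lt_of_le_of_ne h5 (fun h6 => hbt (hg h6))
      · exact absurd (heq b hbA h5) hbt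
  have h5 := Finset.insert_erase hτ
  rw [← h5, Finset.sum_powerset_insert (Finset.notMem_erase τ A), h4, h1, h2, h3,
    Finset.sum_insert (Finset.notMem_erase τ A)]
  ring

open scoped Classical in
theorem euler_ordC {α : Type} [Fintype α] (K : Set (Finset α)) [Fintype (Fac K)] (hK : Cpx K) :
    (∑ σ : Finset (Fac K), if σ ∈ ordC K then (-1 : ℤ) ^ σ.card else 0) =
      ∑ τ : Finset α, if τ ∈ K then (-1 : ℤ) ^ τ.card else 0 := by
  have h1 := QEul_chain (fun b : Fac K => b.1) Subtype.val_injective (fun b => b.2.2) _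
    (Finset.univ : Finset (Fac K)) rfl (by
      intro a _ ρ hρ hρn
      exact ⟨⟨ρ, hK.2 a.1 a.2.1 ρ hρ, hρn⟩, Finset.mem_univ _, rfl⟩)
  rw [Finset.powerset_univ] at h1
  have h2 : (∑ σ : Finset (Fac K), if σ ∈ ordC K then (-1 : ℤ) ^ σ.card else 0) =
      1 + ∑ a : Fac K, (-1 : ℤ) ^ a.1.card := by
    rw [← h1]
    refine Finset.sum_congr rfl fun σ _ => ?_
    by_cases h : σ ∈ ordC K
    · rw [if_pos h, if_pos]
      exact h
    · rw [if_neg h, if_neg]
      exact h
  rw [h2]
  have h3 : ∑ a : Fac K, (-1 : ℤ) ^ a.1.card =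
      ∑ τ ∈ Finset.univ.filter (fun τ : Finset α => τ ∈ K ∧ τ.Nonempty), (-1 : ℤ) ^ τ.card := by
    symm
    refine Finset.sum_bij' (fun τ h => (⟨τ, (Finset.mem_filter.1 h).2⟩ : Fac K))
      (fun a _ => a.1) ?_ ?_ ?_ ?_ ?_
    · intro τ h
      exact Finset.mem_univ _
    · intro a _
      exact Finset.mem_filter.2 ⟨Finset.mem_univ _, a.2⟩
    · intro τ h
      rfl
    · intro a _
      rfl
    · intro τ h
      rfl
  have h4 : Finset.univ.filter (fun τ : Finset α => τ ∈ K) =
      insert ∅ (Finset.univ.filter (fun τ : Finset α => τ ∈ K ∧ τ.Nonempty)) := by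
    ext τ
    simp only [Finset.mem_filter, Finset.mem_univ, true_and, Finset.mem_insert]
    constructor
    · intro h
      rcases τ.eq_empty_or_nonempty with rfl | h5
      · exact Or.inl rfl
      · exact Or.inr ⟨h, h5⟩
    · rintro (rfl | h)
      · exact hK.1
      · exact h.1
  rw [← Finset.sum_filter, h4, Finset.sum_insert (by simp), h3, Finset.card_empty, pow_zero]

end SingerLG
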