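import Mathlib
import Pool.Agent.Lib_MP_394d50_lg.QDefs
import Pool.Agent.Lib_MP_394d50_cub.KBr

/-!
# Piece Q4: from `Sph` (finitely supported chains on sets of cubes) to `redBetti`

`φ` identifies the vertices of the subdivision with a set `Q'` of cubes, so that `σ ∈ ordC K ↔ σ.map φ ∈ KC Q'`. A function `f ∈ chn (ordC K) k` corresponds to the finitely supported function `z` on `Finset (Cb H)` with `z (σ.map φ) = f σ` (zero elsewhere), `OnK (KC Q') k z`, and `bF z` corresponds to `bdy f`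
(for `k ≥ 1`; for `k = 0` both vanish): `(bF z) (σ.map φ) = ∑_{p ∉ σ} f (insert p σ)`. So `Ex (KC Q') k` says that the cycles in `chn (ordC K) k` are boundaries, i.e. `redBetti = 0` (`Sph.finrank_cycles`, `Sph.map_le`), and the second part of `Sph m` says that the cycles modulo the boundaries have
exactly two elements, so dimension `1` (`Submodule.finrank` of the cycles is that of the boundaries plus `1`).
-/

namespace SingerLG

open SingerRA SingerCub

section qlk

open scoped Classical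
open SingerVS

private theorem qlk_bF {P : Type} (z : Finset P →₀ ZMod 2) (σ : Finset P) :
    bF z σ = ∑ τ ∈ z.support, z τ * ∑ p ∈ τ, (if τ.erase p = σ then (1 : ZMod 2) else 0) := by
  show (Finsupp.linearCombination (ZMod 2) (fun σ => ∑ p ∈ σ, Finsupp.single (σ.erase p) 1) z) σ = _
  rw [Finsupp.linearCombination_apply, Finsupp.sum, Finsupp.finsetSum_apply]
  refine Finset.sum_congr rfl fun τ _ => ?_
  rw [Finsupp.smul_apply, Finsupp.finsetSum_apply, smul_eq_mul]
  congr 1
  refine Finset.sum_congr rfl fun p _ => ?_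
  rw [Finsupp.single_apply]

/-- The finitely supported function on the sets of cubes as a function on the sets of vertices. -/
private noncomputable def qlkT {H P : Type} (e : P ↪ Cb H) (z : Finset (Cb H) →₀ ZMod 2) :
    Finset P → ZMod 2 := fun σ => z (σ.map e)

variable {H P : Type} [Fintype P] {F : Set (Finset P)} {e : P ↪ Cb H}

private theorem qlk_ex {τ : Finset (Cb H)} (h : τ ∈ KC (Set.range e)) :
    ∃ σ : Finset P, σ.map e = τ := by
  refine ⟨Finset.univ.filter (fun a => e a ∈ τ), ?_⟩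
  ext c
  rw [Finset.mem_map]
  constructor
  · rintro ⟨a, ha, rfl⟩
    exact (Finset.mem_filter.1 ha).2
  · intro hcτ
    obtain ⟨a, rfl⟩ := h.1 c hcτ
    exact ⟨a, Finset.mem_filter.2 ⟨Finset.mem_univ a, hcτ⟩, rfl⟩

omit [Fintype P] in
private theorem qlk_T_mem (hm : ∀ σ : Finset P, σ.map e ∈ KC (Set.range e) ↔ σ ∈ F) {k : ℕ} {z : Finset (Cb H) →₀ ZMod 2}
    (hz : OnK (KC (Set.range e)) k z) : qlkT e z ∈ chn F k := by
  intro σ hσ
  by_contra h
  obtain ⟨h1, h2⟩ := hz _ (Finsupp.mem_support_iff.2 h)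
  exact hσ ⟨(hm σ).1 h1, by rwa [Finset.card_map] at h2⟩

private theorem qlk_T_inj {k : ℕ} {z : Finset (Cb H) →₀ ZMod 2}
    (hz : OnK (KC (Set.range e)) k z) (h : qlkT e z = 0) : z = 0 := by
  ext τ
  by_contra h1
  obtain ⟨σ, rfl⟩ := qlk_ex (hz τ (Finsupp.mem_support_iff.2 h1)).1
  exact h1 (congrFun h σ)

private theorem qlk_T_surj (hm : ∀ σ : Finset P, σ.map e ∈ KC (Set.range e) ↔ σ ∈ F) {k : ℕ} {f : Finset P → ZMod 2}
    (hf : f ∈ chn F k) : ∃ z : Finset (Cb H) →₀ ZMod 2,
      OnK (KC (Set.range e)) k z ∧ qlkT e z = f := by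
  have h1 : ∀ τ : Finset (Cb H), (∑ σ : Finset P, Finsupp.single (σ.map e) (f σ)) τ =
      ∑ σ : Finset P, if σ.map e = τ then f σ else 0 := by
    intro τ
    rw [Finsupp.finsetSum_apply]
    refine Finset.sum_congr rfl fun σ _ => ?_
    rw [Finsupp.single_apply]
  have h2 : ∀ σ : Finset P,
      (∑ σ : Finset P, Finsupp.single (σ.map e) (f σ)) (σ.map e) = f σ := by
    intro σ
    rw [h1, Finset.sum_eq_single σ, if_pos rfl]
    · intro ρ _ hρ
      rw [if_neg]
      intro h
      exact hρ (Finset.map_injective e h)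
    · intro h
      exact absurd (Finset.mem_univ σ) h
  refine ⟨∑ σ : Finset P, Finsupp.single (σ.map e) (f σ), ?_, ?_⟩
  · intro τ hτ
    have h3 := Finsupp.mem_support_iff.1 hτ
    rw [h1] at h3
    obtain ⟨σ, _, h4⟩ := Finset.exists_ne_zero_of_sum_ne_zero h3
    have h5 : σ.map e = τ := by
      by_contra h
      exact h4 (if_neg h)
    rw [if_pos h5] at h4
    have h6 : σ ∈ F ∧ σ.card = k := by
      by_contra h
      exact h4 (hf σ h)
    rw [← h5]
    exact ⟨(hm σ).2 h6.1, by rw [Finset.card_map]; exact h6.2⟩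
  · funext σ
    exact h2 σ

private theorem qlk_down {Q : Set (Cb H)} {σ τ : Finset (Cb H)} (h : τ ∈ KC Q) (hs : σ ⊆ τ) :
    σ ∈ KC Q :=
  ⟨fun c hm => h.1 c (hs hm), fun c hm d hd => h.2 c (hs hm) d (hs hd)⟩

private theorem qlk_T_bF (hm : ∀ σ : Finset P, σ.map e ∈ KC (Set.range e) ↔ σ ∈ F) {k : ℕ} {z : Finset (Cb H) →₀ ZMod 2}
    (hz : OnK (KC (Set.range e)) k z) : qlkT e (bF z) = bdy F (qlkT e z) := by
  funext σ
  show bF z (σ.map e) = _
  rw [qlk_bF]
  by_cases hσ : σ ∈ F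
  · rw [Sph.bdy_apply _ _ _ hσ]
    have h1 : ∀ v : P, qlkT e z (insert v σ) =
        ∑ τ ∈ z.support, z τ * (if (insert v σ).map e = τ then 1 else 0) := by
      intro v
      simp only [mul_ite, mul_one, mul_zero]
      rw [Finset.sum_ite_eq]
      split_ifs with h
      · rfl
      · exact Finsupp.notMem_support_iff.1 h
    rw [Finset.sum_congr rfl (fun v _ => h1 v), Finset.sum_comm]
    refine Finset.sum_congr rfl fun τ hτ => ?_
    rw [← Finset.mul_sum]
    congr 1
    obtain ⟨ρ, rfl⟩ := qlk_ex (hz τ hτ).1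
    rw [Finset.sum_map, ← Finset.sum_filter, ← Finset.sum_filter]
    refine Finset.sum_congr ?_ fun _ _ => rfl
    ext v
    rw [Finset.mem_filter, Finset.mem_filter, Finset.mem_sdiff, ← Finset.map_erase]
    constructor
    · rintro ⟨h2, h3⟩
      have h4 := Finset.map_injective e h3
      refine ⟨⟨Finset.mem_univ v, ?_⟩, ?_⟩
      · rw [← h4]
        exact Finset.notMem_erase v ρ
      · rw [← h4, Finset.insert_erase h2]
    · rintro ⟨⟨_, h2⟩, h3⟩
      have h4 := Finset.map_injective e h3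
      rw [← h4]
      exact ⟨Finset.mem_insert_self v σ, by rw [Finset.erase_insert h2]⟩
  · rw [Sph.bdy_apply_not _ _ _ hσ]
    refine Finset.sum_eq_zero fun τ hτ => ?_
    rw [Finset.sum_eq_zero, mul_zero]
    intro p _
    rw [if_neg]
    intro h
    exact hσ ((hm σ).1 (qlk_down (hz τ hτ).1 (h ▸ Finset.erase_subset p τ)))

private theorem qlk_bF_mem {Q : Set (Cb H)} {k : ℕ} {z : Finset (Cb H) →₀ ZMod 2}
    (hz : OnK (KC Q) (k + 1) z) : OnK (KC Q) k (bF z) := by
  intro σ hσ
  have h1 := Finsupp.mem_support_iff.1 hσ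
  rw [qlk_bF] at h1
  obtain ⟨τ, hτ, h2⟩ := Finset.exists_ne_zero_of_sum_ne_zero h1
  obtain ⟨p, hp, h3⟩ := Finset.exists_ne_zero_of_sum_ne_zero (right_ne_zero_of_mul h2)
  have h4 : τ.erase p = σ := by
    by_contra h
    exact h3 (if_neg h)
  obtain ⟨h5, h6⟩ := hz τ hτ
  rw [← h4]
  refine ⟨qlk_down h5 (Finset.erase_subset p τ), ?_⟩
  rw [Finset.card_erase_of_mem hp, h6, Nat.add_sub_cancel]

private theorem qlk_bF_zero {Q : Set (Cb H)} {z : Finset (Cb H) →₀ ZMod 2}
    (hz : OnK (KC Q) 0 z) : bF z = 0 := by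
  ext σ
  rw [qlk_bF]
  refine Finset.sum_eq_zero fun τ hτ => ?_
  have h1 := Finset.card_eq_zero.1 (hz τ hτ).2
  rw [h1, Finset.sum_empty, mul_zero]

private theorem qlk_cyc (hm : ∀ σ : Finset P, σ.map e ∈ KC (Set.range e) ↔ σ ∈ F) {k : ℕ} {z : Finset (Cb H) →₀ ZMod 2}
    (hz : OnK (KC (Set.range e)) k z) (h : bdy F (qlkT e z) = 0) : bF z = 0 := by
  cases k with
  | zero => exact qlk_bF_zero hz
  | succ k =>
    refine qlk_T_inj (qlk_bF_mem hz) ?_
    rw [qlk_T_bF hm hz, h]

private theorem qlk_main (hF : Conv F) (hm : ∀ σ : Finset P, σ.map e ∈ KC (Set.range e) ↔ σ ∈ F) (m : ℕ) (h : SingerCub.Sph m (KC (Set.range e))) (j : ℕ) :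
    redBetti F j = if j = m then 1 else 0 := by
  have h1 := Sph.finrank_cycles F j
  split_ifs with hj
  · subst hj
    obtain ⟨-, z₀, hz₀, hb₀, hn₀, hu⟩ := h
    set B := (chn F (j + 1)).map (bdy F) with hB
    set f₀ := qlkT e z₀ with hf₀
    have hf₀Z : f₀ ∈ chn F j ⊓ LinearMap.ker (bdy F) := by
      refine ⟨qlk_T_mem hm hz₀, LinearMap.mem_ker.2 ?_⟩
      rw [hf₀, ← qlk_T_bF hm hz₀, hb₀]
      rfl
    have hf₀B : f₀ ∉ B := by
      rintro ⟨g, hg, hg2⟩
      obtain ⟨w, hw, rfl⟩ := qlk_T_surj hm hg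
      rw [← qlk_T_bF hm hw] at hg2
      refine hn₀ w hw ?_
      have h3 : OnK (KC (Set.range e)) j (bF w - z₀) := by
        intro σ hσ
        have h4 := Finsupp.support_sub hσ
        rcases Finset.mem_union.1 h4 with h5 | h5
        · exact qlk_bF_mem hw σ h5
        · exact hz₀ σ h5
      refine sub_eq_zero.1 (qlk_T_inj h3 ?_)
      funext σ
      have := congrFun hg2 σ
      show (bF w - z₀) (σ.map e) = 0
      rw [Finsupp.sub_apply, sub_eq_zero]
      exact this
    have hZ : chn F j ⊓ LinearMap.ker (bdy F) = B ⊔ Submodule.span (ZMod 2) {f₀} := by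
      apply le_antisymm
      · rintro f ⟨hf1, hf2⟩
        obtain ⟨z, hz, rfl⟩ := qlk_T_surj hm hf1
        have hb := qlk_cyc hm hz (LinearMap.mem_ker.1 hf2)
        obtain ⟨w, hw, h3⟩ := hu z hz hb
        have h4 : bdy F (qlkT e w) ∈ B := ⟨_, qlk_T_mem hm hw, rfl⟩
        rw [← qlk_T_bF hm hw] at h4
        rcases h3 with h3 | h3
        · rw [h3] at h4
          exact Submodule.mem_sup_left h4
        · have h5 : qlkT e z = qlkT e (bF w) - f₀ := by
            rw [h3]
            funext σ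
            show z (σ.map e) = (z + z₀) (σ.map e) - z₀ (σ.map e)
            rw [Finsupp.add_apply, add_sub_cancel_right]
          rw [h5]
          exact Submodule.sub_mem _ (Submodule.mem_sup_left h4)
            (Submodule.mem_sup_right (Submodule.mem_span_singleton_self f₀))
      · refine sup_le (Sph.map_le _ hF j) ?_
        rw [Submodule.span_singleton_le_iff_mem]
        exact hf₀Z
    have hI : B ⊓ Submodule.span (ZMod 2) {f₀} = ⊥ := by
      rw [eq_bot_iff]
      rintro f ⟨hf1, hf2⟩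
      obtain ⟨r, rfl⟩ := Submodule.mem_span_singleton.1 hf2
      by_cases hr : r = 0
      · rw [hr, zero_smul]
        exact Submodule.zero_mem _
      · exact absurd ((Submodule.smul_mem_iff _ hr).1 hf1) hf₀B
    have hne : f₀ ≠ 0 := fun h' => hf₀B (h' ▸ Submodule.zero_mem B)
    have h3 := Submodule.finrank_sup_add_finrank_inf_eq B (Submodule.span (ZMod 2) {f₀})
    rw [hI, finrank_bot, add_zero, finrank_span_singleton hne, ← hZ] at h3
    rw [h3] at h1
    push_cast at h1
    linarith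
  · have h2 : chn F j ⊓ LinearMap.ker (bdy F) =
        (chn F (j + 1)).map (bdy F) := by
      refine le_antisymm ?_ (Sph.map_le _ hF j)
      rintro f ⟨hf1, hf2⟩
      obtain ⟨z, hz, rfl⟩ := qlk_T_surj hm hf1
      have hb := qlk_cyc hm hz (LinearMap.mem_ker.1 hf2)
      obtain ⟨w, hw, h3⟩ := h.1 j hj z hz hb
      refine ⟨qlkT e w, qlk_T_mem hm hw, ?_⟩
      rw [← qlk_T_bF hm hw, h3]
    rw [h2] at h1
    linarith

end qlk

open scoped Classical in
theorem redBetti_of_sph {H α : Type} [Fintype α] (K : Set (Finset α)) [Fintype (Fac K)]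
    (φ : Fac K → Cb H) (hφ : Function.Injective φ)
    (hc : ∀ a b, ((φ a).s ⊆ (φ b).s ∨ (φ b).s ⊆ (φ a).s) ↔ (a.1 ⊆ b.1 ∨ b.1 ⊆ a.1)) (m : ℕ)
    (h : Sph m (KC (Set.range φ))) (j : ℕ) :
    redBetti (ordC K) j = if j = m then 1 else 0 := by
  refine qlk_main (e := ⟨φ, hφ⟩) ?_ ?_ m h j
  · intro σ _ τ hτ ρ _ h
    exact fun a ha b hb => hτ a (h ha) b (h hb)
  · intro σ
    constructor
    · rintro ⟨-, h⟩
      intro a ha b hb
      exact (hc a b).1 (h _ (Finset.mem_map_of_mem _ ha) _ (Finset.mem_map_of_mem _ hb))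
    · intro h
      refine ⟨?_, ?_⟩
      · intro c hcσ
        obtain ⟨a, _, rfl⟩ := Finset.mem_map.1 hcσ
        exact ⟨a, rfl⟩
      · intro c hcσ d hdσ
        obtain ⟨a, ha, rfl⟩ := Finset.mem_map.1 hcσ
        obtain ⟨b, hb, rfl⟩ := Finset.mem_map.1 hdσ
        exact (hc a b).2 (h a ha b hb)

end SingerLG
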