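import Mathlib
import Pool.Agent.Lib_MP_394d50_lg.QDefs

/-!
# Piece Q1: the homology of `K` is a retract of the homology of its barycentric subdivision

Everything over `ZMod 2`, `chn`, `bdy` as in `Lib_MP_394d50_bary/BDefs.lean` (`chn F j`: the functions supported on the members of `F` with `j` elements; `(bdy F f) τ = ∑_{v ∉ τ} f (insert v τ)` for `τ ∈ F`).
Choose a linear order of `α`.
`s` (subdivision): `(s f) σ = f (top σ)` if `σ` is a full flag, that is a chain of simplices of the sizes `1, ..., |σ|` (`top σ` the largest one, which has `|σ|` elements; `top ∅ = ∅`), and `0` otherwise.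
`r` (last vertices): `(r g) τ = ∑ g σ` over the chains `σ` with `|σ| = |τ|` and `{max a : a ∈ σ} = τ`.
`r (s f) = f`: for `τ` there is exactly one full flag `σ` with top `τ` whose maxima are the elements of `τ`: the initial segments of `τ`; a full flag `σ` with `{max a} = τ`, `|σ| = |τ|`, has its top `⊇ τ` with `|τ|` elements, so top `= τ`.
`bdy (s f) = s (bdy f)` at the chain `σ` with `j` elements (`f` supported on size `j + 1`): `∑_p (s f) (insert p σ)`: the `p` for which `insert p σ` is a full flag. If `σ` has the sizes `1..j`: `p` is the top, of size `j + 1`, `p = top σ ∪ {v}`: the sum is `∑_v f (insert v (top σ)) = (bdy f) (top σ)`.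
If `σ` has the sizes `{1..j+1} \ {i}`, `i ≤ j`: exactly two `p` (between the elements of sizes `i - 1` (or the empty set) and `i + 1`), the same top: the sum is `0`, and `(s (bdy f)) σ = 0`, as `σ` is not a full flag. Otherwise there is no `p`.
`bdy (r g) = r (bdy g)`: `max` is a simplicial map from the subdivision to `K` (the maxima of a chain with top `a` are in `a ∈ K`): at `τ ∈ K` with `|τ| = j`: both sides are sums of `g ρ` over the chains `ρ` with `j + 1` elements: the left over the `ρ` with `{max a : a ∈ ρ} = insert v τ`, `v ∉ τ`; the right: over the pairs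
`(ρ, p)`, `p ∈ ρ`, with `{max a : a ∈ ρ.erase p} = τ` (injective on `ρ.erase p`). If `max` is injective on `ρ` then its image is `insert v τ` and there is exactly one such `p`; if it is not injective and the image is `τ` (size `j`), then exactly two elements of `ρ` have the same `max`: exactly two `p`. `τ ∉ K`: both sides vanish.
-/

namespace SingerLG

open SingerRA

namespace QRet

open scoped Classical

section gen

variable {V W : Type}

/-- the basis -/
private noncomputable def E (σ : Finset V) : Finset V → ZMod 2 := fun τ => if τ = σ then 1 else 0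

private theorem E_apply (σ τ : Finset V) : E σ τ = if τ = σ then 1 else 0 := rfl

/-- the cone over a chain -/
private noncomputable def cone (b : V) :
    (Finset V → ZMod 2) →ₗ[ZMod 2] (Finset V → ZMod 2) where
  toFun g := fun σ => if b ∈ σ then g (σ.erase b) else 0
  map_add' f g := by
    funext τ
    simp only [Pi.add_apply]
    split_ifs <;> simp
  map_smul' r f := by
    funext τ
    simp only [Pi.smul_apply, RingHom.id_apply]
    split_ifs <;> simp

private theorem cone_apply (b : V) (g : Finset V → ZMod 2) (σ : Finset V) :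
    cone b g σ = if b ∈ σ then g (σ.erase b) else 0 := rfl

private theorem cone_E (b : V) (σ : Finset V) (h : b ∉ σ) : cone b (E σ) = E (insert b σ) := by
  funext τ
  rw [cone_apply, E_apply, E_apply]
  by_cases hb : b ∈ τ
  · rw [if_pos hb]
    simp only [Finset.erase_eq_iff_eq_insert hb h]
  · rw [if_neg hb, if_neg]
    rintro rfl
    exact hb (Finset.mem_insert_self _ _)

private theorem cone_E' (b : V) (σ : Finset V) (h : b ∈ σ) : cone b (E σ) = 0 := by
  funext τ
  rw [cone_apply, E_apply, Pi.zero_apply]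
  have h1 : τ.erase b ≠ σ := by
    rintro rfl
    exact Finset.notMem_erase _ _ h
  rw [if_neg h1, ite_self]

private theorem cone_ne (b : V) (g : Finset V → ZMod 2) (σ : Finset V) (h : cone b g σ ≠ 0) :
    ∃ ρ, g ρ ≠ 0 ∧ σ.card = ρ.card + 1 ∧ ∀ a ∈ σ, a = b ∨ a ∈ ρ := by
  rw [cone_apply] at h
  split_ifs at h with hb
  · refine ⟨_, h, (Finset.card_erase_add_one hb).symm, fun a ha => ?_⟩
    by_cases hab : a = b
    · exact Or.inl hab
    · exact Or.inr (Finset.mem_erase.2 ⟨hab, ha⟩)
  · exact absurd rfl h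

private theorem add_self' (x : Finset V → ZMod 2) : x + x = 0 := by
  funext τ
  exact CharTwo.add_self_eq_zero _

variable [Fintype V] [Fintype W]

private theorem lin_eq {M : Type} [AddCommGroup M] [Module (ZMod 2) M]
    (A : (Finset V → ZMod 2) →ₗ[ZMod 2] M) (f : Finset V → ZMod 2) :
    A f = ∑ σ, f σ • A (E σ) := by
  have h : f = ∑ σ, f σ • E σ := by
    funext τ
    rw [Finset.sum_apply, Finset.sum_eq_single τ]
    · simp [E_apply]
    · intro σ _ hσ
      simp [E_apply, hσ.symm]
    · intro h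
      exact absurd (Finset.mem_univ _) h
  conv_lhs => rw [h]
  rw [map_sum]
  exact Finset.sum_congr rfl fun σ _ => map_smul _ _ _

private theorem ext_on {M : Type} [AddCommGroup M] [Module (ZMod 2) M]
    (A B : (Finset V → ZMod 2) →ₗ[ZMod 2] M) (f : Finset V → ZMod 2)
    (h : ∀ σ, f σ ≠ 0 → A (E σ) = B (E σ)) : A f = B f := by
  rw [lin_eq A, lin_eq B]
  refine Finset.sum_congr rfl fun σ _ => ?_
  by_cases h0 : f σ = 0
  · rw [h0, zero_smul, zero_smul]
  · rw [h σ h0]

/-- the linear map with given values on the basis -/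
private noncomputable def lin {M : Type} [AddCommGroup M] [Module (ZMod 2) M] (T : Finset V → M) :
    (Finset V → ZMod 2) →ₗ[ZMod 2] M := Fintype.linearCombination (ZMod 2) T

private theorem lin_apply {M : Type} [AddCommGroup M] [Module (ZMod 2) M] (T : Finset V → M)
    (f : Finset V → ZMod 2) : lin T f = ∑ σ, f σ • T σ := Fintype.linearCombination_apply _ _ _

private theorem lin_E {M : Type} [AddCommGroup M] [Module (ZMod 2) M] (T : Finset V → M)
    (σ : Finset V) : lin T (E σ) = T σ := by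
  rw [lin_apply, Finset.sum_eq_single σ]
  · rw [E_apply, if_pos rfl, one_smul]
  · intro τ _ hτ
    rw [E_apply, if_neg hτ, zero_smul]
  · intro h
    exact absurd (Finset.mem_univ _) h

private theorem bdy_apply (F : Set (Finset V)) (f : Finset V → ZMod 2) (τ : Finset V) :
    bdy F f τ = if τ ∈ F then ∑ v ∈ Finset.univ \ τ, f (insert v τ) else 0 := rfl

private theorem bdy_E (F : Set (Finset V)) (hF : ∀ σ ∈ F, ∀ τ ⊆ σ, τ ∈ F) (τ : Finset V)
    (hτ : τ ∈ F) : bdy F (E τ) = ∑ v ∈ τ, E (τ.erase v) := by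
  funext ρ
  rw [bdy_apply, Finset.sum_apply]
  simp only [E_apply]
  by_cases hρ : ρ ∈ F
  · rw [if_pos hρ]
    have h1 : ∑ v ∈ Finset.univ \ ρ, (if insert v ρ = τ then (1 : ZMod 2) else 0) =
        ∑ v, if v ∉ ρ ∧ insert v ρ = τ then (1 : ZMod 2) else 0 := by
      rw [← Finset.sum_subset (Finset.subset_univ (Finset.univ \ ρ))]
      · refine Finset.sum_congr rfl fun v hv => ?_
        rw [Finset.mem_sdiff] at hv
        simp [hv.2]
      · intro v _ hv
        rw [if_neg]
        rintro ⟨h, -⟩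
        exact hv (by simp [h])
    have h2 : ∑ v ∈ τ, (if ρ = τ.erase v then (1 : ZMod 2) else 0) =
        ∑ v, if v ∈ τ ∧ ρ = τ.erase v then (1 : ZMod 2) else 0 := by
      rw [← Finset.sum_subset (Finset.subset_univ τ)]
      · refine Finset.sum_congr rfl fun v hv => ?_
        simp [hv]
      · intro v _ hv
        rw [if_neg]
        rintro ⟨h, -⟩
        exact hv h
    rw [h1, h2]
    refine Finset.sum_congr rfl fun v _ => ?_
    have h3 : (v ∉ ρ ∧ insert v ρ = τ) ↔ (v ∈ τ ∧ ρ = τ.erase v) := by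
      constructor
      · rintro ⟨h, rfl⟩
        exact ⟨Finset.mem_insert_self _ _, (Finset.erase_insert h).symm⟩
      · rintro ⟨h, rfl⟩
        exact ⟨Finset.notMem_erase _ _, Finset.insert_erase h⟩
    simp only [h3]
  · rw [if_neg hρ]
    symm
    refine Finset.sum_eq_zero fun v _ => ?_
    rw [if_neg]
    rintro rfl
    exact hρ (hF τ hτ _ (Finset.erase_subset _ _))

private theorem bdy_cone (F : Set (Finset V)) (hF : ∀ σ ∈ F, ∀ τ ⊆ σ, τ ∈ F) (b : V)
    (g : Finset V → ZMod 2) (hg : ∀ σ, g σ ≠ 0 → b ∉ σ ∧ insert b σ ∈ F) :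
    bdy F (cone b g) = g + cone b (bdy F g) := by
  refine ext_on ((bdy F).comp (cone b)) (LinearMap.id + (cone b).comp (bdy F)) g ?_
  intro σ hσ
  obtain ⟨h1, h2⟩ := hg σ hσ
  rw [LinearMap.comp_apply, LinearMap.add_apply, LinearMap.id_apply, LinearMap.comp_apply,
    cone_E b σ h1, bdy_E F hF _ h2, bdy_E F hF σ (hF _ h2 _ (Finset.subset_insert _ _)), map_sum,
    Finset.sum_insert h1, Finset.erase_insert h1]
  congr 1
  refine Finset.sum_congr rfl fun v hv => ?_
  rw [cone_E b _ fun h => h1 (Finset.mem_of_mem_erase h), Finset.erase_insert_of_ne]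
  rintro rfl
  exact h1 hv

/-- the image of a simplex -/
private noncomputable def img (φ : V → W) (σ : Finset V) : Finset W → ZMod 2 :=
  if (σ.image φ).card = σ.card then E (σ.image φ) else 0

/-- the map induced by a map of the vertices -/
private noncomputable def push (φ : V → W) :
    (Finset V → ZMod 2) →ₗ[ZMod 2] (Finset W → ZMod 2) := lin (img φ)

omit [Fintype W] in
private theorem push_E (φ : V → W) (σ : Finset V) : push φ (E σ) = img φ σ := lin_E _ _

omit [Fintype W] in
private theorem push_cone (φ : V → W) (b : V) (g : Finset V → ZMod 2)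
    (hg : ∀ σ, g σ ≠ 0 → b ∉ σ) : push φ (cone b g) = cone (φ b) (push φ g) := by
  refine ext_on ((push φ).comp (cone b)) ((cone (φ b)).comp (push φ)) g ?_
  intro σ hσ
  have h1 := hg σ hσ
  rw [LinearMap.comp_apply, LinearMap.comp_apply, cone_E b σ h1, push_E, push_E]
  unfold img
  rw [Finset.image_insert, Finset.card_insert_of_notMem h1]
  have hle : (σ.image φ).card ≤ σ.card := Finset.card_image_le
  by_cases hb : φ b ∈ σ.image φ
  · rw [Finset.insert_eq_of_mem hb, if_neg (by omega)]
    split_ifs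
    · rw [cone_E' _ _ hb]
    · rw [map_zero]
  · rw [Finset.card_insert_of_notMem hb]
    by_cases hc : (σ.image φ).card = σ.card
    · rw [if_pos (by omega), if_pos hc, cone_E _ _ hb]
    · rw [if_neg (by omega), if_neg hc, map_zero]

private theorem push_bdy (F : Set (Finset V)) (hF : ∀ σ ∈ F, ∀ τ ⊆ σ, τ ∈ F) (F' : Set (Finset W))
    (hF' : ∀ σ ∈ F', ∀ τ ⊆ σ, τ ∈ F') (φ : V → W) (hφ : ∀ σ ∈ F, σ.image φ ∈ F') (σ : Finset V)
    (hσ : σ ∈ F) : bdy F' (push φ (E σ)) = push φ (bdy F (E σ)) := by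
  rw [bdy_E F hF σ hσ, map_sum, push_E]
  simp only [push_E]
  by_cases hc : (σ.image φ).card = σ.card
  · have hinj := Finset.card_image_iff.1 hc
    have h1 : img φ σ = E (σ.image φ) := if_pos hc
    rw [h1, bdy_E F' hF' _ (hφ σ hσ), Finset.sum_image hinj]
    refine Finset.sum_congr rfl fun p hp => ?_
    have h2 : (σ.erase p).image φ = (σ.image φ).erase (φ p) := by
      ext w
      rw [Finset.mem_image, Finset.mem_erase, Finset.mem_image]
      constructor
      · rintro ⟨q, hq, rfl⟩
        rw [Finset.mem_erase] at hq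
        exact ⟨fun h => hq.1 (hinj hq.2 hp h), q, hq.2, rfl⟩
      · rintro ⟨h, q, hq, rfl⟩
        exact ⟨q, Finset.mem_erase.2 ⟨fun h' => h (by rw [h']), hq⟩, rfl⟩
    have h3 : img φ (σ.erase p) = E ((σ.erase p).image φ) := by
      refine if_pos ?_
      rw [h2, Finset.card_erase_of_mem (Finset.mem_image_of_mem φ hp), hc,
        Finset.card_erase_of_mem hp]
    rw [h3, h2]
  · have h1 : img φ σ = 0 := if_neg hc
    rw [h1, map_zero]
    have hninj : ¬ Set.InjOn φ σ := fun h => hc (Finset.card_image_iff.2 h)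
    have hex : ∃ p ∈ σ, ∃ q ∈ σ, φ p = φ q ∧ p ≠ q := by
      by_contra hcon
      push Not at hcon
      exact hninj fun p hp q hq h => hcon p hp q hq h
    obtain ⟨p, hp, q, hq, hpq, hne⟩ := hex
    have himg : ∀ a b : V, a ∈ σ → b ∈ σ → φ a = φ b → a ≠ b →
        (σ.erase a).image φ = σ.image φ := by
      intro a b _ hb hab hne'
      ext w
      rw [Finset.mem_image, Finset.mem_image]
      constructor
      · rintro ⟨c, hc', rfl⟩
        exact ⟨c, Finset.mem_of_mem_erase hc', rfl⟩
      · rintro ⟨c, hc', rfl⟩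
        by_cases hca : c = a
        · exact ⟨b, Finset.mem_erase.2 ⟨hne'.symm, hb⟩, by rw [hca, hab]⟩
        · exact ⟨c, Finset.mem_erase.2 ⟨hca, hc'⟩, rfl⟩
    have h2 : img φ (σ.erase p) = img φ (σ.erase q) := by
      unfold img
      rw [himg p q hp hq hpq hne, himg q p hq hp hpq.symm hne.symm, Finset.card_erase_of_mem hp,
        Finset.card_erase_of_mem hq]
    symm
    rw [Finset.sum_eq_add_of_mem p q hp hq hne, h2, add_self']
    intro c hc' hcc
    refine if_neg fun h => ?_
    have hinj := Finset.card_image_iff.1 h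
    exact hne (hinj (Finset.mem_erase.2 ⟨hcc.1.symm, hp⟩) (Finset.mem_erase.2 ⟨hcc.2.symm, hq⟩) hpq)

omit [Fintype V] [Fintype W] in
private theorem sum_sym (τ : Finset V) (H : V → V → (Finset W → ZMod 2))
    (hH : ∀ v w, H v w = H w v) : ∑ v ∈ τ, ∑ w ∈ τ.erase v, H v w = 0 := by
  rw [Finset.sum_sigma']
  refine Finset.sum_involution (fun x _ => ⟨x.2, x.1⟩) ?_ ?_ ?_ ?_
  · intro x _
    simp only
    rw [hH x.2 x.1, add_self']
  · intro x hx _ h
    rw [Finset.mem_sigma, Finset.mem_erase] at hx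
    have h1 := congrArg Sigma.fst h
    exact hx.2.1 h1
  · intro x hx
    rw [Finset.mem_sigma, Finset.mem_erase] at hx ⊢
    exact ⟨hx.2.2, hx.2.1.symm, hx.1⟩
  · intro x _
    rfl

end gen

section sd

variable {α : Type}

/-- the subdivision of a simplex with `n` elements -/
private noncomputable def sub (K : Set (Finset α)) : ℕ → Finset α → (Finset (Fac K) → ZMod 2)
  | 0, _ => E ∅
  | n + 1, τ => if h : τ ∈ K ∧ τ.Nonempty then cone ⟨τ, h⟩ (∑ v ∈ τ, sub K n (τ.erase v)) else 0

private theorem ordC_down (K : Set (Finset α)) : ∀ σ ∈ ordC K, ∀ τ ⊆ σ, τ ∈ ordC K :=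
  fun _ h _ h' a ha b hb => h a (h' ha) b (h' hb)

private theorem sub_succ (K : Set (Finset α)) (n : ℕ) (τ : Finset α) (h : τ ∈ K ∧ τ.Nonempty) :
    sub K (n + 1) τ = cone ⟨τ, h⟩ (∑ v ∈ τ, sub K n (τ.erase v)) := dif_pos h

private theorem sub_supp (K : Set (Finset α)) (hK : Cpx K) : ∀ (n : ℕ) (τ : Finset α), τ ∈ K →
    τ.card = n → ∀ σ, sub K n τ σ ≠ 0 → σ ∈ ordC K ∧ σ.card = n ∧ ∀ a ∈ σ, a.1 ⊆ τ := by
  intro n
  induction n with
  | zero =>
    intro τ _ _ σ hσ
    have h1 : σ = ∅ := by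
      by_contra hne
      apply hσ
      change E ∅ σ = 0
      rw [E_apply, if_neg hne]
    subst h1
    exact ⟨fun a ha => absurd ha (Finset.notMem_empty a), Finset.card_empty,
      fun a ha => absurd ha (Finset.notMem_empty a)⟩
  | succ n ih =>
    intro τ hτ hn σ hσ
    have hne : τ.Nonempty := Finset.card_pos.1 (by omega)
    rw [sub_succ K n τ ⟨hτ, hne⟩] at hσ
    obtain ⟨ρ, hρ, hcard, hmem⟩ := cone_ne _ _ _ hσ
    rw [Finset.sum_apply] at hρ
    obtain ⟨v, hv, hv'⟩ := Finset.exists_ne_zero_of_sum_ne_zero hρ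
    obtain ⟨h1, h2, h3⟩ := ih (τ.erase v) (hK.2 τ hτ _ (Finset.erase_subset _ _))
      (by rw [Finset.card_erase_of_mem hv]; omega) _ hv'
    have h4 : ∀ a ∈ σ, a.1 = τ ∨ (a.1 ⊆ τ.erase v ∧ a ∈ ρ) := by
      intro a ha
      rcases hmem a ha with hab | hab
      · left
        rw [hab]
      · exact Or.inr ⟨h3 a hab, hab⟩
    refine ⟨?_, ?_, ?_⟩
    · intro a ha b hb'
      rcases h4 a ha with ha1 | ha1
      · rcases h4 b hb' with hb1 | hb1
        · left
          rw [ha1, hb1]
        · right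
          rw [ha1]
          exact hb1.1.trans (Finset.erase_subset _ _)
      · rcases h4 b hb' with hb1 | hb1
        · left
          rw [hb1]
          exact ha1.1.trans (Finset.erase_subset _ _)
        · exact h1 a ha1.2 b hb1.2
    · rw [hcard, h2]
    · intro a ha
      rcases h4 a ha with ha1 | ha1
      · rw [ha1]
      · exact ha1.1.trans (Finset.erase_subset _ _)

private theorem sub_sum_supp (K : Set (Finset α)) (hK : Cpx K) (n : ℕ) (τ : Finset α)
    (hτ : τ ∈ K ∧ τ.Nonempty) (hn : τ.card = n + 1) (σ : Finset (Fac K))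
    (hσ : (∑ v ∈ τ, sub K n (τ.erase v)) σ ≠ 0) :
    (⟨τ, hτ⟩ : Fac K) ∉ σ ∧ insert (⟨τ, hτ⟩ : Fac K) σ ∈ ordC K := by
  rw [Finset.sum_apply] at hσ
  obtain ⟨v, hv, hv'⟩ := Finset.exists_ne_zero_of_sum_ne_zero hσ
  obtain ⟨h1, -, h3⟩ := sub_supp K hK n (τ.erase v) (hK.2 τ hτ.1 _ (Finset.erase_subset _ _))
    (by rw [Finset.card_erase_of_mem hv]; omega) _ hv'
  refine ⟨fun h => Finset.notMem_erase v τ (h3 _ h hv), ?_⟩
  intro a ha b hb
  rw [Finset.mem_insert] at ha hb
  rcases ha with rfl | ha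
  · rcases hb with rfl | hb
    · left
      exact Finset.Subset.refl _
    · right
      exact (h3 b hb).trans (Finset.erase_subset _ _)
  · rcases hb with rfl | hb
    · left
      exact (h3 a ha).trans (Finset.erase_subset _ _)
    · exact h1 a ha b hb

private theorem ins_eq {U : Type} (i j : DecidableEq U) (b : U) (σ : Finset U) :
    @Insert.insert U (Finset U) (@Finset.instInsert U i) b σ =
      @Insert.insert U (Finset U) (@Finset.instInsert U j) b σ := by
  have e : i = j := Subsingleton.elim i j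
  subst e
  rfl

variable [Fintype α]

omit [Fintype α] in
private theorem sub_bdy (K : Set (Finset α)) [Fintype (Fac K)] (hK : Cpx K) : ∀ (n : ℕ)
    (τ : Finset α), τ ∈ K → τ.card = n →
    bdy (ordC K) (sub K n τ) = ∑ v ∈ τ, sub K (n - 1) (τ.erase v) := by
  intro n
  induction n with
  | zero =>
    intro τ _ hn
    have h1 : τ = ∅ := Finset.card_eq_zero.1 hn
    subst h1
    change bdy (ordC K) (E ∅) = _
    rw [bdy_E _ (ordC_down K) ∅ fun a ha => absurd ha (Finset.notMem_empty a), Finset.sum_empty,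
      Finset.sum_empty]
  | succ n ih =>
    intro τ hτ hn
    have hne : τ.Nonempty := Finset.card_pos.1 (by omega)
    rw [sub_succ K n τ ⟨hτ, hne⟩, bdy_cone _ (ordC_down K) _ _ (fun σ hσ => by
      have := sub_sum_supp K hK n τ ⟨hτ, hne⟩ hn σ hσ
      exact ⟨this.1, Eq.mp (congrArg (fun x => x ∈ ordC K) (ins_eq _ _ _ _)) this.2⟩), map_sum]
    have h1 : ∑ v ∈ τ, bdy (ordC K) (sub K n (τ.erase v)) =
        ∑ v ∈ τ, ∑ w ∈ τ.erase v, sub K (n - 1) ((τ.erase v).erase w) := by
      refine Finset.sum_congr rfl fun v hv => ?_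
      exact ih _ (hK.2 τ hτ _ (Finset.erase_subset _ _))
        (by rw [Finset.card_erase_of_mem hv]; omega)
    rw [h1, sum_sym τ (fun v w => sub K (n - 1) ((τ.erase v).erase w))
      (fun v w => by rw [Finset.erase_right_comm]), map_zero, add_zero, Nat.add_sub_cancel]

omit [Fintype α] in
private theorem sub_push (K : Set (Finset α)) [Fintype (Fac K)] (hK : Cpx K) (φ : Fac K → α)
    (hφ : ∀ a : Fac K, φ a ∈ a.1) : ∀ (n : ℕ) (τ : Finset α), τ ∈ K → τ.card = n →
    push φ (sub K n τ) = E τ := by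
  intro n
  induction n with
  | zero =>
    intro τ _ hn
    have h1 : τ = ∅ := Finset.card_eq_zero.1 hn
    subst h1
    change push φ (E ∅) = _
    rw [push_E]
    unfold img
    rw [Finset.image_empty, if_pos (by rw [Finset.card_empty, Finset.card_empty])]
  | succ n ih =>
    intro τ hτ hn
    have hne : τ.Nonempty := Finset.card_pos.1 (by omega)
    rw [sub_succ K n τ ⟨hτ, hne⟩, push_cone φ _ _ (fun σ hσ =>
      (sub_sum_supp K hK n τ ⟨hτ, hne⟩ hn σ hσ).1), map_sum]
    have h1 : ∑ v ∈ τ, push φ (sub K n (τ.erase v)) = ∑ v ∈ τ, E (τ.erase v) := by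
      refine Finset.sum_congr rfl fun v hv => ?_
      exact ih _ (hK.2 τ hτ _ (Finset.erase_subset _ _))
        (by rw [Finset.card_erase_of_mem hv]; omega)
    rw [h1, map_sum, Finset.sum_eq_single (φ ⟨τ, ⟨hτ, hne⟩⟩)]
    · rw [cone_E _ _ (Finset.notMem_erase _ _), Finset.insert_erase (hφ ⟨τ, ⟨hτ, hne⟩⟩)]
    · intro v _ hv
      exact cone_E' _ _ (Finset.mem_erase.2 ⟨hv.symm, hφ ⟨τ, ⟨hτ, hne⟩⟩⟩)
    · intro h
      exact absurd (hφ ⟨τ, ⟨hτ, hne⟩⟩) h

omit [Fintype α] in
private theorem img_mem (K : Set (Finset α)) (hK : Cpx K) (φ : Fac K → α)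
    (hφ : ∀ a : Fac K, φ a ∈ a.1) (σ : Finset (Fac K)) (hσ : σ ∈ ordC K) : σ.image φ ∈ K := by
  rcases σ.eq_empty_or_nonempty with h | h
  · subst h
    exact hK.1
  · obtain ⟨b, hb, hb'⟩ := Finset.exists_max_image σ (fun a => a.1.card) h
    refine hK.2 b.1 b.2.1 _ ?_
    intro w hw
    obtain ⟨a, ha, rfl⟩ := Finset.mem_image.1 hw
    rcases hσ a ha b hb with h1 | h1
    · exact h1 (hφ a)
    · have h2 : b.1 = a.1 := Finset.eq_of_subset_of_card_le h1 (hb' a ha)
      rw [h2]
      exact hφ a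

end sd

end QRet

open scoped Classical in
theorem exists_retract {α : Type} [Fintype α] (K : Set (Finset α)) [Fintype (Fac K)] (hK : Cpx K) :
    ∃ (s : (Finset α → ZMod 2) →ₗ[ZMod 2] (Finset (Fac K) → ZMod 2))
      (r : (Finset (Fac K) → ZMod 2) →ₗ[ZMod 2] (Finset α → ZMod 2)),
      (∀ j, ∀ f ∈ chn K j, s f ∈ chn (ordC K) j ∧ r (s f) = f) ∧
      (∀ j, ∀ g ∈ chn (ordC K) j, r g ∈ chn K j) ∧
      (∀ j, ∀ f ∈ chn K j, bdy (ordC K) (s f) = s (bdy K f)) ∧
      ∀ j, ∀ g ∈ chn (ordC K) j, bdy K (r g) = r (bdy (ordC K) g) := by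
  set φ : Fac K → α := fun a => a.2.2.choose with hφ'
  have hφ : ∀ a : Fac K, φ a ∈ a.1 := fun a => a.2.2.choose_spec
  have hsup : ∀ (V : Type) (F : Set (Finset V)) (j : ℕ) (f : Finset V → ZMod 2), f ∈ chn F j →
      ∀ τ, f τ ≠ 0 → τ ∈ F ∧ τ.card = j := by
    intro V F j f hf τ hτ
    by_contra hcon
    exact hτ (hf τ hcon)
  refine ⟨QRet.lin fun τ => QRet.sub K τ.card τ, QRet.push φ, ?_, ?_, ?_, ?_⟩
  · intro j f hf
    refine ⟨?_, ?_⟩
    · intro σ hσ
      rw [QRet.lin_apply, Finset.sum_apply]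
      refine Finset.sum_eq_zero fun τ _ => ?_
      rw [Pi.smul_apply]
      by_cases h0 : f τ = 0
      · rw [h0, zero_smul]
      · obtain ⟨h1, h2⟩ := hsup _ _ _ _ hf τ h0
        have h3 : QRet.sub K τ.card τ σ = 0 := by
          by_contra hne
          obtain ⟨a1, a2, -⟩ := QRet.sub_supp K hK τ.card τ h1 rfl σ hne
          exact hσ ⟨a1, a2.trans h2⟩
        rw [h3, smul_zero]
    · refine QRet.ext_on ((QRet.push φ).comp (QRet.lin fun τ => QRet.sub K τ.card τ))
        LinearMap.id f fun τ hτ => ?_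
      obtain ⟨h1, -⟩ := hsup _ _ _ _ hf τ hτ
      rw [LinearMap.comp_apply, QRet.lin_E, LinearMap.id_apply]
      exact QRet.sub_push K hK φ hφ τ.card τ h1 rfl
  · intro j g hg τ hτ
    unfold QRet.push
    rw [QRet.lin_apply, Finset.sum_apply]
    refine Finset.sum_eq_zero fun σ _ => ?_
    rw [Pi.smul_apply]
    by_cases h0 : g σ = 0
    · rw [h0, zero_smul]
    · obtain ⟨h1, h2⟩ := hsup _ _ _ _ hg σ h0
      have h3 : QRet.img φ σ τ = 0 := by
        unfold QRet.img
        split_ifs with hc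
        · rw [QRet.E_apply, if_neg]
          rintro rfl
          exact hτ ⟨QRet.img_mem K hK φ hφ σ h1, hc.trans h2⟩
        · rfl
      rw [h3, smul_zero]
  · intro j f hf
    refine QRet.ext_on ((bdy (ordC K)).comp (QRet.lin fun τ => QRet.sub K τ.card τ))
      ((QRet.lin fun τ => QRet.sub K τ.card τ).comp (bdy K)) f fun τ hτ => ?_
    obtain ⟨h1, -⟩ := hsup _ _ _ _ hf τ hτ
    rw [LinearMap.comp_apply, LinearMap.comp_apply, QRet.lin_E, QRet.sub_bdy K hK τ.card τ h1 rfl,
      QRet.bdy_E K hK.2 τ h1, map_sum]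
    refine Finset.sum_congr rfl fun v hv => ?_
    rw [QRet.lin_E, Finset.card_erase_of_mem hv]
  · intro j g hg
    refine QRet.ext_on ((bdy K).comp (QRet.push φ)) ((QRet.push φ).comp (bdy (ordC K))) g
      fun σ hσ => ?_
    obtain ⟨h1, -⟩ := hsup _ _ _ _ hg σ hσ
    rw [LinearMap.comp_apply, LinearMap.comp_apply]
    exact QRet.push_bdy _ (QRet.ordC_down K) K hK.2 φ (fun σ hσ => QRet.img_mem K hK φ hφ σ hσ) σ h1

end SingerLG
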