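import Mathlib
import Pool.Agent.Lib_MP_394d50_lg.QRet
import Pool.Agent.Lib_MP_394d50_lg.QEul

/-!
# Piece Q3: a complex whose barycentric subdivision is a homology sphere is a homology sphere

`s`, `r` of `exists_retract`. For `j ≠ m`: the cycles of `K` are boundaries: `f` a cycle, `s f` a cycle, `= bdy g` (`Sph.exact_of_zero`), `f = r (s f) = bdy (r g)`; so `redBetti K j = 0` (`Sph.finrank_cycles`, `Sph.map_le`; `Conv` follows from `Cpx`).
For `j = m`: `0 ≤ redBetti K m ≤ redBetti (ordC K) m = 1`: the map induced by `s` on cycles modulo boundaries is injective. (In terms of dimensions: two cycles `f₁, f₂` of `K`: `s f₁`, `s f₂` or `s f₁ + s f₂` is a boundary, so `f₁`, `f₂` or `f₁ + f₂` is.) It is `1` by the Euler characteristics: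
`∑ (-1) ^ j redBetti K j = ∑ (-1) ^ j redBetti (ordC K) j = (-1) ^ m` (`euler_redBetti` for both with a large `n`, also `m ≤ n`; `euler_ordC`).
-/

namespace SingerLG

open SingerRA

private theorem QSd_conv {α : Type} (K : Set (Finset α)) (hK : Cpx K) : Conv K :=
  fun _ _ τ hτ ρ _ h => hK.2 τ hτ ρ h

private theorem QSd_convO {α : Type} (K : Set (Finset α)) : Conv (ordC K) :=
  fun _ _ _ hτ _ _ h a ha b hb => hτ a (h ha) b (h hb)

/-- the homology of a retract is not larger -/
private theorem QSd_dim {M M' : Type} [AddCommGroup M] [AddCommGroup M'] [Module (ZMod 2) M]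
    [Module (ZMod 2) M'] [FiniteDimensional (ZMod 2) M] [FiniteDimensional (ZMod 2) M']
    (s : M →ₗ[ZMod 2] M') (r : M' →ₗ[ZMod 2] M) (Z B : Submodule (ZMod 2) M)
    (Z' B' : Submodule (ZMod 2) M') (hB : B ≤ Z) (hB' : B' ≤ Z')
    (hsZ : ∀ z ∈ Z, s z ∈ Z') (hsB : ∀ z ∈ B, s z ∈ B') (hrs : ∀ z ∈ Z, r (s z) = z)
    (hrB : ∀ z ∈ B', r z ∈ B) :
    Module.finrank (ZMod 2) Z + Module.finrank (ZMod 2) B' ≤
      Module.finrank (ZMod 2) Z' + Module.finrank (ZMod 2) B := by
  have h1 : Function.Injective (s.domRestrict Z) := by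
    intro a b hab
    have h2 : s a.1 = s b.1 := hab
    have h3 := congrArg r h2
    rw [hrs _ a.2, hrs _ b.2] at h3
    exact Subtype.ext h3
  have h2 : Module.finrank (ZMod 2) (Z.map s) = Module.finrank (ZMod 2) Z := by
    have := LinearMap.finrank_range_of_inj h1
    rwa [LinearMap.range_domRestrict] at this
  have h3 : Z.map s ⊓ B' ≤ B.map s := by
    rintro _ ⟨⟨z, hz, rfl⟩, hz2⟩
    refine ⟨z, ?_, rfl⟩
    have := hrB _ hz2
    rwa [hrs z hz] at this
  have h4 : Module.finrank (ZMod 2) (Z.map s ⊓ B' : Submodule (ZMod 2) M') ≤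
      Module.finrank (ZMod 2) B :=
    (Submodule.finrank_mono h3).trans (Submodule.finrank_map_le s B)
  have h5 := Submodule.finrank_sup_add_finrank_inf_eq (Z.map s) B'
  have h6 : Module.finrank (ZMod 2) (Z.map s ⊔ B' : Submodule (ZMod 2) M') ≤
      Module.finrank (ZMod 2) Z' := by
    refine Submodule.finrank_mono (sup_le ?_ hB')
    rintro _ ⟨z, hz, rfl⟩
    exact hsZ z hz
  omega

open scoped Classical in
private theorem QSd_le {α : Type} [Fintype α] (K : Set (Finset α)) [Fintype (Fac K)]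
    (hK : Cpx K) (j : ℕ) : 0 ≤ redBetti K j ∧ redBetti K j ≤ redBetti (ordC K) j := by
  obtain ⟨s, r, h1, h2, h3, h4⟩ := exists_retract K hK
  have e1 := Sph.finrank_cycles K j
  have e2 := Sph.finrank_cycles (ordC K) j
  have l1 := Sph.map_le K (QSd_conv K hK) j
  have l2 := Sph.map_le (ordC K) (QSd_convO K) j
  have l3 := Submodule.finrank_mono l1
  have h5 := QSd_dim s r _ _ _ _ l1 l2 ?_ ?_ ?_ ?_
  · constructor <;> omega
  · rintro z ⟨hz1, hz2⟩
    refine ⟨(h1 j z hz1).1, ?_⟩
    have hz3 : bdy K z = 0 := hz2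
    show bdy (ordC K) (s z) = 0
    rw [h3 j z hz1, hz3, map_zero]
  · rintro _ ⟨f, hf, rfl⟩
    exact ⟨s f, (h1 (j + 1) f hf).1, h3 (j + 1) f hf⟩
  · rintro z ⟨hz1, _⟩
    exact (h1 j z hz1).2
  · rintro _ ⟨g, hg, rfl⟩
    exact ⟨r g, h2 (j + 1) g hg, h4 (j + 1) g hg⟩

open scoped Classical in
theorem redBetti_of_ordC {α : Type} [Fintype α] (K : Set (Finset α)) [Fintype (Fac K)]
    (hK : Cpx K) (m : ℕ) (h : ∀ j, redBetti (ordC K) j = if j = m then 1 else 0) (j : ℕ) :
    redBetti K j = if j = m then 1 else 0 := by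
  by_cases hj : j = m
  swap
  · have h1 := QSd_le K hK j
    rw [h j, if_neg hj] at h1
    rw [if_neg hj]
    omega
  subst hj
  rw [if_pos rfl]
  set n : ℕ := Fintype.card α + Fintype.card (Fac K) + j with hn
  have e1 := euler_redBetti K n (by omega)
  have e2 := euler_redBetti (ordC K) n (by omega)
  have e3 := euler_ordC K hK
  have hjn : j ∈ Finset.range (n + 1) := Finset.mem_range.2 (by omega)
  have e4 : ∑ i ∈ Finset.range (n + 1), (-1 : ℤ) ^ i * redBetti K i = (-1) ^ j * redBetti K j := by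
    refine Finset.sum_eq_single_of_mem j hjn fun i _ hi => ?_
    have h1 := QSd_le K hK i
    rw [h i, if_neg hi] at h1
    have h2 : redBetti K i = 0 := by omega
    rw [h2, mul_zero]
  have e5 : ∑ i ∈ Finset.range (n + 1), (-1 : ℤ) ^ i * redBetti (ordC K) i = (-1) ^ j := by
    rw [Finset.sum_eq_single_of_mem j hjn fun i _ hi => ?_]
    · rw [h j, if_pos rfl, mul_one]
    · rw [h i, if_neg hi, mul_zero]
  have e6 : (-1 : ℤ) ^ j * redBetti K j = (-1) ^ j * 1 := by
    rw [mul_one, ← e4, ← e5, e1, e2, e3]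
  exact mul_left_cancel₀ (pow_ne_zero j (by norm_num)) e6

end SingerLG
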