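import Mathlib
import Pool.Agent.Lib_MP_394d50_lg.QLk
import Pool.Agent.Lib_MP_394d50_lg.QSd
import Pool.Agent.Lib_MP_394d50_lg.HFlA
import Pool.Agent.Lib_MP_394d50_top.ADefs

/-!
# Piece Q5: the links of the vertices of a cubed homology manifold are homology spheres

`L = lkH st V v`. A clique `σ` of `L` gives the cube `cb σ = ⟨v \ {h : h ∈ σ}⟩` (in `Cub`: as in `cell_cub`/`flips` of HFlA, by medians; use `HFlA` for the stage with `K = ⊤`, `col = 0`: the flag `(v, {wall st h : h ∈ σ})`, `hsU` meets `v` exactly in `σ`); conversely every cube `c` with `c.s ⊆ v` is `cb σ` for the set `σ` of the undecided half-spaces in `v`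
(finite; edges at `v`, pairwise adjacent because the orientations which contain `c.s` are vertices). `cb σ ≤ cb τ` (as sets: `(cb σ).s ⊆ (cb τ).s`) iff `τ ⊆ σ`.
Let `σ` be a clique of `L` with `i` elements, `h₁, ..., h_i` its elements in some order, `C = {cb {h₁..h_a} : 0 ≤ a ≤ i}`, a chain of cubes with `i + 1` elements (`∈ cubX`). A cube comparable with all elements of `C`, not in `C`: it is comparable with `⟨v⟩`, a maximal set, so it is contained in `v`: `cb τ`; comparable with all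
`cb {h₁..h_a}`: if `τ` does not contain `σ` then (comparable with `cb σ`) `τ ⊆ σ`, and comparability with the full flag gives `τ = {h₁..h_a}`, `a = |τ|`. So `comp Q C = {cb τ : σ ⊂ τ}`, in bijection with the non-empty simplices `ρ = τ \ σ` of `slink L σ`: `φ ρ = cb (ρ ∪ σ)`.
`hM.link C` and `sphF2_iff` (KBr) give `Sph (n + 1 - (i + 1)) (KC (comp Q C))`, `hM.dim C`: `i + 1 ≤ n + 1`. `redBetti_of_sph`, `redBetti_of_ordC` for `K = slink L σ` give `redBetti (slink L σ) j = if j = n - i then 1 else 0`. (`slink` is a complex: `Cpx`. The instances of `DecidableEq` agree up to `Subsingleton.elim`.)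
-/

namespace SingerLG

open SingerVS SingerRA SingerCub
open scoped Pointwise

/-- the cube of the set `σ` of edges at `v` -/
private def QGeo_cb {H α : Type} (v : Set H) (ι : α → H) (σ : Finset α) : Cb H :=
  ⟨{h | h ∈ v ∧ ∀ e ∈ σ, h ≠ ι e}⟩

private theorem QGeo_mem {H α : Type} {v : Set H} {ι : α → H} (hι : Function.Injective ι)
    (hv : ∀ a, ι a ∈ v) {σ : Finset α} {a : α} : ι a ∈ (QGeo_cb v ι σ).s ↔ a ∉ σ := by
  constructor
  · rintro ⟨_, h⟩ ha
    exact h a ha rfl
  · intro ha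
    refine ⟨hv a, fun e he h => ha ?_⟩
    rw [hι h]
    exact he

private theorem QGeo_sub {H α : Type} {v : Set H} {ι : α → H} (hι : Function.Injective ι)
    (hv : ∀ a, ι a ∈ v) {σ τ : Finset α} :
    (QGeo_cb v ι σ).s ⊆ (QGeo_cb v ι τ).s ↔ τ ⊆ σ := by
  constructor
  · intro h a ha
    by_contra hn
    exact (QGeo_mem hι hv).mp (h ((QGeo_mem hι hv).mpr hn)) ha
  · rintro h k ⟨h1, h2⟩
    exact ⟨h1, fun e he => h2 e (h he)⟩

private theorem QGeo_inj {H α : Type} {v : Set H} {ι : α → H} (hι : Function.Injective ι)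
    (hv : ∀ a, ι a ∈ v) : Function.Injective (QGeo_cb v ι) := by
  intro σ τ e
  refine Finset.Subset.antisymm ((QGeo_sub hι hv).mp ?_) ((QGeo_sub hι hv).mp ?_)
  · rw [e]
  · rw [e]

/-- a full flag of subsets of `σ` -/
private theorem QGeo_flag {α : Type} [DecidableEq α] (σ : Finset α) :
    ∃ F : Finset (Finset α), F.card = σ.card + 1 ∧ (∀ τ ∈ F, τ ⊆ σ) ∧ ∅ ∈ F ∧ σ ∈ F ∧
      (∀ a ∈ F, ∀ b ∈ F, a ⊆ b ∨ b ⊆ a) ∧
      ∀ τ, τ ⊆ σ → (∀ a ∈ F, a ⊆ τ ∨ τ ⊆ a) → τ ∈ F := by
  induction σ using Finset.induction_on with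
  | empty =>
    refine ⟨{∅}, by simp, by simp, by simp, by simp, by simp, ?_⟩
    intro τ h _
    rw [Finset.mem_singleton]
    exact Finset.subset_empty.mp h
  | insert a σ ha ih =>
    obtain ⟨F, h1, h2, h3, h4, h5, h6⟩ := ih
    have hn : insert a σ ∉ F := fun h => ha (h2 _ h (Finset.mem_insert_self a σ))
    refine ⟨insert (insert a σ) F, ?_, ?_, ?_, ?_, ?_, ?_⟩
    · rw [Finset.card_insert_of_notMem hn, Finset.card_insert_of_notMem ha, h1]
    · intro τ hτ
      rcases Finset.mem_insert.mp hτ with rfl | h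
      · exact Finset.Subset.refl _
      · exact (h2 τ h).trans (Finset.subset_insert a σ)
    · exact Finset.mem_insert_of_mem h3
    · exact Finset.mem_insert_self _ _
    · intro x hx y hy
      rcases Finset.mem_insert.mp hx with rfl | hx
      · rcases Finset.mem_insert.mp hy with rfl | hy
        · exact Or.inl (Finset.Subset.refl _)
        · exact Or.inr ((h2 y hy).trans (Finset.subset_insert a σ))
      · rcases Finset.mem_insert.mp hy with rfl | hy
        · exact Or.inl ((h2 x hx).trans (Finset.subset_insert a σ))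
        · exact h5 x hx y hy
    · intro τ hτ hc
      rcases hc σ (Finset.mem_insert_of_mem h4) with h | h
      · by_cases ha' : a ∈ τ
        · have e : τ = insert a σ :=
            Finset.Subset.antisymm hτ (Finset.insert_subset ha' h)
          rw [e]
          exact Finset.mem_insert_self _ _
        · have e : τ = σ := Finset.Subset.antisymm
            (fun x hx => (Finset.mem_insert.mp (hτ hx)).resolve_left fun e => ha' (e ▸ hx)) h
          rw [e]
          exact Finset.mem_insert_of_mem h4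
      · exact Finset.mem_insert_of_mem (h6 τ h fun b hb => hc b (Finset.mem_insert_of_mem hb))

open scoped Classical in
private theorem QGeo_main {H α : Type} [Fintype α] {Q : Set (Cb H)} {n : ℕ} {v : Set H}
    {ι : α → H} (hι : Function.Injective ι) (hv : ∀ a, ι a ∈ v) (L : SimpleGraph α)
    (h1 : ∀ σ : Finset α, L.IsClique (σ : Set α) → QGeo_cb v ι σ ∈ Q)
    (h2 : ∀ c ∈ Q, (c.s ⊆ v ∨ v ⊆ c.s) →
      ∃ τ : Finset α, L.IsClique (τ : Set α) ∧ QGeo_cb v ι τ = c)
    (hLF : LF (OC Q)) (hM : HomMfd n (OC Q)) : F2Sphere n L := by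
  intro σ hσ j
  obtain ⟨F, f1, f2, f3, f4, f5, f6⟩ := QGeo_flag σ
  obtain ⟨C, hC⟩ : ∃ C : Finset (Cb H), C = F.image (QGeo_cb v ι) := ⟨_, rfl⟩
  have hinj := QGeo_inj hι hv
  have hcard : C.card = σ.card + 1 := by rw [hC, Finset.card_image_of_injective F hinj, f1]
  have hmem : ∀ c, c ∈ C ↔ ∃ τ ∈ F, QGeo_cb v ι τ = c := by
    intro c
    rw [hC]
    exact Finset.mem_image
  have hcl : ∀ τ : Finset α, τ ⊆ σ → L.IsClique (τ : Set α) := fun τ h =>
    hσ.subset (Finset.coe_subset.mpr h)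
  have hCO : C ∈ OC Q := by
    refine ⟨⟨_, (hmem _).mpr ⟨_, f3, rfl⟩⟩, ?_, ?_⟩
    · intro c hc
      obtain ⟨τ, hτ, rfl⟩ := (hmem _).mp hc
      exact h1 τ (hcl τ (f2 τ hτ))
    · intro c hc d hd
      obtain ⟨τ, hτ, rfl⟩ := (hmem _).mp hc
      obtain ⟨ρ, hρ, rfl⟩ := (hmem _).mp hd
      rw [QGeo_sub hι hv, QGeo_sub hι hv]
      exact (f5 τ hτ ρ hρ).symm
  have hdim := hM.dim C hCO
  have hS := (sphF2_iff hLF hCO _).mp (hM.link C hCO)
  have hK : Cpx (slink L σ) := by
    refine ⟨⟨Finset.disjoint_empty_left _, ?_⟩, ?_⟩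
    · rw [Finset.empty_union]
      exact hσ
    · rintro ρ ⟨a1, a2⟩ τ hτ
      exact ⟨a1.mono_left hτ,
        a2.subset (Finset.coe_subset.mpr (Finset.union_subset_union_left hτ))⟩
  have key : ∀ x y : Fac (slink L σ), x.1 ∪ σ ⊆ y.1 ∪ σ ↔ x.1 ⊆ y.1 := by
    intro x y
    constructor
    · intro h e he
      rcases Finset.mem_union.mp (h (Finset.mem_union_left _ he)) with h' | h'
      · exact h'
      · exact absurd h' (Finset.disjoint_left.mp x.2.1.1 he)
    · exact fun h => Finset.union_subset_union_left h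
  obtain ⟨φ, hφd⟩ : ∃ φ : Fac (slink L σ) → Cb H, ∀ ρ, φ ρ = QGeo_cb v ι (ρ.1 ∪ σ) :=
    ⟨_, fun _ => rfl⟩
  have hφ : Function.Injective φ := by
    intro a b hab
    rw [hφd, hφd] at hab
    have h3 := hinj hab
    exact Subtype.ext (Finset.Subset.antisymm ((key a b).mp (by rw [h3]))
      ((key b a).mp (by rw [h3])))
  have hc : ∀ a b, ((φ a).s ⊆ (φ b).s ∨ (φ b).s ⊆ (φ a).s) ↔ (a.1 ⊆ b.1 ∨ b.1 ⊆ a.1) := by
    intro a b
    rw [hφd, hφd, QGeo_sub hι hv, QGeo_sub hι hv, key, key, or_comm]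
  have hrange : comp Q C = Set.range φ := by
    ext c
    constructor
    · rintro ⟨c1, c2, c3⟩
      have h3 := c3 _ ((hmem _).mpr ⟨_, f3, rfl⟩)
      have h4 : (QGeo_cb v ι ∅).s = v := by
        ext h
        exact ⟨fun a => a.1, fun a => ⟨a, fun e he => absurd he (Finset.notMem_empty e)⟩⟩
      rw [h4] at h3
      obtain ⟨τ, h5, rfl⟩ := h2 c c1 h3
      have h6 : ¬ τ ⊆ σ := by
        intro h7
        refine c2 ((hmem _).mpr ⟨τ, f6 τ h7 fun a ha => ?_, rfl⟩)
        have h8 := c3 _ ((hmem _).mpr ⟨a, ha, rfl⟩)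
        rw [QGeo_sub hι hv, QGeo_sub hι hv] at h8
        exact h8
      have h7 : σ ⊆ τ := by
        have h8 := c3 _ ((hmem _).mpr ⟨σ, f4, rfl⟩)
        rw [QGeo_sub hι hv, QGeo_sub hι hv] at h8
        rcases h8 with h8 | h8
        · exact h8
        · exact absurd h8 h6
      refine ⟨⟨τ \ σ, ⟨Finset.sdiff_disjoint, ?_⟩, ?_⟩, ?_⟩
      · rw [Finset.sdiff_union_of_subset h7]
        exact h5
      · rw [Finset.nonempty_iff_ne_empty]
        intro h8
        exact h6 (Finset.sdiff_eq_empty_iff_subset.mp h8)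
      · rw [hφd]
        show QGeo_cb v ι (τ \ σ ∪ σ) = _
        rw [Finset.sdiff_union_of_subset h7]
    · rintro ⟨ρ, rfl⟩
      rw [hφd]
      refine ⟨h1 _ ρ.2.1.2, ?_, ?_⟩
      · intro h3
        obtain ⟨τ, hτ, h4⟩ := (hmem _).mp h3
        have h5 := hinj h4
        obtain ⟨a, ha⟩ := ρ.2.2
        have h6 : a ∈ τ := by
          rw [h5]
          exact Finset.mem_union_left _ ha
        exact Finset.disjoint_left.mp ρ.2.1.1 ha (f2 τ hτ h6)
      · intro d hd
        obtain ⟨τ, hτ, rfl⟩ := (hmem _).mp hd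
        left
        rw [QGeo_sub hι hv]
        exact (f2 τ hτ).trans Finset.subset_union_right
  rw [hcard, hrange] at hS
  have e := redBetti_of_ordC (slink L σ) hK _
    (fun i => redBetti_of_sph (slink L σ) φ hφ hc _ hS i) j
  rw [e]
  have h9 : (j = n + 1 - (σ.card + 1)) ↔ (σ.card + j = n) := by omega
  by_cases h10 : σ.card + j = n
  · rw [if_pos h10, if_pos (h9.mpr h10)]
  · rw [if_neg h10, if_neg (fun h => h10 (h9.mp h))]

open scoped Classical in
theorem f2_of_homMfd {H Γ : Type} [Group Γ] [MulAction Γ H] {st : H → H} {V : Set (Set H)}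
    (hX : CubAct Γ st V) (hLF : LF (cubX st Set.univ V)) {n : ℕ}
    (hM : HomMfd n (cubX st Set.univ V)) {v : Set H} (hv : v ∈ V) [Fintype (Edg st V v)] :
    F2Sphere n (lkH st V v) := by
  have hst := hX.st_mem hv
  have hov := hX.hs.ori v hv
  refine QGeo_main (Q := Cub st Set.univ V) (v := v) (ι := fun e : Edg st V v => e.1)
    Subtype.val_injective (fun a => a.2.1) (lkH st V v) ?_ ?_ hLF hM
  · intro σ hσ
    have hsub : σ.image (fun e => wall st e.1) ⊆
        (hX.dat (⊤ : Subgroup Γ) (fun _ => 0) (fun _ _ _ => rfl)).D ⟨⟨v⟩, hv⟩ := by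
      intro s hs
      obtain ⟨e, he, rfl⟩ := Finset.mem_image.mp hs
      exact hX.mem_D.mpr ⟨e.1, e.2.1, e.2.2, rfl⟩
    have hcl : (hX.dat (⊤ : Subgroup Γ) (fun _ => 0) (fun _ _ _ => rfl)).Cl
        (σ.image (fun e => wall st e.1)) := by
      intro s hs t ht hne
      obtain ⟨e, he, rfl⟩ := Finset.mem_image.mp hs
      obtain ⟨f, hf, rfl⟩ := Finset.mem_image.mp ht
      have hef : e ≠ f := fun h => hne (by rw [h])
      have h3 := hσ (Finset.mem_coe.mpr he) (Finset.mem_coe.mpr hf) hef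
      exact ⟨v, hv, e.1, e.2.1, f.1, f.2.1, fun h => hef (Subtype.ext h), rfl, rfl, e.2.2,
        f.2.2, h3.2⟩
    have h4 := hX.cell_cub ((hX.dat (⊤ : Subgroup Γ) (fun _ => 0) (fun _ _ _ => rfl)).fl
      ⟨⟨v⟩, hv⟩ (σ.image (fun e => wall st e.1)) ⟨hsub, hcl⟩)
    have h5 : (⟨v \ hsU (σ.image (fun e => wall st e.1))⟩ : Cb H) =
        QGeo_cb v (fun e : Edg st V v => e.1) σ := by
      apply Cb.ext
      ext k
      constructor
      · rintro ⟨k1, k2⟩
        refine ⟨k1, fun e he hk => k2 ?_⟩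
        unfold hsU
        rw [Set.mem_iUnion₂]
        exact ⟨wall st e.1, Finset.mem_image_of_mem _ he, Or.inl hk⟩
      · rintro ⟨k1, k2⟩
        refine ⟨k1, fun k3 => ?_⟩
        unfold hsU at k3
        rw [Set.mem_iUnion₂] at k3
        obtain ⟨s, hs, hk⟩ := k3
        obtain ⟨e, he, rfl⟩ := Finset.mem_image.mp hs
        rcases hk with hk | hk
        · exact k2 e he hk
        · rw [Set.mem_singleton_iff] at hk
          rw [hk] at k1
          exact (hst e.1).mp k1 e.2.1
    rw [← h5]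
    exact h4
  · intro c hc hcv
    obtain ⟨c1, c2, c3, c4⟩ := hc
    have hcv : c.s ⊆ v := by
      rcases hcv with h | h
      · exact h
      · intro k hk
        by_contra hkv
        exact c2 k hk (h ((hst k).mpr hkv))
    have hfl : ∀ h ∈ v, h ∉ c.s → flip st h v ∈ V := by
      intro h hh hhc
      refine c4 _ (hX.hs.ori_flip hov hh) ?_
      intro l hl
      exact mem_flip.mpr (Or.inr ⟨hcv hl, fun e => hhc (e ▸ hl)⟩)
    refine ⟨Finset.univ.filter fun e => e.1 ∉ c.s, ?_, ?_⟩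
    · intro e he f hf hef
      have he' := (Finset.mem_filter.mp (Finset.mem_coe.mp he)).2
      have hf' := (Finset.mem_filter.mp (Finset.mem_coe.mp hf)).2
      have hne : e.1 ≠ f.1 := fun h => hef (Subtype.ext h)
      refine ⟨hef, ?_⟩
      rw [← hX.flip_comm hv e.2.1 f.2.1 hne]
      have k5 : f.1 ∈ flip st e.1 v := mem_flip.mpr (Or.inr ⟨f.2.1, hne.symm⟩)
      refine c4 _ (hX.hs.ori_flip (hX.hs.ori_flip hov e.2.1) k5) ?_
      intro l hl
      exact mem_flip.mpr (Or.inr ⟨mem_flip.mpr (Or.inr ⟨hcv hl, fun h => he' (h ▸ hl)⟩),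
        fun h => hf' (h ▸ hl)⟩)
    · apply Cb.ext
      ext k
      constructor
      · rintro ⟨k1, k2⟩
        by_contra k3
        exact k2 ⟨k, k1, hfl k k1 k3⟩ (Finset.mem_filter.mpr ⟨Finset.mem_univ _, k3⟩) rfl
      · intro hk
        refine ⟨hcv hk, fun e he h => ?_⟩
        have h6 := (Finset.mem_filter.mp he).2
        have h7 : k = e.1 := h
        exact h6 (h7 ▸ hk)

end SingerLG
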