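import Mathlib
import Pool.Agent.Lib_MP_394d50_lg.QGeo
import Pool.Agent.Lib_MP_394d50_top.AMfd
import Pool.Agent.Lib_MP_394d50_vs.VBase

/-!
# Piece Q6: the barycentric subdivision of the cube complex is a free cofinite complex; cubed manifolds

`freeCx`: `cubX = OC (Cub ..)`. `ne`, `down`: clear. `inv`: `cub_smul`. `free`: `h • σ = σ`: `h` permutes the cubes of the chain `σ` and preserves the inclusions and the number of the undecided half-spaces (finite, `Cub`), so it fixes every cube of the chain (two different comparable cubes have different finite numbers of undecided half-spaces), `hX.free`.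
`fin`: the largest set (smallest cube) `c₀` of the chain is `g • r`, `r ∈ R`; the chain `g⁻¹ • σ` consists of cubes contained (as sets) in `r`, which are contained in a vertex `w ⊇ r.s`: `sub_fin`: finitely many chains for each `r` (only the `r ∈ R` which are cubes).
`LF`: `SingerCub.LF_of_freeCx` (KWal) or directly.
`f2_of_mfd`: `homMfd_or` (`Lib_MP_394d50_cmb/CHier.lean`), `f2_of_homMfd`, `edge_fin`.
-/

namespace SingerLG

open SingerVS SingerRA SingerCub
open scoped Pointwise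

variable {H Γ : Type} [Group Γ] [MulAction Γ H] {st : H → H} {V : Set (Set H)}

omit [Group Γ] [MulAction Γ H] in
/-- a larger set which leaves at least as many half-spaces undecided is equal -/
private theorem QFin_eq {c d : Cb H} (hc : c ∈ Cub st Set.univ V) (hd : d ∈ Cub st Set.univ V)
    (hcd : c.s ⊆ d.s)
    (h : {k | k ∈ Set.univ ∧ k ∉ c.s ∧ st k ∉ c.s}.ncard ≤
      {k | k ∈ Set.univ ∧ k ∉ d.s ∧ st k ∉ d.s}.ncard) : c = d := by
  have h1 : {k | k ∈ Set.univ ∧ k ∉ d.s ∧ st k ∉ d.s} ⊆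
      {k | k ∈ Set.univ ∧ k ∉ c.s ∧ st k ∉ c.s} :=
    fun k hk => ⟨hk.1, fun e => hk.2.1 (hcd e), fun e => hk.2.2 (hcd e)⟩
  have h2 := Set.eq_of_subset_of_ncard_le h1 h hc.2.2.1
  apply Cb.ext
  refine Set.Subset.antisymm hcd fun k hk => ?_
  by_contra hn
  have h3 : k ∈ {k | k ∈ Set.univ ∧ k ∉ c.s ∧ st k ∉ c.s} :=
    ⟨Set.mem_univ _, hn, fun e => hd.2.1 k hk (hcd e)⟩
  rw [← h2] at h3
  exact h3.2.1 hk

private theorem QFin_smul (hX : CubAct Γ st V) (g : Γ) (c : Cb H) :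
    {k | k ∈ Set.univ ∧ k ∉ (g • c).s ∧ st k ∉ (g • c).s}.ncard =
      {k | k ∈ Set.univ ∧ k ∉ c.s ∧ st k ∉ c.s}.ncard := by
  have h1 : {k | k ∈ Set.univ ∧ k ∉ (g • c).s ∧ st k ∉ (g • c).s} =
      (fun k => g • k) '' {k | k ∈ Set.univ ∧ k ∉ c.s ∧ st k ∉ c.s} := by
    ext k
    constructor
    · rintro ⟨_, h2, h3⟩
      rw [Cb.smul_s, Set.mem_smul_set_iff_inv_smul_mem] at h2 h3
      rw [← hX.st_smul] at h3
      exact ⟨g⁻¹ • k, ⟨Set.mem_univ _, h2, h3⟩, smul_inv_smul g k⟩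
    · rintro ⟨k, ⟨_, h2, h3⟩, rfl⟩
      refine ⟨Set.mem_univ _, ?_, ?_⟩
      · rw [Cb.smul_s, Set.smul_mem_smul_set_iff]
        exact h2
      · show st (g • k) ∉ g • c.s
        rw [hX.st_smul, Set.smul_mem_smul_set_iff]
        exact h3
  rw [h1]
  exact Set.ncard_image_of_injective _ (MulAction.injective g)

/-- a cube has a vertex -/
private theorem QFin_vert (hX : CubAct Γ st V) {c : Cb H} (hc : c ∈ Cub st Set.univ V) :
    ∃ w ∈ V, c.s ⊆ w := by
  obtain ⟨v, hv⟩ := hX.hs.nonempty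
  have h0 := hX.st_mem hv
  have hw : Ori st Set.univ (c.s ∪ {k | k ∈ v ∧ k ∉ c.s ∧ st k ∉ c.s}) := by
    refine ⟨Set.subset_univ _, fun k _ => ?_⟩
    constructor
    · rintro (h1 | ⟨h1, h2, h3⟩)
      · rintro (h4 | ⟨h4, h5, h6⟩)
        · exact hc.2.1 k h1 h4
        · rw [hX.hs.inv] at h6
          exact h6 h1
      · rintro (h4 | ⟨h4, h5, h6⟩)
        · exact h3 h4
        · exact (h0 k).mp h4 h1
    · intro h1
      by_contra h2
      have h3 : k ∉ c.s := fun e => h2 (Or.inl e)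
      have h4 : st k ∉ c.s := fun e => h1 (Or.inl e)
      have h5 : k ∉ v := fun e => h2 (Or.inr ⟨e, h3, h4⟩)
      refine h1 (Or.inr ⟨(h0 k).mpr h5, h4, ?_⟩)
      rw [hX.hs.inv]
      exact h3
  exact ⟨_, hc.2.2.2 _ hw Set.subset_union_left, Set.subset_union_left⟩

theorem CubAct.freeCx [DecidableEq (Cb H)] (hX : CubAct Γ st V) :
    FreeCx Γ (cubX st Set.univ V) := by
  have hinv : ∀ h : Γ, ∀ σ ∈ cubX st Set.univ V, h • σ ∈ cubX st Set.univ V := by
    rintro g σ ⟨h1, h2, h3⟩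
    refine ⟨h1.smul_finset, ?_, ?_⟩
    · intro c hc
      obtain ⟨d, hd, rfl⟩ := Finset.mem_smul_finset.mp hc
      exact hX.cub_smul g (h2 d hd)
    · intro c hc d hd
      obtain ⟨c', hc', rfl⟩ := Finset.mem_smul_finset.mp hc
      obtain ⟨d', hd', rfl⟩ := Finset.mem_smul_finset.mp hd
      rw [Cb.smul_s, Cb.smul_s, Set.smul_set_subset_smul_set_iff,
        Set.smul_set_subset_smul_set_iff]
      exact h3 c' hc' d' hd'
  refine ⟨fun σ hσ => hσ.1, ?_, hinv, ?_, ?_⟩
  · rintro σ ⟨_, h2, h3⟩ τ hτ hn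
    exact ⟨hn, fun c hc => h2 c (hτ hc), fun c hc d hd => h3 c (hτ hc) d (hτ hd)⟩
  · rintro g σ ⟨⟨c, hc⟩, h2, h3⟩ hg
    have hgc : g • c ∈ σ := by
      have h4 := Finset.smul_mem_smul_finset (a := g) hc
      rwa [hg] at h4
    refine hX.free g c (h2 c hc) ?_
    rcases h3 c hc _ hgc with h | h
    · exact (QFin_eq (h2 c hc) (h2 _ hgc) h (QFin_smul hX g c).ge).symm
    · exact QFin_eq (h2 _ hgc) (h2 c hc) h (QFin_smul hX g c).le
  · obtain ⟨R, hR⟩ := hX.fin
    have hfin : (⋃ r ∈ {r : Cb H | r ∈ R ∧ r ∈ Cub st Set.univ V},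
        {τ : Finset (Cb H) | τ ∈ cubX st Set.univ V ∧ ∀ c ∈ τ, c.s ⊆ r.s}).Finite := by
      refine Set.Finite.biUnion ((Finset.finite_toSet R).subset fun r hr => hr.1) ?_
      intro r hr
      obtain ⟨w, hw, hrw⟩ := QFin_vert hX hr.2
      have h1 := hX.sub_fin hw
      refine (Finset.finite_toSet h1.toFinset.powerset).subset ?_
      rintro τ ⟨h2, h3⟩
      rw [Finset.mem_coe, Finset.mem_powerset]
      intro c hc
      rw [Set.Finite.mem_toFinset]
      exact ⟨h2.2.1 c hc, (h3 c hc).trans hrw⟩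
    refine ⟨hfin.toFinset, ?_, ?_⟩
    · intro τ hτ
      rw [Set.Finite.mem_toFinset, Set.mem_iUnion₂] at hτ
      obtain ⟨r, _, h1⟩ := hτ
      exact h1.1
    · intro σ hσ
      obtain ⟨c, hc, hmin⟩ := Finset.exists_min_image σ
        (fun c : Cb H => {k | k ∈ Set.univ ∧ k ∉ c.s ∧ st k ∉ c.s}.ncard) hσ.1
      have hmax : ∀ d ∈ σ, d.s ⊆ c.s := by
        intro d hd
        rcases hσ.2.2 c hc d hd with h | h
        · have h1 := QFin_eq (hσ.2.1 c hc) (hσ.2.1 d hd) h (hmin d hd)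
          rw [h1]
        · exact h
      obtain ⟨g, r, hr, h1⟩ := hR c (hσ.2.1 c hc)
      have h2 : r = g⁻¹ • c := by rw [h1, inv_smul_smul]
      refine ⟨g, g⁻¹ • σ, ?_, (smul_inv_smul g σ).symm⟩
      rw [Set.Finite.mem_toFinset, Set.mem_iUnion₂]
      refine ⟨r, ⟨hr, ?_⟩, hinv _ σ hσ, ?_⟩
      · rw [h2]
        exact hX.cub_smul _ (hσ.2.1 c hc)
      · intro d hd
        obtain ⟨d', hd', rfl⟩ := Finset.mem_smul_finset.mp hd
        rw [h2, Cb.smul_s, Cb.smul_s, Set.smul_set_subset_smul_set_iff]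
        exact hmax d' hd'

/-- `HomMfd` does not depend on the decision procedure for equality. -/
theorem homMfd_dec {P : Type} (i j : DecidableEq P) {n : ℕ} {X : Set (Finset P)}
    (h : @HomMfd P i n X) : @HomMfd P j n X := by
  have e : i = j := Subsingleton.elim i j
  subst e
  exact h

private theorem QFin_LF {H : Type} (i j : DecidableEq (Cb H)) {X : Set (Finset (Cb H))}
    (h : @LF H i X) : @LF H j X := by
  have e : i = j := Subsingleton.elim i j
  subst e
  exact h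

private theorem QFin_or {P : Type} [DecidableEq P] [MulAction Γ P] {X : Set (Finset P)}
    (hX : FreeCx Γ X) {n : ℕ} (h : LocEuc n (geo X) ∨ HomMfd n X) : HomMfd n X := by
  rcases h with h | h
  · refine homMfd_of_locEuc (fun σ hσ τ h1 h2 => hX.down σ hσ τ h1 h2) hX.ne (fun σ hσ => ?_) h
    obtain ⟨v, hv⟩ := hX.ne σ hσ
    exact (hX.star_finite v).subset fun τ hτ => ⟨hτ.1, hτ.2 hv⟩
  · exact h

/-- The links of the vertices of a cubed manifold are homology spheres. -/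
theorem f2_of_mfd [LinearOrder (Cb H)] (hX : CubAct Γ st V) {n : ℕ}
    (hM : LocEuc n (geo (cubX st Set.univ V)) ∨ HomMfd n (cubX st Set.univ V)) :
    ∀ v ∈ V, ∃ _ : Fintype (Edg st V v), F2Sphere n (lkH st V v) := by
  intro v hv
  have hF : FreeCx Γ (cubX st Set.univ V) := hX.freeCx
  have h1 := QFin_or hF hM
  have h2 : LF (cubX st Set.univ V) := fun _ hσ => hF.nb_finite hσ
  refine ⟨(hX.edge_fin hv).fintype, ?_⟩
  have h3 := @f2_of_homMfd H Γ _ _ st V hX (QFin_LF _ _ h2) n (homMfd_dec _ _ h1) v hv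
    (hX.edge_fin hv).fintype
  exact h3

end SingerLG
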